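import Pool.Agent.Lib.MP_6e8030_nt.Defs

open IntermediateField
open scoped ComplexConjugate

noncomputable section

namespace OzakiFree

instance instAlgebraicOm : Algebra.IsAlgebraic ℚ Om := by
  have h : @Algebra.IsAlgebraic ℚ Om _ _ (AlgebraicClosure.instAlgebra (R := ℚ) ℚ) :=
    AlgebraicClosure.isAlgebraic ℚ
  have e : (DivisionRing.toRatAlgebra : Algebra ℚ Om) = AlgebraicClosure.instAlgebra (R := ℚ) ℚ :=
    Subsingleton.elim _ _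
  rw [← e] at h
  exact h

instance instAlgClosureOm : IsAlgClosure ℚ Om := ⟨inferInstance, inferInstance⟩

/-! ### functions on an ambient group which are homomorphisms / locally constant on a subgroup -/

def HomOn {Γ : Type*} [Group Γ] (P : Subgroup Γ) {A : Type*} [Add A] (χ : Γ → A) : Prop :=
  ∀ g ∈ P, ∀ h ∈ P, χ (g * h) = χ g + χ h

def LCOn {Γ : Type*} [Group Γ] [TopologicalSpace Γ] (P : Subgroup Γ) {A : Type*} (χ : Γ → A) :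
    Prop :=
  ∃ U : Subgroup Γ, IsOpen (U : Set Γ) ∧ ∀ g ∈ P, ∀ u ∈ U, u ∈ P → χ (g * u) = χ g

/-- lifting homomorphisms to `ZMod p` to `ZMod (p^2)`, for `H/R` -/
def Lift1 {Γ : Type*} [Group Γ] [TopologicalSpace Γ] (p : ℕ) (H R : Subgroup Γ) : Prop :=
  ∀ χ : Γ → ZMod p, HomOn H χ → LCOn H χ → (∀ r ∈ R, χ r = 0) →
    ∃ χ' : Γ → ZMod (p ^ 2), HomOn H χ' ∧ LCOn H χ' ∧ (∀ r ∈ R, χ' r = 0) ∧
      ∀ g ∈ H, ((χ' g).cast : ZMod p) = χ g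

/-- Heisenberg lifts, for `H/R` -/
def Lift2 {Γ : Type*} [Group Γ] [TopologicalSpace Γ] (p : ℕ) (H R : Subgroup Γ) : Prop :=
  ∀ χ ζ : Γ → ZMod p, HomOn H χ → LCOn H χ → (∀ r ∈ R, χ r = 0) →
    HomOn H ζ → LCOn H ζ → (∀ r ∈ R, ζ r = 0) →
    ∃ φ : Γ → ZMod p, LCOn H φ ∧ (∀ r ∈ R, φ r = 0) ∧
      ∀ g ∈ H, ∀ h ∈ H, φ (g * h) = φ g + φ h + χ g * ζ h

/-- the absolute Galois group of `L(K)`, as a subgroup of the absolute Galois group of `ℚ` -/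
def RL (p : ℕ) (K : IntermediateField ℚ Om) : Subgroup GQ :=
  (maxUnram p K).fixingSubgroup

/-- `Gal(Om / ℚ(μ_{p^∞}))` -/
def Pmu (p : ℕ) : Subgroup GQ := (adjoin ℚ (muInf p)).fixingSubgroup

/-- `Gal(Om / ℚ_∞)` for `p = 2`, `ℚ_∞ = ℚ(ζ + ζ⁻¹ : ζ ∈ μ_{2^∞})` -/
def P2 : Subgroup GQ := (adjoin ℚ {y : Om | ∃ ζ ∈ muInf 2, y = ζ + ζ⁻¹}).fixingSubgroup


end OzakiFree
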