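import Pool.Agent.Lib.MP_6e8030_nt.Stmts

open IntermediateField
open scoped ComplexConjugate

noncomputable section

namespace OzakiFree

open Classical in
def chiAux {p : ℕ} (ζ y z : Om) : ZMod p :=
  if h : ∃ e : ZMod p, z = ζ ^ e.val * y then h.choose else 0

/-- Kummer character: `σ y = ζ ^ (chi ζ y σ) * y` -/
def chi {p : ℕ} (ζ y : Om) (σ : GQ) : ZMod p := chiAux ζ y (σ y)

/-- `y` is a nonzero `p`-th root of an integer -/
def IsRt (p : ℕ) (y : Om) (a : ℤ) : Prop := y ^ p = (a : Om) ∧ a ≠ 0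

variable {p : ℕ} {ζ y y' : Om} {a a' : ℤ}

theorem IsRt.ne_zero (h : IsRt p y a) (hp : p.Prime) : y ≠ 0 := by
  rintro rfl
  have := h.1
  rw [zero_pow hp.ne_zero] at this
  exact h.2 (by exact_mod_cast this.symm)

theorem IsRt.mul (h : IsRt p y a) (h' : IsRt p y' a') : IsRt p (y * y') (a * a') :=
  ⟨by rw [mul_pow, h.1, h'.1]; push_cast; rfl, mul_ne_zero h.2 h'.2⟩

theorem IsRt.pow (h : IsRt p y a) (k : ℕ) : IsRt p (y ^ k) (a ^ k) :=
  ⟨by rw [← pow_mul, mul_comm, pow_mul, h.1]; push_cast; rfl, pow_ne_zero _ h.2⟩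

theorem exists_rt (hp : p.Prime) (a : ℤ) (ha : a ≠ 0) : ∃ y, IsRt p y a := by
  obtain ⟨y, hy⟩ := IsAlgClosed.exists_pow_nat_eq (a : Om) hp.pos
  exact ⟨y, hy, ha⟩

theorem chi_spec (hp : p.Prime) (hζ : IsPrimitiveRoot ζ p) (h : IsRt p y a) (σ : GQ) :
    σ y = ζ ^ (chi (p := p) ζ y σ).val * y := by
  have : NeZero p := ⟨hp.ne_zero⟩
  have hy := h.ne_zero hp
  have h1 : (σ y / y) ^ p = 1 := by
    rw [div_pow, ← map_pow, h.1, map_intCast, div_self]
    exact_mod_cast h.2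
  obtain ⟨i, hi, hi'⟩ := hζ.eq_pow_of_pow_eq_one h1
  have hex : ∃ e : ZMod p, σ y = ζ ^ e.val * y := by
    refine ⟨(i : ZMod p), ?_⟩
    rw [ZMod.val_natCast, Nat.mod_eq_of_lt hi, hi', div_mul_cancel₀ _ hy]
  unfold chi chiAux
  rw [dif_pos hex]
  exact hex.choose_spec

theorem pow_val_eq (hζ : IsPrimitiveRoot ζ p) (n : ℕ) :
    ζ ^ ((n : ZMod p)).val = ζ ^ n := by
  rw [ZMod.val_natCast, ← pow_mod_orderOf, ← hζ.eq_orderOf, Nat.mod_mod, hζ.eq_orderOf,
    pow_mod_orderOf]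

theorem chi_unique (hp : p.Prime) (hζ : IsPrimitiveRoot ζ p) (h : IsRt p y a) (σ : GQ) (n : ℕ)
    (hn : σ y = ζ ^ n * y) : chi (p := p) ζ y σ = n := by
  have : NeZero p := ⟨hp.ne_zero⟩
  have h1 := chi_spec hp hζ h σ
  rw [hn] at h1
  have h2 := mul_right_cancel₀ (h.ne_zero hp) h1
  rw [← pow_val_eq hζ n] at h2
  have h3 := hζ.pow_inj (ZMod.val_lt _) (ZMod.val_lt _) h2
  exact (ZMod.val_injective p h3).symm

theorem chi_eq_zero_iff (hp : p.Prime) (hζ : IsPrimitiveRoot ζ p) (h : IsRt p y a) (σ : GQ) :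
    chi (p := p) ζ y σ = 0 ↔ σ y = y := by
  have : NeZero p := ⟨hp.ne_zero⟩
  constructor
  · intro h0
    have := chi_spec hp hζ h σ
    rwa [h0, ZMod.val_zero, pow_zero, one_mul] at this
  · intro h0
    have := chi_unique hp hζ h σ 0 (by rw [h0, pow_zero, one_mul])
    simpa using this

theorem chi_mul (hp : p.Prime) (hζ : IsPrimitiveRoot ζ p) (h : IsRt p y a) (h' : IsRt p y' a')
    (σ : GQ) : chi (p := p) ζ (y * y') σ = chi ζ y σ + chi ζ y' σ := by
  have : NeZero p := ⟨hp.ne_zero⟩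
  have := chi_unique hp hζ (h.mul h') σ ((chi (p := p) ζ y σ).val + (chi (p := p) ζ y' σ).val) (by
    rw [map_mul, chi_spec hp hζ h, chi_spec hp hζ h', pow_add]; ring)
  rw [this]; push_cast; simp

theorem chi_pow (hp : p.Prime) (hζ : IsPrimitiveRoot ζ p) (h : IsRt p y a) (k : ℕ)
    (σ : GQ) : chi (p := p) ζ (y ^ k) σ = (k : ZMod p) * chi (p := p) ζ y σ := by
  have : NeZero p := ⟨hp.ne_zero⟩
  have := chi_unique hp hζ (h.pow k) σ (k * (chi (p := p) ζ y σ).val) (by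
    rw [map_pow, chi_spec hp hζ h, mul_pow, ← pow_mul]; ring)
  rw [this]; push_cast; simp

theorem chi_homOn (hp : p.Prime) (hζ : IsPrimitiveRoot ζ p) (h : IsRt p y a) (P : Subgroup GQ)
    (hP : ∀ σ ∈ P, σ ζ = ζ) : HomOn P (chi (p := p) ζ y) := by
  have : NeZero p := ⟨hp.ne_zero⟩
  intro g hg g' _
  have := chi_unique hp hζ h (g * g') ((chi (p := p) ζ y g).val + (chi (p := p) ζ y g').val) (by
    rw [AlgEquiv.mul_apply, chi_spec hp hζ h g', map_mul, map_pow, hP g hg, chi_spec hp hζ h g,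
      pow_add]; ring)
  rw [this]; push_cast; simp

theorem chi_lcOn (h : IsRt p y a) (P : Subgroup GQ) : LCOn P (chi (p := p) ζ y) := by
  refine ⟨(IntermediateField.adjoin ℚ {y}).fixingSubgroup, ?_, ?_⟩
  · have : FiniteDimensional ℚ (IntermediateField.adjoin ℚ {y}) :=
      IntermediateField.adjoin.finiteDimensional (Algebra.IsAlgebraic.isAlgebraic y).isIntegral
    exact IntermediateField.fixingSubgroup_isOpen _
  · intro g _ u hu _
    have hu' : u y = y := by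
      rw [IntermediateField.mem_fixingSubgroup_iff] at hu
      exact hu y (IntermediateField.mem_adjoin_simple_self ℚ y)
    have hgu : (g * u) y = g y := by rw [AlgEquiv.mul_apply, hu']
    unfold chi
    rw [hgu]

/-- equivariance -/
theorem chi_conj (hp : p.Prime) (hζ : IsPrimitiveRoot ζ p) (h : IsRt p y a) (σ t : GQ)
    (ht : t ζ = ζ) (g : ℕ) (hσ : σ ζ = ζ ^ g) :
    chi (p := p) ζ y (σ * t * σ⁻¹) = (g : ZMod p) * chi (p := p) ζ y t := by
  have : NeZero p := ⟨hp.ne_zero⟩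
  have h1 := chi_spec hp hζ h σ⁻¹
  set i := (chi (p := p) ζ y σ⁻¹).val
  have h2 : σ (σ⁻¹ y) = y := by
    rw [← AlgEquiv.mul_apply, mul_inv_cancel]; rfl
  rw [h1, map_mul, map_pow, hσ] at h2
  have := chi_unique hp hζ h (σ * t * σ⁻¹) (g * (chi (p := p) ζ y t).val) (by
    rw [AlgEquiv.mul_apply, AlgEquiv.mul_apply, h1, map_mul, map_pow, ht, chi_spec hp hζ h t,
      map_mul, map_mul, map_pow, map_pow, hσ]
    calc (ζ ^ g) ^ i * ((ζ ^ g) ^ (chi (p := p) ζ y t).val * σ y)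
        = (ζ ^ g) ^ (chi (p := p) ζ y t).val * ((ζ ^ g) ^ i * σ y) := by ring
      _ = _ := by rw [h2, pow_mul])
  rw [this]; push_cast; simp

/-! ### primes below maximal ideals -/

theorem exists_prime_mem (B : Ideal (integralClosure ℤ Om)) (hB : B.IsMaximal) :
    ∃ l : ℕ, l.Prime ∧ (l : integralClosure ℤ Om) ∈ B ∧
      ∀ a : ℤ, (a : integralClosure ℤ Om) ∈ B ↔ (l : ℤ) ∣ a := by
  have h1 : (B.under ℤ).IsMaximal := inferInstance
  obtain ⟨a, ha⟩ := (IsPrincipalIdealRing.principal (B.under ℤ)).principal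
  have ha' : B.under ℤ = Ideal.span {a} := ha
  have hne : a ≠ 0 := by
    rintro rfl
    have h0 : (B.under ℤ) = ⊥ := by rw [ha']; simp
    exact (Ring.ne_bot_of_isMaximal_of_not_isField h1 Int.not_isField) h0
  have hp : Prime a := by
    rw [← Ideal.span_singleton_prime hne, ← ha']
    exact h1.isPrime
  have hmem : ∀ b : ℤ, (b : integralClosure ℤ Om) ∈ B ↔ (a.natAbs : ℤ) ∣ b := by
    intro b
    have : (b : integralClosure ℤ Om) ∈ B ↔ b ∈ B.under ℤ := by
      rw [Ideal.mem_comap]; simp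
    rw [this, ha', Ideal.mem_span_singleton, Int.natAbs_dvd]
  refine ⟨a.natAbs, Int.prime_iff_natAbs_prime.mp hp, ?_, hmem⟩
  have := (hmem (a.natAbs : ℤ)).2 dvd_rfl
  simpa using this

theorem mem_fix_adjoin (S : Set Om) (σ : GQ) :
    σ ∈ (adjoin ℚ S).fixingSubgroup ↔ ∀ x ∈ S, σ x = x := by
  constructor
  · intro h x hx
    rw [IntermediateField.mem_fixingSubgroup_iff] at h
    exact h x (subset_adjoin ℚ S hx)
  · intro h
    have h1 : adjoin ℚ S ≤ IntermediateField.fixedField (Subgroup.zpowers σ) := by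
      rw [adjoin_le_iff]
      rintro x hx ⟨g, hg⟩
      obtain ⟨k, rfl⟩ := Subgroup.mem_zpowers_iff.mp hg
      have h2 : σ ∈ MulAction.stabilizer GQ x := h x hx
      exact (MulAction.stabilizer GQ x).zpow_mem h2 k
    rw [IntermediateField.mem_fixingSubgroup_iff]
    intro x hx
    exact h1 hx ⟨σ, Subgroup.mem_zpowers σ⟩

end OzakiFree
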