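import Pool.Agent.Lib.MP_6e8030_nt.Defs

open IntermediateField
open scoped ComplexConjugate

noncomputable section

namespace OzakiFree

/-- the ring of integers of `F` -/
def ZF (F : IntermediateField ℚ Om) : Type := NumberField.RingOfIntegers (FL F)

instance (F : IntermediateField ℚ Om) : CommRing (ZF F) :=
  NumberField.instCommRingRingOfIntegers (FL F)

/-- an element of the ring of integers of `F` as an element of `Om` -/
def ZF.val {F : IntermediateField ℚ Om} (z : ZF F) : Om := FL.val z.1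

/-- The prime ideals `𝔮` of `F` of degree one (`N𝔮` is a prime number) with `N𝔮 ≠ p`,
`N𝔮 ≢ 1 mod p ^ 2` and `p ∤ v_𝔮(a)`. -/
def RamPrimes (p : ℕ) (F : IntermediateField ℚ Om) (a : ZF F) : Set (Ideal (ZF F)) :=
  {q | q.IsMaximal ∧ (Nat.card (ZF F ⧸ q)).Prime ∧ Nat.card (ZF F ⧸ q) ≠ p ∧
    ¬ Nat.card (ZF F ⧸ q) ≡ 1 [MOD p ^ 2] ∧ ¬ p ∣ multiplicity q (Ideal.span {a})}

/-- `F(a^{1/p})`: generated over `F` by all `p`-th roots of `a` -/
def radExt (p : ℕ) (F : IntermediateField ℚ Om) (a : ZF F) : IntermediateField ℚ Om :=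
  F ⊔ adjoin ℚ {x : Om | x ^ p = a.val}

end OzakiFree
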