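import Pool.Agent.Lib.MP_6e8030_nt.Base
import Pool.Agent.Lib.MP_6e8030_nt.GDefs

open IntermediateField
open scoped ComplexConjugate

noncomputable section

namespace OzakiFree

/-- the ring of all algebraic integers (the rows use this name for `integralClosure ℤ Om`) -/
abbrev ZO : Type := integralClosure ℤ Om

/-- the inclusion of `F` -/
def FLhom (F : IntermediateField ℚ Om) : FL F →+* Om := (F.val : F →+* Om)

@[simp] theorem FLhom_apply {F : IntermediateField ℚ Om} (x : FL F) : FLhom F x = x.val := rfl

theorem ZF_val_isIntegral {F : IntermediateField ℚ Om} (z : ZF F) : IsIntegral ℤ z.val :=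
  map_isIntegral_int (FLhom F) z.2

/-- the inclusion of the ring of integers of `F` into the ring of all algebraic integers -/
def iota (F : IntermediateField ℚ Om) : ZF F →+* ZO where
  toFun z := ⟨z.val, ZF_val_isIntegral z⟩
  map_one' := rfl
  map_mul' := fun _ _ => rfl
  map_zero' := rfl
  map_add' := fun _ _ => rfl

@[simp] theorem iota_coe {F : IntermediateField ℚ Om} (z : ZF F) : ((iota F z : ZO) : Om) = z.val :=
  rfl

theorem ZF_val_mem {F : IntermediateField ℚ Om} (z : ZF F) : z.val ∈ F := z.1.2

theorem ZF_val_inj {F : IntermediateField ℚ Om} (z w : ZF F) (h : z.val = w.val) : z = w :=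
  Subtype.ext (Subtype.ext h)

instance instCharZeroFL (F : IntermediateField ℚ Om) : CharZero (FL F) :=
  inferInstanceAs (CharZero F)

instance instNumberFieldFL (F : IntermediateField ℚ Om) [h : FiniteDimensional ℚ F] :
    NumberField (FL F) where
  to_charZero := inferInstance
  to_finiteDimensional := by
    have : (DivisionRing.toRatAlgebra : Algebra ℚ (FL F)) =
      (inferInstanceAs (Algebra ℚ F) : Algebra ℚ (FL F)) := Subsingleton.elim _ _
    rw [this]
    exact h

/-- the prime number `l` is unramified enough for `F`: all the inertia groups above `l` fix `F`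
and the embeddings of `F` are different modulo the maximal ideals above `l` -/
def Good (F : IntermediateField ℚ Om) (l : ℕ) : Prop :=
  ∀ B : Ideal ZO, B.IsMaximal → (l : ZO) ∈ B → ∀ g g' : GQ,
    (∀ z : ZF F, ∃ b ∈ B, (b : Om) = g z.val - g' z.val) → ∀ x ∈ F, g x = g' x

/-- `Gal(Om/F_∞)` for `F = ℚ(μ_p)`, resp. `ℚ` for `p = 2` -/
def PP (p : ℕ) : Subgroup GQ := if p = 2 then P2 else Pmu p

end OzakiFree
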