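import Pool.Agent.Lib.MP_6e8030_nt.Chars
import Pool.Agent.Lib.MP_6e8030_nt.GBase

open IntermediateField
open scoped ComplexConjugate

noncomputable section

namespace OzakiFree

variable {p : ℕ}

theorem PP_two : PP 2 = P2 := if_pos rfl
theorem PP_odd (h : p ≠ 2) : PP p = Pmu p := if_neg h

theorem PP_fix_root (σ : GQ) (hσ : σ ∈ PP p) (ξ : Om) (hξ : ξ ^ p = 1) : σ ξ = ξ := by
  by_cases h : p = 2
  · subst h
    have hξ2 : ξ * ξ = 1 := by rw [← pow_two]; exact hξ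
    rcases mul_self_eq_one_iff.mp hξ2 with h1 | h1
    · rw [h1, map_one]
    · rw [h1, map_neg, map_one]
  · rw [PP_odd h] at hσ
    exact (mem_fix_adjoin _ _).1 hσ ξ ⟨1, by simpa using hξ⟩

theorem mem_PP_of_fix (σ : GQ) (h : ∀ ξ ∈ muInf p, σ ξ = ξ) : σ ∈ PP p := by
  by_cases h2 : p = 2
  · subst h2
    rw [PP_two]
    refine (mem_fix_adjoin _ _).2 ?_
    rintro y ⟨ξ, hξ, rfl⟩
    rw [map_add, map_inv₀, h ξ hξ]
  · rw [PP_odd h2]
    exact (mem_fix_adjoin _ _).2 h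

theorem inertia_mem_PP (hp : p.Prime) (B : Ideal (integralClosure ℤ Om))
    (hB : B.IsMaximal) (hpB : (p : integralClosure ℤ Om) ∉ B) (t : GQ) (ht : t ∈ B.inertia GQ) :
    t ∈ PP p :=
  mem_PP_of_fix t fun ξ hξ => inertia_fix_mu hp B hB hpB t ht ξ hξ

theorem mu_mem_kummer (hp : p.Prime) (n : ℤ) (hn : n ≠ 0) (ζ : Om) (hζ : ζ ^ p = 1) :
    ζ ∈ kummer p n := by
  obtain ⟨x, hx⟩ := IsAlgClosed.exists_pow_nat_eq (n : Om) hp.pos
  have hx0 : x ≠ 0 := by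
    rintro rfl
    rw [zero_pow hp.ne_zero] at hx
    exact hn (by exact_mod_cast hx.symm)
  have h1 : x ∈ kummer p n := subset_adjoin ℚ _ hx
  have h2 : ζ * x ∈ kummer p n := subset_adjoin ℚ _ (by
    show (ζ * x) ^ p = _
    rw [mul_pow, hζ, one_mul, hx])
  have h3 := div_mem h2 h1
  rwa [mul_div_cancel_right₀ _ hx0] at h3

theorem mem_K (hp : p.Prime) (n : ℤ) (hn : n ≠ 0) (σ : GQ) :
    σ ∈ (cycZp p (kummer p n)).fixingSubgroup ↔
      σ ∈ PP p ∧ ∀ x : Om, x ^ p = (n : Om) → σ x = x := by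
  rw [mem_cycZp hp _ (mu_mem_kummer hp n hn)]
  unfold kummer
  rw [mem_fix_adjoin]
  rfl

theorem muInf_smul (g : GQ) (ξ : Om) (hξ : ξ ∈ muInf p) : g ξ ∈ muInf p := by
  obtain ⟨m, hm⟩ := hξ
  exact ⟨m, by rw [← map_pow, hm, map_one]⟩

theorem apply_inv_self (g : GQ) (x : Om) : g (g⁻¹ x) = x := by
  rw [← AlgEquiv.mul_apply, mul_inv_cancel]; rfl

theorem inv_apply_self' (g : GQ) (x : Om) : g⁻¹ (g x) = x := by
  rw [← AlgEquiv.mul_apply, inv_mul_cancel]; rfl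

theorem PP_normal : (PP p).Normal := by
  constructor
  intro t ht g
  by_cases h2 : p = 2
  · subst h2
    rw [PP_two] at ht ⊢
    refine (mem_fix_adjoin _ _).2 ?_
    rintro y ⟨ξ, hξ, rfl⟩
    have h1 := (mem_fix_adjoin _ _).1 ht (g⁻¹ ξ + (g⁻¹ ξ)⁻¹) ⟨_, muInf_smul _ _ hξ, rfl⟩
    rw [AlgEquiv.mul_apply, AlgEquiv.mul_apply, map_add, map_inv₀, h1, map_add, map_inv₀,
      apply_inv_self]
  · rw [PP_odd h2] at ht ⊢
    refine (mem_fix_adjoin _ _).2 ?_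
    intro ξ hξ
    have h1 := (mem_fix_adjoin _ _).1 ht (g⁻¹ ξ) (muInf_smul _ _ hξ)
    rw [AlgEquiv.mul_apply, AlgEquiv.mul_apply, h1, apply_inv_self]

theorem K_normal (hp : p.Prime) (n : ℤ) (hn : n ≠ 0) :
    (cycZp p (kummer p n)).fixingSubgroup.Normal := by
  constructor
  intro t ht g
  rw [mem_K hp n hn] at ht ⊢
  refine ⟨PP_normal.conj_mem t ht.1 g, fun x hx => ?_⟩
  have h1 := ht.2 (g⁻¹ x) (by rw [← map_pow, hx, map_intCast])
  rw [AlgEquiv.mul_apply, AlgEquiv.mul_apply, h1, apply_inv_self]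

theorem stable_of_normal (K : IntermediateField ℚ Om) (hK : K.fixingSubgroup.Normal) (g : GQ) :
    ∀ x ∈ K, g x ∈ K := by
  intro x hx
  have h : ∀ σ ∈ K.fixingSubgroup, σ (g x) = g x := by
    intro σ hσ
    have h1 := hK.conj_mem σ hσ g⁻¹
    rw [IntermediateField.mem_fixingSubgroup_iff] at h1
    have h2 := h1 x hx
    rw [inv_inv, AlgEquiv.mul_apply, AlgEquiv.mul_apply] at h2
    have h3 := congrArg g h2
    rwa [apply_inv_self] at h3
  rw [← InfiniteGalois.fixedField_fixingSubgroup K]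
  rintro ⟨σ, hσ⟩
  exact h σ hσ

theorem mu_mem_K (hp : p.Prime) (n : ℤ) (hn : n ≠ 0) (ξ : Om) (hξ : ξ ^ p = 1) :
    ξ ∈ cycZp p (kummer p n) := by
  have h : ∀ σ ∈ (cycZp p (kummer p n)).fixingSubgroup, σ ξ = ξ := fun σ hσ =>
    PP_fix_root σ ((mem_K hp n hn σ).1 hσ).1 ξ hξ
  rw [← InfiniteGalois.fixedField_fixingSubgroup (cycZp p (kummer p n))]
  rintro ⟨σ, hσ⟩
  exact h σ hσ

section chars

variable {ζ y z : Om} {a : ℤ}

/-- value of Kummer characters on inertia elements over `l ≠ p` -/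
theorem chi_val (hp : p.Prime) (hζ : IsPrimitiveRoot ζ p) (B : Ideal (integralClosure ℤ Om))
    (hB : B.IsMaximal) (hpB : (p : integralClosure ℤ Om) ∉ B) (t : GQ) (ht : t ∈ B.inertia GQ)
    {l : ℕ} (hl : l.Prime) (hlB : ∀ a : ℤ, (a : integralClosure ℤ Om) ∈ B ↔ (l : ℤ) ∣ a)
    (hy : IsRt p y a) (hz : IsRt p z (l : ℤ)) :
    chi (p := p) ζ y t = (padicValInt l a : ZMod p) * chi (p := p) ζ z t := by
  have : Fact l.Prime := ⟨hl⟩
  set f := padicValInt l a with hf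
  obtain ⟨m, hm⟩ : (l : ℤ) ^ f ∣ a := padicValInt_dvd a
  have hl0 : (l : ℤ) ^ f ≠ 0 := pow_ne_zero _ (by exact_mod_cast hl.ne_zero)
  have hm0 : m ≠ 0 := by
    rintro rfl
    exact hy.2 (by rw [hm, mul_zero])
  have hlm : ¬ (l : ℤ) ∣ m := by
    rintro ⟨c, rfl⟩
    have h1 : (l : ℤ) ^ (f + 1) ∣ a := ⟨c, by rw [hm]; ring⟩
    rw [padicValInt_dvd_iff] at h1
    rcases h1 with h1 | h1
    · exact hy.2 h1
    · omega
  have hzf := hz.pow f
  have hz0 : z ^ f ≠ 0 := pow_ne_zero _ (hz.ne_zero hp)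
  have hw : IsRt p (y / z ^ f) m := by
    refine ⟨?_, hm0⟩
    rw [div_pow, hy.1, hzf.1, hm]
    push_cast
    have : ((l : Om) ^ f) ≠ 0 := by
      have := hl0
      exact_mod_cast this
    field_simp
  have h1 : chi (p := p) ζ (y / z ^ f) t = 0 := by
    rw [chi_eq_zero_iff hp hζ hw]
    exact inertia_fix_kummer hp B hB hpB t ht _ m hw.1 (by rw [hlB]; exact hlm)
  have h2 := chi_mul hp hζ hw hzf t
  rw [div_mul_cancel₀ _ hz0, h1, zero_add, chi_pow hp hζ hz] at h2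
  exact h2

end chars

/-! ### the core: from freeness to the product character -/

/-- the `k_∞` of the problem -/
abbrev KK (p : ℕ) (n : ℤ) : IntermediateField ℚ Om := cycZp p (kummer p n)

section core

variable {ζ y₀ y₁ y₂ : Om} {n a₁ a₂ : ℤ}

theorem mem_K' (hp : p.Prime) (hζ : IsPrimitiveRoot ζ p) (h0 : IsRt p y₀ n) (σ : GQ) :
    σ ∈ (KK p n).fixingSubgroup ↔ σ ∈ PP p ∧ chi (p := p) ζ y₀ σ = 0 := by
  rw [mem_K hp n h0.2]
  constructor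
  · rintro ⟨h1, h2⟩
    exact ⟨h1, (chi_eq_zero_iff hp hζ h0 σ).2 (h2 y₀ h0.1)⟩
  · rintro ⟨h1, h2⟩
    refine ⟨h1, fun x hx => ?_⟩
    have h3 := (chi_eq_zero_iff hp hζ h0 σ).1 h2
    have hy0 := h0.ne_zero hp
    have h4 : σ (x / y₀) = x / y₀ := by
      refine PP_fix_root σ h1 _ ?_
      rw [div_pow, hx, h0.1, div_self]
      exact_mod_cast h0.2
    rw [map_div₀, h3] at h4
    exact (div_left_inj' hy0).1 h4

/-- vanishing of Kummer characters on `RL` -/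
theorem chi_RL (hp : p.Prime) (hζ : IsPrimitiveRoot ζ p) (h0 : IsRt p y₀ n)
    (h1 : IsRt p y₁ a₁)
    (hdiv : ∀ l : ℕ, l.Prime → l ≠ p → ¬ p ∣ padicValInt l a₁ → ¬ p ∣ padicValInt l n)
    (hmod : a₁ ^ (p - 1) ≡ 1 [ZMOD (p ^ 2 : ℕ)])
    (hreal : ∀ (φ : Om →+* ℂ) (c : GQ), (∀ y, φ (c y) = conj (φ y)) →
      c ∈ (KK p n).fixingSubgroup → c y₁ = y₁) :
    ∀ r ∈ RL p (KK p n), chi (p := p) ζ y₁ r = 0 := by
  intro r hr
  rw [chi_eq_zero_iff hp hζ h1]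
  refine fix_of_mem_RL hp (KK p n) (fun ξ hξ => mu_mem_K hp n h0.2 ξ hξ) y₁ ?_ ?_ hreal r hr
  · rw [h1.1]; exact intCast_mem _ _
  · intro B hB t ht htK
    rw [mem_K' hp hζ h0] at htK
    by_cases hpB : (p : integralClosure ℤ Om) ∈ B
    · exact inertia_fix_kummer_p hp B hB hpB t ht (fun ξ hξ => PP_fix_root t htK.1 ξ hξ) y₁ a₁
        h1.1 hmod
    · obtain ⟨l, hl, hlB, hlB'⟩ := exists_prime_mem B hB
      have hlp : l ≠ p := by rintro rfl; exact hpB hlB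
      obtain ⟨z, hz⟩ := exists_rt hp (l : ℤ) (by exact_mod_cast hl.ne_zero)
      have e0 := chi_val hp hζ B hB hpB t ht hl hlB' h0 hz
      have e1 := chi_val hp hζ B hB hpB t ht hl hlB' h1 hz
      have : Fact p.Prime := ⟨hp⟩
      rw [← chi_eq_zero_iff hp hζ h1, e1]
      rw [htK.2] at e0
      by_cases hv : p ∣ padicValInt l a₁
      · rw [(ZMod.natCast_eq_zero_iff _ _).2 hv, zero_mul]
      · have hv' := hdiv l hl hlp hv
        rcases mul_eq_zero.1 e0.symm with h | h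
        · exact absurd ((ZMod.natCast_eq_zero_iff _ _).1 h) hv'
        · rw [h, mul_zero]

theorem core (hp : p.Prime) (hζ : IsPrimitiveRoot ζ p) (h0 : IsRt p y₀ n)
    (h1 : IsRt p y₁ a₁) (h2 : IsRt p y₂ a₂)
    (hfree : FreeGal p (cycZp p (kummer p n)))
    (r₁ : ∀ r ∈ RL p (KK p n), chi (p := p) ζ y₁ r = 0)
    (r₂ : ∀ r ∈ RL p (KK p n), chi (p := p) ζ y₂ r = 0)
    {l₀ : ℕ} (hl₀ : l₀.Prime) (hl₀p : l₀ ≠ p) (hv : ¬ p ∣ padicValInt l₀ n) :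
    ∃ ψ : GQ → ZMod p, HomOn (PP p) ψ ∧ LCOn (PP p) ψ ∧ (∀ r ∈ RL p (KK p n), ψ r = 0) ∧
      ∀ t ∈ PP p, chi (p := p) ζ y₀ t ≠ 0 → t ^ p ∈ RL p (KK p n) →
        chi (p := p) ζ y₀ t * ψ t = chi (p := p) ζ y₁ t * chi (p := p) ζ y₂ t := by
  have : Fact p.Prime := ⟨hp⟩
  have hζP : ∀ σ ∈ PP p, σ ζ = ζ := fun σ hσ => PP_fix_root σ hσ ζ hζ.pow_eq_one
  obtain ⟨B, hB, hlB, t, ht, hmove⟩ := exists_inertia_moves hp hl₀ hl₀p n hv y₀ h0.1
  have hpB : (p : integralClosure ℤ Om) ∉ B := by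
    obtain ⟨l, hl, hlB1, hlB'⟩ := exists_prime_mem B hB
    have e1 : (l : ℤ) ∣ (l₀ : ℤ) := (hlB' _).1 (by simpa using hlB)
    have e2 : l = l₀ := (Nat.prime_dvd_prime_iff_eq hl hl₀).1 (by exact_mod_cast e1)
    intro hpB
    have e3 : (l : ℤ) ∣ (p : ℤ) := (hlB' _).1 (by simpa using hpB)
    have e4 : l = p := (Nat.prime_dvd_prime_iff_eq hl hp).1 (by exact_mod_cast e3)
    exact hl₀p (e2.symm.trans e4)
  have htP : t ∈ PP p := inertia_mem_PP hp B hB hpB t ht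
  have hhom := chi_homOn hp hζ h0 (PP p) hζP
  have hc : chi (p := p) ζ y₀ t ≠ 0 := fun h => hmove ((chi_eq_zero_iff hp hζ h0 t).1 h)
  have hpow : ∀ k : ℕ, chi (p := p) ζ y₀ (t ^ k) = k * chi (p := p) ζ y₀ t := by
    intro k
    induction k with
    | zero =>
      rw [pow_zero, Nat.cast_zero, zero_mul, chi_eq_zero_iff hp hζ h0]; rfl
    | succ k ih =>
      rw [pow_succ, hhom _ ((PP p).pow_mem htP k) _ htP, ih]; push_cast; ring
  set m := ((chi (p := p) ζ y₀ t)⁻¹).val with hm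
  have ht01 : chi (p := p) ζ y₀ (t ^ m) = 1 := by
    rw [hpow, hm, ZMod.natCast_val, ZMod.cast_id', id, inv_mul_cancel₀ hc]
  have htm : t ^ m ∈ PP p := (PP p).pow_mem htP m
  have htR : (t ^ m) ^ p ∈ RL p (KK p n) := by
    refine inertia_mem_RL p _ B hB _ ((B.inertia GQ).pow_mem ((B.inertia GQ).pow_mem ht m) p) ?_
    rw [mem_K' hp hζ h0]
    refine ⟨(PP p).pow_mem htm p, ?_⟩
    rw [← pow_mul, hpow]; push_cast; simp
  obtain ⟨L1, L2⟩ := lifts_of_free (p := p) (KK p n) hfree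
  exact lemmaA (PP p) (KK p n).fixingSubgroup (RL p (KK p n)) (chi ζ y₀) (chi ζ y₁) (chi ζ y₂)
    hhom (chi_homOn hp hζ h1 _ hζP) (chi_homOn hp hζ h2 _ hζP) (chi_lcOn h0 _) (chi_lcOn h1 _)
    (chi_lcOn h2 _) (fun g => mem_K' hp hζ h0 g) (RL_le p _)
    (fun g _ r hr => RL_conj p _ g (stable_of_normal _ (K_normal hp n h0.2) g)
      (stable_of_normal _ (K_normal hp n h0.2) g⁻¹) r hr) r₁ r₂ L1 L2
    (t ^ m) htm ht01 htR

/-- values of the product character on inertia elements -/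
theorem inertia_formula (hp : p.Prime) (hζ : IsPrimitiveRoot ζ p) (h0 : IsRt p y₀ n)
    (r₁ : ∀ r ∈ RL p (KK p n), chi (p := p) ζ y₁ r = 0)
    (ψ : GQ → ZMod p) (hψR : ∀ r ∈ RL p (KK p n), ψ r = 0)
    (hψ : ∀ t ∈ PP p, chi (p := p) ζ y₀ t ≠ 0 → t ^ p ∈ RL p (KK p n) →
        chi (p := p) ζ y₀ t * ψ t = chi (p := p) ζ y₁ t * chi (p := p) ζ y₂ t)
    (B : Ideal (integralClosure ℤ Om)) (hB : B.IsMaximal) (t : GQ) (ht : t ∈ B.inertia GQ)
    (htP : t ∈ PP p) :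
    (chi (p := p) ζ y₀ t = 0 → ψ t = 0) ∧
    chi (p := p) ζ y₀ t * ψ t = chi (p := p) ζ y₁ t * chi (p := p) ζ y₂ t := by
  have : Fact p.Prime := ⟨hp⟩
  have hζP : ∀ σ ∈ PP p, σ ζ = ζ := fun σ hσ => PP_fix_root σ hσ ζ hζ.pow_eq_one
  by_cases hc : chi (p := p) ζ y₀ t = 0
  · have htR : t ∈ RL p (KK p n) := inertia_mem_RL p _ B hB t ht ((mem_K' hp hζ h0 t).2 ⟨htP, hc⟩)
    refine ⟨fun _ => hψR t htR, ?_⟩
    rw [hψR t htR, r₁ t htR]; ring
  · refine ⟨fun h => absurd h hc, hψ t htP hc ?_⟩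
    refine inertia_mem_RL p _ B hB _ ((B.inertia GQ).pow_mem ht p) ?_
    rw [mem_K' hp hζ h0]
    refine ⟨(PP p).pow_mem htP p, ?_⟩
    have hhom := chi_homOn hp hζ h0 (PP p) hζP
    have hpow : ∀ k : ℕ, chi (p := p) ζ y₀ (t ^ k) = k * chi (p := p) ζ y₀ t := by
      intro k
      induction k with
      | zero =>
        rw [pow_zero, Nat.cast_zero, zero_mul, chi_eq_zero_iff hp hζ h0]; rfl
      | succ k ih =>
        rw [pow_succ, hhom _ ((PP p).pow_mem htP k) _ htP, ih]; push_cast; ring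
    rw [hpow]; simp

end core

end OzakiFree
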