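import Mathlib

open IntermediateField
open scoped ComplexConjugate

noncomputable section

namespace OzakiFree

/-- The fixed algebraic closure of `ℚ`. -/
abbrev Om : Type := AlgebraicClosure ℚ

/-- The absolute Galois group of `ℚ`. -/
abbrev GQ : Type := Om ≃ₐ[ℚ] Om

/-- `t` acts trivially on the field `K`, that is, `t ∈ Gal(Om/K)`. -/
def Fixes (t : GQ) (K : IntermediateField ℚ Om) : Prop := ∀ x ∈ K, t x = x

/-- The ring of all algebraic integers. -/
def ZBar : Type := integralClosure ℤ Om

instance : CommRing ZBar := (integralClosure ℤ Om).toCommRing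

/-- an algebraic integer as an element of `Om` -/
def ZBar.val (z : ZBar) : Om := z.1

/-- `t` lies in the inertia group of the maximal ideal `B` of the ring of all algebraic
integers: `t z - z ∈ B` for all algebraic integers `z`. -/
def InInertia (B : Ideal ZBar) (t : GQ) : Prop := ∀ z : ZBar, ∃ b ∈ B, b.val = t z.val - z.val

/-- `c` is a complex conjugation: complex conjugation in some embedding `Om → ℂ`. -/
def IsConj (c : GQ) : Prop := ∃ φ : Om →+* ℂ, ∀ x, φ (c x) = conj (φ x)

/-- `E/K` is unramified at all places: the inertia groups of `Gal(Om/K)` and the complex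
conjugations in `Gal(Om/K)` act trivially on `E`. -/
def Unramified (K E : IntermediateField ℚ Om) : Prop :=
  (∀ B : Ideal ZBar, B.IsMaximal → ∀ t, Fixes t K → InInertia B t → Fixes t E) ∧
  ∀ c, Fixes c K → IsConj c → Fixes c E

/-- `E/K` is a finite unramified Galois extension of `p`-power degree. -/
def UnramPExt (p : ℕ) (K E : IntermediateField ℚ Om) : Prop :=
  K ≤ E ∧ (∀ t, Fixes t K → ∀ x ∈ E, t x ∈ E) ∧ (∃ m : ℕ, relfinrank K E = p ^ m) ∧
    Unramified K E

/-- `L(K)`: the maximal unramified pro-`p` extension of `K`: the compositum of all finite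
unramified Galois extensions of `p`-power degree of `K` inside `Om`. -/
def maxUnram (p : ℕ) (K : IntermediateField ℚ Om) : IntermediateField ℚ Om :=
  K ⊔ sSup {E | UnramPExt p K E}

/-- the field `L` as a type -/
def FL (L : IntermediateField ℚ Om) : Type := L

instance (L : IntermediateField ℚ Om) : Field (FL L) := L.toField

/-- an element of `L` as an element of `Om` -/
def FL.val {L : IntermediateField ℚ Om} (x : FL L) : Om := x.1

/-- The group of all automorphisms of the field `L`. -/
def AutL (L : IntermediateField ℚ Om) : Type := RingAut (FL L)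

instance (L : IntermediateField ℚ Om) : Group (AutL L) := RingAut.instGroup (FL L)

/-- the value of the automorphism `g` at `x` -/
def AutL.app {L : IntermediateField ℚ Om} (g : AutL L) (x : FL L) : FL L := (show FL L ≃+* FL L from g) x

/-- The group `Gal(L/K)`, as the group of the automorphisms of the field `L` that are trivial
on `K`. -/
def GalGroup (K L : IntermediateField ℚ Om) : Subgroup (AutL L) where
  carrier := {g | ∀ x : FL L, x.val ∈ K → g.app x = x}
  one_mem' := fun _ _ => rfl
  mul_mem' := fun {a b} ha hb x hx => by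
    show a.app (b.app x) = x
    rw [hb x hx, ha x hx]
  inv_mem' := fun {a} ha x hx => by
    have h := ha x hx
    have h2 : a⁻¹.app (a.app x) = x := RingEquiv.symm_apply_apply a x
    rwa [h] at h2

/-- The Krull topology on the automorphisms of `L`: the topology of pointwise convergence, where
the field `L` is discrete. -/
instance (L : IntermediateField ℚ Om) : TopologicalSpace (AutL L) :=
  TopologicalSpace.induced AutL.app (@Pi.topologicalSpace (FL L) (fun _ => FL L) (fun _ => ⊥))

/-- All `p`-power roots of unity in `Om`. -/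
def muInf (p : ℕ) : Set Om := {ζ | ∃ m : ℕ, ζ ^ (p ^ m) = 1}

/-- The cyclotomic `ℤ_p`-extension of `k`: the subfield of `k(μ_{p^∞})` fixed by the torsion
subgroup of `Gal(k(μ_{p^∞})/k)`. -/
def cycZp (p : ℕ) (k : IntermediateField ℚ Om) : IntermediateField ℚ Om :=
  (k ⊔ adjoin ℚ (muInf p)) ⊓
    IntermediateField.fixedField (Subgroup.closure
      {σ : GQ | Fixes σ k ∧ ∃ r : ℕ, 0 < r ∧ ∀ ζ ∈ muInf p, (σ ^ r) ζ = ζ})

/-- `A` is a free pro-`p` group: it has a basis `b : X → A` which converges to `1` and such that
every map from `X` to a finite `p`-group which is trivial outside a finite set extends uniquely to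
a continuous homomorphism. -/
def IsFreeProP (p : ℕ) (A : Type) [Group A] [TopologicalSpace A] : Prop :=
  ∃ (X : Type) (b : X → A),
    (∀ U : Subgroup A, IsOpen (U : Set A) → {x | b x ∉ U}.Finite) ∧
    ∀ (H : Type) [Group H] [Finite H], IsPGroup p H → ∀ f : X → H, {x | f x ≠ 1}.Finite →
      ∃! φ : A →* H, IsOpen (φ.ker : Set A) ∧ ∀ x, φ (b x) = f x

/-- `Gal(L(K)/K)` is a free pro-`p` group. -/
def FreeGal (p : ℕ) (K : IntermediateField ℚ Om) : Prop :=
  IsFreeProP p (GalGroup K (maxUnram p K))

/-- `k = ℚ(μ_p, n^{1/p})` (for `p = 2` this is `ℚ(√n)`). -/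
def kummer (p : ℕ) (n : ℤ) : IntermediateField ℚ Om := adjoin ℚ {x : Om | x ^ p = (n : Om)}

end OzakiFree
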