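import Pool.Agent.Lib.MP_6e8030_nt.EBase

open IntermediateField
open scoped ComplexConjugate

noncomputable section

namespace OzakiFree

/-- a single natural exponent describes `σ` on `μ_{p^M}` -/
private theorem E1_exp {p : ℕ} (hp : p.Prime) (σ : GQ) (M : ℕ) :
    ∃ (ξ : Om) (a : ℕ), IsPrimitiveRoot ξ (p ^ M) ∧ 1 < a ∧ σ ξ = ξ ^ a ∧
      ∀ ζ : Om, ζ ^ (p ^ M) = 1 → σ ζ = ζ ^ a := by
  have : NeZero (p ^ M) := ⟨pow_ne_zero _ hp.ne_zero⟩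
  have : NeZero ((p ^ M : ℕ) : Om) := ⟨by exact_mod_cast pow_ne_zero _ hp.ne_zero⟩
  obtain ⟨ξ, hξ⟩ := HasEnoughRootsOfUnity.exists_primitiveRoot Om (p ^ M)
  have h1 : (σ ξ) ^ (p ^ M) = 1 := by rw [← map_pow, hξ.pow_eq_one, map_one]
  obtain ⟨i, -, hi⟩ := hξ.eq_pow_of_pow_eq_one h1
  have hpos : 0 < p ^ M := pow_pos hp.pos M
  refine ⟨ξ, i + 2 * p ^ M, hξ, by omega, ?_, ?_⟩
  · rw [pow_add, mul_comm 2, pow_mul, hξ.pow_eq_one, one_pow, mul_one, hi]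
  · intro ζ hζ
    obtain ⟨j, -, hj⟩ := hξ.eq_pow_of_pow_eq_one hζ
    have : ζ ^ (i + 2 * p ^ M) = ζ ^ i := by
      rw [pow_add, mul_comm 2, pow_mul, hζ, one_pow, mul_one]
    rw [this, ← hj, map_pow, ← hi, ← pow_mul, ← pow_mul, mul_comm]

private theorem E1_pow {p : ℕ} (σ : GQ) {M a : ℕ} (h : ∀ ζ : Om, ζ ^ (p ^ M) = 1 → σ ζ = ζ ^ a)
    (ζ : Om) (hζ : ζ ^ (p ^ M) = 1) (r : ℕ) : (σ ^ r) ζ = ζ ^ (a ^ r) := by
  induction r with
  | zero => simp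
  | succ r ih =>
    rw [pow_succ', AlgEquiv.mul_apply, ih, map_pow, h ζ hζ, ← pow_mul, ← pow_succ']

private theorem E1_dvd {p : ℕ} (hp : p.Prime) (σ : GQ) {r : ℕ}
    (hr : ∀ ζ ∈ muInf p, (σ ^ r) ζ = ζ) (M : ℕ) :
    ∃ (ξ : Om) (a : ℕ), IsPrimitiveRoot ξ (p ^ M) ∧ 1 < a ∧
      (∀ ζ : Om, ζ ^ (p ^ M) = 1 → σ ζ = ζ ^ a) ∧ p ^ M ∣ a ^ r - 1 := by
  obtain ⟨ξ, a, hξ, ha, -, h⟩ := E1_exp hp σ M
  refine ⟨ξ, a, hξ, ha, h, ?_⟩
  have h1 := E1_pow σ h ξ hξ.pow_eq_one r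
  rw [hr ξ ⟨M, hξ.pow_eq_one⟩] at h1
  have h2 : 1 ≤ a ^ r := Nat.one_le_pow _ _ (by omega)
  have h3 : ξ ^ (a ^ r - 1) = 1 := by
    have hne : ξ ≠ 0 := hξ.ne_zero (pow_ne_zero _ hp.ne_zero)
    have h4 : ξ ^ (a ^ r - 1) * ξ = 1 * ξ := by
      rw [← pow_succ, Nat.sub_add_cancel h2, ← h1, one_mul]
    exact mul_right_cancel₀ hne h4
  exact (hξ.pow_eq_one_iff_dvd _).1 h3

/-- odd `p` -/
private theorem E1_odd {p : ℕ} (hp : p.Prime) (hp2 : p ≠ 2) (σ : GQ) {r : ℕ} (hr0 : 0 < r)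
    (hr : ∀ ζ ∈ muInf p, (σ ^ r) ζ = ζ) (h1 : ∀ ζ : Om, ζ ^ p = 1 → σ ζ = ζ) :
    ∀ ζ ∈ muInf p, σ ζ = ζ := by
  rintro ζ ⟨m, hm⟩
  have : Fact p.Prime := ⟨hp⟩
  obtain ⟨ξ, a, hξ, ha, h, hd⟩ := E1_dvd hp σ hr (m + padicValNat p r + 1)
  set M := m + padicValNat p r + 1 with hM
  have hodd : Odd p := hp.odd_of_ne_two hp2
  -- a = 1 mod p
  have ha1 : p ∣ a - 1 := by
    have hω : IsPrimitiveRoot (ξ ^ (p ^ (M - 1))) p := by
      refine hξ.pow (pow_pos hp.pos M) ?_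
      rw [← pow_succ]; congr 1
    have e1 := h1 _ hω.pow_eq_one
    have e2 : (ξ ^ (p ^ (M - 1))) ^ (p ^ M) = 1 := by
      rw [← pow_mul, mul_comm, pow_mul, hξ.pow_eq_one, one_pow]
    rw [h _ e2] at e1
    have hne : ξ ^ (p ^ (M - 1)) ≠ 0 := hω.ne_zero hp.ne_zero
    have e3 : (ξ ^ (p ^ (M - 1))) ^ (a - 1) = 1 := by
      have e4 : (ξ ^ (p ^ (M - 1))) ^ (a - 1) * ξ ^ (p ^ (M - 1)) = 1 * ξ ^ (p ^ (M - 1)) := by
        rw [← pow_succ, Nat.sub_add_cancel (by omega), e1, one_mul]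
      exact mul_right_cancel₀ hne e4
    exact (hω.pow_eq_one_iff_dvd _).1 e3
  have hpa : ¬ p ∣ a := fun hcon => by
    have : p ∣ 1 := by
      have := Nat.dvd_sub hcon ha1
      rwa [show a - (a - 1) = 1 by omega] at this
    exact hp.one_lt.ne' (Nat.dvd_one.1 this)
  have hlte := padicValNat.pow_sub_pow hodd (show 1 < a from ha) ha1 hpa hr0.ne'
  rw [one_pow] at hlte
  have hne : a ^ r - 1 ≠ 0 := by
    have : 1 < a ^ r := Nat.one_lt_pow hr0.ne' ha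
    omega
  have hv : M ≤ padicValNat p (a ^ r - 1) := (padicValNat_dvd_iff_le hne).1 hd
  have hv1 : m ≤ padicValNat p (a - 1) := by omega
  have hne1 : a - 1 ≠ 0 := by omega
  have hdm : p ^ m ∣ a - 1 := (padicValNat_dvd_iff_le hne1).2 hv1
  have hζM : ζ ^ (p ^ M) = 1 := by
    rw [hM, add_assoc, pow_add p, pow_mul, hm, one_pow]
  rw [h ζ hζM]
  obtain ⟨c, hc⟩ := hdm
  have : a = p ^ m * c + 1 := by omega
  rw [this, pow_succ, pow_mul, hm, one_pow, one_mul]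

/-- `p = 2` -/
private theorem E1_two (σ : GQ) {r : ℕ} (hr0 : 0 < r)
    (hr : ∀ ζ ∈ muInf 2, (σ ^ r) ζ = ζ) :
    ∀ ζ ∈ muInf 2, σ ζ = ζ ∨ σ ζ = ζ⁻¹ := by
  rintro ζ ⟨m, hm⟩
  have hr' : ∀ ζ ∈ muInf 2, (σ ^ (2 * r)) ζ = ζ := by
    intro ζ hζ
    rw [two_mul, pow_add, AlgEquiv.mul_apply, hr ζ hζ, hr ζ hζ]
  obtain ⟨ξ, a, hξ, ha, h, hd⟩ := E1_dvd Nat.prime_two σ hr' (m + padicValNat 2 (2 * r) + 2)
  set M := m + padicValNat 2 (2 * r) + 2 with hM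
  have h2r : 2 * r ≠ 0 := by omega
  have hne : a ^ (2 * r) - 1 ≠ 0 := by
    have : 1 < a ^ (2 * r) := Nat.one_lt_pow h2r ha
    omega
  have hodd : ¬ 2 ∣ a := fun hcon => by
    have e1 : 2 ∣ a ^ (2 * r) := dvd_pow hcon h2r
    have e2 : 2 ∣ a ^ (2 * r) - 1 := dvd_trans (dvd_pow_self 2 (by omega)) hd
    have : 1 < a ^ (2 * r) := Nat.one_lt_pow h2r ha
    omega
  have ha1 : 2 ∣ a - 1 := by omega
  have hlte := padicValNat.pow_two_sub_pow (show 1 < a from ha) ha1 hodd h2r (even_two_mul r)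
  rw [one_pow] at hlte
  have hv : M ≤ padicValNat 2 (a ^ (2 * r) - 1) := (padicValNat_dvd_iff_le hne).1 hd
  have hζM : ζ ^ (2 ^ M) = 1 := by
    rw [hM, add_assoc, pow_add 2, pow_mul, hm, one_pow]
  have hne0 : ζ ≠ 0 := by
    rintro rfl
    rw [zero_pow (pow_ne_zero _ two_ne_zero)] at hm
    exact zero_ne_one hm
  have hsum : m + 3 ≤ padicValNat 2 (a + 1) + padicValNat 2 (a - 1) := by omega
  -- one of the two is at most 1
  have hmin : padicValNat 2 (a + 1) ≤ 1 ∨ padicValNat 2 (a - 1) ≤ 1 := by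
    by_contra hcon
    rw [not_or] at hcon
    obtain ⟨c1, c2⟩ := hcon
    have d1 : 2 ^ 2 ∣ a + 1 := (padicValNat_dvd_iff_le (by omega)).2 (by omega)
    have d2 : 2 ^ 2 ∣ a - 1 := (padicValNat_dvd_iff_le (by omega)).2 (by omega)
    omega
  rw [h ζ hζM]
  rcases hmin with c | c
  · left
    have hdm : 2 ^ m ∣ a - 1 := (padicValNat_dvd_iff_le (by omega)).2 (by omega)
    obtain ⟨c, hc⟩ := hdm
    have : a = 2 ^ m * c + 1 := by omega
    rw [this, pow_succ, pow_mul, hm, one_pow, one_mul]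
  · right
    have hdm : 2 ^ m ∣ a + 1 := (padicValNat_dvd_iff_le (by omega)).2 (by omega)
    obtain ⟨c, hc⟩ := hdm
    refine eq_inv_of_mul_eq_one_left ?_
    rw [← pow_succ, hc, pow_mul, hm, one_pow]

private theorem E1_adj (S : Set Om) (σ : GQ) :
    σ ∈ (adjoin ℚ S).fixingSubgroup ↔ ∀ x ∈ S, σ x = x := by
  constructor
  · intro h x hx
    exact (IntermediateField.mem_fixingSubgroup_iff _ _).1 h x (subset_adjoin ℚ S hx)
  · intro h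
    have h1 : adjoin ℚ S ≤ IntermediateField.fixedField (Subgroup.zpowers σ) := by
      rw [adjoin_le_iff]
      intro x hx
      rw [SetLike.mem_coe, IntermediateField.mem_fixedField_iff]
      intro f hf
      have h2 : Subgroup.zpowers σ ≤ MulAction.stabilizer GQ x := by
        rw [Subgroup.zpowers_le]
        exact h x hx
      exact h2 hf
    rw [IntermediateField.le_iff_le] at h1
    exact h1 (Subgroup.mem_zpowers σ)


private theorem E1_gal : IsGalois ℚ Om := by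
  have : IsAlgClosure ℚ Om := instAlgClosureOm
  exact IsAlgClosure.isGalois ℚ Om

/-- the elements some power of which is trivial on `muInf` -/
private theorem E1_tors {p : ℕ} (hp : p.Prime) (σ : GQ) {r : ℕ} (hr0 : 0 < r)
    (hr : ∀ ζ ∈ muInf p, (σ ^ r) ζ = ζ) : ∀ ζ ∈ muInf p, (σ ^ (2 * (p - 1))) ζ = ζ := by
  have hp1 := hp.two_le
  by_cases hp2 : p = 2
  · subst hp2
    intro ζ hζ
    have h1 := E1_two σ hr0 hr ζ hζ
    rw [show 2 * (2 - 1) = 2 from rfl, pow_two, AlgEquiv.mul_apply]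
    rcases h1 with h | h
    · rw [h, h]
    · rw [h, map_inv₀, h, inv_inv]
  · have h1 : ∀ ζ ∈ muInf p, (σ ^ (p - 1)) ζ = ζ := by
      apply E1_odd hp hp2 (σ ^ (p - 1)) (r := r) hr0
      · intro ζ hζ
        rw [← pow_mul, mul_comm, pow_mul]
        obtain ⟨m, hm⟩ := hζ
        have h2 : (σ ^ r) ζ = ζ := hr ζ ⟨m, hm⟩
        have h3 : ∀ n : ℕ, ((σ ^ r) ^ n) ζ = ζ := by
          intro n
          induction n with
          | zero => simp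
          | succ n ih => rw [pow_succ, AlgEquiv.mul_apply, h2, ih]
        exact h3 _
      · intro ζ hζ
        obtain ⟨ξ, a, hξ, ha, hξa, h⟩ := E1_exp hp σ 1
        rw [pow_one] at hξ h
        rw [E1_pow (M := 1) σ (by rw [pow_one]; exact h) ζ (by rw [pow_one]; exact hζ)]
        have hpa : ¬ p ∣ a := by
          intro hcon
          obtain ⟨c, hc⟩ := hcon
          rw [hc, pow_mul, hξ.pow_eq_one, one_pow] at hξa
          have h4 : ξ = 1 := by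
            have := (map_eq_one_iff σ σ.injective).1 hξa
            exact this
          rw [h4] at hξ
          exact hp.one_lt.ne' (hξ.unique IsPrimitiveRoot.one)
        have hcop : Nat.Coprime a p := (Nat.Coprime.symm ((Nat.Prime.coprime_iff_not_dvd hp).2 hpa))
        have h5 := Nat.ModEq.pow_totient hcop
        rw [Nat.totient_prime hp] at h5
        have h6 : ζ ^ (a ^ (p - 1)) = ζ ^ 1 := pow_eq_pow_of_modEq h5 hζ
        rw [h6, pow_one]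
    intro ζ hζ
    rw [mul_comm, pow_mul, pow_two, AlgEquiv.mul_apply, h1 ζ hζ, h1 ζ hζ]

/-- the torsion subgroup -/
private def E1_T (p : ℕ) (hp : p.Prime) : Subgroup GQ where
  carrier := {σ | ∀ ζ ∈ muInf p, (σ ^ (2 * (p - 1))) ζ = ζ}
  one_mem' := by intro ζ _; simp
  mul_mem' := by
    intro σ τ hσ hτ ζ hζ
    obtain ⟨m, hm⟩ := hζ
    obtain ⟨-, a, -, -, -, ha⟩ := E1_exp hp σ m
    obtain ⟨-, b, -, -, -, hb⟩ := E1_exp hp τ m
    have hab : ∀ ζ : Om, ζ ^ (p ^ m) = 1 → (σ * τ) ζ = ζ ^ (a * b) := by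
      intro ζ hζ
      rw [AlgEquiv.mul_apply, hb ζ hζ, map_pow, ha ζ hζ, ← pow_mul]
    rw [E1_pow (σ * τ) hab ζ hm, mul_pow, pow_mul, ← E1_pow σ ha ζ hm, hσ ζ ⟨m, hm⟩,
      ← E1_pow τ hb ζ hm, hτ ζ ⟨m, hm⟩]
  inv_mem' := by
    intro σ hσ ζ hζ
    have h1 := hσ ζ hζ
    rw [inv_pow]
    conv_lhs => rw [← h1]
    rw [← AlgEquiv.mul_apply, inv_mul_cancel, AlgEquiv.one_apply]

private theorem E1_T_closed (p : ℕ) (hp : p.Prime) : IsClosed (E1_T p hp : Set GQ) := by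
  have hg : IsGalois ℚ Om := E1_gal
  have h1 : (E1_T p hp : Set GQ) =
      (fun σ : GQ => σ ^ (2 * (p - 1))) ⁻¹' ((adjoin ℚ (muInf p)).fixingSubgroup : Set GQ) := by
    ext σ
    rw [Set.mem_preimage, SetLike.mem_coe, SetLike.mem_coe, E1_adj]
    rfl
  rw [h1]
  exact (InfiniteGalois.fixingSubgroup_isClosed _).preimage (continuous_pow _)

private theorem E1_mem_T {p : ℕ} (hp : p.Prime) (σ : GQ) :
    σ ∈ E1_T p hp ↔ ∃ r : ℕ, 0 < r ∧ ∀ ζ ∈ muInf p, (σ ^ r) ζ = ζ := by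
  have hp1 := hp.two_le
  constructor
  · intro h
    exact ⟨2 * (p - 1), by omega, h⟩
  · rintro ⟨r, hr0, hr⟩
    exact E1_tors hp σ hr0 hr

private theorem E1_main {p : ℕ} (hp : p.Prime) (k : IntermediateField ℚ Om) :
    (cycZp p k).fixingSubgroup = E1_T p hp ⊓ k.fixingSubgroup := by
  have hg : IsGalois ℚ Om := E1_gal
  have hfix : ∀ τ : GQ, Fixes τ k ↔ τ ∈ k.fixingSubgroup := fun τ =>
    (IntermediateField.mem_fixingSubgroup_iff _ _).symm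
  set H : Subgroup GQ := E1_T p hp ⊓ k.fixingSubgroup with hH
  have hHc : IsClosed (H : Set GQ) := by
    rw [hH, Subgroup.coe_inf]
    exact (E1_T_closed p hp).inter (InfiniteGalois.fixingSubgroup_isClosed k)
  have hcl : Subgroup.closure
      {σ : GQ | Fixes σ k ∧ ∃ r : ℕ, 0 < r ∧ ∀ ζ ∈ muInf p, (σ ^ r) ζ = ζ} = H := by
    have h1 : {σ : GQ | Fixes σ k ∧ ∃ r : ℕ, 0 < r ∧ ∀ ζ ∈ muInf p, (σ ^ r) ζ = ζ} =
        (H : Set GQ) := by
      ext σ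
      rw [hH, Subgroup.coe_inf, Set.mem_inter_iff, SetLike.mem_coe, SetLike.mem_coe,
        E1_mem_T hp σ, Set.mem_ofPred_eq, hfix σ]
      exact and_comm
    rw [h1, Subgroup.closure_eq]
  have hfH : (IntermediateField.fixedField H).fixingSubgroup = H :=
    InfiniteGalois.fixingSubgroup_fixedField ⟨H, hHc⟩
  have hle : IntermediateField.fixedField H ≤ k ⊔ adjoin ℚ (muInf p) := by
    rw [← InfiniteGalois.fixedField_fixingSubgroup (k ⊔ adjoin ℚ (muInf p))]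
    apply IntermediateField.fixedField_antitone
    intro σ hσ
    have h1 : σ ∈ k.fixingSubgroup := IntermediateField.fixingSubgroup_antitone le_sup_left hσ
    have h2 : σ ∈ (adjoin ℚ (muInf p)).fixingSubgroup :=
      IntermediateField.fixingSubgroup_antitone le_sup_right hσ
    refine ⟨(E1_mem_T hp σ).2 ⟨1, one_pos, ?_⟩, h1⟩
    intro ζ hζ
    rw [pow_one]
    exact (E1_adj _ σ).1 h2 ζ hζ
  have hcyc : cycZp p k = IntermediateField.fixedField H := by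
    unfold cycZp
    rw [hcl]
    exact inf_eq_right.2 hle
  rw [hcyc, hfH]

theorem mem_PQ_iff {p : ℕ} (hp : p.Prime) (σ : GQ) :
    σ ∈ PQ p ↔ ∃ r : ℕ, 0 < r ∧ ∀ ζ ∈ muInf p, (σ ^ r) ζ = ζ := by
  unfold PQ
  rw [E1_main hp ⊥, ← E1_mem_T hp σ]
  simp

theorem PQ_comm {p : ℕ} (hp : p.Prime) (g h : GQ) : g * h * g⁻¹ * h⁻¹ ∈ PQ p := by
  rw [mem_PQ_iff hp]
  refine ⟨1, one_pos, ?_⟩
  intro ζ hζ
  rw [pow_one]
  have hmem : ∀ σ : GQ, ∀ ζ ∈ muInf p, σ ζ ∈ muInf p := by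
    rintro σ ζ ⟨m, hm⟩
    exact ⟨m, by rw [← map_pow, hm, map_one]⟩
  have hcomm : ∀ ζ ∈ muInf p, g (h ζ) = h (g ζ) := by
    rintro ζ ⟨m, hm⟩
    obtain ⟨-, a, -, -, -, ha⟩ := E1_exp hp g m
    obtain ⟨-, b, -, -, -, hb⟩ := E1_exp hp h m
    rw [hb ζ hm, ha ζ hm, map_pow, map_pow, ha ζ hm, hb ζ hm, ← pow_mul, ← pow_mul, mul_comm]
  have h1 := hcomm _ (hmem g⁻¹ _ (hmem h⁻¹ ζ hζ))
  rw [AlgEquiv.mul_apply, AlgEquiv.mul_apply, AlgEquiv.mul_apply, h1]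
  have h2 : g (g⁻¹ (h⁻¹ ζ)) = h⁻¹ ζ := by
    rw [← AlgEquiv.mul_apply, mul_inv_cancel, AlgEquiv.one_apply]
  rw [h2, ← AlgEquiv.mul_apply, mul_inv_cancel, AlgEquiv.one_apply]

theorem mem_cycZp_PQ {p : ℕ} (hp : p.Prime) (k : IntermediateField ℚ Om) (σ : GQ) :
    σ ∈ (cycZp p k).fixingSubgroup ↔ σ ∈ PQ p ∧ σ ∈ k.fixingSubgroup := by
  unfold PQ
  rw [E1_main hp k, E1_main hp ⊥]
  simp [Subgroup.mem_inf]

theorem PQ_mu {p : ℕ} (hp : p.Prime) (hp2 : p ≠ 2) (σ : GQ) (hσ : σ ∈ PQ p)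
    (h : ∀ ζ : Om, ζ ^ p = 1 → σ ζ = ζ) : ∀ ζ ∈ muInf p, σ ζ = ζ := by
  obtain ⟨r, hr0, hr⟩ := (mem_PQ_iff hp σ).1 hσ
  exact E1_odd hp hp2 σ hr0 hr h

end OzakiFree
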