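import Pool.Agent.Lib.MP_6e8030_nt.EBase
import Pool.Agent.Lib.MP_6e8030_nt.E1

open IntermediateField
open scoped ComplexConjugate

noncomputable section

namespace OzakiFree

/-! ### E10: lifting to `Gal(Om/F_∞)` -/

theorem E10_mu_finite {n : ℕ} (hn : 0 < n) : ({x : Om | x ^ n = 1} : Set Om).Finite := by
  classical
  have h : {x : Om | x ^ n = 1} ⊆ ((Polynomial.nthRoots n (1 : Om)).toFinset : Set Om) := by
    intro x hx
    have hx : x ^ n = 1 := hx
    simp only [Finset.mem_coe, Multiset.mem_toFinset]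
    exact (Polynomial.mem_nthRoots hn).2 hx
  exact (Finset.finite_toSet _).subset h

theorem EF_finite {p : ℕ} (hp : p.Prime) (F : IntermediateField ℚ Om) [FiniteDimensional ℚ F] :
    FiniteDimensional ℚ (EF p F) := by
  have hfin := E10_mu_finite (n := p ^ 2) (pow_pos hp.pos 2)
  have h1 : FiniteDimensional ℚ (adjoin ℚ {x : Om | x ^ (p ^ 2) = 1}) := by
    have : Finite ({x : Om | x ^ (p ^ 2) = 1} : Set Om) := hfin
    exact IntermediateField.finiteDimensional_adjoin (fun x _ => (Algebra.IsIntegral.isIntegral x))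
  unfold EF
  exact IntermediateField.finiteDimensional_sup _ _

/-- membership in the fixing subgroup of an `adjoin` -/
theorem E10_mem_adjoin (S : Set Om) (σ : GQ) :
    σ ∈ (adjoin ℚ S).fixingSubgroup ↔ ∀ x ∈ S, σ x = x := by
  constructor
  · intro h x hx
    exact (IntermediateField.mem_fixingSubgroup_iff _ _).1 h x (subset_adjoin ℚ S hx)
  · intro h
    have h2 : adjoin ℚ S ≤ IntermediateField.fixedField (Subgroup.zpowers σ) := by
      rw [adjoin_le_iff]
      intro x hx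
      rw [SetLike.mem_coe, IntermediateField.mem_fixedField_iff]
      intro f hf
      have h3 : Subgroup.zpowers σ ≤ MulAction.stabilizer GQ x := by
        rw [Subgroup.zpowers_le]
        exact h x hx
      exact h3 hf
    exact (IntermediateField.le_iff_le _ _).1 h2 (Subgroup.mem_zpowers σ)

theorem E10_map_mu (σ : GQ) {n : ℕ} {x : Om} (hx : x ^ n = 1) : (σ x) ^ n = 1 := by
  rw [← map_pow, hx, map_one]

/-- if `σ` is trivial on `μ_{p^k}`, `k ≥ 1`, then `σ^p` is trivial on `μ_{p^(k+1)}` -/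
theorem E10_step {p : ℕ} (hp : p.Prime) {k : ℕ} (hk : 1 ≤ k) {σ : GQ}
    (h : ∀ x : Om, x ^ (p ^ k) = 1 → σ x = x) :
    ∀ x : Om, x ^ (p ^ (k + 1)) = 1 → (σ ^ p) x = x := by
  intro x hx
  have hx0 : x ≠ 0 := by
    rintro rfl
    rw [zero_pow (pow_ne_zero _ hp.ne_zero)] at hx
    exact zero_ne_one hx
  set e : Om := σ x / x with he
  have hσx : σ x = x * e := by rw [he]; field_simp
  have hep : e ^ p = 1 := by
    have h1 : σ (x ^ p) = x ^ p := by
      apply h
      rw [← pow_mul, ← pow_succ']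
      exact hx
    rw [he, div_pow, ← map_pow, h1]
    exact div_self (pow_ne_zero _ hx0)
  have hσe : σ e = e := by
    apply h
    have : p ^ k = p * p ^ (k - 1) := by
      rw [← pow_succ']; congr 1; omega
    rw [this, pow_mul, hep, one_pow]
  have key : ∀ j : ℕ, (σ ^ j) x = x * e ^ j := by
    intro j
    induction j with
    | zero => simp
    | succ j ih =>
      rw [pow_succ', AlgEquiv.mul_apply, ih, map_mul, map_pow, hσe, hσx, pow_succ]
      ring
  rw [key, hep, mul_one]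

theorem E10_pow {p : ℕ} (hp : p.Prime) {σ : GQ}
    (h : ∀ x : Om, x ^ p = 1 → σ x = x) (n : ℕ) :
    ∀ x : Om, x ^ (p ^ (n + 1)) = 1 → (σ ^ (p ^ n)) x = x := by
  induction n with
  | zero => intro x hx; simpa using h x (by simpa using hx)
  | succ n ih =>
    intro x hx
    rw [pow_succ, pow_mul]
    exact E10_step hp (Nat.succ_le_succ (Nat.zero_le n)) ih x hx

/-- every `g` satisfies `g^(p-1) = 1` on `μ_p` -/
theorem E10_mu_p {p : ℕ} (hp : p.Prime) (σ : GQ) : ∀ x : Om, x ^ p = 1 → (σ ^ (p - 1)) x = x := by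
  intro x hx
  by_cases h1 : x = 1
  · rw [h1, map_one]
  have hprim : IsPrimitiveRoot x p := by
    refine IsPrimitiveRoot.of_map_of_injective (f := RingHom.id Om) ?_ (fun _ _ h => h)
    have h2 := IsPrimitiveRoot.orderOf x
    have h3 : orderOf x = p := by
      rcases (Nat.dvd_prime hp).1 (orderOf_dvd_of_pow_eq_one hx) with h | h
      · exact absurd (orderOf_eq_one_iff.1 h) h1
      · exact h
    rw [h3] at h2
    exact h2
  have : NeZero p := ⟨hp.ne_zero⟩
  obtain ⟨a, -, ha⟩ := hprim.eq_pow_of_pow_eq_one (E10_map_mu σ hx)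
  have key : ∀ j : ℕ, (σ ^ j) x = x ^ (a ^ j) := by
    intro j
    induction j with
    | zero => simp
    | succ j ih =>
      rw [pow_succ', AlgEquiv.mul_apply, ih, map_pow, ← ha, ← pow_mul, pow_succ']
  rw [key]
  have hcop : Nat.Coprime a p := by
    rw [Nat.coprime_comm]
    rw [hp.coprime_iff_not_dvd]
    intro hdvd
    have h4 : x ^ a = 1 := by
      obtain ⟨b, rfl⟩ := hdvd
      rw [pow_mul, hx, one_pow]
    rw [h4] at ha
    have h5 : σ x = σ 1 := by rw [← ha, map_one]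
    exact h1 (σ.injective h5)
  have h6 : a ^ (p - 1) ≡ 1 [MOD p] := by
    have := Nat.ModEq.pow_totient hcop
    rwa [Nat.totient_prime hp] at this
  have h7 : a ^ (p - 1) % p = 1 % p := h6
  have h8 : x ^ (a ^ (p - 1)) = x ^ (a ^ (p - 1) % p) := by
    conv_lhs => rw [← Nat.div_add_mod (a ^ (p - 1)) p, pow_add, pow_mul, hx, one_pow, one_mul]
  rw [h8, h7, Nat.mod_eq_of_lt hp.one_lt, pow_one]

theorem E10_PQ_normal {p : ℕ} (hp : p.Prime) : (PQ p).Normal := by
  refine ⟨fun n hn g => ?_⟩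
  have h1 := (PQ p).mul_mem (PQ_comm hp g n) hn
  simpa [mul_assoc] using h1

/-- `N1 p = Gal(Om/ℚ(μ_{p²})) · PQ p` -/
theorem E10_N1 {p : ℕ} (hp : p.Prime) {g : GQ} (hg : g ∈ N1 p) :
    ∃ u ∈ (adjoin ℚ {x : Om | x ^ (p ^ 2) = 1}).fixingSubgroup, ∃ v ∈ PQ p, g = u * v := by
  set M : IntermediateField ℚ Om := adjoin ℚ {x : Om | x ^ (p ^ 2) = 1} with hM
  have hMfin : FiniteDimensional ℚ M := by
    have : Finite ({x : Om | x ^ (p ^ 2) = 1} : Set Om) := E10_mu_finite (pow_pos hp.pos 2)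
    exact IntermediateField.finiteDimensional_adjoin (fun x _ => (Algebra.IsIntegral.isIntegral x))
  have hopen : IsOpen (M.fixingSubgroup : Set GQ) := IntermediateField.fixingSubgroup_isOpen M
  set H : Subgroup GQ := M.fixingSubgroup ⊔ PQ p with hH
  have hHopen : IsOpen (H : Set GQ) := Subgroup.isOpen_mono (le_sup_left) hopen
  have hHcl : IsClosed (H : Set GQ) := Subgroup.isClosed_of_isOpen H hHopen
  have h1 : IntermediateField.fixedField H = M ⊓ cycZp p ⊥ := by
    apply le_antisymm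
    · refine le_inf ?_ ?_
      · have : IntermediateField.fixedField H ≤ IntermediateField.fixedField M.fixingSubgroup :=
          IntermediateField.fixedField_antitone le_sup_left
        rwa [InfiniteGalois.fixedField_fixingSubgroup] at this
      · have : IntermediateField.fixedField H ≤
            IntermediateField.fixedField (cycZp p ⊥).fixingSubgroup :=
          IntermediateField.fixedField_antitone le_sup_right
        rwa [InfiniteGalois.fixedField_fixingSubgroup] at this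
    · rw [IntermediateField.le_iff_le]
      refine sup_le ?_ ?_
      · exact IntermediateField.fixingSubgroup_antitone inf_le_left
      · exact IntermediateField.fixingSubgroup_antitone inf_le_right
  have h2 : (IntermediateField.fixedField H).fixingSubgroup = H :=
    InfiniteGalois.fixingSubgroup_fixedField (⟨H, hHcl⟩ : ClosedSubgroup GQ)
  have h3 : g ∈ H := by
    rw [← h2, h1]
    exact hg
  have := E10_PQ_normal hp
  have h4 : (g : GQ) ∈ ((M.fixingSubgroup ⊔ PQ p : Subgroup GQ) : Set GQ) := h3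
  rw [Subgroup.mul_normal] at h4
  obtain ⟨u, hu, v, hv, huv⟩ := Set.mem_mul.1 h4
  exact ⟨u, hu, v, hv, huv.symm⟩

theorem E10_pow_sub {p : ℕ} (hp : p.Prime) {g : GQ} (hg : g ∈ N1 p) (hp2 : p ≠ 2) :
    ∀ x : Om, x ^ (p ^ 2) = 1 → (g ^ (p - 1)) x = x := by
  obtain ⟨u, hu, v, hv, rfl⟩ := E10_N1 hp hg
  have hu' := (E10_mem_adjoin _ u).1 hu
  have hv' : ∀ ζ ∈ muInf p, (v ^ (p - 1)) ζ = ζ :=
    PQ_mu hp hp2 (v ^ (p - 1)) ((PQ p).pow_mem hv _) (E10_mu_p hp v)
  have key : ∀ (j : ℕ) (x : Om), x ^ (p ^ 2) = 1 → ((u * v) ^ j) x = (v ^ j) x := by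
    intro j
    induction j with
    | zero => intro x _; simp
    | succ j ih =>
      intro x hx
      rw [pow_succ, AlgEquiv.mul_apply, AlgEquiv.mul_apply, hu' (v x) (E10_map_mu v hx),
        ih (v x) (E10_map_mu v hx), ← AlgEquiv.mul_apply, ← pow_succ]
  intro x hx
  rw [key _ x hx]
  exact hv' x ⟨2, hx⟩

theorem lift_PF {p : ℕ} (hp : p.Prime) (hp2 : p ≠ 2) (F : IntermediateField ℚ Om)
    [FiniteDimensional ℚ F] (g : GQ) (hg : g ∈ F.fixingSubgroup ⊓ N1 p) :
    ∃ h ∈ PQ p ⊓ F.fixingSubgroup, ∀ x ∈ EF p F, h x = g x := by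
  have hgF : g ∈ F.fixingSubgroup := hg.1
  have hsub := E10_pow_sub hp hg.2 hp2
  set A : ℕ → IntermediateField ℚ Om := fun m => adjoin ℚ {x : Om | x ^ (p ^ m) = 1} with hA
  set C : ℕ → Set GQ := fun m => (F.fixingSubgroup : Set GQ) ∩
    ((fun h => g⁻¹ * h) ⁻¹' ((EF p F).fixingSubgroup : Set GQ)) ∩
    ((fun h => h ^ (p - 1)) ⁻¹' ((A m).fixingSubgroup : Set GQ)) with hC
  have hclosed : ∀ m, IsClosed (C m) := by
    intro m
    refine IsClosed.inter (IsClosed.inter (InfiniteGalois.fixingSubgroup_isClosed F) ?_) ?_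
    · exact (InfiniteGalois.fixingSubgroup_isClosed _).preimage (continuous_const_mul g⁻¹)
    · exact (InfiniteGalois.fixingSubgroup_isClosed _).preimage (continuous_pow (p - 1))
  have hanti : ∀ m, C (m + 1) ⊆ C m := by
    rintro m h ⟨⟨h1, h2⟩, h3⟩
    refine ⟨⟨h1, h2⟩, ?_⟩
    show h ^ (p - 1) ∈ (A m).fixingSubgroup
    rw [E10_mem_adjoin]
    have h3' := (E10_mem_adjoin _ _).1 (show h ^ (p - 1) ∈ (A (m + 1)).fixingSubgroup from h3)
    intro x hx
    refine h3' x ?_
    show x ^ (p ^ (m + 1)) = 1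
    rw [pow_succ, pow_mul, show x ^ p ^ m = 1 from hx, one_pow]
  have hmul : ∀ n : ℕ, ∃ k : ℕ, p ^ n = 1 + (p - 1) * k := by
    intro n
    have h1 : (p - 1) ∣ p ^ n - 1 := by
      simpa using Nat.sub_dvd_pow_sub_pow p 1 n
    obtain ⟨k, hk⟩ := h1
    refine ⟨k, ?_⟩
    have : 0 < p ^ n := pow_pos hp.pos n
    omega
  have hne : ∀ m, (C m).Nonempty := by
    intro m
    refine ⟨g ^ (p ^ m), ⟨⟨F.fixingSubgroup.pow_mem hgF _, ?_⟩, ?_⟩⟩
    · show g⁻¹ * g ^ (p ^ m) ∈ (EF p F).fixingSubgroup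
      unfold EF
      rw [IntermediateField.fixingSubgroup_sup]
      obtain ⟨k, hk⟩ := hmul m
      have h1 : g⁻¹ * g ^ (p ^ m) = (g ^ (p - 1)) ^ k := by
        rw [hk, pow_add, pow_one, inv_mul_cancel_left, pow_mul]
      rw [h1]
      refine ⟨F.fixingSubgroup.pow_mem (F.fixingSubgroup.pow_mem hgF _) _, ?_⟩
      exact Subgroup.pow_mem _ ((E10_mem_adjoin _ _).2 hsub) _
    · show (g ^ (p ^ m)) ^ (p - 1) ∈ (A m).fixingSubgroup
      rw [E10_mem_adjoin]
      intro x hx
      rw [← pow_mul, mul_comm, pow_mul]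
      refine E10_pow hp (σ := g ^ (p - 1)) ?_ m x ?_
      · exact E10_mu_p hp g
      · rw [pow_succ, pow_mul, show x ^ p ^ m = 1 from hx, one_pow]
  obtain ⟨h, hh⟩ := IsCompact.nonempty_iInter_of_sequence_nonempty_isCompact_isClosed C hanti hne
    (hclosed 0).isCompact hclosed
  rw [Set.mem_iInter] at hh
  refine ⟨h, ⟨?_, (hh 0).1.1⟩, ?_⟩
  · refine (mem_PQ_iff hp h).2 ?_
    refine ⟨p - 1, Nat.sub_pos_of_lt hp.one_lt, ?_⟩
    rintro ζ ⟨m, hm⟩
    exact (E10_mem_adjoin _ _).1 (show h ^ (p - 1) ∈ (A m).fixingSubgroup from (hh m).2) ζ hm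
  · intro x hx
    have h1 : g⁻¹ * h ∈ (EF p F).fixingSubgroup := (hh 0).1.2
    have h2 := (IntermediateField.mem_fixingSubgroup_iff _ _).1 h1 x hx
    have h3 : g ((g⁻¹ * h) x) = h x := by
      rw [← AlgEquiv.mul_apply, mul_inv_cancel_left]
    rw [← h3, h2]

end OzakiFree
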