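import Pool.Agent.Lib.MP_6e8030_nt.EBase

open IntermediateField
open scoped ComplexConjugate

noncomputable section

namespace OzakiFree

/-! ### E11: the character of a cyclic extension -/

private theorem E11_cyc {G : Type*} [Group G] [hG : IsCyclic G] :
    ∀ n : ℕ, Nat.card G = n → ∃ f : G → ZMod n, (∀ a b, f (a * b) = f a + f b) ∧
      Function.Injective f := by
  rintro _ rfl
  let e := (zmodCyclicMulEquiv hG).symm
  refine ⟨fun g => (e g).toAdd, fun a b => ?_, fun a b h => ?_⟩
  · show (e (a * b)).toAdd = (e a).toAdd + (e b).toAdd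
    rw [map_mul]
    rfl
  · exact e.injective (Multiplicative.toAdd.injective h)

theorem exists_chi0 {p : ℕ} (hp : p.Prime) (F k : IntermediateField ℚ Om) [FiniteDimensional ℚ F]
    (hk : CyclicExt p F k) :
    ∃ χ : GQ → ZMod p, HomOn F.fixingSubgroup χ ∧ LCOn F.fixingSubgroup χ ∧
      ∀ g, g ∈ k.fixingSubgroup ↔ g ∈ F.fixingSubgroup ∧ χ g = 0 := by
  classical
  obtain ⟨hle, hrk, hst⟩ := hk
  have : Fact p.Prime := ⟨hp⟩
  have hfixF : ∀ t : GQ, t ∈ F.fixingSubgroup ↔ ∀ x ∈ F, t x = x :=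
    fun t => IntermediateField.mem_fixingSubgroup_iff F t
  have hfixk : ∀ t : GQ, t ∈ k.fixingSubgroup ↔ ∀ x ∈ k, t x = x :=
    fun t => IntermediateField.mem_fixingSubgroup_iff k t
  have hkfin : FiniteDimensional ℚ k := by
    have h1 := relfinrank_mul_relfinrank (bot_le : (⊥ : IntermediateField ℚ Om) ≤ F) hle
    rw [relfinrank_bot_left, relfinrank_bot_left, hrk] at h1
    apply Module.finite_of_finrank_pos
    rw [← h1]
    exact Nat.mul_pos Module.finrank_pos hp.pos
  set E : IntermediateField F Om := extendScalars hle with hE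
  have hrank : Module.finrank F E = p := by
    rw [← IntermediateField.relfinrank_eq_finrank_of_le hle, hrk]
  have hEfin : FiniteDimensional F E := by
    apply Module.finite_of_finrank_pos
    rw [hrank]
    exact hp.pos
  have hnOm : Normal F Om := inferInstance
  have hres : ∀ (s : Om ≃ₐ[F] Om) (x : Om), s x = (s.restrictScalars ℚ) x := fun s x => rfl
  have hnorm : Normal F E := by
    rw [IntermediateField.normal_iff_forall_map_le']
    rintro s _ ⟨x, hx, rfl⟩
    exact hst (s.restrictScalars ℚ) (fun y hy => s.commutes ⟨y, hy⟩) x hx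
  have hgal : IsGalois F E := ⟨⟩
  have hcard : Nat.card (E ≃ₐ[F] E) = p := by
    rw [IsGalois.card_aut_eq_finrank, hrank]
  have hcyc : IsCyclic (E ≃ₐ[F] E) := isCyclic_of_prime_card hcard
  obtain ⟨f, hf1, hf2⟩ := E11_cyc p hcard
  have hf0 : f 1 = 0 := by
    have := hf1 1 1
    rw [mul_one] at this
    exact left_eq_add.mp this
  let ρ : F.fixingSubgroup →* (E ≃ₐ[F] E) :=
    (AlgEquiv.restrictNormalHom (F := F) (K₁ := Om) E).comp
      (IntermediateField.fixingSubgroupEquiv F).toMonoidHom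
  have hρ : ∀ (g : F.fixingSubgroup) (x : E), ((ρ g x : E) : Om) = (g : GQ) (x : Om) := by
    intro g x
    exact AlgEquiv.restrictNormal_commutes (IntermediateField.fixingSubgroupEquiv F g) E x
  have hρ1 : ∀ g : F.fixingSubgroup, ρ g = 1 ↔ (g : GQ) ∈ k.fixingSubgroup := by
    intro g
    rw [hfixk]
    constructor
    · intro h x hx
      have h1 := hρ g ⟨x, hx⟩
      rw [h] at h1
      exact h1.symm
    · intro h
      apply AlgEquiv.ext
      intro x
      apply Subtype.ext
      rw [hρ]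
      exact h x x.2
  have hkF : k.fixingSubgroup ≤ F.fixingSubgroup := by
    intro g hg
    rw [hfixk] at hg
    rw [hfixF]
    exact fun x hx => hg x (hle hx)
  let χ : GQ → ZMod p := fun g => if h : g ∈ F.fixingSubgroup then f (ρ ⟨g, h⟩) else 0
  have hχ : ∀ (g : GQ) (h : g ∈ F.fixingSubgroup), χ g = f (ρ ⟨g, h⟩) := fun g h => dif_pos h
  have hhom : HomOn F.fixingSubgroup χ := by
    intro g hg h hh
    rw [hχ g hg, hχ h hh, hχ (g * h) (mul_mem hg hh), ← hf1, ← map_mul]
    rfl
  have hker : ∀ g, g ∈ k.fixingSubgroup ↔ g ∈ F.fixingSubgroup ∧ χ g = 0 := by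
    intro g
    constructor
    · intro hg
      refine ⟨hkF hg, ?_⟩
      rw [hχ g (hkF hg), (hρ1 ⟨g, hkF hg⟩).mpr hg, hf0]
    · rintro ⟨hg, h0⟩
      rw [hχ g hg, ← hf0] at h0
      exact (hρ1 ⟨g, hg⟩).mp (hf2 h0)
  refine ⟨χ, hhom, ⟨k.fixingSubgroup, IntermediateField.fixingSubgroup_isOpen k, ?_⟩, hker⟩
  intro g hg u hu huF
  rw [hhom g hg u huF, ((hker u).mp hu).2, add_zero]

end OzakiFree
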