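import Pool.Agent.Lib.MP_6e8030_nt.Base

open IntermediateField
open scoped ComplexConjugate Pointwise

noncomputable section

namespace OzakiFree

private theorem R10a_prim {p : ℕ} (hp : p.Prime) (hp2 : p ≠ 2) :
    ∃ g₀ : ℕ, Nat.Coprime g₀ p ∧
      ∀ (m : ℕ) (a : (ZMod (p ^ m))ˣ), ∃ i : ℕ, (a : ZMod (p ^ m)) = (g₀ : ZMod (p ^ m)) ^ i := by
  have : Fact p.Prime := ⟨hp⟩
  have hcyc2 : IsCyclic (ZMod (p ^ 2))ˣ := ZMod.isCyclic_units_of_prime_pow p hp hp2 2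
  obtain ⟨u, hu⟩ := hcyc2.exists_generator
  have : NeZero (p ^ 2) := ⟨pow_ne_zero _ hp.ne_zero⟩
  have hcard2 : Nat.card (ZMod (p ^ 2))ˣ = p * (p - 1) := by
    rw [Nat.card_eq_fintype_card, ZMod.card_units_eq_totient, Nat.totient_prime_pow hp (by norm_num)]
    simp
  have hordu : orderOf u = p * (p - 1) := by
    rw [← hcard2]
    exact orderOf_eq_card_of_forall_mem_zpowers hu
  set g₀ : ℕ := (u : ZMod (p ^ 2)).val with hg₀
  have hcop2 : Nat.Coprime g₀ (p ^ 2) := ZMod.val_coe_unit_coprime u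
  have hcop : Nat.Coprime g₀ p := Nat.Coprime.coprime_dvd_right (dvd_pow_self p (by norm_num)) hcop2
  refine ⟨g₀, hcop, fun m a => ?_⟩
  have hMcop : Nat.Coprime g₀ (p ^ (m + 2)) := Nat.Coprime.pow_right _ hcop
  have : NeZero (p ^ (m + 2)) := ⟨pow_ne_zero _ hp.ne_zero⟩
  have hcycM : IsCyclic (ZMod (p ^ (m + 2)))ˣ := ZMod.isCyclic_units_of_prime_pow p hp hp2 (m + 2)
  have hcardM : Nat.card (ZMod (p ^ (m + 2)))ˣ = p ^ (m + 1) * (p - 1) := by
    rw [Nat.card_eq_fintype_card, ZMod.card_units_eq_totient, Nat.totient_prime_pow hp (by omega)]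
    simp
  obtain ⟨v, hv⟩ := hcycM.exists_generator
  have hordv : orderOf v = p ^ (m + 1) * (p - 1) := by
    rw [← hcardM]
    exact orderOf_eq_card_of_forall_mem_zpowers hv
  set b : (ZMod (p ^ (m + 2)))ˣ := ZMod.unitOfCoprime g₀ hMcop with hb
  have hd2 : p ^ 2 ∣ p ^ (m + 2) := pow_dvd_pow _ (by omega)
  have hdm : p ^ m ∣ p ^ (m + 2) := pow_dvd_pow _ (by omega)
  have hfb : ZMod.unitsMap hd2 b = u := by
    ext
    rw [ZMod.unitsMap_val, hb, ZMod.coe_unitOfCoprime, ZMod.cast_natCast hd2, hg₀, ZMod.natCast_val,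
      ZMod.cast_id]
  obtain ⟨k, hk⟩ : ∃ k : ℕ, v ^ k = b := by
    have := hv b
    rw [← mem_powers_iff_mem_zpowers] at this
    exact this
  have hkcop : Nat.Coprime k (Nat.card (ZMod (p ^ (m + 2)))ˣ) := by
    rw [Nat.coprime_iff_gcd_eq_one]
    by_contra hne
    obtain ⟨q, hq, hqd⟩ := Nat.exists_prime_and_dvd hne
    have hqk : q ∣ k := hqd.trans (Nat.gcd_dvd_left _ _)
    have hqc : q ∣ p ^ (m + 1) * (p - 1) := by
      rw [← hcardM]
      exact hqd.trans (Nat.gcd_dvd_right _ _)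
    have hqc2 : q ∣ p * (p - 1) := by
      rcases (Nat.Prime.dvd_mul hq).1 hqc with h | h
      · exact Dvd.dvd.mul_right (hq.dvd_of_dvd_pow h) _
      · exact Dvd.dvd.mul_left h _
    obtain ⟨k', rfl⟩ := hqk
    obtain ⟨c, hc⟩ := hqc2
    have hcpos : 0 < c := by
      rcases Nat.eq_zero_or_pos c with h0 | h0
      · rw [h0, mul_zero] at hc
        have h1 : 0 < p * (p - 1) := Nat.mul_pos hp.pos (Nat.sub_pos_of_lt hp.one_lt)
        omega
      · exact h0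
    have huc : u ^ c = 1 := by
      rw [← hfb, ← hk, map_pow, ← pow_mul]
      have : q * k' * c = (p * (p - 1)) * k' := by rw [hc]; ring
      rw [this, pow_mul]
      have h3 : (ZMod.unitsMap hd2 v) ^ (p * (p - 1)) = 1 := by
        rw [← hcard2]
        exact pow_card_eq_one'
      rw [h3, one_pow]
    have hdiv : p * (p - 1) ∣ c := by
      rw [← hordu]
      exact orderOf_dvd_of_pow_eq_one huc
    have hle := Nat.le_of_dvd hcpos hdiv
    rw [hc] at hle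
    have := hq.two_le
    nlinarith
  have hordb : orderOf b = Nat.card (ZMod (p ^ (m + 2)))ˣ := by
    rw [← hk, orderOf_pow' v (n := k)]
    · rw [hordv, ← hcardM, Nat.gcd_comm, hkcop.gcd_eq_one]
      simp
    · rintro rfl
      rw [Nat.coprime_zero_left] at hkcop
      rw [hcardM] at hkcop
      have h1 : p ≤ p ^ (m + 1) := by
        calc p = p ^ 1 := (pow_one p).symm
          _ ≤ p ^ (m + 1) := Nat.pow_le_pow_right hp.pos (by omega)
      have h2 : 2 ≤ p - 1 := by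
        have := hp.two_le
        omega
      have h3 := hp.two_le
      nlinarith
  have hgenb : ∀ x, x ∈ Subgroup.zpowers b := by
    intro x
    have := (Subgroup.card_eq_iff_eq_top (Subgroup.zpowers b)).1 (by rw [Nat.card_zpowers, hordb])
    rw [this]
    exact Subgroup.mem_top x
  obtain ⟨a', ha'⟩ := ZMod.unitsMap_surjective hdm a
  obtain ⟨i, hi⟩ : ∃ i : ℕ, b ^ i = a' := by
    have := hgenb a'
    rw [← mem_powers_iff_mem_zpowers] at this
    exact this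
  refine ⟨i, ?_⟩
  rw [← ha', ← hi, map_pow, Units.val_pow_eq_pow_val, ZMod.unitsMap_val, hb, ZMod.coe_unitOfCoprime,
    ZMod.cast_natCast hdm]

private theorem R10a_exists_one {p : ℕ} (hp : p.Prime) (g₀ : ℕ) (hg : Nat.Coprime g₀ p) (m : ℕ) :
    ∃ σ : GQ, ∀ ξ : Om, ξ ^ (p ^ m) = 1 → σ ξ = ξ ^ g₀ := by
  have : NeZero (p ^ m) := ⟨pow_ne_zero _ hp.ne_zero⟩
  obtain ⟨ζ, hζ⟩ := HasEnoughRootsOfUnity.exists_primitiveRoot Om (p ^ m)
  have hcop : Nat.Coprime g₀ (p ^ m) := Nat.Coprime.pow_right _ hg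
  have h1 : minpoly ℤ ζ = minpoly ℤ (ζ ^ g₀) := by
    have h := hζ.minpoly_eq_pow_coprime hcop
    have e : (Ring.toIntAlgebra Om : Algebra ℤ Om) = AlgebraicClosure.instAlgebra ℚ :=
      Subsingleton.elim _ _
    rw [e] at h
    exact h
  have hint : IsIntegral ℤ ζ := hζ.isIntegral (pow_pos hp.pos m)
  have h2 : minpoly ℚ (ζ ^ g₀) = minpoly ℚ ζ := by
    rw [minpoly.isIntegrallyClosed_eq_field_fractions' ℚ hint,
      minpoly.isIntegrallyClosed_eq_field_fractions' ℚ (hint.pow g₀), ← h1]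
  obtain ⟨σ, hσ⟩ := (Normal.minpoly_eq_iff_mem_orbit (F := ℚ) (E := Om)).1 h2
  refine ⟨σ, fun ξ hξ => ?_⟩
  obtain ⟨i, -, rfl⟩ := hζ.eq_pow_of_pow_eq_one hξ
  have h3 : σ ζ = ζ ^ g₀ := hσ
  rw [map_pow, h3, ← pow_mul, ← pow_mul, mul_comm]

private theorem R10a_isClosed (x y : Om) : IsClosed {σ : GQ | σ x = y} := by
  by_cases h : ∃ σ₁ : GQ, σ₁ x = y
  · obtain ⟨σ₁, h₁⟩ := h
    have hst : IsClosed (MulAction.stabilizer GQ x : Set GQ) :=
      OpenSubgroup.isClosed ⟨MulAction.stabilizer GQ x, stabilizer_isOpen_of_isIntegral x⟩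
    have : {σ : GQ | σ x = y} = σ₁ • (MulAction.stabilizer GQ x : Set GQ) := by
      ext σ
      rw [mem_leftCoset_iff, SetLike.mem_coe, MulAction.mem_stabilizer_iff]
      constructor
      · intro hσ
        change σ₁⁻¹ (σ x) = x
        have hσ' : σ x = y := hσ
        rw [hσ', ← h₁]
        exact σ₁.symm_apply_apply x
      · intro hσ
        have hσ' : σ₁⁻¹ (σ x) = x := hσ
        change σ x = y
        rw [← h₁]
        conv_rhs => rw [← hσ']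
        exact (σ₁.apply_symm_apply (σ x)).symm
    rw [this]
    exact hst.leftCoset σ₁
  · have : {σ : GQ | σ x = y} = ∅ := by
      ext σ
      simp only [Set.mem_ofPred_eq, Set.mem_empty_iff_false, iff_false]
      exact fun hσ => h ⟨σ, hσ⟩
    rw [this]
    exact isClosed_empty

theorem exists_sigma0 {p : ℕ} (hp : p.Prime) (hp2 : p ≠ 2) :
    ∃ (g₀ : ℕ) (σ₀ : GQ), (∀ ξ ∈ muInf p, σ₀ ξ = ξ ^ g₀) ∧
      (∀ (m : ℕ) (a : (ZMod (p ^ m))ˣ), ∃ i : ℕ, (a : ZMod (p ^ m)) = (g₀ : ZMod (p ^ m)) ^ i) := by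
  obtain ⟨g₀, hcop, hgen⟩ := R10a_prim hp hp2
  let C : ℕ → Set GQ := fun m => {σ : GQ | ∀ ξ : Om, ξ ^ (p ^ m) = 1 → σ ξ = ξ ^ g₀}
  have hclosed : ∀ m, IsClosed (C m) := by
    intro m
    have : C m = ⋂ (ξ : Om) (_ : ξ ^ (p ^ m) = 1), {σ : GQ | σ ξ = ξ ^ g₀} := by
      ext σ
      simp [C]
    rw [this]
    exact isClosed_iInter fun ξ => isClosed_iInter fun _ => R10a_isClosed _ _
  have hanti : ∀ m, C (m + 1) ⊆ C m := by
    intro m σ hσ ξ hξ
    refine hσ ξ ?_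
    rw [pow_succ, pow_mul, hξ, one_pow]
  have hne : (⋂ m, C m).Nonempty :=
    IsCompact.nonempty_iInter_of_sequence_nonempty_isCompact_isClosed C hanti
      (fun m => R10a_exists_one hp g₀ hcop m) (hclosed 0).isCompact hclosed
  obtain ⟨σ₀, hσ₀⟩ := hne
  refine ⟨g₀, σ₀, ?_, hgen⟩
  rintro ξ ⟨m, hm⟩
  exact (Set.mem_iInter.1 hσ₀ m) ξ hm

private theorem R10a_mem_Pmu {p : ℕ} (σ : GQ) : σ ∈ Pmu p ↔ ∀ ξ ∈ muInf p, σ ξ = ξ := by
  unfold Pmu
  constructor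
  · intro h ξ hξ
    exact (IntermediateField.mem_fixingSubgroup_iff _ _).1 h ξ (subset_adjoin ℚ _ hξ)
  · intro h
    rw [IntermediateField.mem_fixingSubgroup_iff]
    have := (forall_mem_adjoin_smul_eq_self_iff ℚ (S := muInf p) σ).2 h
    exact this

theorem periodic {p : ℕ} (hp : p.Prime) (hp2 : p ≠ 2)
    (σ₀ : GQ) (g₀ : ℕ) (hσ : ∀ ξ ∈ muInf p, σ₀ ξ = ξ ^ g₀)
    (θ : GQ → ZMod p) (hθ : HomOn (Pmu p) θ) (hc : LCOn (Pmu p) θ) :
    ∃ a : ℕ, ∀ t ∈ Pmu p,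
      θ (σ₀ ^ ((p - 1) * p ^ a) * t * (σ₀ ^ ((p - 1) * p ^ a))⁻¹) = θ t := by
  obtain ⟨U, hU, hUc⟩ := hc
  have hθ1 : θ 1 = 0 := by
    have := hθ 1 (Subgroup.one_mem _) 1 (Subgroup.one_mem _)
    rw [mul_one] at this
    simpa using this
  have hθU : ∀ u ∈ U, u ∈ Pmu p → θ u = 0 := by
    intro u hu hu'
    have := hUc 1 (Subgroup.one_mem _) u hu hu'
    rw [one_mul, hθ1] at this
    exact this
  -- normal open subgroup
  have hnhds : (U : Set GQ) ∈ nhds (1 : GQ) := hU.mem_nhds (Subgroup.one_mem U)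
  obtain ⟨E, hEfin, hEnorm, hEU⟩ := (krullTopology_mem_nhds_one_iff_of_normal ℚ Om _).1 hnhds
  set W : Subgroup GQ := E.fixingSubgroup with hW
  have hWn : W.Normal := (InfiniteGalois.normal_iff_isGalois E).2 ⟨⟩
  have hWo : IsOpen (W : Set GQ) := E.fixingSubgroup_isOpen
  -- the decreasing family of subgroups fixing `μ_{p^m}`
  let D : ℕ → Set GQ := fun m => {σ : GQ | ∀ ξ : Om, ξ ^ (p ^ m) = 1 → σ ξ = ξ}
  have hDclosed : ∀ m, IsClosed (D m) := by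
    intro m
    have : D m = ⋂ (ξ : Om) (_ : ξ ^ (p ^ m) = 1), {σ : GQ | σ ξ = ξ} := by
      ext σ
      simp [D]
    rw [this]
    exact isClosed_iInter fun ξ => isClosed_iInter fun _ => R10a_isClosed _ _
  have hDanti : Antitone D := by
    refine antitone_nat_of_succ_le fun m σ hσ ξ hξ => ?_
    refine hσ ξ ?_
    rw [pow_succ, pow_mul, hξ, one_pow]
  have hDP : ∀ σ, σ ∈ ⋂ m, D m → σ ∈ Pmu p := by
    intro σ hσ
    rw [R10a_mem_Pmu]
    rintro ξ ⟨m, hm⟩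
    exact (Set.mem_iInter.1 hσ m) ξ hm
  have hOopen : IsOpen ((W : Set GQ) * (Pmu p : Set GQ)) := hWo.mul_right
  obtain ⟨m, hm⟩ : ∃ m, D m ⊆ (W : Set GQ) * (Pmu p : Set GQ) := by
    refine exists_subset_nhds_of_compactSpace (directed_of_isDirected_le fun a b hab => hDanti hab)
      hDclosed fun σ hσ => hOopen.mem_nhds ?_
    exact ⟨1, Subgroup.one_mem _, σ, hDP σ hσ, one_mul σ⟩
  -- `g₀` is prime to `p`
  have hcop : Nat.Coprime g₀ p := by
    rw [Nat.coprime_comm, Nat.Prime.coprime_iff_not_dvd hp]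
    rintro ⟨c, rfl⟩
    have : NeZero p := ⟨hp.ne_zero⟩
    obtain ⟨ζ, hζ⟩ := HasEnoughRootsOfUnity.exists_primitiveRoot Om p
    have h1 := hσ ζ ⟨1, by rw [pow_one]; exact hζ.pow_eq_one⟩
    rw [pow_mul, hζ.pow_eq_one, one_pow] at h1
    have h2 : ζ = 1 := by
      apply σ₀.injective
      rw [h1, map_one]
    exact hp.one_lt.ne' (hζ.unique (h2 ▸ IsPrimitiveRoot.one))
  have hpow : ∀ (n : ℕ), ∀ ξ ∈ muInf p, (σ₀ ^ n) ξ = ξ ^ (g₀ ^ n) := by
    intro n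
    induction n with
    | zero => intro ξ _; simp
    | succ n ih =>
      intro ξ hξ
      rw [pow_succ', AlgEquiv.mul_apply, ih ξ hξ, map_pow, hσ ξ hξ, ← pow_mul, pow_succ']
  refine ⟨m, ?_⟩
  have hs : σ₀ ^ ((p - 1) * p ^ m) ∈ D m := by
    intro ξ hξ
    rw [hpow _ ξ ⟨m, hξ⟩]
    have h1 : g₀ ^ ((p - 1) * p ^ m) ≡ 1 [MOD p ^ m] := by
      have h2 : g₀ ^ Nat.totient (p ^ (m + 1)) ≡ 1 [MOD p ^ (m + 1)] :=
        Nat.ModEq.pow_totient (Nat.Coprime.pow_right _ hcop)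
      rw [Nat.totient_prime_pow hp (by omega)] at h2
      have h3 : m + 1 - 1 = m := by omega
      rw [h3, mul_comm] at h2
      exact h2.of_dvd (pow_dvd_pow _ (by omega))
    have h4 := pow_eq_pow_of_modEq h1 hξ
    rw [h4, pow_one]
  obtain ⟨w, hw, z, hz, hwz⟩ := hm hs
  have hwz' : σ₀ ^ ((p - 1) * p ^ m) = w * z := hwz.symm
  have hPn : (Pmu p).Normal := by
    refine ⟨fun n hn g => ?_⟩
    rw [R10a_mem_Pmu] at hn ⊢
    intro ξ hξ
    have h1 : g⁻¹ ξ ∈ muInf p := by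
      obtain ⟨k, hk⟩ := hξ
      exact ⟨k, by rw [← map_pow, hk, map_one]⟩
    change g (n (g⁻¹ ξ)) = ξ
    rw [hn _ h1]
    exact g.apply_symm_apply ξ
  intro t ht
  rw [hwz', mul_inv_rev]
  have hzt : z * t * z⁻¹ ∈ Pmu p := hPn.conj_mem t ht z
  have hz' : z⁻¹ ∈ Pmu p := Subgroup.inv_mem _ hz
  have hθzt : θ (z * t * z⁻¹) = θ t := by
    rw [hθ _ (Subgroup.mul_mem _ hz ht) _ hz', hθ _ hz _ ht]
    have : θ z + θ z⁻¹ = 0 := by
      rw [← hθ _ hz _ hz', mul_inv_cancel, hθ1]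
    linear_combination this
  have hcomm : w * (z * t * z⁻¹) * w⁻¹ * (z * t * z⁻¹)⁻¹ ∈ Pmu p :=
    Subgroup.mul_mem _ (hPn.conj_mem _ hzt w) (Subgroup.inv_mem _ hzt)
  have hcommW : w * (z * t * z⁻¹) * w⁻¹ * (z * t * z⁻¹)⁻¹ ∈ W := by
    have h1 : (z * t * z⁻¹) * w⁻¹ * (z * t * z⁻¹)⁻¹ ∈ W :=
      hWn.conj_mem _ (Subgroup.inv_mem _ hw) _
    have h2 := Subgroup.mul_mem _ (show w ∈ W from hw) h1
    have h3 : w * (z * t * z⁻¹) * w⁻¹ * (z * t * z⁻¹)⁻¹ = w * ((z * t * z⁻¹) * w⁻¹ * (z * t * z⁻¹)⁻¹) := by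
      group
    rw [h3]
    exact h2
  have hfin : w * z * t * (z⁻¹ * w⁻¹) =
      (w * (z * t * z⁻¹) * w⁻¹ * (z * t * z⁻¹)⁻¹) * (z * t * z⁻¹) := by
    group
  rw [hfin, hθ _ hcomm _ hzt, hθzt, hθU _ (hEU hcommW) hcomm, zero_add]

end OzakiFree
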