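import Pool.Agent.Lib.MP_6e8030_nt.EBase
import Pool.Agent.Lib.MP_6e8030_nt.R10a

open IntermediateField
open scoped ComplexConjugate Pointwise

noncomputable section

namespace OzakiFree

private theorem E12_mem_adjoin (S : Set Om) (σ : GQ) :
    σ ∈ (adjoin ℚ S).fixingSubgroup ↔ ∀ x ∈ S, σ x = x := by
  constructor
  · intro h x hx
    exact (IntermediateField.mem_fixingSubgroup_iff _ _).1 h x (subset_adjoin ℚ _ hx)
  · intro h
    rw [IntermediateField.mem_fixingSubgroup_iff]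
    exact (forall_mem_adjoin_smul_eq_self_iff ℚ (S := S) σ).2 h

/-- a natural exponent describes `σ` on `μ_{p^M}` -/
private theorem E12_exp {p : ℕ} (hp : p.Prime) (σ : GQ) (M : ℕ) :
    ∃ (ξ : Om) (a : ℕ), IsPrimitiveRoot ξ (p ^ M) ∧ 1 < a ∧ a.Coprime (p ^ M) ∧
      ∀ ζ : Om, ζ ^ (p ^ M) = 1 → σ ζ = ζ ^ a := by
  have : NeZero (p ^ M) := ⟨pow_ne_zero _ hp.ne_zero⟩
  have : NeZero ((p ^ M : ℕ) : Om) := ⟨by exact_mod_cast pow_ne_zero _ hp.ne_zero⟩
  obtain ⟨ξ, hξ⟩ := HasEnoughRootsOfUnity.exists_primitiveRoot Om (p ^ M)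
  have h1 : IsPrimitiveRoot (σ ξ) (p ^ M) := hξ.map_of_injective (f := (σ : Om →ₐ[ℚ] Om)) σ.injective
  obtain ⟨i, -, hi⟩ := hξ.eq_pow_of_pow_eq_one h1.pow_eq_one
  have hpos : 0 < p ^ M := pow_pos hp.pos M
  have hi' : σ ξ = ξ ^ (i + 2 * p ^ M) := by
    rw [pow_add, mul_comm 2, pow_mul, hξ.pow_eq_one, one_pow, mul_one, hi]
  refine ⟨ξ, i + 2 * p ^ M, hξ, by omega, ?_, ?_⟩
  · rw [hi'] at h1
    exact (hξ.pow_iff_coprime hpos _).1 h1
  · intro ζ hζ
    obtain ⟨j, -, hj⟩ := hξ.eq_pow_of_pow_eq_one hζ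
    rw [← hj, map_pow, hi', ← pow_mul, ← pow_mul, mul_comm]

private theorem E12_pow {p : ℕ} (σ : GQ) {M a : ℕ} (h : ∀ ζ : Om, ζ ^ (p ^ M) = 1 → σ ζ = ζ ^ a)
    (ζ : Om) (hζ : ζ ^ (p ^ M) = 1) (r : ℕ) : (σ ^ r) ζ = ζ ^ (a ^ r) := by
  induction r with
  | zero => simp
  | succ r ih =>
    rw [pow_succ', AlgEquiv.mul_apply, ih, map_pow, h ζ hζ, ← pow_mul, ← pow_succ']

private theorem E12_dvd {p : ℕ} (hp : p.Prime) (σ : GQ) {r : ℕ}
    (hr : ∀ ζ ∈ muInf p, (σ ^ r) ζ = ζ) (M : ℕ) :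
    ∃ (ξ : Om) (a : ℕ), IsPrimitiveRoot ξ (p ^ M) ∧ 1 < a ∧
      (∀ ζ : Om, ζ ^ (p ^ M) = 1 → σ ζ = ζ ^ a) ∧ p ^ M ∣ a ^ r - 1 := by
  obtain ⟨ξ, a, hξ, ha, -, h⟩ := E12_exp hp σ M
  refine ⟨ξ, a, hξ, ha, h, ?_⟩
  have h1 := E12_pow σ h ξ hξ.pow_eq_one r
  rw [hr ξ ⟨M, hξ.pow_eq_one⟩] at h1
  have h2 : 1 ≤ a ^ r := Nat.one_le_pow _ _ (by omega)
  have h3 : ξ ^ (a ^ r - 1) = 1 := by
    have hne : ξ ≠ 0 := hξ.ne_zero (pow_ne_zero _ hp.ne_zero)
    have h4 : ξ ^ (a ^ r - 1) * ξ = 1 * ξ := by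
      rw [← pow_succ, Nat.sub_add_cancel h2, ← h1, one_mul]
    exact mul_right_cancel₀ hne h4
  exact (hξ.pow_eq_one_iff_dvd _).1 h3

/-- odd `p` (as `GF_odd` in GF.lean) -/
private theorem E12_odd {p : ℕ} (hp : p.Prime) (hp2 : p ≠ 2) (σ : GQ) {r : ℕ} (hr0 : 0 < r)
    (hr : ∀ ζ ∈ muInf p, (σ ^ r) ζ = ζ) (h1 : ∀ ζ : Om, ζ ^ p = 1 → σ ζ = ζ) :
    ∀ ζ ∈ muInf p, σ ζ = ζ := by
  rintro ζ ⟨m, hm⟩
  have : Fact p.Prime := ⟨hp⟩
  obtain ⟨ξ, a, hξ, ha, h, hd⟩ := E12_dvd hp σ hr (m + padicValNat p r + 1)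
  set M := m + padicValNat p r + 1 with hM
  have hodd : Odd p := hp.odd_of_ne_two hp2
  have ha1 : p ∣ a - 1 := by
    have hω : IsPrimitiveRoot (ξ ^ (p ^ (M - 1))) p := by
      refine hξ.pow (pow_pos hp.pos M) ?_
      rw [← pow_succ]; congr 1
    have e1 := h1 _ hω.pow_eq_one
    have e2 : (ξ ^ (p ^ (M - 1))) ^ (p ^ M) = 1 := by
      rw [← pow_mul, mul_comm, pow_mul, hξ.pow_eq_one, one_pow]
    rw [h _ e2] at e1
    have hne : ξ ^ (p ^ (M - 1)) ≠ 0 := hω.ne_zero hp.ne_zero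
    have e3 : (ξ ^ (p ^ (M - 1))) ^ (a - 1) = 1 := by
      have e4 : (ξ ^ (p ^ (M - 1))) ^ (a - 1) * ξ ^ (p ^ (M - 1)) = 1 * ξ ^ (p ^ (M - 1)) := by
        rw [← pow_succ, Nat.sub_add_cancel (by omega), e1, one_mul]
      exact mul_right_cancel₀ hne e4
    exact (hω.pow_eq_one_iff_dvd _).1 e3
  have hpa : ¬ p ∣ a := fun hcon => by
    have : p ∣ 1 := by
      have := Nat.dvd_sub hcon ha1
      rwa [show a - (a - 1) = 1 by omega] at this
    exact hp.one_lt.ne' (Nat.dvd_one.1 this)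
  have hlte := padicValNat.pow_sub_pow hodd (show 1 < a from ha) ha1 hpa hr0.ne'
  rw [one_pow] at hlte
  have hne : a ^ r - 1 ≠ 0 := by
    have : 1 < a ^ r := Nat.one_lt_pow hr0.ne' ha
    omega
  have hv : M ≤ padicValNat p (a ^ r - 1) := (padicValNat_dvd_iff_le hne).1 hd
  have hv1 : m ≤ padicValNat p (a - 1) := by omega
  have hne1 : a - 1 ≠ 0 := by omega
  have hdm : p ^ m ∣ a - 1 := (padicValNat_dvd_iff_le hne1).2 hv1
  have hζM : ζ ^ (p ^ M) = 1 := by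
    rw [hM, add_assoc, pow_add p, pow_mul, hm, one_pow]
  rw [h ζ hζM]
  obtain ⟨c, hc⟩ := hdm
  have : a = p ^ m * c + 1 := by omega
  rw [this, pow_succ, pow_mul, hm, one_pow, one_mul]

/-- `g ^ (p ^ n * (p - 1))` fixes `μ_{p^m}` for `m ≤ n + 1` -/
private theorem E12_tot {p : ℕ} (hp : p.Prime) (g : GQ) {m n : ℕ} (hmn : m ≤ n + 1) (ζ : Om)
    (hζ : ζ ^ (p ^ m) = 1) : (g ^ (p ^ n * (p - 1))) ζ = ζ := by
  have hζ' : ζ ^ (p ^ (n + 1)) = 1 := by
    obtain ⟨k, hk⟩ := Nat.exists_eq_add_of_le hmn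
    rw [hk, pow_add, pow_mul, hζ, one_pow]
  obtain ⟨ξ, a, hξ, ha, hcop, h⟩ := E12_exp hp g (n + 1)
  rw [E12_pow g h ζ hζ']
  have h1 : a ^ (p ^ n * (p - 1)) ≡ 1 [MOD p ^ (n + 1)] := by
    have := Nat.ModEq.pow_totient hcop
    rwa [Nat.totient_prime_pow_succ hp] at this
  rw [pow_eq_pow_of_modEq h1 hζ', pow_one]

private theorem E12_closed (x y : Om) : IsClosed {σ : GQ | σ x = y} := by
  by_cases h : ∃ σ₁ : GQ, σ₁ x = y
  · obtain ⟨σ₁, h₁⟩ := h
    have hst : IsClosed (MulAction.stabilizer GQ x : Set GQ) :=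
      OpenSubgroup.isClosed ⟨MulAction.stabilizer GQ x, stabilizer_isOpen_of_isIntegral x⟩
    have : {σ : GQ | σ x = y} = σ₁ • (MulAction.stabilizer GQ x : Set GQ) := by
      ext σ
      rw [mem_leftCoset_iff, SetLike.mem_coe, MulAction.mem_stabilizer_iff]
      constructor
      · intro hσ
        change σ₁⁻¹ (σ x) = x
        have hσ' : σ x = y := hσ
        rw [hσ', ← h₁]
        exact σ₁.symm_apply_apply x
      · intro hσ
        have hσ' : σ₁⁻¹ (σ x) = x := hσ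
        change σ x = y
        rw [← h₁]
        conv_rhs => rw [← hσ']
        exact (σ₁.apply_symm_apply (σ x)).symm
    rw [this]
    exact hst.leftCoset σ₁
  · have : {σ : GQ | σ x = y} = ∅ := by
      ext σ
      simp only [Set.mem_ofPred_eq, Set.mem_empty_iff_false, iff_false]
      exact fun hσ => h ⟨σ, hσ⟩
    rw [this]
    exact isClosed_empty

/-- a continuous version: `σ ^ r` at a point -/
private theorem E12_closed_pow (r : ℕ) (x y : Om) : IsClosed {σ : GQ | (σ ^ r) x = y} :=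
  (E12_closed x y).preimage (continuous_pow r)

/-- if `g ^ (p - 1)` fixes `μ_{p²}` then some `τ` with `τ ^ (p - 1)` trivial on all `μ_{p^m}`
is equal to `g` on `μ_{p²}` -/
private theorem E12_teich {p : ℕ} (hp : p.Prime) (g : GQ)
    (hg : ∀ ζ : Om, ζ ^ (p ^ 2) = 1 → (g ^ (p - 1)) ζ = ζ) :
    ∃ τ : GQ, (∀ ζ : Om, ζ ^ (p ^ 2) = 1 → τ ζ = g ζ) ∧ ∀ ζ ∈ muInf p, (τ ^ (p - 1)) ζ = ζ := by
  let C : ℕ → Set GQ := fun m => {σ : GQ | (∀ ζ : Om, ζ ^ (p ^ 2) = 1 → σ ζ = g ζ) ∧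
    ∀ ζ : Om, ζ ^ (p ^ m) = 1 → (σ ^ (p - 1)) ζ = ζ}
  have hclosed : ∀ m, IsClosed (C m) := by
    intro m
    have : C m = (⋂ (ζ : Om) (_ : ζ ^ (p ^ 2) = 1), {σ : GQ | σ ζ = g ζ}) ∩
        ⋂ (ζ : Om) (_ : ζ ^ (p ^ m) = 1), {σ : GQ | (σ ^ (p - 1)) ζ = ζ} := by
      ext σ
      simp [C]
    rw [this]
    exact (isClosed_iInter fun ζ => isClosed_iInter fun _ => E12_closed _ _).inter
      (isClosed_iInter fun ζ => isClosed_iInter fun _ => E12_closed_pow _ _ _)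
  have hanti : ∀ m, C (m + 1) ⊆ C m := by
    rintro m σ ⟨h1, h2⟩
    refine ⟨h1, fun ζ hζ => h2 ζ ?_⟩
    rw [pow_succ, pow_mul, hζ, one_pow]
  have hfix : ∀ (k : ℕ) (ζ : Om), ζ ^ (p ^ 2) = 1 → ((g ^ (p - 1)) ^ k) ζ = ζ := by
    intro k
    induction k with
    | zero => intro ζ _; simp
    | succ k ih =>
      intro ζ hζ
      rw [pow_succ, AlgEquiv.mul_apply, hg ζ hζ, ih ζ hζ]
  have hex : ∀ m, (C m).Nonempty := by
    intro m
    refine ⟨g ^ (p ^ m), ?_, ?_⟩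
    · intro ζ hζ
      obtain ⟨k, hk⟩ : p - 1 ∣ p ^ m - 1 := by
        have := Nat.sub_one_dvd_pow_sub_one p m
        exact this
      have h1 : p ^ m = 1 + (p - 1) * k := by
        have := Nat.pos_of_ne_zero (pow_ne_zero m hp.ne_zero)
        omega
      rw [h1, pow_add, pow_one, pow_mul, AlgEquiv.mul_apply, hfix k ζ hζ]
    · intro ζ hζ
      rw [← pow_mul]
      exact E12_tot hp g (Nat.le_succ m) ζ hζ
  obtain ⟨τ, hτ⟩ := IsCompact.nonempty_iInter_of_sequence_nonempty_isCompact_isClosed C hanti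
      hex (hclosed 0).isCompact hclosed
  rw [Set.mem_iInter] at hτ
  refine ⟨τ, (hτ 0).1, ?_⟩
  rintro ζ ⟨m, hm⟩
  exact (hτ m).2 ζ hm

theorem N1_facts {p : ℕ} (hp : p.Prime) (hp2 : p ≠ 2) :
    IsOpen (N1 p : Set GQ) ∧ PQ p ≤ N1 p ∧ (N1 p).index = p ∧
      ∀ g : GQ, (∀ x : Om, x ^ (p ^ 2) = 1 → g x = x) → g ∈ N1 p := by
  have hne : NeZero (p ^ 2) := ⟨pow_ne_zero _ hp.ne_zero⟩
  have : NeZero ((p ^ 2 : ℕ) : Om) := ⟨by exact_mod_cast pow_ne_zero _ hp.ne_zero⟩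
  have hpos : 0 < p ^ 2 := pow_pos hp.pos 2
  have hp1 : 0 < p - 1 := Nat.sub_pos_of_lt hp.one_lt
  obtain ⟨ξ, hξ⟩ := HasEnoughRootsOfUnity.exists_primitiveRoot Om (p ^ 2)
  -- the mod p² cyclotomic character
  obtain ⟨φ, hφ⟩ : ∃ φ : GQ →* (ZMod (p ^ 2))ˣ, ∀ g : GQ, ξ ^ (φ g : ZMod (p ^ 2)).val = g ξ :=
    ⟨hξ.autToPow ℚ, fun g => hξ.autToPow_spec ℚ g⟩
  have hφ1 : ∀ g : GQ, φ g = 1 ↔ ∀ ζ : Om, ζ ^ (p ^ 2) = 1 → g ζ = ζ := by
    intro g
    have h1val : ((1 : ZMod (p ^ 2))).val = 1 := by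
      have : Fact (1 < p ^ 2) := ⟨Nat.one_lt_pow two_ne_zero hp.one_lt⟩
      exact ZMod.val_one _
    constructor
    · intro h ζ hζ
      obtain ⟨j, -, rfl⟩ := hξ.eq_pow_of_pow_eq_one hζ
      have h2 := hφ g
      rw [h, Units.val_one, h1val, pow_one] at h2
      rw [map_pow, ← h2]
    · intro h
      have h2 := hφ g
      rw [h ξ hξ.pow_eq_one] at h2
      have h3 : (φ g : ZMod (p ^ 2)).val = 1 := by
        apply hξ.pow_inj (ZMod.val_lt _) (Nat.one_lt_pow two_ne_zero hp.one_lt)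
        rw [h2, pow_one]
      apply Units.ext
      apply ZMod.val_injective
      rw [h3, Units.val_one, h1val]
  -- surjectivity
  have hsurj : Function.Surjective φ := by
    obtain ⟨g₀, σ₀, hσ, hgen⟩ := exists_sigma0 hp hp2
    intro a
    obtain ⟨i, hi⟩ := hgen 2 a
    refine ⟨σ₀ ^ i, ?_⟩
    have h1 : (φ σ₀ : ZMod (p ^ 2)) = (g₀ : ZMod (p ^ 2)) := by
      have h2 := hφ σ₀
      rw [hσ ξ ⟨2, hξ.pow_eq_one⟩] at h2
      have e : ξ ^ (g₀ % p ^ 2) = ξ ^ g₀ :=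
        pow_eq_pow_of_modEq (Nat.mod_modEq g₀ (p ^ 2)) hξ.pow_eq_one
      have h3 : (φ σ₀ : ZMod (p ^ 2)).val = g₀ % p ^ 2 :=
        hξ.pow_inj (ZMod.val_lt _) (Nat.mod_lt _ hpos) (by rw [h2, e])
      apply ZMod.val_injective
      rw [h3, ZMod.val_natCast]
    apply Units.ext
    rw [map_pow, Units.val_pow_eq_pow_val, h1, hi]
  -- the group `H`
  obtain ⟨H, hH⟩ : ∃ H : Subgroup GQ, H = ((powMonoidHom (p - 1)).comp φ).ker := ⟨_, rfl⟩
  have hHmem : ∀ g : GQ, g ∈ H ↔ ∀ ζ : Om, ζ ^ (p ^ 2) = 1 → (g ^ (p - 1)) ζ = ζ := by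
    intro g
    rw [hH, MonoidHom.mem_ker, MonoidHom.comp_apply, powMonoidHom_apply, ← map_pow, hφ1]
  have hHidx : H.index = p := by
    have hcyc : IsCyclic (ZMod (p ^ 2))ˣ := ZMod.isCyclic_units_of_prime_pow p hp hp2 2
    have hcard : Nat.card (ZMod (p ^ 2))ˣ = p * (p - 1) := by
      rw [Nat.card_eq_fintype_card, ZMod.card_units_eq_totient,
        Nat.totient_prime_pow hp (by norm_num)]
      simp
    rw [hH, ← MonoidHom.comap_ker, Subgroup.index_comap_of_surjective _ hsurj,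
      IsCyclic.index_powMonoidHom_ker, hcard, Nat.gcd_eq_right (Dvd.intro_left p rfl),
      Nat.mul_div_cancel _ hp1]
  -- the fixing group of `ℚ(μ_{p²})`
  obtain ⟨M, hM⟩ : ∃ M : IntermediateField ℚ Om, M = adjoin ℚ {x : Om | x ^ (p ^ 2) = 1} :=
    ⟨_, rfl⟩
  have hU : ∀ g : GQ, g ∈ M.fixingSubgroup ↔ ∀ ζ : Om, ζ ^ (p ^ 2) = 1 → g ζ = ζ := by
    intro g
    rw [hM]
    exact E12_mem_adjoin _ g
  have hUopen : IsOpen (M.fixingSubgroup : Set GQ) := by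
    have hfin : Set.Finite {x : Om | x ^ (p ^ 2) = 1} := by
      refine Set.Finite.subset (Polynomial.nthRootsFinset (p ^ 2) (1 : Om)).finite_toSet ?_
      intro x hx
      rw [Finset.mem_coe, Polynomial.mem_nthRootsFinset hpos]
      exact hx
    have : FiniteDimensional ℚ M := by
      rw [hM]
      have : Finite {x : Om | x ^ (p ^ 2) = 1} := hfin
      exact IntermediateField.finiteDimensional_adjoin fun x _ => Algebra.IsIntegral.isIntegral x
    exact IntermediateField.fixingSubgroup_isOpen M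
  have hUN : M.fixingSubgroup ≤ N1 p := by
    unfold N1
    rw [← hM]
    exact IntermediateField.fixingSubgroup_antitone inf_le_left
  have hPN : PQ p ≤ N1 p := by
    unfold N1 PQ
    exact IntermediateField.fixingSubgroup_antitone inf_le_right
  have hUH : M.fixingSubgroup ≤ H := by
    intro g hg
    rw [hHmem]
    rw [hU] at hg
    intro ζ hζ
    have : ∀ k : ℕ, (g ^ k) ζ = ζ := by
      intro k
      induction k with
      | zero => simp
      | succ k ih => rw [pow_succ, AlgEquiv.mul_apply, hg ζ hζ, ih]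
    exact this _
  have hHopen : IsOpen (H : Set GQ) := Subgroup.isOpen_mono hUH hUopen
  have hHclosed : IsClosed (H : Set GQ) := Subgroup.isClosed_of_isOpen H hHopen
  -- H ≤ N1
  have hHN : H ≤ N1 p := by
    intro g hg
    rw [hHmem] at hg
    obtain ⟨τ, h1, h2⟩ := E12_teich hp g hg
    have hτ : τ ∈ PQ p := by
      unfold PQ
      have h3 : cycZp p ⊥ ≤ IntermediateField.fixedField (Subgroup.closure
        {σ : GQ | Fixes σ ⊥ ∧ ∃ r : ℕ, 0 < r ∧ ∀ ζ ∈ muInf p, (σ ^ r) ζ = ζ}) := inf_le_right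
      rw [IntermediateField.le_iff_le] at h3
      apply h3
      apply Subgroup.subset_closure
      refine ⟨?_, p - 1, hp1, h2⟩
      intro x hx
      obtain ⟨y, rfl⟩ := IntermediateField.mem_bot.1 hx
      exact τ.commutes y
    have h4 : τ⁻¹ * g ∈ M.fixingSubgroup := by
      rw [hU]
      intro ζ hζ
      rw [AlgEquiv.mul_apply, ← h1 ζ hζ]
      exact τ.symm_apply_apply ζ
    have h5 : g = τ * (τ⁻¹ * g) := by group
    rw [h5]
    exact (N1 p).mul_mem (hPN hτ) (hUN h4)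
  -- N1 ≤ H
  have hNH : N1 p ≤ H := by
    have hL : IntermediateField.fixedField H ≤ M ⊓ cycZp p ⊥ := by
      have hLM : IntermediateField.fixedField H ≤ M := by
        have h1 : IntermediateField.fixedField H ≤
            IntermediateField.fixedField M.fixingSubgroup :=
          IntermediateField.fixedField_antitone hUH
        rwa [InfiniteGalois.fixedField_fixingSubgroup] at h1
      refine le_inf hLM (le_inf ?_ ?_)
      · refine le_trans hLM (le_trans ?_ le_sup_right)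
        rw [hM]
        exact adjoin.mono ℚ _ _ fun x hx => ⟨2, hx⟩
      · rw [IntermediateField.le_iff_le]
        rw [Subgroup.closure_le]
        rintro τ ⟨-, r, hr0, hr⟩
        have h2 : IntermediateField.fixingSubgroup (IntermediateField.fixedField H) = H :=
          InfiniteGalois.fixingSubgroup_fixedField ⟨H, hHclosed⟩
        rw [h2, SetLike.mem_coe, hHmem]
        intro ζ hζ
        refine E12_odd hp hp2 (τ ^ (p - 1)) hr0 ?_ ?_ ζ ⟨2, hζ⟩
        · intro ζ' hζ'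
          rw [← pow_mul, mul_comm, pow_mul]
          have h3 : ∀ k : ℕ, ((τ ^ r) ^ k) ζ' = ζ' := by
            intro k
            induction k with
            | zero => simp
            | succ k ih => rw [pow_succ, AlgEquiv.mul_apply, hr ζ' hζ', ih]
          exact h3 _
        · intro ζ' hζ'
          have h3 := E12_tot hp τ (m := 1) (n := 0) (by norm_num) ζ' (by rw [pow_one]; exact hζ')
          rwa [pow_zero, one_mul] at h3
    have h1 := IntermediateField.fixingSubgroup_antitone hL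
    have h2 : IntermediateField.fixingSubgroup (IntermediateField.fixedField H) = H :=
      InfiniteGalois.fixingSubgroup_fixedField ⟨H, hHclosed⟩
    rw [h2] at h1
    unfold N1
    rw [← hM]
    exact h1
  have hN : N1 p = H := le_antisymm hNH hHN
  refine ⟨hN ▸ hHopen, hPN, hN ▸ hHidx, ?_⟩
  intro g hg
  exact hUN ((hU g).2 hg)

end OzakiFree
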