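import Pool.Agent.Lib.MP_6e8030_nt.Base

open IntermediateField
open scoped ComplexConjugate

noncomputable section

namespace OzakiFree

/-! ### N11: the field `L(K)` (new definitions) -/

theorem N11_fix (K : IntermediateField ℚ Om) (t : GQ) : t ∈ K.fixingSubgroup ↔ Fixes t K :=
  IntermediateField.mem_fixingSubgroup_iff K t

theorem N11_inv_apply (g : GQ) (x : Om) : g⁻¹ (g x) = x := g.symm_apply_apply x

theorem N11_apply_inv (g : GQ) (x : Om) : g (g⁻¹ x) = x := g.apply_symm_apply x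

/-- `L(K)` is stable under `Gal(Om/K)` -/
theorem maxUnram_stable (p : ℕ) (K : IntermediateField ℚ Om) :
    ∀ t ∈ K.fixingSubgroup, ∀ x ∈ maxUnram p K, t x ∈ maxUnram p K := by
  intro t ht x hx
  rw [N11_fix] at ht
  have hle : maxUnram p K ≤ (maxUnram p K).comap (t : Om →ₐ[ℚ] Om) := by
    refine sup_le ?_ (sSup_le fun E hE => ?_)
    · intro y hy
      show t y ∈ maxUnram p K
      rw [ht y hy]
      exact (le_sup_left : K ≤ maxUnram p K) hy
    · intro y hy
      show t y ∈ maxUnram p K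
      exact ((le_sSup hE).trans (le_sup_right : _ ≤ maxUnram p K)) (hE.2.1 t ht y hy)
  exact hle hx

theorem N11_le {p : ℕ} {K E : IntermediateField ℚ Om} (hE : UnramPExt p K E) :
    E ≤ maxUnram p K :=
  (le_sSup (show E ∈ {E | UnramPExt p K E} from hE)).trans (le_sup_right : _ ≤ maxUnram p K)

theorem N11_mem_RL (p : ℕ) (K : IntermediateField ℚ Om) (t : GQ) : t ∈ RL p K ↔
    Fixes t K ∧ ∀ E : IntermediateField ℚ Om, UnramPExt p K E → Fixes t E := by
  constructor
  · intro ht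
    have h := (IntermediateField.mem_fixingSubgroup_iff _ t).mp ht
    exact ⟨fun x hx => h x ((le_sup_left : K ≤ maxUnram p K) hx),
      fun E hE x hx => h x (N11_le hE hx)⟩
  · rintro ⟨ht, h⟩
    have hF : ∀ E : IntermediateField ℚ Om, Fixes t E → E ≤ fixedField (Subgroup.zpowers t) := by
      intro E hE y hy
      rw [IntermediateField.mem_fixedField_iff]
      intro f hf
      obtain ⟨k, rfl⟩ := Subgroup.mem_zpowers_iff.mp hf
      have h2 : t ∈ MulAction.stabilizer GQ y := hE y hy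
      exact zpow_mem h2 k
    have hle : maxUnram p K ≤ fixedField (Subgroup.zpowers t) :=
      sup_le (hF K ht) (sSup_le fun E hE => hF E (h E hE))
    refine (IntermediateField.mem_fixingSubgroup_iff _ t).mpr fun x hx => ?_
    have h3 := hle hx
    rw [IntermediateField.mem_fixedField_iff] at h3
    exact h3 _ (Subgroup.mem_zpowers _)

theorem RL_le (p : ℕ) (K : IntermediateField ℚ Om) : RL p K ≤ K.fixingSubgroup := by
  intro t ht
  rw [N11_fix]
  exact ((N11_mem_RL p K t).mp ht).1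

/-- `g ζ` for an algebraic integer `ζ` -/
def N11_ring (g : GQ) : ZBar ≃+* ZBar :=
  MulSemiringAction.toRingEquiv GQ (integralClosure ℤ Om) g

theorem N11_ring_val (g : GQ) (z : ZBar) : (N11_ring g z).val = g z.val := rfl

theorem N11_conj_fix (K : IntermediateField ℚ Om) (g : GQ) (hg : ∀ x ∈ K, g x ∈ K)
    (t : GQ) (ht : Fixes t K) : Fixes (g⁻¹ * t * g) K := by
  intro x hx
  show g⁻¹ (t (g x)) = x
  rw [ht _ (hg x hx), N11_inv_apply]

theorem N11_conj_ext (p : ℕ) (K : IntermediateField ℚ Om) (g : GQ) (hg : ∀ x ∈ K, g x ∈ K)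
    (hg' : ∀ x ∈ K, g⁻¹ x ∈ K) (E : IntermediateField ℚ Om) (hE : UnramPExt p K E) :
    UnramPExt p K (E.map (g : Om →ₐ[ℚ] Om)) := by
  obtain ⟨h1, h2, h3, h4, h5⟩ := hE
  have hKg : K.map (g : Om →ₐ[ℚ] Om) = K := by
    apply le_antisymm
    · rintro _ ⟨x, hx, rfl⟩
      exact hg x hx
    · intro x hx
      exact ⟨g⁻¹ x, hg' x hx, N11_apply_inv g x⟩
  refine ⟨?_, ?_, ?_, ?_, ?_⟩
  · intro x hx
    exact ⟨g⁻¹ x, h1 (hg' x hx), N11_apply_inv g x⟩
  · rintro t ht _ ⟨x, hx, rfl⟩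
    refine ⟨(g⁻¹ * t * g) x, h2 _ (N11_conj_fix K g hg t ht) x hx, ?_⟩
    show g (g⁻¹ (t (g x))) = t (g x)
    rw [N11_apply_inv]
  · obtain ⟨m, hm⟩ := h3
    refine ⟨m, ?_⟩
    have := IntermediateField.relfinrank_map_map K E (g : Om →ₐ[ℚ] Om)
    rw [hKg] at this
    rw [this, hm]
  · rintro B hB t ht hI _ ⟨x, hx, rfl⟩
    have hB1 : (B.comap (N11_ring g)).IsMaximal := Ideal.comap_isMaximal_of_equiv (N11_ring g)
    have hI1 : InInertia (B.comap (N11_ring g)) (g⁻¹ * t * g) := by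
      intro z
      obtain ⟨b, hb, hb'⟩ := hI (N11_ring g z)
      refine ⟨N11_ring g⁻¹ b, ?_, ?_⟩
      · show N11_ring g (N11_ring g⁻¹ b) ∈ B
        have : N11_ring g (N11_ring g⁻¹ b) = b := Subtype.ext (N11_apply_inv g b.val)
        rw [this]
        exact hb
      · rw [N11_ring_val, hb', map_sub]
        show g⁻¹ (t (g z.val)) - g⁻¹ (g z.val) = g⁻¹ (t (g z.val)) - z.val
        rw [N11_inv_apply]
    have h6 := h4 _ hB1 _ (N11_conj_fix K g hg t ht) hI1 x hx
    have h7 : g⁻¹ (t (g x)) = x := h6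
    have h8 := congrArg g h7
    rw [N11_apply_inv] at h8
    exact h8
  · rintro c hc ⟨φ, hφ⟩ _ ⟨x, hx, rfl⟩
    have h6 := h5 (g⁻¹ * c * g) (N11_conj_fix K g hg c hc)
      ⟨φ.comp (g : Om →+* Om), fun y => by
        show φ (g (g⁻¹ (c (g y)))) = conj (φ (g y))
        rw [N11_apply_inv]
        exact hφ _⟩ x hx
    have h7 : g⁻¹ (c (g x)) = x := h6
    have h8 := congrArg g h7
    rw [N11_apply_inv] at h8
    exact h8

theorem RL_conj (p : ℕ) (K : IntermediateField ℚ Om) (g : GQ) (hg : ∀ x ∈ K, g x ∈ K)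
    (hg' : ∀ x ∈ K, g⁻¹ x ∈ K) (r : GQ) (hr : r ∈ RL p K) : g * r * g⁻¹ ∈ RL p K := by
  rw [N11_mem_RL] at hr ⊢
  refine ⟨?_, fun E hE x hx => ?_⟩
  · have := N11_conj_fix K g⁻¹ hg' r hr.1
    rwa [inv_inv] at this
  · have h1 := N11_conj_ext p K g⁻¹ hg' (by rwa [inv_inv]) E hE
    have h2 := hr.2 _ h1 (g⁻¹ x) ⟨x, hx, rfl⟩
    show g (r (g⁻¹ x)) = x
    rw [h2, N11_apply_inv]

theorem inertia_mem_RL (p : ℕ) (K : IntermediateField ℚ Om) (B : Ideal (integralClosure ℤ Om))
    (hB : B.IsMaximal) (t : GQ) (ht : t ∈ B.inertia GQ) (htK : t ∈ K.fixingSubgroup) :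
    t ∈ RL p K := by
  rw [N11_fix] at htK
  rw [N11_mem_RL]
  refine ⟨htK, fun E hE => ?_⟩
  have h : ∀ B' : Ideal ZBar, B'.IsMaximal → ∀ t, Fixes t K → InInertia B' t → Fixes t E :=
    hE.2.2.2.1
  exact h B hB t htK fun z => ⟨N11_ring t z - z, ht z, rfl⟩

theorem conj_mem_RL (p : ℕ) (K : IntermediateField ℚ Om) (φ : Om →+* ℂ) (c : GQ)
    (hc : ∀ x, φ (c x) = conj (φ x)) (hcK : c ∈ K.fixingSubgroup) : c ∈ RL p K := by
  rw [N11_fix] at hcK
  rw [N11_mem_RL]
  exact ⟨hcK, fun E hE => hE.2.2.2.2 c hcK ⟨φ, hc⟩⟩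

theorem N11_kummer {p : ℕ} (hp : p.Prime) (K : IntermediateField ℚ Om)
    (hζ : ∀ ζ : Om, ζ ^ p = 1 → ζ ∈ K) (x : Om) (hx : x ^ p ∈ K) (hxK : x ∉ K) :
    Module.finrank K K⟮x⟯ = p := by
  set a : K := ⟨x ^ p, hx⟩ with ha
  have hirr : Irreducible (Polynomial.X ^ p - Polynomial.C a) := by
    refine X_pow_sub_C_irreducible_of_prime hp fun b hb => hxK ?_
    have hb' : (b : Om) ^ p = x ^ p := congrArg Subtype.val hb
    have hb0 : (b : Om) ≠ 0 := by
      intro h0
      rw [h0, zero_pow hp.ne_zero] at hb'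
      have : x = 0 := by
        exact pow_eq_zero_iff hp.ne_zero |>.mp hb'.symm
      exact hxK (this ▸ K.zero_mem)
    have h1 : (x / b) ^ p = 1 := by
      rw [div_pow, ← hb', div_self (pow_ne_zero _ hb0)]
    have h2 := K.mul_mem (hζ _ h1) b.2
    rwa [div_mul_cancel₀ _ hb0] at h2
  have hmon : (Polynomial.X ^ p - Polynomial.C a).Monic := Polynomial.monic_X_pow_sub_C a hp.ne_zero
  have hroot : Polynomial.aeval x (Polynomial.X ^ p - Polynomial.C a) = 0 := by
    simp [ha]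
  have hint : IsIntegral K x := ⟨_, hmon, hroot⟩
  have hmin : minpoly K x = Polynomial.X ^ p - Polynomial.C a :=
    (minpoly.eq_of_irreducible_of_monic hirr hroot hmon).symm
  rw [adjoin.finrank hint, hmin, Polynomial.natDegree_X_pow_sub_C]

theorem fix_of_mem_RL {p : ℕ} (hp : p.Prime) (K : IntermediateField ℚ Om)
    (hζ : ∀ ζ : Om, ζ ^ p = 1 → ζ ∈ K) (x : Om) (hx : x ^ p ∈ K)
    (h1 : ∀ B : Ideal (integralClosure ℤ Om), B.IsMaximal → ∀ t ∈ B.inertia GQ,
      t ∈ K.fixingSubgroup → t x = x)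
    (h2 : ∀ (φ : Om →+* ℂ) (c : GQ), (∀ y, φ (c y) = conj (φ y)) → c ∈ K.fixingSubgroup → c x = x) :
    ∀ t ∈ RL p K, t x = x := by
  intro t ht
  rw [N11_mem_RL] at ht
  by_cases hxK : x ∈ K
  · exact ht.1 x hxK
  have hfr := N11_kummer hp K hζ x hx hxK
  set E : IntermediateField ℚ Om := (K⟮x⟯).restrictScalars ℚ with hE
  have hKE : K ≤ E := fun y hy => (K⟮x⟯).algebraMap_mem ⟨y, hy⟩
  have hxE : x ∈ E := mem_adjoin_simple_self K x
  have hmin : ∀ F : IntermediateField ℚ Om, K ≤ F → x ∈ F → E ≤ F := by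
    intro F hF hxF
    have : K⟮x⟯ ≤ extendScalars hF := by
      rw [IntermediateField.adjoin_simple_le_iff]
      exact hxF
    exact fun y hy => this hy
  have hfix : ∀ s : GQ, Fixes s K → s x = x → Fixes s E := by
    intro s hs hsx y hy
    have hF : ∀ y : Om, s y = y → y ∈ fixedField (Subgroup.zpowers s) := by
      intro y hy
      rw [IntermediateField.mem_fixedField_iff]
      intro f hf
      obtain ⟨k, rfl⟩ := Subgroup.mem_zpowers_iff.mp hf
      have h2 : s ∈ MulAction.stabilizer GQ y := hy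
      exact zpow_mem h2 k
    have h3 := hmin (fixedField (Subgroup.zpowers s)) (fun y hy => hF y (hs y hy)) (hF x hsx) hy
    rw [IntermediateField.mem_fixedField_iff] at h3
    exact h3 _ (Subgroup.mem_zpowers _)
  have hext : UnramPExt p K E := by
    refine ⟨hKE, ?_, ⟨1, ?_⟩, ?_, ?_⟩
    · intro s hs y hy
      have : E ≤ E.comap (s : Om →ₐ[ℚ] Om) := by
        refine hmin _ (fun z hz => ?_) ?_
        · show s z ∈ E
          rw [hs z hz]
          exact hKE hz
        · show s x ∈ E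
          by_cases hx0 : x = 0
          · rw [hx0, map_zero]
            exact E.zero_mem
          have h3 : (s x / x) ^ p = 1 := by
            rw [div_pow, ← map_pow, hs _ hx, div_self (pow_ne_zero _ hx0)]
          have h4 := E.mul_mem (hKE (hζ _ h3)) hxE
          rwa [div_mul_cancel₀ _ hx0] at h4
      exact this hy
    · rw [IntermediateField.relfinrank_eq_finrank_of_le hKE, pow_one]
      exact hfr
    · intro B hB s hs hI
      refine hfix s hs (h1 B hB s ?_ ((N11_fix K s).mpr hs))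
      intro z
      obtain ⟨b, hb, hb'⟩ := hI z
      have : s • z - z = (b : integralClosure ℤ Om) := Subtype.ext hb'.symm
      rw [this]
      exact hb
    · rintro c hc ⟨φ, hφ⟩
      exact hfix c hc (h2 φ c hφ ((N11_fix K c).mpr hc))
  exact ht.2 E hext x hxE

end OzakiFree
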