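import Pool.Agent.Lib.MP_6e8030_nt.EBase
import Pool.Agent.Lib.MP_6e8030_nt.N11

open IntermediateField
open scoped ComplexConjugate

noncomputable section

namespace OzakiFree

/-! ### E2: unramified characters vanish on `RL` -/

/-- an automorphism over `K` as an element of `GQ` -/
private def E2_res (K : IntermediateField ℚ Om) : (Om ≃ₐ[K] Om) →* GQ :=
  AlgEquiv.restrictScalarsHom ℚ

private theorem E2_res_apply (K : IntermediateField ℚ Om) (t : Om ≃ₐ[K] Om) (x : Om) :
    E2_res K t x = t x := rfl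

private theorem E2_res_mem (K : IntermediateField ℚ Om) (t : Om ≃ₐ[K] Om) :
    E2_res K t ∈ K.fixingSubgroup := by
  rw [N11_fix]
  intro x hx
  exact t.commutes ⟨x, hx⟩

private theorem E2_res_surj (K : IntermediateField ℚ Om) (t : GQ) (ht : t ∈ K.fixingSubgroup) :
    ∃ t' : Om ≃ₐ[K] Om, E2_res K t' = t := by
  rw [N11_fix] at ht
  refine ⟨AlgEquiv.ofRingEquiv (f := (t : Om ≃+* Om)) fun x => ht x.1 x.2, ?_⟩
  ext x
  rfl

/-- a neighbourhood of `1` in `GQ` contains the image of one in `Gal(Om/K)` -/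
private theorem E2_nhds (K : IntermediateField ℚ Om) (V : Subgroup GQ) (hV : IsOpen (V : Set GQ)) :
    ∃ F1 : IntermediateField K Om, FiniteDimensional K F1 ∧
      ∀ t ∈ F1.fixingSubgroup, E2_res K t ∈ V := by
  obtain ⟨F0, hF0, hsub⟩ := (krullTopology_mem_nhds_one_iff ℚ Om (V : Set GQ)).1
    (hV.mem_nhds V.one_mem)
  have hess : Algebra.EssFiniteType ℚ F0 := inferInstance
  obtain ⟨S, hS⟩ := IntermediateField.essFiniteType_iff.1 hess
  refine ⟨adjoin K (S : Set Om), ?_, ?_⟩
  · exact finiteDimensional_adjoin fun x _ =>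
      ((Algebra.IsAlgebraic.isAlgebraic (R := ℚ) x).isIntegral).tower_top
  · intro t ht
    refine hsub ?_
    have h1 : F0 ≤ (adjoin K (S : Set Om)).restrictScalars ℚ := by
      rw [← hS, adjoin_le_iff]
      exact subset_adjoin K (S : Set Om)
    refine (N11_fix F0 _).2 fun x hx => ?_
    exact (IntermediateField.mem_fixingSubgroup_iff _ t).1 ht x (h1 hx)

theorem char_RL {p : ℕ} (hp : p.Prime) (K : IntermediateField ℚ Om) (χ : GQ → ZMod p)
    (h1 : HomOn K.fixingSubgroup χ) (h2 : LCOn K.fixingSubgroup χ)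
    (h3 : ∀ B : Ideal ZO, B.IsMaximal → ∀ t ∈ B.inertia GQ, t ∈ K.fixingSubgroup → χ t = 0)
    (h4 : ∀ (φ : Om →+* ℂ) (c : GQ), (∀ y, φ (c y) = conj (φ y)) → c ∈ K.fixingSubgroup →
      χ c = 0) : ∀ r ∈ RL p K, χ r = 0 := by
  have hone : χ 1 = 0 := by
    have := h1 1 (one_mem _) 1 (one_mem _)
    rw [mul_one] at this
    exact left_eq_add.1 this
  have hχ : ∀ a b : Om ≃ₐ[K] Om, χ (E2_res K (a * b)) = χ (E2_res K a) + χ (E2_res K b) := by
    intro a b
    rw [map_mul]
    exact h1 _ (E2_res_mem K a) _ (E2_res_mem K b)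
  let f : (Om ≃ₐ[K] Om) →* Multiplicative (ZMod p) :=
    { toFun := fun t => Multiplicative.ofAdd (χ (E2_res K t))
      map_one' := by rw [map_one, hone]; rfl
      map_mul' := fun a b => by rw [hχ, ofAdd_add] }
  have hf : ∀ t, f t = 1 ↔ χ (E2_res K t) = 0 := fun t => Iff.rfl
  have hopen : IsOpen (f.ker : Set (Om ≃ₐ[K] Om)) := by
    obtain ⟨V, hV, hV2⟩ := h2
    obtain ⟨F1, hF1, hF1V⟩ := E2_nhds K V hV
    refine Subgroup.isOpen_mono (H₁ := F1.fixingSubgroup) ?_ (IntermediateField.fixingSubgroup_isOpen F1)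
    intro t ht
    have h5 := hV2 1 (one_mem _) _ (hF1V t ht) (E2_res_mem K t)
    rw [one_mul, hone] at h5
    exact (hf t).2 h5
  have hclosed : IsClosed (f.ker : Set (Om ≃ₐ[K] Om)) := Subgroup.isClosed_of_isOpen _ hopen
  have : IsGalois K Om := inferInstance
  set E0 : IntermediateField K Om := fixedField f.ker with hE0
  have hfix : E0.fixingSubgroup = f.ker :=
    InfiniteGalois.fixingSubgroup_fixedField (⟨f.ker, hclosed⟩ : ClosedSubgroup (Om ≃ₐ[K] Om))
  have hfd : FiniteDimensional K E0 := by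
    rw [← InfiniteGalois.isOpen_iff_finite, hfix]
    exact hopen
  have hcard : ∃ m : ℕ, Module.finrank K E0 = p ^ m := by
    have : (⟨f.ker, hclosed⟩ : ClosedSubgroup (Om ≃ₐ[K] Om)).Normal := f.normal_ker
    have hgal : IsGalois K E0 := by
      rw [← InfiniteGalois.normal_iff_isGalois, hfix]
      exact f.normal_ker
    have h5 := InfiniteGalois.normalAutEquivQuotient (⟨f.ker, hclosed⟩ : ClosedSubgroup (Om ≃ₐ[K] Om))
    have h6 : Nat.card (E0 ≃ₐ[K] E0) = Module.finrank K E0 := IsGalois.card_aut_eq_finrank K E0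
    have h7 : Nat.card ((Om ≃ₐ[K] Om) ⧸ f.ker) = Nat.card (E0 ≃ₐ[K] E0) := Nat.card_congr h5.toEquiv
    have h8 : Nat.card ((Om ≃ₐ[K] Om) ⧸ f.ker) = Nat.card f.range :=
      Nat.card_congr (QuotientGroup.quotientKerEquivRange f).toEquiv
    have h9 : Nat.card f.range ∣ p := by
      have := Subgroup.card_subgroup_dvd_card f.range
      rwa [Nat.card_congr (Multiplicative.toAdd (α := ZMod p)), Nat.card_zmod] at this
    rw [← h6, ← h7, h8]
    rcases (Nat.dvd_prime hp).1 h9 with h | h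
    · exact ⟨0, by rw [h, pow_zero]⟩
    · exact ⟨1, by rw [h, pow_one]⟩
  have hKE : K ≤ E0.restrictScalars ℚ := fun y hy => E0.algebraMap_mem ⟨y, hy⟩
  have hker : ∀ t : GQ, Fixes t K → χ t = 0 → Fixes t (E0.restrictScalars ℚ) := by
    intro t ht h0 x hx
    obtain ⟨t', rfl⟩ := E2_res_surj K t ((N11_fix K t).2 ht)
    exact (IntermediateField.mem_fixedField_iff _ x).1 hx t' ((hf t').2 h0)
  have hext : UnramPExt p K (E0.restrictScalars ℚ) := by
    refine ⟨hKE, ?_, ?_, ?_, ?_⟩
    · intro t ht x hx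
      obtain ⟨t', rfl⟩ := E2_res_surj K t ((N11_fix K t).2 ht)
      refine (IntermediateField.mem_fixedField_iff _ (t' x)).2 fun s hs => ?_
      have h5 : t'⁻¹ * s * t' ∈ f.ker := by
        have := f.normal_ker.conj_mem s hs t'⁻¹
        rwa [inv_inv] at this
      have h6 := (IntermediateField.mem_fixedField_iff _ x).1 hx _ h5
      have h7 := congrArg t' h6
      have h8 : t' ((t'⁻¹ * s * t') x) = s (t' x) := by
        show t' (t'⁻¹ (s (t' x))) = s (t' x)
        exact t'.apply_symm_apply _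
      rwa [h8] at h7
    · obtain ⟨m, hm⟩ := hcard
      refine ⟨m, ?_⟩
      rw [IntermediateField.relfinrank_eq_finrank_of_le hKE]
      exact hm
    · intro B hB t ht hI
      refine hker t ht (h3 B hB t ?_ ((N11_fix K t).2 ht))
      intro z
      obtain ⟨b, hb, hb'⟩ := hI z
      have : t • z - z = (b : integralClosure ℤ Om) := Subtype.ext hb'.symm
      rw [this]
      exact hb
    · rintro c hc ⟨φ, hφ⟩
      exact hker c hc (h4 φ c hφ ((N11_fix K c).2 hc))
  intro r hr
  rw [N11_mem_RL] at hr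
  have h5 := hr.2 _ hext
  obtain ⟨r', rfl⟩ := E2_res_surj K r ((N11_fix K r).2 hr.1)
  have h6 : r' ∈ E0.fixingSubgroup := (IntermediateField.mem_fixingSubgroup_iff _ r').2 fun x hx => h5 x hx
  rw [hfix] at h6
  exact (hf r').1 h6

end OzakiFree
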