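import Pool.Agent.Lib.MP_6e8030_nt.GBase

open IntermediateField
open scoped ComplexConjugate

noncomputable section

namespace OzakiFree

/-! ### GH: transfer (pure group theory) -/

/-- a section of `Γ → Γ ⧸ G` which is compatible with the orbits of `P` -/
theorem GH_section {Γ : Type*} [Group Γ] (P G : Subgroup Γ) :
    ∃ s : Γ ⧸ G → Γ, (∀ x, (s x : Γ ⧸ G) = x) ∧
      ∀ h ∈ P, ∀ x, ∃ h' ∈ P, s (h • x) = h' * s x := by
  classical
  let r : Γ ⧸ G → Γ ⧸ G := fun x => Quotient.out (Quotient.mk (MulAction.orbitRel P (Γ ⧸ G)) x)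
  have hr : ∀ x, ∃ h : P, h • r x = x := by
    intro x
    have h := Quotient.exact (Quotient.out_eq (Quotient.mk (MulAction.orbitRel P (Γ ⧸ G)) x))
    have h2 : r x ∈ MulAction.orbit P x := MulAction.orbitRel_apply.1 h
    obtain ⟨g, hg⟩ := h2
    refine ⟨g⁻¹, ?_⟩
    rw [← hg]
    exact inv_smul_smul g x
  have hrr : ∀ (h : P) x, r (h • x) = r x := by
    intro h x
    have h1 : Quotient.mk (MulAction.orbitRel P (Γ ⧸ G)) (h • x) =
        Quotient.mk (MulAction.orbitRel P (Γ ⧸ G)) x :=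
      Quotient.sound (MulAction.orbitRel_apply.2 ⟨h, rfl⟩)
    show Quotient.out _ = Quotient.out _
    rw [h1]
  choose k hk using hr
  refine ⟨fun x => (k x : Γ) * Quotient.out (r x), fun x => ?_, fun h hh x => ?_⟩
  · have h1 : (((k x : Γ) * Quotient.out (r x) : Γ) : Γ ⧸ G) =
        (k x : Γ) • ((Quotient.out (r x) : Γ) : Γ ⧸ G) := rfl
    show (((k x : Γ) * Quotient.out (r x) : Γ) : Γ ⧸ G) = x
    rw [h1, QuotientGroup.out_eq']
    exact hk x
  · refine ⟨(k (h • x) : Γ) * (k x : Γ)⁻¹, P.mul_mem (k (h • x)).2 (P.inv_mem (k x).2), ?_⟩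
    show (k (h • x) : Γ) * Quotient.out (r (h • x)) =
      (k (h • x) : Γ) * (k x : Γ)⁻¹ * ((k x : Γ) * Quotient.out (r x))
    have h2 : r (h • x) = r x := hrr ⟨h, hh⟩ x
    rw [h2]
    group

theorem GH_one {Γ : Type*} [Group Γ] {p : ℕ} {H : Subgroup Γ} {ψ : Γ → ZMod p}
    (h1 : HomOn H ψ) : ψ 1 = 0 := by
  have h := h1 1 H.one_mem 1 H.one_mem
  rw [mul_one] at h
  simpa using h

theorem GH_inv {Γ : Type*} [Group Γ] {p : ℕ} {H : Subgroup Γ} {ψ : Γ → ZMod p}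
    (h1 : HomOn H ψ) {g : Γ} (hg : g ∈ H) : ψ g⁻¹ = - ψ g := by
  have h := h1 g hg g⁻¹ (H.inv_mem hg)
  rw [mul_inv_cancel, GH_one h1] at h
  exact (neg_eq_of_add_eq_zero_right h.symm).symm

theorem exists_transfer {Γ : Type*} [Group Γ] [TopologicalSpace Γ] [IsTopologicalGroup Γ] {p : ℕ}
    (P G : Subgroup Γ) (hP : P.Normal) (hG : IsOpen (G : Set Γ)) (hfin : G.FiniteIndex)
    (ω : Γ → ZMod p) (hω : ∀ h ∈ P, ∀ g, ω (h * g) = ω g)
    (ψ : Γ → ZMod p) (h1 : HomOn (P ⊓ G) ψ) (h2 : LCOn (P ⊓ G) ψ) :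
    ∃ (s : Γ ⧸ G → Γ) (θ : Γ → ZMod p), (∀ x, (s x : Γ ⧸ G) = x) ∧ HomOn P θ ∧ LCOn P θ ∧
      (∀ t ∈ P, (∀ (g : Γ) (n : ℕ), 0 < n → g⁻¹ * t ^ n * g ∈ G → ψ (g⁻¹ * t ^ n * g) = 0) →
        θ t = 0) ∧
      (∀ t ∈ P, (∀ g : Γ, g⁻¹ * t * g ∈ G) →
        θ t = ∑ᶠ x : Γ ⧸ G, ω (s x) * ψ ((s x)⁻¹ * t * s x)) := by
  classical
  obtain ⟨s, hs, hsP⟩ := GH_section P G
  have : Finite (Γ ⧸ G) := inferInstance
  have : Fintype (Γ ⧸ G) := Fintype.ofFinite _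
  -- compatibility of `ω` with `P`
  have hωs : ∀ h ∈ P, ∀ x, ω (s (h • x)) = ω (s x) := by
    intro h hh x
    obtain ⟨h', hh', he⟩ := hsP h hh x
    rw [he, hω h' hh']
  -- membership
  have hmemG : ∀ (t : Γ) x y, t • x = y → (s y)⁻¹ * t * s x ∈ G := by
    intro t x y hxy
    have h3 : ((s y : Γ) : Γ ⧸ G) = ((t * s x : Γ) : Γ ⧸ G) := by
      have h4 : ((t * s x : Γ) : Γ ⧸ G) = t • ((s x : Γ) : Γ ⧸ G) := rfl
      rw [h4, hs, hs, hxy]
    have h5 := QuotientGroup.eq.1 h3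
    rwa [mul_assoc]
  have hmemP : ∀ t ∈ P, ∀ x y, (∃ h ∈ P, h • x = y) → (s y)⁻¹ * t * s x ∈ P := by
    rintro t ht x y ⟨h, hh, rfl⟩
    obtain ⟨h', hh', he⟩ := hsP h hh x
    rw [he]
    have h3 : (h' * s x)⁻¹ * t * s x = (s x)⁻¹ * (h'⁻¹ * t) * (s x)⁻¹⁻¹ := by group
    rw [h3]
    exact hP.conj_mem _ (P.mul_mem (P.inv_mem hh') ht) _
  have hmem : ∀ t ∈ P, ∀ x, (s (t • x))⁻¹ * t * s x ∈ P ⊓ G := fun t ht x =>
    ⟨hmemP t ht x _ ⟨t, ht, rfl⟩, hmemG t x _ rfl⟩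
  let θ : Γ → ZMod p := fun t => ∑ x : Γ ⧸ G, ω (s x) * ψ ((s (t • x))⁻¹ * t * s x)
  refine ⟨s, θ, hs, ?_, ?_, ?_, ?_⟩
  · -- homomorphism
    intro t ht t' ht'
    have h3 : ∀ x, ψ ((s ((t * t') • x))⁻¹ * (t * t') * s x) =
        ψ ((s (t • (t' • x)))⁻¹ * t * s (t' • x)) + ψ ((s (t' • x))⁻¹ * t' * s x) := by
      intro x
      rw [← h1 _ (hmem t ht (t' • x)) _ (hmem t' ht' x), mul_smul]
      congr 1
      group
    have h4 : ∑ x : Γ ⧸ G, ω (s x) * ψ ((s (t • (t' • x)))⁻¹ * t * s (t' • x)) = θ t := by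
      have h5 : ∀ x, ω (s x) * ψ ((s (t • (t' • x)))⁻¹ * t * s (t' • x)) =
          (fun y => ω (s y) * ψ ((s (t • y))⁻¹ * t * s y)) (MulAction.toPerm (β := Γ ⧸ G) t' x) := by
        intro x
        show _ = ω (s (t' • x)) * ψ ((s (t • (t' • x)))⁻¹ * t * s (t' • x))
        rw [hωs t' ht' x]
      rw [Finset.sum_congr rfl fun x _ => h5 x]
      exact Equiv.sum_comp (MulAction.toPerm (β := Γ ⧸ G) t')
        (fun y => ω (s y) * ψ ((s (t • y))⁻¹ * t * s y))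
    show ∑ x : Γ ⧸ G, ω (s x) * ψ ((s ((t * t') • x))⁻¹ * (t * t') * s x) = θ t + θ t'
    rw [← h4]
    show _ = _ + ∑ x : Γ ⧸ G, ω (s x) * ψ ((s (t' • x))⁻¹ * t' * s x)
    rw [← Finset.sum_add_distrib]
    refine Finset.sum_congr rfl fun x _ => ?_
    rw [h3, mul_add]
  · -- locally constant
    obtain ⟨U0, hU0, hU⟩ := h2
    refine ⟨⨅ x : Γ ⧸ G, (U0 ⊓ G).comap (MulAut.conj (s x)⁻¹).toMonoidHom, ?_, ?_⟩
    · rw [Subgroup.coe_iInf]
      refine isOpen_iInter_of_finite fun x => ?_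
      have h3 : ((((U0 ⊓ G).comap (MulAut.conj (s x)⁻¹).toMonoidHom : Subgroup Γ)) : Set Γ) =
          (fun g => (s x)⁻¹ * g * s x) ⁻¹' ((U0 : Set Γ) ∩ (G : Set Γ)) := by
        ext g
        simp
      rw [h3]
      exact (hU0.inter hG).preimage (by fun_prop)
    · intro g hg u hu huP
      have hu' : ∀ x, (s x)⁻¹ * u * s x ∈ U0 ∧ (s x)⁻¹ * u * s x ∈ G := by
        intro x
        have h3 := (Subgroup.mem_iInf.1 hu) x
        simpa [MulAut.conj_apply] using h3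
      have hux : ∀ x : Γ ⧸ G, u • x = x := by
        intro x
        have h3 : ((s x : Γ) : Γ ⧸ G) = ((u * s x : Γ) : Γ ⧸ G) := by
          rw [QuotientGroup.eq, ← mul_assoc]
          exact (hu' x).2
        have h4 : ((u * s x : Γ) : Γ ⧸ G) = u • ((s x : Γ) : Γ ⧸ G) := rfl
        rw [h4, hs] at h3
        exact h3.symm
      show ∑ x : Γ ⧸ G, ω (s x) * ψ ((s ((g * u) • x))⁻¹ * (g * u) * s x) =
        ∑ x : Γ ⧸ G, ω (s x) * ψ ((s (g • x))⁻¹ * g * s x)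
      refine Finset.sum_congr rfl fun x _ => ?_
      have h3 : (s ((g * u) • x))⁻¹ * (g * u) * s x =
          ((s (g • x))⁻¹ * g * s x) * ((s x)⁻¹ * u * s x) := by
        rw [mul_smul, hux]
        group
      rw [h3, hU _ (hmem g hg x) _ (hu' x).1 ⟨?_, (hu' x).2⟩]
      have h4 := hP.conj_mem u huP (s x)⁻¹
      rwa [inv_inv] at h4
  · -- vanishing
    intro t ht hv
    -- a potential
    let r : Γ ⧸ G → Γ ⧸ G := fun x =>
      Quotient.out (Quotient.mk (MulAction.orbitRel (Subgroup.zpowers t) (Γ ⧸ G)) x)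
    have hr : ∀ x, ∃ i : ℤ, (t ^ i) • r x = x := by
      intro x
      have h := Quotient.exact
        (Quotient.out_eq (Quotient.mk (MulAction.orbitRel (Subgroup.zpowers t) (Γ ⧸ G)) x))
      have h2 : r x ∈ MulAction.orbit (Subgroup.zpowers t) x := MulAction.orbitRel_apply.1 h
      obtain ⟨⟨g, hg⟩, hgx⟩ := h2
      obtain ⟨i, rfl⟩ := Subgroup.mem_zpowers_iff.1 hg
      refine ⟨-i, ?_⟩
      have h3 : (t ^ i) • x = r x := hgx
      rw [← h3, zpow_neg, inv_smul_smul]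
    have hrr : ∀ x, r (t • x) = r x := by
      intro x
      have h3 : Quotient.mk (MulAction.orbitRel (Subgroup.zpowers t) (Γ ⧸ G)) (t • x) =
          Quotient.mk (MulAction.orbitRel (Subgroup.zpowers t) (Γ ⧸ G)) x :=
        Quotient.sound (MulAction.orbitRel_apply.2 ⟨⟨t, Subgroup.mem_zpowers t⟩, rfl⟩)
      show Quotient.out _ = Quotient.out _
      rw [h3]
    choose i hi using hr
    have htz : ∀ m : ℤ, t ^ m ∈ P := fun m => P.zpow_mem ht m
    have hin : ∀ x, (s x)⁻¹ * t ^ (i x) * s (r x) ∈ P ⊓ G := fun x =>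
      ⟨hmemP _ (htz _) _ _ ⟨t ^ (i x), htz _, hi x⟩, hmemG _ _ _ (hi x)⟩
    have hz : ∀ (m : ℤ) (y : Γ ⧸ G), (t ^ m) • y = y → ψ ((s y)⁻¹ * t ^ m * s y) = 0 := by
      intro m y hm
      rcases lt_trichotomy m 0 with h0 | h0 | h0
      · obtain ⟨n, rfl⟩ : ∃ n : ℕ, m = -(n : ℤ) := ⟨m.natAbs, by omega⟩
        have hn : 0 < n := by omega
        have h3 : (s y)⁻¹ * t ^ (-(n : ℤ)) * s y = ((s y)⁻¹ * t ^ n * s y)⁻¹ := by
          rw [zpow_neg, zpow_natCast]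
          group
        have h4 : (s y)⁻¹ * t ^ (-(n : ℤ)) * s y ∈ G := hmemG _ _ _ hm
        have h5 : (s y)⁻¹ * t ^ n * s y ∈ G := by
          rw [h3] at h4
          exact (Subgroup.inv_mem_iff G).1 h4
        have h6 : (s y)⁻¹ * t ^ n * s y ∈ P := by
          have h7 := hP.conj_mem (t ^ n) (P.pow_mem ht n) (s y)⁻¹
          rwa [inv_inv] at h7
        rw [h3, GH_inv h1 ⟨h6, h5⟩, hv _ _ hn h5, neg_zero]
      · subst h0
        rw [zpow_zero, mul_one, inv_mul_cancel]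
        exact GH_one h1
      · obtain ⟨n, rfl⟩ : ∃ n : ℕ, m = (n : ℤ) := ⟨m.natAbs, by omega⟩
        have hn : 0 < n := by omega
        have h4 : (s y)⁻¹ * t ^ (n : ℤ) * s y ∈ G := hmemG _ _ _ hm
        rw [zpow_natCast] at h4 ⊢
        exact hv _ _ hn h4
    let b : Γ ⧸ G → ZMod p := fun x => ψ ((s x)⁻¹ * t ^ (i x) * s (r x))
    have hb : ∀ x, ψ ((s (t • x))⁻¹ * t * s x) = b (t • x) - b x := by
      intro x
      have h3 : (t ^ (i (t • x) - i x - 1)) • r x = r x := by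
        have h4 := hi (t • x)
        rw [hrr] at h4
        have h5 : (t ^ (i (t • x) - i x - 1)) • r x =
            (t ^ (i x))⁻¹ • (t⁻¹ • ((t ^ (i (t • x))) • r x)) := by
          rw [← mul_smul, ← mul_smul]
          congr 1
          group
        rw [h5, h4, inv_smul_smul, inv_smul_eq_iff]
        exact (hi x).symm
      have h6 : (s (r x))⁻¹ * t ^ (i (t • x) - i x - 1) * s (r x) ∈ P ⊓ G :=
        ⟨hmemP _ (htz _) _ _ ⟨1, P.one_mem, one_smul _ _⟩, hmemG _ _ _ h3⟩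
      have h7 : (s (t • x))⁻¹ * t ^ (i (t • x)) * s (r (t • x)) =
          ((s (t • x))⁻¹ * t * s x) * (((s x)⁻¹ * t ^ (i x) * s (r x)) *
            ((s (r x))⁻¹ * t ^ (i (t • x) - i x - 1) * s (r x))) := by
        rw [hrr]
        have h8 : t ^ (i (t • x)) = t * (t ^ (i x) * t ^ (i (t • x) - i x - 1)) := by
          rw [← zpow_add, ← zpow_one_add]
          congr 1
          ring
        rw [h8]
        group
      show _ = ψ ((s (t • x))⁻¹ * t ^ (i (t • x)) * s (r (t • x))) - _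
      rw [h7, h1 _ (hmem t ht x) _ ((P ⊓ G).mul_mem (hin x) h6), h1 _ (hin x) _ h6, hz _ _ h3]
      show _ = _ + (b x + 0) - b x
      ring
    show ∑ x : Γ ⧸ G, ω (s x) * ψ ((s (t • x))⁻¹ * t * s x) = 0
    have h9 : ∑ x : Γ ⧸ G, ω (s (t • x)) * b (t • x) = ∑ x : Γ ⧸ G, ω (s x) * b x :=
      Equiv.sum_comp (MulAction.toPerm (β := Γ ⧸ G) t) (fun y => ω (s y) * b y)
    calc ∑ x : Γ ⧸ G, ω (s x) * ψ ((s (t • x))⁻¹ * t * s x)
        = ∑ x : Γ ⧸ G, (ω (s (t • x)) * b (t • x) - ω (s x) * b x) := by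
          refine Finset.sum_congr rfl fun x _ => ?_
          rw [hb, hωs t ht x]
          ring
      _ = 0 := by rw [Finset.sum_sub_distrib, h9, sub_self]
  · -- the elements of the core
    intro t ht hg
    have htx : ∀ x : Γ ⧸ G, t • x = x := by
      intro x
      have h3 : ((s x : Γ) : Γ ⧸ G) = ((t * s x : Γ) : Γ ⧸ G) := by
        rw [QuotientGroup.eq, ← mul_assoc]
        exact hg (s x)
      have h4 : ((t * s x : Γ) : Γ ⧸ G) = t • ((s x : Γ) : Γ ⧸ G) := rfl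
      rw [h4, hs] at h3
      exact h3.symm
    rw [finsum_eq_sum_of_fintype]
    show ∑ x : Γ ⧸ G, ω (s x) * ψ ((s (t • x))⁻¹ * t * s x) = _
    refine Finset.sum_congr rfl fun x _ => ?_
    rw [htx]

end OzakiFree
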