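import Pool.Agent.Lib.MP_6e8030_nt.EBase
import Pool.Agent.Lib.MP_6e8030_nt.GH

open IntermediateField
open scoped ComplexConjugate

noncomputable section

namespace OzakiFree

/-! ### E3a: transfer from `M ⊓ G` to `M` -/

theorem transfer_sub {Γ : Type*} [Group Γ] [TopologicalSpace Γ] [IsTopologicalGroup Γ] {p : ℕ}
    (M G : Subgroup Γ) (hG : IsOpen (G : Set Γ)) (hfin : G.FiniteIndex)
    (ψ : Γ → ZMod p) (h1 : HomOn (M ⊓ G) ψ) (h2 : LCOn (M ⊓ G) ψ) :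
    ∃ (T : Finset Γ) (θ : Γ → ZMod p), (∀ s ∈ T, s ∈ M) ∧
      (∀ g ∈ M, ∃! s, s ∈ T ∧ s⁻¹ * g ∈ G) ∧ HomOn M θ ∧ LCOn M θ ∧
      (∀ t ∈ M, (∀ g ∈ M, ∀ n : ℕ, 0 < n → g⁻¹ * t ^ n * g ∈ G → ψ (g⁻¹ * t ^ n * g) = 0) →
        θ t = 0) ∧
      (∀ t ∈ M, (∀ g ∈ M, g⁻¹ * t * g ∈ G) → θ t = ∑ s ∈ T, ψ (s⁻¹ * t * s)) := by
  classical
  let G' : Subgroup M := G.subgroupOf M
  have hG' : IsOpen (G' : Set M) := hG.preimage continuous_subtype_val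
  have hfin' : G'.FiniteIndex := inferInstance
  let ψ' : M → ZMod p := fun g => ψ g
  have h1' : HomOn ((⊤ : Subgroup M) ⊓ G') ψ' := fun g hg h hh =>
    h1 g ⟨g.2, hg.2⟩ h ⟨h.2, hh.2⟩
  have h2' : LCOn ((⊤ : Subgroup M) ⊓ G') ψ' := by
    obtain ⟨U, hU, hUψ⟩ := h2
    exact ⟨U.subgroupOf M, hU.preimage continuous_subtype_val, fun g hg u hu hu2 =>
      hUψ g ⟨g.2, hg.2⟩ u hu ⟨u.2, hu2.2⟩⟩
  obtain ⟨s, θ', hs, t1, -, t3, t4⟩ := exists_transfer (⊤ : Subgroup M) G' inferInstance hG' hfin'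
    (fun _ => 1) (fun _ _ _ => rfl) ψ' h1' h2'
  have : Finite (M ⧸ G') := inferInstance
  have : Fintype (M ⧸ G') := Fintype.ofFinite _
  let θ : Γ → ZMod p := fun g => if h : g ∈ M then θ' ⟨g, h⟩ else 0
  have hθ : ∀ g (h : g ∈ M), θ g = θ' ⟨g, h⟩ := fun g h => dif_pos h
  have hinj : Function.Injective (fun x : M ⧸ G' => ((s x : M) : Γ)) := by
    intro x y hxy
    have : s x = s y := Subtype.ext hxy
    rw [← hs x, ← hs y, this]
  let T : Finset Γ := Finset.univ.image (fun x : M ⧸ G' => ((s x : M) : Γ))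
  have hT : ∀ f : Γ → ZMod p, ∑ a ∈ T, f a = ∑ x : M ⧸ G', f (s x) := by
    intro f
    exact Finset.sum_image (fun x _ y _ hxy => hinj hxy)
  have hom : HomOn M θ := by
    intro g hg h hh
    rw [hθ _ (M.mul_mem hg hh), hθ g hg, hθ h hh, ← t1 ⟨g, hg⟩ trivial ⟨h, hh⟩ trivial]
    rfl
  have core : ∀ t ∈ M, (∀ g ∈ M, g⁻¹ * t * g ∈ G) → θ t = ∑ a ∈ T, ψ (a⁻¹ * t * a) := by
    intro t ht hg
    rw [hθ t ht, t4 ⟨t, ht⟩ trivial (fun g => hg g g.2), finsum_eq_sum_of_fintype, hT]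
    refine Finset.sum_congr rfl fun x _ => ?_
    rw [one_mul]
    rfl
  refine ⟨T, θ, ?_, ?_, hom, ?_, ?_, core⟩
  · intro a ha
    obtain ⟨x, -, rfl⟩ := Finset.mem_image.1 ha
    exact (s x).2
  · intro g hg
    refine ⟨s ((⟨g, hg⟩ : M) : M ⧸ G'), ⟨Finset.mem_image.2 ⟨_, Finset.mem_univ _, rfl⟩, ?_⟩, ?_⟩
    · have h3 := QuotientGroup.eq.1 (hs ((⟨g, hg⟩ : M) : M ⧸ G'))
      exact h3
    · rintro a ⟨ha, hag⟩
      obtain ⟨x, -, rfl⟩ := Finset.mem_image.1 ha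
      have h3 : (s x : M ⧸ G') = ((⟨g, hg⟩ : M) : M ⧸ G') := QuotientGroup.eq.2 hag
      rw [hs] at h3
      rw [h3]
  · obtain ⟨U0, hU0, hU⟩ := h2
    refine ⟨⨅ x : M ⧸ G', (U0 ⊓ G).comap (MulAut.conj ((s x : M) : Γ)⁻¹).toMonoidHom, ?_, ?_⟩
    · rw [Subgroup.coe_iInf]
      refine isOpen_iInter_of_finite fun x => ?_
      have h3 : ((((U0 ⊓ G).comap (MulAut.conj ((s x : M) : Γ)⁻¹).toMonoidHom : Subgroup Γ)) : Set Γ) =
          (fun g => ((s x : M) : Γ)⁻¹ * g * (s x : M)) ⁻¹' ((U0 : Set Γ) ∩ (G : Set Γ)) := by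
        ext g
        simp
      rw [h3]
      exact (hU0.inter hG).preimage (by fun_prop)
    · intro g hg u hu huM
      have hu' : ∀ x, ((s x : M) : Γ)⁻¹ * u * (s x : M) ∈ U0 ∧
          ((s x : M) : Γ)⁻¹ * u * (s x : M) ∈ G := by
        intro x
        have h3 := (Subgroup.mem_iInf.1 hu) x
        simpa [MulAut.conj_apply] using h3
      have hcore : ∀ g ∈ M, g⁻¹ * u * g ∈ G := by
        intro g hg
        have h3 := QuotientGroup.eq.1 (hs ((⟨g, hg⟩ : M) : M ⧸ G'))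
        have h4 : ((s ((⟨g, hg⟩ : M) : M ⧸ G') : M) : Γ)⁻¹ * g ∈ G := h3
        have h5 := (hu' ((⟨g, hg⟩ : M) : M ⧸ G')).2
        have h6 := G.mul_mem (G.mul_mem (G.inv_mem h4) h5) h4
        have h7 : ∀ a : Γ, (a⁻¹ * g)⁻¹ * (a⁻¹ * u * a) * (a⁻¹ * g) = g⁻¹ * u * g := by
          intro a
          group
        rwa [h7] at h6
      have h8 : θ u = 0 := by
        rw [core u huM hcore, hT]
        refine Finset.sum_eq_zero fun x _ => ?_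
        have h9 := hU 1 (Subgroup.one_mem _) _ (hu' x).1
          ⟨M.mul_mem (M.mul_mem (M.inv_mem (s x).2) huM) (s x).2, (hu' x).2⟩
        rw [one_mul] at h9
        rw [h9]
        exact GH_one h1
      rw [hom g hg u huM, h8, add_zero]
  · intro t ht hv
    rw [hθ t ht]
    refine t3 ⟨t, ht⟩ trivial fun g n hn hgn => ?_
    exact hv g g.2 n hn hgn

end OzakiFree
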