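import Pool.Agent.Lib.MP_6e8030_nt.EBase
import Pool.Agent.Lib.MP_6e8030_nt.GH

open IntermediateField
open scoped ComplexConjugate

noncomputable section

namespace OzakiFree

/-! ### E3b: transfer from `P ⊓ G` to `P`, followed by the average over the powers of `σ₀` -/

theorem E3b_normal {Γ : Type*} [Group Γ] (P N : Subgroup Γ)
    (hcomm : ∀ g h : Γ, g * h * g⁻¹ * h⁻¹ ∈ P) (hPN : P ≤ N) : N.Normal := by
  refine ⟨fun n hn g => ?_⟩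
  have h1 : g * n * g⁻¹ = (g * n * g⁻¹ * n⁻¹) * n := by group
  rw [h1]
  exact N.mul_mem (hPN (hcomm g n)) hn

/-- the powers `σ₀ ^ i`, `i < index`, represent the quotient exactly once -/
theorem E3b_unique {Γ : Type*} [Group Γ] (N : Subgroup Γ) [N.Normal] [N.FiniteIndex] (σ₀ : Γ)
    (hσ : ∀ g : Γ, ∃ i : ℕ, σ₀ ^ i * g ∈ N) (g : Γ) :
    ∃! i : ℕ, i < N.index ∧ σ₀ ^ i * g ∈ N := by
  classical
  have hfin : Finite (Γ ⧸ N) := inferInstance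
  have hkey : ∀ i : ℕ, σ₀ ^ i * g ∈ N ↔ ((σ₀ : Γ ⧸ N)) ^ i = (g : Γ ⧸ N)⁻¹ := by
    intro i
    rw [← QuotientGroup.eq_one_iff, QuotientGroup.mk_mul, QuotientGroup.mk_pow]
    exact mul_eq_one_iff_eq_inv
  have hgen : ∀ x : Γ ⧸ N, x ∈ Subgroup.zpowers (σ₀ : Γ ⧸ N) := by
    intro x
    obtain ⟨h, rfl⟩ := QuotientGroup.mk_surjective x
    obtain ⟨i, hi⟩ := hσ h
    rw [← QuotientGroup.eq_one_iff, QuotientGroup.mk_mul, QuotientGroup.mk_pow] at hi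
    have h2 : (h : Γ ⧸ N) = ((σ₀ : Γ ⧸ N) ^ i)⁻¹ := eq_inv_of_mul_eq_one_right hi
    rw [h2]
    exact Subgroup.inv_mem _ (Subgroup.pow_mem _ (Subgroup.mem_zpowers _) _)
  have hord : orderOf (σ₀ : Γ ⧸ N) = N.index := by
    rw [orderOf_eq_card_of_forall_mem_zpowers hgen]
    rfl
  have hpos : 0 < N.index := Nat.pos_of_ne_zero (Subgroup.FiniteIndex.index_ne_zero)
  have hmem := hgen (g : Γ ⧸ N)⁻¹
  have hfo : IsOfFinOrder (σ₀ : Γ ⧸ N) := isOfFinOrder_of_finite _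
  rw [hfo.mem_zpowers_iff_mem_range_orderOf] at hmem
  obtain ⟨i, hi, hi2⟩ := Finset.mem_image.1 hmem
  rw [Finset.mem_range, hord] at hi
  refine ⟨i, ⟨hi, (hkey i).2 hi2⟩, ?_⟩
  rintro j ⟨hj, hj2⟩
  have h3 := (hkey j).1 hj2
  have h4 : (σ₀ : Γ ⧸ N) ^ j = (σ₀ : Γ ⧸ N) ^ i := by rw [h3]; exact hi2.symm
  rw [← hord] at hi hj
  exact pow_injOn_Iio_orderOf hj hi h4

theorem transfer_cyc {Γ : Type*} [Group Γ] [TopologicalSpace Γ] [IsTopologicalGroup Γ] {p : ℕ}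
    (P G : Subgroup Γ) (hcomm : ∀ g h : Γ, g * h * g⁻¹ * h⁻¹ ∈ P) (hG : IsOpen (G : Set Γ))
    (hfin : G.FiniteIndex) (σ₀ : Γ) (hσ : ∀ g : Γ, ∃ i : ℕ, σ₀ ^ i * g ∈ P ⊔ G)
    (ψ : Γ → ZMod p) (h1 : HomOn (P ⊓ G) ψ) (h2 : LCOn (P ⊓ G) ψ) :
    ∃ (T : Finset Γ) (θ : Γ → ZMod p), (∀ g : Γ, ∃! s, s ∈ T ∧ s⁻¹ * g ∈ G) ∧
      HomOn P θ ∧ LCOn P θ ∧
      (∀ t ∈ P, (∀ (g : Γ) (n : ℕ), 0 < n → g⁻¹ * t ^ n * g ∈ G → ψ (g⁻¹ * t ^ n * g) = 0) →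
        θ t = 0) ∧
      (∀ t ∈ P, (∀ g : Γ, g⁻¹ * t * g ∈ G) →
        ∑ i ∈ Finset.range (P ⊔ G).index, θ (σ₀ ^ i * t * (σ₀ ^ i)⁻¹) =
          ∑ s ∈ T, ψ (s⁻¹ * t * s)) := by
  classical
  have hP : P.Normal := E3b_normal P P hcomm le_rfl
  have hN : (P ⊔ G).Normal := E3b_normal P (P ⊔ G) hcomm le_sup_left
  have hNf : (P ⊔ G).FiniteIndex := Subgroup.finiteIndex_of_le (H := G) le_sup_right
  set N := P ⊔ G with hNdef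
  have hPN : P ≤ N := le_sup_left
  have hGN : G ≤ N := le_sup_right
  let ω : Γ → ZMod p := fun g => if g ∈ N then 1 else 0
  have hω : ∀ h ∈ P, ∀ g, ω (h * g) = ω g := by
    intro h hh g
    have : (h * g ∈ N) ↔ (g ∈ N) := Subgroup.mul_mem_cancel_left N (hPN hh)
    simp only [ω, this]
  obtain ⟨s, θ, hs, hθ1, hθ2, hθ3, hθ4⟩ := exists_transfer P G hP hG hfin ω hω ψ h1 h2
  have : Finite (Γ ⧸ G) := inferInstance
  have : Fintype (Γ ⧸ G) := Fintype.ofFinite _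
  let X : Finset (Γ ⧸ G) := Finset.univ.filter (fun x => s x ∈ N)
  let f : ℕ × (Γ ⧸ G) → Γ := fun z => (σ₀ ^ z.1)⁻¹ * s z.2
  let D : Finset (ℕ × (Γ ⧸ G)) := Finset.range N.index ×ˢ X
  -- uniqueness
  have huniq : ∀ (g : Γ) (z z' : ℕ × (Γ ⧸ G)), z ∈ D → z' ∈ D → (f z)⁻¹ * g ∈ G →
      (f z')⁻¹ * g ∈ G → z = z' := by
    intro g z z' hz hz' hg hg'
    have key : ∀ w : ℕ × (Γ ⧸ G), w ∈ D → (f w)⁻¹ * g ∈ G →
        (w.1 < N.index ∧ σ₀ ^ w.1 * g ∈ N) ∧ w.2 = ((σ₀ ^ w.1 * g : Γ) : Γ ⧸ G) := by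
      intro w hw hwg
      obtain ⟨hw1, hw2⟩ := Finset.mem_product.1 hw
      have hw3 : s w.2 ∈ N := (Finset.mem_filter.1 hw2).2
      have e1 : (f w)⁻¹ * g = (s w.2)⁻¹ * (σ₀ ^ w.1 * g) := by
        simp only [f]; group
      rw [e1] at hwg
      refine ⟨⟨Finset.mem_range.1 hw1, ?_⟩, ?_⟩
      · have e2 : σ₀ ^ w.1 * g = s w.2 * ((s w.2)⁻¹ * (σ₀ ^ w.1 * g)) := by group
        rw [e2]
        exact N.mul_mem hw3 (hGN hwg)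
      · have e3 : ((s w.2 : Γ) : Γ ⧸ G) = ((σ₀ ^ w.1 * g : Γ) : Γ ⧸ G) := QuotientGroup.eq.2 hwg
        rw [← e3, hs]
    obtain ⟨ha, hb⟩ := key z hz hg
    obtain ⟨ha', hb'⟩ := key z' hz' hg'
    have h5 : z.1 = z'.1 := (E3b_unique N σ₀ hσ g).unique ha ha'
    refine Prod.ext h5 ?_
    rw [hb, hb', h5]
  have hinj : ∀ z ∈ D, ∀ z' ∈ D, f z = f z' → z = z' := by
    intro z hz z' hz' h
    refine huniq (f z) z z' hz hz' ?_ ?_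
    · rw [inv_mul_cancel]; exact G.one_mem
    · rw [← h, inv_mul_cancel]; exact G.one_mem
  refine ⟨D.image f, θ, ?_, hθ1, hθ2, hθ3, ?_⟩
  · intro g
    obtain ⟨i, ⟨hi1, hi2⟩, -⟩ := E3b_unique N σ₀ hσ g
    let x : Γ ⧸ G := ((σ₀ ^ i * g : Γ) : Γ ⧸ G)
    have hx : (s x)⁻¹ * (σ₀ ^ i * g) ∈ G := QuotientGroup.eq.1 (hs x)
    have hxN : s x ∈ N := by
      have e2 : s x = (σ₀ ^ i * g) * ((s x)⁻¹ * (σ₀ ^ i * g))⁻¹ := by group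
      rw [e2]
      exact N.mul_mem hi2 (N.inv_mem (hGN hx))
    have hzD : ((i, x) : ℕ × (Γ ⧸ G)) ∈ D :=
      Finset.mem_product.2 ⟨Finset.mem_range.2 hi1, Finset.mem_filter.2 ⟨Finset.mem_univ _, hxN⟩⟩
    have hzg : (f (i, x))⁻¹ * g ∈ G := by
      have e1 : (f (i, x))⁻¹ * g = (s x)⁻¹ * (σ₀ ^ i * g) := by
        simp only [f]; group
      rw [e1]; exact hx
    refine ⟨f (i, x), ⟨Finset.mem_image_of_mem f hzD, hzg⟩, ?_⟩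
    rintro y ⟨hy, hyg⟩
    obtain ⟨z', hz', rfl⟩ := Finset.mem_image.1 hy
    rw [huniq g z' (i, x) hz' hzD hyg hzg]
  · intro t ht hg
    rw [Finset.sum_image hinj, Finset.sum_product]
    refine Finset.sum_congr rfl fun i _ => ?_
    have h5 : σ₀ ^ i * t * (σ₀ ^ i)⁻¹ ∈ P := hP.conj_mem t ht _
    have h6 : ∀ g : Γ, g⁻¹ * (σ₀ ^ i * t * (σ₀ ^ i)⁻¹) * g ∈ G := by
      intro g
      have h7 := hg ((σ₀ ^ i)⁻¹ * g)
      have e : ((σ₀ ^ i)⁻¹ * g)⁻¹ * t * ((σ₀ ^ i)⁻¹ * g) = g⁻¹ * (σ₀ ^ i * t * (σ₀ ^ i)⁻¹) * g := by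
        group
      rwa [e] at h7
    rw [hθ4 _ h5 h6, finsum_eq_sum_of_fintype, Finset.sum_filter]
    refine Finset.sum_congr rfl fun x _ => ?_
    have e : (f (i, x))⁻¹ * t * f (i, x) = (s x)⁻¹ * (σ₀ ^ i * t * (σ₀ ^ i)⁻¹) * s x := by
      simp only [f]; group
    simp only [ω]
    split_ifs
    · rw [one_mul, e]
    · rw [zero_mul]

end OzakiFree
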