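import Pool.Agent.Lib.MP_6e8030_nt.EBase

open IntermediateField

noncomputable section

namespace OzakiFree

/-! ### E4: Kummer theory over `E` -/

private theorem E4_map_one {P : Subgroup GQ} {p : ℕ} {χ : GQ → ZMod p} (h1 : HomOn P χ) :
    χ 1 = 0 := by
  have h := h1 1 P.one_mem 1 P.one_mem
  rw [mul_one] at h
  simpa using h

private theorem E4_map_pow {P : Subgroup GQ} {p : ℕ} {χ : GQ → ZMod p} (h1 : HomOn P χ) {t : GQ}
    (ht : t ∈ P) (n : ℕ) : χ (t ^ n) = n * χ t := by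
  induction n with
  | zero => simp [E4_map_one h1]
  | succ n ih =>
    rw [pow_succ, h1 _ (P.pow_mem ht n) _ ht, ih]
    push_cast
    ring

private theorem E4_map_inv {P : Subgroup GQ} {p : ℕ} {χ : GQ → ZMod p} (h1 : HomOn P χ) {t : GQ}
    (ht : t ∈ P) : χ t⁻¹ = - χ t := by
  have h := h1 _ (P.inv_mem ht) _ ht
  rw [inv_mul_cancel, E4_map_one h1] at h
  exact eq_neg_of_add_eq_zero_left h.symm

/-- the kernel of `χ` on `P` -/
private def E4_ker (P : Subgroup GQ) {p : ℕ} (χ : GQ → ZMod p) (h1 : HomOn P χ) : Subgroup GQ where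
  carrier := {g | g ∈ P ∧ χ g = 0}
  mul_mem' := by
    rintro a b ⟨ha, ha'⟩ ⟨hb, hb'⟩
    exact ⟨P.mul_mem ha hb, by rw [h1 a ha b hb, ha', hb', add_zero]⟩
  one_mem' := ⟨P.one_mem, E4_map_one h1⟩
  inv_mem' := by
    rintro a ⟨ha, ha'⟩
    exact ⟨P.inv_mem ha, by rw [E4_map_inv h1 ha, ha', neg_zero]⟩

private theorem E4_mem_ker {P : Subgroup GQ} {p : ℕ} {χ : GQ → ZMod p} (h1 : HomOn P χ) (g : GQ) :
    g ∈ E4_ker P χ h1 ↔ g ∈ P ∧ χ g = 0 := Iff.rfl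

private theorem E4_ker_open {P : Subgroup GQ} (hP : IsOpen (P : Set GQ)) {p : ℕ}
    {χ : GQ → ZMod p} (h1 : HomOn P χ) (h2 : LCOn P χ) : IsOpen (E4_ker P χ h1 : Set GQ) := by
  obtain ⟨V, hV, h⟩ := h2
  refine Subgroup.isOpen_mono (H₁ := V ⊓ P) ?_ (hV.inter hP)
  rintro u ⟨hu, hu'⟩
  refine ⟨hu', ?_⟩
  have := h 1 P.one_mem u hu hu'
  rw [one_mul] at this
  rw [this, E4_map_one h1]

private theorem E4_congr {P : Subgroup GQ} {p : ℕ} {χ : GQ → ZMod p} (h1 : HomOn P χ) {x : Om}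
    (hx : ∀ u ∈ E4_ker P χ h1, u x = x) {t t' : GQ} (ht : t ∈ P) (ht' : t' ∈ P)
    (h : χ t = χ t') : t x = t' x := by
  have hu : t'⁻¹ * t ∈ E4_ker P χ h1 := by
    refine ⟨P.mul_mem (P.inv_mem ht') ht, ?_⟩
    rw [h1 _ (P.inv_mem ht') _ ht, E4_map_inv h1 ht', h, neg_add_cancel]
  have h3 := hx _ hu
  have h4 : t' ((t'⁻¹ * t) x) = t' x := by rw [h3]
  rw [← AlgEquiv.mul_apply, mul_inv_cancel_left] at h4
  exact h4

/-- the Lagrange resolvent -/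
private def E4_res (p : ℕ) [NeZero p] (ζ : Om) (t₀ : GQ) (x : Om) : Om :=
  ∑ j : ZMod p, (ζ⁻¹) ^ j.val * (t₀ ^ j.val) x

private theorem E4_zeta {p : ℕ} [NeZero p] {ζ : Om} (hζ : ζ ^ p = 1) (a j : ZMod p) :
    ζ ^ a.val * (ζ⁻¹) ^ (j + a).val = (ζ⁻¹) ^ j.val := by
  have hζ0 : ζ ≠ 0 := by
    rintro rfl
    rw [zero_pow (NeZero.ne p)] at hζ
    exact zero_ne_one hζ
  have hi : (ζ⁻¹) ^ p = 1 := by rw [inv_pow, hζ, inv_one]
  rw [ZMod.val_add, ← pow_eq_pow_mod _ hi, pow_add, mul_comm ((ζ⁻¹) ^ j.val), ← mul_assoc,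
    ← mul_pow, mul_inv_cancel₀ hζ0, one_pow, one_mul]

private theorem E4_res_act {P : Subgroup GQ} {p : ℕ} [NeZero p] {ζ : Om} (hζ : ζ ^ p = 1)
    (hζP : ∀ t ∈ P, t ζ = ζ) {χ : GQ → ZMod p} (h1 : HomOn P χ) {t₀ : GQ} (ht₀ : t₀ ∈ P)
    (hχ₀ : χ t₀ = 1) {x : Om} (hx : ∀ u ∈ E4_ker P χ h1, u x = x) {t : GQ} (ht : t ∈ P) :
    t (E4_res p ζ t₀ x) = ζ ^ (χ t).val * E4_res p ζ t₀ x := by
  unfold E4_res
  rw [map_sum, Finset.mul_sum, ← Equiv.sum_comp (Equiv.addRight (χ t))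
    (fun j => ζ ^ (χ t).val * ((ζ⁻¹) ^ j.val * (t₀ ^ j.val) x))]
  refine Finset.sum_congr rfl fun j _ => ?_
  simp only [Equiv.coe_addRight]
  rw [map_mul, map_pow, map_inv₀, hζP t ht, ← mul_assoc, E4_zeta hζ]
  congr 1
  rw [← AlgEquiv.mul_apply]
  refine E4_congr h1 hx (P.mul_mem ht (P.pow_mem ht₀ _)) (P.pow_mem ht₀ _) ?_
  rw [h1 _ ht _ (P.pow_mem ht₀ _), E4_map_pow h1 ht₀, E4_map_pow h1 ht₀, hχ₀, mul_one, mul_one,
    ZMod.natCast_zmod_val, ZMod.natCast_zmod_val, add_comm]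

private theorem E4_res_ne {P : Subgroup GQ} (hP : IsOpen (P : Set GQ)) {p : ℕ} [NeZero p] {ζ : Om}
    (hζ : ζ ^ p = 1) {χ : GQ → ZMod p} (h1 : HomOn P χ) (h2 : LCOn P χ) {t₀ : GQ} (ht₀ : t₀ ∈ P)
    (hχ₀ : χ t₀ = 1) :
    ∃ x : Om, (∀ u ∈ E4_ker P χ h1, u x = x) ∧ E4_res p ζ t₀ x ≠ 0 := by
  have hζ0 : ζ ≠ 0 := by
    rintro rfl
    rw [zero_pow (NeZero.ne p)] at hζ
    exact zero_ne_one hζ
  have ho := E4_ker_open hP h1 h2
  have hfix : (fixedField (E4_ker P χ h1)).fixingSubgroup = E4_ker P χ h1 :=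
    InfiniteGalois.fixingSubgroup_fixedField
      (⟨E4_ker P χ h1, Subgroup.isClosed_of_isOpen _ ho⟩ : ClosedSubgroup GQ)
  let M := fixedField (E4_ker P χ h1)
  let f : ZMod p → (M →* Om) := fun j =>
    { toFun := fun x => (t₀ ^ j.val) (x : Om)
      map_one' := by simp
      map_mul' := by intro a b; simp }
  have hf : Function.Injective f := by
    intro i j hij
    have h3 : (t₀ ^ j.val)⁻¹ * t₀ ^ i.val ∈ E4_ker P χ h1 := by
      rw [← hfix, IntermediateField.mem_fixingSubgroup_iff]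
      intro x hx
      have h4 : (t₀ ^ i.val) x = (t₀ ^ j.val) x := DFunLike.congr_fun hij (⟨x, hx⟩ : M)
      rw [AlgEquiv.mul_apply, h4, ← AlgEquiv.mul_apply, inv_mul_cancel, AlgEquiv.one_apply]
    have h5 := h3.2
    rw [h1 _ (P.inv_mem (P.pow_mem ht₀ _)) _ (P.pow_mem ht₀ _), E4_map_inv h1 (P.pow_mem ht₀ _),
      E4_map_pow h1 ht₀, E4_map_pow h1 ht₀, hχ₀, mul_one, mul_one, ZMod.natCast_zmod_val,
      ZMod.natCast_zmod_val] at h5
    exact (neg_add_eq_zero.1 h5).symm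
  by_contra hcon
  push Not at hcon
  have hli := (linearIndependent_monoidHom M Om).comp f hf
  rw [Fintype.linearIndependent_iff] at hli
  have h6 := hli (fun j => (ζ⁻¹) ^ j.val) (by
    funext x
    have h7 := hcon (x : Om) (fun u hu => by
      have := x.2
      rw [IntermediateField.mem_fixedField_iff] at this
      exact this u hu)
    simpa [E4_res, f] using h7) 0
  exact pow_ne_zero _ (inv_ne_zero hζ0) h6

theorem kummer_gen {p : ℕ} (hp : p.Prime) {ζ : Om} (hζ : IsPrimitiveRoot ζ p)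
    (E : IntermediateField ℚ Om) [FiniteDimensional ℚ E] (hζE : ζ ∈ E) (χ : GQ → ZMod p)
    (h1 : HomOn E.fixingSubgroup χ) (h2 : LCOn E.fixingSubgroup χ) :
    ∃ (α : ZF E) (y : Om), α ≠ 0 ∧ y ^ p = α.val ∧
      ∀ t ∈ E.fixingSubgroup, t y = ζ ^ (χ t).val * y := by
  have : NeZero p := ⟨hp.ne_zero⟩
  have : Fact p.Prime := ⟨hp⟩
  by_cases hall : ∀ t ∈ E.fixingSubgroup, χ t = 0
  · refine ⟨1, 1, ?_, ?_, ?_⟩
    · exact one_ne_zero (α := NumberField.RingOfIntegers (FL E))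
    · rw [one_pow]; rfl
    · intro t ht
      rw [hall t ht, map_one, ZMod.val_zero, pow_zero, mul_one]
  push Not at hall
  obtain ⟨t₁, ht₁, hχ₁⟩ := hall
  let P := E.fixingSubgroup
  have hP : IsOpen (P : Set GQ) := IntermediateField.fixingSubgroup_isOpen E
  let t₀ := t₁ ^ ((χ t₁)⁻¹).val
  have ht₀ : t₀ ∈ P := P.pow_mem ht₁ _
  have hχ₀ : χ t₀ = 1 := by
    rw [E4_map_pow h1 ht₁, ZMod.natCast_zmod_val, inv_mul_cancel₀ hχ₁]
  obtain ⟨x, hx, hne⟩ := E4_res_ne hP hζ.pow_eq_one h1 h2 ht₀ hχ₀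
  have hζP : ∀ t ∈ P, t ζ = ζ := fun t ht => by
    have ht' := ht
    rw [IntermediateField.mem_fixingSubgroup_iff] at ht'
    exact ht' ζ hζE
  have hact := fun (t : GQ) (ht : t ∈ P) => E4_res_act hζ.pow_eq_one hζP h1 ht₀ hχ₀ hx ht
  set y₀ := E4_res p ζ t₀ x with hy₀
  obtain ⟨n, hn0, hn⟩ := IsAlgebraic.exists_integral_multiple
    ((IsFractionRing.isAlgebraic_iff ℤ ℚ Om).2 (Algebra.IsAlgebraic.isAlgebraic (R := ℚ) y₀))
  have hn' : n • y₀ = (n : Om) * y₀ := by simp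
  rw [hn'] at hn
  set y := (n : Om) * y₀ with hy
  have hy0 : y ≠ 0 := mul_ne_zero (by exact_mod_cast hn0) hne
  have hacty : ∀ t ∈ P, t y = ζ ^ (χ t).val * y := by
    intro t ht
    rw [hy, map_mul, hact t ht, map_intCast]
    ring
  have hyE : y ^ p ∈ E := by
    rw [← InfiniteGalois.fixedField_fixingSubgroup E, IntermediateField.mem_fixedField_iff]
    intro t ht
    rw [map_pow, hacty t ht, mul_pow, ← pow_mul, mul_comm _ p, pow_mul, hζ.pow_eq_one, one_pow,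
      one_mul]
  have hint : IsIntegral ℤ (⟨y ^ p, hyE⟩ : FL E) := by
    have h8 : IsIntegral ℤ ((FLhom E).toIntAlgHom (⟨y ^ p, hyE⟩ : FL E)) := hn.pow p
    exact (isIntegral_algHom_iff (FLhom E).toIntAlgHom (FLhom E).injective).1 h8
  refine ⟨(⟨⟨y ^ p, hyE⟩, hint⟩ : NumberField.RingOfIntegers (FL E)), y, ?_, rfl, hacty⟩
  intro h0
  have h9 : y ^ p = 0 := congrArg ZF.val h0
  exact pow_ne_zero p hy0 h9

end OzakiFree
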