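import Pool.Agent.Lib.MP_6e8030_nt.Base

open IntermediateField
open scoped ComplexConjugate Pointwise

noncomputable section

namespace OzakiFree

/-- the integers of `N`, inside the algebraic integers -/
def R4A (N : IntermediateField ℚ Om) : Subalgebra ℤ (integralClosure ℤ Om) :=
  (N.toSubalgebra.restrictScalars ℤ).comap (integralClosure ℤ Om).val

theorem R4_mem_A (N : IntermediateField ℚ Om) (z : integralClosure ℤ Om) :
    z ∈ R4A N ↔ (z : Om) ∈ N := Iff.rfl

theorem R4_isAlgebraic : Algebra.IsAlgebraic ℚ Om := by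
  refine ⟨fun x => ?_⟩
  obtain ⟨p, hp, hx⟩ := (AlgebraicClosure.isAlgebraic ℚ).isAlgebraic x
  refine ⟨p, hp, ?_⟩
  rw [Polynomial.aeval_def] at hx ⊢
  rw [← hx]
  congr 1

instance R4_galQ : IsGalois ℚ Om := by
  have h : IsAlgClosure ℚ Om := ⟨inferInstance, R4_isAlgebraic⟩
  exact IsAlgClosure.isGalois ℚ Om

instance R4_comm (N : IntermediateField ℚ Om) :
    SMulCommClass (Om ≃ₐ[N] Om) (R4A N) (integralClosure ℤ Om) where
  smul_comm g a b := by
    apply Subtype.ext
    have h1 : g ((a : integralClosure ℤ Om) : Om) = ((a : integralClosure ℤ Om) : Om) :=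
      g.commutes ⟨_, a.2⟩
    change g (((a : integralClosure ℤ Om) : Om) * (b : Om)) = ((a : integralClosure ℤ Om) : Om) * g b
    rw [map_mul, h1]

instance R4_inv (N : IntermediateField ℚ Om) :
    Algebra.IsInvariant (R4A N) (integralClosure ℤ Om) (Om ≃ₐ[N] Om) where
  isInvariant b hb := by
    have h1 : (b : Om) ∈ (⊥ : IntermediateField N Om) := by
      rw [InfiniteGalois.mem_bot_iff_fixed]
      intro g
      exact congrArg Subtype.val (hb g)
    obtain ⟨y, hy⟩ := IntermediateField.mem_bot.1 h1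
    have h2 : (b : Om) ∈ N := by
      rw [← hy]
      exact y.2
    exact ⟨⟨b, h2⟩, rfl⟩

/-- inertia groups of `Gal(Om/ℚ)` surject onto the inertia groups of finite quotients -/
theorem inertia_surj (N : IntermediateField ℚ Om) [FiniteDimensional ℚ N] [IsGalois ℚ N]
    (B : Ideal (integralClosure ℤ Om)) (hB : B.IsMaximal) (σ : N ≃ₐ[ℚ] N)
    (hσ : ∀ (z : integralClosure ℤ Om) (hz : (z : Om) ∈ N),
      ∃ b ∈ B, (b : Om) = (σ ⟨z, hz⟩ : N) - z) :
    ∃ t ∈ B.inertia GQ, ∀ x : N, t (x : Om) = (σ x : N) := by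
  classical
  let : TopologicalSpace (integralClosure ℤ Om) := ⊥
  have : DiscreteTopology (integralClosure ℤ Om) := ⟨rfl⟩
  have : ContinuousSMul (Om ≃ₐ[N] Om) (integralClosure ℤ Om) := by
    rw [continuousSMul_iff_stabilizer_isOpen]
    intro x
    have h1 := stabilizer_isOpen_of_isIntegral (K := N) (L := Om) (x : Om)
    convert h1 using 1
    ext g
    constructor
    · intro h
      exact congrArg Subtype.val h
    · intro h
      exact Subtype.ext h
  have := hB.isPrime
  -- lift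
  let g : GQ := σ.liftNormal Om
  have hg : ∀ x : N, g (x : Om) = (σ x : N) := fun x => AlgEquiv.liftNormal_commutes σ Om x
  have hginv : ∀ x : N, g⁻¹ (x : Om) = (σ.symm x : N) := by
    intro x
    have h1 := hg (σ.symm x)
    rw [AlgEquiv.apply_symm_apply] at h1
    rw [← h1]
    exact AlgEquiv.symm_apply_apply g _
  have hmem : ∀ (z : integralClosure ℤ Om), (z : Om) ∈ N → (z ∈ g • B ↔ z ∈ B) := by
    intro z hz
    rw [Ideal.mem_pointwise_smul_iff_inv_smul_mem]
    have hy : ((g⁻¹ • z : integralClosure ℤ Om) : Om) = (σ.symm ⟨z, hz⟩ : N) := hginv ⟨z, hz⟩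
    have hyN : ((g⁻¹ • z : integralClosure ℤ Om) : Om) ∈ N := by
      rw [hy]
      exact (σ.symm ⟨z, hz⟩).2
    obtain ⟨b, hb, hb'⟩ := hσ (g⁻¹ • z) hyN
    have h3 : (⟨((g⁻¹ • z : integralClosure ℤ Om) : Om), hyN⟩ : N) = σ.symm ⟨z, hz⟩ :=
      Subtype.ext hy
    rw [h3, AlgEquiv.apply_symm_apply] at hb'
    have h4 : b = z - g⁻¹ • z := Subtype.ext (by rw [hb']; rfl)
    rw [h4] at hb
    constructor
    · intro h
      have := B.add_mem hb h
      simpa using this
    · intro h
      have := B.sub_mem h hb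
      simpa using this
  have hunder : (g • B).under (R4A N) = B.under (R4A N) := by
    ext z
    exact hmem z z.2
  have : (g • B).IsPrime := inferInstance
  obtain ⟨h, hh⟩ := Algebra.IsInvariant.exists_smul_of_under_eq_of_profinite
    (A := R4A N) (G := (Om ≃ₐ[N] Om)) (g • B) B hunder
  let h' : GQ := AlgEquiv.restrictScalars ℚ h
  have hh' : (h' * g) • B = B := by
    rw [mul_smul]
    exact hh.symm
  have hg' : ∀ x : N, (h' * g) (x : Om) = (σ x : N) := by
    intro x
    change h (g (x : Om)) = _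
    rw [hg]
    exact h.commutes (σ x)
  let e : (integralClosure ℤ Om ⧸ B) ≃ₐ[R4A N ⧸ B.under (R4A N)] (integralClosure ℤ Om ⧸ B) :=
    { __ := Ideal.quotientEquiv B B (MulSemiringAction.toRingEquiv GQ (integralClosure ℤ Om) (h' * g))
        hh'.symm
      commutes' := by
        rintro ⟨z⟩
        change Ideal.Quotient.mk B ((h' * g) • (z : integralClosure ℤ Om)) =
          Ideal.Quotient.mk B (z : integralClosure ℤ Om)
        rw [Ideal.Quotient.eq]
        obtain ⟨b, hb, hb'⟩ := hσ z z.2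
        have : (h' * g) • (z : integralClosure ℤ Om) - z = b := by
          apply Subtype.ext
          have h6 := hg' ⟨((z : integralClosure ℤ Om) : Om), z.2⟩
          refine Eq.trans ?_ hb'.symm
          exact congrArg (fun y : Om => y - ((z : integralClosure ℤ Om) : Om)) h6
        rw [this]
        exact hb }
  obtain ⟨s, hs⟩ := Ideal.Quotient.stabilizerHom_surjective_of_profinite
    (G := (Om ≃ₐ[N] Om)) (B.under (R4A N)) B e
  let s' : GQ := AlgEquiv.restrictScalars ℚ (s : Om ≃ₐ[N] Om)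
  have hs' : ∀ z : integralClosure ℤ Om, s' • z - (h' * g) • z ∈ B := by
    intro z
    rw [← Ideal.Quotient.eq]
    exact DFunLike.congr_fun hs (Ideal.Quotient.mk B z)
  have hsB : s' • B = B := s.2
  refine ⟨s'⁻¹ * (h' * g), ?_, ?_⟩
  · intro z
    have h1 := hs' z
    have h2 : s'⁻¹ • ((h' * g) • z - s' • z) ∈ B := by
      have h3 : (h' * g) • z - s' • z ∈ s' • B := by
        rw [hsB, ← neg_sub]
        exact B.neg_mem h1
      rwa [Ideal.mem_pointwise_smul_iff_inv_smul_mem] at h3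
    rw [smul_sub, ← mul_smul, inv_smul_smul] at h2
    exact h2
  · intro x
    change s'⁻¹ ((h' * g) (x : Om)) = _
    rw [hg' x]
    have h1 : s' ((σ x : N) : Om) = (σ x : N) := (s : Om ≃ₐ[N] Om).commutes (σ x)
    conv_lhs => rw [← h1]
    exact AlgEquiv.symm_apply_apply s' _

open NumberField UniqueFactorizationMonoid in
theorem R4_val (K : Type) [Field K] [NumberField K] [IsGalois ℚ K] (l : ℕ) (hl : l.Prime)
    (Q : Ideal (𝓞 K)) (hQ : Q.IsPrime) (hlQ : (l : 𝓞 K) ∈ Q)
    (hI : ∀ σ ∈ Q.inertia (K ≃ₐ[ℚ] K), σ = 1) (z w : 𝓞 K) (r s : ℕ) (hw : w ∉ Q)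
    (h : z ^ r = (l : 𝓞 K) ^ s * w) : r ∣ s := by
  classical
  have hinst : IsGaloisGroup (K ≃ₐ[ℚ] K) ℤ (𝓞 K) := IsGaloisGroup.of_isFractionRing _ ℤ (𝓞 K) ℚ K
  let p : Ideal ℤ := Ideal.span {(l : ℤ)}
  have hlZ : Prime (l : ℤ) := Nat.prime_iff_prime_int.1 hl
  have hpp : p.IsPrime := (Ideal.span_singleton_prime hlZ.ne_zero).2 hlZ
  have hp0 : p ≠ ⊥ := by
    rw [Ne, Ideal.span_singleton_eq_bot]
    exact hlZ.ne_zero
  have hpmax : p.IsMaximal := hpp.isMaximal hp0
  have hover : Q.LiesOver p := by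
    constructor
    apply hpmax.eq_of_le (Ideal.comap_ne_top _ hQ.ne_top)
    rw [Ideal.span_singleton_le_iff_mem]
    change algebraMap ℤ (𝓞 K) (l : ℤ) ∈ Q
    simpa using hlQ
  have hmap : p.map (algebraMap ℤ (𝓞 K)) = Ideal.span {(l : 𝓞 K)} := by
    rw [Ideal.map_span, Set.image_singleton]
    simp
  have hl0 : (l : 𝓞 K) ≠ 0 := by exact_mod_cast hl.ne_zero
  have hmap0 : p.map (algebraMap ℤ (𝓞 K)) ≠ ⊥ := by
    rw [hmap, Ne, Ideal.span_singleton_eq_bot]
    exact hl0
  have hQ0 : Q ≠ ⊥ := by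
    rintro rfl
    exact hl0 (by simpa using hlQ)
  have hcard : Nat.card (Q.inertia (K ≃ₐ[ℚ] K)) = 1 := by
    rw [Nat.card_eq_one_iff_unique]
    refine ⟨⟨fun a b => ?_⟩, ⟨1⟩⟩
    apply Subtype.ext
    rw [hI a a.2, hI b b.2]
  have h1 : Ideal.ramificationIdxIn p (𝓞 K) = 1 := by
    rw [← Ideal.card_inertia_eq_ramificationIdxIn (G := K ≃ₐ[ℚ] K) p Q]
    exact hcard
  rw [Ideal.ramificationIdxIn_eq_ramificationIdx p Q (K ≃ₐ[ℚ] K),
    ← Ideal.ramificationIdx'_eq_ramificationIdx p Q hp0,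
    Ideal.IsDedekindDomain.ramificationIdx'_eq_normalizedFactors_count hmap0 hQ hQ0, hmap] at h1
  have hw0 : w ≠ 0 := by
    rintro rfl
    exact hw Q.zero_mem
  have hspan : Ideal.span {z} ^ r = Ideal.span {(l : 𝓞 K)} ^ s * Ideal.span {w} := by
    rw [Ideal.span_singleton_pow, Ideal.span_singleton_pow, Ideal.span_singleton_mul_span_singleton, h]
  have hlI : Ideal.span {(l : 𝓞 K)} ≠ 0 := by
    rw [Ideal.zero_eq_bot, Ne, Ideal.span_singleton_eq_bot]
    exact hl0
  have hwI : Ideal.span {w} ≠ 0 := by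
    rw [Ideal.zero_eq_bot, Ne, Ideal.span_singleton_eq_bot]
    exact hw0
  have h2 := congrArg (fun I => (normalizedFactors I).count Q) hspan
  rw [normalizedFactors_pow, normalizedFactors_mul (pow_ne_zero _ hlI) hwI, normalizedFactors_pow,
    Multiset.count_nsmul, Multiset.count_add, Multiset.count_nsmul, h1] at h2
  have h3 : (normalizedFactors (Ideal.span {w})).count Q = 0 := by
    rw [Multiset.count_eq_zero]
    intro h4
    have h5 := dvd_of_mem_normalizedFactors h4
    rw [Ideal.dvd_span_singleton] at h5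
    exact hw h5
  rw [h3] at h2
  exact ⟨_, by rw [h2]; ring⟩

/-- if the inertia group at `B` acts trivially on `N`, then the valuation of `N` at `B` is
unramified over `ℓ` -/
theorem unr (N : IntermediateField ℚ Om) [FiniteDimensional ℚ N] [IsGalois ℚ N]
    (l : ℕ) (hl : l.Prime) (B : Ideal (integralClosure ℤ Om)) (hB : B.IsMaximal)
    (hlB : (l : integralClosure ℤ Om) ∈ B)
    (hI : ∀ t ∈ B.inertia GQ, ∀ x ∈ N, t x = x)
    (z w : integralClosure ℤ Om) (hz : (z : Om) ∈ N) (r s : ℕ) (hw : w ∉ B)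
    (h : z ^ r = (l : integralClosure ℤ Om) ^ s * w) : r ∣ s := by
  classical
  have : NumberField N := ⟨⟩
  have := hB.isPrime
  have hint : ∀ x : N, IsIntegral ℤ x ↔ IsIntegral ℤ (x : Om) := by
    intro x
    constructor
    · intro hx
      exact hx.map (N.val.restrictScalars ℤ)
    · intro hx
      exact (isIntegral_algHom_iff (N.val.restrictScalars ℤ) N.val.injective).1 hx
  let φ : NumberField.RingOfIntegers N →+* integralClosure ℤ Om :=
    { toFun := fun x => ⟨((x : N) : Om), (hint _).1 x.2⟩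
      map_one' := rfl
      map_mul' := fun _ _ => rfl
      map_zero' := rfl
      map_add' := fun _ _ => rfl }
  have hφ : ∀ x : integralClosure ℤ Om, (hx : (x : Om) ∈ N) →
      ∃ y : NumberField.RingOfIntegers N, ((y : N) : Om) = x ∧ φ y = x := by
    intro x hx
    exact ⟨⟨⟨x, hx⟩, (hint ⟨x, hx⟩).2 x.2⟩, rfl, rfl⟩
  let Q : Ideal (NumberField.RingOfIntegers N) := B.comap φ
  have hQ : Q.IsPrime := Ideal.comap_isPrime φ B
  have hlQ : (l : NumberField.RingOfIntegers N) ∈ Q := by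
    change φ _ ∈ B
    rw [map_natCast]
    exact hlB
  have hI' : ∀ σ ∈ Q.inertia (N ≃ₐ[ℚ] N), σ = 1 := by
    intro σ hσ
    obtain ⟨t, ht, ht'⟩ := inertia_surj N B hB σ (by
      intro x hx
      obtain ⟨y, hy, hy'⟩ := hφ x hx
      refine ⟨φ (σ • y - y), hσ y, ?_⟩
      have h1 : (⟨(x : Om), hx⟩ : N) = (y : N) := Subtype.ext hy.symm
      rw [h1, ← hy]
      rfl)
    apply AlgEquiv.ext
    intro x
    apply Subtype.ext
    rw [← ht' x]
    exact hI t ht x x.2
  have hl0 : ((l : ℕ) : Om) ≠ 0 := by exact_mod_cast hl.ne_zero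
  have hwN : (w : Om) ∈ N := by
    have h1 : (w : Om) = (z : Om) ^ r / (l : Om) ^ s := by
      rw [eq_div_iff (pow_ne_zero _ hl0)]
      have h2 := congrArg (fun y : integralClosure ℤ Om => (y : Om)) h
      simp only [SubmonoidClass.coe_pow, MulMemClass.coe_mul] at h2
      rw [h2, mul_comm]
      rfl
    rw [h1]
    exact N.div_mem (_root_.pow_mem hz r) (_root_.pow_mem (_root_.natCast_mem N l) s)
  obtain ⟨z', _, hz'⟩ := hφ z hz
  obtain ⟨w', _, hw'⟩ := hφ w hwN
  have hφinj : Function.Injective φ := by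
    intro a b hab
    apply NumberField.RingOfIntegers.ext
    apply Subtype.ext
    exact congrArg (fun y : integralClosure ℤ Om => (y : Om)) hab
  refine R4_val N l hl Q hQ hlQ hI' z' w' r s ?_ ?_
  · intro h1
    apply hw
    rw [← hw']
    exact h1
  · apply hφinj
    rw [map_pow, map_mul, map_pow, map_natCast, hz', hw', h]

end OzakiFree
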