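import Pool.Agent.Lib.MP_6e8030_nt.EBase
import Pool.Agent.Lib.MP_6e8030_nt.R4

open IntermediateField
open scoped ComplexConjugate

noncomputable section

namespace OzakiFree

/-- a surjection of the cyclic group `(ℤ/l)ˣ` to `ℤ/p`, its kernel consists of the `p`-th powers -/
theorem E5_log {p : ℕ} {l : ℕ} (hp : p.Prime) (hl : l.Prime) (hlp : p ∣ l - 1) :
    ∃ ψ : (ZMod l)ˣ → ZMod p, (∀ a b, ψ (a * b) = ψ a + ψ b) ∧ (∃ a, ψ a ≠ 0) ∧
      ∀ a, ψ a = 0 → ∃ b, a = b ^ p := by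
  have : Fact l.Prime := ⟨hl⟩
  have hfp : Fact p.Prime := ⟨hp⟩
  have hc : IsCyclic (ZMod l)ˣ := inferInstance
  have hcard : Nat.card (ZMod l)ˣ = l - 1 := by
    rw [Nat.card_eq_fintype_card, ZMod.card_units]
  obtain ⟨n, hn⟩ : ∃ n, n = Nat.card (ZMod l)ˣ := ⟨_, rfl⟩
  have e := zmodCyclicMulEquiv hc
  rw [← hn] at e hcard
  have hd : p ∣ n := hcard ▸ hlp
  have hn0 : n ≠ 0 := hn ▸ Nat.card_pos.ne'
  have : NeZero n := ⟨hn0⟩
  refine ⟨fun a => ZMod.castHom hd (ZMod p) (Multiplicative.toAdd (e.symm a)), ?_, ?_, ?_⟩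
  · intro a b
    beta_reduce
    rw [map_mul, toAdd_mul, map_add]
  · refine ⟨e (Multiplicative.ofAdd 1), ?_⟩
    beta_reduce
    rw [MulEquiv.symm_apply_apply, toAdd_ofAdd, map_one]
    exact one_ne_zero
  · intro a ha
    obtain ⟨k, hk⟩ : ∃ k : ZMod n, k = Multiplicative.toAdd (e.symm a) := ⟨_, rfl⟩
    have ha' : ZMod.castHom hd (ZMod p) k = 0 := by
      rw [hk]
      exact ha
    rw [ZMod.castHom_apply, ← ZMod.natCast_val, ZMod.natCast_eq_zero_iff] at ha'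
    obtain ⟨j, hj⟩ := ha'
    refine ⟨e (Multiplicative.ofAdd (j : ZMod n)), ?_⟩
    rw [← map_pow, ← ofAdd_nsmul]
    have h1 : p • (j : ZMod n) = k := by
      rw [nsmul_eq_mul, ← Nat.cast_mul, ← hj, ZMod.natCast_zmod_val]
    rw [h1, hk, ofAdd_toAdd, MulEquiv.apply_symm_apply]

theorem E5_one {l : ℕ} (B : Ideal ZO) (hlB : (l : ZO) ∉ B) (x : ZO) (hx : x ^ l = 1)
    (h : x - 1 ∈ B) : x = 1 := by
  by_contra hne
  have h1 : ∑ i ∈ Finset.range l, x ^ i = 0 := by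
    have h2 := mul_geom_sum x l
    rw [hx, sub_self] at h2
    exact (mul_eq_zero.1 h2).resolve_left (sub_ne_zero.2 hne)
  apply hlB
  have h2 : (l : ZO) = -∑ i ∈ Finset.range l, (x ^ i - 1) := by
    rw [Finset.sum_sub_distrib, h1]
    simp
  rw [h2]
  refine B.neg_mem (B.sum_mem fun i _ => ?_)
  rw [← mul_geom_sum]
  exact B.mul_mem_right _ h

theorem E5_two {l : ℕ} (hl : 0 < l) (B : Ideal ZO) (hlB : (l : ZO) ∉ B) (y w : ZO)
    (hy : y ^ l = 1) (hw : w ^ l = 1) (h : y - w ∈ B) : y = w := by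
  have h1 : w * w ^ (l - 1) = 1 := by
    rw [← pow_succ', Nat.sub_add_cancel hl, hw]
  have h2 : y * w ^ (l - 1) = 1 := by
    refine E5_one B hlB _ ?_ ?_
    · rw [mul_pow, hy, ← pow_mul, mul_comm (l - 1) l, pow_mul, hw, one_pow, one_mul]
    · have h3 : y * w ^ (l - 1) - 1 = (y - w) * w ^ (l - 1) := by
        rw [sub_mul, h1]
      rw [h3]
      exact B.mul_mem_right _ h
  calc y = y * (w * w ^ (l - 1)) := by rw [h1, mul_one]
    _ = (y * w ^ (l - 1)) * w := by ring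
    _ = w := by rw [h2, one_mul]

theorem E5_pow {l : ℕ} [NeZero l] {ζ : Om} (hζ : IsPrimitiveRoot ζ l) (g : GQ) (k : ℕ)
    (h : g ζ = ζ ^ k) : ((hζ.autToPow ℚ g : (ZMod l)ˣ) : ZMod l) = k := by
  have h1 := hζ.autToPow_spec ℚ g
  rw [h] at h1
  have h2 : ((hζ.autToPow ℚ g : (ZMod l)ˣ) : ZMod l).val ≡ k [MOD l] := by
    have h3 := ((isOfFinOrder_iff_pow_eq_one.2 ⟨l, NeZero.pos l, hζ.pow_eq_one⟩).pow_eq_pow_iff_modEq).1 h1
    rwa [← hζ.eq_orderOf] at h3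
  rw [← ZMod.natCast_eq_natCast_iff, ZMod.natCast_zmod_val] at h2
  exact h2

theorem E5_zeta_sub_one {l : ℕ} (hl : l.Prime) (B : Ideal ZO) (hB : B.IsMaximal) (hlB : (l : ZO) ∈ B)
    (y : ZO) (hy : y ^ l = 1) : y - 1 ∈ B := by
  have := hB.isPrime
  obtain ⟨r, hr⟩ := exists_add_pow_prime_eq hl (y - 1) 1
  rw [sub_add_cancel, hy, one_pow] at hr
  have h1 : (y - 1) ^ l = -((l : ZO) * ((y - 1) * 1 * r)) := by
    linear_combination -hr
  refine hB.isPrime.mem_of_pow_mem l ?_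
  rw [h1]
  exact B.neg_mem (B.mul_mem_right _ hlB)

/-- the inertia group at `B ∋ l` maps onto `Gal(ℚ(ζ_l)/ℚ)` -/
theorem E5_ram {l : ℕ} (hl : l.Prime) {ζ : Om} (hζ : IsPrimitiveRoot ζ l) (B : Ideal ZO)
    (hB : B.IsMaximal) (hlB : (l : ZO) ∈ B) (k : ℕ) (hk : k.Coprime l) :
    ∃ t ∈ B.inertia GQ, t ζ = ζ ^ k := by
  classical
  have hfl : Fact l.Prime := ⟨hl⟩
  have hcyc : IsCyclotomicExtension {l} ℚ ℚ⟮ζ⟯ := hζ.intermediateField_adjoin_isCyclotomicExtension ℚ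
  have hfin : FiniteDimensional ℚ ℚ⟮ζ⟯ := IsCyclotomicExtension.finiteDimensional {l} ℚ ℚ⟮ζ⟯
  have hgal : IsGalois ℚ ℚ⟮ζ⟯ := IsCyclotomicExtension.isGalois {l} ℚ ℚ⟮ζ⟯
  -- an automorphism
  obtain ⟨g, hg⟩ : ∃ g : GQ, g ζ = ζ ^ k := by
    refine isConjRoot_iff_exists_algEquiv.1 ?_
    change minpoly ℚ (ζ ^ k) = minpoly ℚ ζ
    rw [← Polynomial.cyclotomic_eq_minpoly_rat hζ hl.pos,
      ← Polynomial.cyclotomic_eq_minpoly_rat (hζ.pow_of_coprime k hk) hl.pos]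
  let ζO : ZO := ⟨ζ, hζ.isIntegral hl.pos⟩
  have hζO : ζO ^ l = 1 := Subtype.ext hζ.pow_eq_one
  have hgζ : g • ζO - ζO ∈ B := by
    have h1 : g • ζO = ζO ^ k := Subtype.ext hg
    rw [h1]
    have h2 : ζO ^ k - ζO = (ζO ^ k - 1) - (ζO - 1) := by ring
    rw [h2]
    refine B.sub_mem (E5_zeta_sub_one hl B hB hlB _ ?_) (E5_zeta_sub_one hl B hB hlB _ hζO)
    rw [← pow_mul, mul_comm, pow_mul, hζO, one_pow]
  let ζN : ℚ⟮ζ⟯ := ⟨ζ, mem_adjoin_simple_self ℚ ζ⟩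
  have hζN : IsPrimitiveRoot ζN l := IsPrimitiveRoot.coe_submonoidClass_iff.1 hζ
  have hic := IsCyclotomicExtension.Rat.isIntegralClosure_adjoin_singleton_of_prime hζN
  obtain ⟨t, ht, ht'⟩ := inertia_surj ℚ⟮ζ⟯ B hB (AlgEquiv.restrictNormal g ℚ⟮ζ⟯) (by
    intro z hz
    have hint : IsIntegral ℤ (⟨(z : Om), hz⟩ : ℚ⟮ζ⟯) :=
      (isIntegral_algHom_iff ((ℚ⟮ζ⟯).val.restrictScalars ℤ) (ℚ⟮ζ⟯).val.injective).1 z.2
    obtain ⟨y, hy⟩ := hic.isIntegral_iff.1 hint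
    have hmem : (⟨(z : Om), hz⟩ : ℚ⟮ζ⟯) ∈ Algebra.adjoin ℤ ({ζN} : Set ℚ⟮ζ⟯) := by
      rw [← hy]
      exact y.2
    have key : ∀ x ∈ Algebra.adjoin ℤ ({ζN} : Set ℚ⟮ζ⟯), ∃ y : ZO, (y : Om) = (x : Om) ∧
        g • y - y ∈ B := by
      intro x hx
      induction hx using Algebra.adjoin_induction with
      | mem x hx =>
        rw [Set.mem_singleton_iff] at hx
        rw [hx]
        exact ⟨ζO, rfl, hgζ⟩
      | algebraMap r =>
        refine ⟨(r : ZO), by simp, ?_⟩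
        have h1 : g • (r : ZO) = (r : ZO) := by
          apply Subtype.ext
          change g (((r : ZO) : Om)) = _
          simp
        rw [h1, sub_self]
        exact B.zero_mem
      | add x y _ _ hx hy =>
        obtain ⟨x', hx', hx''⟩ := hx
        obtain ⟨y', hy', hy''⟩ := hy
        refine ⟨x' + y', by simp [hx', hy'], ?_⟩
        rw [smul_add]
        have h1 : g • x' + g • y' - (x' + y') = (g • x' - x') + (g • y' - y') := by ring
        rw [h1]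
        exact B.add_mem hx'' hy''
      | mul x y _ _ hx hy =>
        obtain ⟨x', hx', hx''⟩ := hx
        obtain ⟨y', hy', hy''⟩ := hy
        refine ⟨x' * y', by simp [hx', hy'], ?_⟩
        rw [smul_mul']
        have h1 : g • x' * g • y' - x' * y' = g • x' * (g • y' - y') + (g • x' - x') * y' := by ring
        rw [h1]
        exact B.add_mem (B.mul_mem_left _ hy'') (B.mul_mem_right _ hx'')
    obtain ⟨y', hy', hy''⟩ := key _ hmem
    have h2 : y' = z := Subtype.ext hy'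
    rw [h2] at hy''
    refine ⟨_, hy'', ?_⟩
    have h3 := AlgEquiv.restrictNormal_commutes g ℚ⟮ζ⟯ ⟨(z : Om), hz⟩
    exact congrArg (fun y : Om => y - (z : Om)) h3.symm)
  refine ⟨t, ht, ?_⟩
  have h1 := ht' ζN
  have h3 := AlgEquiv.restrictNormal_commutes g ℚ⟮ζ⟯ ζN
  rw [← hg]
  exact h1.trans h3

theorem exists_chi_l {p : ℕ} (hp : p.Prime) {l : ℕ} (hl : l.Prime) (hlp : p ∣ l - 1) :
    ∃ χ : GQ → ZMod p, (∀ g h, χ (g * h) = χ g + χ h) ∧ LCOn (⊤ : Subgroup GQ) χ ∧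
      (∀ B : Ideal ZO, B.IsMaximal → (l : ZO) ∉ B → ∀ t ∈ B.inertia GQ, χ t = 0) ∧
      (∀ B : Ideal ZO, B.IsMaximal → (l : ZO) ∈ B → ∃ t ∈ B.inertia GQ, χ t ≠ 0) ∧
      (∀ (B : Ideal ZO) (φ : GQ), B.IsMaximal → (p : ZO) ∈ B → (∀ z : ZO, φ • z - z ^ p ∈ B) →
        (∀ x : ℕ, ¬ x ^ p ≡ p [MOD l]) → χ φ ≠ 0) := by
  have : NeZero l := ⟨hl.ne_zero⟩
  have hfl : Fact l.Prime := ⟨hl⟩
  obtain ⟨ψ, hψ1, ⟨a, ha⟩, hψ3⟩ := E5_log hp hl hlp
  obtain ⟨ζ, hζ⟩ := HasEnoughRootsOfUnity.exists_primitiveRoot Om l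
  have hψ0 : ψ 1 = 0 := by
    have h1 := hψ1 1 1
    rw [mul_one] at h1
    simpa using h1
  let ζO : ZO := ⟨ζ, hζ.isIntegral hl.pos⟩
  have hζO : ζO ^ l = 1 := Subtype.ext hζ.pow_eq_one
  have hone : ∀ g : GQ, g ζ = ζ → ψ (hζ.autToPow ℚ g) = 0 := by
    intro g hg
    have h1 := E5_pow hζ g 1 (by rw [hg, pow_one])
    have h2 : hζ.autToPow ℚ g = 1 := Units.ext (by rw [h1]; simp)
    rw [h2, hψ0]
  refine ⟨fun g => ψ (hζ.autToPow ℚ g), ?_, ?_, ?_, ?_, ?_⟩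
  · intro g h
    beta_reduce
    rw [map_mul, hψ1]
  · have hcyc : IsCyclotomicExtension {l} ℚ ℚ⟮ζ⟯ :=
      hζ.intermediateField_adjoin_isCyclotomicExtension ℚ
    have hfin : FiniteDimensional ℚ ℚ⟮ζ⟯ := IsCyclotomicExtension.finiteDimensional {l} ℚ ℚ⟮ζ⟯
    refine ⟨(ℚ⟮ζ⟯).fixingSubgroup, (ℚ⟮ζ⟯).fixingSubgroup_isOpen, ?_⟩
    intro g _ u hu _
    beta_reduce
    rw [map_mul, hψ1, hone u ?_, add_zero]
    exact (mem_fixingSubgroup_iff ℚ⟮ζ⟯ u).1 hu ζ (mem_adjoin_simple_self ℚ ζ)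
  · intro B hB hlB t ht
    refine hone t ?_
    have h1 : t • ζO = ζO := by
      refine E5_two hl.pos B hlB _ _ ?_ hζO (ht ζO)
      rw [← smul_pow', hζO, smul_one]
    exact congrArg Subtype.val h1
  · intro B hB hlB
    obtain ⟨t, ht, ht'⟩ := E5_ram hl hζ B hB hlB (a : ZMod l).val (ZMod.val_coe_unit_coprime a)
    refine ⟨t, ht, ?_⟩
    have h1 := E5_pow hζ t _ ht'
    rw [ZMod.natCast_zmod_val] at h1
    beta_reduce
    rw [Units.ext h1]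
    exact ha
  · intro B φ hB hpB hφ hx h0
    have hlB : (l : ZO) ∉ B := by
      intro hlB
      have hcop : p.Coprime l := by
        rw [Nat.coprime_primes hp hl]
        rintro rfl
        have := Nat.le_of_dvd (by have := hp.two_le; omega) hlp
        have := hp.two_le
        omega
      have h1 := Nat.gcd_eq_gcd_ab p l
      rw [hcop] at h1
      have h2 : (1 : ZO) = (p : ZO) * ((p.gcdA l : ℤ) : ZO) + (l : ZO) * ((p.gcdB l : ℤ) : ZO) := by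
        exact_mod_cast congrArg (fun n : ℤ => (n : ZO)) h1
      refine hB.ne_top ((Ideal.eq_top_iff_one B).2 ?_)
      rw [h2]
      exact B.add_mem (B.mul_mem_right _ hpB) (B.mul_mem_right _ hlB)
    have h1 : φ • ζO = ζO ^ p := by
      refine E5_two hl.pos B hlB _ _ ?_ ?_ (hφ ζO)
      · rw [← smul_pow', hζO, smul_one]
      · rw [← pow_mul, mul_comm, pow_mul, hζO, one_pow]
    have h2 := E5_pow hζ φ p (congrArg Subtype.val h1)
    obtain ⟨b, hb⟩ := hψ3 _ h0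
    rw [hb] at h2
    refine hx (b : ZMod l).val ?_
    rw [← ZMod.natCast_eq_natCast_iff]
    rw [← h2, Nat.cast_pow, ZMod.natCast_zmod_val]
    rfl

end OzakiFree
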