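import Pool.Agent.Lib.MP_6e8030_nt.R2
import Pool.Agent.Lib.MP_6e8030_nt.N11

open IntermediateField
open scoped ComplexConjugate

noncomputable section

namespace OzakiFree

/-! ### N3: pull back to `K.fixingSubgroup` (new definitions) -/

theorem N3_alg : Algebra.IsAlgebraic ℚ Om := inferInstance

theorem N3_gal : IsGalois ℚ Om := by
  have h1 : Algebra.IsAlgebraic ℚ Om := N3_alg
  have h2 : IsAlgClosure ℚ Om := inferInstance
  have h3 : Normal ℚ Om := IsAlgClosure.normal ℚ Om
  have h4 : Algebra.IsSeparable ℚ Om := Algebra.IsAlgebraic.isSeparable_of_perfectField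
  exact ⟨⟩

/-- the restriction of `σ` to `L(K)`, as a map -/
def N3_map (p : ℕ) (K : IntermediateField ℚ Om) (σ : K.fixingSubgroup) (x : FL (maxUnram p K)) :
    FL (maxUnram p K) :=
  (show FL (maxUnram p K) from
    (⟨(σ : GQ) x.val, maxUnram_stable p K σ σ.2 x.val x.2⟩ : (maxUnram p K : IntermediateField ℚ Om)))

theorem N3_map_val (p : ℕ) (K : IntermediateField ℚ Om) (σ : K.fixingSubgroup)
    (x : FL (maxUnram p K)) : (N3_map p K σ x).val = (σ : GQ) x.val := rfl

theorem N3_ext {L : IntermediateField ℚ Om} {x y : FL L} (h : x.val = y.val) : x = y :=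
  Subtype.ext h

theorem N3_val_mul {L : IntermediateField ℚ Om} (x y : FL L) : (x * y).val = x.val * y.val := rfl

theorem N3_val_add {L : IntermediateField ℚ Om} (x y : FL L) : (x + y).val = x.val + y.val := rfl

/-- the restriction of `σ` to `L(K)` -/
def N3_ring (p : ℕ) (K : IntermediateField ℚ Om) (σ : K.fixingSubgroup) :
    FL (maxUnram p K) ≃+* FL (maxUnram p K) where
  toFun := N3_map p K σ
  invFun := N3_map p K σ⁻¹
  left_inv x := N3_ext (by
    rw [N3_map_val, N3_map_val]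
    exact N11_inv_apply (σ : GQ) x.val)
  right_inv x := N3_ext (by
    rw [N3_map_val, N3_map_val]
    exact N11_apply_inv (σ : GQ) x.val)
  map_mul' x y := N3_ext (by
    rw [N3_map_val, N3_val_mul, N3_val_mul, map_mul, N3_map_val, N3_map_val])
  map_add' x y := N3_ext (by
    rw [N3_map_val, N3_val_add, N3_val_add, map_add, N3_map_val, N3_map_val])

/-- the restriction as an element of `Gal(L(K)/K)` -/
def N3_pi (p : ℕ) (K : IntermediateField ℚ Om) :
    K.fixingSubgroup →* GalGroup K (maxUnram p K) where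
  toFun σ := ⟨(show AutL (maxUnram p K) from N3_ring p K σ), fun x hx => N3_ext (by
    show (σ : GQ) x.val = x.val
    exact (N11_fix K σ).1 σ.2 x.val hx)⟩
  map_one' := by
    apply Subtype.ext
    show N3_ring p K 1 = RingEquiv.refl _
    apply RingEquiv.ext
    intro x
    apply N3_ext
    rfl
  map_mul' σ τ := by
    apply Subtype.ext
    show N3_ring p K (σ * τ) = (N3_ring p K τ).trans (N3_ring p K σ)
    apply RingEquiv.ext
    intro x
    apply N3_ext
    rfl

theorem N3_pi_apply (p : ℕ) (K : IntermediateField ℚ Om) (σ : K.fixingSubgroup)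
    (z : FL (maxUnram p K)) :
    ((N3_pi p K σ : AutL (maxUnram p K)).app z).val = (σ : GQ) z.val := rfl

theorem N3_aut_ext {L : IntermediateField ℚ Om} {g h : AutL L} (H : ∀ x, g.app x = h.app x) :
    g = h :=
  RingEquiv.ext H

/-- a ring automorphism of `L` as a `ℚ`-algebra automorphism -/
def N3_alg_of {L : IntermediateField ℚ Om} (g : AutL L) : L ≃ₐ[ℚ] L :=
  AlgEquiv.ofRingEquiv (f := (show L ≃+* L from g)) (fun r => by
    have h : ((show L ≃+* L from g).toRingHom.comp (algebraMap ℚ L)) = algebraMap ℚ L :=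
      Subsingleton.elim _ _
    exact RingHom.congr_fun h r)

theorem N3_surj (p : ℕ) (K : IntermediateField ℚ Om) : Function.Surjective (N3_pi p K) := by
  have hg : IsGalois ℚ Om := N3_gal
  intro a
  let b : GQ := (N3_alg_of (a : AutL (maxUnram p K))).liftNormal Om
  have hb : ∀ x : FL (maxUnram p K), b x.val = ((a : AutL (maxUnram p K)).app x).val := fun x =>
    AlgEquiv.liftNormal_commutes (N3_alg_of (a : AutL (maxUnram p K))) Om x
  have hbK : b ∈ K.fixingSubgroup := by
    rw [N11_fix]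
    intro x hx
    have hxL : x ∈ maxUnram p K := (le_sup_left : K ≤ maxUnram p K) hx
    have h1 := hb (show FL (maxUnram p K) from (⟨x, hxL⟩ : (maxUnram p K : IntermediateField ℚ Om)))
    have h2 := a.2 (show FL (maxUnram p K) from (⟨x, hxL⟩ : (maxUnram p K : IntermediateField ℚ Om))) hx
    rw [h2] at h1
    exact h1
  refine ⟨⟨b, hbK⟩, ?_⟩
  apply Subtype.ext
  apply N3_aut_ext
  intro x
  apply N3_ext
  rw [N3_pi_apply]
  exact hb x

theorem N3_ker (p : ℕ) (K : IntermediateField ℚ Om) (σ : K.fixingSubgroup) :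
    N3_pi p K σ = 1 ↔ (σ : GQ) ∈ RL p K := by
  unfold RL
  rw [IntermediateField.mem_fixingSubgroup_iff]
  constructor
  · intro h x hx
    have h2 := N3_pi_apply p K σ
      (show FL (maxUnram p K) from (⟨x, hx⟩ : (maxUnram p K : IntermediateField ℚ Om)))
    rw [h] at h2
    exact h2.symm
  · intro h
    apply Subtype.ext
    apply N3_aut_ext
    intro x
    apply N3_ext
    rw [N3_pi_apply]
    exact h x.val x.2

/-- `σ ↦ σ x` is locally constant -/
theorem N3_loc (x : Om) (s : Set Om) : IsOpen {σ : GQ | σ x ∈ s} := by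
  have hT : FiniteDimensional ℚ (adjoin ℚ ({x} : Set Om)) := by
    have halg := N3_alg
    exact IntermediateField.finiteDimensional_adjoin fun x _ =>
      (Algebra.IsAlgebraic.isAlgebraic x).isIntegral
  have hopen : IsOpen ((adjoin ℚ ({x} : Set Om)).fixingSubgroup : Set GQ) :=
    IntermediateField.fixingSubgroup_isOpen _
  rw [isOpen_iff_mem_nhds]
  intro σ hσ
  have h8 : IsOpen {τ : GQ | σ⁻¹ * τ ∈ (adjoin ℚ ({x} : Set Om)).fixingSubgroup} :=
    hopen.preimage (continuous_const.mul continuous_id)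
  refine Filter.mem_of_superset (h8.mem_nhds (by
    change σ⁻¹ * σ ∈ (adjoin ℚ ({x} : Set Om)).fixingSubgroup
    rw [inv_mul_cancel]
    exact Subgroup.one_mem _)) fun τ hτ => ?_
  have h9 : (σ⁻¹ * τ) x = x :=
    (IntermediateField.mem_fixingSubgroup_iff _ _).1 hτ x (subset_adjoin ℚ _ rfl)
  have h10 : τ x = σ x := by
    have := congrArg σ h9
    rw [← this]
    exact (N11_apply_inv σ (τ x)).symm
  change τ x ∈ s
  rw [h10]
  exact hσ

theorem N3_cont (p : ℕ) (K : IntermediateField ℚ Om) : Continuous (N3_pi p K) := by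
  refine Continuous.subtype_mk (f := fun σ => ((N3_pi p K σ : GalGroup K (maxUnram p K)) : AutL (maxUnram p K))) ?_ _
  refine continuous_induced_rng.2 ?_
  let _ : TopologicalSpace (FL (maxUnram p K)) := ⊥
  refine continuous_pi fun x => ?_
  refine continuous_def.2 fun s _ => ?_
  have h := (N3_loc x.val {y | ∃ z ∈ s, z.val = y}).preimage
    (continuous_subtype_val : Continuous ((↑) : K.fixingSubgroup → GQ))
  refine (congrArg IsOpen ?_).mp h
  ext σ
  constructor
  · rintro ⟨z, hz, hz2⟩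
    have : z = (N3_pi p K σ : AutL (maxUnram p K)).app x := N3_ext hz2
    rw [this] at hz
    exact hz
  · intro hσ
    exact ⟨_, hσ, rfl⟩

theorem N3_t2 (p : ℕ) (K : IntermediateField ℚ Om) : T2Space (GalGroup K (maxUnram p K)) := by
  let _ : TopologicalSpace (FL (maxUnram p K)) := ⊥
  have : DiscreteTopology (FL (maxUnram p K)) := ⟨rfl⟩
  have h0 : Continuous (fun g : AutL (maxUnram p K) => g.app) := continuous_induced_dom
  have h1 : Continuous (fun g : GalGroup K (maxUnram p K) => (g : AutL (maxUnram p K)).app) :=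
    h0.comp continuous_subtype_val
  exact T2Space.of_injective_continuous (f := fun g : GalGroup K (maxUnram p K) =>
    (g : AutL (maxUnram p K)).app) (fun g h e => Subtype.ext (N3_aut_ext fun x => congrFun e x)) h1

/-- small open subgroups -/
theorem N3_small {s : Set GQ} (hs : s ∈ nhds (1 : GQ)) : ∃ U : Subgroup GQ, IsOpen (U : Set GQ) ∧ (U : Set GQ) ⊆ s := by
  rw [krullTopology_mem_nhds_one_iff] at hs
  obtain ⟨E, hE, hEs⟩ := hs
  have := hE
  exact ⟨E.fixingSubgroup, IntermediateField.fixingSubgroup_isOpen E, hEs⟩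

/-- an open set of `L(K)` which contains `1` pulls back to the trace of an open subgroup -/
theorem N3_pull (p : ℕ) (K : IntermediateField ℚ Om) {s : Set (GalGroup K (maxUnram p K))}
    (hs : IsOpen s) (h1 : 1 ∈ s) : ∃ U : Subgroup GQ, IsOpen (U : Set GQ) ∧
      ∀ u ∈ U, ∀ hu : u ∈ K.fixingSubgroup, N3_pi p K ⟨u, hu⟩ ∈ s := by
  have h2 : IsOpen (N3_pi p K ⁻¹' s) := hs.preimage (N3_cont p K)
  obtain ⟨V, hV, hVs⟩ := isOpen_induced_iff.1 h2
  have h3 : (1 : GQ) ∈ V := by
    have : (1 : K.fixingSubgroup) ∈ ((↑) : K.fixingSubgroup → GQ) ⁻¹' V := by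
      rw [hVs]
      change N3_pi p K 1 ∈ s
      rw [map_one]
      exact h1
    exact this
  obtain ⟨U, hU, hUV⟩ := N3_small (hV.mem_nhds h3)
  refine ⟨U, hU, fun u hu huK => ?_⟩
  have : (⟨u, huK⟩ : K.fixingSubgroup) ∈ ((↑) : K.fixingSubgroup → GQ) ⁻¹' V := hUV hu
  rw [hVs] at this
  exact this

theorem N3_compact (K : IntermediateField ℚ Om) : CompactSpace K.fixingSubgroup := by
  have hg : IsGalois ℚ Om := N3_gal
  have hc : CompactSpace GQ := inferInstance
  exact isCompact_iff_compactSpace.1 (InfiniteGalois.fixingSubgroup_isClosed K).isCompact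

/-- descent of characters -/
theorem N3_descent {p : ℕ} (K : IntermediateField ℚ Om) (χ : GQ → ZMod p)
    (h1 : HomOn K.fixingSubgroup χ) (h2 : LCOn K.fixingSubgroup χ) (h3 : ∀ r ∈ RL p K, χ r = 0) :
    ∃ ψ : (GalGroup K (maxUnram p K)) → ZMod p, (∀ g h, ψ (g * h) = ψ g + ψ h) ∧
      IsOpen {g | ψ g = 0} ∧ ∀ g : K.fixingSubgroup, ψ (N3_pi p K g) = χ g := by
  let s : (GalGroup K (maxUnram p K)) → K.fixingSubgroup := Function.surjInv (N3_surj p K)
  have hs : ∀ a, N3_pi p K (s a) = a := Function.surjInv_eq (N3_surj p K)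
  have key : ∀ g g' : K.fixingSubgroup, N3_pi p K g = N3_pi p K g' → χ g = χ g' := by
    intro g g' h
    have h4 : N3_pi p K (g'⁻¹ * g) = 1 := by
      rw [map_mul, map_inv, h, inv_mul_cancel]
    have h5 := h3 _ ((N3_ker p K _).1 h4)
    have h6 := h1 g' g'.2 (g'⁻¹ * g : K.fixingSubgroup) (g'⁻¹ * g).2
    have h7 : ((g' : GQ) * ((g'⁻¹ * g : K.fixingSubgroup) : GQ)) = g := by
      push_cast
      group
    rw [h7, h5, add_zero] at h6
    exact h6
  have hψ : ∀ g : K.fixingSubgroup, χ (s (N3_pi p K g)) = χ g := fun g => key _ _ (hs _)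
  refine ⟨fun a => χ (s a), ?_, ?_, hψ⟩
  · intro g h
    have e : χ (s (g * h)) = χ ((s g * s h : K.fixingSubgroup) : GQ) := by
      apply key
      rw [map_mul, hs, hs, hs]
    change χ (s (g * h)) = _
    rw [e]
    exact h1 _ (s g).2 _ (s h).2
  · have hcomp := N3_compact K
    have ht2 := N3_t2 p K
    have hcl : Topology.IsQuotientMap (N3_pi p K) :=
      ((N3_cont p K).isClosedMap).isQuotientMap (N3_cont p K) (N3_surj p K)
    rw [← hcl.isOpen_preimage]
    have e : (N3_pi p K) ⁻¹' {g | χ (s g) = 0} = {g : K.fixingSubgroup | χ g = 0} := by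
      ext g
      exact Iff.of_eq (congrArg (· = 0) (hψ g))
    rw [e]
    obtain ⟨U, hU, hUχ⟩ := h2
    rw [isOpen_iff_mem_nhds]
    intro g hg
    have h8 : IsOpen {x : K.fixingSubgroup | (g : GQ)⁻¹ * (x : GQ) ∈ U} :=
      hU.preimage (continuous_const.mul continuous_subtype_val)
    refine Filter.mem_of_superset (h8.mem_nhds (by
      change (g : GQ)⁻¹ * (g : GQ) ∈ U
      rw [inv_mul_cancel]
      exact U.one_mem)) fun x hx => ?_
    have h9 := hUχ g g.2 ((g : GQ)⁻¹ * x) hx (K.fixingSubgroup.mul_mem (K.fixingSubgroup.inv_mem g.2) x.2)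
    rw [mul_inv_cancel_left] at h9
    change χ x = 0
    rw [h9]
    exact hg

theorem lifts_of_free {p : ℕ} [Fact p.Prime] (K : IntermediateField ℚ Om)
    (hA : FreeGal p K) :
    Lift1 p K.fixingSubgroup (RL p K) ∧ Lift2 p K.fixingSubgroup (RL p K) := by
  classical
  constructor
  · intro χ h1 h2 h3
    obtain ⟨ψ, p1, p2, p3⟩ := N3_descent K χ h1 h2 h3
    obtain ⟨ψ', q1, q2, q3⟩ := free_lift1 hA ψ p1 p2
    have q10 : ψ' 1 = 0 := by
      have := q1 1 1
      rw [mul_one] at this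
      simpa using this
    let χ' : GQ → ZMod (p ^ 2) := fun g => if h : g ∈ K.fixingSubgroup then ψ' (N3_pi p K ⟨g, h⟩) else 0
    have hχ' : ∀ g (h : g ∈ K.fixingSubgroup), χ' g = ψ' (N3_pi p K ⟨g, h⟩) := fun g h => dif_pos h
    have hom : HomOn K.fixingSubgroup χ' := by
      intro g hg h hh
      rw [hχ' _ (mul_mem hg hh), hχ' _ hg, hχ' _ hh, ← q1, ← map_mul]
      rfl
    refine ⟨χ', hom, ?_, ?_, ?_⟩
    · obtain ⟨U, hU, hUs⟩ := N3_pull p K q2 q10
      refine ⟨U, hU, fun g hg u hu huK => ?_⟩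
      rw [hom g hg u huK, hχ' u huK]
      have : ψ' (N3_pi p K ⟨u, huK⟩) = 0 := hUs u hu huK
      rw [this, add_zero]
    · intro r hr
      have hrK := RL_le p K hr
      rw [hχ' r hrK, (N3_ker p K ⟨r, hrK⟩).2 hr, q10]
    · intro g hg
      rw [hχ' g hg, q3, p3]
  · intro χ ζ h1 h2 h3 h1' h2' h3'
    obtain ⟨ψ, p1, p2, p3⟩ := N3_descent K χ h1 h2 h3
    obtain ⟨ξ, r1, r2, r3⟩ := N3_descent K ζ h1' h2' h3'
    obtain ⟨φ', ⟨U', hU', hφU⟩, q2⟩ := free_lift2 hA ψ ξ p1 p2 r1 r2
    have ψ1 : ψ 1 = 0 := by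
      have := p1 1 1
      rw [mul_one] at this
      simpa using this
    have q10 : φ' 1 = 0 := by
      have := q2 1 1
      rw [mul_one, ψ1, zero_mul, add_zero] at this
      simpa using this
    let φ : GQ → ZMod p := fun g => if h : g ∈ K.fixingSubgroup then φ' (N3_pi p K ⟨g, h⟩) else 0
    have hφ : ∀ g (h : g ∈ K.fixingSubgroup), φ g = φ' (N3_pi p K ⟨g, h⟩) := fun g h => dif_pos h
    refine ⟨φ, ?_, ?_, ?_⟩
    · obtain ⟨U, hU, hUs⟩ := N3_pull p K hU' U'.one_mem
      refine ⟨U, hU, fun g hg u hu huK => ?_⟩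
      rw [hφ _ (mul_mem hg huK), hφ g hg, ← hφU (N3_pi p K ⟨g, hg⟩) _ (hUs u hu huK), ← map_mul]
      rfl
    · intro r hr
      have hrK := RL_le p K hr
      rw [hφ r hrK, (N3_ker p K ⟨r, hrK⟩).2 hr, q10]
    · intro g hg h hh
      rw [hφ _ (mul_mem hg hh), hφ g hg, hφ h hh, ← p3 ⟨g, hg⟩, ← r3 ⟨h, hh⟩, ← q2, ← map_mul]
      rfl

end OzakiFree
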