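import Pool.Agent.Lib.MP_6e8030_nt.Base
import Pool.Agent.Lib.MP_6e8030_nt.R4

open IntermediateField
open scoped ComplexConjugate

noncomputable section

namespace OzakiFree

/-! ### R7: ramification at p (p odd) -/

/-- an embedding of `Om` into the algebraic closure of `ℚ_p` -/
def R7_emb (p : ℕ) [Fact p.Prime] : Om →ₐ[ℚ] PadicAlgCl p := IsAlgClosed.lift

theorem R7_norm_le {p : ℕ} [Fact p.Prime] (z : integralClosure ℤ Om) :
    ‖R7_emb p (z : Om)‖ ≤ 1 := by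
  have h1 : IsIntegral ℤ (R7_emb p (z : Om)) := by
    have hz : IsIntegral ℤ (z : Om) := z.2
    exact hz.map ((R7_emb p).restrictScalars ℤ)
  have h2 : IsIntegral (Valued.v (R := PadicAlgCl p)).integer (R7_emb p (z : Om)) := h1.tower_top
  have h3 := (Valuation.integer.integers (Valued.v (R := PadicAlgCl p))).mem_of_integral h2
  have h4 : Valued.v (R7_emb p (z : Om)) ≤ 1 := h3
  rw [← PadicAlgCl.valuation_coe]
  exact_mod_cast h4

/-- the maximal ideal of the algebraic integers given by the embedding -/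
def R7_B (p : ℕ) [Fact p.Prime] : Ideal (integralClosure ℤ Om) where
  carrier := {z | ‖R7_emb p (z : Om)‖ < 1}
  add_mem' := by
    intro a b ha hb
    have h := PadicAlgCl.isNonarchimedean p (R7_emb p (a : Om)) (R7_emb p (b : Om))
    show ‖R7_emb p ((a + b : integralClosure ℤ Om) : Om)‖ < 1
    have e : ((a + b : integralClosure ℤ Om) : Om) = a + b := rfl
    rw [e, map_add]
    exact lt_of_le_of_lt h (max_lt ha hb)
  zero_mem' := by
    show ‖R7_emb p ((0 : integralClosure ℤ Om) : Om)‖ < 1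
    have e : ((0 : integralClosure ℤ Om) : Om) = 0 := rfl
    rw [e, map_zero, norm_zero]
    exact zero_lt_one
  smul_mem' := by
    intro c a ha
    show ‖R7_emb p ((c * a : integralClosure ℤ Om) : Om)‖ < 1
    have e : ((c * a : integralClosure ℤ Om) : Om) = c * a := rfl
    rw [e, map_mul, norm_mul]
    exact lt_of_le_of_lt (mul_le_of_le_one_left (norm_nonneg _) (R7_norm_le c)) ha

theorem R7_mem_B {p : ℕ} [Fact p.Prime] (z : integralClosure ℤ Om) :
    z ∈ R7_B p ↔ ‖R7_emb p (z : Om)‖ < 1 := Iff.rfl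

theorem R7_p_mem {p : ℕ} [Fact p.Prime] : (p : integralClosure ℤ Om) ∈ R7_B p := by
  rw [R7_mem_B]
  have e : (((p : integralClosure ℤ Om)) : Om) = (p : Om) := by
    simp
  rw [e, map_natCast, ← map_natCast (algebraMap ℚ_[p] (PadicAlgCl p)), norm_algebraMap']
  exact Padic.norm_p_lt_one

theorem R7_B_maximal {p : ℕ} [Fact p.Prime] : (R7_B p).IsMaximal := by
  have hprime : (R7_B p).IsPrime := by
    refine Ideal.IsPrime.mk ?_ ?_
    · intro h
      have h1 : (1 : integralClosure ℤ Om) ∈ R7_B p := by rw [h]; trivial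
      rw [R7_mem_B] at h1
      have e : ((1 : integralClosure ℤ Om) : Om) = 1 := rfl
      rw [e, map_one, norm_one] at h1
      exact lt_irrefl _ h1
    · intro x y hxy
      rw [R7_mem_B] at hxy
      have e : ((x * y : integralClosure ℤ Om) : Om) = x * y := rfl
      rw [e, map_mul, norm_mul] at hxy
      by_contra hcon
      rw [not_or, R7_mem_B, R7_mem_B, not_lt, not_lt] at hcon
      have : 1 ≤ ‖R7_emb p (x : Om)‖ * ‖R7_emb p (y : Om)‖ :=
        one_le_mul_of_one_le_of_one_le hcon.1 hcon.2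
      linarith
  refine Ideal.isMaximal_of_isIntegral_of_isMaximal_comap (R := ℤ) (R7_B p) ?_
  have hp1 : ((R7_B p).comap (algebraMap ℤ (integralClosure ℤ Om))).IsPrime := Ideal.comap_isPrime _ _
  refine hp1.isMaximal ?_
  intro h
  have : (p : ℤ) ∈ (R7_B p).comap (algebraMap ℤ (integralClosure ℤ Om)) := by
    rw [Ideal.mem_comap, map_natCast]
    exact R7_p_mem
  rw [h, Ideal.mem_bot] at this
  exact (Nat.cast_ne_zero.mpr (Fact.out : p.Prime).ne_zero) this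

theorem R7_restrict {p : ℕ} [Fact p.Prime] (τ : PadicAlgCl p ≃ₐ[ℚ_[p]] PadicAlgCl p) :
    ∃ d : GQ, ∀ z : Om, R7_emb p (d z) = τ (R7_emb p z) := by
  let _ : Algebra Om (PadicAlgCl p) := (R7_emb p).toRingHom.toAlgebra
  have : IsScalarTower ℚ Om (PadicAlgCl p) :=
    IsScalarTower.of_algebraMap_eq fun x => ((R7_emb p).commutes x).symm
  refine ⟨(τ.restrictScalars ℚ).restrictNormal Om, fun z => ?_⟩
  exact AlgEquiv.restrictNormal_commutes (τ.restrictScalars ℚ) Om z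

theorem R7_norm_eq {p : ℕ} [Fact p.Prime] (τ : PadicAlgCl p ≃ₐ[ℚ_[p]] PadicAlgCl p)
    (y : PadicAlgCl p) : ‖τ y‖ = ‖y‖ := (spectralNorm_eq_of_equiv τ y).symm

theorem R7_zeta_pow {p : ℕ} (hp : p.Prime) (z : integralClosure ℤ Om) (hz : IsPrimitiveRoot z p) :
    ∃ w : integralClosure ℤ Om, IsUnit w ∧ (z - 1) ^ (p - 1) = (p : integralClosure ℤ Om) ^ 1 * w := by
  obtain ⟨n, rfl⟩ : ∃ n, p = n + 1 := ⟨p - 1, by have := hp.pos; omega⟩
  have h1 := hz.prod_pow_sub_one_eq_order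
  have h2 : ∀ k ∈ Finset.range n, ∃ u : (integralClosure ℤ Om)ˣ, z ^ (k + 1) - 1 = (z - 1) * u := by
    intro k hk
    rw [Finset.mem_range] at hk
    have hc : (k + 1).Coprime (n + 1) :=
      Nat.Coprime.symm ((Nat.Prime.coprime_iff_not_dvd hp).mpr
        (Nat.not_dvd_of_pos_of_lt (Nat.succ_pos k) (by omega)))
    obtain ⟨u, hu⟩ := hz.associated_sub_one_pow_sub_one_of_coprime hc
    exact ⟨u, hu.symm⟩
  choose! u hu using h2
  rw [Finset.prod_congr rfl hu, Finset.prod_mul_distrib, Finset.prod_const, Finset.card_range] at h1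
  set U : (integralClosure ℤ Om)ˣ := (-1) ^ n * ∏ k ∈ Finset.range n, u k with hU
  have h3 : (U : integralClosure ℤ Om) * (z - 1) ^ n = ((n + 1 : ℕ) : integralClosure ℤ Om) := by
    rw [hU]
    push_cast
    rw [← h1]
    ring
  refine ⟨(U⁻¹ : (integralClosure ℤ Om)ˣ), Units.isUnit _, ?_⟩
  rw [pow_one, ← h3, Nat.add_sub_cancel]
  rw [mul_comm (U : integralClosure ℤ Om), mul_assoc, Units.mul_inv, mul_one]

theorem R7_moves {p : ℕ} (hp : p.Prime) (hp2 : p ≠ 2) (B : Ideal (integralClosure ℤ Om))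
    (hB : B.IsMaximal) (hpB : (p : integralClosure ℤ Om) ∈ B) (ζ : Om) (hζ : IsPrimitiveRoot ζ p) :
    ∃ i ∈ B.inertia GQ, i ζ ≠ ζ := by
  by_contra hcon
  push Not at hcon
  have : NeZero p := ⟨hp.ne_zero⟩
  have hcyc : IsCyclotomicExtension {p} ℚ (adjoin ℚ {ζ} : IntermediateField ℚ Om) :=
    hζ.intermediateField_adjoin_isCyclotomicExtension ℚ
  have : FiniteDimensional ℚ (adjoin ℚ {ζ} : IntermediateField ℚ Om) :=
    IsCyclotomicExtension.finiteDimensional {p} ℚ _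
  have : IsGalois ℚ (adjoin ℚ {ζ} : IntermediateField ℚ Om) :=
    IsCyclotomicExtension.isGalois {p} ℚ _
  have hI : ∀ t ∈ B.inertia GQ, ∀ x ∈ (adjoin ℚ {ζ} : IntermediateField ℚ Om), t x = x := by
    intro t ht x hx
    induction hx using IntermediateField.adjoin_induction with
    | mem x hx => rw [Set.mem_singleton_iff.mp hx]; exact hcon t ht
    | algebraMap x => exact t.commutes x
    | add x y _ _ h1 h2 => rw [map_add, h1, h2]
    | inv x _ h1 => rw [map_inv₀, h1]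
    | mul x y _ _ h1 h2 => rw [map_mul, h1, h2]
  have hint : IsIntegral ℤ ζ := hζ.isIntegral hp.pos
  have hz : IsPrimitiveRoot (⟨ζ, hint⟩ : integralClosure ℤ Om) p := by
    refine IsPrimitiveRoot.of_map_of_injective (f := algebraMap (integralClosure ℤ Om) Om) ?_
      (FaithfulSMul.algebraMap_injective _ _)
    exact hζ
  obtain ⟨w, hw, h⟩ := R7_zeta_pow hp _ hz
  have hmem : (((⟨ζ, hint⟩ : integralClosure ℤ Om) - 1 : integralClosure ℤ Om) : Om) ∈
      (adjoin ℚ {ζ} : IntermediateField ℚ Om) :=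
    sub_mem (mem_adjoin_simple_self ℚ ζ) (one_mem _)
  have hd := unr _ p hp B hB hpB hI _ w hmem (p - 1) 1
    (fun hwB => hB.ne_top (Ideal.eq_top_of_isUnit_mem _ hwB hw)) h
  have := Nat.dvd_one.mp hd
  have := hp.two_le
  omega

theorem R7_comm {m : ℕ} (hm : m ≠ 0) (σ τ : GQ) (ζ : Om) (hζ : ζ ^ m = 1) :
    σ (τ ζ) = τ (σ ζ) := by
  have : NeZero m := ⟨hm⟩
  obtain ⟨a, ha⟩ := map_rootsOfUnity_eq_pow_self σ (rootsOfUnity.mkOfPowEq ζ hζ)
  obtain ⟨b, hb⟩ := map_rootsOfUnity_eq_pow_self τ (rootsOfUnity.mkOfPowEq ζ hζ)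
  simp only [rootsOfUnity.val_mkOfPowEq_coe] at ha hb
  rw [ha, hb, map_pow, map_pow, ha, hb, ← pow_mul, ← pow_mul, mul_comm]

theorem R7_fix_mu {p : ℕ} (c : GQ) (h : ∀ ζ ∈ muInf p, c ζ = ζ) : c ∈ Pmu p := by
  unfold Pmu
  rw [IntermediateField.mem_fixingSubgroup_iff]
  intro x hx
  induction hx using IntermediateField.adjoin_induction with
  | mem x hx => exact h x hx
  | algebraMap x => exact c.commutes x
  | add x y _ _ h1 h2 => rw [map_add, h1, h2]
  | inv x _ h1 => rw [map_inv₀, h1]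
  | mul x y _ _ h1 h2 => rw [map_mul, h1, h2]

theorem R7_arith {p : ℕ} [Fact p.Prime] (b : ℤ) (hb : b ≠ 0) (y : ℚ_[p])
    (hy : y ^ p = (b : ℚ_[p])) :
    ∃ (k : ℕ) (b' : ℤ), b = (p : ℤ) ^ (p * k) * b' ∧ b' ^ (p - 1) ≡ 1 [ZMOD (p ^ 2 : ℕ)] := by
  have hp : p.Prime := Fact.out
  have hn : ‖y‖ ≤ 1 := by
    by_contra hcon
    push Not at hcon
    have h1 : 1 < ‖y‖ ^ p := one_lt_pow₀ hcon hp.ne_zero
    rw [← norm_pow, hy] at h1
    exact absurd (Padic.norm_int_le_one b) (not_le.mpr h1)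
  obtain ⟨z, hz⟩ : ∃ z : ℤ_[p], (z : ℚ_[p]) = y := ⟨⟨y, hn⟩, rfl⟩
  have hzb : z ^ p = (b : ℤ_[p]) := by
    apply Subtype.ext
    rw [PadicInt.coe_pow, hz, hy, PadicInt.coe_intCast]
  have hz0 : z ≠ 0 := by
    rintro rfl
    rw [zero_pow hp.ne_zero] at hzb
    exact hb (by exact_mod_cast hzb.symm)
  have hu := PadicInt.unitCoeff_spec hz0
  set u := PadicInt.unitCoeff hz0 with hudef
  set k := z.valuation with hk
  have h1 : (b : ℤ_[p]) = (p : ℤ_[p]) ^ (p * k) * (u : ℤ_[p]) ^ p := by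
    rw [← hzb]
    conv_lhs => rw [hu]
    rw [mul_pow, ← pow_mul, mul_comm k p, mul_comm]
  have hdvd : ((p : ℤ) ^ (p * k)) ∣ b := by
    rw [← PadicInt.pow_p_dvd_int_iff]
    exact ⟨_, h1⟩
  obtain ⟨b', hb'⟩ := hdvd
  refine ⟨k, b', hb', ?_⟩
  have hp0 : (p : ℤ_[p]) ^ (p * k) ≠ 0 := pow_ne_zero _ (Nat.cast_ne_zero.mpr hp.ne_zero)
  have h2 : (b' : ℤ_[p]) = (u : ℤ_[p]) ^ p := by
    apply mul_left_cancel₀ hp0
    rw [← h1, hb']
    push_cast
    ring
  have h3 : ((b' : ℤ) : ZMod (p ^ 2)) = (PadicInt.toZModPow 2 (u : ℤ_[p])) ^ p := by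
    rw [← map_pow, ← h2, map_intCast]
  rw [← ZMod.intCast_eq_intCast_iff]
  push_cast
  rw [h3, ← pow_mul]
  have h4 := ZMod.pow_totient (Units.map (PadicInt.toZModPow (p := p) 2).toMonoidHom u)
  rw [Nat.totient_prime_pow hp (by norm_num)] at h4
  have h5 := congrArg Units.val h4
  simpa using h5

theorem kummer_unram_at_p {p : ℕ} (hp : p.Prime) (hp2 : p ≠ 2) (b : ℤ) (hb : b ≠ 0) (x : Om)
    (hx : x ^ p = (b : Om))
    (h : ∀ B : Ideal (integralClosure ℤ Om), B.IsMaximal → (p : integralClosure ℤ Om) ∈ B →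
      ∀ t ∈ B.inertia GQ, t ∈ Pmu p → t x = x) :
    ∃ (k : ℕ) (b' : ℤ), b = (p : ℤ) ^ (p * k) * b' ∧ b' ^ (p - 1) ≡ 1 [ZMOD (p ^ 2 : ℕ)] := by
  have hfact : Fact p.Prime := ⟨hp⟩
  have : NeZero p := ⟨hp.ne_zero⟩
  obtain ⟨ζ, hζ⟩ := HasEnoughRootsOfUnity.exists_primitiveRoot Om p
  obtain ⟨i, hi, hiζ⟩ := R7_moves hp hp2 (R7_B p) R7_B_maximal R7_p_mem ζ hζ
  have hx0 : x ≠ 0 := by
    rintro rfl
    rw [zero_pow hp.ne_zero] at hx
    exact hb (by exact_mod_cast hx.symm)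
  -- a root of `X ^ p = b` fixed by `i`
  obtain ⟨j, hj⟩ : ∃ j : ℕ, i (ζ ^ j * x) = ζ ^ j * x := by
    obtain ⟨g, -, hg⟩ := hζ.eq_pow_of_pow_eq_one (ξ := i ζ) (by rw [← map_pow, hζ.pow_eq_one, map_one])
    obtain ⟨a, -, ha⟩ := hζ.eq_pow_of_pow_eq_one (ξ := i x / x) (by
      rw [div_pow, ← map_pow, hx, map_intCast, div_self]
      exact Int.cast_ne_zero.mpr hb)
    have hg1 : (g : ZMod p) ≠ 1 := by
      intro hg1
      apply hiζ
      rw [← hg]
      have h1 : g ≡ 1 [MOD p] := by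
        rw [← ZMod.natCast_eq_natCast_iff, hg1, Nat.cast_one]
      have h2 : ζ ^ g = ζ ^ 1 := pow_eq_pow_of_modEq h1 hζ.pow_eq_one
      rw [h2, pow_one]
    have hia : i x = ζ ^ a * x := by rw [ha, div_mul_cancel₀ _ hx0]
    refine ⟨(-(a : ZMod p) * ((g : ZMod p) - 1)⁻¹).val, ?_⟩
    rw [map_mul, map_pow, ← hg, hia, ← mul_assoc, ← pow_mul, ← pow_add]
    congr 1
    refine pow_eq_pow_of_modEq ?_ hζ.pow_eq_one
    rw [← ZMod.natCast_eq_natCast_iff]
    push_cast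
    rw [ZMod.natCast_val, ZMod.cast_id]
    have : (g : ZMod p) - 1 ≠ 0 := sub_ne_zero.mpr hg1
    field_simp
    ring
  set x' := ζ ^ j * x with hx'
  have hx'p : x' ^ p = (b : Om) := by
    rw [hx', mul_pow, ← pow_mul, mul_comm j p, pow_mul, hζ.pow_eq_one, one_pow, one_mul, hx]
  have hx'0 : x' ≠ 0 := mul_ne_zero (pow_ne_zero _ (hζ.ne_zero hp.ne_zero)) hx0
  -- uniqueness
  have huniq : ∀ y : Om, y ^ p = (b : Om) → i y = y → y = x' := by
    intro y hy hiy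
    by_contra hne
    have h1 : (y / x') ^ p = 1 := by
      rw [div_pow, hy, hx'p, div_self]
      exact Int.cast_ne_zero.mpr hb
    have h2 : y / x' ≠ 1 := fun h => hne ((div_eq_one_iff_eq hx'0).mp h)
    have h3 : IsPrimitiveRoot (y / x') p := by
      have := orderOf_eq_prime h1 h2
      rw [← this]
      exact IsPrimitiveRoot.orderOf _
    obtain ⟨m, -, hm⟩ := h3.eq_pow_of_pow_eq_one hζ.pow_eq_one
    apply hiζ
    rw [← hm, map_pow, map_div₀, hiy, hj]
  -- the decomposition group fixes `x'`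
  have hdec : ∀ d : GQ, (∀ z : integralClosure ℤ Om, z ∈ R7_B p ↔ d • z ∈ R7_B p) → d x' = x' := by
    intro d hd
    have hc1 : d⁻¹ * i * d ∈ (R7_B p).inertia GQ := by
      intro z
      have h1 := hi (d • z)
      have h2 : (d⁻¹ * i * d) • z - z = d⁻¹ • (i • (d • z) - d • z) := by
        rw [smul_sub, mul_smul, mul_smul, inv_smul_smul]
      show (d⁻¹ * i * d) • z - z ∈ R7_B p
      rw [h2, hd, smul_inv_smul]
      exact h1
    have hc2 : d⁻¹ * i * d * i⁻¹ ∈ (R7_B p).inertia GQ := mul_mem hc1 (inv_mem hi)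
    have hc3 : ∀ ζ' ∈ muInf p, (d⁻¹ * i * d * i⁻¹) ζ' = ζ' := by
      rintro ζ' ⟨m, hm⟩
      have hm0 : p ^ m ≠ 0 := pow_ne_zero _ hp.ne_zero
      have hm' : (i⁻¹ ζ') ^ (p ^ m) = 1 := by rw [← map_pow, hm, map_one]
      show d⁻¹ (i (d (i⁻¹ ζ'))) = ζ'
      rw [R7_comm hm0 i d _ hm']
      have e1 : i (i⁻¹ ζ') = ζ' := AlgEquiv.apply_symm_apply i ζ'
      have e2 : d⁻¹ (d ζ') = ζ' := AlgEquiv.symm_apply_apply d ζ'
      rw [e1, e2]
    have hc4 := h (R7_B p) R7_B_maximal R7_p_mem _ hc2 (R7_fix_mu _ hc3)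
    have hc5 := hc3 ζ ⟨1, by rw [pow_one, hζ.pow_eq_one]⟩
    have hc6 : (d⁻¹ * i * d * i⁻¹) x' = x' := by
      rw [hx', map_mul, map_pow, hc4, hc5]
    have hc7 : d⁻¹ (i (d (i⁻¹ x'))) = x' := hc6
    have hc8 : i⁻¹ x' = x' := by
      have e1 : i⁻¹ (i x') = x' := AlgEquiv.symm_apply_apply i x'
      rw [hj] at e1
      exact e1
    rw [hc8] at hc7
    have hc9 : i (d x') = d x' := by
      have e1 : d (d⁻¹ (i (d x'))) = i (d x') := AlgEquiv.apply_symm_apply d _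
      rw [hc7] at e1
      exact e1.symm
    exact huniq _ (by rw [← map_pow, hx'p, map_intCast]) hc9
  -- `x'` is a `p`-adic number
  have hfix : ∀ τ : PadicAlgCl p ≃ₐ[ℚ_[p]] PadicAlgCl p, τ (R7_emb p x') = R7_emb p x' := by
    intro τ
    obtain ⟨d, hd⟩ := R7_restrict τ
    rw [← hd, hdec d]
    intro z
    rw [R7_mem_B, R7_mem_B]
    have e : ((d • z : integralClosure ℤ Om) : Om) = d z := rfl
    rw [e, hd, R7_norm_eq]
  obtain ⟨y, hy⟩ := (InfiniteGalois.mem_range_algebraMap_iff_fixed (R7_emb p x')).mpr hfix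
  refine R7_arith b hb y ?_
  have h1 : algebraMap ℚ_[p] (PadicAlgCl p) (y ^ p) = algebraMap ℚ_[p] (PadicAlgCl p) (b : ℚ_[p]) := by
    rw [map_pow, hy, ← map_pow, hx'p, map_intCast, map_intCast]
  exact (algebraMap ℚ_[p] (PadicAlgCl p)).injective h1

end OzakiFree
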