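import Pool.Agent.Lib.MP_6e8030_nt.EBase
import Pool.Agent.Lib.MP_6e8030_nt.R4
import Pool.Agent.Lib.MP_6e8030_nt.R7
import Pool.Agent.Lib.MP_6e8030_nt.R10a
import Pool.Agent.Lib.MP_6e8030_nt.N3

open IntermediateField
open scoped ComplexConjugate Pointwise

noncomputable section

namespace OzakiFree

private theorem E6_charP {p : ℕ} (hp : p.Prime) (B : Ideal ZO) (hB : B.IsMaximal)
    (hpB : (p : ZO) ∈ B) : CharP (ZO ⧸ B) p := by
  have : Nontrivial (ZO ⧸ B) := Ideal.Quotient.nontrivial_iff.2 hB.ne_top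
  refine (CharP.charP_iff_prime_eq_zero hp).2 ?_
  rw [← map_natCast (Ideal.Quotient.mk B)]
  exact Ideal.Quotient.eq_zero_iff_mem.2 hpB

/-- `p`-power roots of unity are `1` modulo `B` -/
private theorem E6_zeta {p : ℕ} (hp : p.Prime) (B : Ideal ZO) (hB : B.IsMaximal)
    (hpB : (p : ZO) ∈ B) (m : ℕ) (z : ZO) (hz : z ^ (p ^ m) = 1) :
    Ideal.Quotient.mk B z = 1 := by
  have := E6_charP hp B hB hpB
  have : Fact p.Prime := ⟨hp⟩
  have := hB.isPrime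
  have h1 : (Ideal.Quotient.mk B z - 1) ^ (p ^ m) = 0 := by
    rw [sub_pow_char_pow, ← map_pow, hz, map_one, one_pow, sub_self]
  have h2 := eq_zero_of_pow_eq_zero h1
  exact sub_eq_zero.1 h2

/-- an element of `Gal(Om/ℚ)` moves an algebraic integer of `ℚ(μ_{p^m})` into its class mod `B` -/
private theorem E6_cong {p : ℕ} (hp : p.Prime) (B : Ideal ZO) (hB : B.IsMaximal)
    (hpB : (p : ZO) ∈ B) (m : ℕ) (ζ : Om) (hζ : IsPrimitiveRoot ζ (p ^ m)) (σ : GQ)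
    (z : ZO) (hz : (z : Om) ∈ (adjoin ℚ {ζ} : IntermediateField ℚ Om)) : σ • z - z ∈ B := by
  have hfp : Fact p.Prime := ⟨hp⟩
  have : NeZero (p ^ m) := ⟨pow_ne_zero _ hp.ne_zero⟩
  have hcyc : IsCyclotomicExtension {p ^ m} ℚ (adjoin ℚ {ζ} : IntermediateField ℚ Om) :=
    hζ.intermediateField_adjoin_isCyclotomicExtension ℚ
  set N : IntermediateField ℚ Om := adjoin ℚ {ζ} with hN
  let ζN : N := ⟨ζ, mem_adjoin_simple_self ℚ ζ⟩
  have hζN : IsPrimitiveRoot ζN (p ^ m) := by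
    refine IsPrimitiveRoot.of_map_of_injective (f := N.val) ?_ N.val.injective
    exact hζ
  have hic := IsCyclotomicExtension.Rat.isIntegralClosure_adjoin_singleton_of_prime_pow hζN
  have hint : IsIntegral ℤ ζ := hζ.isIntegral (pow_pos hp.pos m)
  have hzN : IsIntegral ℤ (⟨(z : Om), hz⟩ : N) := by
    refine (isIntegral_algHom_iff (N.val.restrictScalars ℤ) N.val.injective).1 ?_
    exact z.2
  obtain ⟨y, hy⟩ := hic.isIntegral_iff.1 hzN
  have hy2 : (y : N) ∈ (Polynomial.aeval (R := ℤ) ζN).range := by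
    rw [← Algebra.adjoin_singleton_eq_range_aeval]
    exact y.2
  obtain ⟨f, hf⟩ := hy2
  let ζ' : ZO := ⟨ζ, hint⟩
  have h1 : z = Polynomial.eval₂ (Int.castRingHom ZO) ζ' f := by
    apply Subtype.ext
    have e1 : ((Polynomial.eval₂ (Int.castRingHom ZO) ζ' f : ZO) : Om) =
        Polynomial.eval₂ (Int.castRingHom Om) ζ f := by
      have := Polynomial.hom_eval₂ f (Int.castRingHom ZO) ((integralClosure ℤ Om).val : ZO →+* Om) ζ'
      refine Eq.trans this ?_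
      congr 1
    have e2 : (z : Om) = Polynomial.eval₂ (Int.castRingHom Om) ζ f := by
      have e3 : (z : Om) = N.val (⟨(z : Om), hz⟩ : N) := rfl
      have e4 : (⟨(z : Om), hz⟩ : N) = Polynomial.aeval ζN f := hy.symm.trans hf.symm
      rw [e3, e4, Polynomial.aeval_def]
      have := Polynomial.hom_eval₂ f (algebraMap ℤ N) (N.val : N →+* Om) ζN
      refine Eq.trans this ?_
      congr 1
    rw [e1, e2]
  have hmk : ∀ τ : GQ, Ideal.Quotient.mk B (τ • z) =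
      Polynomial.eval₂ (Int.castRingHom (ZO ⧸ B)) 1 f := by
    intro τ
    have e1 : τ • z = Polynomial.eval₂ (Int.castRingHom ZO) (τ • ζ') f := by
      conv_lhs => rw [h1]
      have := Polynomial.hom_eval₂ f (Int.castRingHom ZO)
        (MulSemiringAction.toRingHom GQ ZO τ) ζ'
      refine Eq.trans this ?_
      congr 1
      exact RingHom.ext_int _ _
    rw [e1, Polynomial.hom_eval₂]
    congr 1
    refine E6_zeta hp B hB hpB m _ ?_
    rw [← smul_pow']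
    have : ζ' ^ (p ^ m) = 1 := Subtype.ext hζ.pow_eq_one
    rw [this, smul_one]
  rw [← Ideal.Quotient.eq]
  have h3 := hmk 1
  rw [one_smul] at h3
  rw [hmk σ, h3]

private theorem E6_closed (x : Om) (s : Set Om) : IsClosed {σ : GQ | σ x ∈ s} := by
  refine ⟨?_⟩
  exact N3_loc x sᶜ

/-- Frobenius elements at `B` exist -/
private theorem E6_frob {p : ℕ} (hp : p.Prime) (B : Ideal ZO) (hB : B.IsMaximal)
    (hpB : (p : ZO) ∈ B) : ∃ φ : GQ, ∀ z : ZO, φ • z - z ^ p ∈ B := by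
  classical
  have hchar := E6_charP hp B hB hpB
  have hfp : Fact p.Prime := ⟨hp⟩
  have := hB.isPrime
  let N : IntermediateField ℚ Om := ⊥
  let : TopologicalSpace (integralClosure ℤ Om) := ⊥
  have : DiscreteTopology (integralClosure ℤ Om) := ⟨rfl⟩
  have : ContinuousSMul (Om ≃ₐ[N] Om) (integralClosure ℤ Om) := by
    rw [continuousSMul_iff_stabilizer_isOpen]
    intro x
    have h1 := stabilizer_isOpen_of_isIntegral (K := N) (L := Om) (x : Om)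
    convert h1 using 1
    ext g
    constructor
    · intro h
      exact congrArg Subtype.val h
    · intro h
      exact Subtype.ext h
  have hbij : Function.Bijective (frobenius (integralClosure ℤ Om ⧸ B) p) := by
    constructor
    · exact frobenius_inj _ p
    · intro y
      obtain ⟨z, rfl⟩ := Ideal.Quotient.mk_surjective y
      obtain ⟨w, hw⟩ := IsAlgClosed.exists_pow_nat_eq (z : Om) hp.pos
      have hwint : IsIntegral ℤ w := by
        refine IsIntegral.of_pow hp.pos ?_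
        rw [hw]
        exact z.2
      refine ⟨Ideal.Quotient.mk B ⟨w, hwint⟩, ?_⟩
      rw [frobenius_def, ← map_pow]
      congr 1
      exact Subtype.ext hw
  let e : (integralClosure ℤ Om ⧸ B) ≃ₐ[R4A N ⧸ B.under (R4A N)] (integralClosure ℤ Om ⧸ B) :=
    { __ := RingEquiv.ofBijective (frobenius (integralClosure ℤ Om ⧸ B) p) hbij
      commutes' := by
        rintro ⟨z⟩
        change (Ideal.Quotient.mk B (z : integralClosure ℤ Om)) ^ p =
          Ideal.Quotient.mk B (z : integralClosure ℤ Om)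
        obtain ⟨r, hr⟩ := IntermediateField.mem_bot.1 z.2
        have hint : IsIntegral ℤ r := by
          refine (isIntegral_algebraMap_iff (algebraMap ℚ Om).injective).mp ?_
          rw [hr]
          exact (z : integralClosure ℤ Om).2
        obtain ⟨n, hn⟩ := IsIntegrallyClosed.isIntegral_iff.mp hint
        have h1 : (z : integralClosure ℤ Om) = (n : integralClosure ℤ Om) := by
          apply Subtype.ext
          refine Eq.trans hr.symm ?_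
          rw [← hn]
          simp
        rw [h1, map_intCast]
        have := map_intCast (frobenius (integralClosure ℤ Om ⧸ B) p) n
        rwa [frobenius_def] at this }
  obtain ⟨s, hs⟩ := Ideal.Quotient.stabilizerHom_surjective_of_profinite
    (G := (Om ≃ₐ[N] Om)) (B.under (R4A N)) B e
  refine ⟨AlgEquiv.restrictScalars ℚ (s : Om ≃ₐ[N] Om), fun z => ?_⟩
  rw [← Ideal.Quotient.eq]
  have := DFunLike.congr_fun hs (Ideal.Quotient.mk B z)
  refine Eq.trans this ?_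
  rw [map_pow]
  rfl

/-- total ramification of `μ_{p^m}` -/
private theorem E6_inert {p : ℕ} (hp : p.Prime) (B : Ideal ZO) (hB : B.IsMaximal)
    (hpB : (p : ZO) ∈ B) (m : ℕ) (σ : GQ) :
    ∃ t ∈ B.inertia GQ, ∀ ξ : Om, ξ ^ (p ^ m) = 1 → t ξ = σ ξ := by
  have hfp : Fact p.Prime := ⟨hp⟩
  have : NeZero (p ^ m) := ⟨pow_ne_zero _ hp.ne_zero⟩
  obtain ⟨ζ, hζ⟩ := HasEnoughRootsOfUnity.exists_primitiveRoot Om (p ^ m)
  have hcyc : IsCyclotomicExtension {p ^ m} ℚ (adjoin ℚ {ζ} : IntermediateField ℚ Om) :=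
    hζ.intermediateField_adjoin_isCyclotomicExtension ℚ
  have : FiniteDimensional ℚ (adjoin ℚ {ζ} : IntermediateField ℚ Om) :=
    IsCyclotomicExtension.finiteDimensional {p ^ m} ℚ _
  have : IsGalois ℚ (adjoin ℚ {ζ} : IntermediateField ℚ Om) :=
    IsCyclotomicExtension.isGalois {p ^ m} ℚ _
  obtain ⟨t, ht, ht'⟩ := inertia_surj (adjoin ℚ {ζ} : IntermediateField ℚ Om) B hB
    (σ.restrictNormal _) (fun z hz => by
      refine ⟨σ • z - z, E6_cong hp B hB hpB m ζ hζ σ z hz, ?_⟩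
      have := AlgEquiv.restrictNormal_commutes σ (adjoin ℚ {ζ} : IntermediateField ℚ Om)
        ⟨(z : Om), hz⟩
      have h2 : ((σ.restrictNormal (adjoin ℚ {ζ} : IntermediateField ℚ Om) ⟨(z : Om), hz⟩ :
        (adjoin ℚ {ζ} : IntermediateField ℚ Om)) : Om) = σ (z : Om) := this
      rw [h2]
      rfl)
  refine ⟨t, ht, fun ξ hξ => ?_⟩
  obtain ⟨i, -, rfl⟩ := hζ.eq_pow_of_pow_eq_one hξ
  have h1 := ht' ⟨ζ, mem_adjoin_simple_self ℚ ζ⟩
  have h2 := AlgEquiv.restrictNormal_commutes σ (adjoin ℚ {ζ} : IntermediateField ℚ Om)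
        ⟨ζ, mem_adjoin_simple_self ℚ ζ⟩
  have h3 : t ζ = σ ζ := h1.trans h2
  rw [map_pow, map_pow, h3]

private theorem E6_mem_PQ {p : ℕ} (σ : GQ) (h : ∀ ξ ∈ muInf p, σ ξ = ξ) : σ ∈ PQ p := by
  have h1 := R7_fix_mu σ h
  unfold Pmu at h1
  refine IntermediateField.fixingSubgroup_antitone ?_ h1
  refine le_trans inf_le_left ?_
  rw [bot_sup_eq]

private theorem E6_exp {p : ℕ} (hp : p.Prime) (σ : GQ) (m : ℕ) :
    ∃ a : (ZMod (p ^ m))ˣ, ∀ ξ : Om, ξ ^ (p ^ m) = 1 → σ ξ = ξ ^ (a : ZMod (p ^ m)).val := by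
  have : NeZero (p ^ m) := ⟨pow_ne_zero _ hp.ne_zero⟩
  obtain ⟨ζ, hζ⟩ := HasEnoughRootsOfUnity.exists_primitiveRoot Om (p ^ m)
  refine ⟨hζ.autToPow ℚ σ, fun ξ hξ => ?_⟩
  obtain ⟨i, -, rfl⟩ := hζ.eq_pow_of_pow_eq_one hξ
  rw [map_pow, ← hζ.autToPow_spec ℚ σ, ← pow_mul, ← pow_mul, mul_comm]

theorem exists_frob_p {p : ℕ} (hp : p.Prime) (hp2 : p ≠ 2) :
    ∃ (B : Ideal ZO) (σ₀ φ : GQ), B.IsMaximal ∧ (p : ZO) ∈ B ∧ σ₀ ∈ B.inertia GQ ∧ φ ∈ PQ p ∧
      (∀ z : ZO, φ • z - z ^ p ∈ B) ∧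
      (∀ G : Subgroup GQ, IsOpen (G : Set GQ) → ∀ g : GQ, ∃ i : ℕ, σ₀ ^ i * g ∈ PQ p ⊔ G) ∧
      (∀ i : ℕ, σ₀ ^ i * φ * (σ₀ ^ i)⁻¹ * φ⁻¹ ∈ B.inertia GQ ∧
        σ₀ ^ i * φ * (σ₀ ^ i)⁻¹ * φ⁻¹ ∈ PQ p) := by
  have hfp : Fact p.Prime := ⟨hp⟩
  set B : Ideal ZO := R7_B p with hBdef
  have hB : B.IsMaximal := R7_B_maximal
  have hpB : (p : ZO) ∈ B := R7_p_mem
  have hBp := hB.isPrime
  obtain ⟨g₀, σ₁, hσ₁, hgen⟩ := exists_sigma0 hp hp2
  have hclB : ∀ z w : ZO, IsClosed {σ : GQ | σ • z - w ∈ B} := by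
    intro z w
    have : {σ : GQ | σ • z - w ∈ B} = {σ : GQ | σ (z : Om) ∈ {y : Om | ∃ b ∈ B, (b : Om) = y - w}} := by
      ext σ
      constructor
      · intro h
        exact ⟨_, h, rfl⟩
      · rintro ⟨b, hb, hb2⟩
        have : σ • z - w = b := Subtype.ext hb2.symm
        change σ • z - w ∈ B
        rw [this]
        exact hb
    rw [this]
    exact E6_closed _ _
  have hclosedI : IsClosed (B.inertia GQ : Set GQ) := by
    have : (B.inertia GQ : Set GQ) = ⋂ z : ZO, {σ : GQ | σ • z - z ∈ B} := by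
      ext σ
      simp only [Set.mem_iInter, Set.mem_ofPred_eq, SetLike.mem_coe]
      rfl
    rw [this]
    exact isClosed_iInter fun z => hclB z z
  have hclosedF : IsClosed {σ : GQ | ∀ z : ZO, σ • z - z ^ p ∈ B} := by
    have : {σ : GQ | ∀ z : ZO, σ • z - z ^ p ∈ B} = ⋂ z : ZO, {σ : GQ | σ • z - z ^ p ∈ B} := by
      ext σ
      simp only [Set.mem_iInter, Set.mem_ofPred_eq]
    rw [this]
    exact isClosed_iInter fun z => hclB z _
  have hclosedC : ∀ (f : Om → Om) (m : ℕ), IsClosed {σ : GQ | ∀ ξ : Om, ξ ^ (p ^ m) = 1 → σ ξ = f ξ} := by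
    intro f m
    have : {σ : GQ | ∀ ξ : Om, ξ ^ (p ^ m) = 1 → σ ξ = f ξ} =
        ⋂ (ξ : Om) (_ : ξ ^ (p ^ m) = 1), {σ : GQ | σ ξ ∈ ({f ξ} : Set Om)} := by
      ext σ
      simp
    rw [this]
    exact isClosed_iInter fun ξ => isClosed_iInter fun _ => E6_closed _ _
  have hg : IsGalois ℚ Om := N3_gal
  have hcomp : CompactSpace GQ := inferInstance
  -- `σ₀`
  obtain ⟨σ₀, hσ₀I, hσ₀⟩ : ∃ σ₀ ∈ B.inertia GQ, ∀ ξ ∈ muInf p, σ₀ ξ = ξ ^ g₀ := by
    let C : ℕ → Set GQ := fun m => (B.inertia GQ : Set GQ) ∩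
      {σ : GQ | ∀ ξ : Om, ξ ^ (p ^ m) = 1 → σ ξ = ξ ^ g₀}
    have hC : ∀ m, IsClosed (C m) := fun m => hclosedI.inter (hclosedC _ m)
    have hanti : ∀ m, C (m + 1) ⊆ C m := by
      rintro m σ ⟨h1, h2⟩
      refine ⟨h1, fun ξ hξ => h2 ξ ?_⟩
      rw [pow_succ, pow_mul, hξ, one_pow]
    have hne : (⋂ m, C m).Nonempty := by
      refine IsCompact.nonempty_iInter_of_sequence_nonempty_isCompact_isClosed C hanti
        (fun m => ?_) (hC 0).isCompact hC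
      obtain ⟨t, ht, ht'⟩ := E6_inert hp B hB hpB m σ₁
      exact ⟨t, ht, fun ξ hξ => (ht' ξ hξ).trans (hσ₁ ξ ⟨m, hξ⟩)⟩
    obtain ⟨σ₀, h⟩ := hne
    rw [Set.mem_iInter] at h
    exact ⟨σ₀, (h 0).1, fun ξ ⟨m, hm⟩ => (h m).2 ξ hm⟩
  have hpow : ∀ (n : ℕ), ∀ ξ ∈ muInf p, (σ₀ ^ n) ξ = ξ ^ (g₀ ^ n) := by
    intro n
    induction n with
    | zero => intro ξ _; simp
    | succ n ih =>
      intro ξ hξ
      rw [pow_succ', AlgEquiv.mul_apply, ih ξ hξ, map_pow, hσ₀ ξ hξ, ← pow_mul, pow_succ']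
  -- every element is, on `μ_{p^m}`, inverse to a power of `σ₀`
  have hinv : ∀ (g : GQ) (m : ℕ), ∃ i : ℕ, ∀ ξ : Om, ξ ^ (p ^ m) = 1 → (σ₀ ^ i * g) ξ = ξ := by
    intro g m
    have : NeZero (p ^ m) := ⟨pow_ne_zero _ hp.ne_zero⟩
    obtain ⟨a, ha⟩ := E6_exp hp g m
    obtain ⟨i, hi⟩ := hgen m a⁻¹
    refine ⟨i, fun ξ hξ => ?_⟩
    rw [AlgEquiv.mul_apply, ha ξ hξ, map_pow, hpow i ξ ⟨m, hξ⟩, ← pow_mul]
    have h1 : g₀ ^ i * (a : ZMod (p ^ m)).val ≡ 1 [MOD p ^ m] := by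
      rw [← ZMod.natCast_eq_natCast_iff]
      push_cast
      rw [← hi, ZMod.natCast_zmod_val, ← Units.val_mul, inv_mul_cancel, Units.val_one]
    have h4 := pow_eq_pow_of_modEq h1 hξ
    rw [h4, pow_one]
  -- Frobenius
  obtain ⟨φ₀, hφ₀⟩ := E6_frob hp B hB hpB
  obtain ⟨φ, hφF, hφ⟩ : ∃ φ : GQ, (∀ z : ZO, φ • z - z ^ p ∈ B) ∧ ∀ ξ ∈ muInf p, φ ξ = ξ := by
    let C : ℕ → Set GQ := fun m => {σ : GQ | ∀ z : ZO, σ • z - z ^ p ∈ B} ∩
      {σ : GQ | ∀ ξ : Om, ξ ^ (p ^ m) = 1 → σ ξ = ξ}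
    have hC : ∀ m, IsClosed (C m) := fun m => hclosedF.inter (hclosedC _ m)
    have hanti : ∀ m, C (m + 1) ⊆ C m := by
      rintro m σ ⟨h1, h2⟩
      refine ⟨h1, fun ξ hξ => h2 ξ ?_⟩
      rw [pow_succ, pow_mul, hξ, one_pow]
    have hne : (⋂ m, C m).Nonempty := by
      refine IsCompact.nonempty_iInter_of_sequence_nonempty_isCompact_isClosed C hanti
        (fun m => ?_) (hC 0).isCompact hC
      obtain ⟨i, hi⟩ := hinv φ₀ m
      refine ⟨σ₀ ^ i * φ₀, fun z => ?_, hi⟩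
      have h1 : σ₀ ^ i ∈ B.inertia GQ := Subgroup.pow_mem _ hσ₀I i
      have h2 : σ₀ ^ i • (φ₀ • z) - φ₀ • z ∈ B := h1 (φ₀ • z)
      have h3 := B.add_mem h2 (hφ₀ z)
      rw [mul_smul]
      convert h3 using 1
      ring
    obtain ⟨φ, h⟩ := hne
    rw [Set.mem_iInter] at h
    exact ⟨φ, (h 0).1, fun ξ ⟨m, hm⟩ => (h m).2 ξ hm⟩
  refine ⟨B, σ₀, φ, hB, hpB, hσ₀I, E6_mem_PQ φ hφ, hφF, ?_, ?_⟩
  · -- density
    intro G hG g
    have hnhds : (G : Set GQ) ∈ nhds (1 : GQ) := hG.mem_nhds (Subgroup.one_mem G)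
    let D : ℕ → Set GQ := fun m => {σ : GQ | ∀ ξ : Om, ξ ^ (p ^ m) = 1 → σ ξ = ξ}
    have hDclosed : ∀ m, IsClosed (D m) := fun m => hclosedC _ m
    have hDanti : Antitone D := by
      refine antitone_nat_of_succ_le fun m σ hσ ξ hξ => ?_
      refine hσ ξ ?_
      rw [pow_succ, pow_mul, hξ, one_pow]
    have hDP : ∀ σ, σ ∈ ⋂ m, D m → σ ∈ PQ p := by
      intro σ hσ
      apply E6_mem_PQ
      rintro ξ ⟨m, hm⟩
      exact (Set.mem_iInter.1 hσ m) ξ hm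
    have hOopen : IsOpen ((G : Set GQ) * (PQ p : Set GQ)) := hG.mul_right
    obtain ⟨m, hm⟩ : ∃ m, D m ⊆ (G : Set GQ) * (PQ p : Set GQ) := by
      refine exists_subset_nhds_of_compactSpace (directed_of_isDirected_le fun a b hab => hDanti hab)
        hDclosed fun σ hσ => hOopen.mem_nhds ?_
      exact ⟨1, Subgroup.one_mem _, σ, hDP σ hσ, one_mul σ⟩
    obtain ⟨i, hi⟩ := hinv g m
    obtain ⟨w, hw, z, hz, hwz⟩ := hm (show σ₀ ^ i * g ∈ D m from hi)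
    refine ⟨i, ?_⟩
    rw [← show w * z = σ₀ ^ i * g from hwz]
    exact Subgroup.mul_mem _ (Subgroup.mem_sup_right hw) (Subgroup.mem_sup_left hz)
  · intro i
    have h1 : σ₀ ^ i ∈ B.inertia GQ := Subgroup.pow_mem _ hσ₀I i
    constructor
    · -- `φ` normalizes the inertia group
      have h2 : φ * (σ₀ ^ i)⁻¹ * φ⁻¹ ∈ B.inertia GQ := by
        intro z
        have h3 : (σ₀ ^ i)⁻¹ • (φ⁻¹ • z) - φ⁻¹ • z ∈ B := (Subgroup.inv_mem _ h1) (φ⁻¹ • z)
        have h4 : (φ * (σ₀ ^ i)⁻¹ * φ⁻¹) • z - z = φ • ((σ₀ ^ i)⁻¹ • (φ⁻¹ • z) - φ⁻¹ • z) := by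
          rw [smul_sub, smul_inv_smul, mul_smul, mul_smul]
        rw [h4]
        have h5 := hφF ((σ₀ ^ i)⁻¹ • (φ⁻¹ • z) - φ⁻¹ • z)
        have h6 := B.add_mem h5 (Ideal.pow_mem_of_mem B h3 p hp.pos)
        rwa [sub_add_cancel] at h6
      have h7 := Subgroup.mul_mem _ h1 h2
      convert h7 using 1
      group
    · apply E6_mem_PQ
      rintro ξ ⟨m, hm⟩
      have hm0 : p ^ m ≠ 0 := pow_ne_zero _ hp.ne_zero
      have hφi : φ⁻¹ ξ = ξ := by
        have := hφ ξ ⟨m, hm⟩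
        conv_lhs => rw [← this]
        exact φ.symm_apply_apply ξ
      have hsm : ((σ₀ ^ i)⁻¹ ξ) ^ (p ^ m) = 1 := by rw [← map_pow, hm, map_one]
      change (σ₀ ^ i) (φ ((σ₀ ^ i)⁻¹ (φ⁻¹ ξ))) = ξ
      rw [hφi, hφ _ ⟨m, hsm⟩]
      exact (σ₀ ^ i).apply_symm_apply ξ

end OzakiFree
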