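import Pool.Agent.Lib.MP_6e8030_nt.Base

open IntermediateField
open scoped ComplexConjugate

noncomputable section

namespace OzakiFree

/-! ### R5: explicit integrality computations -/

private theorem R5_key1 {p : ℕ} (B : Ideal (integralClosure ℤ Om))
    (hpB : (p : integralClosure ℤ Om) ∉ B) (η : integralClosure ℤ Om) (h : η ^ p = 1)
    (hB : η - 1 ∈ B) : η = 1 := by
  by_contra hne
  have h1 : (∑ i ∈ Finset.range p, η ^ i) * (η - 1) = 0 := by
    rw [geom_sum_mul, h, sub_self]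
  have h2 : ∑ i ∈ Finset.range p, η ^ i = 0 := by
    rcases mul_eq_zero.1 h1 with h2 | h2
    · exact h2
    · exact absurd (sub_eq_zero.1 h2) hne
  apply hpB
  have h3 : Ideal.Quotient.mk B η = 1 := by
    have := Ideal.Quotient.eq_zero_iff_mem.2 hB
    rw [map_sub, map_one] at this
    exact sub_eq_zero.1 this
  have h4 := congrArg (Ideal.Quotient.mk B) h2
  rw [map_sum, map_zero] at h4
  simp only [map_pow, h3, one_pow, Finset.sum_const, Finset.card_range, nsmul_eq_mul,
    mul_one] at h4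
  rw [← map_natCast (Ideal.Quotient.mk B)] at h4
  exact Ideal.Quotient.eq_zero_iff_mem.1 h4

private theorem R5_key2 {p : ℕ} (B : Ideal (integralClosure ℤ Om))
    (hpB : (p : integralClosure ℤ Om) ∉ B) (m : ℕ) : ∀ (η : integralClosure ℤ Om),
    η ^ (p ^ m) = 1 → η - 1 ∈ B → η = 1 := by
  induction m with
  | zero => intro η h _; simpa using h
  | succ m ih =>
    intro η h hB
    have h1 : η ^ p = 1 := by
      apply ih
      · rw [← pow_mul, ← pow_succ']; exact h
      · obtain ⟨c, hc⟩ := sub_dvd_pow_sub_pow η 1 p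
        rw [one_pow] at hc
        rw [hc]
        exact B.mul_mem_right _ hB
    exact R5_key1 B hpB η h1 hB

private theorem R5_integral_root {n : ℕ} (hn : 0 < n) (ζ : Om) (h : ζ ^ n = 1) :
    IsIntegral ℤ ζ :=
  IsIntegral.of_pow hn (by rw [h]; exact isIntegral_one)

private theorem R5_smul_coe (t : GQ) (y : integralClosure ℤ Om) :
    ((t • y : integralClosure ℤ Om) : Om) = t (y : Om) := rfl

theorem inertia_fix_mu {p : ℕ} (hp : p.Prime) (B : Ideal (integralClosure ℤ Om))
    (hB : B.IsMaximal) (hpB : (p : integralClosure ℤ Om) ∉ B) (t : GQ) (ht : t ∈ B.inertia GQ)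
    (ζ : Om) (hζ : ζ ∈ muInf p) : t ζ = ζ := by
  obtain ⟨m, hm⟩ := hζ
  have hpm : 0 < p ^ m := pow_pos hp.pos m
  let Z : integralClosure ℤ Om := ⟨ζ, R5_integral_root hpm ζ hm⟩
  have hZ : Z ^ (p ^ m) = 1 := by
    apply Subtype.ext
    push_cast
    exact hm
  have htZ : (t • Z) ^ (p ^ m) = 1 := by
    rw [← smul_pow', hZ, smul_one]
  have h1 : t • Z - Z ∈ B := (AddSubgroup.mem_inertia.1 ht) Z
  have hZ1 : Z * Z ^ (p ^ m - 1) = 1 := by
    rw [← pow_succ', Nat.sub_add_cancel hpm, hZ]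
  have h2 : (t • Z) * Z ^ (p ^ m - 1) = 1 := by
    apply R5_key2 B hpB m
    · rw [mul_pow, htZ, one_mul, ← pow_mul, mul_comm, pow_mul, hZ, one_pow]
    · have : (t • Z) * Z ^ (p ^ m - 1) - 1 = (t • Z - Z) * Z ^ (p ^ m - 1) := by
        rw [sub_mul, hZ1]
      rw [this]
      exact B.mul_mem_right _ h1
  have h3 : t • Z = Z := by
    calc t • Z = (t • Z) * (Z * Z ^ (p ^ m - 1)) := by rw [hZ1, mul_one]
      _ = ((t • Z) * Z ^ (p ^ m - 1)) * Z := by ring
      _ = Z := by rw [h2, one_mul]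
  have h4 := congrArg (Subtype.val) h3
  exact h4

theorem inertia_fix_kummer {p : ℕ} (hp : p.Prime) (B : Ideal (integralClosure ℤ Om))
    (hB : B.IsMaximal) (hpB : (p : integralClosure ℤ Om) ∉ B) (t : GQ) (ht : t ∈ B.inertia GQ)
    (x : Om) (a : ℤ) (hx : x ^ p = (a : Om)) (ha : (a : integralClosure ℤ Om) ∉ B) :
    t x = x := by
  have hxi : IsIntegral ℤ x := by
    apply IsIntegral.of_pow hp.pos
    rw [hx]
    exact isIntegral_algebraMap (R := ℤ) (x := a)
  let X : integralClosure ℤ Om := ⟨x, hxi⟩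
  have hX : X ^ p = (a : integralClosure ℤ Om) := by
    apply Subtype.ext
    push_cast
    exact hx
  have hXB : X ∉ B := by
    intro h
    apply ha
    rw [← hX]
    exact B.pow_mem_of_mem h p hp.pos
  have hx0 : x ≠ 0 := by
    intro h0
    apply hXB
    have : X = 0 := Subtype.ext h0
    rw [this]
    exact B.zero_mem
  have hη : (t x / x) ^ p = 1 := by
    rw [div_pow, ← map_pow, hx, map_intCast, div_self]
    rw [← hx]
    exact pow_ne_zero p hx0
  let H : integralClosure ℤ Om := ⟨t x / x, R5_integral_root hp.pos _ hη⟩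
  have hH : H ^ p = 1 := by
    apply Subtype.ext
    push_cast
    exact hη
  have h1 : t • X - X ∈ B := (AddSubgroup.mem_inertia.1 ht) X
  have h2 : t • X - X = (H - 1) * X := by
    apply Subtype.ext
    change t x - x = (t x / x - 1) * x
    field_simp
  rw [h2] at h1
  have h3 : H - 1 ∈ B := by
    rcases hB.isPrime.mem_or_mem h1 with h | h
    · exact h
    · exact absurd h hXB
  have h4 := R5_key1 B hpB H hH h3
  have h5 : t x / x = 1 := congrArg Subtype.val h4
  exact (div_eq_one_iff_eq hx0).1 h5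

private theorem R5_integral_of_prod {ι : Type*} (s : Finset ι) (hs : s.Nonempty) (c : ι → Om)
    (hc : ∀ i ∈ s, IsIntegral ℤ (c i)) (y : Om) (h : IsIntegral ℤ (∏ i ∈ s, (y + c i))) :
    IsIntegral ℤ y := by
  classical
  let R := integralClosure ℤ Om
  let F : Polynomial R := ∏ i ∈ s.attach, (Polynomial.X + Polynomial.C (⟨c i, hc i i.2⟩ : R))
  have hF : F.Monic := Polynomial.monic_prod_of_monic _ _ (fun i _ => Polynomial.monic_X_add_C _)
  have hFd : F.natDegree = s.card := by
    rw [Polynomial.natDegree_prod_of_monic _ _ (fun i _ => Polynomial.monic_X_add_C _)]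
    simp
  have hpos : 0 < F.natDegree := by rw [hFd]; exact hs.card_pos
  have hG : (F - Polynomial.C (⟨_, h⟩ : R)).Monic := by
    apply hF.sub_of_left
    apply lt_of_le_of_lt Polynomial.degree_C_le
    exact Polynomial.natDegree_pos_iff_degree_pos.1 hpos
  have h1 : IsIntegral R y := by
    refine ⟨_, hG, ?_⟩
    rw [← Polynomial.aeval_def, map_sub, Polynomial.aeval_C]
    have h2 : Polynomial.aeval y F = ∏ i ∈ s, (y + c i) := by
      rw [map_prod, ← Finset.prod_attach s]
      apply Finset.prod_congr rfl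
      intro i _
      rw [map_add, Polynomial.aeval_X, Polynomial.aeval_C]
      rfl
    rw [h2]
    exact sub_self _
  exact isIntegral_trans y h1

theorem inertia_fix_kummer_p {p : ℕ} (hp : p.Prime) (B : Ideal (integralClosure ℤ Om))
    (hB : B.IsMaximal) (hpB : (p : integralClosure ℤ Om) ∈ B) (t : GQ) (ht : t ∈ B.inertia GQ)
    (htζ : ∀ ζ : Om, ζ ^ p = 1 → t ζ = ζ)
    (x : Om) (a : ℤ) (hx : x ^ p = (a : Om)) (ha : a ^ (p - 1) ≡ 1 [ZMOD (p ^ 2 : ℕ)]) :
    t x = x := by
  by_contra hne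
  have hxi : IsIntegral ℤ x := by
    apply IsIntegral.of_pow hp.pos
    rw [hx]
    exact isIntegral_algebraMap (R := ℤ) (x := a)
  let X : integralClosure ℤ Om := ⟨x, hxi⟩
  have hX : X ^ p = (a : integralClosure ℤ Om) := by
    apply Subtype.ext
    push_cast
    exact hx
  have hx0 : x ≠ 0 := by
    intro h0
    apply hne
    rw [h0, map_zero]
  obtain ⟨c, hc⟩ : ((p ^ 2 : ℕ) : ℤ) ∣ 1 - a ^ (p - 1) := ha.dvd
  -- `x ∉ B`
  have hXB : X ∉ B := by
    intro h
    have h1 : (a : integralClosure ℤ Om) ∈ B := by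
      rw [← hX]
      exact B.pow_mem_of_mem h p hp.pos
    have h2 : (a : integralClosure ℤ Om) ^ (p - 1) ∈ B :=
      B.pow_mem_of_mem h1 _ (Nat.sub_pos_of_lt hp.one_lt)
    have h3 : (1 : integralClosure ℤ Om) = (p : integralClosure ℤ Om) ^ 2 * c
        + (a : integralClosure ℤ Om) ^ (p - 1) := by
      have := congrArg (fun z : ℤ => (z : integralClosure ℤ Om)) hc
      push_cast at this
      rw [← this]
      ring
    apply hB.ne_top
    rw [Ideal.eq_top_iff_one, h3]
    exact B.add_mem (B.mul_mem_right _ (B.pow_mem_of_mem hpB 2 (by norm_num))) h2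
  set ξ : Om := t x / x with hξ
  have hξp : ξ ^ p = 1 := by
    rw [hξ, div_pow, ← map_pow, hx, map_intCast, div_self]
    rw [← hx]
    exact pow_ne_zero p hx0
  have hξ1 : ξ ≠ 1 := fun h => hne ((div_eq_one_iff_eq hx0).1 h)
  have hprim : IsPrimitiveRoot ξ p := by
    have := orderOf_eq_prime hξp hξ1 (hp := ⟨hp⟩)
    rw [← this]
    exact IsPrimitiveRoot.orderOf ξ
  have hl0 : (1 - ξ : Om) ≠ 0 := sub_ne_zero.2 (Ne.symm hξ1)
  have hξi : IsIntegral ℤ ξ := R5_integral_root hp.pos ξ hξp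
  -- `(1 - ζ)/(1 - ξ)` is integral
  have hu : ∀ ζ : Om, ζ ∈ Polynomial.nthRootsFinset p (1 : Om) → IsIntegral ℤ ((1 - ζ) / (1 - ξ)) := by
    intro ζ hζ
    rw [Polynomial.mem_nthRootsFinset hp.pos] at hζ
    haveI : NeZero p := ⟨hp.ne_zero⟩
    obtain ⟨i, -, rfl⟩ := hprim.eq_pow_of_pow_eq_one hζ
    have : (1 - ξ ^ i) / (1 - ξ) = ∑ j ∈ Finset.range i, ξ ^ j := by
      rw [div_eq_iff hl0, geom_sum_mul_neg]
    rw [this]
    exact IsIntegral.sum _ (fun j _ => hξi.pow j)
  -- `p / (1 - ξ) ^ (p - 1)` is integral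
  have hU : IsIntegral ℤ ((p : Om) / (1 - ξ) ^ (p - 1)) := by
    haveI : Fact p.Prime := ⟨hp⟩
    have h1 : (p : Om) = ∏ ζ ∈ primitiveRoots p Om, (1 - ζ) := by
      rw [← Polynomial.eval_one_cyclotomic_prime (R := Om) (p := p),
        Polynomial.cyclotomic_eq_prod_X_sub_primitiveRoots hprim, Polynomial.eval_prod]
      apply Finset.prod_congr rfl
      intro ζ _
      simp
    have h2 : ((p : Om) / (1 - ξ) ^ (p - 1)) =
        ∏ ζ ∈ primitiveRoots p Om, ((1 - ζ) / (1 - ξ)) := by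
      rw [Finset.prod_div_distrib, ← h1, Finset.prod_const, hprim.card_primitiveRoots,
        Nat.totient_prime hp]
    rw [h2]
    apply IsIntegral.prod
    intro ζ hζ
    apply hu ζ
    rw [Polynomial.mem_nthRootsFinset hp.pos]
    exact ((mem_primitiveRoots hp.pos).1 hζ).pow_eq_one
  -- `y = (x - a)/(1 - ξ)` is integral
  have hy : IsIntegral ℤ ((x - a) / (1 - ξ)) := by
    apply R5_integral_of_prod (Polynomial.nthRootsFinset p (1 : Om))
      ⟨1, by rw [Polynomial.mem_nthRootsFinset hp.pos, one_pow]⟩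
      (fun ζ => a * ((1 - ζ) / (1 - ξ)))
      (fun ζ hζ => (isIntegral_algebraMap (R := ℤ) (x := a)).mul (hu ζ hζ))
    have h1 : ∏ ζ ∈ Polynomial.nthRootsFinset p (1 : Om),
        ((x - a) / (1 - ξ) + a * ((1 - ζ) / (1 - ξ))) = (x ^ p - (a : Om) ^ p) / (1 - ξ) ^ p := by
      have h0 : (1 - ξ) ^ p = ∏ _ζ ∈ Polynomial.nthRootsFinset p (1 : Om), (1 - ξ) := by
        rw [Finset.prod_const, hprim.card_nthRootsFinset]
      rw [hprim.pow_sub_pow_eq_prod_sub_mul _ _ hp.pos, h0, ← Finset.prod_div_distrib]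
      apply Finset.prod_congr rfl
      intro ζ _
      field_simp
      ring
    rw [h1, hx]
    have h2 : ((a : Om) - (a : Om) ^ p) = a * ((p : Om) ^ 2 * c) := by
      have := congrArg (fun z : ℤ => (z : Om)) hc
      push_cast at this
      rw [← this]
      have h3 : (a : Om) ^ p = a * (a : Om) ^ (p - 1) := by
        rw [← pow_succ', Nat.sub_add_cancel hp.one_lt.le]
      rw [h3]
      ring
    have h4 : ((a : Om) - (a : Om) ^ p) / (1 - ξ) ^ p =
        a * c * ((p : Om) / (1 - ξ) ^ (p - 1)) ^ 2 * (1 - ξ) ^ (p - 2) := by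
      rw [h2]
      have h5 : (1 - ξ) ^ p * (1 - ξ) ^ (p - 2) = ((1 - ξ) ^ (p - 1)) ^ 2 := by
        rw [← pow_add, ← pow_mul]
        congr 1
        have := hp.two_le
        omega
      rw [div_pow, ← h5]
      have h6 : (1 - ξ) ^ p ≠ 0 := pow_ne_zero _ hl0
      have h7 : (1 - ξ) ^ (p - 2) ≠ 0 := pow_ne_zero _ hl0
      field_simp
    rw [h4]
    exact (((isIntegral_algebraMap (R := ℤ) (x := a)).mul
      (isIntegral_algebraMap (R := ℤ) (x := c))).mul (hU.pow 2)).mul
      ((isIntegral_one.sub hξi).pow _)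
  let Y : integralClosure ℤ Om := ⟨(x - a) / (1 - ξ), hy⟩
  have h1 : t • Y - Y ∈ B := (AddSubgroup.mem_inertia.1 ht) Y
  have h2 : t • Y - Y = - X := by
    apply Subtype.ext
    change t ((x - a) / (1 - ξ)) - (x - a) / (1 - ξ) = - x
    rw [map_div₀, map_sub, map_sub, map_one, map_intCast, htζ ξ hξp]
    have h3 : t x = ξ * x := by
      rw [hξ]
      field_simp
    rw [h3]
    field_simp
    ring
  rw [h2] at h1
  exact hXB (neg_mem_iff.1 h1)

end OzakiFree
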