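import Pool.Agent.Lib.MP_6e8030_nt.R4
import Pool.Agent.Lib.MP_6e8030_nt.R5

open IntermediateField
open scoped ComplexConjugate

noncomputable section

namespace OzakiFree

/-- a maximal ideal above a prime number -/
theorem R6_exists_max {l : ℕ} (hl : l.Prime) :
    ∃ B : Ideal (integralClosure ℤ Om), B.IsMaximal ∧ (l : integralClosure ℤ Om) ∈ B := by
  have hne : Ideal.span {(l : integralClosure ℤ Om)} ≠ ⊤ := by
    intro h
    rw [Ideal.span_singleton_eq_top] at h
    obtain ⟨u, hu⟩ := h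
    have h1 : (l : Om) * ((↑u⁻¹ : integralClosure ℤ Om) : Om) = 1 := by
      have h0 : (u : integralClosure ℤ Om) * (↑u⁻¹ : integralClosure ℤ Om) = 1 := u.mul_inv
      rw [hu] at h0
      have h2 := congrArg (fun z : integralClosure ℤ Om => (z : Om)) h0
      exact h2
    have hl0 : (l : ℚ) ≠ 0 := by exact_mod_cast hl.ne_zero
    have h2 : ((↑u⁻¹ : integralClosure ℤ Om) : Om) = algebraMap ℚ Om ((l : ℚ)⁻¹) := by
      rw [map_inv₀, map_natCast]
      exact eq_inv_of_mul_eq_one_right h1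
    have h3 : IsIntegral ℤ ((l : ℚ)⁻¹) := by
      have h4 : IsIntegral ℤ ((↑u⁻¹ : integralClosure ℤ Om) : Om) := (↑u⁻¹ : integralClosure ℤ Om).2
      rw [h2] at h4
      exact (isIntegral_algebraMap_iff (algebraMap ℚ Om).injective).mp h4
    obtain ⟨n, hn⟩ := IsIntegrallyClosed.isIntegral_iff.mp h3
    have h5 : (n : ℚ) * l = 1 := by
      have : (n : ℚ) = (l : ℚ)⁻¹ := by simpa using hn
      rw [this, inv_mul_cancel₀ hl0]
    have h6 : n * (l : ℤ) = 1 := by exact_mod_cast h5
    have h7 : (l : ℤ) ∣ 1 := ⟨n, by linarith⟩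
    have h8 : l ∣ 1 := by exact_mod_cast h7
    exact hl.one_lt.ne' (Nat.dvd_one.mp h8)
  obtain ⟨B, hB, hle⟩ := Ideal.exists_le_maximal _ hne
  exact ⟨B, hB, hle (Ideal.mem_span_singleton_self _)⟩

/-- an integer prime to `l` is not in `B` -/
theorem R6_not_mem {l : ℕ} (hl : l.Prime) (B : Ideal (integralClosure ℤ Om)) (hB : B.IsMaximal)
    (hlB : (l : integralClosure ℤ Om) ∈ B) (c : ℤ) (hc : ¬ (l : ℤ) ∣ c) :
    (c : integralClosure ℤ Om) ∉ B := by
  intro h
  have hcop : IsCoprime (l : ℤ) c := (Nat.prime_iff_prime_int.mp hl).coprime_iff_not_dvd.mpr hc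
  obtain ⟨u, v, huv⟩ := hcop
  apply hB.ne_top
  rw [Ideal.eq_top_iff_one]
  have h1 : ((u * (l : ℤ) + v * c : ℤ) : integralClosure ℤ Om) = 1 := by rw [huv]; simp
  rw [← h1]
  push_cast
  exact B.add_mem (B.mul_mem_left _ hlB) (B.mul_mem_left _ h)

/-! ### R6: ramification away from p -/

theorem exists_inertia_moves {p : ℕ} (hp : p.Prime) {l : ℕ} (hl : l.Prime) (hne : l ≠ p)
    (b : ℤ) (hb : ¬ p ∣ padicValInt l b) (x : Om) (hx : x ^ p = (b : Om)) :
    ∃ B : Ideal (integralClosure ℤ Om), B.IsMaximal ∧ (l : integralClosure ℤ Om) ∈ B ∧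
      ∃ t ∈ B.inertia GQ, t x ≠ x := by
  have : Fact l.Prime := ⟨hl⟩
  obtain ⟨B, hB, hlB⟩ := R6_exists_max hl
  refine ⟨B, hB, hlB, ?_⟩
  by_contra hcon
  have hfix : ∀ t ∈ B.inertia GQ, t x = x := by
    intro t ht
    by_contra h
    exact hcon ⟨t, ht, h⟩
  have hb0 : b ≠ 0 := by
    rintro rfl
    exact hb (by simp)
  have hbOm : (b : Om) ≠ 0 := by exact_mod_cast hb0
  have hx0 : x ≠ 0 := by
    rintro rfl
    rw [zero_pow hp.ne_zero] at hx
    exact hbOm hx.symm
  have hpB : (p : integralClosure ℤ Om) ∉ B := by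
    have := R6_not_mem hl B hB hlB (p : ℤ) (by
      intro h
      have h1 : l ∣ p := by exact_mod_cast h
      exact hne ((Nat.prime_dvd_prime_iff_eq hl hp).mp h1))
    simpa using this
  -- the field
  set f : Polynomial ℚ := Polynomial.X ^ p - Polynomial.C (b : ℚ) with hf
  have hf0 : f ≠ 0 := Polynomial.X_pow_sub_C_ne_zero hp.pos _
  have hroot : ∀ y : Om, y ∈ f.rootSet Om ↔ y ^ p = (b : Om) := by
    intro y
    rw [Polynomial.mem_rootSet, and_iff_right hf0, hf, map_sub, map_pow, Polynomial.aeval_X,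
      Polynomial.aeval_C, sub_eq_zero]
    simp
  set N : IntermediateField ℚ Om := adjoin ℚ (f.rootSet Om) with hN
  have hsplit : (f.map (algebraMap ℚ Om)).Splits := IsAlgClosed.splits _
  have : Polynomial.IsSplittingField ℚ N f := adjoin_rootSet_isSplittingField hsplit
  have : FiniteDimensional ℚ N := Polynomial.IsSplittingField.finiteDimensional N f
  have : Normal ℚ N := Normal.of_isSplittingField f
  have : IsGalois ℚ N := ⟨⟩
  have hI : ∀ t ∈ B.inertia GQ, ∀ y ∈ N, t y = y := by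
    intro t ht
    have hle : N ≤ IntermediateField.fixedField (Subgroup.zpowers t) := by
      rw [hN, adjoin_le_iff]
      intro y hy
      have hy1 : y ^ p = (b : Om) := (hroot y).mp hy
      have hty : t y = y := by
        have h1 : t (y / x) = y / x := by
          apply inertia_fix_mu hp B hB hpB t ht
          refine ⟨1, ?_⟩
          rw [pow_one, div_pow, hy1, hx, div_self hbOm]
        have h2 : y = (y / x) * x := by field_simp
        rw [h2, map_mul, h1, hfix t ht]
      change ∀ g : Subgroup.zpowers t, g • y = y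
      rintro ⟨g, n, rfl⟩
      have hmem : t ∈ MulAction.stabilizer GQ y := hty
      exact (MulAction.stabilizer GQ y).zpow_mem hmem n
    intro y hy
    have h3 := hle hy
    exact h3 ⟨t, Subgroup.mem_zpowers t⟩
  -- the integral element
  have hxint : IsIntegral ℤ x := by
    have : IsIntegral ℤ (x ^ p) := by
      rw [hx]
      exact isIntegral_algebraMap (R := ℤ) (A := Om) (x := b)
    exact IsIntegral.of_pow hp.pos this
  obtain ⟨c, hc⟩ : (l : ℤ) ^ (padicValInt l b) ∣ b := padicValInt_dvd b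
  have hcl : ¬ (l : ℤ) ∣ c := by
    rintro ⟨d, rfl⟩
    have h1 : (l : ℤ) ^ (padicValInt l b + 1) ∣ b := ⟨d, by rw [pow_succ]; linarith⟩
    rw [padicValInt_dvd_iff] at h1
    rcases h1 with h1 | h1
    · exact hb0 h1
    · omega
  have hw := R6_not_mem hl B hB hlB c hcl
  apply hb
  refine unr N l hl B hB hlB hI ⟨x, hxint⟩ (c : integralClosure ℤ Om) ?_ p _ hw ?_
  · exact subset_adjoin ℚ _ ((hroot x).mpr hx)
  · apply Subtype.ext
    have h1 : x ^ p = (l : Om) ^ (padicValInt l b) * (c : Om) := by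
      rw [hx]
      conv_lhs => rw [hc]
      push_cast
      rfl
    simpa using h1

end OzakiFree
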