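import Pool.Agent.Lib.MP_6e8030_nt.EBase
import Pool.Agent.Lib.MP_6e8030_nt.R4
import Pool.Agent.Lib.MP_6e8030_nt.R5
import Pool.Agent.Lib.MP_6e8030_nt.R6

open IntermediateField
open scoped ComplexConjugate Pointwise

noncomputable section

namespace OzakiFree

/-! ### topology -/

private theorem E7_isOpen {G : Type*} [Group G] [TopologicalSpace G] [IsTopologicalGroup G]
    (U : Subgroup G) (hU : IsOpen (U : Set G)) (S : Set G) (h : ∀ g ∈ S, ∀ u ∈ U, g * u ∈ S) :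
    IsOpen S := by
  rw [isOpen_iff_mem_nhds]
  intro g hg
  have h1 : IsOpen ((fun x => g⁻¹ * x) ⁻¹' (U : Set G)) := hU.preimage (continuous_const_mul g⁻¹)
  refine Filter.mem_of_superset (h1.mem_nhds (by simp)) fun y hy => ?_
  have := h g hg _ hy
  simpa using this

private theorem E7_isClosed {G : Type*} [Group G] [TopologicalSpace G] [IsTopologicalGroup G]
    (U : Subgroup G) (hU : IsOpen (U : Set G)) (S : Set G) (h : ∀ g ∈ S, ∀ u ∈ U, g * u ∈ S) :
    IsClosed S := by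
  rw [← isOpen_compl_iff]
  refine E7_isOpen U hU _ fun g hg u hu hgu => hg ?_
  have := h _ hgu _ (U.inv_mem hu)
  simpa using this

private theorem E7_stab (x : Om) : IsOpen (MulAction.stabilizer GQ x : Set GQ) :=
  stabilizer_isOpen_of_isIntegral x

private theorem E7_inertia_closed (B : Ideal (integralClosure ℤ Om)) :
    IsClosed (B.inertia GQ : Set GQ) := by
  have h1 : (B.inertia GQ : Set GQ) = ⋂ x : integralClosure ℤ Om, {σ : GQ | σ • x - x ∈ B} := by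
    ext σ
    rw [Set.mem_iInter]
    exact Iff.rfl
  rw [h1]
  refine isClosed_iInter fun x => ?_
  refine E7_isClosed _ (E7_stab (x : Om)) _ fun g hg u hu => ?_
  have h2 : u • x = x := by
    apply Subtype.ext
    rw [integralClosure.coe_smul]
    exact hu
  change (g * u) • x - x ∈ B
  rw [mul_smul, h2]
  exact hg

/-! ### the group `PQ p` -/

private theorem E7_fix_bot (t : GQ) : Fixes t (⊥ : IntermediateField ℚ Om) := by
  intro x hx
  obtain ⟨y, rfl⟩ := IntermediateField.mem_bot.1 hx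
  exact t.commutes y

private def E7_T (p : ℕ) : Set GQ :=
  {σ : GQ | Fixes σ (⊥ : IntermediateField ℚ Om) ∧ ∃ r : ℕ, 0 < r ∧ ∀ ζ ∈ muInf p, (σ ^ r) ζ = ζ}

private theorem E7_PQ_of_pow {p : ℕ} (t : GQ) (r : ℕ) (hr : 0 < r)
    (h : ∀ ζ ∈ muInf p, (t ^ r) ζ = ζ) : t ∈ PQ p := by
  have hT : t ∈ E7_T p := ⟨E7_fix_bot t, r, hr, h⟩
  have h3 : cycZp p ⊥ ≤ IntermediateField.fixedField (Subgroup.closure (E7_T p)) := inf_le_right
  rw [IntermediateField.le_iff_le] at h3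
  exact h3 (Subgroup.subset_closure hT)

private theorem E7_mu_smul {p : ℕ} {s : GQ} {ζ : Om} (h : ζ ∈ muInf p) : s ζ ∈ muInf p := by
  obtain ⟨m, hm⟩ := h
  exact ⟨m, by rw [← map_pow, hm, map_one]⟩

private theorem E7_T_conj {p : ℕ} (s g : GQ) (hg : g ∈ E7_T p) : s⁻¹ * g * s ∈ E7_T p := by
  obtain ⟨-, r, hr, h⟩ := hg
  refine ⟨E7_fix_bot _, r, hr, fun ζ hζ => ?_⟩
  have h1 : (s⁻¹ * g * s) ^ r = s⁻¹ * g ^ r * s := by
    have h2 := conj_pow (i := r) (a := s⁻¹) (b := g)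
    rwa [inv_inv] at h2
  rw [h1]
  change s⁻¹ ((g ^ r) (s ζ)) = ζ
  rw [h _ (E7_mu_smul hζ)]
  exact s.symm_apply_apply ζ

private theorem E7_closure_conj {p : ℕ} (s g : GQ) (hg : g ∈ Subgroup.closure (E7_T p)) :
    s⁻¹ * g * s ∈ Subgroup.closure (E7_T p) := by
  induction hg using Subgroup.closure_induction with
  | mem x hx => exact Subgroup.subset_closure (E7_T_conj s x hx)
  | one => simp
  | mul x y _ _ hx hy =>
    have h1 : s⁻¹ * (x * y) * s = (s⁻¹ * x * s) * (s⁻¹ * y * s) := by group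
    rw [h1]
    exact Subgroup.mul_mem _ hx hy
  | inv x _ hx =>
    have h1 : s⁻¹ * x⁻¹ * s = (s⁻¹ * x * s)⁻¹ := by group
    rw [h1]
    exact Subgroup.inv_mem _ hx

private theorem E7_stable {p : ℕ} (s : GQ) (x : Om) (hx : x ∈ cycZp p ⊥) : s x ∈ cycZp p ⊥ := by
  obtain ⟨h1, h2⟩ := hx
  refine ⟨?_, ?_⟩
  · have h3 : x ∈ adjoin ℚ (muInf p) := by simpa using h1
    have h4 : s x ∈ (adjoin ℚ (muInf p)).map s.toAlgHom := ⟨x, h3, rfl⟩
    rw [adjoin_map] at h4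
    have h5 : adjoin ℚ (s.toAlgHom '' muInf p) ≤ adjoin ℚ (muInf p) := by
      refine adjoin.mono ℚ _ _ ?_
      rintro _ ⟨ζ, hζ, rfl⟩
      exact E7_mu_smul hζ
    simpa using h5 h4
  · rintro ⟨g, hg⟩
    have h3 := E7_closure_conj s g hg
    have h4 : (s⁻¹ * g * s) x = x := h2 ⟨_, h3⟩
    have h5 := congrArg s h4
    change s (s⁻¹ (g (s x))) = s x at h5
    have h6 : s (s⁻¹ (g (s x))) = g (s x) := s.apply_symm_apply _
    rw [h6] at h5
    exact h5

private theorem E7_PQ_conj {p : ℕ} (s t : GQ) (ht : t ∈ PQ p) : s⁻¹ * t * s ∈ PQ p := by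
  rintro ⟨x, hx⟩
  have h1 : t (s x) = s x := ht ⟨s x, E7_stable s x hx⟩
  change s⁻¹ (t (s x)) = x
  rw [h1]
  exact s.symm_apply_apply x

private theorem E7_PQ_closed (p : ℕ) : IsClosed (PQ p : Set GQ) :=
  InfiniteGalois.fixingSubgroup_isClosed _

private theorem E7_PQ_of_mu {p : ℕ} (t : GQ) (h : ∀ ζ ∈ muInf p, t ζ = ζ) : t ∈ PQ p :=
  E7_PQ_of_pow t 1 one_pos (by simpa using h)

private theorem E7_modEq {p : ℕ} (hp : p.Prime) {a j m : ℕ} (hj : j ≤ m)
    (hcop : Nat.Coprime a (p ^ j)) : a ^ ((p - 1) * p ^ m) ≡ 1 [MOD p ^ j] := by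
  have h1 : Nat.totient (p ^ j) ∣ (p - 1) * p ^ m := by
    rcases Nat.eq_zero_or_pos j with rfl | hj0
    · simp
    · rw [Nat.totient_prime_pow hp hj0, mul_comm (p ^ (j - 1))]
      exact mul_dvd_mul_left _ (pow_dvd_pow p (by omega))
  obtain ⟨c, hc⟩ := h1
  rw [hc, pow_mul]
  have h2 := (Nat.ModEq.pow_totient hcop).pow c
  rwa [one_pow] at h2

/-- the power `s ^ ((p - 1) p ^ m)` fixes the roots of unity of order `p ^ m` -/
private theorem E7_pow_fix {p : ℕ} (hp : p.Prime) (s : GQ) (m : ℕ) (ζ : Om)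
    (hζ : ζ ^ (p ^ m) = 1) : (s ^ ((p - 1) * p ^ m)) ζ = ζ := by
  have hpm : 0 < p ^ m := pow_pos hp.pos m
  have hne : NeZero (p ^ m) := ⟨hpm.ne'⟩
  obtain ⟨a, ha⟩ := map_rootsOfUnity_eq_pow_self s (rootsOfUnity.mkOfPowEq ζ hζ)
  have ha' : s ζ = ζ ^ a := by simpa using ha
  by_cases h1 : ζ = 1
  · rw [h1, map_one]
  have ha0 : a ≠ 0 := by
    rintro rfl
    rw [pow_zero] at ha'
    exact h1 (s.injective (by rw [ha', map_one]))
  have hdp : orderOf ζ ∣ p ^ m := orderOf_dvd_of_pow_eq_one hζ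
  obtain ⟨j, hj, hdj⟩ := (Nat.dvd_prime_pow hp).1 hdp
  have hord : orderOf (s ζ) = orderOf ζ :=
    orderOf_injective (s : Om →* Om) s.injective ζ
  have hd0 : 0 < orderOf ζ := by rw [hdj]; exact pow_pos hp.pos j
  have hcop : Nat.Coprime a (p ^ j) := by
    rw [ha', orderOf_pow' ζ ha0] at hord
    rw [← hdj, Nat.coprime_comm]
    rcases Nat.div_eq_self.1 hord with h3 | h3
    · omega
    · exact h3
  have hpow : ∀ k : ℕ, (s ^ k) ζ = ζ ^ (a ^ k) := by
    intro k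
    induction k with
    | zero => simp
    | succ k ih =>
      rw [pow_succ']
      change s ((s ^ k) ζ) = _
      rw [ih, map_pow, ha', ← pow_mul, pow_succ']
  rw [hpow]
  have h4 := E7_modEq hp hj hcop
  rw [← hdj] at h4
  have h5 : ζ ^ (a ^ ((p - 1) * p ^ m)) = ζ ^ 1 := by
    rw [← pow_mod_orderOf ζ (a ^ ((p - 1) * p ^ m)), ← pow_mod_orderOf ζ 1]
    exact congrArg (fun n => ζ ^ n) h4
  rw [h5, pow_one]

/-- every open subgroup containing `PQ p` contains a power `s ^ (p ^ m)` of every `s` -/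
private theorem E7_pow_mem {p : ℕ} (hp : p.Prime) (Q : Subgroup GQ) (hQ : IsOpen (Q : Set GQ))
    (hP : PQ p ≤ Q) (s : GQ) : ∃ m : ℕ, s ^ (p ^ m) ∈ Q := by
  have hp1 : 0 < p - 1 := Nat.sub_pos_of_lt hp.one_lt
  set V : ℕ → Set GQ := fun m => ⋂ ζ : {ζ : Om // ζ ^ (p ^ m) = 1},
    (fun t : GQ => t ^ (p - 1)) ⁻¹' (MulAction.stabilizer GQ ζ.1 : Set GQ) with hV
  have hVm : ∀ m t, t ∈ V m ↔ ∀ ζ : Om, ζ ^ (p ^ m) = 1 → (t ^ (p - 1)) ζ = ζ := by
    intro m t
    rw [hV]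
    simp only [Set.mem_iInter]
    constructor
    · intro h ζ hζ
      exact h ⟨ζ, hζ⟩
    · intro h ζ
      exact h ζ.1 ζ.2
  have hcl : ∀ m, IsClosed (V m) := fun m => isClosed_iInter fun ζ =>
    (Subgroup.isClosed_of_isOpen _ (E7_stab ζ.1)).preimage (continuous_pow (p - 1))
  have hanti : Antitone V := by
    refine antitone_nat_of_succ_le fun m t ht => ?_
    rw [hVm] at ht ⊢
    intro ζ hζ
    exact ht ζ (by rw [pow_succ, pow_mul, hζ, one_pow])
  obtain ⟨m, hm⟩ := exists_subset_nhds_of_isCompact' (U := (Q : Set GQ)) (V := V)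
    (directed_of_isDirected_le fun i j hij => hanti hij) (fun m => (hcl m).isCompact) hcl
    (fun t ht => hQ.mem_nhds (hP (E7_PQ_of_pow t (p - 1) hp1 fun ζ hζ => by
      obtain ⟨m, hm⟩ := hζ
      exact (hVm m t).1 (Set.mem_iInter.1 ht m) ζ hm)))
  refine ⟨m, hm ((hVm m _).2 fun ζ hζ => ?_)⟩
  rw [← pow_mul, mul_comm]
  exact E7_pow_fix hp s m ζ hζ

/-! ### the closed normal subgroup `N` -/

private theorem E7_zero {p : ℕ} {ψ : GQ → ZMod p} (hψ : HomOn (PQ p) ψ) : ψ 1 = 0 := by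
  have := hψ 1 (PQ p).one_mem 1 (PQ p).one_mem
  rw [one_mul] at this
  exact left_eq_add.1 this

private def E7_N {p : ℕ} (ψ : GQ → ZMod p) (hψ : HomOn (PQ p) ψ) : Subgroup GQ where
  carrier := {t | ∀ s : GQ, s⁻¹ * t * s ∈ PQ p ∧ ψ (s⁻¹ * t * s) = 0}
  mul_mem' := by
    intro a b ha hb s
    have h1 : s⁻¹ * (a * b) * s = (s⁻¹ * a * s) * (s⁻¹ * b * s) := by group
    rw [h1]
    exact ⟨(PQ p).mul_mem (ha s).1 (hb s).1, by
      rw [hψ _ (ha s).1 _ (hb s).1, (ha s).2, (hb s).2, add_zero]⟩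
  one_mem' := by
    intro s
    have h1 : s⁻¹ * 1 * s = 1 := by group
    rw [h1]
    exact ⟨(PQ p).one_mem, E7_zero hψ⟩
  inv_mem' := by
    intro a ha s
    have h1 : s⁻¹ * a⁻¹ * s = (s⁻¹ * a * s)⁻¹ := by group
    rw [h1]
    refine ⟨(PQ p).inv_mem (ha s).1, ?_⟩
    have h2 := hψ _ (ha s).1 _ ((PQ p).inv_mem (ha s).1)
    rw [mul_inv_cancel, E7_zero hψ, (ha s).2, zero_add] at h2
    exact h2.symm

private theorem E7_mem_N {p : ℕ} {ψ : GQ → ZMod p} (hψ : HomOn (PQ p) ψ) (t : GQ) :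
    t ∈ E7_N ψ hψ ↔ ∀ s : GQ, s⁻¹ * t * s ∈ PQ p ∧ ψ (s⁻¹ * t * s) = 0 := Iff.rfl

private theorem E7_N_normal {p : ℕ} {ψ : GQ → ZMod p} (hψ : HomOn (PQ p) ψ) :
    (E7_N ψ hψ).Normal := by
  refine ⟨fun t ht g => ?_⟩
  rw [E7_mem_N] at ht ⊢
  intro s
  have h1 : s⁻¹ * (g * t * g⁻¹) * s = (g⁻¹ * s)⁻¹ * t * (g⁻¹ * s) := by group
  rw [h1]
  exact ht _

private theorem E7_N_closed {p : ℕ} {ψ : GQ → ZMod p} (hψ : HomOn (PQ p) ψ)
    (hc : LCOn (PQ p) ψ) : IsClosed (E7_N ψ hψ : Set GQ) := by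
  obtain ⟨U, hU, hUψ⟩ := hc
  have hK : IsClosed {t : GQ | t ∈ PQ p ∧ ψ t = 0} := by
    rw [← isOpen_compl_iff, isOpen_iff_mem_nhds]
    intro g hg
    by_cases hgP : g ∈ PQ p
    · have h1 : IsOpen ((fun x => g⁻¹ * x) ⁻¹' (U : Set GQ)) := hU.preimage (continuous_const_mul g⁻¹)
      refine Filter.mem_of_superset (h1.mem_nhds (by simp)) fun y hy hyK => hg ⟨hgP, ?_⟩
      have h2 := hUψ g hgP (g⁻¹ * y) hy ((PQ p).mul_mem ((PQ p).inv_mem hgP) hyK.1)
      rw [mul_inv_cancel_left, hyK.2] at h2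
      exact h2.symm
    · exact Filter.mem_of_superset ((E7_PQ_closed p).isOpen_compl.mem_nhds hgP)
        fun y hy hyK => hy hyK.1
  have h2 : (E7_N ψ hψ : Set GQ) =
      ⋂ s : GQ, (fun t => s⁻¹ * t * s) ⁻¹' {t : GQ | t ∈ PQ p ∧ ψ t = 0} := by
    ext t
    rw [Set.mem_iInter]
    exact Iff.rfl
  rw [h2]
  exact isClosed_iInter fun s => hK.preimage ((continuous_mul_const s).comp (continuous_const_mul s⁻¹))

private theorem E7_pow_ψ {p : ℕ} {ψ : GQ → ZMod p} (hψ : HomOn (PQ p) ψ) {z : GQ}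
    (hz : z ∈ PQ p) (n : ℕ) : ψ (z ^ n) = n * ψ z := by
  induction n with
  | zero => simp [E7_zero hψ]
  | succ n ih =>
    rw [pow_succ, hψ _ ((PQ p).pow_mem hz n) _ hz, ih]
    push_cast
    ring

private theorem E7_pow_p_mem {p : ℕ} {ψ : GQ → ZMod p} (hψ : HomOn (PQ p) ψ) {z : GQ}
    (hz : z ∈ PQ p) : z ^ p ∈ E7_N ψ hψ := by
  rw [E7_mem_N]
  intro s
  have h1 : s⁻¹ * z ^ p * s = (s⁻¹ * z * s) ^ p := by
    have h2 := conj_pow (i := p) (a := s⁻¹) (b := z)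
    rw [inv_inv] at h2
    exact h2.symm
  have h2 := E7_PQ_conj s z hz
  rw [h1]
  refine ⟨(PQ p).pow_mem h2 p, ?_⟩
  rw [E7_pow_ψ hψ h2]
  simp

/-- conjugates of inertia elements -/
private theorem E7_inertia_conj (B : Ideal (integralClosure ℤ Om)) (hB : B.IsMaximal) (t s : GQ)
    (ht : t ∈ B.inertia GQ) : ∃ B' : Ideal (integralClosure ℤ Om), B'.IsMaximal ∧
      s⁻¹ * t * s ∈ B'.inertia GQ := by
  set f : integralClosure ℤ Om →+* integralClosure ℤ Om := MulSemiringAction.toRingHom GQ _ s with hf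
  have hsurj : Function.Surjective f := fun y => ⟨s⁻¹ • y, smul_inv_smul s y⟩
  refine ⟨B.comap f, Ideal.comap_isMaximal_of_surjective f hsurj, ?_⟩
  intro x
  change f ((s⁻¹ * t * s) • x - x) ∈ B
  rw [map_sub]
  change s • ((s⁻¹ * t * s) • x) - s • x ∈ B
  rw [smul_smul, show s * (s⁻¹ * t * s) = t * s by group, mul_smul]
  exact ht (s • x)

private theorem E7_inertia_N {p : ℕ} {ψ : GQ → ZMod p} (hψ : HomOn (PQ p) ψ)
    (h : ∀ B : Ideal (integralClosure ℤ Om), B.IsMaximal → ∀ t ∈ B.inertia GQ, t ∈ PQ p → ψ t = 0)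
    (B : Ideal (integralClosure ℤ Om)) (hB : B.IsMaximal) (t : GQ) (ht : t ∈ B.inertia GQ)
    (htP : t ∈ PQ p) : t ∈ E7_N ψ hψ := by
  rw [E7_mem_N]
  intro s
  obtain ⟨B', hB', h1⟩ := E7_inertia_conj B hB t s ht
  exact ⟨E7_PQ_conj s t htP, h B' hB' _ h1 (E7_PQ_conj s t htP)⟩

/-! ### a normal subgroup of index `p` -/

private theorem E7_index {p : ℕ} (hpp : p.Prime) {M H' : Subgroup GQ} (hM : M.Normal)
    (hMo : IsOpen (M : Set GQ)) (hMH : M ≤ H') {z : GQ} (hz : z ∉ H')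
    (hp : ∀ s : GQ, ∃ m : ℕ, s ^ (p ^ m) ∈ M) :
    ∃ U : Subgroup GQ, U.Normal ∧ U.index = p ∧ H' ≤ U := by
  have hfin : Finite (GQ ⧸ M) := Subgroup.quotient_finite_of_isOpen M hMo
  have hpg : IsPGroup p (GQ ⧸ M) := by
    intro g
    obtain ⟨s, rfl⟩ := QuotientGroup.mk'_surjective M g
    obtain ⟨m, hm⟩ := hp s
    refine ⟨m, ?_⟩
    rw [← map_pow]
    exact (QuotientGroup.eq_one_iff _).2 hm
  have hfact : Fact (Nat.Prime p) := ⟨hpp⟩
  obtain ⟨a, ha⟩ := (IsPGroup.iff_card (p := p)).1 hpg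
  set f := QuotientGroup.mk' M with hf
  have hfs : Function.Surjective f := QuotientGroup.mk'_surjective M
  obtain ⟨n, hn⟩ := (IsPGroup.iff_card (p := p)).1 (hpg.to_subgroup (H'.map f))
  have hne : H'.map f ≠ ⊤ := by
    intro h
    have h1 : f z ∈ H'.map f := by rw [h]; exact Subgroup.mem_top _
    obtain ⟨y, hy, hyz⟩ := h1
    have h2 : y⁻¹ * z ∈ M := QuotientGroup.eq.1 hyz
    exact hz (by simpa using H'.mul_mem hy (hMH h2))
  have hlt : n < a := by
    have h1 : Nat.card (H'.map f) ≤ Nat.card (GQ ⧸ M) := Subgroup.card_le_card_group _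
    have h2 : Nat.card (H'.map f) ≠ Nat.card (GQ ⧸ M) := fun h => hne ((Subgroup.card_eq_iff_eq_top _).1 h)
    have h3 := lt_of_le_of_ne h1 h2
    rw [hn, ha] at h3
    exact (Nat.pow_lt_pow_iff_right hpp.one_lt).1 h3
  obtain ⟨K, hK1, hK2⟩ := Sylow.exists_subgroup_card_pow_prime_le (G := GQ ⧸ M) p (n := n) (m := a - 1)
    (by rw [ha]; exact pow_dvd_pow p (Nat.sub_le a 1)) (H'.map f) hn (by omega)
  have hKi : K.index = p := by
    have h1 := K.card_mul_index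
    rw [hK1, ha, show a = (a - 1) + 1 by omega, pow_succ, Nat.add_sub_cancel] at h1
    exact Nat.eq_of_mul_eq_mul_left (pow_pos hpp.pos _) h1
  have hKn : K.Normal := by
    refine Subgroup.normal_of_index_eq_minFac_card ?_
    rw [hKi, ha, hpp.pow_minFac (by omega)]
  refine ⟨K.comap f, hKn.comap f, ?_, fun x hx => hK2 ⟨x, hx, rfl⟩⟩
  rw [Subgroup.index_comap_of_surjective _ hfs]
  exact hKi

/-! ### Minkowski's theorem -/

open NumberField in
private theorem E7_unram (K : Type) [Field K] [NumberField K] [IsGalois ℚ K] (l : ℕ) (hl : l.Prime)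
    (Q : Ideal (𝓞 K)) (hQ : Q.IsPrime) (hlQ : (l : 𝓞 K) ∈ Q)
    (hI : ∀ σ ∈ Q.inertia (K ≃ₐ[ℚ] K), σ = 1) : Algebra.IsUnramifiedAt ℤ Q := by
  classical
  have hinst : IsGaloisGroup (K ≃ₐ[ℚ] K) ℤ (𝓞 K) := IsGaloisGroup.of_isFractionRing _ ℤ (𝓞 K) ℚ K
  let p : Ideal ℤ := Ideal.span {(l : ℤ)}
  have hlZ : Prime (l : ℤ) := Nat.prime_iff_prime_int.1 hl
  have hpp : p.IsPrime := (Ideal.span_singleton_prime hlZ.ne_zero).2 hlZ
  have hp0 : p ≠ ⊥ := by
    rw [Ne, Ideal.span_singleton_eq_bot]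
    exact hlZ.ne_zero
  have hpmax : p.IsMaximal := hpp.isMaximal hp0
  have hover : Q.LiesOver p := by
    constructor
    apply hpmax.eq_of_le (Ideal.comap_ne_top _ hQ.ne_top)
    rw [Ideal.span_singleton_le_iff_mem]
    change algebraMap ℤ (𝓞 K) (l : ℤ) ∈ Q
    simpa using hlQ
  have hcard : Nat.card (Q.inertia (K ≃ₐ[ℚ] K)) = 1 := by
    rw [Nat.card_eq_one_iff_unique]
    refine ⟨⟨fun a b => ?_⟩, ⟨1⟩⟩
    apply Subtype.ext
    rw [hI a a.2, hI b b.2]
  have h1 : Ideal.ramificationIdxIn p (𝓞 K) = 1 := by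
    rw [← Ideal.card_inertia_eq_ramificationIdxIn (G := K ≃ₐ[ℚ] K) p Q]
    exact hcard
  rw [Ideal.ramificationIdxIn_eq_ramificationIdx p Q (K ≃ₐ[ℚ] K)] at h1
  exact Ideal.ramificationIdx_eq_one_iff.1 h1

/-- a Galois number field such that for every prime number `l` some inertia group at a prime above
`l` acts trivially is the field of the rational numbers -/
private theorem E7_mink (N : IntermediateField ℚ Om) [FiniteDimensional ℚ N] [IsGalois ℚ N]
    (h : ∀ l : ℕ, l.Prime → ∃ B : Ideal (integralClosure ℤ Om), B.IsMaximal ∧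
      (l : integralClosure ℤ Om) ∈ B ∧ ∀ t ∈ B.inertia GQ, ∀ x ∈ N, t x = x) :
    Module.finrank ℚ N = 1 := by
  classical
  by_contra hne
  have : NumberField N := ⟨⟩
  have hfr : 1 < Module.finrank ℚ N := by
    have := Module.finrank_pos (R := ℚ) (M := N)
    omega
  obtain ⟨l, hl, hlP⟩ := NumberField.exists_not_isUnramifiedAt_int_of_isGalois (K := N)
    (𝒪 := NumberField.RingOfIntegers N) hfr
  obtain ⟨B, hB, hlB, hI⟩ := h l hl
  have := hB.isPrime
  have hint : ∀ x : N, IsIntegral ℤ x ↔ IsIntegral ℤ (x : Om) := by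
    intro x
    constructor
    · intro hx
      exact hx.map (N.val.restrictScalars ℤ)
    · intro hx
      exact (isIntegral_algHom_iff (N.val.restrictScalars ℤ) N.val.injective).1 hx
  let φ : NumberField.RingOfIntegers N →+* integralClosure ℤ Om :=
    { toFun := fun x => ⟨((x : N) : Om), (hint _).1 x.2⟩
      map_one' := rfl
      map_mul' := fun _ _ => rfl
      map_zero' := rfl
      map_add' := fun _ _ => rfl }
  have hφ : ∀ x : integralClosure ℤ Om, (hx : (x : Om) ∈ N) →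
      ∃ y : NumberField.RingOfIntegers N, ((y : N) : Om) = x ∧ φ y = x := by
    intro x hx
    exact ⟨⟨⟨x, hx⟩, (hint ⟨x, hx⟩).2 x.2⟩, rfl, rfl⟩
  let Q : Ideal (NumberField.RingOfIntegers N) := B.comap φ
  have hQ : Q.IsPrime := Ideal.comap_isPrime φ B
  have hlQ : (l : NumberField.RingOfIntegers N) ∈ Q := by
    change φ _ ∈ B
    rw [map_natCast]
    exact hlB
  have hI' : ∀ σ ∈ Q.inertia (N ≃ₐ[ℚ] N), σ = 1 := by
    intro σ hσ
    obtain ⟨t, ht, ht'⟩ := inertia_surj N B hB σ (by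
      intro x hx
      obtain ⟨y, hy, hy'⟩ := hφ x hx
      refine ⟨φ (σ • y - y), hσ y, ?_⟩
      have h1 : (⟨(x : Om), hx⟩ : N) = (y : N) := Subtype.ext hy.symm
      rw [h1, ← hy]
      rfl)
    apply AlgEquiv.ext
    intro x
    apply Subtype.ext
    rw [← ht' x]
    exact hI t ht x x.2
  exact hlP Q hQ hlQ (E7_unram N l hl Q hQ hlQ hI')

theorem no_unram_PQ {p : ℕ} (hp : p.Prime) (hp2 : p ≠ 2) (ψ : GQ → ZMod p)
    (hψ : HomOn (PQ p) ψ) (hc : LCOn (PQ p) ψ)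
    (h : ∀ B : Ideal ZO, B.IsMaximal → ∀ t ∈ B.inertia GQ, t ∈ PQ p → ψ t = 0) :
    ∀ t ∈ PQ p, ψ t = 0 := by
  intro z hzP
  by_contra hz
  obtain ⟨B, hB, hBp⟩ := R6_exists_max hp
  set I := B.inertia GQ with hI
  set N := E7_N ψ hψ with hN
  have hNn : N.Normal := E7_N_normal hψ
  -- the product `I N` is closed and does not contain `z`
  have hC : IsClosed ((I : Set GQ) * (N : Set GQ)) :=
    (E7_N_closed hψ hc).mul_left_of_isCompact (E7_inertia_closed B).isCompact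
  have hzC : z ∉ (I : Set GQ) * (N : Set GQ) := by
    rintro ⟨i, hi, ν, hν, rfl⟩
    have h1 := (E7_mem_N hψ ν).1 hν 1
    rw [inv_one, one_mul, mul_one] at h1
    have h2 : i ∈ PQ p := by
      have := (PQ p).mul_mem hzP ((PQ p).inv_mem h1.1)
      simpa using this
    exact hz (by
      change ψ (i * ν) = 0
      rw [hψ i h2 ν h1.1, h B hB i hi h2, h1.2, add_zero])
  have hopen : IsOpen ((fun v => z * v) ⁻¹' ((I : Set GQ) * (N : Set GQ))ᶜ) :=
    hC.isOpen_compl.preimage (continuous_const_mul z)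
  obtain ⟨V, hV⟩ := ProfiniteGrp.exist_openNormalSubgroup_sub_open_nhds_of_one hopen
    (by change z * 1 ∉ _; rwa [mul_one])
  have hVn : (V.toSubgroup).Normal := V.isNormal'
  set M : Subgroup GQ := N ⊔ V.toSubgroup with hM
  have hMn : M.Normal := Subgroup.sup_normal _ _
  have hVM : V.toSubgroup ≤ M := le_sup_right
  have hMo : IsOpen (M : Set GQ) := Subgroup.isOpen_mono hVM V.isOpen'
  set H' : Subgroup GQ := I ⊔ M with hH'
  have hzH : z ∉ H' := by
    intro h1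
    obtain ⟨i, hi, w, hw, hiw⟩ := Subgroup.mem_sup_of_normal_right.1 h1
    obtain ⟨ν, hν, v, hv, hνv⟩ := Subgroup.mem_sup_of_normal_right.1 hw
    have h2 := hV (V.toSubgroup.inv_mem hv)
    refine h2 ⟨i, hi, ν, hν, ?_⟩
    change i * ν = z * v⁻¹
    rw [← hiw, ← hνv]
    group
  -- powers of `p`
  have hpow : ∀ s : GQ, ∃ m : ℕ, s ^ (p ^ m) ∈ M := by
    intro s
    have hQo : IsOpen ((M ⊔ PQ p : Subgroup GQ) : Set GQ) := Subgroup.isOpen_mono le_sup_left hMo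
    obtain ⟨m, hm⟩ := E7_pow_mem hp (M ⊔ PQ p) hQo le_sup_right s
    obtain ⟨w, hw, z', hz', hwz⟩ := Subgroup.mem_sup_of_normal_left.1 hm
    refine ⟨m + 1, ?_⟩
    have hzN : z' ^ p ∈ M := (le_sup_left : N ≤ M) (E7_pow_p_mem hψ hz')
    rw [pow_succ, pow_mul, ← hwz, ← QuotientGroup.eq_one_iff, QuotientGroup.mk_pow,
      QuotientGroup.mk_mul, (QuotientGroup.eq_one_iff w).2 hw, one_mul, ← QuotientGroup.mk_pow,
      QuotientGroup.eq_one_iff]
    exact hzN
  obtain ⟨U, hUn, hUp, hHU⟩ := E7_index hp hMn hMo (le_sup_right : M ≤ H') hzH hpow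
  have hUo : IsOpen (U : Set GQ) := Subgroup.isOpen_mono ((le_sup_right : M ≤ H').trans hHU) hMo
  have hNU : N ≤ U := (le_sup_left : N ≤ M).trans ((le_sup_right : M ≤ H').trans hHU)
  have hIU : I ≤ U := (le_sup_left : I ≤ H').trans hHU
  -- the field
  have hcl : IsClosed (U : Set GQ) := Subgroup.isClosed_of_isOpen _ hUo
  have hfix : (fixedField U).fixingSubgroup = U :=
    InfiniteGalois.fixingSubgroup_fixedField (⟨U, hcl⟩ : ClosedSubgroup GQ)
  have hfd : FiniteDimensional ℚ (fixedField U) := by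
    rw [← InfiniteGalois.isOpen_iff_finite]
    change IsOpen ((fixedField U).fixingSubgroup : Set GQ)
    rw [hfix]
    exact hUo
  have hgal : IsGalois ℚ (fixedField U) :=
    (InfiniteGalois.normal_iff_isGalois (fixedField U)).1 (by rw [hfix]; exact hUn)
  have hone : Module.finrank ℚ (fixedField U) = 1 := by
    refine E7_mink (fixedField U) fun l hl => ?_
    by_cases hlp : l = p
    · subst hlp
      exact ⟨B, hB, hBp, fun t ht y hy => hy ⟨t, hIU ht⟩⟩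
    · obtain ⟨B', hB', hlB'⟩ := R6_exists_max hl
      refine ⟨B', hB', hlB', fun t ht y hy => hy ⟨t, ?_⟩⟩
      have hpB' : (p : integralClosure ℤ Om) ∉ B' := by
        have h1 := R6_not_mem hl B' hB' hlB' (p : ℤ) (by
          intro hdvd
          exact hlp ((Nat.prime_dvd_prime_iff_eq hl hp).1 (by exact_mod_cast hdvd)))
        simpa using h1
      have htP : t ∈ PQ p := E7_PQ_of_mu t fun ζ hζ => inertia_fix_mu hp B' hB' hpB' t ht ζ hζ
      exact hNU (E7_inertia_N hψ h B' hB' t ht htP)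
  have hbot : fixedField U = ⊥ := IntermediateField.finrank_eq_one_iff.1 hone
  rw [hbot, IntermediateField.fixingSubgroup_bot] at hfix
  rw [← hfix, Subgroup.index_top] at hUp
  exact hp.one_lt.ne hUp

end OzakiFree
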