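import Pool.Agent.Lib.MP_6e8030_nt.EBase
import Pool.Agent.Lib.MP_6e8030_nt.R4

open IntermediateField
open scoped ComplexConjugate Pointwise

noncomputable section

namespace OzakiFree

theorem E8_pow {R : Type*} [CommRing R] (q : Ideal R) (hq : q.IsMaximal) {l : ℕ} (hl : l.Prime)
    (hcard : Nat.card (R ⧸ q) = l) (z : R) : z ^ l - z ∈ q := by
  let : Field (R ⧸ q) := Ideal.Quotient.field q
  have : Finite (R ⧸ q) := Nat.finite_of_card_ne_zero (by rw [hcard]; exact hl.ne_zero)
  let : Fintype (R ⧸ q) := Fintype.ofFinite _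
  have h := FiniteField.pow_card (Ideal.Quotient.mk q z)
  rw [← Nat.card_eq_fintype_card, hcard, ← map_pow] at h
  exact Ideal.Quotient.eq.mp h

theorem E8_l {R : Type*} [CommRing R] (q : Ideal R) {l : ℕ}
    (hcard : Nat.card (R ⧸ q) = l) : (l : R) ∈ q := by
  have h : Nat.card (R ⧸ q) • (1 : R ⧸ q) = 0 := card_nsmul_eq_zero'
  rw [hcard, nsmul_one] at h
  rw [← Ideal.Quotient.eq_zero_iff_mem, map_natCast]
  exact h

theorem E8_root (l : ℕ) (hl : 0 < l) (z : ZO) : ∃ y : ZO, y ^ l = z := by
  obtain ⟨y, hy⟩ := IsAlgClosed.exists_pow_nat_eq (z : Om) hl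
  have hint : IsIntegral ℤ y := IsIntegral.of_pow hl (by rw [hy]; exact z.2)
  exact ⟨⟨y, hint⟩, Subtype.ext hy⟩

theorem exists_frob (F : IntermediateField ℚ Om) [FiniteDimensional ℚ F] {l : ℕ} (hl : l.Prime)
    (q : Ideal (ZF F)) (hq : q.IsMaximal) (hcard : Nat.card (ZF F ⧸ q) = l)
    (B : Ideal ZO) (hB : B.IsMaximal) (hBq : B.comap (iota F) = q) :
    ∃ g ∈ F.fixingSubgroup, ∀ z : ZO, g • z - z ^ l ∈ B := by
  classical
  let : TopologicalSpace (integralClosure ℤ Om) := ⊥
  have : DiscreteTopology (integralClosure ℤ Om) := ⟨rfl⟩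
  have : ContinuousSMul (Om ≃ₐ[F] Om) (integralClosure ℤ Om) := by
    rw [continuousSMul_iff_stabilizer_isOpen]
    intro x
    have h1 := stabilizer_isOpen_of_isIntegral (K := F) (L := Om) (x : Om)
    convert h1 using 1
    ext g
    constructor
    · intro h
      exact congrArg Subtype.val h
    · intro h
      exact Subtype.ext h
  have := hB.isPrime
  have hlB : (l : ZO) ∈ B := by
    have h := E8_l q hcard
    rw [← hBq, Ideal.mem_comap, map_natCast] at h
    exact h
  let : Field (ZO ⧸ B) := Ideal.Quotient.field B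
  have : Fact l.Prime := ⟨hl⟩
  have : CharP (ZO ⧸ B) l := by
    rw [CharP.charP_iff_prime_eq_zero hl]
    rw [← map_natCast (Ideal.Quotient.mk B), Ideal.Quotient.eq_zero_iff_mem]
    exact hlB
  have hpow : ∀ a : R4A F, (a : ZO) ^ l - (a : ZO) ∈ B := by
    intro a
    let z : ZF F := ⟨⟨((a : ZO) : Om), a.2⟩, by
      have h1 : IsIntegral ℤ ((a : ZO) : Om) := (a : ZO).2
      have h2 : IsIntegral ℤ (FLhom F (⟨((a : ZO) : Om), a.2⟩ : F)) := h1
      rw [← RingHom.coe_coe (FLhom F)] at h2
      exact (isIntegral_algHom_iff ((FLhom F).toIntAlgHom) (FLhom F).injective).mp h2⟩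
    have h3 := E8_pow q hq hl hcard z
    rw [← hBq, Ideal.mem_comap, map_sub, map_pow] at h3
    exact h3
  have hinj : Function.Injective (frobenius (ZO ⧸ B) l) := (frobenius (ZO ⧸ B) l).injective
  have hsurj : Function.Surjective (frobenius (ZO ⧸ B) l) := by
    rintro ⟨z⟩
    obtain ⟨y, hy⟩ := E8_root l hl.pos z
    refine ⟨Ideal.Quotient.mk B y, ?_⟩
    rw [frobenius_def, ← map_pow, hy]
    rfl
  let e : (integralClosure ℤ Om ⧸ B) ≃ₐ[R4A F ⧸ B.under (R4A F)] (integralClosure ℤ Om ⧸ B) :=
    { __ := RingEquiv.ofBijective (frobenius (ZO ⧸ B) l) ⟨hinj, hsurj⟩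
      commutes' := by
        rintro ⟨a⟩
        change (Ideal.Quotient.mk B (a : ZO)) ^ l = Ideal.Quotient.mk B (a : ZO)
        rw [← map_pow, Ideal.Quotient.eq]
        exact hpow a }
  obtain ⟨s, hs⟩ := Ideal.Quotient.stabilizerHom_surjective_of_profinite
    (G := (Om ≃ₐ[F] Om)) (B.under (R4A F)) B e
  let s' : GQ := AlgEquiv.restrictScalars ℚ (s : Om ≃ₐ[F] Om)
  refine ⟨s', ?_, ?_⟩
  · intro x
    exact (s : Om ≃ₐ[F] Om).commutes x
  · intro z
    rw [← Ideal.Quotient.eq]
    have h := DFunLike.congr_fun hs (Ideal.Quotient.mk B z)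
    exact h

theorem E8_one {p : ℕ} (hp : p.Prime) (B : Ideal ZO) (hB : B.IsMaximal) {l : ℕ} (hl : l.Prime)
    (hlp : l ≠ p) (hlB : (l : ZO) ∈ B) (u : ZO) (hu : u ^ (p ^ 2) = 1) (h1 : u - 1 ∈ B) :
    u = 1 := by
  -- reduce to order `p`
  have key : ∀ v : ZO, v ^ p = 1 → v - 1 ∈ B → v = 1 := by
    intro v hv hv1
    by_contra hne
    have h2 : (v - 1) * ∑ i ∈ Finset.range p, v ^ i = 0 := by
      rw [mul_comm, geom_sum_mul, hv, sub_self]
    have h3 : ∑ i ∈ Finset.range p, v ^ i = 0 := by
      rcases mul_eq_zero.mp h2 with h | h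
      · exact absurd (sub_eq_zero.mp h) hne
      · exact h
    have h4 : (p : ZO) ∈ B := by
      rw [← Ideal.Quotient.eq_zero_iff_mem]
      have h5 : Ideal.Quotient.mk B v = 1 := by
        rw [← map_one (Ideal.Quotient.mk B), Ideal.Quotient.eq]
        exact hv1
      have h6 := congrArg (Ideal.Quotient.mk B) h3
      rw [map_sum, map_zero] at h6
      simp only [map_pow, h5, one_pow, Finset.sum_const, Finset.card_range, nsmul_eq_mul,
        mul_one] at h6
      rw [map_natCast]
      exact h6
    have h7 : Nat.Coprime l p := (Nat.coprime_primes hl hp).mpr hlp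
    have h8 : IsCoprime (l : ℤ) (p : ℤ) := Nat.isCoprime_iff_coprime.mpr h7
    obtain ⟨a, b, hab⟩ := h8
    apply hB.ne_top
    rw [Ideal.eq_top_iff_one]
    have h9 : (1 : ZO) = (a : ZO) * (l : ZO) + (b : ZO) * (p : ZO) := by
      have := congrArg (fun n : ℤ => (n : ZO)) hab
      push_cast at this
      exact this.symm
    rw [h9]
    exact B.add_mem (B.mul_mem_left _ hlB) (B.mul_mem_left _ h4)
  have hup : u ^ p = 1 := by
    apply key
    · rw [← pow_mul, ← sq]
      exact hu
    · have : u - 1 ∣ u ^ p - 1 := by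
        have := sub_dvd_pow_sub_pow u 1 p
        rwa [one_pow] at this
      exact B.mem_of_dvd this h1
  exact key u hup h1

theorem E8_card {D : Type*} [CommRing D] [IsDomain D] {l : ℕ} (hl : l.Prime) (hl0 : (l : D) = 0)
    (h : ∀ x : D, x ^ l = x) : Nat.card D = l := by
  classical
  have : Fact l.Prime := ⟨hl⟩
  have : CharP D l := (CharP.charP_iff_prime_eq_zero hl).mpr hl0
  let f : ZMod l →+* D := ZMod.castHom dvd_rfl D
  have hf : Function.Injective f := f.injective
  have hs : Function.Surjective f := by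
    intro x
    by_contra hx
    push Not at hx
    let P : Polynomial D := Polynomial.X ^ l - Polynomial.X
    have hdeg : P.natDegree = l := by
      have h1 : (Polynomial.X : Polynomial D).natDegree < (Polynomial.X ^ l : Polynomial D).natDegree := by
        rw [Polynomial.natDegree_X, Polynomial.natDegree_X_pow]
        exact hl.one_lt
      have h2 := Polynomial.natDegree_sub_eq_left_of_natDegree_lt h1
      rw [Polynomial.natDegree_X_pow] at h2
      exact h2
    have hP0 : P ≠ 0 := by
      intro h0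
      rw [h0, Polynomial.natDegree_zero] at hdeg
      exact hl.ne_zero hdeg.symm
    have hroot : ∀ y : D, y ∈ P.roots := by
      intro y
      rw [Polynomial.mem_roots hP0, Polynomial.IsRoot.def, Polynomial.eval_sub,
        Polynomial.eval_pow, Polynomial.eval_X, h y, sub_self]
    let S : Finset D := insert x (Finset.univ.image f)
    have hS : S.card = l + 1 := by
      rw [Finset.card_insert_of_notMem, Finset.card_image_of_injective _ hf, Finset.card_univ,
        ZMod.card]
      intro hmem
      obtain ⟨a, -, ha⟩ := Finset.mem_image.mp hmem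
      exact hx a ha
    have hle : S.card ≤ P.roots.toFinset.card := by
      apply Finset.card_le_card
      intro y _
      rw [Multiset.mem_toFinset]
      exact hroot y
    have h2 : P.roots.toFinset.card ≤ l := by
      exact (Multiset.toFinset_card_le _).trans ((Polynomial.card_roots' P).trans hdeg.le)
    omega
  rw [← Nat.card_congr (Equiv.ofBijective f ⟨hf, hs⟩), Nat.card_zmod]

theorem degree_one_EF {p : ℕ} (hp : p.Prime) (F : IntermediateField ℚ Om)
    [FiniteDimensional ℚ F] [FiniteDimensional ℚ (EF p F)] {l : ℕ} (hl : l.Prime)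
    (hmod : l ≡ 1 [MOD p ^ 2]) (q : Ideal (ZF F)) (hq : q.IsMaximal)
    (hcard : Nat.card (ZF F ⧸ q) = l)
    (B : Ideal ZO) (hB : B.IsMaximal) (hBq : B.comap (iota F) = q) :
    Nat.card (ZF (EF p F) ⧸ B.comap (iota (EF p F))) = l := by
  obtain ⟨g, hgF, hg⟩ := exists_frob F hl q hq hcard B hB hBq
  have hlB : (l : ZO) ∈ B := by
    have h := E8_l q hcard
    rw [← hBq, Ideal.mem_comap, map_natCast] at h
    exact h
  have hlp : l ≠ p := by
    rintro rfl
    have h1 : l ∣ 1 := by
      have h2 : l ∣ l ^ 2 := Dvd.intro_left (l ^ 1) (by ring)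
      exact (Nat.ModEq.dvd_iff hmod h2).mp dvd_rfl
    exact hl.one_lt.ne' (Nat.dvd_one.mp h1)
  -- `g` fixes the `p²`-th roots of unity
  have hgmu : ∀ x : Om, x ^ (p ^ 2) = 1 → g x = x := by
    intro x hx
    have hx0 : x ≠ 0 := by
      rintro rfl
      rw [zero_pow (pow_ne_zero 2 hp.ne_zero)] at hx
      exact zero_ne_one hx
    have hxi : IsIntegral ℤ x := IsIntegral.of_pow (pow_pos hp.pos 2) (by rw [hx]; exact isIntegral_one)
    let z : ZO := ⟨x, hxi⟩
    have hz : z ^ (p ^ 2) = 1 := Subtype.ext hx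
    have hzl : z ^ l = z := by
      have h1 : l % (p ^ 2) = 1 % (p ^ 2) := hmod
      have h2 : l = p ^ 2 * (l / p ^ 2) + l % (p ^ 2) := (Nat.div_add_mod _ _).symm
      have h3 : 1 % (p ^ 2) = 1 := Nat.mod_eq_of_lt (Nat.one_lt_pow (by norm_num) hp.one_lt)
      rw [h2, h1, h3, pow_add, pow_mul, hz, one_pow, one_mul, pow_one]
    have h4 := hg z
    rw [hzl] at h4
    -- u = (g z) * z^(p^2-1)
    let u : ZO := (g • z) * z ^ (p ^ 2 - 1)
    have hp2 : p ^ 2 - 1 + 1 = p ^ 2 := Nat.sub_add_cancel (Nat.one_le_pow _ _ hp.pos)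
    have hzz : z ^ (p ^ 2 - 1) * z = 1 := by rw [← pow_succ, hp2, hz]
    have hu : u ^ (p ^ 2) = 1 := by
      have h5 : (g • z) ^ (p ^ 2) = 1 := by
        rw [← smul_pow', hz, smul_one]
      change ((g • z) * z ^ (p ^ 2 - 1)) ^ (p ^ 2) = 1
      rw [mul_pow, h5, ← pow_mul, mul_comm (p ^ 2 - 1), pow_mul, hz, one_pow, one_mul]
    have hu1 : u - 1 ∈ B := by
      have h6 : u - 1 = z ^ (p ^ 2 - 1) * (g • z - z) := by
        rw [mul_sub, hzz, mul_comm]
      rw [h6]
      exact B.mul_mem_left _ h4
    have h7 := E8_one hp B hB hl hlp hlB u hu hu1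
    have h8 : g • z = z := by
      have h9 : u * z = z := by rw [h7, one_mul]
      have h10 : u * z = g • z := by
        change (g • z) * z ^ (p ^ 2 - 1) * z = g • z
        rw [mul_assoc, hzz, mul_one]
      rw [← h10, h9]
    exact congrArg Subtype.val h8
  have hgE : ∀ x ∈ EF p F, g x = x := by
    have h1 : EF p F ≤ IntermediateField.fixedField (Subgroup.zpowers g) := by
      unfold EF
      rw [sup_le_iff]
      constructor
      · intro x hx
        rw [IntermediateField.mem_fixedField_iff]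
        intro t ht
        have h2 : Subgroup.zpowers g ≤ F.fixingSubgroup := by
          rw [Subgroup.zpowers_le]
          exact hgF
        exact (IntermediateField.mem_fixingSubgroup_iff F t).mp (h2 ht) x hx
      · rw [IntermediateField.adjoin_le_iff]
        intro x hx
        change x ∈ IntermediateField.fixedField (Subgroup.zpowers g)
        rw [IntermediateField.mem_fixedField_iff]
        intro t ht
        have h2 : Subgroup.zpowers g ≤ MulAction.stabilizer GQ x := by
          rw [Subgroup.zpowers_le]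
          exact hgmu x hx
        exact h2 ht
    intro x hx
    have h2 := h1 hx
    rw [IntermediateField.mem_fixedField_iff] at h2
    exact h2 g (Subgroup.mem_zpowers g)
  have : (B.comap (iota (EF p F))).IsPrime := by
    have := hB.isPrime
    exact Ideal.comap_isPrime _ _
  apply E8_card hl
  · rw [← map_natCast (Ideal.Quotient.mk (B.comap (iota (EF p F)))), Ideal.Quotient.eq_zero_iff_mem,
      Ideal.mem_comap, map_natCast]
    exact hlB
  · rintro ⟨z⟩
    change (Ideal.Quotient.mk _ z) ^ l = Ideal.Quotient.mk _ z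
    rw [← map_pow, Ideal.Quotient.eq, Ideal.mem_comap, map_sub, map_pow]
    have h1 := hg (iota (EF p F) z)
    have h2 : g • (iota (EF p F) z) = iota (EF p F) z := by
      apply Subtype.ext
      exact hgE z.val (ZF_val_mem z)
    rw [h2] at h1
    rw [← neg_sub]
    exact B.neg_mem h1

end OzakiFree
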