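import Pool.Agent.Lib.MP_6e8030_nt.EBase
import Pool.Agent.Lib.MP_6e8030_nt.R4

open IntermediateField
open scoped ComplexConjugate Pointwise

noncomputable section

namespace OzakiFree

/-! ### E9: `Gal(Om/F)` acts transitively on the maximal ideals above a prime of `F` -/

private theorem E9_lift (F : IntermediateField ℚ Om) (z : ZO) (hz : (z : Om) ∈ F) :
    ∃ w : ZF F, iota F w = z := by
  have h1 : IsIntegral ℤ ((⟨(z : Om), hz⟩ : F) : F) := by
    have h2 : IsIntegral ℤ ((algebraMap F Om) (⟨(z : Om), hz⟩ : F)) := z.2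
    exact (isIntegral_algebraMap_iff (algebraMap F Om).injective).1 h2
  refine ⟨(⟨(⟨(z : Om), hz⟩ : F), ?_⟩ : NumberField.RingOfIntegers (FL F)), ?_⟩
  · exact h1
  · exact Subtype.ext rfl

theorem trans_F (F : IntermediateField ℚ Om) [FiniteDimensional ℚ F] (B B' : Ideal ZO)
    (hB : B.IsMaximal) (hB' : B'.IsMaximal) (h : B.comap (iota F) = B'.comap (iota F)) :
    ∃ g ∈ F.fixingSubgroup, ∀ x : ZO, x ∈ B' ↔ g • x ∈ B := by
  classical
  let : TopologicalSpace (integralClosure ℤ Om) := ⊥
  have : DiscreteTopology (integralClosure ℤ Om) := ⟨rfl⟩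
  have : ContinuousSMul (Om ≃ₐ[F] Om) (integralClosure ℤ Om) := by
    rw [continuousSMul_iff_stabilizer_isOpen]
    intro x
    have h1 := stabilizer_isOpen_of_isIntegral (K := F) (L := Om) (x : Om)
    convert h1 using 1
    ext g
    constructor
    · intro h
      exact congrArg Subtype.val h
    · intro h
      exact Subtype.ext h
  have := hB.isPrime
  have := hB'.isPrime
  have hunder : B'.under (R4A F) = B.under (R4A F) := by
    ext z
    obtain ⟨w, hw⟩ := E9_lift F (z : ZO) z.2
    change (z : ZO) ∈ B' ↔ (z : ZO) ∈ B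
    rw [← hw, ← Ideal.mem_comap, ← Ideal.mem_comap, h]
  obtain ⟨s, hs⟩ := Algebra.IsInvariant.exists_smul_of_under_eq_of_profinite
    (A := R4A F) (G := (Om ≃ₐ[F] Om)) B' B hunder
  refine ⟨AlgEquiv.restrictScalars ℚ s, ?_, ?_⟩
  · rw [IntermediateField.mem_fixingSubgroup_iff]
    intro x hx
    exact s.commutes ⟨x, hx⟩
  · intro x
    have h1 : (AlgEquiv.restrictScalars ℚ s) • x ∈ B ↔ s • x ∈ s • B' := by
      rw [← hs]
      rfl
    rw [h1, Ideal.smul_mem_pointwise_smul_iff]

end OzakiFree
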