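import Pool.Agent.Lib.MP_6e8030_nt.E1
import Pool.Agent.Lib.MP_6e8030_nt.E2
import Pool.Agent.Lib.MP_6e8030_nt.E3a
import Pool.Agent.Lib.MP_6e8030_nt.E3b
import Pool.Agent.Lib.MP_6e8030_nt.E4
import Pool.Agent.Lib.MP_6e8030_nt.E5
import Pool.Agent.Lib.MP_6e8030_nt.E6
import Pool.Agent.Lib.MP_6e8030_nt.E7
import Pool.Agent.Lib.MP_6e8030_nt.E8
import Pool.Agent.Lib.MP_6e8030_nt.E9
import Pool.Agent.Lib.MP_6e8030_nt.E10
import Pool.Agent.Lib.MP_6e8030_nt.E11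
import Pool.Agent.Lib.MP_6e8030_nt.E12
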