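import Pool.Agent.Lib.MP_6e8030_nt.GDefs

open IntermediateField
open scoped ComplexConjugate

noncomputable section

namespace OzakiFree

/-- The prime ideal `q` of `F` is ramified in `k`: some element of an inertia group above `q` in
`Gal(Om/F)` acts nontrivially on `k`. -/
def RamIn (F k : IntermediateField ℚ Om) (q : Ideal (ZF F)) : Prop :=
  ∃ B : Ideal ZBar, B.IsMaximal ∧ (∀ z : ZF F, z ∈ q ↔ ∃ b ∈ B, b.val = z.val) ∧
    ∃ t, Fixes t F ∧ InInertia B t ∧ ¬ Fixes t k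

/-- The prime ideals `q` of `F` of degree one (`l = Nq` is a prime number) which are ramified in
`k` such that `l ≡ 1 mod p ^ 2` and `p` is not a `p`-th power modulo `l`. -/
def CycRam (p : ℕ) (F k : IntermediateField ℚ Om) : Set (Ideal (ZF F)) :=
  {q | q.IsMaximal ∧ (Nat.card (ZF F ⧸ q)).Prime ∧ Nat.card (ZF F ⧸ q) ≡ 1 [MOD p ^ 2] ∧
    (∀ x : ℕ, ¬ x ^ p ≡ p [MOD Nat.card (ZF F ⧸ q)]) ∧ RamIn F k q}

/-- `k/F` is a cyclic extension of degree `p`. -/
def CyclicExt (p : ℕ) (F k : IntermediateField ℚ Om) : Prop :=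
  F ≤ k ∧ relfinrank F k = p ∧ ∀ t, Fixes t F → ∀ x ∈ k, t x ∈ k

end OzakiFree
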