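import Pool.Agent.Lib.MP_6e8030_nt.GBase
import Pool.Agent.Lib.MP_6e8030_nt.EDefs

open IntermediateField
open scoped ComplexConjugate

noncomputable section

namespace OzakiFree

/-- `Gal(Om/ℚ_∞)`, `ℚ_∞` the cyclotomic `ℤ_p`-extension of `ℚ` -/
def PQ (p : ℕ) : Subgroup GQ := (cycZp p ⊥).fixingSubgroup

/-- `Gal(Om/ℚ_1)`, `ℚ_1 = ℚ(μ_{p²}) ∩ ℚ_∞` the first layer of `ℚ_∞` -/
def N1 (p : ℕ) : Subgroup GQ :=
  (adjoin ℚ {x : Om | x ^ (p ^ 2) = 1} ⊓ cycZp p ⊥).fixingSubgroup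

/-- `F(μ_{p²})` -/
def EF (p : ℕ) (F : IntermediateField ℚ Om) : IntermediateField ℚ Om :=
  F ⊔ adjoin ℚ {x : Om | x ^ (p ^ 2) = 1}

end OzakiFree
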