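import Pool.Agent.Lib.MP_6e8030_nt.GCore2

open IntermediateField
open scoped ComplexConjugate

noncomputable section

namespace OzakiFree

variable {p : ℕ} {ζ : Om} {F : IntermediateField ℚ Om}

/-! ### degree one primes -/

theorem card_mem (q : Ideal (ZF F)) {l : ℕ} (hcard : Nat.card (ZF F ⧸ q) = l) :
    (l : ZF F) ∈ q := by
  rw [← Ideal.Quotient.eq_zero_iff_mem, map_natCast, ← hcard]
  have := card_nsmul_eq_zero' (G := ZF F ⧸ q) (x := 1)
  simpa using this

theorem not_both_mem (q : Ideal (ZF F)) (hq : q.IsMaximal) {l l' : ℕ} (hl : l.Prime)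
    (hl' : l'.Prime) (hne : l ≠ l') (h : (l : ZF F) ∈ q) : (l' : ZF F) ∉ q := by
  intro h'
  have hc : IsCoprime (l : ℤ) (l' : ℤ) := by
    rw [Nat.isCoprime_iff_coprime]; exact (Nat.coprime_primes hl hl').2 hne
  obtain ⟨u, v, huv⟩ := hc
  apply hq.ne_top
  rw [Ideal.eq_top_iff_one]
  have e : ((u : ZF F)) * (l : ZF F) + (v : ZF F) * (l' : ZF F) = 1 := by
    have := congrArg (Int.cast : ℤ → ZF F) huv
    push_cast at this
    exact this
  rw [← e]
  exact q.add_mem (q.mul_mem_left _ h) (q.mul_mem_left _ h')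

theorem w_of_ram (hp : p.Prime) (hζ : IsPrimitiveRoot ζ p) (hμ : ∀ x : Om, x ^ p = 1 → x ∈ F)
    (q : Ideal (ZF F)) (hq : q.IsMaximal) {l : ℕ} (hl : l.Prime) (hlp : l ≠ p)
    (hcard : Nat.card (ZF F ⧸ q) = l) (hmod : ¬ l ≡ 1 [MOD p ^ 2]) :
    ¬ (l : ℤ) ^ (p - 1) ≡ 1 [ZMOD (p ^ 2 : ℕ)] := by
  -- `ζ` in `ZF F`
  have hζF : ζ ∈ F := hμ ζ hζ.pow_eq_one
  have hζint : IsIntegral ℤ (⟨ζ, hζF⟩ : FL F) := by
    refine ⟨Polynomial.X ^ p - 1, Polynomial.monic_X_pow_sub_C 1 hp.ne_zero, ?_⟩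
    rw [Polynomial.eval₂_sub, Polynomial.eval₂_X_pow, Polynomial.eval₂_one]
    have : (⟨ζ, hζF⟩ : FL F) ^ p = 1 := Subtype.ext hζ.pow_eq_one
    rw [this, sub_self]
  let z : ZF F := ⟨(⟨ζ, hζF⟩ : FL F), hζint⟩
  have hzval : z.val = ζ := rfl
  have hmul : ∀ x x' : ZF F, (x * x').val = x.val * x'.val := fun _ _ => rfl
  have hpow : ∀ (x : ZF F) (k : ℕ), (x ^ k).val = x.val ^ k := by
    intro x k
    induction k with
    | zero => rfl
    | succ k ih => rw [pow_succ, pow_succ, hmul, ih]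
  have hzp : z ^ p = 1 := ZF_val_inj _ _ (by rw [hpow, hzval, hζ.pow_eq_one]; rfl)
  have hpq : (p : ZF F) ∉ q := not_both_mem q hq hl hp hlp (card_mem q hcard)
  have hdvd : p ∣ l - 1 := by
    by_contra hcon
    have hfin : Finite (ZF F ⧸ q) := by
      refine Nat.finite_of_card_ne_zero ?_
      rw [hcard]; exact hl.ne_zero
    have : Fintype (ZF F ⧸ q) := Fintype.ofFinite _
    letI : Field (ZF F ⧸ q) := Ideal.Quotient.field q
    set u : ZF F ⧸ q := Ideal.Quotient.mk q z with hu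
    have hup : u ^ p = 1 := by rw [hu, ← map_pow, hzp, map_one]
    have hu0 : u ≠ 0 := by
      intro h
      rw [h, zero_pow hp.ne_zero] at hup
      exact zero_ne_one hup
    have hul : u ^ (l - 1) = 1 := by
      have := FiniteField.pow_card_sub_one_eq_one u hu0
      rwa [← Nat.card_eq_fintype_card, hcard] at this
    have hu1 : u = 1 := by
      have hcop : Nat.Coprime (l - 1) p :=
        Nat.Coprime.symm ((Nat.Prime.coprime_iff_not_dvd hp).2 hcon)
      have h1 : orderOf u ∣ l - 1 := orderOf_dvd_of_pow_eq_one hul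
      have h2 : orderOf u ∣ p := orderOf_dvd_of_pow_eq_one hup
      have h3 : orderOf u ∣ 1 := by
        rw [← Nat.Coprime.gcd_eq_one hcop]; exact Nat.dvd_gcd h1 h2
      exact orderOf_eq_one_iff.1 (Nat.dvd_one.1 h3)
    have hgeom : ∑ i ∈ Finset.range p, z ^ i = 0 := by
      have h1 : (z - 1) * ∑ i ∈ Finset.range p, z ^ i = 0 := by
        rw [mul_geom_sum, hzp, sub_self]
      rcases mul_eq_zero.1 h1 with h | h
      · exfalso
        have h2 : z = 1 := sub_eq_zero.1 h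
        have h3 : ζ = 1 := by rw [← hzval, h2]; rfl
        rw [h3] at hζ
        exact hp.ne_one (hζ.unique IsPrimitiveRoot.one)
      · exact h
    apply hpq
    rw [← Ideal.Quotient.eq_zero_iff_mem, map_natCast]
    have h4 := congrArg (Ideal.Quotient.mk q) hgeom
    rw [map_sum, map_zero] at h4
    simp only [map_pow, ← hu, hu1, one_pow, Finset.sum_const, Finset.card_range, nsmul_eq_mul,
      mul_one] at h4
    exact h4
  obtain ⟨c, hc⟩ := hdvd
  have hl1 : l = 1 + p * c := by have := hl.pos; omega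
  intro hcon
  have h1 := one_add_mul_pow (p : ℤ) (c : ℤ) (p - 1)
  have h2 : (l : ℤ) = 1 + p * c := by rw [hl1]; push_cast; ring
  rw [← h2] at h1
  have hcast : ((p ^ 2 : ℕ) : ℤ) = (p : ℤ) ^ 2 := by push_cast; rfl
  rw [hcast] at hcon
  have h3 := (h1.symm.trans hcon).symm
  have h4 := Int.modEq_iff_dvd.1 h3
  have hp0 : (p : ℤ) ≠ 0 := by exact_mod_cast hp.ne_zero
  have h5 : (p : ℤ) ∣ c * ((p - 1 : ℕ) : ℤ) := by
    have e : 1 + (p : ℤ) * (c * ((p - 1 : ℕ) : ℤ)) - 1 = p * (c * ((p - 1 : ℕ) : ℤ)) := by ring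
    rw [e, pow_two] at h4
    exact (mul_dvd_mul_iff_left hp0).1 h4
  rcases (Nat.prime_iff_prime_int.1 hp).dvd_or_dvd h5 with h | h
  · apply hmod
    have h6 : p ∣ c := by exact_mod_cast h
    obtain ⟨j, rfl⟩ := h6
    rw [hl1]
    exact (Nat.modEq_iff_dvd' (by omega)).2 ⟨j, by
      rw [Nat.add_sub_cancel_left]; ring⟩ |>.symm
  · have h6 : p ∣ p - 1 := by exact_mod_cast h
    have := Nat.le_of_dvd (by have := hp.one_lt; omega) h6
    have := hp.pos
    omega

/-! ### conjugate inertia groups -/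

theorem conj_inertia' (B : Ideal ZO) (hB : B.IsMaximal) (g : GQ) :
    ∃ B' : Ideal ZO, B'.IsMaximal ∧ (∀ x : ZO, x ∈ B' ↔ g • x ∈ B) ∧
      ∀ t ∈ B.inertia GQ, g⁻¹ * t * g ∈ B'.inertia GQ := by
  let e := MulSemiringAction.toRingEquiv GQ ZO g
  have he : ∀ x, e x = g • x := fun x => rfl
  refine ⟨B.comap (e : ZO →+* ZO), Ideal.comap_isMaximal_of_equiv e, fun x => Iff.rfl, ?_⟩
  intro t ht
  rw [AddSubgroup.mem_inertia] at ht ⊢
  intro x
  have h1 := ht (g • x)
  show e ((g⁻¹ * t * g) • x - x) ∈ B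
  rw [map_sub, he, he, ← mul_smul]
  have : g * (g⁻¹ * t * g) = t * g := by group
  rw [this, mul_smul]
  exact h1

theorem smul_natCast' (g : GQ) (a : ℕ) : g • (a : ZO) = (a : ZO) :=
  Subtype.ext (map_natCast g a)

theorem good_fix {l : ℕ} (hgood : Good F l) (B : Ideal ZO) (hB : B.IsMaximal)
    (hlB : (l : ZO) ∈ B) (t : GQ) (ht : t ∈ B.inertia GQ) : t ∈ F.fixingSubgroup := by
  rw [IntermediateField.mem_fixingSubgroup_iff]
  intro x hx
  exact hgood B hB hlB t 1 (fun z => ⟨t • (iota F z) - iota F z, ht (iota F z), rfl⟩) x hx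

end OzakiFree
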