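import Pool.Agent.Lib.MP_6e8030_nt.EAll
import Pool.Agent.Lib.MP_6e8030_nt.GMain

open IntermediateField
open scoped ComplexConjugate

noncomputable section

namespace OzakiFree

variable {p : ℕ} {ζ : Om} {F E : IntermediateField ℚ Om}

/-! ### the groups -/

/-- `Gal(Om/F_∞)` for arbitrary `F` -/
abbrev MF (p : ℕ) (F : IntermediateField ℚ Om) : Subgroup GQ := PQ p ⊓ F.fixingSubgroup

theorem mem_PQ_of_mu (hp : p.Prime) (σ : GQ) (h : ∀ ξ ∈ muInf p, σ ξ = ξ) : σ ∈ PQ p :=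
  (mem_PQ_iff hp σ).2 ⟨1, one_pos, fun ξ hξ => by rw [pow_one]; exact h ξ hξ⟩

theorem PQ_conj (hp : p.Prime) (g t : GQ) (ht : t ∈ PQ p) : g * t * g⁻¹ ∈ PQ p := by
  have := (PQ p).mul_mem (PQ_comm hp g t) ht
  rwa [inv_mul_cancel_right] at this

theorem PQ_conj' (hp : p.Prime) (g t : GQ) (ht : t ∈ PQ p) : g⁻¹ * t * g ∈ PQ p := by
  have := PQ_conj hp g⁻¹ t ht
  rwa [inv_inv] at this

theorem inertia_mem_PQ (hp : p.Prime) (B : Ideal ZO) (hB : B.IsMaximal) (hpB : (p : ZO) ∉ B)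
    (t : GQ) (ht : t ∈ B.inertia GQ) : t ∈ PQ p :=
  mem_PQ_of_mu hp t fun ξ hξ => inertia_fix_mu hp B hB hpB t ht ξ hξ

theorem ME_PF (hp : p.Prime) (hp2 : p ≠ 2) (hμ : ∀ x : Om, x ^ p = 1 → x ∈ E) (t : GQ)
    (ht : t ∈ PQ p) (htE : t ∈ E.fixingSubgroup) : t ∈ PF p E := by
  refine ⟨?_, htE⟩
  rw [PP_odd hp2]
  exact (mem_fix_adjoin _ _).2 (PQ_mu hp hp2 t ht fun ξ hξ => fix_F htE ξ (hμ ξ hξ))

/-! ### ideals -/

theorem exists_lift_ZF (hFE : F ≤ E) (z : ZF F) : ∃ w : ZF E, w.val = z.val := by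
  let x : FL E := ⟨z.val, hFE (ZF_val_mem z)⟩
  have hx : FLhom E x = z.val := rfl
  have hint : IsIntegral ℤ x := by
    refine (isIntegral_algHom_iff (FLhom E).toIntAlgHom (FLhom E).injective).1 ?_
    show IsIntegral ℤ (FLhom E x)
    rw [hx]
    exact ZF_val_isIntegral z
  exact ⟨⟨x, hint⟩, rfl⟩

theorem comap_lower (hFE : F ≤ E) (B B' : Ideal ZO)
    (h : B.comap (iota E) = B'.comap (iota E)) : B.comap (iota F) = B'.comap (iota F) := by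
  have key : ∀ (B : Ideal ZO) (z : ZF F) (w : ZF E), w.val = z.val →
      (z ∈ B.comap (iota F) ↔ w ∈ B.comap (iota E)) := by
    intro B z w hw
    rw [mem_comap_iff, mem_comap_iff]
    have : iota F z = iota E w := Subtype.ext hw.symm
    rw [this]
  ext z
  obtain ⟨w, hw⟩ := exists_lift_ZF hFE z
  rw [key B z w hw, key B' z w hw, h]

/-- `h` maps `Q` into `B` -/
def Lies (E : IntermediateField ℚ Om) (h : GQ) (B : Ideal ZO) (Q : Ideal (ZF E)) : Prop :=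
  ∀ z : ZF E, z ∈ Q ↔ ∃ b ∈ B, (b : Om) = h z.val

theorem lies_iff (g : GQ) (B B' : Ideal ZO) (hmem : ∀ x : ZO, x ∈ B' ↔ g • x ∈ B)
    (Q : Ideal (ZF E)) : B'.comap (iota E) = Q ↔ Lies E g B Q := by
  have e : ∀ w : ZF E, w ∈ B'.comap (iota E) ↔ ∃ b ∈ B, (b : Om) = g w.val := by
    intro w
    rw [mem_comap_iff, hmem]
    constructor
    · intro h; exact ⟨_, h, rfl⟩
    · rintro ⟨b, hb, hb'⟩
      have : b = g • (iota E w) := Subtype.ext hb'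
      rw [← this]; exact hb
  constructor
  · intro h w; rw [← e w, h]
  · intro h
    ext w
    rw [e w, h w]

theorem lies_congr (g g' : GQ) (h : ∀ x ∈ E, g x = g' x) (B : Ideal ZO) (Q : Ideal (ZF E))
    (hg : Lies E g B Q) : Lies E g' B Q := by
  intro w
  rw [hg w, h _ (ZF_val_mem w)]

/-- conjugates of inertia elements -/
theorem conj_inertia_MF (hp : p.Prime) (B : Ideal ZO) (hB : B.IsMaximal) (t : GQ)
    (ht : t ∈ B.inertia GQ) (htP : t ∈ PQ p) (g : GQ) (n : ℕ) :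
    ∃ B' : Ideal ZO, B'.IsMaximal ∧ (∀ x : ZO, x ∈ B' ↔ g • x ∈ B) ∧
      g⁻¹ * t ^ n * g ∈ B'.inertia GQ ∧ g⁻¹ * t ^ n * g ∈ PQ p := by
  obtain ⟨B', hB', hmem, hin⟩ := conj_inertia' B hB g
  exact ⟨B', hB', hmem, hin _ ((B.inertia GQ).pow_mem ht n), PQ_conj' hp g _ ((PQ p).pow_mem htP n)⟩

theorem comap_F_conj (g : GQ) (hg : g ∈ F.fixingSubgroup) (B B' : Ideal ZO)
    (hmem : ∀ x : ZO, x ∈ B' ↔ g • x ∈ B) : B'.comap (iota F) = B.comap (iota F) := by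
  ext z
  rw [mem_comap_iff, mem_comap_iff, hmem]
  have : g • iota F z = iota F z := Subtype.ext (fix_F hg _ (ZF_val_mem z))
  rw [this]

theorem mem_natCast_conj (g : GQ) (B B' : Ideal ZO) (hmem : ∀ x : ZO, x ∈ B' ↔ g • x ∈ B) (a : ℕ) :
    (a : ZO) ∈ B' ↔ (a : ZO) ∈ B := by
  rw [hmem, smul_natCast']

/-! ### Kummer characters over `E` -/

theorem chi_zero_of_dvd [FiniteDimensional ℚ E] (hp : p.Prime) (hζ : IsPrimitiveRoot ζ p)
    (B : Ideal ZO) (hB : B.IsMaximal) (hpB : (p : ZO) ∉ B) (t : GQ) (ht : t ∈ B.inertia GQ)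
    (htE : t ∈ E.fixingSubgroup) (b : ZF E) (hb : b ≠ 0) (y : Om) (hy : y ^ p = b.val)
    (hdvd : p ∣ multiplicity (B.comap (iota E)) (Ideal.span {b})) : chi (p := p) ζ y t = 0 := by
  obtain ⟨z, hz⟩ := exists_kappa (F := E) hp hζ B hB hpB
  rw [hz t ht htE b y hb hy, (ZMod.natCast_eq_zero_iff _ _).2 hdvd, zero_mul]

theorem chi_zero_of_chi [FiniteDimensional ℚ E] (hp : p.Prime) (hζ : IsPrimitiveRoot ζ p)
    (B : Ideal ZO) (hB : B.IsMaximal) (hpB : (p : ZO) ∉ B) (t : GQ) (ht : t ∈ B.inertia GQ)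
    (htE : t ∈ E.fixingSubgroup) (a : ZF E) (ha : a ≠ 0) (y₀ : Om) (h0 : y₀ ^ p = a.val)
    (b : ZF E) (hb : b ≠ 0) (y : Om) (hy : y ^ p = b.val)
    (hdvd : ¬ p ∣ multiplicity (B.comap (iota E)) (Ideal.span {a}))
    (h : chi (p := p) ζ y₀ t = 0) : chi (p := p) ζ y t = 0 := by
  have : Fact p.Prime := ⟨hp⟩
  obtain ⟨z, hz⟩ := exists_kappa (F := E) hp hζ B hB hpB
  rw [hz t ht htE a y₀ ha h0] at h
  rw [hz t ht htE b y hb hy]
  rcases mul_eq_zero.1 h with h1 | h1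
  · exact absurd ((ZMod.natCast_eq_zero_iff _ _).1 h1) hdvd
  · rw [h1, mul_zero]

end OzakiFree
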