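import Pool.Agent.Lib.MP_6e8030_nt.EMain

open IntermediateField
open scoped ComplexConjugate

noncomputable section

namespace OzakiFree

variable {p : ℕ} {ζ : Om} {F E : IntermediateField ℚ Om}

section hom

variable {Γ : Type*} [Group Γ] {P : Subgroup Γ} {χ : Γ → ZMod p}

theorem EM_one (h : HomOn P χ) : χ 1 = 0 := by
  have := h 1 P.one_mem 1 P.one_mem
  rw [mul_one] at this
  exact left_eq_add.1 this

theorem EM_inv (h : HomOn P χ) (g : Γ) (hg : g ∈ P) : χ g⁻¹ = - χ g := by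
  have := h g hg g⁻¹ (P.inv_mem hg)
  rw [mul_inv_cancel, EM_one h] at this
  exact (neg_eq_of_add_eq_zero_right this.symm).symm

theorem EM_pow (h : HomOn P χ) (g : Γ) (hg : g ∈ P) (n : ℕ) : χ (g ^ n) = n * χ g := by
  induction n with
  | zero => rw [pow_zero, Nat.cast_zero, zero_mul, EM_one h]
  | succ n ih => rw [pow_succ, h _ (P.pow_mem hg n) _ hg, ih]; push_cast; ring

theorem EM_conj (h : HomOn P χ) (g t : Γ) (hg : g ∈ P) (ht : t ∈ P) : χ (g⁻¹ * t * g) = χ t := by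
  rw [h _ (P.mul_mem (P.inv_mem hg) ht) _ hg, h _ (P.inv_mem hg) _ ht, EM_inv h g hg]
  ring

end hom

/-- **the transferred Kummer character** -/
theorem stepA [FiniteDimensional ℚ F] [FiniteDimensional ℚ E] (hp : p.Prime) (hp2 : p ≠ 2)
    (hζ : IsPrimitiveRoot ζ p) (hFE : F ≤ E) (hμ : ∀ x : Om, x ^ p = 1 → x ∈ E)
    (χ₀ : GQ → ZMod p) (hχhom : HomOn F.fixingSubgroup χ₀)
    (a : ZF E) (ha : a ≠ 0) (y₀ : Om) (h0 : y₀ ^ p = a.val)
    (hχa : ∀ t ∈ E.fixingSubgroup, chi (p := p) ζ y₀ t = χ₀ t)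
    (K : IntermediateField ℚ Om)
    (hK : ∀ σ, σ ∈ K.fixingSubgroup ↔ σ ∈ MF p F ∧ χ₀ σ = 0)
    (B₁ B₂ : Ideal ZO) (hB₁ : B₁.IsMaximal)
    (hv₁ : ¬ p ∣ multiplicity (B₁.comap (iota E)) (Ideal.span {a}))
    (hv₂ : ¬ p ∣ multiplicity (B₂.comap (iota E)) (Ideal.span {a}))
    (hne : B₁.comap (iota F) ≠ B₂.comap (iota F))
    {l : ℕ} (hl : l.Prime) (hlp : l ≠ p) (hgood : Good E l) (hlB₁ : (l : ZO) ∈ B₁)
    (hcard : Nat.card (ZF E ⧸ B₁.comap (iota E)) = l)
    (z : Om) (hz : z ^ p = (l : Om))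
    (b : ZF E) (hb : b ≠ 0)
    (hd : ∀ q : Ideal (ZF E), q.IsMaximal → q ≠ B₁.comap (iota E) → q ≠ B₂.comap (iota E) →
      p ∣ multiplicity q (Ideal.span {b}))
    (he : multiplicity (B₁.comap (iota E)) (Ideal.span {b}) ≡ 1 [MOD p])
    (hf : ∃ c d e f : ZF E, b = c ^ p + (p : ZF E) ^ 2 * d ∧ e * c + f * (p : ZF E) = 1) :
    ∃ χ : GQ → ZMod p, HomOn (MF p F) χ ∧ LCOn (MF p F) χ ∧ (∀ r ∈ RL p K, χ r = 0) ∧
      (∀ B : Ideal ZO, B.IsMaximal → ∀ t ∈ B.inertia GQ, t ∈ MF p F → (p : ZO) ∈ B → χ t = 0) ∧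
      (∀ B : Ideal ZO, B.IsMaximal → ∀ t ∈ B.inertia GQ, t ∈ MF p F → (p : ZO) ∉ B →
        B.comap (iota F) ≠ B₁.comap (iota F) → B.comap (iota F) ≠ B₂.comap (iota F) → χ t = 0) ∧
      (∀ B : Ideal ZO, B.IsMaximal → ∀ t ∈ B.inertia GQ, t ∈ MF p F → (p : ZO) ∉ B →
        B.comap (iota F) = B₁.comap (iota F) →
        (∀ h ∈ MF p F, ¬ Lies E h B (B₁.comap (iota E))) → χ t = 0) ∧
      (∀ B : Ideal ZO, B.IsMaximal → ∀ t ∈ B.inertia GQ, ∀ h ∈ MF p F,
        Lies E h B (B₁.comap (iota E)) → χ t = chi (p := p) ζ z (h⁻¹ * t * h)) := by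
  have hFp : Fact p.Prime := ⟨hp⟩
  have hz' : IsRt p z (l : ℤ) := ⟨by rw [hz]; simp, by exact_mod_cast hl.ne_zero⟩
  have hζE : ζ ∈ E := hμ ζ hζ.pow_eq_one
  have hEF : E.fixingSubgroup ≤ F.fixingSubgroup := IntermediateField.fixingSubgroup_antitone hFE
  obtain ⟨y, hy⟩ := IsAlgClosed.exists_pow_nat_eq b.val hp.pos
  have hGopen : IsOpen (E.fixingSubgroup : Set GQ) := IntermediateField.fixingSubgroup_isOpen E
  have hGfin : E.fixingSubgroup.FiniteIndex := by
    have hq : Finite (GQ ⧸ E.fixingSubgroup) := Subgroup.quotient_finite_of_isOpen _ hGopen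
    exact Subgroup.finiteIndex_of_finite_quotient
  have hMP : MF p F ⊓ E.fixingSubgroup ≤ PF p E := fun t ht => ME_PF hp hp2 hμ t ht.1.1 ht.2
  have hhomy : HomOn (MF p F ⊓ E.fixingSubgroup) (chi (p := p) ζ y) := fun g hg h hh =>
    PF_homOn hp hζ hb hy g (hMP hg) h (hMP hh)
  obtain ⟨T, χ, hT, hTu, χ1, χ2, χ3, χ4⟩ := transfer_sub (MF p F) E.fixingSubgroup hGopen hGfin
    (chi (p := p) ζ y) hhomy (chiF_lcOn _)
  -- vanishing of the Kummer character
  have van : ∀ B' : Ideal ZO, B'.IsMaximal → ∀ u ∈ B'.inertia GQ, u ∈ E.fixingSubgroup →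
      (p : ZO) ∉ B' → B'.comap (iota E) ≠ B₁.comap (iota E) →
      B'.comap (iota E) ≠ B₂.comap (iota E) → chi (p := p) ζ y u = 0 := by
    intro B' hB' u hu huE hpB' n1 n2
    exact chi_zero_of_dvd hp hζ B' hB' hpB' u hu huE b hb y hy (hd _ (comap_max E B' hB') n1 n2)
  have hv1 : ∀ B : Ideal ZO, B.IsMaximal → ∀ t ∈ B.inertia GQ, t ∈ MF p F → (p : ZO) ∈ B →
      χ t = 0 := by
    intro B hB t ht htM hpB
    refine χ3 t htM fun g hg n _ hgE => ?_
    obtain ⟨B', hB', hmem, hin, hinP⟩ := conj_inertia_MF hp B hB t ht htM.1 g n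
    have hw : (g⁻¹ * t ^ n * g) y = y :=
      fix_at_p hp B' hB' ((mem_natCast_conj g B B' hmem p).2 hpB) _ hin
        (ME_PF hp hp2 hμ _ hinP hgE) hy hf
    exact (chiF_zero_iff hp hζ hy (val_ne_zero hb) _ (fix_F hgE _ (ZF_val_mem b))).2 hw
  refine ⟨χ, χ1, χ2, ?_, hv1, ?_, ?_, ?_⟩
  · -- vanishing on `RL`
    have hKM : K.fixingSubgroup ≤ MF p F := fun σ hσ => ((hK σ).1 hσ).1
    refine char_RL hp K χ (fun g hg h hh => χ1 g (hKM hg) h (hKM hh)) ?_ ?_ ?_
    · obtain ⟨U, hU, hU'⟩ := χ2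
      exact ⟨U, hU, fun g hg u hu huK => hU' g (hKM hg) u hu (hKM huK)⟩
    · intro B hB t ht htK
      by_cases hpB : (p : ZO) ∈ B
      · exact hv1 B hB t ht (hKM htK) hpB
      · refine χ3 t (hKM htK) fun g hg n _ hgE => ?_
        obtain ⟨B', hB', hmem, hin, hinP⟩ := conj_inertia_MF hp B hB t ht (hKM htK).1 g n
        have hpB' : (p : ZO) ∉ B' := fun h => hpB ((mem_natCast_conj g B B' hmem p).1 h)
        have hχu : χ₀ (g⁻¹ * t ^ n * g) = 0 := by
          rw [EM_conj hχhom g (t ^ n) hg.2 (F.fixingSubgroup.pow_mem (hKM htK).2 n),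
            EM_pow hχhom t (hKM htK).2 n, ((hK t).1 htK).2, mul_zero]
        by_cases hdv : p ∣ multiplicity (B'.comap (iota E)) (Ideal.span {b})
        · exact chi_zero_of_dvd hp hζ B' hB' hpB' _ hin hgE b hb y hy hdv
        · refine chi_zero_of_chi hp hζ B' hB' hpB' _ hin hgE a ha y₀ h0 b hb y hy ?_ ?_
          · by_cases c1 : B'.comap (iota E) = B₁.comap (iota E)
            · rw [c1]; exact hv₁
            · by_cases c2 : B'.comap (iota E) = B₂.comap (iota E)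
              · rw [c2]; exact hv₂
              · exact absurd (hd _ (comap_max E B' hB') c1 c2) hdv
          · rw [hχa _ hgE]; exact hχu
    · intro φ c hc hcK
      have h2 : c * c = 1 := by
        have := conj_sq φ c hc
        rwa [pow_two] at this
      have h3 := χ1 c (hKM hcK) c (hKM hcK)
      rw [h2, EM_one χ1] at h3
      have h4 : (2 : ZMod p) * χ c = 0 := by rw [two_mul]; exact h3.symm
      rcases mul_eq_zero.1 h4 with h | h
      · exfalso
        have h5 : ((2 : ℕ) : ZMod p) = 0 := by exact_mod_cast h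
        rw [ZMod.natCast_eq_zero_iff] at h5
        exact hp2 ((Nat.prime_dvd_prime_iff_eq hp Nat.prime_two).1 h5)
      · exact h
  · -- away from `q₁`, `q₂`
    intro B hB t ht htM hpB n1 n2
    refine χ3 t htM fun g hg n _ hgE => ?_
    obtain ⟨B', hB', hmem, hin, hinP⟩ := conj_inertia_MF hp B hB t ht htM.1 g n
    have hpB' : (p : ZO) ∉ B' := fun h => hpB ((mem_natCast_conj g B B' hmem p).1 h)
    have hc := comap_F_conj g hg.2 B B' hmem
    exact van B' hB' _ hin hgE hpB' (fun h => n1 (hc ▸ comap_lower hFE _ _ h))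
      (fun h => n2 (hc ▸ comap_lower hFE _ _ h))
  · -- above `q₁`, no `h`
    intro B hB t ht htM hpB hq hno
    refine χ3 t htM fun g hg n _ hgE => ?_
    obtain ⟨B', hB', hmem, hin, hinP⟩ := conj_inertia_MF hp B hB t ht htM.1 g n
    have hpB' : (p : ZO) ∉ B' := fun h => hpB ((mem_natCast_conj g B B' hmem p).1 h)
    have hc := comap_F_conj g hg.2 B B' hmem
    exact van B' hB' _ hin hgE hpB' (fun h => hno g hg ((lies_iff g B B' hmem _).1 h))
      (fun h => hne (by rw [← hq, ← hc]; exact comap_lower hFE _ _ h))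
  · -- the value
    intro B hB t ht h hh hlies
    have hlB : (l : ZO) ∈ B := by
      have h1 : (l : ZF E) ∈ B₁.comap (iota E) := by
        rw [mem_comap_iff, map_natCast]; exact hlB₁
      obtain ⟨x, hx, hx'⟩ := (hlies _).1 h1
      rw [ZF_natCast_val, map_natCast] at hx'
      have : x = (l : ZO) := Subtype.ext hx'
      rw [← this]; exact hx
    have hpB := not_mem_of_prime hl hp hlp B hB hlB
    have htP := inertia_mem_PQ hp B hB hpB t ht
    have hconj : ∀ g : GQ, ∃ B' : Ideal ZO, B'.IsMaximal ∧ (∀ x : ZO, x ∈ B' ↔ g • x ∈ B) ∧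
        g⁻¹ * t * g ∈ B'.inertia GQ ∧ g⁻¹ * t * g ∈ E.fixingSubgroup ∧ (p : ZO) ∉ B' ∧
        (l : ZO) ∈ B' := by
      intro g
      obtain ⟨B', hB', hmem, hin, hinP⟩ := conj_inertia_MF hp B hB t ht htP g 1
      rw [pow_one] at hin hinP
      have hlB' : (l : ZO) ∈ B' := (mem_natCast_conj g B B' hmem l).2 hlB
      exact ⟨B', hB', hmem, hin, good_fix hgood B' hB' hlB' _ hin,
        not_mem_of_prime hl hp hlp B' hB' hlB', hlB'⟩
    have htE : t ∈ E.fixingSubgroup := good_fix hgood B hB hlB t ht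
    have htM : t ∈ MF p F := ⟨htP, hEF htE⟩
    have hq : B.comap (iota F) = B₁.comap (iota F) := by
      obtain ⟨B', hB', hmem, -⟩ := hconj h
      rw [← comap_F_conj h hh.2 B B' hmem]
      exact comap_lower hFE _ _ ((lies_iff h B B' hmem _).2 hlies)
    rw [χ4 t htM (fun g _ => by obtain ⟨-, -, -, -, h, -⟩ := hconj g; exact h)]
    obtain ⟨s₀, ⟨hs₀T, hs₀E⟩, hs₀u⟩ := hTu h hh
    have hagree : ∀ x ∈ E, h x = s₀ x := by
      intro x hx
      have h2 := fix_F hs₀E x hx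
      rw [AlgEquiv.mul_apply] at h2
      have h3 := congrArg s₀ h2
      rwa [apply_inv_self] at h3
    have hlies₀ : Lies E s₀ B (B₁.comap (iota E)) := lies_congr h s₀ hagree B _ hlies
    rw [Finset.sum_eq_single s₀]
    · obtain ⟨B', hB', hmem, hin, hinE, hpB', hlB'⟩ := hconj s₀
      have hcB : B'.comap (iota E) = B₁.comap (iota E) := (lies_iff s₀ B B' hmem _).2 hlies₀
      have w := val_good (F := E) hp hζ B' hB' hpB' hl hgood hlB' z hz _ hin hinE b y hb hy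
      rw [hcB] at w
      have hmult : ((multiplicity (B₁.comap (iota E)) (Ideal.span {b}) : ℕ) : ZMod p) = 1 := by
        rw [← Nat.cast_one, ZMod.natCast_eq_natCast_iff]; exact he
      rw [w, hmult, one_mul]
      have e1 : h⁻¹ * t * h = (s₀⁻¹ * h)⁻¹ * (s₀⁻¹ * t * s₀) * (s₀⁻¹ * h) := by group
      rw [e1, EM_conj (P := E.fixingSubgroup)
        (chi_homOn hp hζ hz' E.fixingSubgroup (fun σ hσ => fix_F hσ ζ hζE)) _ _ hs₀E hinE]
    · intro s hs hsne
      obtain ⟨B', hB', hmem, hin, hinE, hpB', hlB'⟩ := hconj s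
      have hc := comap_F_conj s (hT s hs).2 B B' hmem
      refine van B' hB' _ hin hinE hpB' (fun hcon => hsne ?_)
        (fun h => hne (by rw [← hq, ← hc]; exact comap_lower hFE _ _ h))
      have hl' := (lies_iff s B B' hmem _).1 hcon
      have h1 := embedding_unique E hl hgood _ (comap_max E B₁ hB₁) hcard B hB hlB s h hl' hlies
      refine hs₀u s ⟨hs, ?_⟩
      rw [IntermediateField.mem_fixingSubgroup_iff]
      intro x hx
      rw [AlgEquiv.mul_apply, ← h1 x hx, inv_apply_self']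
    · intro h; exact absurd hs₀T h

end OzakiFree
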