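import Pool.Agent.Lib.MP_6e8030_nt.EMain3

open IntermediateField
open scoped ComplexConjugate

noncomputable section

namespace OzakiFree

variable {p : ℕ} {ζ : Om} {F E : IntermediateField ℚ Om}

theorem LC_conj {Γ : Type*} [Group Γ] [TopologicalSpace Γ] [IsTopologicalGroup Γ]
    {P : Subgroup Γ} {χ : Γ → ZMod p} (h : LCOn P χ) (g : Γ)
    (hP : ∀ t ∈ P, g * t * g⁻¹ ∈ P) : LCOn P (fun t => χ (g * t * g⁻¹)) := by
  obtain ⟨U, hU, hU'⟩ := h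
  refine ⟨U.comap (MulAut.conj g).toMonoidHom, ?_, ?_⟩
  · have hc : Continuous (fun t : Γ => g * t * g⁻¹) := by fun_prop
    exact hU.preimage hc
  · intro t ht u hu huP
    have hu' : g * u * g⁻¹ ∈ U := hu
    show χ (g * (t * u) * g⁻¹) = χ (g * t * g⁻¹)
    have e : g * (t * u) * g⁻¹ = (g * t * g⁻¹) * (g * u * g⁻¹) := by group
    rw [e]
    exact hU' _ (hP t ht) _ hu' (hP u huP)

theorem LC_sum {Γ : Type*} [Group Γ] [TopologicalSpace Γ]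
    {P : Subgroup Γ} {ι : Type*} (s : Finset ι) (f : ι → Γ → ZMod p)
    (h : ∀ i ∈ s, LCOn P (f i)) : LCOn P (fun t => ∑ i ∈ s, f i t) := by
  classical
  induction s using Finset.induction_on with
  | empty => exact ⟨⊤, isOpen_univ, fun t _ u _ _ => by simp⟩
  | insert i s his ih =>
    obtain ⟨U, hU, hU'⟩ := ih fun j hj => h j (Finset.mem_insert_of_mem hj)
    obtain ⟨V, hV, hV'⟩ := h i (Finset.mem_insert_self i s)
    refine ⟨U ⊓ V, hU.inter hV, fun t ht u hu huP => ?_⟩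
    have e1 : ∑ i ∈ s, f i (t * u) = ∑ i ∈ s, f i t := hU' t ht u hu.1 huP
    simp only [Finset.sum_insert his]
    rw [e1, hV' t ht u hu.2 huP]

/-- **the final contradiction** -/
theorem stepC [FiniteDimensional ℚ F] [FiniteDimensional ℚ (EF p F)] (hp : p.Prime)
    (hp2 : p ≠ 2) (hζ : IsPrimitiveRoot ζ p) (B₁ : Ideal ZO) (hB₁ : B₁.IsMaximal)
    {l : ℕ} (hl : l.Prime) (hlp : l ≠ p) (hmod : l ≡ 1 [MOD p ^ 2])
    (hpow : ∀ x : ℕ, ¬ x ^ p ≡ p [MOD l]) (hgood : Good (EF p F) l) (hlB₁ : (l : ZO) ∈ B₁)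
    (hcard : Nat.card (ZF (EF p F) ⧸ B₁.comap (iota (EF p F))) = l)
    (z : Om) (hz : z ^ p = (l : Om)) (ψ : GQ → ZMod p) (c : ZMod p) (hc : c ≠ 0)
    (ψ1 : HomOn (MF p F) ψ) (ψ2 : LCOn (MF p F) ψ)
    (hA : ∀ B : Ideal ZO, B.IsMaximal → ∀ t ∈ B.inertia GQ, ∀ h ∈ MF p F,
        Lies (EF p F) h B (B₁.comap (iota (EF p F))) →
          ψ t = c * chi (p := p) ζ z (h⁻¹ * t * h))
    (hB : ∀ B : Ideal ZO, B.IsMaximal → ∀ t ∈ B.inertia GQ, t ∈ MF p F →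
        (∀ h ∈ MF p F, ¬ Lies (EF p F) h B (B₁.comap (iota (EF p F)))) → ψ t = 0) : False := by
  have hFp : Fact p.Prime := ⟨hp⟩
  set E := EF p F with hE
  set Q₁ := B₁.comap (iota E) with hQ₁
  have hQmax : Q₁.IsMaximal := comap_max E B₁ hB₁
  have hz' : IsRt p z (l : ℤ) := ⟨by rw [hz]; simp, by exact_mod_cast hl.ne_zero⟩
  have hFE : F ≤ E := le_sup_left
  have hμ2 : ∀ x : Om, x ^ (p ^ 2) = 1 → x ∈ E := fun x hx =>
    (le_sup_right : _ ≤ E) (subset_adjoin ℚ _ hx)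
  have hμ : ∀ x : Om, x ^ p = 1 → x ∈ E := fun x hx => hμ2 x (by
    rw [pow_two, pow_mul, hx, one_pow])
  have hζE : ζ ∈ E := hμ ζ hζ.pow_eq_one
  have hEF : E.fixingSubgroup ≤ F.fixingSubgroup := IntermediateField.fixingSubgroup_antitone hFE
  obtain ⟨o1, o2, o3, o4⟩ := N1_facts hp hp2
  have hEN : E.fixingSubgroup ≤ N1 p := fun g hg => o4 g fun x hx => fix_F hg x (hμ2 x hx)
  set G₁ : Subgroup GQ := F.fixingSubgroup ⊓ N1 p with hG₁
  have hG₁open : IsOpen (G₁ : Set GQ) :=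
    (IntermediateField.fixingSubgroup_isOpen F).inter o1
  have hG₁fin : G₁.FiniteIndex := by
    have hq : Finite (GQ ⧸ G₁) := Subgroup.quotient_finite_of_isOpen _ hG₁open
    exact Subgroup.finiteIndex_of_finite_quotient
  have hEG₁ : E.fixingSubgroup ≤ G₁ := fun g hg => ⟨hEF hg, hEN hg⟩
  have hMG₁ : MF p F ≤ G₁ := fun g hg => ⟨hg.2, o2 hg.1⟩
  have hPG : PQ p ⊓ G₁ ≤ MF p F := fun g hg => ⟨hg.1, hg.2.1⟩
  obtain ⟨Bp, σ₀, φ, hBp, hpBp, hσI, hφ, hfrob, hσG, hcomm⟩ := exists_frob_p hp hp2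
  have hlBp : (l : ZO) ∉ Bp := not_mem_of_prime hp hl (Ne.symm hlp) Bp hBp hpBp
  obtain ⟨T, θ₁, hT, θ1, θ2, θ3, θ4⟩ := transfer_cyc (PQ p) G₁ (PQ_comm hp) hG₁open hG₁fin σ₀
    (hσG G₁ hG₁open) ψ (fun g hg h hh => ψ1 g (hPG hg) h (hPG hh)) (by
      obtain ⟨U, hU, hU'⟩ := ψ2
      exact ⟨U, hU, fun g hg u hu huP => hU' g (hPG hg) u hu (hPG huP)⟩)
  set J := (PQ p ⊔ G₁).index with hJ
  have hpJ : p ∣ J := by
    have h1 : PQ p ⊔ G₁ ≤ N1 p := sup_le o2 fun g hg => hg.2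
    have h2 := Subgroup.index_dvd_of_le h1
    rwa [o3] at h2
  let θ : GQ → ZMod p := fun t => ∑ i ∈ Finset.range J, θ₁ (σ₀ ^ i * t * (σ₀ ^ i)⁻¹)
  have hθ : ∀ t, θ t = ∑ i ∈ Finset.range J, θ₁ (σ₀ ^ i * t * (σ₀ ^ i)⁻¹) := fun _ => rfl
  have hPconj : ∀ (g t : GQ), t ∈ PQ p → g * t * g⁻¹ ∈ PQ p := fun g t ht => PQ_conj hp g t ht
  have hθhom : HomOn (PQ p) θ := by
    intro g hg h hh
    rw [hθ, hθ, hθ, ← Finset.sum_add_distrib]
    refine Finset.sum_congr rfl fun i _ => ?_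
    have e : σ₀ ^ i * (g * h) * (σ₀ ^ i)⁻¹ =
        (σ₀ ^ i * g * (σ₀ ^ i)⁻¹) * (σ₀ ^ i * h * (σ₀ ^ i)⁻¹) := by group
    rw [e, θ1 _ (hPconj _ g hg) _ (hPconj _ h hh)]
  have hθlc : LCOn (PQ p) θ := LC_sum _ _ fun i _ => LC_conj θ2 (σ₀ ^ i) (hPconj _)
  -- `Lies` forces `l ∈ B`
  have hlies_l : ∀ (B : Ideal ZO) (h : GQ), Lies E h B Q₁ → (l : ZO) ∈ B := by
    intro B h hlies
    have h1 : (l : ZF E) ∈ Q₁ := by
      rw [hQ₁, mem_comap_iff, map_natCast]; exact hlB₁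
    obtain ⟨x, hx, hx'⟩ := (hlies _).1 h1
    rw [ZF_natCast_val, map_natCast] at hx'
    have : x = (l : ZO) := Subtype.ext hx'
    rw [← this]; exact hx
  -- vanishing away from `l`
  have hvan₁ : ∀ B : Ideal ZO, B.IsMaximal → (l : ZO) ∉ B → ∀ t ∈ B.inertia GQ, t ∈ PQ p →
      θ₁ t = 0 := by
    intro B hBm hlB t ht htP
    refine θ3 t htP fun g n _ hgG => ?_
    obtain ⟨B', hB', hmem, hin, hinP⟩ := conj_inertia_MF hp B hBm t ht htP g n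
    exact hB B' hB' _ hin ⟨hinP, hgG.1⟩ fun h _ hl' =>
      hlB ((mem_natCast_conj g B B' hmem l).1 (hlies_l B' h hl'))
  have hvan : ∀ B : Ideal ZO, B.IsMaximal → (l : ZO) ∉ B → ∀ t ∈ B.inertia GQ, t ∈ PQ p →
      θ t = 0 := by
    intro B hBm hlB t ht htP
    rw [hθ]
    refine Finset.sum_eq_zero fun i _ => ?_
    obtain ⟨B', hB', hmem, hin, hinP⟩ := conj_inertia_MF hp B hBm t ht htP (σ₀ ^ i)⁻¹ 1
    rw [pow_one, inv_inv] at hin hinP
    exact hvan₁ B' hB' (fun h => hlB ((mem_natCast_conj _ B B' hmem l).1 h)) _ hin hinP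
  -- conjugates of inertia above `l`
  have hconj : ∀ B : Ideal ZO, B.IsMaximal → (l : ZO) ∈ B → ∀ t ∈ B.inertia GQ, ∀ g : GQ,
      ∃ B' : Ideal ZO, B'.IsMaximal ∧ (∀ x : ZO, x ∈ B' ↔ g • x ∈ B) ∧
        g⁻¹ * t * g ∈ B'.inertia GQ ∧ g⁻¹ * t * g ∈ E.fixingSubgroup ∧ (p : ZO) ∉ B' ∧
        (l : ZO) ∈ B' ∧ g⁻¹ * t * g ∈ PQ p := by
    intro B hBm hlB t ht g
    have hpB := not_mem_of_prime hl hp hlp B hBm hlB
    have htP := inertia_mem_PQ hp B hBm hpB t ht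
    obtain ⟨B', hB', hmem, hin, hinP⟩ := conj_inertia_MF hp B hBm t ht htP g 1
    rw [pow_one] at hin hinP
    have hlB' : (l : ZO) ∈ B' := (mem_natCast_conj g B B' hmem l).2 hlB
    exact ⟨B', hB', hmem, hin, good_fix hgood B' hB' hlB' _ hin,
      not_mem_of_prime hl hp hlp B' hB' hlB', hlB', hinP⟩
  have hlies_mul : ∀ (B B' : Ideal ZO) (s h g : GQ), (∀ x : ZO, x ∈ B' ↔ s • x ∈ B) →
      (∀ x ∈ E, s (h x) = g x) → (Lies E h B' Q₁ ↔ Lies E g B Q₁) := by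
    intro B B' s h g hmem hx
    have e : ∀ w : ZF E, (∃ b ∈ B', (b : Om) = h w.val) ↔ ∃ b ∈ B, (b : Om) = g w.val := by
      intro w
      constructor
      · rintro ⟨b, hb, hb'⟩
        refine ⟨s • b, (hmem b).1 hb, ?_⟩
        show s (b : Om) = g w.val
        rw [hb', hx _ (ZF_val_mem w)]
      · rintro ⟨b, hb, hb'⟩
        refine ⟨s⁻¹ • b, (hmem _).2 (by rw [smul_inv_smul]; exact hb), ?_⟩
        show s⁻¹ (b : Om) = h w.val
        rw [hb', ← hx _ (ZF_val_mem w), inv_apply_self']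
    constructor
    · intro hl' w; rw [← e w]; exact hl' w
    · intro hl' w; rw [e w]; exact hl' w
  have hchiE : ∀ e ∈ E.fixingSubgroup, ∀ u ∈ E.fixingSubgroup,
      chi (p := p) ζ z (e⁻¹ * u * e) = chi (p := p) ζ z u := fun e he u hu =>
    EM_conj (P := E.fixingSubgroup)
      (chi_homOn hp hζ hz' E.fixingSubgroup (fun σ hσ => fix_F hσ ζ hζE)) e u he hu
  -- the value above `l`
  have hval : ∀ B : Ideal ZO, B.IsMaximal → (l : ZO) ∈ B → ∀ g₀ : GQ, Lies E g₀ B Q₁ →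
      ∀ t ∈ B.inertia GQ, θ t = c * chi (p := p) ζ z (g₀⁻¹ * t * g₀) := by
    intro B hBm hlB g₀ hg₀ t ht
    have hpB := not_mem_of_prime hl hp hlp B hBm hlB
    have htP := inertia_mem_PQ hp B hBm hpB t ht
    rw [hθ, θ4 t htP (fun g => by
      obtain ⟨-, -, -, -, h, -⟩ := hconj B hBm hlB t ht g
      exact hEG₁ h)]
    obtain ⟨s₀, ⟨hs₀T, hs₀G⟩, hs₀u⟩ := hT g₀
    obtain ⟨h, hh, hhE⟩ := lift_PF hp hp2 F (s₀⁻¹ * g₀) hs₀G
    have hagree : ∀ x ∈ E, s₀ (h x) = g₀ x := by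
      intro x hx
      rw [hhE x hx, AlgEquiv.mul_apply, apply_inv_self]
    rw [Finset.sum_eq_single s₀]
    · obtain ⟨B', hB', hmem, hin, hinE, hpB', hlB', hinP⟩ := hconj B hBm hlB t ht s₀
      have hl' : Lies E h B' Q₁ := (hlies_mul B B' s₀ h g₀ hmem hagree).2 hg₀
      rw [hA B' hB' _ hin h hh hl']
      have he : g₀⁻¹ * (s₀ * h) ∈ E.fixingSubgroup := by
        rw [IntermediateField.mem_fixingSubgroup_iff]
        intro x hx
        rw [AlgEquiv.mul_apply, AlgEquiv.mul_apply, hagree x hx, inv_apply_self']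
      have e1 : h⁻¹ * (s₀⁻¹ * t * s₀) * h =
          (g₀⁻¹ * (s₀ * h))⁻¹ * (g₀⁻¹ * t * g₀) * (g₀⁻¹ * (s₀ * h)) := by group
      obtain ⟨-, -, -, -, huE, -⟩ := hconj B hBm hlB t ht g₀
      rw [e1, hchiE _ he _ huE]
    · intro s hs hsne
      obtain ⟨B', hB', hmem, hin, hinE, hpB', hlB', hinP⟩ := hconj B hBm hlB t ht s
      refine hB B' hB' _ hin ⟨hinP, hEF hinE⟩ fun h' hh' hl' => hsne ?_
      have hl2 : Lies E (s * h') B Q₁ := (hlies_mul B B' s h' (s * h') hmem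
        (fun x _ => (AlgEquiv.mul_apply s h' x).symm)).1 hl'
      have h1 := embedding_unique E hl hgood _ hQmax hcard B hBm hlB (s * h') g₀ hl2 hg₀
      refine hs₀u s ⟨hs, ?_⟩
      have he : (s * h')⁻¹ * g₀ ∈ E.fixingSubgroup := by
        rw [IntermediateField.mem_fixingSubgroup_iff]
        intro x hx
        rw [AlgEquiv.mul_apply, ← h1 x hx, inv_apply_self']
      have e2 : s⁻¹ * g₀ = h' * ((s * h')⁻¹ * g₀) := by group
      rw [e2]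
      exact G₁.mul_mem (hMG₁ hh') (hEG₁ he)
    · intro h; exact absurd hs₀T h
  -- the Dirichlet character
  have hdvd : p ∣ l - 1 := by
    have h1 : p ^ 2 ∣ l - 1 := (Nat.modEq_iff_dvd' hl.one_le).1 hmod.symm
    exact dvd_trans (Dvd.intro_left (p ^ 1) (by ring)) h1
  obtain ⟨χl, x1, x2, x3, x4, x5⟩ := exists_chi_l hp hl hdvd
  have x1' : HomOn (⊤ : Subgroup GQ) χl := fun g _ h _ => x1 g h
  obtain ⟨β, y, hβ, hy, hyt⟩ := kummer_gen hp hζ E hζE χl (fun g _ h _ => x1 g h) (by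
    obtain ⟨U, hU, hU'⟩ := x2
    exact ⟨U, hU, fun g _ u hu _ => hU' g (Subgroup.mem_top g) u hu (Subgroup.mem_top u)⟩)
  have hchiβ : ∀ t ∈ E.fixingSubgroup, chi (p := p) ζ y t = χl t := by
    intro t ht
    rw [chiF_unique hp hζ (rt_ne_zero hp hy (val_ne_zero hβ)) t _ (hyt t ht)]
    simp
  set μ : ZMod p := ((multiplicity Q₁ (Ideal.span {β}) : ℕ) : ZMod p) with hμdef
  have hχl : ∀ B : Ideal ZO, B.IsMaximal → (l : ZO) ∈ B → ∀ g₀ : GQ, Lies E g₀ B Q₁ →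
      ∀ t ∈ B.inertia GQ, χl t = μ * chi (p := p) ζ z (g₀⁻¹ * t * g₀) := by
    intro B hBm hlB g₀ hg₀ t ht
    obtain ⟨B', hB', hmem, hin, hinE, hpB', hlB', hinP⟩ := hconj B hBm hlB t ht g₀
    have w := val_good (F := E) hp hζ B' hB' hpB' hl hgood hlB' z hz _ hin hinE β y hβ hy
    rw [(lies_iff g₀ B B' hmem _).2 hg₀, hchiβ _ hinE,
      EM_conj x1' g₀ t (Subgroup.mem_top _) (Subgroup.mem_top _)] at w
    exact w
  have hμ0 : μ ≠ 0 := by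
    obtain ⟨t, ht, hne⟩ := x4 B₁ hB₁ hlB₁
    intro h
    apply hne
    rw [hχl B₁ hB₁ hlB₁ 1 ((lies_iff 1 B₁ B₁ (fun x => by rw [one_smul]) _).1 rfl) t ht, h,
      zero_mul]
  -- comparison
  have hzero : ∀ t ∈ PQ p, μ * θ t - c * χl t = 0 := by
    refine no_unram_PQ hp hp2 (fun t => μ * θ t - c * χl t) ?_ ?_ ?_
    · intro g hg h hh
      show μ * θ (g * h) - c * χl (g * h) = _
      rw [hθhom g hg h hh, x1]
      ring
    · obtain ⟨U, hU, hU'⟩ := hθlc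
      obtain ⟨V, hV, hV'⟩ := x2
      refine ⟨U ⊓ V, hU.inter hV, fun g hg u hu huP => ?_⟩
      show μ * θ (g * u) - c * χl (g * u) = _
      rw [hU' g hg u hu.1 huP, hV' g (Subgroup.mem_top g) u hu.2 (Subgroup.mem_top u)]
    · intro B hBm t ht htP
      show μ * θ t - c * χl t = 0
      by_cases hlB : (l : ZO) ∈ B
      · obtain ⟨g₀, hg₀⟩ := exists_embedding E hl Q₁ hQmax
          (by rw [hQ₁, mem_comap_iff, map_natCast]; exact hlB₁) B hBm hlB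
        rw [hval B hBm hlB g₀ hg₀ t ht, hχl B hBm hlB g₀ hg₀ t ht]
        ring
      · rw [hvan B hBm hlB t ht htP, x3 B hBm hlB t ht]
        ring
  -- the Frobenius at `p`
  have hθφ : θ φ = 0 := by
    rw [hθ]
    have e : ∀ i ∈ Finset.range J, θ₁ (σ₀ ^ i * φ * (σ₀ ^ i)⁻¹) = θ₁ φ := by
      intro i _
      obtain ⟨c1, c2⟩ := hcomm i
      have e1 : σ₀ ^ i * φ * (σ₀ ^ i)⁻¹ = (σ₀ ^ i * φ * (σ₀ ^ i)⁻¹ * φ⁻¹) * φ := by group
      rw [e1, θ1 _ c2 _ hφ, hvan₁ Bp hBp hlBp _ c1 c2, zero_add]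
    rw [Finset.sum_congr rfl e, Finset.sum_const, Finset.card_range, nsmul_eq_mul,
      (ZMod.natCast_eq_zero_iff _ _).2 hpJ, zero_mul]
  have h1 := hzero φ hφ
  rw [hθφ, mul_zero, zero_sub, neg_eq_zero] at h1
  rcases mul_eq_zero.1 h1 with h | h
  · exact hc h
  · exact x5 Bp φ hBp hpBp hfrob hpow h

end OzakiFree
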