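import Pool.Agent.Lib.MP_6e8030_nt.EMain4

open IntermediateField
open scoped ComplexConjugate

noncomputable section

namespace OzakiFree

variable {p : ℕ} {ζ : Om} {F E : IntermediateField ℚ Om}

/-- ramified primes: the Kummer generator has valuation prime to `p` -/
theorem ram_val [FiniteDimensional ℚ F] [FiniteDimensional ℚ E] (hp : p.Prime)
    (hζ : IsPrimitiveRoot ζ p)
    (k : IntermediateField ℚ Om) (χ₀ : GQ → ZMod p) (hχhom : HomOn F.fixingSubgroup χ₀)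
    (hχk : ∀ g, g ∈ k.fixingSubgroup ↔ g ∈ F.fixingSubgroup ∧ χ₀ g = 0)
    (a : ZF E) (ha : a ≠ 0) (y₀ : Om) (h0 : y₀ ^ p = a.val)
    (hχa : ∀ t ∈ E.fixingSubgroup, chi (p := p) ζ y₀ t = χ₀ t)
    (B : Ideal ZO) (hB : B.IsMaximal) (hpB : (p : ZO) ∉ B) {l : ℕ} (hlB : (l : ZO) ∈ B)
    (hgood : Good E l) (hram : RamIn F k (B.comap (iota F))) :
    ¬ p ∣ multiplicity (B.comap (iota E)) (Ideal.span {a}) := by
  have hFp : Fact p.Prime := ⟨hp⟩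
  obtain ⟨B₀, hB₀, hmem₀, t, htF, htI, htk⟩ := hram
  let B' : Ideal ZO := B₀
  have hB' : B'.IsMaximal := hB₀
  have hcomap : B.comap (iota F) = B'.comap (iota F) := by
    ext z
    rw [hmem₀ z, mem_comap_iff]
    constructor
    · rintro ⟨b, hb, hb'⟩
      have : (iota F z : ZO) = b := Subtype.ext hb'.symm
      rw [this]; exact hb
    · intro h; exact ⟨iota F z, h, rfl⟩
  obtain ⟨g, hg, hgB⟩ := trans_F F B B' hB hB' hcomap
  have htF' : t ∈ F.fixingSubgroup := (N11_fix F t).2 htF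
  have htB' : ∀ x : ZO, t • x - x ∈ B' := by
    intro x
    obtain ⟨b, hb, hb'⟩ := htI x
    have : t • x - x = b := Subtype.ext hb'.symm
    rw [this]; exact hb
  have huB : g * t * g⁻¹ ∈ B.inertia GQ := by
    rw [AddSubgroup.mem_inertia]
    intro x
    have h1 := (hgB _).1 (htB' (g⁻¹ • x))
    rw [smul_sub, ← mul_smul, ← mul_smul, ← mul_smul, mul_inv_cancel, one_smul] at h1
    exact h1
  have hχt : χ₀ t ≠ 0 := by
    intro h
    exact htk ((N11_fix k t).1 ((hχk t).2 ⟨htF', h⟩))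
  have hχu : χ₀ (g * t * g⁻¹) ≠ 0 := by
    have := EM_conj hχhom g⁻¹ t (F.fixingSubgroup.inv_mem hg) htF'
    rw [inv_inv] at this
    rwa [this]
  have huE : g * t * g⁻¹ ∈ E.fixingSubgroup := good_fix hgood B hB hlB _ huB
  obtain ⟨z, hz⟩ := exists_kappa (F := E) hp hζ B hB hpB
  intro hdvd
  apply hχu
  rw [← hχa _ huE, hz _ huB huE a y₀ ha h0, (ZMod.natCast_eq_zero_iff _ _).2 hdvd, zero_mul]

theorem ne_p_of_mod (hp : p.Prime) {l : ℕ} (hmod : l ≡ 1 [MOD p ^ 2]) : l ≠ p := by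
  rintro rfl
  have h1 : l ∣ l ^ 2 := Dvd.intro_left (l ^ 1) (by ring)
  have h2 : l ≡ 1 [MOD l] := hmod.of_dvd h1
  have h3 : l ∣ 1 := by
    have := (Nat.modEq_zero_iff_dvd.2 (dvd_refl l)).symm.trans h2
    exact (Nat.modEq_zero_iff_dvd).1 this.symm
  exact hp.one_lt.ne' (Nat.dvd_one.1 h3)

/-- **the main theorem over an arbitrary base field** -/
theorem mainE {p : ℕ} (hp : p.Prime) (hp2 : p ≠ 2) (F : IntermediateField ℚ Om)
    [FiniteDimensional ℚ F] :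
    ∃ C : ℕ, ∀ k : IntermediateField ℚ Om, CyclicExt p F k →
      (C : ℕ∞) < (CycRam p F k).encard → ¬ FreeGal p (cycZp p k) := by
  have hfinE : FiniteDimensional ℚ (EF p F) := EF_finite hp F
  have hFE : F ≤ EF p F := le_sup_left
  have hμ2 : ∀ x : Om, x ^ (p ^ 2) = 1 → x ∈ EF p F := fun x hx =>
    (le_sup_right : _ ≤ EF p F) (subset_adjoin ℚ _ hx)
  have hμ : ∀ x : Om, x ^ p = 1 → x ∈ EF p F := fun x hx => hμ2 x (by
    rw [pow_two, pow_mul, hx, one_pow])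
  have hEF : (EF p F).fixingSubgroup ≤ F.fixingSubgroup :=
    IntermediateField.fixingSubgroup_antitone hFE
  obtain ⟨D, hD0, hD⟩ := exists_good (EF p F)
  obtain ⟨C₁, hC₁⟩ := pigeon (FL (EF p F)) p hp
  have hfin := finite_above F D hD0
  refine ⟨C₁ + {q : Ideal (ZF F) | q.IsMaximal ∧ (D : ZF F) ∈ q}.ncard,
    fun k hk hlt hfree => ?_⟩
  set Bad := {q : Ideal (ZF F) | q.IsMaximal ∧ (D : ZF F) ∈ q} with hBad
  have hS : (C₁ : ℕ∞) < (CycRam p F k \ Bad).encard := by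
    by_contra hcon
    rw [not_lt] at hcon
    have h1 : (CycRam p F k).encard ≤ (CycRam p F k \ Bad).encard + Bad.encard := by
      refine le_trans (Set.encard_le_encard (t := (CycRam p F k \ Bad) ∪ Bad) ?_)
        (Set.encard_union_le _ _)
      intro q hq
      by_cases h : q ∈ Bad
      · exact Or.inr h
      · exact Or.inl ⟨hq, h⟩
    have h2 : Bad.encard = (Bad.ncard : ℕ∞) := (hfin.cast_ncard_eq).symm
    have h3 : (CycRam p F k).encard ≤ (C₁ : ℕ∞) + (Bad.ncard : ℕ∞) := by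
      rw [← h2]
      exact le_trans h1 (add_le_add_left hcon _)
    have h4 : ((C₁ + Bad.ncard : ℕ) : ℕ∞) = (C₁ : ℕ∞) + (Bad.ncard : ℕ∞) := by push_cast; rfl
    rw [h4] at hlt
    exact absurd (lt_of_lt_of_le hlt h3) (lt_irrefl _)
  choose! B hBm hBq using fun (q : Ideal (ZF F)) (hq : q.IsMaximal) => exists_over F q hq
  have hinj : Set.InjOn (fun q => (B q).comap (iota (EF p F))) (CycRam p F k \ Bad) := by
    intro q hq q' hq' h
    have h1 := comap_lower hFE _ _ h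
    rwa [hBq q hq.1.1, hBq q' hq'.1.1] at h1
  have hlB : ∀ q, q.IsMaximal → ((Nat.card (ZF F ⧸ q) : ℕ) : ZO) ∈ B q := by
    intro q hq
    have h1 : ((Nat.card (ZF F ⧸ q) : ℕ) : ZF F) ∈ (B q).comap (iota F) := by
      rw [hBq q hq]; exact card_mem q rfl
    rwa [mem_comap_iff, map_natCast] at h1
  have hpB : ∀ q ∈ CycRam p F k, (p : ZO) ∉ B q := by
    intro q hq
    exact not_mem_of_prime hq.2.1 hp (ne_p_of_mod hp hq.2.2.1) (B q) (hBm q hq.1) (hlB q hq.1)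
  have hgood : ∀ q ∈ CycRam p F k \ Bad, Good (EF p F) (Nat.card (ZF F ⧸ q)) := by
    rintro q ⟨hq, hbad⟩
    refine hD _ hq.2.1 fun hdvd => hbad ⟨hq.1, ?_⟩
    obtain ⟨k, hk⟩ := hdvd
    rw [hk, Nat.cast_mul]
    exact q.mul_mem_right _ (card_mem q rfl)
  have hS' : (C₁ : ℕ∞) < ((fun q => (B q).comap (iota (EF p F))) '' (CycRam p F k \ Bad)).encard := by
    rw [hinj.encard_image]; exact hS
  obtain ⟨Q₁, ⟨q₁, hq₁, rfl⟩, Q₂, ⟨q₂, hq₂, rfl⟩, Q₃, ⟨q₃, hq₃, rfl⟩, n₁₂, n₁₃, n₂₃, b₁, b₂, P₁,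
    P₂⟩ := hC₁ ((fun q => (B q).comap (iota (EF p F))) '' (CycRam p F k \ Bad)) hS' (by
      rintro _ ⟨q, hq, rfl⟩
      refine ⟨comap_max _ (B q) (hBm q hq.1.1), fun h => hpB q hq.1 ?_⟩
      have h2 : (p : ZF (EF p F)) ∈ (B q).comap (iota (EF p F)) := h
      rwa [mem_comap_iff, map_natCast] at h2)
  obtain ⟨ζ, hζ⟩ := exists_prim p hp.pos
  have hζE := hμ ζ hζ.pow_eq_one
  obtain ⟨χ₀, hχhom, hχlc, hχk⟩ := exists_chi0 hp F k hk
  obtain ⟨a, y₀, ha, h0, hyt⟩ := kummer_gen hp hζ (EF p F) hζE χ₀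
    (fun g hg h hh => hχhom g (hEF hg) h (hEF hh)) (by
      obtain ⟨U, hU, hU'⟩ := hχlc
      exact ⟨U, hU, fun g hg u hu huE => hU' g (hEF hg) u hu (hEF huE)⟩)
  have hχa : ∀ t ∈ (EF p F).fixingSubgroup, chi (p := p) ζ y₀ t = χ₀ t := by
    intro t ht
    rw [chiF_unique hp hζ (rt_ne_zero hp h0 (val_ne_zero ha)) t _ (hyt t ht)]
    have : NeZero p := ⟨hp.ne_zero⟩
    simp
  have hK : ∀ σ, σ ∈ (cycZp p k).fixingSubgroup ↔ σ ∈ MF p F ∧ χ₀ σ = 0 := by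
    intro σ
    rw [mem_cycZp_PQ hp k σ, hχk]
    constructor
    · rintro ⟨h1, h2, h3⟩; exact ⟨⟨h1, h2⟩, h3⟩
    · rintro ⟨⟨h1, h2⟩, h3⟩; exact ⟨h1, h2, h3⟩
  have hv : ∀ q ∈ CycRam p F k \ Bad,
      ¬ p ∣ multiplicity ((B q).comap (iota (EF p F))) (Ideal.span {a}) := by
    intro q hq
    refine ram_val hp hζ k χ₀ hχhom hχk a ha y₀ h0 hχa (B q) (hBm q hq.1.1) (hpB q hq.1)
      (hlB q hq.1.1) (hgood q hq) ?_
    rw [hBq q hq.1.1]
    exact hq.1.2.2.2.2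
  obtain ⟨m₁, hl, hmod, hpow, -⟩ := hq₁.1
  have hlp := ne_p_of_mod hp hmod
  have hcard := degree_one_EF hp F hl hmod q₁ m₁ rfl (B q₁) (hBm q₁ m₁) (hBq q₁ m₁)
  obtain ⟨z, hz⟩ := IsAlgClosed.exists_pow_nat_eq ((Nat.card (ZF F ⧸ q₁) : ℕ) : Om) hp.pos
  have hne : ∀ q ∈ CycRam p F k \ Bad, ∀ q' ∈ CycRam p F k \ Bad,
      (B q).comap (iota (EF p F)) ≠ (B q').comap (iota (EF p F)) →
      (B q).comap (iota F) ≠ (B q').comap (iota F) := by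
    intro q hq q' hq' h h'
    rw [hBq q hq.1.1, hBq q' hq'.1.1] at h'
    exact h (by rw [h'])
  obtain ⟨ψ, c, hc, ψ1, ψ2, hA, hB⟩ := stepB hp hp2 hζ hFE hμ χ₀ hχhom hχlc a ha y₀ h0 hχa
    (cycZp p k) hK hfree (B q₁) (B q₂) (B q₃) (hBm q₁ m₁) (hv q₁ hq₁) (hv q₂ hq₂) (hv q₃ hq₃)
    (hne q₁ hq₁ q₂ hq₂ n₁₂) (hne q₁ hq₁ q₃ hq₃ n₁₃) (hne q₂ hq₂ q₃ hq₃ n₂₃) hl hlp
    (hgood q₁ hq₁) (hlB q₁ m₁) hcard z hz b₁ b₂ P₁ P₂
  exact stepC hp hp2 hζ (B q₁) (hBm q₁ m₁) hl hlp hmod hpow (hgood q₁ hq₁) (hlB q₁ m₁) hcard z hz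
    ψ c hc ψ1 ψ2 hA hB

end OzakiFree
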