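import Pool.Agent.Lib.MP_6e8030_nt.Core

open IntermediateField
open scoped ComplexConjugate

noncomputable section

namespace OzakiFree

/-! ### integers -/

theorem one_add_mul_pow (p c : ℤ) (x : ℕ) : (1 + p * c) ^ x ≡ 1 + p * (c * x) [ZMOD p ^ 2] := by
  induction x with
  | zero => simp
  | succ x ih =>
    have h1 := ih.mul_right (1 + p * c)
    rw [← pow_succ] at h1
    refine h1.trans ?_
    have : (1 + p * (c * x)) * (1 + p * c) = 1 + p * (c * ((x + 1 : ℕ) : ℤ)) + p ^ 2 * (c * x * c) := by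
      push_cast; ring
    rw [this]
    exact Int.modEq_iff_dvd.2 ⟨-(c * x * c), by ring⟩

/-- `l^(p-1) = 1 + p c` -/
theorem fermat_c {p : ℕ} (hp : p.Prime) {l : ℕ} (hl : l.Prime) (hlp : l ≠ p) :
    ∃ c : ℤ, (l : ℤ) ^ (p - 1) = 1 + p * c := by
  have h1 : IsCoprime (l : ℤ) (p : ℤ) := by
    rw [Nat.isCoprime_iff_coprime]
    exact (Nat.coprime_primes hl hp).2 hlp
  have h2 := Int.ModEq.pow_card_sub_one_eq_one hp h1
  obtain ⟨c, hc⟩ := (Int.modEq_iff_dvd.1 h2.symm)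
  exact ⟨c, by linarith⟩

theorem exps {p : ℕ} (hp : p.Prime) {l₁ l₂ : ℕ} (h₁ : l₁.Prime) (h₂ : l₂.Prime) (n₁ : l₁ ≠ p)
    (n₂ : l₂ ≠ p) (w₁ : ¬ (l₁ : ℤ) ^ (p - 1) ≡ 1 [ZMOD (p ^ 2 : ℕ)])
    (w₂ : ¬ (l₂ : ℤ) ^ (p - 1) ≡ 1 [ZMOD (p ^ 2 : ℕ)]) :
    ∃ x₁ x₂ : ℕ, ¬ p ∣ x₁ ∧ ¬ p ∣ x₂ ∧
      (((l₁ : ℤ) ^ x₁ * (l₂ : ℤ) ^ x₂) ^ (p - 1) ≡ 1 [ZMOD (p ^ 2 : ℕ)]) := by
  have : Fact p.Prime := ⟨hp⟩
  have : NeZero p := ⟨hp.ne_zero⟩
  obtain ⟨c₁, e₁⟩ := fermat_c hp h₁ n₁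
  obtain ⟨c₂, e₂⟩ := fermat_c hp h₂ n₂
  have key : ∀ c : ℤ, (1 + p * c ≡ 1 [ZMOD (p ^ 2 : ℕ)]) ↔ ((c : ZMod p) = 0) := by
    intro c
    rw [ZMod.intCast_zmod_eq_zero_iff_dvd, Int.modEq_comm, Int.modEq_iff_dvd]
    have hp0 : (p : ℤ) ≠ 0 := by exact_mod_cast hp.ne_zero
    have : (1 + (p : ℤ) * c - 1) = p * c := by ring
    rw [this]
    push_cast
    rw [pow_two]
    exact mul_dvd_mul_iff_left hp0
  rw [e₁, key] at w₁
  rw [e₂, key] at w₂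
  refine ⟨(c₂ : ZMod p).val, (-(c₁ : ZMod p)).val, ?_, ?_, ?_⟩
  · rw [← ZMod.natCast_eq_zero_iff, ZMod.natCast_val, ZMod.cast_id', id]; exact w₂
  · rw [← ZMod.natCast_eq_zero_iff, ZMod.natCast_val, ZMod.cast_id', id, neg_eq_zero]; exact w₁
  · set x₁ := (c₂ : ZMod p).val with hx₁
    set x₂ := (-(c₁ : ZMod p)).val with hx₂
    have h1 : ((l₁ : ℤ) ^ x₁ * (l₂ : ℤ) ^ x₂) ^ (p - 1) = (1 + p * c₁) ^ x₁ * (1 + p * c₂) ^ x₂ := by
      rw [← e₁, ← e₂]; ring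
    rw [h1]
    have h2 := (one_add_mul_pow p c₁ x₁).mul (one_add_mul_pow p c₂ x₂)
    have hc : ((p ^ 2 : ℕ) : ℤ) = (p : ℤ) ^ 2 := by push_cast; rfl
    rw [hc]
    refine h2.trans ?_
    have h3 : (1 + (p : ℤ) * (c₁ * x₁)) * (1 + p * (c₂ * x₂)) =
        (1 + p * (c₁ * x₁ + c₂ * x₂)) + p ^ 2 * (c₁ * x₁ * (c₂ * x₂)) := by ring
    have h4 : (1 + (p : ℤ) * (c₁ * x₁)) * (1 + p * (c₂ * x₂)) ≡
        1 + p * (c₁ * x₁ + c₂ * x₂) [ZMOD (p : ℤ) ^ 2] := by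
      rw [h3]; exact Int.modEq_iff_dvd.2 ⟨-(c₁ * x₁ * (c₂ * x₂)), by ring⟩
    refine h4.trans ?_
    rw [← hc, key]
    push_cast
    rw [hx₁, hx₂]
    simp only [ZMod.natCast_val, ZMod.cast_id', id]
    ring

/-- integers all of whose valuations are divisible by `p` -/
theorem pow_of_val {p : ℕ} (hp : p.Prime) (n : ℤ) (hn : n ≠ 0)
    (h : ∀ l : ℕ, l.Prime → p ∣ padicValInt l n) : ∃ m : ℕ, n.natAbs = m ^ p := by
  refine ⟨Nat.floorRoot p n.natAbs, ?_⟩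
  have hN : n.natAbs ≠ 0 := by simpa using hn
  refine Nat.eq_of_factorization_eq hN (pow_ne_zero _ ?_) ?_
  · rw [Nat.floorRoot_ne_zero]; exact ⟨hp.ne_zero, hN⟩
  · intro l
    rw [Nat.factorization_pow, Nat.factorization_floorRoot]
    by_cases hl : l.Prime
    · have h1 := h l hl
      rw [padicValInt, ← Nat.factorization_def _ hl] at h1
      obtain ⟨k, hk⟩ := h1
      simp [Finsupp.floorDiv_apply, hk, hp.pos]
    · simp [Nat.factorization_eq_zero_of_not_prime _ hl]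

/-! ### complex conjugation -/

theorem conj_root (φ : Om →+* ℂ) (c : GQ) (hc : ∀ x, φ (c x) = conj (φ x)) (ξ : Om) (k : ℕ)
    (hk : k ≠ 0) (hξ : ξ ^ k = 1) : c ξ = ξ⁻¹ := by
  apply φ.injective
  rw [hc, map_inv₀]
  have h1 : (φ ξ) ^ k = 1 := by rw [← map_pow, hξ, map_one]
  exact (Complex.inv_eq_conj (Complex.norm_eq_one_of_pow_eq_one h1 hk)).symm

theorem conj_sqrt_pos (φ : Om →+* ℂ) (c : GQ) (hc : ∀ x, φ (c x) = conj (φ x)) (y : Om) (a : ℤ)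
    (hy : y ^ 2 = (a : Om)) (ha : 0 < a) : c y = y := by
  apply φ.injective
  rw [hc]
  have h1 : (φ y) ^ 2 = ((Real.sqrt a : ℝ) : ℂ) ^ 2 := by
    rw [← map_pow, hy, map_intCast, ← Complex.ofReal_pow, Real.sq_sqrt (by exact_mod_cast ha.le)]
    simp
  rcases sq_eq_sq_iff_eq_or_eq_neg.1 h1 with h | h
  · rw [h, Complex.conj_ofReal]
  · rw [h, map_neg, Complex.conj_ofReal]

theorem conj_sqrt_neg (φ : Om →+* ℂ) (c : GQ) (hc : ∀ x, φ (c x) = conj (φ x)) (y : Om) (a : ℤ)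
    (hy : y ^ 2 = (a : Om)) (ha : a < 0) : c y = -y := by
  apply φ.injective
  rw [hc, map_neg]
  have h1 : (φ y) ^ 2 = (Complex.I * ((Real.sqrt (-a) : ℝ) : ℂ)) ^ 2 := by
    rw [← map_pow, hy, map_intCast, mul_pow, Complex.I_sq, ← Complex.ofReal_pow,
      Real.sq_sqrt (by have : (a : ℝ) < 0 := by exact_mod_cast ha
                       linarith)]
    push_cast; ring
  rcases sq_eq_sq_iff_eq_or_eq_neg.1 h1 with h | h
  · rw [h, map_mul, Complex.conj_ofReal, Complex.conj_I]; ring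
  · rw [h, map_neg, map_mul, Complex.conj_ofReal, Complex.conj_I]; ring

/-- complex conjugations lie in `PP 2` -/
theorem conj_mem_PP2 (φ : Om →+* ℂ) (c : GQ) (hc : ∀ x, φ (c x) = conj (φ x)) : c ∈ PP 2 := by
  rw [PP_two]
  refine (mem_fix_adjoin _ _).2 ?_
  rintro y ⟨ξ, ⟨m, hm⟩, rfl⟩
  have h := conj_root φ c hc ξ (2 ^ m) (by positivity) hm
  rw [map_add, map_inv₀, h, inv_inv, add_comm]

theorem conj_sq (φ : Om →+* ℂ) (c : GQ) (hc : ∀ x, φ (c x) = conj (φ x)) : c ^ 2 = 1 := by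
  ext x
  apply φ.injective
  rw [pow_two, AlgEquiv.mul_apply, hc, hc, Complex.conj_conj]; rfl

/-- no complex conjugation in `PP p` for odd `p` -/
theorem conj_not_mem_PP {p : ℕ} (hp : p.Prime) (hp2 : p ≠ 2) (φ : Om →+* ℂ) (c : GQ)
    (hc : ∀ x, φ (c x) = conj (φ x)) {ζ : Om} (hζ : IsPrimitiveRoot ζ p) : c ∉ PP p := by
  intro h
  have h1 := PP_fix_root c h ζ hζ.pow_eq_one
  have h2 := conj_root φ c hc ζ p hp.ne_zero hζ.pow_eq_one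
  rw [h1] at h2
  have h3 : ζ ^ 2 = 1 := by
    rw [pow_two]; nth_rw 2 [h2]
    exact mul_inv_cancel₀ (hζ.ne_zero hp.ne_zero)
  have h4 := (hζ.pow_eq_one_iff_dvd 2).1 h3
  exact hp2 ((Nat.prime_dvd_prime_iff_eq hp Nat.prime_two).1 h4)

end OzakiFree
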