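import Pool.Agent.Lib.MP_6e8030_nt.Final1

open IntermediateField
open scoped ComplexConjugate

noncomputable section

namespace OzakiFree

theorem padicValInt_neg' (l : ℕ) (a : ℤ) : padicValInt l (-a) = padicValInt l a := by
  simp [padicValInt]

theorem padicValInt_prime {l q : ℕ} (hl : l.Prime) (hq : q.Prime) :
    padicValInt l (q : ℤ) = if l = q then 1 else 0 := by
  have : Fact l.Prime := ⟨hl⟩
  have : Fact q.Prime := ⟨hq⟩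
  rw [padicValInt.of_nat]
  split_ifs with h
  · subst h; exact padicValNat_self
  · exact padicValNat_primes h

theorem padicValInt_two {l q₁ q₂ : ℕ} (hl : l.Prime) (hq₁ : q₁.Prime) (hq₂ : q₂.Prime)
    (x₁ x₂ : ℕ) : padicValInt l ((q₁ : ℤ) ^ x₁ * (q₂ : ℤ) ^ x₂) =
      x₁ * (if l = q₁ then 1 else 0) + x₂ * (if l = q₂ then 1 else 0) := by
  have : Fact l.Prime := ⟨hl⟩
  have h : ((q₁ : ℤ) ^ x₁ * (q₂ : ℤ) ^ x₂) = ((q₁ ^ x₁ * q₂ ^ x₂ : ℕ) : ℤ) := by push_cast; rfl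
  rw [h, padicValInt.of_nat, padicValNat.mul (pow_ne_zero _ hq₁.ne_zero) (pow_ne_zero _ hq₂.ne_zero),
    padicValNat.pow, padicValNat.pow]
  have e₁ := padicValInt_prime hl hq₁
  have e₂ := padicValInt_prime hl hq₂
  rw [padicValInt.of_nat] at e₁ e₂
  rw [e₁, e₂]

theorem zmod2_eq_one : ∀ c : ZMod 2, c ≠ 0 → c = 1 := by decide

/-- **imaginary quadratic fields, two primes** -/
theorem main_neg (n : ℤ) (hn : n < 0) (q₁ q₂ : ℕ) (hq₁ : q₁.Prime) (hq₂ : q₂.Prime)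
    (hne : q₁ ≠ q₂) (m₁ : q₁ % 4 = 3) (m₂ : q₂ % 4 = 3) (v₁ : ¬ 2 ∣ padicValInt q₁ n)
    (v₂ : ¬ 2 ∣ padicValInt q₂ n) : ¬ FreeGal 2 (cycZp 2 (kummer 2 n)) := by
  intro hfree
  have hp : Nat.Prime 2 := Nat.prime_two
  have hζ : IsPrimitiveRoot (-1 : Om) 2 := IsPrimitiveRoot.neg_one 0 (by norm_num)
  have hq₁0 : (-(q₁ : ℤ)) ≠ 0 := by have := hq₁.pos; omega
  have hq₂0 : (-(q₂ : ℤ)) ≠ 0 := by have := hq₂.pos; omega
  obtain ⟨y₀, h0⟩ := exists_rt hp n hn.ne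
  obtain ⟨y₁, h1⟩ := exists_rt hp (-(q₁ : ℤ)) hq₁0
  obtain ⟨y₂, h2⟩ := exists_rt hp (-(q₂ : ℤ)) hq₂0
  have neg_ne : ∀ {y : Om} {a : ℤ}, IsRt 2 y a → -y ≠ y := by
    intro y a h e
    have h' := h.ne_zero hp
    apply h'
    have h2 : (2 : Om) * y = 0 := by
      have : y + y = 0 := by nth_rw 1 [← e]; exact neg_add_cancel y
      rw [two_mul]; exact this
    rcases mul_eq_zero.1 h2 with h3 | h3
    · norm_num at h3
    · exact h3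
  have hreal : ∀ (y : Om), ∀ (φ : Om →+* ℂ) (c : GQ), (∀ y, φ (c y) = conj (φ y)) →
      c ∈ (KK 2 n).fixingSubgroup → c y = y := by
    intro y φ c hc hcK
    exfalso
    have e1 := conj_sqrt_neg φ c hc y₀ n h0.1 hn
    have e2 := (mem_K hp n hn.ne c).1 hcK
    exact neg_ne h0 (e1.symm.trans (e2.2 y₀ h0.1))
  have hdiv : ∀ (q : ℕ), q.Prime → ¬ 2 ∣ padicValInt q n → ∀ l : ℕ, l.Prime → l ≠ 2 →
      ¬ 2 ∣ padicValInt l (-(q : ℤ)) → ¬ 2 ∣ padicValInt l n := by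
    intro q hq hv l hl _ hv'
    rw [padicValInt_neg', padicValInt_prime hl hq] at hv'
    split_ifs at hv' with h
    · rw [h]; exact hv
    · exact absurd (dvd_zero 2) hv'
  have hmod : ∀ q : ℕ, q % 4 = 3 → (-(q : ℤ)) ^ (2 - 1) ≡ 1 [ZMOD (2 ^ 2 : ℕ)] := by
    intro q hq
    have : (4 : ℤ) ∣ 1 - (-(q : ℤ)) := by omega
    rw [show (2 - 1 : ℕ) = 1 from rfl, pow_one]
    exact Int.modEq_iff_dvd.2 (by push_cast; simpa using this)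
  have r₁ := chi_RL hp hζ h0 h1 (hdiv q₁ hq₁ v₁) (hmod q₁ m₁) (hreal y₁)
  have r₂ := chi_RL hp hζ h0 h2 (hdiv q₂ hq₂ v₂) (hmod q₂ m₂) (hreal y₂)
  have hq₁2 : q₁ ≠ 2 := by rintro rfl; norm_num at m₁
  obtain ⟨ψ, hψ1, hψ2, hψ3, hψ4⟩ := core hp hζ h0 h1 h2 hfree r₁ r₂ hq₁ hq₁2 v₁
  have hzero : ∀ t ∈ P2, ψ t = 0 := by
    refine no_unram_Qinf2 ψ (by rw [← PP_two]; exact hψ1) (by rw [← PP_two]; exact hψ2) ?_
    intro B hB t ht htP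
    rw [← PP_two] at htP
    obtain ⟨f1, f2⟩ := inertia_formula hp hζ h0 r₁ ψ hψ3 hψ4 B hB t ht htP
    have hprod : chi (p := 2) (-1) y₁ t * chi (p := 2) (-1) y₂ t = 0 := by
      by_cases hpB : ((2 : ℕ) : integralClosure ℤ Om) ∈ B
      · have := inertia_fix_kummer_p hp B hB hpB t ht (fun ξ hξ => PP_fix_root t htP ξ hξ) y₁ _
          h1.1 (hmod q₁ m₁)
        rw [(chi_eq_zero_iff hp hζ h1 t).2 this, zero_mul]
      · obtain ⟨l, hl, hlB, hlB'⟩ := exists_prime_mem B hB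
        obtain ⟨z, hz⟩ := exists_rt hp (l : ℤ) (by exact_mod_cast hl.ne_zero)
        rw [chi_val hp hζ B hB hpB t ht hl hlB' h1 hz, chi_val hp hζ B hB hpB t ht hl hlB' h2 hz,
          padicValInt_neg', padicValInt_neg', padicValInt_prime hl hq₁, padicValInt_prime hl hq₂]
        by_cases e1 : l = q₁
        · have e2 : l ≠ q₂ := fun e => hne (e1.symm.trans e)
          simp [e2]
        · simp [e1]
    rw [hprod] at f2
    rcases mul_eq_zero.1 f2 with h | h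
    · exact f1 h
    · exact h
  obtain ⟨φ, c, hc⟩ := exists_conj
  have hcP : c ∈ PP 2 := conj_mem_PP2 φ c hc
  have e0 := conj_sqrt_neg φ c hc y₀ n h0.1 hn
  have e1 := conj_sqrt_neg φ c hc y₁ _ h1.1 (by have := hq₁.pos; omega)
  have e2 := conj_sqrt_neg φ c hc y₂ _ h2.1 (by have := hq₂.pos; omega)
  have c0 : chi (p := 2) (-1) y₀ c ≠ 0 := fun h =>
    neg_ne h0 (e0.symm.trans ((chi_eq_zero_iff hp hζ h0 c).1 h))
  have c1 : chi (p := 2) (-1) y₁ c ≠ 0 := fun h =>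
    neg_ne h1 (e1.symm.trans ((chi_eq_zero_iff hp hζ h1 c).1 h))
  have c2 : chi (p := 2) (-1) y₂ c ≠ 0 := fun h =>
    neg_ne h2 (e2.symm.trans ((chi_eq_zero_iff hp hζ h2 c).1 h))
  have h3 := hψ4 c hcP c0 (by rw [conj_sq φ c hc]; exact (RL 2 (KK 2 n)).one_mem)
  rw [hzero c (by rw [← PP_two]; exact hcP), mul_zero] at h3
  have : Fact (Nat.Prime 2) := ⟨hp⟩
  rcases mul_eq_zero.1 h3.symm with h | h
  · exact c1 h
  · exact c2 h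

/-! ### three primes -/

theorem three_psi {p : ℕ} (hp : p.Prime) {ζ : Om} (hζ : IsPrimitiveRoot ζ p) (n : ℤ)
    {l₁ l₂ l₃ : ℕ} (P₁ : l₁.Prime) (P₂ : l₂.Prime) (P₃ : l₃.Prime)
    (n₁ : l₁ ≠ p) (n₂ : l₂ ≠ p) (n₃ : l₃ ≠ p) (n₁₂ : l₁ ≠ l₂) (n₁₃ : l₁ ≠ l₃) (n₂₃ : l₂ ≠ l₃)
    (v₁ : ¬ p ∣ padicValInt l₁ n) (v₂ : ¬ p ∣ padicValInt l₂ n) (v₃ : ¬ p ∣ padicValInt l₃ n)
    (w₁ : ¬ (l₁ : ℤ) ^ (p - 1) ≡ 1 [ZMOD (p ^ 2 : ℕ)])
    (w₂ : ¬ (l₂ : ℤ) ^ (p - 1) ≡ 1 [ZMOD (p ^ 2 : ℕ)])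
    (w₃ : ¬ (l₃ : ℤ) ^ (p - 1) ≡ 1 [ZMOD (p ^ 2 : ℕ)])
    (hfree : FreeGal p (cycZp p (kummer p n))) :
    ∃ (z : Om) (c : ZMod p) (ψ : GQ → ZMod p), IsRt p z (l₁ : ℤ) ∧ c ≠ 0 ∧
      HomOn (PP p) ψ ∧ LCOn (PP p) ψ ∧
      (∀ B : Ideal (integralClosure ℤ Om), B.IsMaximal → (p : integralClosure ℤ Om) ∉ B →
        ∀ t ∈ B.inertia GQ, ψ t = c * chi (p := p) ζ z t) ∧
      (∀ B : Ideal (integralClosure ℤ Om), B.IsMaximal → (p : integralClosure ℤ Om) ∈ B →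
        ∀ t ∈ B.inertia GQ, t ∈ PP p → ψ t = 0) ∧
      (p = 2 → ∀ (φ : Om →+* ℂ) (c : GQ), (∀ x, φ (c x) = conj (φ x)) → ψ c = 0) := by
  have hFp : Fact p.Prime := ⟨hp⟩
  have hn : n ≠ 0 := by
    rintro rfl
    exact v₁ (by simp)
  obtain ⟨y₀, h0⟩ := exists_rt hp n hn
  obtain ⟨x₁, x₂, hx₁, hx₂, hx⟩ := exps hp P₁ P₂ n₁ n₂ w₁ w₂
  obtain ⟨u₁, u₃, hu₁, hu₃, hu⟩ := exps hp P₁ P₃ n₁ n₃ w₁ w₃
  have a₁pos : 0 < ((l₁ : ℤ) ^ x₁ * (l₂ : ℤ) ^ x₂) := by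
    have := P₁.pos; have := P₂.pos; positivity
  have a₂pos : 0 < ((l₁ : ℤ) ^ u₁ * (l₃ : ℤ) ^ u₃) := by
    have := P₁.pos; have := P₃.pos; positivity
  obtain ⟨y₁, h1⟩ := exists_rt hp _ a₁pos.ne'
  obtain ⟨y₂, h2⟩ := exists_rt hp _ a₂pos.ne'
  have hreal : ∀ {y : Om} {a : ℤ}, IsRt p y a → 0 < a → ∀ (φ : Om →+* ℂ) (c : GQ),
      (∀ y, φ (c y) = conj (φ y)) → c ∈ (KK p n).fixingSubgroup → c y = y := by
    intro y a hy ha φ c hc hcK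
    by_cases h : p = 2
    · subst h
      exact conj_sqrt_pos φ c hc y a hy.1 ha
    · exact absurd ((mem_K hp n hn c).1 hcK).1 (conj_not_mem_PP hp h φ c hc hζ)
  have hdiv : ∀ {q₁ q₂ : ℕ}, q₁.Prime → q₂.Prime → ¬ p ∣ padicValInt q₁ n →
      ¬ p ∣ padicValInt q₂ n → ∀ (x₁ x₂ : ℕ), ∀ l : ℕ, l.Prime → l ≠ p →
      ¬ p ∣ padicValInt l ((q₁ : ℤ) ^ x₁ * (q₂ : ℤ) ^ x₂) → ¬ p ∣ padicValInt l n := by
    intro q₁ q₂ Q₁ Q₂ hv₁ hv₂ x₁ x₂ l hl _ hv'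
    rw [padicValInt_two hl Q₁ Q₂] at hv'
    by_cases e1 : l = q₁
    · rw [e1]; exact hv₁
    · by_cases e2 : l = q₂
      · rw [e2]; exact hv₂
      · simp [e1, e2] at hv'
  have r₁ := chi_RL hp hζ h0 h1 (hdiv P₁ P₂ v₁ v₂ x₁ x₂) hx (hreal h1 a₁pos)
  have r₂ := chi_RL hp hζ h0 h2 (hdiv P₁ P₃ v₁ v₃ u₁ u₃) hu (hreal h2 a₂pos)
  obtain ⟨ψ, hψ1, hψ2, hψ3, hψ4⟩ := core hp hζ h0 h1 h2 hfree r₁ r₂ P₁ n₁ v₁
  obtain ⟨z, hz⟩ := exists_rt hp (l₁ : ℤ) (by exact_mod_cast P₁.ne_zero)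
  have he : ((padicValInt l₁ n : ℕ) : ZMod p) ≠ 0 := by rwa [Ne, ZMod.natCast_eq_zero_iff]
  have hx₁' : ((x₁ : ℕ) : ZMod p) ≠ 0 := by rwa [Ne, ZMod.natCast_eq_zero_iff]
  have hu₁' : ((u₁ : ℕ) : ZMod p) ≠ 0 := by rwa [Ne, ZMod.natCast_eq_zero_iff]
  refine ⟨z, (x₁ : ZMod p) * u₁ / (padicValInt l₁ n : ℕ), ψ, hz,
    div_ne_zero (mul_ne_zero hx₁' hu₁') he, hψ1, hψ2, ?_, ?_, ?_⟩
  · intro B hB hpB t ht
    have htP := inertia_mem_PP hp B hB hpB t ht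
    obtain ⟨f1, f2⟩ := inertia_formula hp hζ h0 r₁ ψ hψ3 hψ4 B hB t ht htP
    obtain ⟨l, hl, hlB, hlB'⟩ := exists_prime_mem B hB
    obtain ⟨z', hz'⟩ := exists_rt hp (l : ℤ) (by exact_mod_cast hl.ne_zero)
    have k0 := chi_val hp hζ B hB hpB t ht hl hlB' h0 hz'
    have k1 := chi_val hp hζ B hB hpB t ht hl hlB' h1 hz'
    have k2 := chi_val hp hζ B hB hpB t ht hl hlB' h2 hz'
    have k3 := chi_val hp hζ B hB hpB t ht hl hlB' hz hz'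
    rw [padicValInt_two hl P₁ P₂] at k1
    rw [padicValInt_two hl P₁ P₃] at k2
    rw [padicValInt_prime hl P₁] at k3
    by_cases e1 : l = l₁
    · subst e1
      simp only [n₁₂, n₁₃, if_true, if_false, mul_one, mul_zero, add_zero, Nat.cast_one,
        one_mul] at k1 k2 k3
      rw [k3]
      by_cases hχ : chi (p := p) ζ z' t = 0
      · rw [hχ, mul_zero]
        exact f1 (by rw [k0, hχ, mul_zero])
      · rw [k0, k1, k2] at f2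
        rw [div_mul_eq_mul_div, eq_div_iff he]
        have : (chi (p := p) ζ z' t) * (ψ t * (padicValInt l n : ℕ)) =
            (chi (p := p) ζ z' t) * ((x₁ : ZMod p) * u₁ * chi (p := p) ζ z' t) := by
          calc _ = (padicValInt l n : ZMod p) * chi (p := p) ζ z' t * ψ t := by ring
            _ = _ := by rw [f2]; ring
        exact mul_left_cancel₀ hχ this
    · have hprod : chi (p := p) ζ y₁ t * chi (p := p) ζ y₂ t = 0 := by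
        by_cases e2 : l = l₂
        · have e3 : l ≠ l₃ := fun e => n₂₃ (e2.symm.trans e)
          rw [k2]; simp [e1, e3]
        · rw [k1]; simp [e1, e2]
      rw [if_neg e1] at k3
      rw [k3, Nat.cast_zero, zero_mul, mul_zero]
      rw [hprod] at f2
      rcases mul_eq_zero.1 f2 with h | h
      · exact f1 h
      · exact h
  · intro B hB hpB t ht htP
    obtain ⟨f1, f2⟩ := inertia_formula hp hζ h0 r₁ ψ hψ3 hψ4 B hB t ht htP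
    have := inertia_fix_kummer_p hp B hB hpB t ht (fun ξ hξ => PP_fix_root t htP ξ hξ) y₁ _
      h1.1 hx
    rw [(chi_eq_zero_iff hp hζ h1 t).2 this, zero_mul] at f2
    rcases mul_eq_zero.1 f2 with h | h
    · exact f1 h
    · exact h
  · intro h φ c hc
    subst h
    have hcP := conj_mem_PP2 φ c hc
    by_cases hc0 : chi (p := 2) ζ y₀ c = 0
    · exact hψ3 c (conj_mem_RL 2 _ φ c hc ((mem_K' hp hζ h0 c).2 ⟨hcP, hc0⟩))
    · have h3 := hψ4 c hcP hc0 (by rw [conj_sq φ c hc]; exact (RL 2 (KK 2 n)).one_mem)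
      have h4 := conj_sqrt_pos φ c hc y₁ _ h1.1 a₁pos
      rw [(chi_eq_zero_iff hp hζ h1 c).2 h4, zero_mul] at h3
      rcases mul_eq_zero.1 h3 with h | h
      · exact absurd h hc0
      · exact h

/-- the final contradiction for `p = 2` -/
theorem no_psi_two {l₁ : ℕ} (P₁ : l₁.Prime) (m₁ : l₁ % 4 = 3) {z : Om} {c : ZMod 2}
    {ψ : GQ → ZMod 2} (hz : IsRt 2 z (l₁ : ℤ)) (hc : c ≠ 0)
    (hψ1 : HomOn (PP 2) ψ) (hψ2 : LCOn (PP 2) ψ)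
    (hψ3 : ∀ B : Ideal (integralClosure ℤ Om), B.IsMaximal →
        ((2 : ℕ) : integralClosure ℤ Om) ∉ B →
        ∀ t ∈ B.inertia GQ, ψ t = c * chi (p := 2) (-1) z t)
    (hψ4 : ∀ B : Ideal (integralClosure ℤ Om), B.IsMaximal →
        ((2 : ℕ) : integralClosure ℤ Om) ∈ B →
        ∀ t ∈ B.inertia GQ, t ∈ PP 2 → ψ t = 0)
    (hψ5 : ∀ (φ : Om →+* ℂ) (c : GQ), (∀ x, φ (c x) = conj (φ x)) → ψ c = 0) : False := by
  have hp : Nat.Prime 2 := Nat.prime_two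
  have hFp : Fact (Nat.Prime 2) := ⟨hp⟩
  have hζ : IsPrimitiveRoot (-1 : Om) 2 := IsPrimitiveRoot.neg_one 0 (by norm_num)
  have hc1 : c = 1 := zmod2_eq_one c hc
  have hneg0 : (-(l₁ : ℤ)) ≠ 0 := by have := P₁.pos; omega
  obtain ⟨y, hy⟩ := exists_rt hp (-(l₁ : ℤ)) hneg0
  have hmod : (-(l₁ : ℤ)) ^ (2 - 1) ≡ 1 [ZMOD (2 ^ 2 : ℕ)] := by
    have : (4 : ℤ) ∣ 1 - (-(l₁ : ℤ)) := by omega
    rw [show (2 - 1 : ℕ) = 1 from rfl, pow_one]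
    exact Int.modEq_iff_dvd.2 (by push_cast; simpa using this)
  have hζP : ∀ σ ∈ PP 2, σ (-1 : Om) = -1 := fun σ hσ => PP_fix_root σ hσ _ hζ.pow_eq_one
  have hyh := chi_homOn hp hζ hy (PP 2) hζP
  obtain ⟨U, hU, hU'⟩ := hψ2
  obtain ⟨V, hV, hV'⟩ := chi_lcOn (p := 2) (ζ := -1) hy (PP 2)
  have hzero : ∀ t ∈ P2, ψ t - chi (p := 2) (-1) y t = 0 := by
    refine no_unram_Qinf2 (fun t => ψ t - chi (p := 2) (-1) y t) ?_ ?_ ?_
    · intro g hg h hh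
      rw [← PP_two] at hg hh
      show ψ (g * h) - _ = _
      rw [hψ1 g hg h hh, hyh g hg h hh]; ring
    · refine ⟨U ⊓ V, hU.inter hV, fun g hg u hu huP => ?_⟩
      rw [← PP_two] at hg huP
      show ψ (g * u) - _ = _
      rw [hU' g hg u hu.1 huP, hV' g hg u hu.2 huP]
    · intro B hB t ht htP
      rw [← PP_two] at htP
      show ψ t - _ = _
      by_cases hpB : ((2 : ℕ) : integralClosure ℤ Om) ∈ B
      · have := inertia_fix_kummer_p hp B hB hpB t ht (fun ξ hξ => PP_fix_root t htP ξ hξ) y _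
          hy.1 hmod
        rw [(chi_eq_zero_iff hp hζ hy t).2 this, hψ4 B hB hpB t ht htP, sub_zero]
      · obtain ⟨l, hl, hlB, hlB'⟩ := exists_prime_mem B hB
        obtain ⟨z', hz'⟩ := exists_rt hp (l : ℤ) (by exact_mod_cast hl.ne_zero)
        rw [hψ3 B hB hpB t ht, hc1, one_mul, chi_val hp hζ B hB hpB t ht hl hlB' hy hz',
          chi_val hp hζ B hB hpB t ht hl hlB' hz hz', padicValInt_neg', sub_self]
  obtain ⟨φ, s, hs⟩ := exists_conj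
  have hsP : s ∈ PP 2 := conj_mem_PP2 φ s hs
  have e := hzero s (by rw [← PP_two]; exact hsP)
  rw [hψ5 φ s hs, zero_sub, neg_eq_zero, chi_eq_zero_iff hp hζ hy] at e
  have e1 := conj_sqrt_neg φ s hs y _ hy.1 (by have := P₁.pos; omega)
  rw [e] at e1
  apply hy.ne_zero hp
  have h2 : (2 : Om) * y = 0 := by
    rw [two_mul]; nth_rw 1 [e1]; exact neg_add_cancel y
  rcases mul_eq_zero.1 h2 with h3 | h3
  · norm_num at h3
  · exact h3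

/-- **p = 2, three primes** -/
theorem main_two (n : ℤ) {l₁ l₂ l₃ : ℕ} (P₁ : l₁.Prime) (P₂ : l₂.Prime) (P₃ : l₃.Prime)
    (n₁₂ : l₁ ≠ l₂) (n₁₃ : l₁ ≠ l₃) (n₂₃ : l₂ ≠ l₃)
    (v₁ : ¬ 2 ∣ padicValInt l₁ n) (v₂ : ¬ 2 ∣ padicValInt l₂ n) (v₃ : ¬ 2 ∣ padicValInt l₃ n)
    (m₁ : l₁ % 4 = 3) (m₂ : l₂ % 4 = 3) (m₃ : l₃ % 4 = 3) :
    ¬ FreeGal 2 (cycZp 2 (kummer 2 n)) := by
  intro hfree
  have hp : Nat.Prime 2 := Nat.prime_two
  have hFp : Fact (Nat.Prime 2) := ⟨hp⟩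
  have hζ : IsPrimitiveRoot (-1 : Om) 2 := IsPrimitiveRoot.neg_one 0 (by norm_num)
  have hne2 : ∀ {q : ℕ}, q % 4 = 3 → q ≠ 2 := by rintro q h rfl; norm_num at h
  have hw : ∀ {q : ℕ}, q % 4 = 3 → ¬ (q : ℤ) ^ (2 - 1) ≡ 1 [ZMOD (2 ^ 2 : ℕ)] := by
    intro q hq h
    rw [show (2 - 1 : ℕ) = 1 from rfl, pow_one] at h
    have := Int.modEq_iff_dvd.1 h
    push_cast at this
    omega
  obtain ⟨z, c, ψ, hz, hc, hψ1, hψ2, hψ3, hψ4, hψ5⟩ := three_psi hp hζ n P₁ P₂ P₃ (hne2 m₁)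
    (hne2 m₂) (hne2 m₃) n₁₂ n₁₃ n₂₃ v₁ v₂ v₃ (hw m₁) (hw m₂) (hw m₃) hfree
  exact no_psi_two P₁ m₁ hz hc hψ1 hψ2 hψ3 hψ4 (hψ5 rfl)

end OzakiFree
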