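import Pool.Agent.Lib.MP_6e8030_nt.Final2

open IntermediateField
open scoped ComplexConjugate

noncomputable section

namespace OzakiFree

theorem not_mem_of_prime {l q : ℕ} (hl : l.Prime) (hq : q.Prime) (hne : l ≠ q)
    (B : Ideal (integralClosure ℤ Om)) (hB : B.IsMaximal)
    (hlB : (l : integralClosure ℤ Om) ∈ B) : (q : integralClosure ℤ Om) ∉ B := by
  obtain ⟨r, hr, hrB, hr'⟩ := exists_prime_mem B hB
  have e1 : (r : ℤ) ∣ (l : ℤ) := (hr' _).1 (by simpa using hlB)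
  have e2 : r = l := (Nat.prime_dvd_prime_iff_eq hr hl).1 (by exact_mod_cast e1)
  intro hqB
  have e3 : (r : ℤ) ∣ (q : ℤ) := (hr' _).1 (by simpa using hqB)
  have e4 : r = q := (Nat.prime_dvd_prime_iff_eq hr hq).1 (by exact_mod_cast e3)
  exact hne (e2.symm.trans e4)

/-- conjugate inertia groups -/
theorem conj_inertia (B : Ideal (integralClosure ℤ Om)) (hB : B.IsMaximal) (g : GQ) :
    ∃ B' : Ideal (integralClosure ℤ Om), B'.IsMaximal ∧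
      (∀ a : ℕ, (a : integralClosure ℤ Om) ∈ B' ↔ (a : integralClosure ℤ Om) ∈ B) ∧
      ∀ t ∈ B.inertia GQ, g * t * g⁻¹ ∈ B'.inertia GQ := by
  let e := MulSemiringAction.toRingEquiv GQ (integralClosure ℤ Om) g⁻¹
  have he : ∀ x, e x = g⁻¹ • x := fun x => rfl
  refine ⟨B.comap (e : integralClosure ℤ Om →+* integralClosure ℤ Om), ?_, ?_, ?_⟩
  · exact Ideal.comap_isMaximal_of_equiv e
  · intro a
    rw [Ideal.mem_comap]
    simp
  · intro t ht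
    rw [AddSubgroup.mem_inertia] at ht ⊢
    intro x
    have h1 := ht (g⁻¹ • x)
    show e ((g * t * g⁻¹) • x - x) ∈ B
    rw [map_sub, he, he, ← mul_smul]
    have : g⁻¹ * (g * t * g⁻¹) = t * g⁻¹ := by group
    rw [this, mul_smul]
    exact h1

section odd

variable {p : ℕ}

/-- the space of characters of `Gal(Om/ℚ(μ_{p^∞}))` with prescribed inertia -/
def Vsub (hp : p.Prime) (ζ z : Om) : letI : Fact p.Prime := ⟨hp⟩; Submodule (ZMod p) (GQ → ZMod p) :=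
  letI : Fact p.Prime := ⟨hp⟩
  { carrier := {θ | HomOn (Pmu p) θ ∧ LCOn (Pmu p) θ ∧ (∀ t ∉ Pmu p, θ t = 0) ∧ ∃ c : ZMod p,
      (∀ B : Ideal (integralClosure ℤ Om), B.IsMaximal → (p : integralClosure ℤ Om) ∉ B →
        ∀ t ∈ B.inertia GQ, θ t = c * chi (p := p) ζ z t) ∧
      (∀ B : Ideal (integralClosure ℤ Om), B.IsMaximal → (p : integralClosure ℤ Om) ∈ B →
        ∀ t ∈ B.inertia GQ, t ∈ Pmu p → θ t = 0)}
    zero_mem' := ⟨fun _ _ _ _ => by simp, ⟨⊤, isOpen_univ, fun _ _ _ _ _ => rfl⟩, fun _ _ => rfl,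
      0, fun _ _ _ _ _ => by simp, fun _ _ _ _ _ _ => rfl⟩
    add_mem' := by
      rintro θ θ' ⟨h1, ⟨U, hU, hU'⟩, h3, c, h4, h5⟩ ⟨k1, ⟨V, hV, hV'⟩, k3, c', k4, k5⟩
      refine ⟨fun g hg h hh => ?_, ⟨U ⊓ V, hU.inter hV, fun g hg u hu huP => ?_⟩, fun t ht => ?_,
        c + c', fun B hB hpB t ht => ?_, fun B hB hpB t ht htP => ?_⟩
      · simp only [Pi.add_apply]; rw [h1 g hg h hh, k1 g hg h hh]; ring
      · simp only [Pi.add_apply]; rw [hU' g hg u hu.1 huP, hV' g hg u hu.2 huP]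
      · simp only [Pi.add_apply]; rw [h3 t ht, k3 t ht, add_zero]
      · simp only [Pi.add_apply]; rw [h4 B hB hpB t ht, k4 B hB hpB t ht]; ring
      · simp only [Pi.add_apply]; rw [h5 B hB hpB t ht htP, k5 B hB hpB t ht htP, add_zero]
    smul_mem' := by
      rintro a θ ⟨h1, ⟨U, hU, hU'⟩, h3, c, h4, h5⟩
      refine ⟨fun g hg h hh => ?_, ⟨U, hU, fun g hg u hu huP => ?_⟩, fun t ht => ?_,
        a * c, fun B hB hpB t ht => ?_, fun B hB hpB t ht htP => ?_⟩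
      · simp only [Pi.smul_apply, smul_eq_mul]; rw [h1 g hg h hh]; ring
      · simp only [Pi.smul_apply, smul_eq_mul]; rw [hU' g hg u hu huP]
      · simp only [Pi.smul_apply, smul_eq_mul]; rw [h3 t ht, mul_zero]
      · simp only [Pi.smul_apply, smul_eq_mul]; rw [h4 B hB hpB t ht]; ring
      · simp only [Pi.smul_apply, smul_eq_mul]; rw [h5 B hB hpB t ht htP, mul_zero] }

/-- twisted conjugation -/
def Top (hp : p.Prime) (σ₀ : GQ) (g₀ : ℕ) : letI : Fact p.Prime := ⟨hp⟩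
    (GQ → ZMod p) →ₗ[ZMod p] (GQ → ZMod p) :=
  letI : Fact p.Prime := ⟨hp⟩
  { toFun := fun θ t => ((g₀ : ZMod p))⁻¹ * θ (σ₀ * t * σ₀⁻¹)
    map_add' := fun θ θ' => by ext t; simp only [Pi.add_apply]; ring
    map_smul' := fun a θ => by ext t; simp only [Pi.smul_apply, smul_eq_mul, RingHom.id_apply]; ring }

theorem Pmu_normal (hp2 : p ≠ 2) : (Pmu p).Normal := by
  rw [← PP_odd hp2]; exact PP_normal

theorem g0_ne_zero (hp : p.Prime) {ζ : Om} (hζ : IsPrimitiveRoot ζ p)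
    (σ₀ : GQ) (g₀ : ℕ) (hσ : ∀ ξ ∈ muInf p, σ₀ ξ = ξ ^ g₀) : ((g₀ : ℕ) : ZMod p) ≠ 0 := by
  intro h
  rw [ZMod.natCast_eq_zero_iff] at h
  obtain ⟨k, rfl⟩ := h
  have h1 := hσ ζ ⟨1, by rw [pow_one]; exact hζ.pow_eq_one⟩
  rw [pow_mul, hζ.pow_eq_one, one_pow] at h1
  have h2 : ζ = 1 := σ₀.injective (by rw [h1, map_one])
  rw [h2] at hζ
  have := hζ.unique IsPrimitiveRoot.one
  exact hp.ne_one this

theorem Top_mem (hp : p.Prime) (hp2 : p ≠ 2) {ζ z : Om} (hζ : IsPrimitiveRoot ζ p) {l : ℕ}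
    (hz : IsRt p z (l : ℤ))
    (σ₀ : GQ) (g₀ : ℕ) (hσ : ∀ ξ ∈ muInf p, σ₀ ξ = ξ ^ g₀) (θ : GQ → ZMod p)
    (hθ : θ ∈ Vsub hp ζ z) : Top hp σ₀ g₀ θ ∈ Vsub hp ζ z := by
  have hFp : Fact p.Prime := ⟨hp⟩
  have hg := g0_ne_zero hp hζ σ₀ g₀ hσ
  obtain ⟨h1, ⟨U, hU, hU'⟩, h3, c, h4, h5⟩ := hθ
  have hN := Pmu_normal hp2
  have hT : ∀ t, Top hp σ₀ g₀ θ t = ((g₀ : ZMod p))⁻¹ * θ (σ₀ * t * σ₀⁻¹) := fun t => rfl
  refine ⟨fun g hg' h hh => ?_, ⟨U.comap (MulAut.conj σ₀).toMonoidHom, ?_, fun g hg' u hu huP => ?_⟩,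
    fun t ht => ?_, c, fun B hB hpB t ht => ?_, fun B hB hpB t ht htP => ?_⟩
  · rw [hT, hT, hT]
    have : σ₀ * (g * h) * σ₀⁻¹ = (σ₀ * g * σ₀⁻¹) * (σ₀ * h * σ₀⁻¹) := by group
    rw [this, h1 _ (hN.conj_mem g hg' σ₀) _ (hN.conj_mem h hh σ₀)]; ring
  · have hcont : Continuous fun t : GQ => σ₀ * t * σ₀⁻¹ := by fun_prop
    exact hU.preimage hcont
  · rw [hT, hT]
    have : σ₀ * (g * u) * σ₀⁻¹ = (σ₀ * g * σ₀⁻¹) * (σ₀ * u * σ₀⁻¹) := by group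
    have hu' : σ₀ * u * σ₀⁻¹ ∈ U := hu
    rw [this, hU' _ (hN.conj_mem g hg' σ₀) (σ₀ * u * σ₀⁻¹) hu' (hN.conj_mem u huP σ₀)]
  · rw [hT, h3, mul_zero]
    intro h
    apply ht
    have := hN.conj_mem _ h σ₀⁻¹
    have e : σ₀⁻¹ * (σ₀ * t * σ₀⁻¹) * σ₀⁻¹⁻¹ = t := by group
    rwa [e] at this
  · obtain ⟨B', hB', hmem, hin⟩ := conj_inertia B hB σ₀
    have htP : t ∈ Pmu p := by
      rw [← PP_odd hp2]; exact inertia_mem_PP hp B hB hpB t ht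
    have htζ : t ζ = ζ := by
      refine PP_fix_root t ?_ ζ hζ.pow_eq_one
      rw [PP_odd hp2]; exact htP
    rw [hT, h4 B' hB' (fun h => hpB ((hmem p).1 h)) _ (hin t ht),
      chi_conj hp hζ hz σ₀ t htζ g₀ (hσ ζ ⟨1, by rw [pow_one]; exact hζ.pow_eq_one⟩)]
    field_simp
  · obtain ⟨B', hB', hmem, hin⟩ := conj_inertia B hB σ₀
    rw [hT, h5 B' hB' ((hmem p).2 hpB) _ (hin t ht) (hN.conj_mem t htP σ₀), mul_zero]

theorem Top_pow (hp : p.Prime) (σ₀ : GQ) (g₀ : ℕ) (θ : GQ → ZMod p) (k : ℕ) (t : GQ) :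
    letI : Fact p.Prime := ⟨hp⟩
    ((Top hp σ₀ g₀) ^ k) θ t = ((g₀ : ZMod p))⁻¹ ^ k * θ (σ₀ ^ k * t * (σ₀ ^ k)⁻¹) := by
  have hFp : Fact p.Prime := ⟨hp⟩
  induction k generalizing θ t with
  | zero => simp
  | succ k ih =>
    rw [pow_succ, Module.End.mul_apply, ih]
    show _ * (((g₀ : ZMod p))⁻¹ * θ (σ₀ * (σ₀ ^ k * t * (σ₀ ^ k)⁻¹) * σ₀⁻¹)) = _
    have : σ₀ * (σ₀ ^ k * t * (σ₀ ^ k)⁻¹) * σ₀⁻¹ = σ₀ ^ (k + 1) * t * (σ₀ ^ (k + 1))⁻¹ := by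
      rw [pow_succ' σ₀ k]; group
    rw [this, pow_succ]; ring

/-- an equivariant character with these inertia values vanishes -/
theorem equivariant_zero (hp : p.Prime) (hp2 : p ≠ 2) {ζ z : Om} (hζ : IsPrimitiveRoot ζ p) {l : ℕ}
    (hl : l.Prime) (hlp : l ≠ p) (hw : ¬ (l : ℤ) ^ (p - 1) ≡ 1 [ZMOD (p ^ 2 : ℕ)])
    (hz : IsRt p z (l : ℤ))
    (σ₀ : GQ) (g₀ : ℕ) (hσ : ∀ ξ ∈ muInf p, σ₀ ξ = ξ ^ g₀)
    (hg : ∀ (m : ℕ) (a : (ZMod (p ^ m))ˣ), ∃ i : ℕ, (a : ZMod (p ^ m)) = (g₀ : ZMod (p ^ m)) ^ i)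
    (θ : GQ → ZMod p) (hθ : θ ∈ Vsub hp ζ z) (hT : Top hp σ₀ g₀ θ = θ) : θ = 0 := by
  have hFp : Fact p.Prime := ⟨hp⟩
  have hg0 := g0_ne_zero hp hζ σ₀ g₀ hσ
  obtain ⟨h1, h2, h3, c, h4, h5⟩ := hθ
  obtain ⟨b, x, hb, hx, hxt⟩ := kummer_descent hp hp2 ζ hζ σ₀ g₀ hσ hg θ h1 h2 (by
    intro t _
    have e : Top hp σ₀ g₀ θ t = θ t := by rw [hT]
    have e' : ((g₀ : ZMod p))⁻¹ * θ (σ₀ * t * σ₀⁻¹) = θ t := e
    rw [← e', mul_inv_cancel_left₀ hg0])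
  have hxb : IsRt p x b := ⟨hx, hb⟩
  have hchi : ∀ t ∈ Pmu p, chi (p := p) ζ x t = θ t := by
    intro t ht
    have := chi_unique hp hζ hxb t _ (hxt t ht)
    rw [this, ZMod.natCast_val, ZMod.cast_id', id]
  have hval : ∀ q : ℕ, q.Prime → q ≠ p → q ≠ l → p ∣ padicValInt q b := by
    intro q hq hqp hql
    by_contra hcon
    obtain ⟨B, hB, hqB, t, ht, hmove⟩ := exists_inertia_moves hp hq hqp b hcon x hx
    have hpB := not_mem_of_prime hq hp hqp B hB hqB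
    have htP : t ∈ Pmu p := by rw [← PP_odd hp2]; exact inertia_mem_PP hp B hB hpB t ht
    obtain ⟨r, hr, hrB, hr'⟩ := exists_prime_mem B hB
    have hrq : r = q := by
      by_contra hne
      exact not_mem_of_prime hr hq hne B hB hrB hqB
    subst hrq
    obtain ⟨z', hz'⟩ := exists_rt hp (r : ℤ) (by exact_mod_cast hr.ne_zero)
    apply hmove
    rw [← chi_eq_zero_iff hp hζ hxb, hchi t htP, h4 B hB hpB t ht,
      chi_val hp hζ B hB hpB t ht hr hr' hz hz', padicValInt_prime hr hl, if_neg hql]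
    simp
  obtain ⟨k, b', hbb', hb'⟩ := kummer_unram_at_p hp hp2 b hb x hx (by
    intro B hB hpB t ht htP
    rw [← chi_eq_zero_iff hp hζ hxb, hchi t htP, h5 B hB hpB t ht htP])
  have hb'0 : b' ≠ 0 := by rintro rfl; exact hb (by rw [hbb', mul_zero])
  have hpb' : ¬ (p : ℤ) ∣ b' := by
    intro h
    have e1 : (p : ℤ) ∣ b' ^ (p - 1) := dvd_pow h (Nat.sub_ne_zero_of_lt hp.one_lt)
    have e2 := Int.modEq_iff_dvd.1 hb'
    have e3 : (p : ℤ) ∣ 1 - b' ^ (p - 1) := dvd_trans ⟨p, by push_cast; ring⟩ e2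
    have e4 : (p : ℤ) ∣ 1 := by
      have := dvd_add e3 e1
      simpa using this
    have := Int.eq_one_of_dvd_one (by positivity) e4
    exact hp.ne_one (by exact_mod_cast this)
  have hpp : ((p : ℤ) ^ (p * k)) ≠ 0 := pow_ne_zero _ (by exact_mod_cast hp.ne_zero)
  have hvalb' : ∀ q : ℕ, q.Prime → q ≠ p → padicValInt q b = padicValInt q b' := by
    intro q hq hqp
    have : Fact q.Prime := ⟨hq⟩
    rw [hbb', padicValInt.mul hpp hb'0]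
    have : padicValInt q ((p : ℤ) ^ (p * k)) = 0 := by
      have e : ((p : ℤ) ^ (p * k)) = ((p ^ (p * k) : ℕ) : ℤ) := by push_cast; rfl
      have e' := padicValInt_prime hq hp
      rw [if_neg hqp, padicValInt.of_nat] at e'
      rw [e, padicValInt.of_nat, padicValNat.pow, e', mul_zero]
    rw [this, zero_add]
  -- valuation at l
  have hFl : Fact l.Prime := ⟨hl⟩
  set f := padicValInt l b' with hf
  obtain ⟨d, hd⟩ : (l : ℤ) ^ f ∣ b' := padicValInt_dvd b'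
  have hd0 : d ≠ 0 := by rintro rfl; exact hb'0 (by rw [hd, mul_zero])
  have hlf : ((l : ℤ) ^ f) ≠ 0 := pow_ne_zero _ (by exact_mod_cast hl.ne_zero)
  have hpd : ¬ (p : ℤ) ∣ d := fun h => hpb' (hd ▸ dvd_mul_of_dvd_right h _)
  have hvd : ∀ q : ℕ, q.Prime → p ∣ padicValInt q d := by
    intro q hq
    have : Fact q.Prime := ⟨hq⟩
    by_cases hqp : q = p
    · subst hqp
      rw [padicValInt.eq_zero_of_not_dvd hpd]; exact dvd_zero _
    · have e1 : padicValInt q b' = padicValInt q ((l : ℤ) ^ f) + padicValInt q d := by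
        rw [hd]; exact padicValInt.mul hlf hd0
      have e2 : padicValInt q ((l : ℤ) ^ f) = f * (if q = l then 1 else 0) := by
        have e : ((l : ℤ) ^ f) = ((l ^ f : ℕ) : ℤ) := by push_cast; rfl
        have e' := padicValInt_prime hq hl
        rw [padicValInt.of_nat] at e'
        rw [e, padicValInt.of_nat, padicValNat.pow, e']
      by_cases hql : q = l
      · subst hql
        rw [e2, if_pos rfl, mul_one, ← hf] at e1
        have : padicValInt q d = 0 := by omega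
        rw [this]; exact dvd_zero _
      · rw [e2, if_neg hql, mul_zero, zero_add] at e1
        rw [← e1, ← hvalb' q hq hqp]
        exact hval q hq hqp hql
  obtain ⟨m, hm⟩ := pow_of_val hp d hd0 hvd
  have hpf : p ∣ f := by
    -- d^(p-1) = 1 mod p^2
    have hpm : ¬ p ∣ m := by
      intro h
      apply hpd
      rw [← Int.natAbs_dvd_natAbs, hm]
      simpa using dvd_pow h hp.ne_zero
    have hd1 : d ^ (p - 1) ≡ 1 [ZMOD (p ^ 2 : ℕ)] := by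
      have e1 : d ^ (p - 1) = ((m : ℤ) ^ (p - 1)) ^ p := by
        have hev : Even (p - 1) := hp.even_sub_one hp2
        have : d ^ (p - 1) = (d.natAbs : ℤ) ^ (p - 1) := by
          rw [Int.natCast_natAbs, Even.pow_abs hev]
        rw [this, hm]; push_cast; ring
      have hcop : IsCoprime (m : ℤ) (p : ℤ) := by
        rw [Nat.isCoprime_iff_coprime]
        exact ((Nat.Prime.coprime_iff_not_dvd hp).2 hpm).symm
      obtain ⟨c', hc'⟩ := (Int.modEq_iff_dvd.1 (Int.ModEq.pow_card_sub_one_eq_one hp hcop).symm)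
      have e2 : (m : ℤ) ^ (p - 1) = 1 + p * c' := by linarith
      rw [e1, e2]
      have e3 := one_add_mul_pow p c' p
      have hc : ((p ^ 2 : ℕ) : ℤ) = (p : ℤ) ^ 2 := by push_cast; rfl
      rw [hc]
      refine e3.trans (Int.modEq_iff_dvd.2 ⟨-c', by ring⟩)
    obtain ⟨cl, hcl⟩ := fermat_c hp hl hlp
    have e4 : b' ^ (p - 1) = (1 + p * cl) ^ f * d ^ (p - 1) := by
      rw [← hcl, hd]; ring
    have hc : ((p ^ 2 : ℕ) : ℤ) = (p : ℤ) ^ 2 := by push_cast; rfl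
    have e5 : (1 + (p : ℤ) * (cl * f)) ≡ 1 [ZMOD (p ^ 2 : ℕ)] := by
      have e6 : (1 + (p : ℤ) * cl) ^ f * d ^ (p - 1) ≡ (1 + (p : ℤ) * (cl * f)) * 1
          [ZMOD (p ^ 2 : ℕ)] := by
        refine Int.ModEq.mul ?_ hd1
        rw [hc]; exact one_add_mul_pow p cl f
      rw [mul_one] at e6
      exact e6.symm.trans (e4 ▸ hb')
    have e7 := Int.modEq_iff_dvd.1 e5.symm
    rw [hc, pow_two] at e7
    have hp0 : (p : ℤ) ≠ 0 := by exact_mod_cast hp.ne_zero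
    have e8 : (p : ℤ) ∣ cl * f := by
      have : 1 + (p : ℤ) * (cl * f) - 1 = p * (cl * f) := by ring
      rw [this] at e7
      exact (mul_dvd_mul_iff_left hp0).1 e7
    rcases (Nat.prime_iff_prime_int.1 hp).dvd_or_dvd e8 with h | h
    · exfalso
      apply hw
      rw [hcl, hc]
      obtain ⟨j, rfl⟩ := h
      exact Int.modEq_iff_dvd.2 ⟨-j, by ring⟩
    · exact_mod_cast h
  -- all valuations of b are divisible by p
  have hall : ∀ q : ℕ, q.Prime → p ∣ padicValInt q b := by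
    intro q hq
    by_cases hqp : q = p
    · subst hqp
      have : Fact q.Prime := ⟨hq⟩
      rw [hbb', padicValInt.mul hpp hb'0, padicValInt.eq_zero_of_not_dvd hpb', add_zero]
      have e : ((q : ℤ) ^ (q * k)) = ((q ^ (q * k) : ℕ) : ℤ) := by push_cast; rfl
      rw [e, padicValInt.of_nat, padicValNat.prime_pow]
      exact dvd_mul_right _ _
    · by_cases hql : q = l
      · rw [hvalb' q hq hqp, hql]; exact hpf
      · exact hval q hq hqp hql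
  obtain ⟨m', hm'⟩ := pow_of_val hp b hb hall
  -- b = (± m')^p
  obtain ⟨e, he⟩ : ∃ e : ℤ, b = e ^ p := by
    rcases Int.natAbs_eq b with h | h
    · exact ⟨m', by rw [h, hm']; push_cast; rfl⟩
    · refine ⟨-m', ?_⟩
      rw [h, hm', Odd.neg_pow (hp.odd_of_ne_two hp2)]; push_cast; rfl
  have he0 : (e : Om) ≠ 0 := by
    intro h
    apply hb
    have : e = 0 := by exact_mod_cast h
    rw [he, this, zero_pow hp.ne_zero]
  funext t
  by_cases ht : t ∈ Pmu p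
  · rw [← hchi t ht, Pi.zero_apply, chi_eq_zero_iff hp hζ hxb]
    have h6 : t (x / (e : Om)) = x / (e : Om) := by
      refine PP_fix_root (p := p) t (by rw [PP_odd hp2]; exact ht) _ ?_
      rw [div_pow, hx, he]
      push_cast
      exact div_self (pow_ne_zero _ he0)
    rw [map_div₀, map_intCast] at h6
    exact (div_left_inj' he0).1 h6
  · exact h3 t ht

theorem exists_prim (m : ℕ) (hm : 0 < m) : ∃ ζ : Om, IsPrimitiveRoot ζ m := by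
  obtain ⟨z, hz⟩ := IsAlgClosed.exists_root (Polynomial.cyclotomic m Om)
    (Polynomial.degree_cyclotomic_pos m Om hm).ne'
  have : NeZero (m : Om) := ⟨by exact_mod_cast hm.ne'⟩
  exact ⟨z, Polynomial.isRoot_cyclotomic_iff.1 hz⟩

/-- the final contradiction for odd `p` -/
theorem no_psi_odd (hp : p.Prime) (hp2 : p ≠ 2) {ζ : Om} (hζ : IsPrimitiveRoot ζ p) {l : ℕ}
    (hl : l.Prime) (hlp : l ≠ p) (hw : ¬ (l : ℤ) ^ (p - 1) ≡ 1 [ZMOD (p ^ 2 : ℕ)])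
    {z : Om} {c : ZMod p} {ψ : GQ → ZMod p} (hz : IsRt p z (l : ℤ)) (hc : c ≠ 0)
    (hψ1 : HomOn (PP p) ψ) (hψ2 : LCOn (PP p) ψ)
    (hψ3 : ∀ B : Ideal (integralClosure ℤ Om), B.IsMaximal → (p : integralClosure ℤ Om) ∉ B →
        ∀ t ∈ B.inertia GQ, ψ t = c * chi (p := p) ζ z t)
    (hψ4 : ∀ B : Ideal (integralClosure ℤ Om), B.IsMaximal → (p : integralClosure ℤ Om) ∈ B →
        ∀ t ∈ B.inertia GQ, t ∈ PP p → ψ t = 0) : False := by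
  have hFp : Fact p.Prime := ⟨hp⟩
  have : NeZero (p : Om) := ⟨by exact_mod_cast hp.ne_zero⟩
  rw [PP_odd hp2] at hψ1 hψ2
  obtain ⟨g₀, σ₀, hσ, hg⟩ := exists_sigma0 hp hp2
  have hg0 := g0_ne_zero hp hζ σ₀ g₀ hσ
  obtain ⟨B₁, hB₁, hlB₁, t₁, ht₁, hmove⟩ := exists_inertia_moves hp hl hlp (l : ℤ)
    (by rw [padicValInt_prime hl hl, if_pos rfl]; exact hp.not_dvd_one) z hz.1
  have hpB₁ := not_mem_of_prime hl hp hlp B₁ hB₁ hlB₁
  have ht₁P : t₁ ∈ Pmu p := by rw [← PP_odd hp2]; exact inertia_mem_PP hp B₁ hB₁ hpB₁ t₁ ht₁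
  have hχ₁ : chi (p := p) ζ z t₁ ≠ 0 := fun h => hmove ((chi_eq_zero_iff hp hζ hz t₁).1 h)
  classical
  let ψ' : GQ → ZMod p := fun t => if t ∈ Pmu p then ψ t else 0
  have hψ'P : ∀ t ∈ Pmu p, ψ' t = ψ t := fun t ht => if_pos ht
  have hψ'V : ψ' ∈ Vsub hp ζ z := by
    obtain ⟨U, hU, hU'⟩ := hψ2
    refine ⟨fun g hg' h hh => ?_, ⟨U, hU, fun g hg' u hu huP => ?_⟩, fun t ht => if_neg ht, c,
      fun B hB hpB t ht => ?_, fun B hB hpB t ht htP => ?_⟩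
    · rw [hψ'P _ ((Pmu p).mul_mem hg' hh), hψ'P _ hg', hψ'P _ hh, hψ1 g hg' h hh]
    · rw [hψ'P _ ((Pmu p).mul_mem hg' huP), hψ'P _ hg', hU' g hg' u hu huP]
    · have htP : t ∈ Pmu p := by rw [← PP_odd hp2]; exact inertia_mem_PP hp B hB hpB t ht
      rw [hψ'P t htP, hψ3 B hB hpB t ht]
    · rw [hψ'P t htP]
      exact hψ4 B hB hpB t ht (by rw [PP_odd hp2]; exact htP)
  let V := Vsub hp ζ z
  let T : V →ₗ[ZMod p] V := (Top hp σ₀ g₀).restrict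
    (fun θ hθ => Top_mem hp hp2 hζ hz σ₀ g₀ hσ θ hθ)
  have hTc : ∀ v : V, ((T v : V) : GQ → ZMod p) = Top hp σ₀ g₀ v := fun v => rfl
  let ρ : V →ₗ[ZMod p] ZMod p :=
    { toFun := fun v => (v : GQ → ZMod p) t₁ * (chi (p := p) ζ z t₁)⁻¹
      map_add' := fun v w => by
        show ((v : GQ → ZMod p) t₁ + (w : GQ → ZMod p) t₁) * _ = _
        ring
      map_smul' := fun a v => by
        show (a * (v : GQ → ZMod p) t₁) * _ = a * _
        ring }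
  have hρc : ∀ v : V, ρ v = (v : GQ → ZMod p) t₁ * (chi (p := p) ζ z t₁)⁻¹ := fun v => rfl
  have hρ : ∀ v, ρ (T v) = ρ v := by
    intro v
    obtain ⟨h1, h2, h3, c', h4, h5⟩ := v.2
    obtain ⟨B', hB', hmem, hin⟩ := conj_inertia B₁ hB₁ σ₀
    rw [hρc, hρc, hTc]
    show ((g₀ : ZMod p)⁻¹ * (v : GQ → ZMod p) (σ₀ * t₁ * σ₀⁻¹)) * _ = _
    rw [h4 B' hB' (fun h => hpB₁ ((hmem p).1 h)) _ (hin t₁ ht₁), h4 B₁ hB₁ hpB₁ t₁ ht₁,
      chi_conj hp hζ hz σ₀ t₁ (PP_fix_root (p := p) t₁ (by rw [PP_odd hp2]; exact ht₁P) ζ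
        hζ.pow_eq_one) g₀ (hσ ζ ⟨1, by rw [pow_one]; exact hζ.pow_eq_one⟩)]
    field_simp
  have hTpow : ∀ (k : ℕ) (v : V), (((T ^ k) v : V) : GQ → ZMod p) = ((Top hp σ₀ g₀) ^ k) v := by
    intro k
    induction k with
    | zero => intro v; simp
    | succ k ih =>
      intro v
      rw [pow_succ, Module.End.mul_apply, ih, pow_succ, Module.End.mul_apply, hTc]
  have hper : ∀ v, ∃ a : ℕ, (T ^ ((p - 1) * p ^ a)) v = v := by
    intro v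
    obtain ⟨h1, h2, h3, c', h4, h5⟩ := v.2
    obtain ⟨a, ha⟩ := periodic hp hp2 σ₀ g₀ hσ (v : GQ → ZMod p) h1 h2
    refine ⟨a, Subtype.ext ?_⟩
    rw [hTpow]
    funext t
    rw [Top_pow]
    have e1 : ((g₀ : ZMod p))⁻¹ ^ ((p - 1) * p ^ a) = 1 := by
      rw [pow_mul, inv_pow, ZMod.pow_card_sub_one_eq_one hg0, inv_one, one_pow]
    rw [e1, one_mul]
    by_cases ht : t ∈ Pmu p
    · exact ha t ht
    · rw [h3 t ht, h3]
      intro h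
      apply ht
      have := (Pmu_normal hp2).conj_mem _ h (σ₀ ^ ((p - 1) * p ^ a))⁻¹
      have e : (σ₀ ^ ((p - 1) * p ^ a))⁻¹ * (σ₀ ^ ((p - 1) * p ^ a) * t *
          (σ₀ ^ ((p - 1) * p ^ a))⁻¹) * (σ₀ ^ ((p - 1) * p ^ a))⁻¹⁻¹ = t := by group
      rwa [e] at this
  have hz0 : ∀ v : V, T v = v → v = 0 := by
    intro v hv
    apply Subtype.ext
    exact equivariant_zero hp hp2 hζ hl hlp hw hz σ₀ g₀ hσ hg v v.2
      (by rw [← hTc, hv])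
  obtain ⟨w, hw1, hw2⟩ := linalg T ρ hρ hper (fun v _ hv => hz0 v hv) ⟨ψ', hψ'V⟩ (by
    rw [hρc]
    show ψ' t₁ * _ ≠ 0
    rw [hψ'P t₁ ht₁P, hψ3 B₁ hB₁ hpB₁ t₁ ht₁]
    exact mul_ne_zero (mul_ne_zero hc hχ₁) (inv_ne_zero hχ₁))
  apply hw2
  rw [hz0 w hw1, map_zero]

theorem main_odd (hp : p.Prime) (hp2 : p ≠ 2) (n : ℤ)
    {l₁ l₂ l₃ : ℕ} (P₁ : l₁.Prime) (P₂ : l₂.Prime) (P₃ : l₃.Prime)
    (n₁ : l₁ ≠ p) (n₂ : l₂ ≠ p) (n₃ : l₃ ≠ p) (n₁₂ : l₁ ≠ l₂) (n₁₃ : l₁ ≠ l₃) (n₂₃ : l₂ ≠ l₃)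
    (v₁ : ¬ p ∣ padicValInt l₁ n) (v₂ : ¬ p ∣ padicValInt l₂ n) (v₃ : ¬ p ∣ padicValInt l₃ n)
    (w₁ : ¬ (l₁ : ℤ) ^ (p - 1) ≡ 1 [ZMOD (p ^ 2 : ℕ)])
    (w₂ : ¬ (l₂ : ℤ) ^ (p - 1) ≡ 1 [ZMOD (p ^ 2 : ℕ)])
    (w₃ : ¬ (l₃ : ℤ) ^ (p - 1) ≡ 1 [ZMOD (p ^ 2 : ℕ)]) :
    ¬ FreeGal p (cycZp p (kummer p n)) := by
  intro hfree
  have hFp : Fact p.Prime := ⟨hp⟩
  have : NeZero (p : Om) := ⟨by exact_mod_cast hp.ne_zero⟩
  obtain ⟨ζ, hζ⟩ := exists_prim p hp.pos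
  obtain ⟨z, c, ψ, hz, hc, hψ1, hψ2, hψ3, hψ4, -⟩ := three_psi hp hζ n P₁ P₂ P₃ n₁ n₂ n₃
    n₁₂ n₁₃ n₂₃ v₁ v₂ v₃ w₁ w₂ w₃ hfree
  exact no_psi_odd hp hp2 hζ P₁ n₁ w₁ hz hc hψ1 hψ2 hψ3 hψ4

end odd

end OzakiFree
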