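import Pool.Agent.Lib.MP_6e8030_nt.GBase

open IntermediateField
open scoped ComplexConjugate

noncomputable section

namespace OzakiFree

/-! ### GA: a local uniformizer (pure commutative algebra) -/

theorem exists_uniformizer {R : Type*} [CommRing R] [IsDedekindDomain R] (q : Ideal R)
    (hq : q.IsMaximal) (hq0 : q ≠ ⊥) :
    ∃ π ∈ q, π ≠ 0 ∧ ∀ b : R, b ≠ 0 → ∃ r w : R, r ∉ q ∧ w ∉ q ∧
      r * b = π ^ (multiplicity q (Ideal.span {b})) * w := by
  have hqp : Prime q := Ideal.prime_of_isPrime hq0 hq.isPrime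
  -- an element of `q` outside `q ^ 2`
  have hlt : q ^ 2 < q := by
    have h := Ideal.pow_right_strictAnti q hq0 hq.ne_top (show 1 < 2 by norm_num)
    simpa using h
  obtain ⟨π, hπq, hπ2⟩ := Set.exists_of_ssubset (show (q ^ 2 : Ideal R) < q from hlt : ((q ^ 2 : Ideal R) : Set R) ⊂ q)
  have hπ0 : π ≠ 0 := by
    rintro rfl
    exact hπ2 (Ideal.zero_mem _)
  refine ⟨π, hπq, hπ0, fun b hb => ?_⟩
  have hsb : (Ideal.span {b} : Ideal R) ≠ 0 := by
    simpa [Ideal.zero_eq_bot, Ideal.span_singleton_eq_bot] using hb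
  have hfin : FiniteMultiplicity q (Ideal.span {b}) := FiniteMultiplicity.of_prime_left hqp hsb
  obtain ⟨a, ha, -⟩ := hfin.exists_eq_pow_mul_and_not_dvd
  obtain ⟨n, hn⟩ : ∃ n, n = multiplicity q (Ideal.span {b}) := ⟨_, rfl⟩
  rw [← hn] at ha ⊢
  obtain ⟨c, hc⟩ : q ∣ Ideal.span {π} := by
    rw [Ideal.dvd_span_singleton]
    exact hπq
  have hqc : ¬ q ∣ c := by
    rintro ⟨d, hd⟩
    apply hπ2
    have : q ^ 2 ∣ Ideal.span {π} := ⟨d, by rw [hc, hd, sq, mul_assoc]⟩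
    rw [Ideal.dvd_span_singleton] at this
    exact this
  have hqcn : ¬ q ∣ c ^ n := fun h => hqc (hqp.dvd_of_dvd_pow h)
  rw [Ideal.dvd_iff_le] at hqcn
  obtain ⟨r, hr, hrq⟩ := Set.not_subset.1 hqcn
  have hmem : r * b ∈ Ideal.span {π ^ n} := by
    have h1 : r * b ∈ c ^ n * (q ^ n * a) := by
      apply Ideal.mul_mem_mul hr
      exact ha.le (Ideal.mem_span_singleton_self b)
    rw [← Ideal.span_singleton_pow, hc, mul_pow]
    have h2 : c ^ n * (q ^ n * a) = (q ^ n * c ^ n) * a := by ring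
    rw [h2] at h1
    have h3 : (q ^ n * c ^ n) * a ≤ q ^ n * c ^ n := Ideal.mul_le_left
    exact h3 h1
  obtain ⟨w, hw⟩ := Ideal.mem_span_singleton.1 hmem
  refine ⟨r, w, hrq, fun hwq => ?_, hw⟩
  have h3 : q ^ (n + 1) ∣ Ideal.span {r * b} := by
    rw [Ideal.dvd_span_singleton, hw, pow_succ]
    exact Ideal.mul_mem_mul (Ideal.pow_mem_pow hπq n) hwq
  rw [← Ideal.span_singleton_mul_span_singleton] at h3
  have h4 : ¬ q ∣ Ideal.span {r} := by
    rw [Ideal.dvd_span_singleton]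
    exact hrq
  have h5 := hqp.pow_dvd_of_dvd_mul_left (n + 1) h4 h3
  exact hfin.not_pow_dvd_of_multiplicity_lt (hn ▸ Nat.lt_succ_self n) h5

end OzakiFree
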