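import Pool.Agent.Lib.MP_6e8030_nt.GBase

open IntermediateField
open scoped ComplexConjugate

noncomputable section

namespace OzakiFree

/-! ### GB: almost all primes are good -/

private theorem GB_one_mem {l : ℕ} (hl : l.Prime) (B : Ideal ZO) (hB : B.IsMaximal)
    (hlB : (l : ZO) ∈ B) (n : ℤ) (h : (n : ZO) ∈ B) : (l : ℤ) ∣ n := by
  by_contra hn
  have hcop : IsCoprime (l : ℤ) n :=
    (Prime.coprime_iff_not_dvd (Nat.prime_iff_prime_int.1 hl)).2 hn
  obtain ⟨a, b, hab⟩ := hcop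
  apply hB.ne_top
  rw [Ideal.eq_top_iff_one]
  have h1 : (1 : ZO) = (a : ZO) * (l : ZO) + (b : ZO) * (n : ZO) := by
    exact_mod_cast (congrArg (Int.cast : ℤ → ZO) hab).symm
  rw [h1]
  exact B.add_mem (B.mul_mem_left _ hlB) (B.mul_mem_left _ h)

/-- a nonzero algebraic integer divides a nonzero integer -/
private theorem GB_dvd (b : ZO) (hb : b ≠ 0) : ∃ n : ℤ, n ≠ 0 ∧ b ∣ (n : ZO) := by
  have h1 : IsAlgebraic ℤ b := by
    have h2 : IsIntegral ℤ b := by
      have h3 : IsIntegral ℤ (b : Om) := b.2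
      exact (isIntegral_algebraMap_iff (R := ℤ) (A := ZO) (B := Om)
        (fun x y h => Subtype.ext h)).1 h3
    exact h2.isAlgebraic
  obtain ⟨r, hr, hd⟩ := h1.exists_nonzero_dvd (mem_nonZeroDivisors_of_ne_zero hb)
  exact ⟨r, hr, by simpa using hd⟩

/-- one algebraic integer -/
private theorem GB_elt (β : Om) (hβ : IsIntegral ℤ β) : ∃ D : ℕ, D ≠ 0 ∧ ∀ l : ℕ, l.Prime →
    ¬ l ∣ D → ∀ B : Ideal ZO, B.IsMaximal → (l : ZO) ∈ B → ∀ g g' : GQ,
      (∃ b ∈ B, (b : Om) = g β - g' β) → g β = g' β := by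
  classical
  set p : Polynomial ℤ := minpoly ℤ β with hp
  have hp0 : p ≠ 0 := minpoly.ne_zero hβ
  set R : Finset Om := (p.aroots Om).toFinset with hR
  have hmem : ∀ g : GQ, g β ∈ R := by
    intro g
    rw [hR, Multiset.mem_toFinset, Polynomial.mem_aroots]
    refine ⟨hp0, ?_⟩
    have h1 : Polynomial.aeval β p = 0 := minpoly.aeval ℤ β
    have h2 : Polynomial.aeval (g β) p = g (Polynomial.aeval β p) :=
      Polynomial.aeval_algHom_apply (g.toAlgHom.restrictScalars ℤ) β p
    rw [h2, h1, map_zero]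
  have hint : ∀ x ∈ R, IsIntegral ℤ x := by
    intro x hx
    rw [hR, Multiset.mem_toFinset, Polynomial.mem_aroots] at hx
    exact ⟨p, minpoly.monic hβ, hx.2⟩
  -- the integer attached to a pair
  have hpair : ∀ x y : Om, ∃ n : ℕ, n ≠ 0 ∧ (x ∈ R → y ∈ R → x ≠ y → ∀ b : ZO,
      (b : Om) = x - y → b ∣ (n : ZO)) := by
    intro x y
    by_cases h : x ∈ R ∧ y ∈ R ∧ x ≠ y
    · obtain ⟨h1, h2, h3⟩ := h
      set b : ZO := ⟨x - y, (hint x h1).sub (hint y h2)⟩ with hb
      have hb0 : b ≠ 0 := by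
        intro h4
        have h5 : (b : Om) = 0 := by rw [h4]; rfl
        exact h3 (sub_eq_zero.1 h5)
      obtain ⟨n, hn, hd⟩ := GB_dvd b hb0
      refine ⟨n.natAbs, Int.natAbs_ne_zero.2 hn, fun _ _ _ b' hb' => ?_⟩
      have h6 : b' = b := Subtype.ext hb'
      rw [h6]
      rcases Int.natAbs_eq n with h7 | h7
      · have h8 : ((n.natAbs : ℕ) : ZO) = (n : ZO) := by
          have := congrArg (Int.cast : ℤ → ZO) h7
          rw [this]
          simp
        rw [h8]
        exact hd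
      · have h8 : ((n.natAbs : ℕ) : ZO) = -(n : ZO) := by
          have := congrArg (Int.cast : ℤ → ZO) h7
          rw [this]
          simp
        rw [h8]
        exact (dvd_neg).2 hd
    · refine ⟨1, one_ne_zero, fun h1 h2 h3 => absurd ⟨h1, h2, h3⟩ h⟩
  choose n hn0 hn using hpair
  refine ⟨∏ x ∈ R, ∏ y ∈ R, n x y, ?_, ?_⟩
  · exact Finset.prod_ne_zero_iff.2 fun x _ => Finset.prod_ne_zero_iff.2 fun y _ => hn0 x y
  · intro l hl hlD B hB hlB g g' ⟨b, hbB, hb⟩
    by_contra hne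
    have h1 := hn (g β) (g' β) (hmem g) (hmem g') hne b hb
    have h2 : ((n (g β) (g' β) : ℕ) : ZO) ∈ B := by
      obtain ⟨c, hc⟩ := h1
      rw [hc]
      exact B.mul_mem_right _ hbB
    have h3 : (l : ℤ) ∣ ((n (g β) (g' β) : ℕ) : ℤ) :=
      GB_one_mem hl B hB hlB _ (by exact_mod_cast h2)
    have h4 : l ∣ n (g β) (g' β) := Int.natCast_dvd_natCast.1 h3
    exact hlD (h4.trans ((Finset.dvd_prod_of_mem _ (hmem g')).trans
      (Finset.dvd_prod_of_mem (fun x => ∏ y ∈ R, n x y) (hmem g))))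

theorem exists_good (F : IntermediateField ℚ Om) [FiniteDimensional ℚ F] :
    ∃ D : ℕ, D ≠ 0 ∧ ∀ l : ℕ, l.Prime → ¬ l ∣ D → Good F l := by
  classical
  let w : Module.Free.ChooseBasisIndex ℤ (NumberField.RingOfIntegers (FL F)) → ZF F :=
    fun i => NumberField.RingOfIntegers.basis (FL F) i
  have hw : ∀ i, FLhom F (NumberField.integralBasis (FL F) i) = (w i).val := by
    intro i
    rw [NumberField.integralBasis_apply]
    rfl
  have hD := fun i => GB_elt ((w i).val) (ZF_val_isIntegral (w i))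
  choose D hD0 hD1 using hD
  refine ⟨∏ i, D i, Finset.prod_ne_zero_iff.2 fun i _ => hD0 i, ?_⟩
  intro l hl hlD B hB hlB g g' h x hx
  have hi : ∀ i, g (w i).val = g' (w i).val := fun i =>
    hD1 i l hl (fun h1 => hlD (h1.trans (Finset.dvd_prod_of_mem D (Finset.mem_univ i)))) B hB hlB g g'
      (h (w i))
  let y : FL F := (⟨x, hx⟩ : F)
  have h1 : x = FLhom F y := rfl
  have h2 : y = ∑ i, (NumberField.integralBasis (FL F)).repr y i • NumberField.integralBasis (FL F) i :=
    ((NumberField.integralBasis (FL F)).sum_repr y).symm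
  have h3 : x = ∑ i, ((NumberField.integralBasis (FL F)).repr y i) • (w i).val := by
    rw [h1]
    conv_lhs => rw [h2]
    rw [map_sum]
    refine Finset.sum_congr rfl fun i _ => ?_
    rw [Rat.smul_def, map_mul, map_ratCast, Rat.smul_def, hw]
  rw [h3, map_sum, map_sum]
  refine Finset.sum_congr rfl fun i _ => ?_
  rw [Rat.smul_def, map_mul, map_mul, map_ratCast, map_ratCast, hi i]

/-- only finitely many maximal ideals contain a given number -/
theorem finite_above (F : IntermediateField ℚ Om) [FiniteDimensional ℚ F] (D : ℕ) (hD : D ≠ 0) :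
    {q : Ideal (ZF F) | q.IsMaximal ∧ (D : ZF F) ∈ q}.Finite := by
  change {q : Ideal (NumberField.RingOfIntegers (FL F)) | q.IsMaximal ∧
    (D : NumberField.RingOfIntegers (FL F)) ∈ q}.Finite
  have hD' : (D : NumberField.RingOfIntegers (FL F)) ≠ 0 := by exact_mod_cast hD
  have hI : Ideal.span {(D : NumberField.RingOfIntegers (FL F))} ≠ 0 := by
    rw [Ne, Ideal.zero_eq_bot, Ideal.span_singleton_eq_bot]
    exact hD'
  refine (((Ideal.finite_factors hI).image fun v => v.asIdeal)).subset ?_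
  rintro q ⟨hq, hDq⟩
  have hq0 : q ≠ ⊥ := by
    intro h
    rw [h, Ideal.mem_bot] at hDq
    exact hD' hDq
  refine ⟨⟨q, hq.isPrime, hq0⟩, ?_, rfl⟩
  show q ∣ Ideal.span {(D : NumberField.RingOfIntegers (FL F))}
  rw [Ideal.dvd_iff_le, Ideal.span_singleton_le_iff_mem]
  exact hDq

end OzakiFree
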