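import Pool.Agent.Lib.MP_6e8030_nt.GBase
import Pool.Agent.Lib.MP_6e8030_nt.R4
import Pool.Agent.Lib.MP_6e8030_nt.GA

open IntermediateField
open scoped ComplexConjugate

noncomputable section

namespace OzakiFree

private instance GC_ded (F : IntermediateField ℚ Om) [FiniteDimensional ℚ F] :
    IsDedekindDomain (ZF F) :=
  inferInstanceAs (IsDedekindDomain (NumberField.RingOfIntegers (FL F)))

private theorem GC_char (F : IntermediateField ℚ Om) {l : ℕ} (hl : l ≠ 0) : (l : ZF F) ≠ 0 := by
  intro h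
  have h1 : (iota F) (l : ZF F) = 0 := by rw [h, map_zero]
  rw [map_natCast] at h1
  have h2 : ((l : ZO) : Om) = 0 := by rw [h1]; rfl
  have h3 : ((l : ℕ) : Om) = 0 := h2
  exact hl (by exact_mod_cast h3)

/-- a maximal ideal of the ring of all algebraic integers above `q` -/
private theorem GC_over (F : IntermediateField ℚ Om) (q : Ideal (ZF F)) (hq : q.IsMaximal) :
    ∃ B : Ideal ZO, B.IsMaximal ∧ B.comap (iota F) = q := by
  let _ : Algebra (ZF F) ZO := (iota F).toAlgebra
  have hint : Algebra.IsIntegral (ZF F) ZO := by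
    constructor
    intro x
    have h1 : IsIntegral ℤ x := by
      have h2 : IsIntegral ℤ (x : Om) := x.2
      exact (isIntegral_algHom_iff (integralClosure ℤ Om).val Subtype.val_injective).1 h2
    obtain ⟨f, hf, hfx⟩ := h1
    refine ⟨f.map (Int.castRingHom (ZF F)), hf.map _, ?_⟩
    rw [Polynomial.eval₂_map]
    have : (algebraMap (ZF F) ZO).comp (Int.castRingHom (ZF F)) = algebraMap ℤ ZO :=
      RingHom.ext_int _ _
    rw [this]
    exact hfx
  have hker : RingHom.ker (algebraMap (ZF F) ZO) ≤ q := by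
    intro z hz
    have h1 : iota F z = 0 := hz
    have h2 : z.val = 0 := congrArg Subtype.val h1
    have h3 : z = 0 := ZF_val_inj z 0 h2
    rw [h3]
    exact q.zero_mem
  obtain ⟨B, hB, hB'⟩ := Ideal.exists_ideal_over_maximal_of_isIntegral (S := ZO) q hker
  exact ⟨B, hB, hB'⟩

/-- the inertia groups above a good prime fix the normal closure -/
private theorem GC_fix (F : IntermediateField ℚ Om) {l : ℕ} (hgood : Good F l) (B : Ideal ZO)
    (hB : B.IsMaximal) (hlB : (l : ZO) ∈ B) (t : GQ) (ht : t ∈ B.inertia GQ) :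
    ∀ x ∈ normalClosure ℚ F Om, t x = x := by
  have h1 : normalClosure ℚ F Om ≤ fixedField (Subgroup.zpowers t) := by
    have h0 := IntermediateField.normalClosure_def'' (F := ℚ) (L := Om) F
    refine le_trans (le_of_eq h0) ?_
    refine iSup_le fun g => ?_
    rw [IntermediateField.le_iff_le, Subgroup.zpowers_le]
    intro ⟨y, hy⟩
    obtain ⟨x, hx, rfl⟩ := hy
    have h2 := hgood B hB hlB (t * g) g (fun z => by
      let y : ZO := ⟨g z.val, (ZF_val_isIntegral z).map (g.toAlgHom.restrictScalars ℤ)⟩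
      exact ⟨t • y - y, ht y, rfl⟩) x hx
    exact h2
  intro x hx
  have h2 := h1 hx
  exact h2 ⟨t, Subgroup.mem_zpowers t⟩

/-! ### GC: a good prime `l` is a uniformizer at all primes above it -/

theorem good_unram (F : IntermediateField ℚ Om) [FiniteDimensional ℚ F] {l : ℕ} (hl : l.Prime)
    (hgood : Good F l) (q : Ideal (ZF F)) (hq : q.IsMaximal) (hlq : (l : ZF F) ∈ q) (b : ZF F)
    (hb : b ≠ 0) :
    ∃ r w : ZF F, r ∉ q ∧ w ∉ q ∧ r * b = (l : ZF F) ^ (multiplicity q (Ideal.span {b})) * w := by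
  have hl0 : (l : ZF F) ≠ 0 := GC_char F hl.ne_zero
  have hq0 : q ≠ ⊥ := by
    rintro rfl
    exact hl0 (by simpa using hlq)
  have hqp : q.IsPrime := hq.isPrime
  obtain ⟨π, hπ, hπ0, hu⟩ := exists_uniformizer q hq hq0
  obtain ⟨r0, w0, hr0, hw0, h0⟩ := hu (l : ZF F) hl0
  obtain ⟨B, hB, hBq⟩ := GC_over F q hq
  have hmem : ∀ z : ZF F, iota F z ∈ B ↔ z ∈ q := by
    intro z
    rw [← hBq]
    exact Iff.rfl
  have hlB : (l : ZO) ∈ B := by
    have := (hmem (l : ZF F)).2 hlq
    rwa [map_natCast] at this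
  have hBp : B.IsPrime := hB.isPrime
  -- the ramification index is one
  have he : multiplicity q (Ideal.span {(l : ZF F)}) = 1 := by
    generalize multiplicity q (Ideal.span {(l : ZF F)}) = e at h0
    obtain ⟨k, rfl⟩ : ∃ k, e = k + 1 := by
      rcases e with _ | k
      · exfalso
        rw [pow_zero, one_mul] at h0
        apply hw0
        rw [← h0]
        exact q.mul_mem_left _ hlq
      · exact ⟨k, rfl⟩
    have h2 : (π * w0) ^ (k + 1) = (l : ZF F) ^ 1 * (r0 * w0 ^ k) := by
      rw [mul_pow, pow_succ w0 k]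
      calc π ^ (k + 1) * (w0 ^ k * w0) = (π ^ (k + 1) * w0) * w0 ^ k := by ring
        _ = (r0 * (l : ZF F)) * w0 ^ k := by rw [h0]
        _ = _ := by ring
    have h3 : (iota F (π * w0)) ^ (k + 1) = (l : ZO) ^ 1 * iota F (r0 * w0 ^ k) := by
      rw [← map_pow, h2, map_mul, map_pow, map_natCast]
    have hfd : FiniteDimensional ℚ (normalClosure ℚ F Om) := normalClosure.is_finiteDimensional ℚ F Om
    have hgal : IsGalois ℚ (normalClosure ℚ F Om) :=
      { to_isSeparable := inferInstance, to_normal := normalClosure.normal ℚ F Om }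
    have h4 := unr (normalClosure ℚ F Om) l hl B hB hlB (fun t ht x hx => GC_fix F hgood B hB hlB t ht x hx)
      (iota F (π * w0)) (iota F (r0 * w0 ^ k)) (IntermediateField.le_normalClosure F (ZF_val_mem _))
      (k + 1) 1 (by
        rw [hmem]
        intro h5
        rcases hqp.mem_or_mem h5 with h6 | h6
        · exact hr0 h6
        · exact hw0 (hqp.mem_of_pow_mem _ h6)) h3
    exact Nat.dvd_one.1 h4
  rw [he, pow_one] at h0
  obtain ⟨r, w, hr, hw, h⟩ := hu b hb
  refine ⟨r * w0 ^ (multiplicity q (Ideal.span {b})), r0 ^ (multiplicity q (Ideal.span {b})) * w, ?_, ?_, ?_⟩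
  · intro h5
    rcases hqp.mem_or_mem h5 with h6 | h6
    · exact hr h6
    · exact hw0 (hqp.mem_of_pow_mem _ h6)
  · intro h5
    rcases hqp.mem_or_mem h5 with h6 | h6
    · exact hr0 (hqp.mem_of_pow_mem _ h6)
    · exact hw h6
  · generalize multiplicity q (Ideal.span {b}) = n at h ⊢
    calc r * w0 ^ n * b = (r * b) * w0 ^ n := by ring
      _ = π ^ n * w * w0 ^ n := by rw [h]
      _ = (π * w0) ^ n * w := by rw [mul_pow]; ring
      _ = (r0 * (l : ZF F)) ^ n * w := by rw [h0]
      _ = _ := by rw [mul_pow]; ring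

end OzakiFree
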