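import Pool.Agent.Lib.MP_6e8030_nt.GBase

open IntermediateField
open scoped ComplexConjugate

noncomputable section

namespace OzakiFree

/-! ### GD: inertia away from `p` -/

private theorem GD_key1 {p : ℕ} (B : Ideal ZO) (hpB : (p : ZO) ∉ B) (η : ZO) (h : η ^ p = 1)
    (hB : η - 1 ∈ B) : η = 1 := by
  by_contra hne
  have h1 : (∑ i ∈ Finset.range p, η ^ i) * (η - 1) = 0 := by
    rw [geom_sum_mul, h, sub_self]
  have h2 : ∑ i ∈ Finset.range p, η ^ i = 0 := by
    rcases mul_eq_zero.1 h1 with h2 | h2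
    · exact h2
    · exact absurd (sub_eq_zero.1 h2) hne
  apply hpB
  have h3 : Ideal.Quotient.mk B η = 1 := by
    have := Ideal.Quotient.eq_zero_iff_mem.2 hB
    rw [map_sub, map_one] at this
    exact sub_eq_zero.1 this
  have h4 := congrArg (Ideal.Quotient.mk B) h2
  rw [map_sum, map_zero] at h4
  simp only [map_pow, h3, one_pow, Finset.sum_const, Finset.card_range, nsmul_eq_mul,
    mul_one] at h4
  rw [← map_natCast (Ideal.Quotient.mk B)] at h4
  exact Ideal.Quotient.eq_zero_iff_mem.1 h4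

theorem inertia_fix_div {p : ℕ} (hp : p.Prime) (B : Ideal ZO) (hB : B.IsMaximal)
    (hpB : (p : ZO) ∉ B) (t : GQ) (ht : t ∈ B.inertia GQ) (z y : Om) (r b w : ZO)
    (htr : t r = r) (htw : t w = w) (hty : t y = y) (hr : r ∉ B) (hw : w ∉ B) (hy : y ≠ 0)
    (hz : z ^ p = b) (h : (r : Om) * b = y ^ p * w) : t z = z := by
  have hP : B.IsPrime := hB.isPrime
  have hr0 : (r : Om) ≠ 0 := by
    intro h0
    apply hr
    have : r = 0 := Subtype.ext h0
    rw [this]
    exact B.zero_mem
  have hw0 : (w : Om) ≠ 0 := by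
    intro h0
    apply hw
    have : w = 0 := Subtype.ext h0
    rw [this]
    exact B.zero_mem
  have hb : (b : Om) = y ^ p * w / r := by
    rw [eq_div_iff hr0, mul_comm, h]
  have hb0 : (b : Om) ≠ 0 := by
    rw [hb]
    exact div_ne_zero (mul_ne_zero (pow_ne_zero _ hy) hw0) hr0
  have htb : t (b : Om) = b := by
    rw [hb, map_div₀, map_mul, map_pow, hty, htw, htr]
  have hz0 : z ≠ 0 := by
    intro h0
    apply hb0
    rw [← hz, h0, zero_pow hp.ne_zero]
  have hup : (z * r / y) ^ p = (w : Om) * (r : Om) ^ (p - 1) := by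
    have h1 : (r : Om) ^ p = r * (r : Om) ^ (p - 1) := by
      rw [← pow_succ', Nat.sub_add_cancel hp.one_lt.le]
    rw [div_pow, mul_pow, hz, h1, div_eq_iff (pow_ne_zero _ hy)]
    calc (b : Om) * (r * (r : Om) ^ (p - 1)) = (r * b) * (r : Om) ^ (p - 1) := by ring
      _ = _ := by rw [h]; ring
  have hui : IsIntegral ℤ (z * r / y) := by
    apply IsIntegral.of_pow hp.pos
    rw [hup]
    exact w.2.mul (r.2.pow _)
  let U : ZO := ⟨z * r / y, hui⟩
  have hU : U ^ p = w * r ^ (p - 1) := by
    apply Subtype.ext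
    push_cast
    exact hup
  have hUB : U ∉ B := by
    intro h0
    have h1 : w * r ^ (p - 1) ∈ B := by
      rw [← hU]
      exact B.pow_mem_of_mem h0 p hp.pos
    rcases hP.mem_or_mem h1 with h2 | h2
    · exact hw h2
    · exact hr (hP.mem_of_pow_mem _ h2)
  have hη : (t z / z) ^ p = 1 := by
    rw [div_pow, ← map_pow, hz, htb, div_self hb0]
  have hηi : IsIntegral ℤ (t z / z) := by
    apply IsIntegral.of_pow hp.pos
    rw [hη]
    exact isIntegral_one
  let H : ZO := ⟨t z / z, hηi⟩
  have hH : H ^ p = 1 := by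
    apply Subtype.ext
    push_cast
    exact hη
  have h1 : t • U - U ∈ B := (AddSubgroup.mem_inertia.1 ht) U
  have h2 : t • U - U = (H - 1) * U := by
    apply Subtype.ext
    change t (z * r / y) - z * r / y = (t z / z - 1) * (z * r / y)
    rw [map_div₀, map_mul, hty, htr]
    field_simp
  rw [h2] at h1
  have h3 : H - 1 ∈ B := by
    rcases hP.mem_or_mem h1 with h | h
    · exact h
    · exact absurd h hUB
  have h4 := GD_key1 B hpB H hH h3
  have h5 : t z / z = 1 := congrArg Subtype.val h4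
  exact (div_eq_one_iff_eq hz0).1 h5

end OzakiFree
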