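import Pool.Agent.Lib.MP_6e8030_nt.GBase

open IntermediateField
open scoped ComplexConjugate

noncomputable section

namespace OzakiFree

/-! ### GE: inertia at `p` -/

private theorem GE_integral_root {n : ℕ} (hn : 0 < n) (ζ : Om) (h : ζ ^ n = 1) :
    IsIntegral ℤ ζ :=
  IsIntegral.of_pow hn (by rw [h]; exact isIntegral_one)

private theorem GE_integral_of_prod {ι : Type*} (s : Finset ι) (hs : s.Nonempty) (c : ι → Om)
    (hc : ∀ i ∈ s, IsIntegral ℤ (c i)) (y : Om) (h : IsIntegral ℤ (∏ i ∈ s, (y + c i))) :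
    IsIntegral ℤ y := by
  classical
  let R := integralClosure ℤ Om
  let F : Polynomial R := ∏ i ∈ s.attach, (Polynomial.X + Polynomial.C (⟨c i, hc i i.2⟩ : R))
  have hF : F.Monic := Polynomial.monic_prod_of_monic _ _ (fun i _ => Polynomial.monic_X_add_C _)
  have hFd : F.natDegree = s.card := by
    rw [Polynomial.natDegree_prod_of_monic _ _ (fun i _ => Polynomial.monic_X_add_C _)]
    simp
  have hpos : 0 < F.natDegree := by rw [hFd]; exact hs.card_pos
  have hG : (F - Polynomial.C (⟨_, h⟩ : R)).Monic := by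
    apply hF.sub_of_left
    apply lt_of_le_of_lt Polynomial.degree_C_le
    exact Polynomial.natDegree_pos_iff_degree_pos.1 hpos
  have h1 : IsIntegral R y := by
    refine ⟨_, hG, ?_⟩
    rw [← Polynomial.aeval_def, map_sub, Polynomial.aeval_C]
    have h2 : Polynomial.aeval y F = ∏ i ∈ s, (y + c i) := by
      rw [map_prod, ← Finset.prod_attach s]
      apply Finset.prod_congr rfl
      intro i _
      rw [map_add, Polynomial.aeval_X, Polynomial.aeval_C]
      rfl
    rw [h2]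
    exact sub_self _
  exact isIntegral_trans y h1

theorem inertia_fix_p {p : ℕ} (hp : p.Prime) (B : Ideal ZO) (hB : B.IsMaximal)
    (hpB : (p : ZO) ∈ B) (t : GQ) (ht : t ∈ B.inertia GQ) (htζ : ∀ ζ : Om, ζ ^ p = 1 → t ζ = ζ)
    (z : Om) (b c d : ZO) (htc : t c = c) (htb : t b = b) (hc : c ∉ B)
    (hb : b = c ^ p + (p : ZO) ^ 2 * d) (hz : z ^ p = b) : t z = z := by
  by_contra hne
  have hzi : IsIntegral ℤ z := by
    apply IsIntegral.of_pow hp.pos
    rw [hz]
    exact b.2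
  let Z : ZO := ⟨z, hzi⟩
  have hZ : Z ^ p = b := by
    apply Subtype.ext
    push_cast
    exact hz
  have hz0 : z ≠ 0 := by
    intro h0
    apply hne
    rw [h0, map_zero]
  -- `z ∉ B`
  have hZB : Z ∉ B := by
    intro h
    have h1 : b ∈ B := by
      rw [← hZ]
      exact B.pow_mem_of_mem h p hp.pos
    have h2 : c ^ p ∈ B := by
      have h3 : c ^ p = b - (p : ZO) ^ 2 * d := by
        rw [hb]
        ring
      rw [h3]
      exact B.sub_mem h1 (B.mul_mem_right _ (B.pow_mem_of_mem hpB 2 (by norm_num)))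
    exact hc (hB.isPrime.mem_of_pow_mem p h2)
  set ξ : Om := t z / z with hξ
  have hξp : ξ ^ p = 1 := by
    rw [hξ, div_pow, ← map_pow, hz, htb, div_self]
    rw [← hz]
    exact pow_ne_zero p hz0
  have hξ1 : ξ ≠ 1 := fun h => hne ((div_eq_one_iff_eq hz0).1 h)
  have hprim : IsPrimitiveRoot ξ p := by
    have := orderOf_eq_prime hξp hξ1 (hp := ⟨hp⟩)
    rw [← this]
    exact IsPrimitiveRoot.orderOf ξ
  have hl0 : (1 - ξ : Om) ≠ 0 := sub_ne_zero.2 (Ne.symm hξ1)
  have hξi : IsIntegral ℤ ξ := GE_integral_root hp.pos ξ hξp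
  -- `(1 - ζ)/(1 - ξ)` is integral
  have hu : ∀ ζ : Om, ζ ∈ Polynomial.nthRootsFinset p (1 : Om) → IsIntegral ℤ ((1 - ζ) / (1 - ξ)) := by
    intro ζ hζ
    rw [Polynomial.mem_nthRootsFinset hp.pos] at hζ
    have : NeZero p := ⟨hp.ne_zero⟩
    obtain ⟨i, -, rfl⟩ := hprim.eq_pow_of_pow_eq_one hζ
    have : (1 - ξ ^ i) / (1 - ξ) = ∑ j ∈ Finset.range i, ξ ^ j := by
      rw [div_eq_iff hl0, geom_sum_mul_neg]
    rw [this]
    exact IsIntegral.sum _ (fun j _ => hξi.pow j)
  -- `p / (1 - ξ) ^ (p - 1)` is integral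
  have hU : IsIntegral ℤ ((p : Om) / (1 - ξ) ^ (p - 1)) := by
    have : Fact p.Prime := ⟨hp⟩
    have h1 : (p : Om) = ∏ ζ ∈ primitiveRoots p Om, (1 - ζ) := by
      rw [← Polynomial.eval_one_cyclotomic_prime (R := Om) (p := p),
        Polynomial.cyclotomic_eq_prod_X_sub_primitiveRoots hprim, Polynomial.eval_prod]
      apply Finset.prod_congr rfl
      intro ζ _
      simp
    have h2 : ((p : Om) / (1 - ξ) ^ (p - 1)) =
        ∏ ζ ∈ primitiveRoots p Om, ((1 - ζ) / (1 - ξ)) := by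
      rw [Finset.prod_div_distrib, ← h1, Finset.prod_const, hprim.card_primitiveRoots,
        Nat.totient_prime hp]
    rw [h2]
    apply IsIntegral.prod
    intro ζ hζ
    apply hu ζ
    rw [Polynomial.mem_nthRootsFinset hp.pos]
    exact ((mem_primitiveRoots hp.pos).1 hζ).pow_eq_one
  -- `y = (z - c)/(1 - ξ)` is integral
  have hy : IsIntegral ℤ ((z - (c : Om)) / (1 - ξ)) := by
    apply GE_integral_of_prod (Polynomial.nthRootsFinset p (1 : Om))
      ⟨1, by rw [Polynomial.mem_nthRootsFinset hp.pos, one_pow]⟩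
      (fun ζ => (c : Om) * ((1 - ζ) / (1 - ξ)))
      (fun ζ hζ => (show IsIntegral ℤ (c : Om) from c.2).mul (hu ζ hζ))
    have h1 : ∏ ζ ∈ Polynomial.nthRootsFinset p (1 : Om),
        ((z - (c : Om)) / (1 - ξ) + (c : Om) * ((1 - ζ) / (1 - ξ))) = (z ^ p - (c : Om) ^ p) / (1 - ξ) ^ p := by
      have h0 : (1 - ξ) ^ p = ∏ _ζ ∈ Polynomial.nthRootsFinset p (1 : Om), (1 - ξ) := by
        rw [Finset.prod_const, hprim.card_nthRootsFinset]
      rw [hprim.pow_sub_pow_eq_prod_sub_mul _ _ hp.pos, h0, ← Finset.prod_div_distrib]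
      apply Finset.prod_congr rfl
      intro ζ _
      field_simp
      ring
    rw [h1, hz]
    have h2 : ((b : Om) - (c : Om) ^ p) = (p : Om) ^ 2 * (d : Om) := by
      have := congrArg (fun w : ZO => (w : Om)) hb
      push_cast at this
      rw [this]
      ring
    have h4 : ((b : Om) - (c : Om) ^ p) / (1 - ξ) ^ p =
        (d : Om) * ((p : Om) / (1 - ξ) ^ (p - 1)) ^ 2 * (1 - ξ) ^ (p - 2) := by
      rw [h2]
      have h5 : (1 - ξ) ^ p * (1 - ξ) ^ (p - 2) = ((1 - ξ) ^ (p - 1)) ^ 2 := by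
        rw [← pow_add, ← pow_mul]
        congr 1
        have := hp.two_le
        omega
      rw [div_pow, ← h5]
      have h6 : (1 - ξ) ^ p ≠ 0 := pow_ne_zero _ hl0
      have h7 : (1 - ξ) ^ (p - 2) ≠ 0 := pow_ne_zero _ hl0
      field_simp
    rw [h4]
    exact ((show IsIntegral ℤ (d : Om) from d.2).mul (hU.pow 2)).mul
      ((isIntegral_one.sub hξi).pow _)
  let Y : ZO := ⟨(z - (c : Om)) / (1 - ξ), hy⟩
  have h1 : t • Y - Y ∈ B := (AddSubgroup.mem_inertia.1 ht) Y
  have h2 : t • Y - Y = - Z := by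
    apply Subtype.ext
    change t ((z - (c : Om)) / (1 - ξ)) - (z - (c : Om)) / (1 - ξ) = - z
    rw [map_div₀, map_sub, map_sub, map_one, htc, htζ ξ hξp]
    have h3 : t z = ξ * z := by
      rw [hξ]
      field_simp
    rw [h3]
    field_simp
    ring
  rw [h2] at h1
  exact hZB (neg_mem_iff.1 h1)

end OzakiFree
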