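import Pool.Agent.Lib.MP_6e8030_nt.GBase

open IntermediateField
open scoped ComplexConjugate

noncomputable section

namespace OzakiFree

/-- a single natural exponent describes `σ` on `μ_{p^M}` -/
private theorem GF_exp {p : ℕ} (hp : p.Prime) (σ : GQ) (M : ℕ) :
    ∃ (ξ : Om) (a : ℕ), IsPrimitiveRoot ξ (p ^ M) ∧ 1 < a ∧ σ ξ = ξ ^ a ∧
      ∀ ζ : Om, ζ ^ (p ^ M) = 1 → σ ζ = ζ ^ a := by
  have : NeZero (p ^ M) := ⟨pow_ne_zero _ hp.ne_zero⟩
  have : NeZero ((p ^ M : ℕ) : Om) := ⟨by exact_mod_cast pow_ne_zero _ hp.ne_zero⟩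
  obtain ⟨ξ, hξ⟩ := HasEnoughRootsOfUnity.exists_primitiveRoot Om (p ^ M)
  have h1 : (σ ξ) ^ (p ^ M) = 1 := by rw [← map_pow, hξ.pow_eq_one, map_one]
  obtain ⟨i, -, hi⟩ := hξ.eq_pow_of_pow_eq_one h1
  have hpos : 0 < p ^ M := pow_pos hp.pos M
  refine ⟨ξ, i + 2 * p ^ M, hξ, by omega, ?_, ?_⟩
  · rw [pow_add, mul_comm 2, pow_mul, hξ.pow_eq_one, one_pow, mul_one, hi]
  · intro ζ hζ
    obtain ⟨j, -, hj⟩ := hξ.eq_pow_of_pow_eq_one hζ
    have : ζ ^ (i + 2 * p ^ M) = ζ ^ i := by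
      rw [pow_add, mul_comm 2, pow_mul, hζ, one_pow, mul_one]
    rw [this, ← hj, map_pow, ← hi, ← pow_mul, ← pow_mul, mul_comm]

private theorem GF_pow {p : ℕ} (σ : GQ) {M a : ℕ} (h : ∀ ζ : Om, ζ ^ (p ^ M) = 1 → σ ζ = ζ ^ a)
    (ζ : Om) (hζ : ζ ^ (p ^ M) = 1) (r : ℕ) : (σ ^ r) ζ = ζ ^ (a ^ r) := by
  induction r with
  | zero => simp
  | succ r ih =>
    rw [pow_succ', AlgEquiv.mul_apply, ih, map_pow, h ζ hζ, ← pow_mul, ← pow_succ']

private theorem GF_dvd {p : ℕ} (hp : p.Prime) (σ : GQ) {r : ℕ}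
    (hr : ∀ ζ ∈ muInf p, (σ ^ r) ζ = ζ) (M : ℕ) :
    ∃ (ξ : Om) (a : ℕ), IsPrimitiveRoot ξ (p ^ M) ∧ 1 < a ∧
      (∀ ζ : Om, ζ ^ (p ^ M) = 1 → σ ζ = ζ ^ a) ∧ p ^ M ∣ a ^ r - 1 := by
  obtain ⟨ξ, a, hξ, ha, -, h⟩ := GF_exp hp σ M
  refine ⟨ξ, a, hξ, ha, h, ?_⟩
  have h1 := GF_pow σ h ξ hξ.pow_eq_one r
  rw [hr ξ ⟨M, hξ.pow_eq_one⟩] at h1
  have h2 : 1 ≤ a ^ r := Nat.one_le_pow _ _ (by omega)
  have h3 : ξ ^ (a ^ r - 1) = 1 := by
    have hne : ξ ≠ 0 := hξ.ne_zero (pow_ne_zero _ hp.ne_zero)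
    have h4 : ξ ^ (a ^ r - 1) * ξ = 1 * ξ := by
      rw [← pow_succ, Nat.sub_add_cancel h2, ← h1, one_mul]
    exact mul_right_cancel₀ hne h4
  exact (hξ.pow_eq_one_iff_dvd _).1 h3

/-- odd `p` -/
private theorem GF_odd {p : ℕ} (hp : p.Prime) (hp2 : p ≠ 2) (σ : GQ) {r : ℕ} (hr0 : 0 < r)
    (hr : ∀ ζ ∈ muInf p, (σ ^ r) ζ = ζ) (h1 : ∀ ζ : Om, ζ ^ p = 1 → σ ζ = ζ) :
    ∀ ζ ∈ muInf p, σ ζ = ζ := by
  rintro ζ ⟨m, hm⟩
  have : Fact p.Prime := ⟨hp⟩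
  obtain ⟨ξ, a, hξ, ha, h, hd⟩ := GF_dvd hp σ hr (m + padicValNat p r + 1)
  set M := m + padicValNat p r + 1 with hM
  have hodd : Odd p := hp.odd_of_ne_two hp2
  -- a = 1 mod p
  have ha1 : p ∣ a - 1 := by
    have hω : IsPrimitiveRoot (ξ ^ (p ^ (M - 1))) p := by
      refine hξ.pow (pow_pos hp.pos M) ?_
      rw [← pow_succ]; congr 1
    have e1 := h1 _ hω.pow_eq_one
    have e2 : (ξ ^ (p ^ (M - 1))) ^ (p ^ M) = 1 := by
      rw [← pow_mul, mul_comm, pow_mul, hξ.pow_eq_one, one_pow]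
    rw [h _ e2] at e1
    have hne : ξ ^ (p ^ (M - 1)) ≠ 0 := hω.ne_zero hp.ne_zero
    have e3 : (ξ ^ (p ^ (M - 1))) ^ (a - 1) = 1 := by
      have e4 : (ξ ^ (p ^ (M - 1))) ^ (a - 1) * ξ ^ (p ^ (M - 1)) = 1 * ξ ^ (p ^ (M - 1)) := by
        rw [← pow_succ, Nat.sub_add_cancel (by omega), e1, one_mul]
      exact mul_right_cancel₀ hne e4
    exact (hω.pow_eq_one_iff_dvd _).1 e3
  have hpa : ¬ p ∣ a := fun hcon => by
    have : p ∣ 1 := by
      have := Nat.dvd_sub hcon ha1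
      rwa [show a - (a - 1) = 1 by omega] at this
    exact hp.one_lt.ne' (Nat.dvd_one.1 this)
  have hlte := padicValNat.pow_sub_pow hodd (show 1 < a from ha) ha1 hpa hr0.ne'
  rw [one_pow] at hlte
  have hne : a ^ r - 1 ≠ 0 := by
    have : 1 < a ^ r := Nat.one_lt_pow hr0.ne' ha
    omega
  have hv : M ≤ padicValNat p (a ^ r - 1) := (padicValNat_dvd_iff_le hne).1 hd
  have hv1 : m ≤ padicValNat p (a - 1) := by omega
  have hne1 : a - 1 ≠ 0 := by omega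
  have hdm : p ^ m ∣ a - 1 := (padicValNat_dvd_iff_le hne1).2 hv1
  have hζM : ζ ^ (p ^ M) = 1 := by
    rw [hM, add_assoc, pow_add p, pow_mul, hm, one_pow]
  rw [h ζ hζM]
  obtain ⟨c, hc⟩ := hdm
  have : a = p ^ m * c + 1 := by omega
  rw [this, pow_succ, pow_mul, hm, one_pow, one_mul]

/-- `p = 2` -/
private theorem GF_two (σ : GQ) {r : ℕ} (hr0 : 0 < r)
    (hr : ∀ ζ ∈ muInf 2, (σ ^ r) ζ = ζ) :
    ∀ ζ ∈ muInf 2, σ ζ = ζ ∨ σ ζ = ζ⁻¹ := by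
  rintro ζ ⟨m, hm⟩
  have hr' : ∀ ζ ∈ muInf 2, (σ ^ (2 * r)) ζ = ζ := by
    intro ζ hζ
    rw [two_mul, pow_add, AlgEquiv.mul_apply, hr ζ hζ, hr ζ hζ]
  obtain ⟨ξ, a, hξ, ha, h, hd⟩ := GF_dvd Nat.prime_two σ hr' (m + padicValNat 2 (2 * r) + 2)
  set M := m + padicValNat 2 (2 * r) + 2 with hM
  have h2r : 2 * r ≠ 0 := by omega
  have hne : a ^ (2 * r) - 1 ≠ 0 := by
    have : 1 < a ^ (2 * r) := Nat.one_lt_pow h2r ha
    omega
  have hodd : ¬ 2 ∣ a := fun hcon => by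
    have e1 : 2 ∣ a ^ (2 * r) := dvd_pow hcon h2r
    have e2 : 2 ∣ a ^ (2 * r) - 1 := dvd_trans (dvd_pow_self 2 (by omega)) hd
    have : 1 < a ^ (2 * r) := Nat.one_lt_pow h2r ha
    omega
  have ha1 : 2 ∣ a - 1 := by omega
  have hlte := padicValNat.pow_two_sub_pow (show 1 < a from ha) ha1 hodd h2r (even_two_mul r)
  rw [one_pow] at hlte
  have hv : M ≤ padicValNat 2 (a ^ (2 * r) - 1) := (padicValNat_dvd_iff_le hne).1 hd
  have hζM : ζ ^ (2 ^ M) = 1 := by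
    rw [hM, add_assoc, pow_add 2, pow_mul, hm, one_pow]
  have hne0 : ζ ≠ 0 := by
    rintro rfl
    rw [zero_pow (pow_ne_zero _ two_ne_zero)] at hm
    exact zero_ne_one hm
  have hsum : m + 3 ≤ padicValNat 2 (a + 1) + padicValNat 2 (a - 1) := by omega
  -- one of the two is at most 1
  have hmin : padicValNat 2 (a + 1) ≤ 1 ∨ padicValNat 2 (a - 1) ≤ 1 := by
    by_contra hcon
    rw [not_or] at hcon
    obtain ⟨c1, c2⟩ := hcon
    have d1 : 2 ^ 2 ∣ a + 1 := (padicValNat_dvd_iff_le (by omega)).2 (by omega)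
    have d2 : 2 ^ 2 ∣ a - 1 := (padicValNat_dvd_iff_le (by omega)).2 (by omega)
    omega
  rw [h ζ hζM]
  rcases hmin with c | c
  · left
    have hdm : 2 ^ m ∣ a - 1 := (padicValNat_dvd_iff_le (by omega)).2 (by omega)
    obtain ⟨c, hc⟩ := hdm
    have : a = 2 ^ m * c + 1 := by omega
    rw [this, pow_succ, pow_mul, hm, one_pow, one_mul]
  · right
    have hdm : 2 ^ m ∣ a + 1 := (padicValNat_dvd_iff_le (by omega)).2 (by omega)
    obtain ⟨c, hc⟩ := hdm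
    refine eq_inv_of_mul_eq_one_left ?_
    rw [← pow_succ, hc, pow_mul, hm, one_pow]

private theorem GF_adj (S : Set Om) (σ : GQ) :
    σ ∈ (adjoin ℚ S).fixingSubgroup ↔ ∀ x ∈ S, σ x = x := by
  constructor
  · intro h x hx
    exact (IntermediateField.mem_fixingSubgroup_iff _ _).1 h x (subset_adjoin ℚ S hx)
  · intro h
    have h1 : adjoin ℚ S ≤ IntermediateField.fixedField (Subgroup.zpowers σ) := by
      rw [adjoin_le_iff]
      intro x hx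
      rw [SetLike.mem_coe, IntermediateField.mem_fixedField_iff]
      intro f hf
      have h2 : Subgroup.zpowers σ ≤ MulAction.stabilizer GQ x := by
        rw [Subgroup.zpowers_le]
        exact h x hx
      exact h2 hf
    rw [IntermediateField.le_iff_le] at h1
    exact h1 (Subgroup.mem_zpowers σ)

/-- the two generating sets -/
private theorem GF_main {p : ℕ} (k : IntermediateField ℚ Om) (P : IntermediateField ℚ Om)
    (hPle : P ≤ adjoin ℚ (muInf p))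
    (h1 : ∀ τ : GQ, Fixes τ k → (∃ r : ℕ, 0 < r ∧ ∀ ζ ∈ muInf p, (τ ^ r) ζ = ζ) →
      τ ∈ P.fixingSubgroup)
    (h2 : ∀ τ : GQ, Fixes τ k → τ ∈ P.fixingSubgroup → ∃ r : ℕ, 0 < r ∧ ∀ ζ ∈ muInf p, (τ ^ r) ζ = ζ)
    (σ : GQ) :
    σ ∈ (cycZp p k).fixingSubgroup ↔ σ ∈ P.fixingSubgroup ∧ σ ∈ k.fixingSubgroup := by
  set T : Set GQ := {σ : GQ | Fixes σ k ∧ ∃ r : ℕ, 0 < r ∧ ∀ ζ ∈ muInf p, (σ ^ r) ζ = ζ} with hT
  have hfix : ∀ τ : GQ, Fixes τ k ↔ τ ∈ k.fixingSubgroup := fun τ =>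
    (IntermediateField.mem_fixingSubgroup_iff _ _).symm
  constructor
  · intro hσ
    have hclK : Subgroup.closure T ≤ k.fixingSubgroup := by
      rw [Subgroup.closure_le]; exact fun τ hτ => (hfix τ).1 hτ.1
    have hclP : Subgroup.closure T ≤ P.fixingSubgroup := by
      rw [Subgroup.closure_le]
      exact fun τ hτ => h1 τ hτ.1 hτ.2
    have hK : k ≤ cycZp p k := by
      refine le_inf le_sup_left ?_
      rw [IntermediateField.le_iff_le]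
      exact hclK
    have hP : P ≤ cycZp p k := by
      refine le_inf (le_trans hPle le_sup_right) ?_
      rw [IntermediateField.le_iff_le]
      exact hclP
    exact ⟨IntermediateField.fixingSubgroup_antitone hP hσ,
      IntermediateField.fixingSubgroup_antitone hK hσ⟩
  · rintro ⟨hP, hk⟩
    have hσT : σ ∈ T := ⟨(hfix σ).2 hk, h2 σ ((hfix σ).2 hk) hP⟩
    have h3 : cycZp p k ≤ IntermediateField.fixedField (Subgroup.closure T) := inf_le_right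
    rw [IntermediateField.le_iff_le] at h3
    exact h3 (Subgroup.subset_closure hσT)

theorem mem_cycZp {p : ℕ} (hp : p.Prime) (k : IntermediateField ℚ Om)
    (hμ : ∀ ζ : Om, ζ ^ p = 1 → ζ ∈ k) (σ : GQ) :
    σ ∈ (cycZp p k).fixingSubgroup ↔ σ ∈ PP p ∧ σ ∈ k.fixingSubgroup := by
  by_cases hp2 : p = 2
  · subst hp2
    have hPP : PP 2 = (adjoin ℚ {y : Om | ∃ ζ ∈ muInf 2, y = ζ + ζ⁻¹}).fixingSubgroup := by
      unfold PP P2
      rw [if_pos rfl]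
    rw [hPP]
    refine GF_main k _ ?_ ?_ ?_ σ
    · rw [adjoin_le_iff]
      rintro y ⟨ζ, hζ, rfl⟩
      have h1 : ζ ∈ adjoin ℚ (muInf 2) := subset_adjoin ℚ _ hζ
      exact add_mem h1 (inv_mem h1)
    · rintro τ - ⟨r, hr0, hr⟩
      rw [GF_adj]
      rintro y ⟨ζ, hζ, rfl⟩
      rcases GF_two τ hr0 hr ζ hζ with h | h
      · rw [map_add, map_inv₀, h]
      · rw [map_add, map_inv₀, h, inv_inv, add_comm]
    · rintro τ - hP
      refine ⟨2, by norm_num, ?_⟩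
      intro ζ hζ
      rw [GF_adj] at hP
      have h1 := hP (ζ + ζ⁻¹) ⟨ζ, hζ, rfl⟩
      obtain ⟨m, hm⟩ := hζ
      have hne0 : ζ ≠ 0 := by
        rintro rfl
        rw [zero_pow (pow_ne_zero _ two_ne_zero)] at hm
        exact zero_ne_one hm
      have hne1 : τ ζ ≠ 0 := (map_ne_zero τ).2 hne0
      rw [map_add, map_inv₀] at h1
      have h2 : (τ ζ - ζ) * (τ ζ * ζ - 1) = 0 := by
        field_simp at h1
        linear_combination h1
      have h3 : τ ζ = ζ ∨ τ ζ = ζ⁻¹ := by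
        rcases mul_eq_zero.1 h2 with h | h
        · left; exact sub_eq_zero.1 h
        · right; exact eq_inv_of_mul_eq_one_left (sub_eq_zero.1 h)
      rw [pow_two, AlgEquiv.mul_apply]
      rcases h3 with h | h
      · rw [h, h]
      · rw [h, map_inv₀, h, inv_inv]
  · have hPP : PP p = (adjoin ℚ (muInf p)).fixingSubgroup := by
      unfold PP Pmu
      rw [if_neg hp2]
    rw [hPP]
    refine GF_main k _ le_rfl ?_ ?_ σ
    · rintro τ hk ⟨r, hr0, hr⟩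
      rw [GF_adj]
      exact GF_odd hp hp2 τ hr0 hr (fun ζ hζ => hk ζ (hμ ζ hζ))
    · rintro τ - hP
      rw [GF_adj] at hP
      exact ⟨1, one_pos, fun ζ hζ => by rw [pow_one]; exact hP ζ hζ⟩

end OzakiFree
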