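import Pool.Agent.Lib.MP_6e8030_nt.GBase

open IntermediateField
open scoped ComplexConjugate

noncomputable section

namespace OzakiFree

/-! ### GG: pigeonhole in the class group and modulo `p ^ 2` -/

/-- `b` has the divisor `q₁ - q₂` modulo `p`, is a `p`-th power modulo `p ^ 2` and is positive
(for `p = 2`) -/
def PairElt (K : Type) [Field K] (p : ℕ) (q₁ q₂ : Ideal (NumberField.RingOfIntegers K))
    (b : NumberField.RingOfIntegers K) : Prop :=
  b ≠ 0 ∧ (∀ q : Ideal (NumberField.RingOfIntegers K), q.IsMaximal → q ≠ q₁ → q ≠ q₂ →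
      p ∣ multiplicity q (Ideal.span {b})) ∧
    multiplicity q₁ (Ideal.span {b}) ≡ 1 [MOD p] ∧
    (∃ c d e f : NumberField.RingOfIntegers K, b = c ^ p + (p : NumberField.RingOfIntegers K) ^ 2 * d ∧
      e * c + f * (p : NumberField.RingOfIntegers K) = 1) ∧
    (p = 2 → ∀ φ : K →+* ℝ, 0 < φ b)

private theorem GG_prime {R : Type*} [CommRing R] [IsDedekindDomain R] {q : Ideal R}
    (hq : q.IsMaximal) (h0 : q ≠ ⊥) : Prime q :=
  Ideal.prime_of_isPrime h0 hq.isPrime

private theorem GG_mult_ne {R : Type*} [CommRing R] [IsDedekindDomain R] {q r : Ideal R}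
    (hq : q.IsMaximal) (hr : r.IsMaximal) (hne : q ≠ r) : multiplicity q r = 0 := by
  rw [multiplicity_eq_zero, Ideal.dvd_iff_le]
  intro h
  exact hne ((hr.eq_of_le hq.ne_top h).symm)

private theorem GG_mult_self {R : Type*} [CommRing R] [IsDedekindDomain R] {q : Ideal R}
    (_hq : q.IsMaximal) (_h0 : q ≠ ⊥) : multiplicity q q = 1 := by
  exact multiplicity_self

private theorem GG_mult_mul {R : Type*} [CommRing R] [IsDedekindDomain R] {q : Ideal R}
    (hq : q.IsMaximal) (h0 : q ≠ ⊥) {a b : Ideal R} (ha : a ≠ ⊥) (hb : b ≠ ⊥) :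
    multiplicity q (a * b) = multiplicity q a + multiplicity q b := by
  have hp := GG_prime hq h0
  refine multiplicity_mul hp (FiniteMultiplicity.of_prime_left hp ?_)
  exact mul_ne_zero ha hb

private theorem GG_mult_pow {R : Type*} [CommRing R] [IsDedekindDomain R] {q : Ideal R}
    (hq : q.IsMaximal) (h0 : q ≠ ⊥) {a : Ideal R} (ha : a ≠ ⊥) (n : ℕ) :
    multiplicity q (a ^ n) = n * multiplicity q a := by
  have hp := GG_prime hq h0
  exact (FiniteMultiplicity.of_prime_left hp ha).multiplicity_pow hp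

/-- the multiplicities of the element with divisor `q₁ q₂^(p-1) q₀^(m p)` -/
private theorem GG_mult_main {R : Type*} [CommRing R] [IsDedekindDomain R] {p m : ℕ} (hp : p.Prime)
    {q₀ q₁ q₂ I : Ideal R} (h0 : q₀.IsMaximal) (h1 : q₁.IsMaximal) (h2 : q₂.IsMaximal)
    (n0 : q₀ ≠ ⊥) (n1 : q₁ ≠ ⊥) (n2 : q₂ ≠ ⊥) (h12 : q₁ ≠ q₂)
    (hI : I = q₁ * q₀ ^ m * (q₂ * q₀ ^ m) ^ (p - 1)) :
    (∀ q : Ideal R, q.IsMaximal → q ≠ ⊥ → q ≠ q₁ → q ≠ q₂ → p ∣ multiplicity q I) ∧
      multiplicity q₁ I ≡ 1 [MOD p] := by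
  have key : ∀ q : Ideal R, q.IsMaximal → q ≠ ⊥ → multiplicity q I =
      multiplicity q q₁ + (p - 1) * multiplicity q q₂ + p * (m * multiplicity q q₀) := by
    intro q hq hq0
    have hpow : q₀ ^ m ≠ ⊥ := pow_ne_zero m n0
    rw [hI, GG_mult_mul hq hq0 (mul_ne_zero n1 hpow) (pow_ne_zero _ (mul_ne_zero n2 hpow)),
      GG_mult_mul hq hq0 n1 hpow, GG_mult_pow hq hq0 (mul_ne_zero n2 hpow),
      GG_mult_mul hq hq0 n2 hpow, GG_mult_pow hq hq0 n0]
    obtain ⟨k, rfl⟩ : ∃ k, p = k + 1 := ⟨p - 1, (Nat.succ_pred_eq_of_pos hp.pos).symm⟩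
    simp only [Nat.add_sub_cancel]
    ring
  constructor
  · intro q hq hq0 hq1 hq2
    rw [key q hq hq0, GG_mult_ne hq h1 hq1, GG_mult_ne hq h2 hq2]
    simp
  · rw [key q₁ h1 n1, GG_mult_self h1 n1, GG_mult_ne h1 h2 h12]
    simp [Nat.ModEq]

theorem pigeon (K : Type) [Field K] [NumberField K] (p : ℕ) (hp : p.Prime) :
    ∃ C : ℕ, ∀ S : Set (Ideal (NumberField.RingOfIntegers K)), (C : ℕ∞) < S.encard →
      (∀ q ∈ S, q.IsMaximal ∧ (p : NumberField.RingOfIntegers K) ∉ q) →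
      ∃ q₁ ∈ S, ∃ q₂ ∈ S, ∃ q₃ ∈ S, q₁ ≠ q₂ ∧ q₁ ≠ q₃ ∧ q₂ ≠ q₃ ∧
        ∃ b₁ b₂, PairElt K p q₁ q₂ b₁ ∧ PairElt K p q₁ q₃ b₂ := by
  classical
  set R := NumberField.RingOfIntegers K with hR
  have hp0 : (p : R) ≠ 0 := by
    have : (p : R) ≠ ((0 : ℕ) : R) := by
      intro h
      exact hp.ne_zero (Nat.cast_injective h)
    simpa using this
  have hp2 : ((p : R) ^ 2) ≠ 0 := pow_ne_zero 2 hp0
  have : Finite (R ⧸ Ideal.span {(p : R) ^ 2}) :=
    Ideal.finiteQuotientOfFreeOfNeBot _ (by simpa [Ideal.span_singleton_eq_bot] using hp2)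
  have : Finite (K →+* ℝ) := by
    have : Finite (K →+* ℂ) := inferInstance
    refine Finite.of_injective (fun φ : K →+* ℝ => (Complex.ofRealHom.comp φ : K →+* ℂ)) ?_
    intro φ ψ h
    ext x
    have := congrArg (fun f : K →+* ℂ => f x) h
    simpa using this
  let T := ClassGroup R × (R ⧸ Ideal.span {(p : R) ^ 2}) × ((K →+* ℝ) → Prop)
  have : Finite T := inferInstance
  have : Fintype T := Fintype.ofFinite T
  refine ⟨Fintype.card T * 2, ?_⟩
  intro S hS hmax
  have hne : ∀ q ∈ S, q ≠ ⊥ := by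
    intro q hq
    exact Ring.ne_bot_of_isMaximal_of_not_isField (hmax q hq).1 (NumberField.RingOfIntegers.not_isField K)
  -- class of an ideal
  let cl : Ideal R → ClassGroup R := fun q =>
    if h : q ≠ ⊥ then ClassGroup.mk0 ⟨q, mem_nonZeroDivisors_iff_ne_zero.2 h⟩ else 1
  have hcl : ∀ (q : Ideal R) (h : q ≠ ⊥), cl q = ClassGroup.mk0 ⟨q, mem_nonZeroDivisors_iff_ne_zero.2 h⟩ := by
    intro q h
    simp only [cl]
    rw [dif_pos h]
  let base : ClassGroup R → Ideal R := fun c => if h : ∃ q ∈ S, cl q = c then h.choose else ⊥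
  have hbase : ∀ q ∈ S, base (cl q) ∈ S ∧ cl (base (cl q)) = cl q := by
    intro q hq
    have h : ∃ q' ∈ S, cl q' = cl q := ⟨q, hq, rfl⟩
    have : base (cl q) = h.choose := by simp only [base]; rw [dif_pos h]
    rw [this]
    exact h.choose_spec
  let m := Nat.card (ClassGroup R) - 1
  have hprin : ∀ q ∈ S, ∃ l : R, Ideal.span {l} = q * base (cl q) ^ m := by
    intro q hq
    have hb := hbase q hq
    have hb0 : base (cl q) ≠ ⊥ := hne _ hb.1
    have h1 : ClassGroup.mk0 (⟨q * base (cl q) ^ m,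
        mem_nonZeroDivisors_iff_ne_zero.2 (mul_ne_zero (hne q hq) (pow_ne_zero m hb0))⟩ : nonZeroDivisors (Ideal R)) = 1 := by
      have h2 : (⟨q * base (cl q) ^ m,
        mem_nonZeroDivisors_iff_ne_zero.2 (mul_ne_zero (hne q hq) (pow_ne_zero m hb0))⟩ : nonZeroDivisors (Ideal R)) =
        ⟨q, mem_nonZeroDivisors_iff_ne_zero.2 (hne q hq)⟩ * ⟨base (cl q), mem_nonZeroDivisors_iff_ne_zero.2 hb0⟩ ^ m := by
        ext1
        simp
      rw [h2, map_mul, map_pow, ← hcl q (hne q hq), ← hcl _ hb0, hb.2, ← pow_succ']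
      have h3 : m + 1 = Nat.card (ClassGroup R) := Nat.sub_add_cancel Nat.card_pos
      rw [h3, pow_card_eq_one']
    rw [ClassGroup.mk0_eq_one_iff] at h1
    obtain ⟨l, hl⟩ := h1
    exact ⟨l, hl.symm⟩
  let lam : Ideal R → R := fun q => if h : q ∈ S then (hprin q h).choose else 1
  have hlam : ∀ q ∈ S, Ideal.span {lam q} = q * base (cl q) ^ m := by
    intro q hq
    have : lam q = (hprin q hq).choose := by simp only [lam]; rw [dif_pos hq]
    rw [this]
    exact (hprin q hq).choose_spec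
  have hlam0 : ∀ q ∈ S, lam q ≠ 0 := by
    intro q hq h
    have h1 := hlam q hq
    rw [h, Ideal.span_singleton_eq_bot.2 rfl] at h1
    exact (mul_ne_zero (hne q hq) (pow_ne_zero m (hne _ (hbase q hq).1))) h1.symm
  have hcop : ∀ q ∈ S, IsCoprime (lam q) (p : R) := by
    intro q hq
    rw [← Ideal.isCoprime_span_singleton_iff, Ideal.isCoprime_iff_sup_eq]
    by_contra hcon
    obtain ⟨M, hM, hle⟩ := Ideal.exists_le_maximal _ hcon
    have hpM : (p : R) ∈ M := hle (Ideal.mem_sup_right (Ideal.mem_span_singleton_self _))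
    have h2 : q * base (cl q) ^ m ≤ M := by
      rw [← hlam q hq]
      exact le_sup_left.trans hle
    rcases (hM.isPrime.mul_le).1 h2 with h3 | h3
    · have := (hmax q hq).1.eq_of_le hM.ne_top h3
      exact (hmax q hq).2 (this ▸ hpM)
    · have h4 := hM.isPrime.le_of_pow_le h3
      have hb := (hbase q hq).1
      have := (hmax _ hb).1.eq_of_le hM.ne_top h4
      exact (hmax _ hb).2 (this ▸ hpM)
  let f : Ideal R → T := fun q =>
    (cl q, Ideal.Quotient.mk (Ideal.span {(p : R) ^ 2}) (lam q), fun φ => 0 < φ (lam q : K))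
  -- pigeonhole
  obtain ⟨U, hUS, hUc⟩ : ∃ U ⊆ S, U.encard = ((Fintype.card T * 2 + 1 : ℕ) : ℕ∞) := by
    apply Set.exists_subset_encard_eq
    have := Order.add_one_le_of_lt hS
    push_cast at this ⊢
    exact this
  have hUfin : U.Finite := Set.finite_of_encard_eq_coe hUc
  have hcard : hUfin.toFinset.card = Fintype.card T * 2 + 1 := by
    have := hUfin.encard_eq_coe_toFinset_card
    rw [hUc] at this
    exact_mod_cast this.symm
  obtain ⟨y, -, hy⟩ := Finset.exists_lt_card_fiber_of_mul_lt_card_of_maps_to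
    (s := hUfin.toFinset) (t := (Finset.univ : Finset T)) (f := f) (n := 2)
    (fun a _ => Finset.mem_univ _) (by rw [Finset.card_univ, hcard]; omega)
  obtain ⟨q₁, h1, q₂, h2, q₃, h3, h12, h13, h23⟩ := Finset.two_lt_card.1 hy
  simp only [Finset.mem_filter, Set.Finite.mem_toFinset] at h1 h2 h3
  have main : ∀ q q' : Ideal R, q ∈ S → q' ∈ S → q ≠ q' → f q = f q' →
      PairElt K p q q' (lam q * lam q' ^ (p - 1)) := by
    intro q q' hq hq' hqq hff
    have f1 : cl q = cl q' := congrArg Prod.fst hff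
    have f2 : Ideal.Quotient.mk (Ideal.span {(p : R) ^ 2}) (lam q) =
        Ideal.Quotient.mk (Ideal.span {(p : R) ^ 2}) (lam q') :=
      congrArg (fun t : T => t.2.1) hff
    have f3 : (fun φ : K →+* ℝ => 0 < φ (lam q : K)) = fun φ => 0 < φ (lam q' : K) :=
      congrArg (fun t : T => t.2.2) hff
    have hI : Ideal.span {lam q * lam q' ^ (p - 1)} =
        q * base (cl q) ^ m * (q' * base (cl q) ^ m) ^ (p - 1) := by
      rw [← Ideal.span_singleton_mul_span_singleton, ← Ideal.span_singleton_pow, hlam q hq,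
        hlam q' hq', f1]
    have hM := GG_mult_main hp (hmax _ (hbase q hq).1).1 (hmax q hq).1 (hmax q' hq').1
      (hne _ (hbase q hq).1) (hne q hq) (hne q' hq') hqq hI
    refine ⟨mul_ne_zero (hlam0 q hq) (pow_ne_zero _ (hlam0 q' hq')), ?_, hM.2, ?_, ?_⟩
    · intro r hr hr1 hr2
      exact hM.1 r hr (Ring.ne_bot_of_isMaximal_of_not_isField hr
        (NumberField.RingOfIntegers.not_isField K)) hr1 hr2
    · rw [Ideal.Quotient.eq, Ideal.mem_span_singleton] at f2
      have hd : (p : R) ^ 2 ∣ lam q * lam q' ^ (p - 1) - lam q ^ p := by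
        have e1 : lam q ^ p = lam q * lam q ^ (p - 1) := by
          rw [← pow_succ', Nat.sub_add_cancel hp.pos]
        rw [e1, ← mul_sub]
        refine Dvd.dvd.mul_left ?_ _
        refine dvd_trans ?_ (sub_dvd_pow_sub_pow (lam q') (lam q) (p - 1))
        rw [← neg_sub]
        exact (dvd_neg).2 f2
      obtain ⟨d, hd⟩ := hd
      obtain ⟨e, f', hef⟩ := hcop q hq
      exact ⟨lam q, d, e, f', by rw [← hd]; ring, hef⟩
    · intro hp2' φ
      have hsame := congrFun f3 φ
      simp only [eq_iff_iff] at hsame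
      have e1 : p - 1 = 1 := by omega
      rw [e1, pow_one]
      have hφ1 : φ ((lam q : R) : K) ≠ 0 := by
        rw [Ne, map_eq_zero]
        exact fun h => hlam0 q hq (NumberField.RingOfIntegers.coe_eq_zero_iff.1 h)
      have hφ2 : φ ((lam q' : R) : K) ≠ 0 := by
        rw [Ne, map_eq_zero]
        exact fun h => hlam0 q' hq' (NumberField.RingOfIntegers.coe_eq_zero_iff.1 h)
      have hmul : φ (((lam q * lam q' : R)) : K) = φ ((lam q : R) : K) * φ ((lam q' : R) : K) := by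
        rw [← map_mul]
        rfl
      rw [hmul]
      rcases lt_or_gt_of_ne hφ1 with h | h
      · have h' : ¬ 0 < φ ((lam q' : R) : K) := fun hh => absurd (hsame.2 hh) (not_lt.2 h.le)
        have h'' : φ ((lam q' : R) : K) < 0 := lt_of_le_of_ne (not_lt.1 h') hφ2
        exact mul_pos_of_neg_of_neg h h''
      · exact mul_pos h (hsame.1 h)
  refine ⟨q₁, hUS h1.1, q₂, hUS h2.1, q₃, hUS h3.1, h12, h13, h23, _, _,
    main q₁ q₂ (hUS h1.1) (hUS h2.1) h12 (h1.2.trans h2.2.symm),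
    main q₁ q₃ (hUS h1.1) (hUS h3.1) h13 (h1.2.trans h3.2.symm)⟩

end OzakiFree
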