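import Pool.Agent.Lib.MP_6e8030_nt.GBase
import Pool.Agent.Lib.MP_6e8030_nt.R4
import Pool.Agent.Lib.MP_6e8030_nt.R5

open IntermediateField
open scoped ComplexConjugate

noncomputable section

namespace OzakiFree

/-- a prime number `p ≠ l` is not in `B` -/
private theorem GI_not_mem {p l : ℕ} (hp : p.Prime) (hl : l.Prime) (hne : l ≠ p) (B : Ideal ZO)
    (hB : B.IsMaximal) (hlB : (l : ZO) ∈ B) : (p : ZO) ∉ B := by
  intro h
  have hcop : IsCoprime (l : ℤ) (p : ℤ) :=
    (Nat.isCoprime_iff_coprime).mpr ((Nat.coprime_primes hl hp).mpr hne)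
  obtain ⟨u, v, huv⟩ := hcop
  apply hB.ne_top
  rw [Ideal.eq_top_iff_one]
  have h1 : ((u * (l : ℤ) + v * (p : ℤ) : ℤ) : ZO) = 1 := by rw [huv]; simp
  rw [← h1]
  push_cast
  exact B.add_mem (B.mul_mem_left _ hlB) (B.mul_mem_left _ h)

/-! ### GI: inertia groups above `l ≠ p` move the `p`-th roots of `l` -/

theorem inertia_moves {p : ℕ} (hp : p.Prime) {l : ℕ} (hl : l.Prime) (hne : l ≠ p) (z : Om)
    (hz : z ^ p = (l : Om)) (B : Ideal ZO) (hB : B.IsMaximal) (hlB : (l : ZO) ∈ B) :
    ∃ t ∈ B.inertia GQ, t z ≠ z := by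
  by_contra hcon
  have hfix : ∀ t ∈ B.inertia GQ, t z = z := by
    intro t ht
    by_contra h
    exact hcon ⟨t, ht, h⟩
  have hlOm : (l : Om) ≠ 0 := by exact_mod_cast hl.ne_zero
  have hz0 : z ≠ 0 := by
    rintro rfl
    rw [zero_pow hp.ne_zero] at hz
    exact hlOm hz.symm
  have hpB : (p : ZO) ∉ B := GI_not_mem hp hl hne B hB hlB
  -- the field
  set f : Polynomial ℚ := Polynomial.X ^ p - Polynomial.C (l : ℚ) with hf
  have hf0 : f ≠ 0 := Polynomial.X_pow_sub_C_ne_zero hp.pos _
  have hroot : ∀ y : Om, y ∈ f.rootSet Om ↔ y ^ p = (l : Om) := by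
    intro y
    rw [Polynomial.mem_rootSet, and_iff_right hf0, hf, map_sub, map_pow, Polynomial.aeval_X,
      Polynomial.aeval_C, sub_eq_zero]
    simp
  set N : IntermediateField ℚ Om := adjoin ℚ (f.rootSet Om) with hN
  have hsplit : (f.map (algebraMap ℚ Om)).Splits := IsAlgClosed.splits _
  have : Polynomial.IsSplittingField ℚ N f := adjoin_rootSet_isSplittingField hsplit
  have : FiniteDimensional ℚ N := Polynomial.IsSplittingField.finiteDimensional N f
  have : Normal ℚ N := Normal.of_isSplittingField f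
  have : IsGalois ℚ N := ⟨⟩
  have hI : ∀ t ∈ B.inertia GQ, ∀ y ∈ N, t y = y := by
    intro t ht
    have hle : N ≤ IntermediateField.fixedField (Subgroup.zpowers t) := by
      rw [hN, adjoin_le_iff]
      intro y hy
      have hy1 : y ^ p = (l : Om) := (hroot y).mp hy
      have hty : t y = y := by
        have h1 : t (y / z) = y / z := by
          apply inertia_fix_mu hp B hB hpB t ht
          refine ⟨1, ?_⟩
          rw [pow_one, div_pow, hy1, hz, div_self hlOm]
        have h2 : y = (y / z) * z := by field_simp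
        rw [h2, map_mul, h1, hfix t ht]
      change ∀ g : Subgroup.zpowers t, g • y = y
      rintro ⟨g, n, rfl⟩
      have hmem : t ∈ MulAction.stabilizer GQ y := hty
      exact (MulAction.stabilizer GQ y).zpow_mem hmem n
    intro y hy
    have h3 := hle hy
    exact h3 ⟨t, Subgroup.mem_zpowers t⟩
  -- the integral element
  have hzint : IsIntegral ℤ z := by
    have : IsIntegral ℤ (z ^ p) := by
      rw [hz]
      exact isIntegral_algebraMap (R := ℤ) (A := Om) (x := (l : ℤ))
    exact IsIntegral.of_pow hp.pos this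
  have hw : (1 : ZO) ∉ B := fun h => hB.ne_top ((Ideal.eq_top_iff_one B).mpr h)
  have hdvd : p ∣ 1 := by
    refine unr N l hl B hB hlB hI ⟨z, hzint⟩ 1 ?_ p 1 hw ?_
    · exact subset_adjoin ℚ _ ((hroot z).mpr hz)
    · apply Subtype.ext
      have h1 : z ^ p = (l : Om) ^ 1 * 1 := by
        rw [hz]; ring
      simpa using h1
  exact hp.one_lt.ne' (Nat.dvd_one.mp hdvd)

end OzakiFree
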