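import Pool.Agent.Lib.MP_6e8030_nt.GBase
import Pool.Agent.Lib.MP_6e8030_nt.R4

open IntermediateField
open scoped ComplexConjugate Pointwise

noncomputable section

namespace OzakiFree

/-! ### GJ: primes of degree one and embeddings -/

private theorem GJ_int_mem {l : ℕ} (hl : l.Prime) (B : Ideal ZO) (hB : B.IsMaximal)
    (hlB : (l : ZO) ∈ B) (n : ℤ) : (n : ZO) ∈ B ↔ (l : ℤ) ∣ n := by
  constructor
  · intro h
    by_contra hn
    have hcop : IsCoprime (l : ℤ) n :=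
      (Prime.coprime_iff_not_dvd (Nat.prime_iff_prime_int.1 hl)).2 hn
    obtain ⟨a, b, hab⟩ := hcop
    apply hB.ne_top
    rw [Ideal.eq_top_iff_one]
    have h1 : (1 : ZO) = (a : ZO) * (l : ZO) + (b : ZO) * (n : ZO) := by
      exact_mod_cast (congrArg (Int.cast : ℤ → ZO) hab).symm
    rw [h1]
    exact B.add_mem (B.mul_mem_left _ hlB) (B.mul_mem_left _ h)
  · rintro ⟨m, rfl⟩
    push_cast
    exact B.mul_mem_right _ hlB

private theorem GJ_bot_int (z : ZO) (hz : (z : Om) ∈ (⊥ : IntermediateField ℚ Om)) :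
    ∃ n : ℤ, z = (n : ZO) := by
  obtain ⟨r, hr⟩ := IntermediateField.mem_bot.1 hz
  have h1 : IsIntegral ℤ (algebraMap ℚ Om r) := by
    rw [hr]
    exact z.2
  have h2 : IsIntegral ℤ r := by
    have hinj : Function.Injective (algebraMap ℚ Om) := (algebraMap ℚ Om).injective
    exact (isIntegral_algebraMap_iff (R := ℤ) (A := ℚ) (B := Om) hinj).1 h1
  obtain ⟨n, hn⟩ := IsIntegrallyClosed.isIntegral_iff.1 h2
  refine ⟨n, Subtype.ext ?_⟩
  rw [← hr, ← hn]
  simp

private theorem GJ_trans {l : ℕ} (hl : l.Prime) (B B' : Ideal ZO) (hB : B.IsMaximal)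
    (hlB : (l : ZO) ∈ B) (hB' : B'.IsMaximal) (hlB' : (l : ZO) ∈ B') :
    ∃ g : GQ, B = g • B' := by
  classical
  let : TopologicalSpace (integralClosure ℤ Om) := ⊥
  have : DiscreteTopology (integralClosure ℤ Om) := ⟨rfl⟩
  have : ContinuousSMul (Om ≃ₐ[(⊥ : IntermediateField ℚ Om)] Om) (integralClosure ℤ Om) := by
    rw [continuousSMul_iff_stabilizer_isOpen]
    intro x
    have h1 := stabilizer_isOpen_of_isIntegral (K := (⊥ : IntermediateField ℚ Om)) (L := Om) (x : Om)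
    convert h1 using 1
    ext g
    constructor
    · intro h
      exact congrArg Subtype.val h
    · intro h
      exact Subtype.ext h
  have := hB.isPrime
  have := hB'.isPrime
  have hunder : B'.under (R4A ⊥) = B.under (R4A ⊥) := by
    ext z
    obtain ⟨n, hn⟩ := GJ_bot_int (z : ZO) z.2
    change (z : ZO) ∈ B' ↔ (z : ZO) ∈ B
    rw [hn, GJ_int_mem hl B hB hlB, GJ_int_mem hl B' hB' hlB']
  obtain ⟨h, hh⟩ := Algebra.IsInvariant.exists_smul_of_under_eq_of_profinite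
    (A := R4A ⊥) (G := (Om ≃ₐ[(⊥ : IntermediateField ℚ Om)] Om)) B' B hunder
  exact ⟨AlgEquiv.restrictScalars ℚ h, hh⟩

theorem exists_embedding (F : IntermediateField ℚ Om) [FiniteDimensional ℚ F] {l : ℕ}
    (hl : l.Prime) (q : Ideal (ZF F)) (hq : q.IsMaximal) (hlq : (l : ZF F) ∈ q)
    (B : Ideal ZO) (hB : B.IsMaximal) (hlB : (l : ZO) ∈ B) :
    ∃ g : GQ, ∀ z : ZF F, z ∈ q ↔ ∃ b ∈ B, (b : Om) = g z.val := by
  let alg : Algebra (ZF F) ZO := (iota F).toAlgebra
  have hmap : ∀ z, algebraMap (ZF F) ZO z = iota F z := fun _ => rfl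
  have : IsScalarTower ℤ (ZF F) ZO := IsScalarTower.of_algebraMap_eq' (Subsingleton.elim _ _)
  have : Algebra.IsIntegral (ZF F) ZO := Algebra.IsIntegral.tower_top (R := ℤ)
  have hker : RingHom.ker (algebraMap (ZF F) ZO) ≤ q := by
    intro z hz
    have h1 : iota F z = 0 := hz
    have h2 : z.val = 0 := congrArg Subtype.val h1
    have h3 : z = 0 := ZF_val_inj z 0 h2
    rw [h3]
    exact q.zero_mem
  obtain ⟨B', hB', hcomap⟩ := Ideal.exists_ideal_over_maximal_of_isIntegral q hker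
  have hlB' : (l : ZO) ∈ B' := by
    have h1 : (l : ZF F) ∈ B'.comap (algebraMap (ZF F) ZO) := by
      rw [hcomap]
      exact hlq
    rw [Ideal.mem_comap, map_natCast] at h1
    exact h1
  obtain ⟨g, hg⟩ := GJ_trans hl B B' hB hlB hB' hlB'
  refine ⟨g, fun z => ?_⟩
  rw [← hcomap, Ideal.mem_comap]
  have h1 : algebraMap (ZF F) ZO z ∈ B' ↔ g • (iota F z) ∈ B := by
    rw [hg, Ideal.smul_mem_pointwise_smul_iff]
    rfl
  rw [h1]
  constructor
  · intro h
    exact ⟨_, h, rfl⟩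
  · rintro ⟨b, hb, hb'⟩
    have : b = g • (iota F z) := Subtype.ext hb'
    rw [← this]
    exact hb

theorem embedding_unique (F : IntermediateField ℚ Om) [FiniteDimensional ℚ F] {l : ℕ}
    (hl : l.Prime) (hgood : Good F l) (q : Ideal (ZF F)) (hq : q.IsMaximal)
    (hcard : Nat.card (ZF F ⧸ q) = l) (B : Ideal ZO) (hB : B.IsMaximal) (hlB : (l : ZO) ∈ B)
    (g g' : GQ) (hg : ∀ z : ZF F, z ∈ q ↔ ∃ b ∈ B, (b : Om) = g z.val)
    (hg' : ∀ z : ZF F, z ∈ q ↔ ∃ b ∈ B, (b : Om) = g' z.val) : ∀ x ∈ F, g x = g' x := by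
  apply hgood B hB hlB
  intro z
  have : Fact l.Prime := ⟨hl⟩
  have : Nontrivial (ZF F ⧸ q) := Ideal.Quotient.nontrivial_iff.2 hq.ne_top
  have h1 : (Ideal.Quotient.mk q z) ∈ AddSubgroup.zmultiples (1 : ZF F ⧸ q) :=
    mem_zmultiples_of_prime_card hcard one_ne_zero
  obtain ⟨n, hn⟩ := AddSubgroup.mem_zmultiples_iff.1 h1
  have h2 : z - (n : ZF F) ∈ q := by
    rw [← Ideal.Quotient.eq, ← hn, zsmul_one]
    exact (map_intCast (Ideal.Quotient.mk q) n).symm
  obtain ⟨b, hb, hb'⟩ := (hg _).1 h2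
  obtain ⟨c, hc, hc'⟩ := (hg' _).1 h2
  refine ⟨b - c, B.sub_mem hb hc, ?_⟩
  have h3 : (z - (n : ZF F)).val = z.val - (n : Om) := by
    have h6 : (((n : ℤ) : ZO) : Om) = (n : Om) := by simp
    have h4 : ((iota F (z - (n : ZF F)) : ZO) : Om) = ((iota F z : ZO) : Om) - ((n : ZO) : Om) := by
      rw [map_sub, map_intCast]
      rfl
    rw [h6] at h4
    exact h4
  rw [h3, map_sub, map_intCast] at hb' hc'
  have h5 : ((b - c : ZO) : Om) = (b : Om) - (c : Om) := rfl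
  rw [h5, hb', hc']
  ring

end OzakiFree
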