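import Pool.Agent.Lib.MP_6e8030_nt.GA
import Pool.Agent.Lib.MP_6e8030_nt.GB
import Pool.Agent.Lib.MP_6e8030_nt.GC
import Pool.Agent.Lib.MP_6e8030_nt.GD
import Pool.Agent.Lib.MP_6e8030_nt.GE
import Pool.Agent.Lib.MP_6e8030_nt.GF
import Pool.Agent.Lib.MP_6e8030_nt.GG
import Pool.Agent.Lib.MP_6e8030_nt.GH
import Pool.Agent.Lib.MP_6e8030_nt.GI
import Pool.Agent.Lib.MP_6e8030_nt.GJ
import Pool.Agent.Lib.MP_6e8030_nt.Final3
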