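import Pool.Agent.Lib.MP_6e8030_nt.GBase

open IntermediateField
open scoped ComplexConjugate

noncomputable section

namespace OzakiFree

variable (F : IntermediateField ℚ Om)

instance instDedekindZF [FiniteDimensional ℚ F] : IsDedekindDomain (ZF F) :=
  inferInstanceAs (IsDedekindDomain (NumberField.RingOfIntegers (FL F)))

theorem iota_inj (z : ZF F) (h : iota F z = 0) : z = 0 := by
  have h2 : z.val = 0 := congrArg Subtype.val h
  exact ZF_val_inj z 0 h2

theorem ZF_natCast_val (l : ℕ) : (l : ZF F).val = (l : Om) := by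
  have h1 : (iota F) (l : ZF F) = (l : ZO) := map_natCast _ _
  exact congrArg (Subtype.val : ZO → Om) h1

theorem natCast_ne_zero {l : ℕ} (hl : l ≠ 0) : (l : ZF F) ≠ 0 := by
  intro h
  have h1 : (iota F) (l : ZF F) = 0 := by rw [h, map_zero]
  rw [map_natCast] at h1
  have h2 : ((l : ZO) : Om) = 0 := by rw [h1]; rfl
  have h3 : ((l : ℕ) : Om) = 0 := h2
  exact hl (by exact_mod_cast h3)

theorem comap_max (B : Ideal ZO) (hB : B.IsMaximal) : (B.comap (iota F)).IsMaximal := by
  let alg : Algebra (ZF F) ZO := (iota F).toAlgebra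
  have : IsScalarTower ℤ (ZF F) ZO := IsScalarTower.of_algebraMap_eq' (Subsingleton.elim _ _)
  have hint : Algebra.IsIntegral (ZF F) ZO := Algebra.IsIntegral.tower_top (R := ℤ)
  exact Ideal.isMaximal_comap_of_isIntegral_of_isMaximal (R := ZF F) B

/-- a maximal ideal of the ring of all algebraic integers above `q` -/
theorem exists_over (q : Ideal (ZF F)) (hq : q.IsMaximal) :
    ∃ B : Ideal ZO, B.IsMaximal ∧ B.comap (iota F) = q := by
  let alg : Algebra (ZF F) ZO := (iota F).toAlgebra
  have : IsScalarTower ℤ (ZF F) ZO := IsScalarTower.of_algebraMap_eq' (Subsingleton.elim _ _)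
  have hint : Algebra.IsIntegral (ZF F) ZO := Algebra.IsIntegral.tower_top (R := ℤ)
  have hker : RingHom.ker (algebraMap (ZF F) ZO) ≤ q := by
    intro z hz
    rw [iota_inj F z hz]
    exact q.zero_mem
  obtain ⟨B, hB, hB'⟩ := Ideal.exists_ideal_over_maximal_of_isIntegral (S := ZO) q hker
  exact ⟨B, hB, hB'⟩

instance instDomainZF : IsDomain (ZF F) := NumberField.instIsDomainRingOfIntegers (FL F)

end OzakiFree
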