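import Pool.Agent.Lib.MP_6e8030_nt.GAll
import Pool.Agent.Lib.MP_6e8030_nt.GOver

open IntermediateField
open scoped ComplexConjugate

noncomputable section

namespace OzakiFree

variable {p : ℕ} {ζ : Om}

/-! ### Kummer characters for arbitrary radicands -/

section chiF

variable {y y' b b' : Om}

theorem rt_ne_zero (hp : p.Prime) (hy : y ^ p = b) (hb : b ≠ 0) : y ≠ 0 := by
  rintro rfl
  rw [zero_pow hp.ne_zero] at hy
  exact hb hy.symm

theorem chiF_spec (hp : p.Prime) (hζ : IsPrimitiveRoot ζ p) (hy : y ^ p = b) (hb : b ≠ 0) (σ : GQ)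
    (hσ : σ b = b) : σ y = ζ ^ (chi (p := p) ζ y σ).val * y := by
  have : NeZero p := ⟨hp.ne_zero⟩
  have hy0 := rt_ne_zero hp hy hb
  have h1 : (σ y / y) ^ p = 1 := by
    rw [div_pow, ← map_pow, hy, hσ, div_self hb]
  obtain ⟨i, hi, hi'⟩ := hζ.eq_pow_of_pow_eq_one h1
  have hex : ∃ e : ZMod p, σ y = ζ ^ e.val * y := by
    refine ⟨(i : ZMod p), ?_⟩
    rw [ZMod.val_natCast, Nat.mod_eq_of_lt hi, hi', div_mul_cancel₀ _ hy0]
  unfold chi chiAux
  rw [dif_pos hex]
  exact hex.choose_spec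

theorem chiF_unique (hp : p.Prime) (hζ : IsPrimitiveRoot ζ p) (hy0 : y ≠ 0) (σ : GQ) (n : ℕ)
    (hn : σ y = ζ ^ n * y) : chi (p := p) ζ y σ = n := by
  have : NeZero p := ⟨hp.ne_zero⟩
  have hex : ∃ e : ZMod p, σ y = ζ ^ e.val * y := ⟨(n : ZMod p), by rw [pow_val_eq hζ, hn]⟩
  have h1 : σ y = ζ ^ (chi (p := p) ζ y σ).val * y := by
    unfold chi chiAux
    rw [dif_pos hex]
    exact hex.choose_spec
  rw [hn] at h1
  have h2 := mul_right_cancel₀ hy0 h1
  rw [← pow_val_eq hζ n] at h2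
  have h3 := hζ.pow_inj (ZMod.val_lt _) (ZMod.val_lt _) h2
  exact (ZMod.val_injective p h3).symm

theorem chiF_zero_iff (hp : p.Prime) (hζ : IsPrimitiveRoot ζ p) (hy : y ^ p = b) (hb : b ≠ 0)
    (σ : GQ) (hσ : σ b = b) : chi (p := p) ζ y σ = 0 ↔ σ y = y := by
  have : NeZero p := ⟨hp.ne_zero⟩
  constructor
  · intro h0
    have := chiF_spec hp hζ hy hb σ hσ
    rwa [h0, ZMod.val_zero, pow_zero, one_mul] at this
  · intro h0
    have := chiF_unique hp hζ (rt_ne_zero hp hy hb) σ 0 (by rw [h0, pow_zero, one_mul])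
    simpa using this

theorem chiF_mul (hp : p.Prime) (hζ : IsPrimitiveRoot ζ p) (hy : y ^ p = b) (hb : b ≠ 0)
    (hy' : y' ^ p = b') (hb' : b' ≠ 0) (σ : GQ) (hσ : σ b = b) (hσ' : σ b' = b') :
    chi (p := p) ζ (y * y') σ = chi ζ y σ + chi ζ y' σ := by
  have : NeZero p := ⟨hp.ne_zero⟩
  have := chiF_unique hp hζ (mul_ne_zero (rt_ne_zero hp hy hb) (rt_ne_zero hp hy' hb')) σ
    ((chi (p := p) ζ y σ).val + (chi (p := p) ζ y' σ).val) (by
    rw [map_mul, chiF_spec hp hζ hy hb σ hσ, chiF_spec hp hζ hy' hb' σ hσ', pow_add]; ring)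
  rw [this]; push_cast; simp

theorem chiF_pow (hp : p.Prime) (hζ : IsPrimitiveRoot ζ p) (hy : y ^ p = b) (hb : b ≠ 0) (k : ℕ)
    (σ : GQ) (hσ : σ b = b) :
    chi (p := p) ζ (y ^ k) σ = (k : ZMod p) * chi (p := p) ζ y σ := by
  have : NeZero p := ⟨hp.ne_zero⟩
  have := chiF_unique hp hζ (pow_ne_zero k (rt_ne_zero hp hy hb)) σ
    (k * (chi (p := p) ζ y σ).val) (by
    rw [map_pow, chiF_spec hp hζ hy hb σ hσ, mul_pow, ← pow_mul]; ring)
  rw [this]; push_cast; simp

theorem chiF_homOn (hp : p.Prime) (hζ : IsPrimitiveRoot ζ p) (hy : y ^ p = b) (hb : b ≠ 0)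
    (P : Subgroup GQ) (hP : ∀ σ ∈ P, σ ζ = ζ) (hPb : ∀ σ ∈ P, σ b = b) :
    HomOn P (chi (p := p) ζ y) := by
  have : NeZero p := ⟨hp.ne_zero⟩
  intro g hg g' hg'
  have := chiF_unique hp hζ (rt_ne_zero hp hy hb) (g * g')
    ((chi (p := p) ζ y g).val + (chi (p := p) ζ y g').val) (by
    rw [AlgEquiv.mul_apply, chiF_spec hp hζ hy hb g' (hPb g' hg'), map_mul, map_pow, hP g hg,
      chiF_spec hp hζ hy hb g (hPb g hg), pow_add]; ring)
  rw [this]; push_cast; simp

theorem chiF_lcOn (P : Subgroup GQ) : LCOn P (chi (p := p) ζ y) := by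
  refine ⟨(IntermediateField.adjoin ℚ {y}).fixingSubgroup, ?_, ?_⟩
  · have : FiniteDimensional ℚ (IntermediateField.adjoin ℚ {y}) :=
      IntermediateField.adjoin.finiteDimensional (Algebra.IsAlgebraic.isAlgebraic y).isIntegral
    exact IntermediateField.fixingSubgroup_isOpen _
  · intro g _ u hu _
    have hu' : u y = y := by
      rw [IntermediateField.mem_fixingSubgroup_iff] at hu
      exact hu y (IntermediateField.mem_adjoin_simple_self ℚ y)
    have hgu : (g * u) y = g y := by rw [AlgEquiv.mul_apply, hu']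
    unfold chi
    rw [hgu]

end chiF

/-! ### the maximal ideals of `ZF F` below maximal ideals of `ZO` -/

variable (F : IntermediateField ℚ Om)

theorem fix_F {F : IntermediateField ℚ Om} {t : GQ} (ht : t ∈ F.fixingSubgroup) (x : Om)
    (hx : x ∈ F) : t x = x := by
  rw [IntermediateField.mem_fixingSubgroup_iff] at ht
  exact ht x hx

variable {F}

theorem mem_comap_iff (B : Ideal ZO) (z : ZF F) : z ∈ B.comap (iota F) ↔ iota F z ∈ B := Iff.rfl

/-- the value of Kummer characters in terms of a local uniformizer `π` -/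
theorem val_aux (hp : p.Prime) (hζ : IsPrimitiveRoot ζ p) (B : Ideal ZO) (hB : B.IsMaximal)
    (hpB : (p : ZO) ∉ B) (t : GQ) (ht : t ∈ B.inertia GQ) (htF : t ∈ F.fixingSubgroup)
    (π : ZF F) (hπ : π ≠ 0) (z : Om) (hz : z ^ p = π.val) (b : ZF F) (hb : b ≠ 0) (y : Om)
    (hy : y ^ p = b.val) (n : ℕ) (r w : ZF F) (hr : r ∉ B.comap (iota F))
    (hw : w ∉ B.comap (iota F)) (h : r * b = π ^ n * w) :
    chi (p := p) ζ y t = (n : ZMod p) * chi (p := p) ζ z t := by
  have : Fact p.Prime := ⟨hp⟩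
  have hval : ∀ x : ZF F, t x.val = x.val := fun x => fix_F htF _ (ZF_val_mem x)
  have hval0 : ∀ x : ZF F, x ≠ 0 → x.val ≠ 0 := fun x hx hx' => hx (ZF_val_inj x 0 hx')
  have hmul : ∀ x x' : ZF F, (x * x').val = x.val * x'.val := fun _ _ => rfl
  have hpow : ∀ (x : ZF F) (k : ℕ), (x ^ k).val = x.val ^ k := by
    intro x k
    induction k with
    | zero => rfl
    | succ k ih => rw [pow_succ, pow_succ, hmul, ih]
  have hzk : (z ^ (n * (p - 1))) ^ p = (π ^ (n * (p - 1))).val := by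
    rw [hpow, ← hz, ← pow_mul, ← pow_mul, mul_comm]
  have hfix : t (y * z ^ (n * (p - 1))) = y * z ^ (n * (p - 1)) := by
    refine inertia_fix_div hp B hB hpB t ht (y * z ^ (n * (p - 1))) (π ^ n).val (iota F r)
      (iota F (b * π ^ (n * (p - 1)))) (iota F w) (hval r) (hval w) (hval _) hr hw
      (hval0 _ (pow_ne_zero _ hπ)) ?_ ?_
    · rw [mul_pow, hy, hzk]; rfl
    · have e : r * (b * π ^ (n * (p - 1))) = (π ^ n) ^ p * w := by
        have e1 : (π ^ n) ^ p = π ^ n * π ^ (n * (p - 1)) := by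
          rw [← pow_mul, ← pow_add]
          congr 1
          obtain ⟨k, hk⟩ : ∃ k, p = k + 1 := ⟨p - 1, by have := hp.pos; omega⟩
          rw [hk, Nat.add_sub_cancel]; ring
        rw [e1, ← mul_assoc, h]; ring
      have e2 := congrArg ZF.val e
      rw [hmul, hmul, hpow] at e2
      exact e2
  have h1 : chi (p := p) ζ (y * z ^ (n * (p - 1))) t = 0 :=
    (chiF_zero_iff hp hζ (b := (b * π ^ (n * (p - 1))).val) (by rw [mul_pow, hy, hzk, hmul])
      (hval0 _ (mul_ne_zero hb (pow_ne_zero _ hπ))) t (hval _)).2 hfix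
  rw [chiF_mul hp hζ hy (hval0 _ hb) hzk (hval0 _ (pow_ne_zero _ hπ)) t (hval _) (hval _),
    chiF_pow hp hζ hz (hval0 _ hπ) _ t (hval _)] at h1
  have h2 : ((n * (p - 1) : ℕ) : ZMod p) = -(n : ZMod p) := by
    rw [Nat.cast_mul, Nat.cast_sub hp.one_le]
    simp
  rw [h2] at h1
  linear_combination h1

/-- away from `p` the Kummer characters are multiples of one function on the inertia group -/
theorem exists_kappa [FiniteDimensional ℚ F] (hp : p.Prime) (hζ : IsPrimitiveRoot ζ p)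
    (B : Ideal ZO) (hB : B.IsMaximal) (hpB : (p : ZO) ∉ B) :
    ∃ z : Om, ∀ t ∈ B.inertia GQ, t ∈ F.fixingSubgroup → ∀ (b : ZF F) (y : Om), b ≠ 0 →
      y ^ p = b.val → chi (p := p) ζ y t =
        (multiplicity (B.comap (iota F)) (Ideal.span {b}) : ZMod p) * chi (p := p) ζ z t := by
  obtain ⟨l, hl, hlB, -⟩ := exists_prime_mem B hB
  have hq0 : B.comap (iota F) ≠ ⊥ := by
    intro h
    have h1 : (l : ZF F) ∈ B.comap (iota F) := by rw [mem_comap_iff, map_natCast]; exact hlB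
    rw [h, Ideal.mem_bot] at h1
    exact natCast_ne_zero F hl.ne_zero h1
  obtain ⟨π, -, hπ0, hπ⟩ := exists_uniformizer (B.comap (iota F)) (comap_max F B hB) hq0
  obtain ⟨z, hz⟩ := IsAlgClosed.exists_pow_nat_eq π.val hp.pos
  refine ⟨z, fun t ht htF b y hb hy => ?_⟩
  obtain ⟨r, w, hr, hw, hrw⟩ := hπ b hb
  exact val_aux hp hζ B hB hpB t ht htF π hπ0 z hz b hb y hy _ r w hr hw hrw

/-- above good primes `l`: values in terms of the root of `l` -/
theorem val_good [FiniteDimensional ℚ F] (hp : p.Prime) (hζ : IsPrimitiveRoot ζ p)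
    (B : Ideal ZO) (hB : B.IsMaximal) (hpB : (p : ZO) ∉ B) {l : ℕ} (hl : l.Prime)
    (hgood : Good F l) (hlB : (l : ZO) ∈ B) (z : Om) (hz : z ^ p = (l : Om))
    (t : GQ) (ht : t ∈ B.inertia GQ) (htF : t ∈ F.fixingSubgroup) (b : ZF F) (y : Om) (hb : b ≠ 0)
    (hy : y ^ p = b.val) : chi (p := p) ζ y t =
        (multiplicity (B.comap (iota F)) (Ideal.span {b}) : ZMod p) * chi (p := p) ζ z t := by
  obtain ⟨r, w, hr, hw, hrw⟩ := good_unram F hl hgood (B.comap (iota F)) (comap_max F B hB)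
    (by rw [mem_comap_iff, map_natCast]; exact hlB) b hb
  exact val_aux hp hζ B hB hpB t ht htF (l : ZF F) (natCast_ne_zero F hl.ne_zero) z
    (by rw [hz, ZF_natCast_val]) b hb y hy _ r w hr hw hrw

end OzakiFree
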