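import Pool.Agent.Lib.MP_6e8030_nt.GCore

open IntermediateField
open scoped ComplexConjugate

noncomputable section

namespace OzakiFree

variable {p : ℕ} {ζ : Om} {F : IntermediateField ℚ Om}

/-- the `k_∞` of `k = F(a^{1/p})` -/
abbrev KF (p : ℕ) (F : IntermediateField ℚ Om) (a : ZF F) : IntermediateField ℚ Om :=
  cycZp p (radExt p F a)

/-- `Gal(Om/F_∞)` -/
def PF (p : ℕ) (F : IntermediateField ℚ Om) : Subgroup GQ := PP p ⊓ F.fixingSubgroup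

theorem val_ne_zero {b : ZF F} (hb : b ≠ 0) : b.val ≠ 0 := fun h => hb (ZF_val_inj b 0 h)

theorem PF_fix_val {t : GQ} (ht : t ∈ PF p F) (b : ZF F) : t b.val = b.val :=
  fix_F ht.2 _ (ZF_val_mem b)

theorem stable_of_conj (K : IntermediateField ℚ Om) (g : GQ)
    (hK : ∀ σ ∈ K.fixingSubgroup, g⁻¹ * σ * g ∈ K.fixingSubgroup) : ∀ x ∈ K, g x ∈ K := by
  intro x hx
  have h : ∀ σ ∈ K.fixingSubgroup, σ (g x) = g x := by
    intro σ hσ
    have h1 := hK σ hσ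
    rw [IntermediateField.mem_fixingSubgroup_iff] at h1
    have h2 := h1 x hx
    rw [AlgEquiv.mul_apply, AlgEquiv.mul_apply] at h2
    have h3 := congrArg g h2
    rwa [apply_inv_self] at h3
  rw [← InfiniteGalois.fixedField_fixingSubgroup K]
  rintro ⟨σ, hσ⟩
  exact h σ hσ

section

theorem mem_KF (hp : p.Prime) (hζ : IsPrimitiveRoot ζ p) (hμ : ∀ x : Om, x ^ p = 1 → x ∈ F)
    {a : ZF F} (ha : a ≠ 0) {y₀ : Om} (h0 : y₀ ^ p = a.val) (σ : GQ) :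
    σ ∈ (KF p F a).fixingSubgroup ↔ σ ∈ PF p F ∧ chi (p := p) ζ y₀ σ = 0 := by
  have hle : F ≤ radExt p F a := le_sup_left
  rw [mem_cycZp hp _ (fun x hx => hle (hμ x hx))]
  have hfix : (radExt p F a).fixingSubgroup =
      F.fixingSubgroup ⊓ (adjoin ℚ {x : Om | x ^ p = a.val}).fixingSubgroup :=
    IntermediateField.fixingSubgroup_sup
  rw [hfix, Subgroup.mem_inf, mem_fix_adjoin]
  constructor
  · rintro ⟨h1, h2, h3⟩
    exact ⟨⟨h1, h2⟩, (chiF_zero_iff hp hζ h0 (val_ne_zero ha) σ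
      (fix_F h2 _ (ZF_val_mem a))).2 (h3 y₀ h0)⟩
  · rintro ⟨⟨h1, h2⟩, h3⟩
    have h4 := (chiF_zero_iff hp hζ h0 (val_ne_zero ha) σ (fix_F h2 _ (ZF_val_mem a))).1 h3
    refine ⟨h1, h2, fun x hx => ?_⟩
    have hy0 := rt_ne_zero hp h0 (val_ne_zero ha)
    have h5 : σ (x / y₀) = x / y₀ := by
      refine fix_F h2 _ (hμ _ ?_)
      rw [div_pow, hx, h0, div_self (val_ne_zero ha)]
    rw [map_div₀, h4] at h5
    exact (div_left_inj' hy0).1 h5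

theorem PF_homOn (hp : p.Prime) (hζ : IsPrimitiveRoot ζ p) {b : ZF F} (hb : b ≠ 0) {y : Om}
    (hy : y ^ p = b.val) : HomOn (PF p F) (chi (p := p) ζ y) :=
  chiF_homOn hp hζ hy (val_ne_zero hb) _ (fun σ hσ => PP_fix_root σ hσ.1 ζ hζ.pow_eq_one)
    (fun σ hσ => PF_fix_val hσ b)

/-- inertia at `p` -/
theorem fix_at_p (hp : p.Prime) (B : Ideal ZO) (hB : B.IsMaximal) (hpB : (p : ZO) ∈ B)
    (t : GQ) (ht : t ∈ B.inertia GQ) (htP : t ∈ PF p F) {b : ZF F} {y : Om}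
    (hy : y ^ p = b.val)
    (hmod : ∃ c d e f : ZF F, b = c ^ p + (p : ZF F) ^ 2 * d ∧ e * c + f * (p : ZF F) = 1) :
    t y = y := by
  obtain ⟨c, d, e, f, h1, h2⟩ := hmod
  refine inertia_fix_p hp B hB hpB t ht (fun ξ hξ => PP_fix_root t htP.1 ξ hξ) y (iota F b)
    (iota F c) (iota F d) (PF_fix_val htP c) (PF_fix_val htP b) ?_ ?_ hy
  · intro hc
    have h3 := congrArg (iota F) h2
    rw [map_add, map_mul, map_mul, map_natCast, map_one] at h3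
    apply hB.ne_top
    rw [Ideal.eq_top_iff_one, ← h3]
    exact B.add_mem (B.mul_mem_left _ hc) (B.mul_mem_left _ hpB)
  · rw [h1, map_add, map_mul, map_pow, map_pow, map_natCast]

/-- complex conjugations -/
theorem fix_conj (φ : Om →+* ℂ) (c : GQ) (hc : ∀ x, φ (c x) = conj (φ x))
    (hcF : c ∈ F.fixingSubgroup) {b : ZF F} {y : Om} (hy : y ^ 2 = b.val)
    (hpos : ∀ φ : FL F →+* ℝ, 0 < φ b.1) : c y = y := by
  let φF : FL F →+* ℂ := φ.comp (FLhom F)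
  have hreal : NumberField.ComplexEmbedding.IsReal φF := by
    ext x
    show conj (φ x.val) = φ x.val
    rw [← hc]
    exact congrArg φ (fix_F hcF _ x.2)
  have hb : φ b.val = ((hreal.embedding b.1 : ℝ) : ℂ) :=
    (NumberField.ComplexEmbedding.IsReal.coe_embedding_apply hreal b.1).symm
  have h1 := hpos hreal.embedding
  apply φ.injective
  rw [hc]
  have h2 : (φ y) ^ 2 = ((Real.sqrt (hreal.embedding b.1) : ℝ) : ℂ) ^ 2 := by
    rw [← map_pow, hy, hb, ← Complex.ofReal_pow, Real.sq_sqrt h1.le]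
  rcases sq_eq_sq_iff_eq_or_eq_neg.1 h2 with h | h
  · rw [h, Complex.conj_ofReal]
  · rw [h, map_neg, Complex.conj_ofReal]

theorem chi_RL_F [FiniteDimensional ℚ F] (hp : p.Prime) (hζ : IsPrimitiveRoot ζ p)
    (hμ : ∀ x : Om, x ^ p = 1 → x ∈ F)
    {a : ZF F} (ha : a ≠ 0) {y₀ : Om} (h0 : y₀ ^ p = a.val) {b : ZF F} (hb : b ≠ 0) {y : Om}
    (hy : y ^ p = b.val)
    (hdiv : ∀ q : Ideal (ZF F), q.IsMaximal → ¬ p ∣ multiplicity q (Ideal.span {b}) →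
      ¬ p ∣ multiplicity q (Ideal.span {a}))
    (hmod : ∃ c d e f : ZF F, b = c ^ p + (p : ZF F) ^ 2 * d ∧ e * c + f * (p : ZF F) = 1)
    (hpos : p = 2 → ∀ φ : FL F →+* ℝ, 0 < φ b.1) :
    ∀ r ∈ RL p (KF p F a), chi (p := p) ζ y r = 0 := by
  intro r hr
  have hF : F ≤ KF p F a := by
    intro x hx
    rw [← InfiniteGalois.fixedField_fixingSubgroup (KF p F a)]
    rintro ⟨σ, hσ⟩
    exact fix_F ((mem_KF hp hζ hμ ha h0 σ).1 hσ).1.2 x hx
  have hrF : r b.val = b.val := by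
    have := RL_le p _ hr
    exact fix_F ((mem_KF hp hζ hμ ha h0 r).1 this).1.2 _ (ZF_val_mem b)
  rw [chiF_zero_iff hp hζ hy (val_ne_zero hb) r hrF]
  refine fix_of_mem_RL hp (KF p F a) (fun ξ hξ => hF (hμ ξ hξ)) y ?_ ?_ ?_ r hr
  · rw [hy]; exact hF (ZF_val_mem b)
  · intro B hB t ht htK
    rw [mem_KF hp hζ hμ ha h0] at htK
    by_cases hpB : (p : ZO) ∈ B
    · exact fix_at_p hp B hB hpB t ht htK.1 hy hmod
    · obtain ⟨z, hz⟩ := exists_kappa (F := F) hp hζ B hB hpB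
      have e0 := hz t ht htK.1.2 a y₀ ha h0
      have e1 := hz t ht htK.1.2 b y hb hy
      have : Fact p.Prime := ⟨hp⟩
      rw [← chiF_zero_iff hp hζ hy (val_ne_zero hb) t (PF_fix_val htK.1 b), e1]
      rw [htK.2] at e0
      by_cases hv : p ∣ multiplicity (B.comap (iota F)) (Ideal.span {b})
      · rw [(ZMod.natCast_eq_zero_iff _ _).2 hv, zero_mul]
      · have hv' := hdiv _ (comap_max F B hB) hv
        rcases mul_eq_zero.1 e0.symm with h | h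
        · exact absurd ((ZMod.natCast_eq_zero_iff _ _).1 h) hv'
        · rw [h, mul_zero]
  · intro φ c hc hcK
    rw [mem_KF hp hζ hμ ha h0] at hcK
    by_cases h2 : p = 2
    · subst h2
      exact fix_conj φ c hc hcK.1.2 hy (hpos rfl)
    · exact absurd hcK.1.1 (conj_not_mem_PP hp h2 φ c hc hζ)

theorem coreF [FiniteDimensional ℚ F] (hp : p.Prime) (hζ : IsPrimitiveRoot ζ p)
    (hμ : ∀ x : Om, x ^ p = 1 → x ∈ F)
    {a : ZF F} (ha : a ≠ 0) {y₀ : Om} (h0 : y₀ ^ p = a.val)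
    {b₁ : ZF F} (hb₁ : b₁ ≠ 0) {y₁ : Om} (hy₁ : y₁ ^ p = b₁.val)
    {b₂ : ZF F} (hb₂ : b₂ ≠ 0) {y₂ : Om} (hy₂ : y₂ ^ p = b₂.val)
    (hfree : FreeGal p (KF p F a))
    (r₁ : ∀ r ∈ RL p (KF p F a), chi (p := p) ζ y₁ r = 0)
    (r₂ : ∀ r ∈ RL p (KF p F a), chi (p := p) ζ y₂ r = 0)
    (B : Ideal ZO) (hB : B.IsMaximal) (t : GQ) (ht : t ∈ B.inertia GQ) (htP : t ∈ PF p F)
    (hc : chi (p := p) ζ y₀ t ≠ 0) :
    ∃ ψ : GQ → ZMod p, HomOn (PF p F) ψ ∧ LCOn (PF p F) ψ ∧ (∀ r ∈ RL p (KF p F a), ψ r = 0) ∧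
      ∀ t ∈ PF p F, chi (p := p) ζ y₀ t ≠ 0 → t ^ p ∈ RL p (KF p F a) →
        chi (p := p) ζ y₀ t * ψ t = chi (p := p) ζ y₁ t * chi (p := p) ζ y₂ t := by
  have : Fact p.Prime := ⟨hp⟩
  have hhom := PF_homOn hp hζ ha h0
  have h00 : chi (p := p) ζ y₀ 1 = 0 := by
    rw [chiF_zero_iff hp hζ h0 (val_ne_zero ha) 1 rfl]; rfl
  have hpow : ∀ k : ℕ, chi (p := p) ζ y₀ (t ^ k) = k * chi (p := p) ζ y₀ t := by
    intro k
    induction k with
    | zero => rw [pow_zero, Nat.cast_zero, zero_mul, h00]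
    | succ k ih =>
      rw [pow_succ, hhom _ ((PF p F).pow_mem htP k) _ htP, ih]; push_cast; ring
  have hneg : ∀ g ∈ PF p F, chi (p := p) ζ y₀ g⁻¹ = - chi (p := p) ζ y₀ g := by
    intro g hg
    have := hhom g hg g⁻¹ ((PF p F).inv_mem hg)
    rw [mul_inv_cancel, h00] at this
    exact (neg_eq_of_add_eq_zero_right this.symm).symm
  set m := ((chi (p := p) ζ y₀ t)⁻¹).val with hm
  have ht01 : chi (p := p) ζ y₀ (t ^ m) = 1 := by
    rw [hpow, hm, ZMod.natCast_val, ZMod.cast_id', id, inv_mul_cancel₀ hc]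
  have htm : t ^ m ∈ PF p F := (PF p F).pow_mem htP m
  have htR : (t ^ m) ^ p ∈ RL p (KF p F a) := by
    refine inertia_mem_RL p _ B hB _ ((B.inertia GQ).pow_mem ((B.inertia GQ).pow_mem ht m) p) ?_
    rw [mem_KF hp hζ hμ ha h0]
    refine ⟨(PF p F).pow_mem htm p, ?_⟩
    rw [← pow_mul, hpow]; push_cast; simp
  have hconj : ∀ g ∈ PF p F, ∀ σ ∈ (KF p F a).fixingSubgroup,
      g⁻¹ * σ * g ∈ (KF p F a).fixingSubgroup := by
    intro g hg σ hσ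
    rw [mem_KF hp hζ hμ ha h0] at hσ ⊢
    refine ⟨(PF p F).mul_mem ((PF p F).mul_mem ((PF p F).inv_mem hg) hσ.1) hg, ?_⟩
    rw [hhom _ ((PF p F).mul_mem ((PF p F).inv_mem hg) hσ.1) _ hg,
      hhom _ ((PF p F).inv_mem hg) _ hσ.1, hneg g hg, hσ.2]
    ring
  obtain ⟨L1, L2⟩ := lifts_of_free (p := p) (KF p F a) hfree
  refine lemmaA (PF p F) (KF p F a).fixingSubgroup (RL p (KF p F a)) (chi ζ y₀) (chi ζ y₁)
    (chi ζ y₂) hhom (PF_homOn hp hζ hb₁ hy₁) (PF_homOn hp hζ hb₂ hy₂) (chiF_lcOn _) (chiF_lcOn _)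
    (chiF_lcOn _) (fun g => mem_KF hp hζ hμ ha h0 g) (RL_le p _) ?_ r₁ r₂ L1 L2
    (t ^ m) htm ht01 htR
  intro g hg r hr
  refine RL_conj p _ g (stable_of_conj _ g (hconj g hg)) (stable_of_conj _ g⁻¹ ?_) r hr
  intro σ hσ
  exact hconj g⁻¹ ((PF p F).inv_mem hg) σ hσ

/-- values of the product character on inertia elements -/
theorem inertia_formulaF (hp : p.Prime) (hζ : IsPrimitiveRoot ζ p)
    (hμ : ∀ x : Om, x ^ p = 1 → x ∈ F)
    {a : ZF F} (ha : a ≠ 0) {y₀ y₁ y₂ : Om} (h0 : y₀ ^ p = a.val)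
    (r₁ : ∀ r ∈ RL p (KF p F a), chi (p := p) ζ y₁ r = 0)
    (ψ : GQ → ZMod p) (hψR : ∀ r ∈ RL p (KF p F a), ψ r = 0)
    (hψ : ∀ t ∈ PF p F, chi (p := p) ζ y₀ t ≠ 0 → t ^ p ∈ RL p (KF p F a) →
        chi (p := p) ζ y₀ t * ψ t = chi (p := p) ζ y₁ t * chi (p := p) ζ y₂ t)
    (B : Ideal ZO) (hB : B.IsMaximal) (t : GQ) (ht : t ∈ B.inertia GQ) (htP : t ∈ PF p F) :
    (chi (p := p) ζ y₀ t = 0 → ψ t = 0) ∧
    chi (p := p) ζ y₀ t * ψ t = chi (p := p) ζ y₁ t * chi (p := p) ζ y₂ t := by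
  have : Fact p.Prime := ⟨hp⟩
  have hhom := PF_homOn hp hζ ha h0
  by_cases hc : chi (p := p) ζ y₀ t = 0
  · have htR : t ∈ RL p (KF p F a) :=
      inertia_mem_RL p _ B hB t ht ((mem_KF hp hζ hμ ha h0 t).2 ⟨htP, hc⟩)
    refine ⟨fun _ => hψR t htR, ?_⟩
    rw [hψR t htR, r₁ t htR]; ring
  · refine ⟨fun h => absurd h hc, hψ t htP hc ?_⟩
    refine inertia_mem_RL p _ B hB _ ((B.inertia GQ).pow_mem ht p) ?_
    rw [mem_KF hp hζ hμ ha h0]
    refine ⟨(PF p F).pow_mem htP p, ?_⟩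
    have hpow : ∀ k : ℕ, chi (p := p) ζ y₀ (t ^ k) = k * chi (p := p) ζ y₀ t := by
      intro k
      induction k with
      | zero =>
        rw [pow_zero, Nat.cast_zero, zero_mul, chiF_zero_iff hp hζ h0 (val_ne_zero ha) 1 rfl]; rfl
      | succ k ih =>
        rw [pow_succ, hhom _ ((PF p F).pow_mem htP k) _ htP, ih]; push_cast; ring
    rw [hpow]; simp

end

end OzakiFree
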