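import Pool.Agent.Lib.MP_6e8030_nt.GMain

open IntermediateField
open scoped ComplexConjugate

noncomputable section

namespace OzakiFree

variable {p : ℕ} {ζ : Om} {F : IntermediateField ℚ Om}

open Classical in
/-- the cyclotomic character modulo `p` -/
def cyc (p : ℕ) (ζ : Om) (g : GQ) : ZMod p := if h : ∃ n : ℕ, g ζ = ζ ^ n then (h.choose : ZMod p) else 0

theorem cyc_spec (hp : p.Prime) (hζ : IsPrimitiveRoot ζ p) (g : GQ) :
    ∃ n : ℕ, g ζ = ζ ^ n ∧ cyc p ζ g = (n : ZMod p) := by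
  have : NeZero p := ⟨hp.ne_zero⟩
  have hex : ∃ n : ℕ, g ζ = ζ ^ n := by
    obtain ⟨i, -, hi⟩ := hζ.eq_pow_of_pow_eq_one (ξ := g ζ) (by
      rw [← map_pow, hζ.pow_eq_one, map_one])
    exact ⟨i, hi.symm⟩
  refine ⟨hex.choose, hex.choose_spec, ?_⟩
  unfold cyc
  rw [dif_pos hex]

theorem cyc_mul (hp : p.Prime) (hζ : IsPrimitiveRoot ζ p) (h : GQ) (hh : h ζ = ζ) (g : GQ) :
    cyc p ζ (h * g) = cyc p ζ g := by
  have : NeZero p := ⟨hp.ne_zero⟩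
  obtain ⟨n, h1, h2⟩ := cyc_spec hp hζ g
  obtain ⟨m, h3, h4⟩ := cyc_spec hp hζ (h * g)
  rw [AlgEquiv.mul_apply, h1, map_pow, hh] at h3
  rw [h2, h4]
  rw [← pow_val_eq hζ n, ← pow_val_eq hζ m] at h3
  have h5 := hζ.pow_inj (ZMod.val_lt _) (ZMod.val_lt _) h3
  exact (ZMod.val_injective p h5).symm

theorem key [FiniteDimensional ℚ F] (hp : p.Prime) (hζ : IsPrimitiveRoot ζ p)
    (hμ : ∀ x : Om, x ^ p = 1 → x ∈ F)
    (a : ZF F) (ha : a ≠ 0) (q₁ q₂ q₃ : Ideal (ZF F)) (m₁ : q₁.IsMaximal)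
    (n₁₂ : q₁ ≠ q₂) (n₁₃ : q₁ ≠ q₃) (n₂₃ : q₂ ≠ q₃) {l : ℕ} (hl : l.Prime) (hlp : l ≠ p)
    (hcard : Nat.card (ZF F ⧸ q₁) = l) (hmod : ¬ l ≡ 1 [MOD p ^ 2]) (hgood : Good F l)
    (v₁ : ¬ p ∣ multiplicity q₁ (Ideal.span {a})) (v₂ : ¬ p ∣ multiplicity q₂ (Ideal.span {a}))
    (v₃ : ¬ p ∣ multiplicity q₃ (Ideal.span {a})) (b₁ b₂ : ZF F)
    (P₁ : PairElt (FL F) p q₁ q₂ b₁) (P₂ : PairElt (FL F) p q₁ q₃ b₂) :
    ¬ FreeGal p (KF p F a) := by
  intro hfree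
  have hFp : Fact p.Prime := ⟨hp⟩
  obtain ⟨hb₁, d₁, e₁, f₁, g₁⟩ := P₁
  obtain ⟨hb₂, d₂, e₂, f₂, g₂⟩ := P₂
  have hb₁' : b₁ ≠ 0 := hb₁
  have hb₂' : b₂ ≠ 0 := hb₂
  have d₁' : ∀ q : Ideal (ZF F), q.IsMaximal → q ≠ q₁ → q ≠ q₂ →
      p ∣ multiplicity q (Ideal.span {b₁}) := d₁
  have d₂' : ∀ q : Ideal (ZF F), q.IsMaximal → q ≠ q₁ → q ≠ q₃ →
      p ∣ multiplicity q (Ideal.span {b₂}) := d₂
  have e₁' : multiplicity q₁ (Ideal.span {b₁}) ≡ 1 [MOD p] := e₁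
  have e₂' : multiplicity q₁ (Ideal.span {b₂}) ≡ 1 [MOD p] := e₂
  have f₁' : ∃ c d e f : ZF F, b₁ = c ^ p + (p : ZF F) ^ 2 * d ∧ e * c + f * (p : ZF F) = 1 := f₁
  have f₂' : ∃ c d e f : ZF F, b₂ = c ^ p + (p : ZF F) ^ 2 * d ∧ e * c + f * (p : ZF F) = 1 := f₂
  have g₁' : p = 2 → ∀ φ : FL F →+* ℝ, 0 < φ b₁.1 := g₁
  have g₂' : p = 2 → ∀ φ : FL F →+* ℝ, 0 < φ b₂.1 := g₂
  obtain ⟨y₀, h0⟩ := IsAlgClosed.exists_pow_nat_eq a.val hp.pos
  obtain ⟨y₁, h1⟩ := IsAlgClosed.exists_pow_nat_eq b₁.val hp.pos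
  obtain ⟨y₂, h2⟩ := IsAlgClosed.exists_pow_nat_eq b₂.val hp.pos
  obtain ⟨z, hz⟩ := IsAlgClosed.exists_pow_nat_eq (l : Om) hp.pos
  have hz' : IsRt p z (l : ℤ) := ⟨by rw [hz]; simp, by exact_mod_cast hl.ne_zero⟩
  have r₁ := chi_RL_F hp hζ hμ ha h0 hb₁' h1 (fun q hq h => by
    by_cases c1 : q = q₁
    · rw [c1]; exact v₁
    · by_cases c2 : q = q₂
      · rw [c2]; exact v₂
      · exact absurd (d₁' q hq c1 c2) h) f₁' g₁'
  have r₂ := chi_RL_F hp hζ hμ ha h0 hb₂' h2 (fun q hq h => by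
    by_cases c1 : q = q₁
    · rw [c1]; exact v₁
    · by_cases c2 : q = q₃
      · rw [c2]; exact v₃
      · exact absurd (d₂' q hq c1 c2) h) f₂' g₂'
  -- an inertia element above `q₁`
  have hlq : (l : ZF F) ∈ q₁ := card_mem q₁ hcard
  have hpq : (p : ZF F) ∉ q₁ := not_both_mem q₁ m₁ hl hp hlp hlq
  have hBl : ∀ B : Ideal ZO, B.comap (iota F) = q₁ → (l : ZO) ∈ B := by
    intro B hB
    have : (l : ZF F) ∈ B.comap (iota F) := by rw [hB]; exact hlq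
    rw [mem_comap_iff, map_natCast] at this
    exact this
  obtain ⟨B₁, hB₁, hB₁q⟩ := exists_over F q₁ m₁
  have hlB₁ : (l : ZO) ∈ B₁ := hBl B₁ hB₁q
  have hpB₁ : (p : ZO) ∉ B₁ := not_mem_of_prime hl hp hlp B₁ hB₁ hlB₁
  obtain ⟨t₁, ht₁, hmove⟩ := inertia_moves hp hl hlp z hz B₁ hB₁ hlB₁
  have ht₁F : t₁ ∈ F.fixingSubgroup := good_fix hgood B₁ hB₁ hlB₁ t₁ ht₁
  have ht₁P : t₁ ∈ PF p F := ⟨inertia_mem_PP hp B₁ hB₁ hpB₁ t₁ ht₁, ht₁F⟩
  have he : ((multiplicity q₁ (Ideal.span {a}) : ℕ) : ZMod p) ≠ 0 := by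
    rwa [Ne, ZMod.natCast_eq_zero_iff]
  have hmult₁ : ((multiplicity q₁ (Ideal.span {b₁}) : ℕ) : ZMod p) = 1 := by
    rw [← Nat.cast_one, ZMod.natCast_eq_natCast_iff]; exact e₁'
  have hmult₂ : ((multiplicity q₁ (Ideal.span {b₂}) : ℕ) : ZMod p) = 1 := by
    rw [← Nat.cast_one, ZMod.natCast_eq_natCast_iff]; exact e₂'
  have hχ₁ : chi (p := p) ζ z t₁ ≠ 0 := fun h => hmove ((chi_eq_zero_iff hp hζ hz' t₁).1 h)
  have hc₁ : chi (p := p) ζ y₀ t₁ ≠ 0 := by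
    rw [val_good hp hζ B₁ hB₁ hpB₁ hl hgood hlB₁ z hz t₁ ht₁ ht₁F a y₀ ha h0, hB₁q]
    exact mul_ne_zero he hχ₁
  obtain ⟨ψ, hψ1, hψ2, hψ3, hψ4⟩ := coreF hp hζ hμ ha h0 hb₁' h1 hb₂' h2 hfree r₁ r₂ B₁ hB₁ t₁
    ht₁ ht₁P hc₁
  have hform := fun (B : Ideal ZO) (hB : B.IsMaximal) (t : GQ) (ht : t ∈ B.inertia GQ)
    (htP : t ∈ PF p F) => inertia_formulaF hp hζ hμ ha h0 r₁ ψ hψ3 hψ4 B hB t ht htP
  set c : ZMod p := 1 / ((multiplicity q₁ (Ideal.span {a}) : ℕ) : ZMod p) with hcdef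
  have hc : c ≠ 0 := div_ne_zero one_ne_zero he
  -- (A)
  have hA : ∀ B : Ideal ZO, B.IsMaximal → B.comap (iota F) = q₁ → ∀ t ∈ B.inertia GQ,
      t ∈ PF p F → ψ t = c * chi (p := p) ζ z t := by
    intro B hB hBq t ht htP
    have hlB := hBl B hBq
    have hpB := not_mem_of_prime hl hp hlp B hB hlB
    obtain ⟨k1, k2⟩ := hform B hB t ht htP
    have w0 := val_good hp hζ B hB hpB hl hgood hlB z hz t ht htP.2 a y₀ ha h0
    have w1 := val_good hp hζ B hB hpB hl hgood hlB z hz t ht htP.2 b₁ y₁ hb₁' h1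
    have w2 := val_good hp hζ B hB hpB hl hgood hlB z hz t ht htP.2 b₂ y₂ hb₂' h2
    rw [hBq] at w0 w1 w2
    rw [hmult₁, one_mul] at w1
    rw [hmult₂, one_mul] at w2
    by_cases hχ : chi (p := p) ζ z t = 0
    · rw [hχ, mul_zero]
      exact k1 (by rw [w0, hχ, mul_zero])
    · rw [w0, w1, w2] at k2
      rw [hcdef, div_mul_eq_mul_div, one_mul, eq_div_iff he]
      have : (chi (p := p) ζ z t) * (ψ t * ((multiplicity q₁ (Ideal.span {a}) : ℕ) : ZMod p)) =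
          (chi (p := p) ζ z t) * chi (p := p) ζ z t := by
        rw [← k2]; ring
      exact mul_left_cancel₀ hχ this
  -- (B)
  have hBz : ∀ B : Ideal ZO, B.IsMaximal → (p : ZO) ∉ B → B.comap (iota F) ≠ q₁ →
      ∀ t ∈ B.inertia GQ, t ∈ PF p F → ψ t = 0 := by
    intro B hB hpB hBq t ht htP
    obtain ⟨k1, k2⟩ := hform B hB t ht htP
    obtain ⟨z', hz'⟩ := exists_kappa (F := F) hp hζ B hB hpB
    have w1 := hz' t ht htP.2 b₁ y₁ hb₁' h1
    have w2 := hz' t ht htP.2 b₂ y₂ hb₂' h2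
    have hprod : chi (p := p) ζ y₁ t * chi (p := p) ζ y₂ t = 0 := by
      by_cases c2 : B.comap (iota F) = q₂
      · have c3 : B.comap (iota F) ≠ q₃ := fun h => n₂₃ (c2.symm.trans h)
        rw [w2, (ZMod.natCast_eq_zero_iff _ _).2 (d₂' _ (comap_max F B hB) hBq c3), zero_mul,
          mul_zero]
      · rw [w1, (ZMod.natCast_eq_zero_iff _ _).2 (d₁' _ (comap_max F B hB) hBq c2), zero_mul,
          zero_mul]
    rw [hprod] at k2
    rcases mul_eq_zero.1 k2 with h | h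
    · exact k1 h
    · exact h
  -- (C)
  have hC : ∀ B : Ideal ZO, B.IsMaximal → (p : ZO) ∈ B → ∀ t ∈ B.inertia GQ,
      t ∈ PF p F → ψ t = 0 := by
    intro B hB hpB t ht htP
    obtain ⟨k1, k2⟩ := hform B hB t ht htP
    have w := fix_at_p hp B hB hpB t ht htP h1 f₁'
    rw [(chiF_zero_iff hp hζ h1 (val_ne_zero hb₁') t (PF_fix_val htP b₁)).2 w, zero_mul] at k2
    rcases mul_eq_zero.1 k2 with h | h
    · exact k1 h
    · exact h
  -- (D)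
  have hD : p = 2 → ∀ (φ : Om →+* ℂ) (s : GQ), (∀ x, φ (s x) = conj (φ x)) →
      s ∈ F.fixingSubgroup → ψ s = 0 := by
    intro h φ s hs hsF
    subst h
    have hsP : s ∈ PF 2 F := ⟨conj_mem_PP2 φ s hs, hsF⟩
    by_cases hc0 : chi (p := 2) ζ y₀ s = 0
    · exact hψ3 s (conj_mem_RL 2 _ φ s hs ((mem_KF hp hζ hμ ha h0 s).2 ⟨hsP, hc0⟩))
    · have k3 := hψ4 s hsP hc0 (by rw [conj_sq φ s hs]; exact (RL 2 (KF 2 F a)).one_mem)
      have k4 := fix_conj φ s hs hsF h1 (g₁' rfl)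
      rw [(chiF_zero_iff hp hζ h1 (val_ne_zero hb₁') s (PF_fix_val hsP b₁)).2 k4, zero_mul] at k3
      rcases mul_eq_zero.1 k3 with h | h
      · exact absurd h hc0
      · exact h
  have hψone : ψ 1 = 0 := hψ3 1 (RL p (KF p F a)).one_mem
  -- transfer
  have hGopen : IsOpen (F.fixingSubgroup : Set GQ) := IntermediateField.fixingSubgroup_isOpen F
  have hGfin : F.fixingSubgroup.FiniteIndex := by
    have hq : Finite (GQ ⧸ F.fixingSubgroup) := Subgroup.quotient_finite_of_isOpen _ hGopen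
    exact Subgroup.finiteIndex_of_finite_quotient
  have hζP : ∀ h ∈ PP p, h ζ = ζ := fun h hh => PP_fix_root h hh ζ hζ.pow_eq_one
  obtain ⟨s, θ, hs, θ1, θ2, θ3, θ4⟩ := exists_transfer (PP p) F.fixingSubgroup PP_normal hGopen
    hGfin (cyc p ζ) (fun h hh g => cyc_mul hp hζ h (hζP h hh) g) ψ hψ1 hψ2
  have hint : ∀ (B : Ideal ZO), B.IsMaximal → ∀ t ∈ B.inertia GQ, t ∈ PP p → ∀ (g : GQ) (n : ℕ),
      ∃ B' : Ideal ZO, B'.IsMaximal ∧ (∀ x : ZO, x ∈ B' ↔ g • x ∈ B) ∧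
        g⁻¹ * t ^ n * g ∈ B'.inertia GQ ∧ g⁻¹ * t ^ n * g ∈ PP p := by
    intro B hB t ht htP g n
    obtain ⟨B', hB', hmem, hin⟩ := conj_inertia' B hB g
    refine ⟨B', hB', hmem, hin _ ((B.inertia GQ).pow_mem ht n), ?_⟩
    have := PP_normal.conj_mem _ ((PP p).pow_mem htP n) g⁻¹
    rwa [inv_inv] at this
  -- vanishing away from `l`
  have hvan : ∀ B : Ideal ZO, B.IsMaximal → (l : ZO) ∉ B → ∀ t ∈ B.inertia GQ, t ∈ PP p →
      θ t = 0 := by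
    intro B hB hlB t ht htP
    refine θ3 t htP fun g n _ hgG => ?_
    obtain ⟨B', hB', hmem, hin, hinP⟩ := hint B hB t ht htP g n
    have hlB' : (l : ZO) ∉ B' := by rw [hmem, smul_natCast']; exact hlB
    by_cases hpB' : (p : ZO) ∈ B'
    · exact hC B' hB' hpB' _ hin ⟨hinP, hgG⟩
    · exact hBz B' hB' hpB' (fun h => hlB' (hBl B' h)) _ hin ⟨hinP, hgG⟩
  have hpl : ∀ B : Ideal ZO, B.IsMaximal → (p : ZO) ∈ B → (l : ZO) ∉ B := fun B hB h =>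
    not_mem_of_prime hp hl (Ne.symm hlp) B hB h
  -- at `l`
  have hatl : ∀ B : Ideal ZO, B.IsMaximal → (l : ZO) ∈ B → ∀ t ∈ B.inertia GQ,
      θ t = c * chi (p := p) ζ z t := by
    intro B hB hlB t ht
    have hpB := not_mem_of_prime hl hp hlp B hB hlB
    have htP := inertia_mem_PP hp B hB hpB t ht
    have hconj : ∀ g : GQ, ∃ B' : Ideal ZO, B'.IsMaximal ∧ (∀ x : ZO, x ∈ B' ↔ g • x ∈ B) ∧
        g⁻¹ * t * g ∈ B'.inertia GQ ∧ g⁻¹ * t * g ∈ PF p F := by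
      intro g
      obtain ⟨B', hB', hmem, hin, hinP⟩ := hint B hB t ht htP g 1
      rw [pow_one] at hin hinP
      have hlB' : (l : ZO) ∈ B' := by rw [hmem, smul_natCast']; exact hlB
      exact ⟨B', hB', hmem, hin, hinP, good_fix hgood B' hB' hlB' _ hin⟩
    rw [θ4 t htP (fun g => by obtain ⟨-, -, -, -, h⟩ := hconj g; exact h.2)]
    have hiff : ∀ (g : GQ) (B' : Ideal ZO), (∀ x : ZO, x ∈ B' ↔ g • x ∈ B) →
        (B'.comap (iota F) = q₁ ↔ ∀ w : ZF F, w ∈ q₁ ↔ ∃ b ∈ B, (b : Om) = g w.val) := by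
      intro g B' hmem
      have e : ∀ w : ZF F, w ∈ B'.comap (iota F) ↔ ∃ b ∈ B, (b : Om) = g w.val := by
        intro w
        rw [mem_comap_iff, hmem]
        constructor
        · intro h; exact ⟨_, h, rfl⟩
        · rintro ⟨b, hb, hb'⟩
          have : b = g • (iota F w) := Subtype.ext hb'
          rw [← this]; exact hb
      constructor
      · intro h w; rw [← e w, h]
      · intro h
        ext w
        rw [e w, h w]
    have hterm : ∀ g : GQ, (∀ w : ZF F, w ∈ q₁ ↔ ∃ b ∈ B, (b : Om) = g w.val) →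
        cyc p ζ g * ψ (g⁻¹ * t * g) = c * chi (p := p) ζ z t := by
      intro g hg
      obtain ⟨B', hB'm, hmem, hin, hinP⟩ := hconj g
      rw [hA B' hB'm ((hiff g B' hmem).2 hg) _ hin hinP]
      obtain ⟨n, hn1, hn2⟩ := cyc_spec hp hζ g
      have h3 := chi_conj hp hζ hz' g (g⁻¹ * t * g) (hζP _ hinP.1) n hn1
      have h4 : g * (g⁻¹ * t * g) * g⁻¹ = t := by group
      rw [h4] at h3
      rw [h3, hn2]; ring
    have hterm0 : ∀ g : GQ, ¬ (∀ w : ZF F, w ∈ q₁ ↔ ∃ b ∈ B, (b : Om) = g w.val) →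
        cyc p ζ g * ψ (g⁻¹ * t * g) = 0 := by
      intro g hg
      obtain ⟨B', hB'm, hmem, hin, hinP⟩ := hconj g
      have hpB' : (p : ZO) ∉ B' := by rw [hmem, smul_natCast']; exact hpB
      rw [hBz B' hB'm hpB' (fun h => hg ((hiff g B' hmem).1 h)) _ hin hinP, mul_zero]
    obtain ⟨g₀, hg₀⟩ := exists_embedding F hl q₁ m₁ hlq B hB hlB
    have hagree : ∀ (g g' : GQ), (∀ x ∈ F, g x = g' x) →
        (∀ w : ZF F, w ∈ q₁ ↔ ∃ b ∈ B, (b : Om) = g w.val) →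
        (∀ w : ZF F, w ∈ q₁ ↔ ∃ b ∈ B, (b : Om) = g' w.val) := by
      intro g g' h hg w
      rw [hg w, h _ (ZF_val_mem w)]
    have hs₀ : ∀ x ∈ F, g₀ x = s (g₀ : GQ ⧸ F.fixingSubgroup) x := by
      intro x hx
      have h1 : ((s (g₀ : GQ ⧸ F.fixingSubgroup) : GQ) : GQ ⧸ F.fixingSubgroup) = g₀ := hs _
      rw [QuotientGroup.eq] at h1
      have h2 := fix_F h1 x hx
      rw [AlgEquiv.mul_apply] at h2
      have h3 := congrArg (s (g₀ : GQ ⧸ F.fixingSubgroup)) h2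
      rwa [apply_inv_self] at h3
    rw [finsum_eq_single _ (g₀ : GQ ⧸ F.fixingSubgroup)]
    · exact hterm _ (hagree g₀ _ hs₀ hg₀)
    · intro x hx
      apply hterm0
      intro h
      apply hx
      have h1 := embedding_unique F hl hgood q₁ m₁ hcard B hB hlB _ g₀ h hg₀
      rw [← hs x, QuotientGroup.eq, IntermediateField.mem_fixingSubgroup_iff]
      intro y hy
      rw [AlgEquiv.mul_apply, ← h1 y hy, inv_apply_self']
  -- the assembled properties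
  have T3 : ∀ B : Ideal (integralClosure ℤ Om), B.IsMaximal →
      (p : integralClosure ℤ Om) ∉ B → ∀ t ∈ B.inertia GQ, θ t = c * chi (p := p) ζ z t := by
    intro B hB hpB t ht
    by_cases hlB : (l : ZO) ∈ B
    · exact hatl B hB hlB t ht
    · rw [hvan B hB hlB t ht (inertia_mem_PP hp B hB hpB t ht)]
      have : t z = z := inertia_fix_kummer hp B hB hpB t ht z (l : ℤ) hz'.1 (by
        simpa using hlB)
      rw [(chi_eq_zero_iff hp hζ hz' t).2 this, mul_zero]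
  have T4 : ∀ B : Ideal (integralClosure ℤ Om), B.IsMaximal →
      (p : integralClosure ℤ Om) ∈ B → ∀ t ∈ B.inertia GQ, t ∈ PP p → θ t = 0 := by
    intro B hB hpB t ht htP
    exact hvan B hB (hpl B hB hpB) t ht htP
  have hw := w_of_ram hp hζ hμ q₁ m₁ hl hlp hcard hmod
  by_cases hp2 : p = 2
  · subst hp2
    have hζ1 : ζ = -1 := by
      have h1 : ζ * ζ = 1 := by rw [← pow_two]; exact hζ.pow_eq_one
      rcases mul_self_eq_one_iff.mp h1 with h | h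
      · exfalso
        rw [h] at hζ
        exact absurd (hζ.unique IsPrimitiveRoot.one) (by norm_num)
      · exact h
    subst hζ1
    refine no_psi_two hl ?_ hz' hc θ1 θ2 T3 T4 ?_
    · have h2 : l % 2 = 1 := (hl.eq_two_or_odd).resolve_left hlp
      have h4 : l % 4 = 1 ∨ l % 4 = 3 := by omega
      rcases h4 with h4 | h4
      · exact absurd h4 hmod
      · exact h4
    · intro φ s' hs'
      refine θ3 s' (conj_mem_PP2 φ s' hs') fun g n _ hgG => ?_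
      rcases Nat.even_or_odd' n with ⟨k, hk | hk⟩
      · have : s' ^ n = 1 := by rw [hk, pow_mul, conj_sq φ s' hs', one_pow]
        rw [this, mul_one, inv_mul_cancel]
        exact hψone
      · have : s' ^ n = s' := by rw [hk, pow_add, pow_mul, conj_sq φ s' hs', one_pow, one_mul, pow_one]
        rw [this] at hgG ⊢
        refine hD rfl (φ.comp (g : Om →+* Om)) _ ?_ hgG
        intro x
        show φ (g ((g⁻¹ * s' * g) x)) = conj (φ (g x))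
        rw [AlgEquiv.mul_apply, AlgEquiv.mul_apply, apply_inv_self, hs']
  · exact no_psi_odd hp hp2 hζ hl hlp hw hz' hc θ1 θ2 T3 T4

/-- **the main theorem over an arbitrary base field containing `μ_p`** -/
theorem mainF {p : ℕ} (hp : p.Prime) (F : IntermediateField ℚ Om) [FiniteDimensional ℚ F]
    (hμ : ∀ x : Om, x ^ p = 1 → x ∈ F) :
    ∃ C : ℕ, ∀ a : ZF F, a ≠ 0 → (C : ℕ∞) < (RamPrimes p F a).encard →
      ¬ FreeGal p (cycZp p (radExt p F a)) := by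
  obtain ⟨D, hD0, hD⟩ := exists_good F
  obtain ⟨C₁, hC₁⟩ := pigeon (FL F) p hp
  have hfin := finite_above F D hD0
  refine ⟨C₁ + {q : Ideal (ZF F) | q.IsMaximal ∧ (D : ZF F) ∈ q}.ncard, fun a ha hlt => ?_⟩
  set Bad := {q : Ideal (ZF F) | q.IsMaximal ∧ (D : ZF F) ∈ q} with hBad
  have hS : (C₁ : ℕ∞) < (RamPrimes p F a \ Bad).encard := by
    by_contra hcon
    rw [not_lt] at hcon
    have h1 : (RamPrimes p F a).encard ≤ (RamPrimes p F a \ Bad).encard + Bad.encard := by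
      refine le_trans (Set.encard_le_encard (t := (RamPrimes p F a \ Bad) ∪ Bad) ?_)
        (Set.encard_union_le _ _)
      intro q hq
      by_cases h : q ∈ Bad
      · exact Or.inr h
      · exact Or.inl ⟨hq, h⟩
    have h2 : Bad.encard = (Bad.ncard : ℕ∞) := (hfin.cast_ncard_eq).symm
    have h3 : (RamPrimes p F a).encard ≤ (C₁ : ℕ∞) + (Bad.ncard : ℕ∞) := by
      rw [← h2]
      exact le_trans h1 (add_le_add_left hcon _)
    have h4 : ((C₁ + Bad.ncard : ℕ) : ℕ∞) = (C₁ : ℕ∞) + (Bad.ncard : ℕ∞) := by push_cast; rfl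
    rw [h4] at hlt
    exact absurd (lt_of_lt_of_le hlt h3) (lt_irrefl _)
  obtain ⟨q₁, hq₁, q₂, hq₂, q₃, hq₃, n₁₂, n₁₃, n₂₃, b₁, b₂, P₁, P₂⟩ :=
    hC₁ (RamPrimes p F a \ Bad) hS (fun q hq => ⟨hq.1.1, not_both_mem q hq.1.1 hq.1.2.1 hp
      hq.1.2.2.1 (card_mem q rfl)⟩)
  obtain ⟨ζ, hζ⟩ := exists_prim p hp.pos
  obtain ⟨⟨m₁, hl, hlp, hmod, v₁⟩, hbad⟩ := hq₁
  refine key hp hζ hμ a ha q₁ q₂ q₃ m₁ n₁₂ n₁₃ n₂₃ hl hlp rfl hmod (hD _ hl ?_) v₁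
    hq₂.1.2.2.2.2 hq₃.1.2.2.2.2 b₁ b₂ P₁ P₂
  intro hdvd
  obtain ⟨k, hk⟩ := hdvd
  apply hbad
  refine ⟨m₁, ?_⟩
  rw [hk, Nat.cast_mul]
  exact q₁.mul_mem_right _ (card_mem q₁ rfl)

end OzakiFree
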