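import Pool.Agent.Lib.MP_6e8030_nt.Base

open IntermediateField
open scoped ComplexConjugate

noncomputable section

namespace OzakiFree

/-! ### R1: the group theoretic lemma -/

private theorem R1_one {Γ : Type*} [Group Γ] {P : Subgroup Γ} {A : Type*} [AddGroup A] {χ : Γ → A}
    (h : HomOn P χ) : χ 1 = 0 := by
  have h1 := h 1 P.one_mem 1 P.one_mem
  rw [mul_one] at h1
  have h2 : χ 1 + χ 1 = χ 1 + 0 := by rw [add_zero]; exact h1.symm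
  exact add_left_cancel h2

private theorem R1_inv {Γ : Type*} [Group Γ] {P : Subgroup Γ} {A : Type*} [AddGroup A] {χ : Γ → A}
    (h : HomOn P χ) {g : Γ} (hg : g ∈ P) : χ g⁻¹ = -χ g := by
  have h1 := h g⁻¹ (P.inv_mem hg) g hg
  rw [inv_mul_cancel, R1_one h] at h1
  exact eq_neg_of_add_eq_zero_left h1.symm

private theorem R1_pow {Γ : Type*} [Group Γ] {P : Subgroup Γ} {A : Type*} [AddGroup A] {χ : Γ → A}
    (h : HomOn P χ) {g : Γ} (hg : g ∈ P) (n : ℕ) : χ (g ^ n) = n • χ g := by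
  induction n with
  | zero => simp [R1_one h]
  | succ n ih => rw [pow_succ, h _ (P.pow_mem hg n) _ hg, ih, succ_nsmul]

private theorem R1_conj {Γ : Type*} [Group Γ] {P : Subgroup Γ} {A : Type*} [AddCommGroup A] {χ : Γ → A}
    (h : HomOn P χ) {x g : Γ} (hx : x ∈ P) (hg : g ∈ P) : χ (x * g * x⁻¹) = χ g := by
  rw [h _ (P.mul_mem hx hg) _ (P.inv_mem hx), h _ hx _ hg, R1_inv h hx]
  abel

private theorem R1_lc2 {Γ : Type*} [Group Γ] [TopologicalSpace Γ] {P : Subgroup Γ} {A B C : Type*}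
    {χ : Γ → A} {ξ : Γ → B} (f : A → B → C) (h1 : LCOn P χ) (h2 : LCOn P ξ) :
    LCOn P (fun g => f (χ g) (ξ g)) := by
  obtain ⟨U, hU, h1⟩ := h1
  obtain ⟨V, hV, h2⟩ := h2
  refine ⟨U ⊓ V, hU.inter hV, fun g hg u hu huP => ?_⟩
  simp only [h1 g hg u hu.1 huP, h2 g hg u hu.2 huP]

/-- multiplication by `p`, from `ZMod p` to `ZMod (p ^ 2)` -/
private def R1_iota (p : ℕ) : ZMod p →+ ZMod (p ^ 2) :=
  ZMod.lift p ⟨zmultiplesHom (ZMod (p ^ 2)) (p : ZMod (p ^ 2)), by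
    simp only [zmultiplesHom_apply, natCast_zsmul, nsmul_eq_mul]
    rw [← Nat.cast_mul, ← pow_two, ZMod.natCast_self]⟩

private theorem R1_iota_nat (p n : ℕ) : R1_iota p (n : ZMod p) = (n : ZMod (p ^ 2)) * (p : ZMod (p ^ 2)) := by
  have := ZMod.lift_coe p ⟨zmultiplesHom (ZMod (p ^ 2)) (p : ZMod (p ^ 2)), by
    simp only [zmultiplesHom_apply, natCast_zsmul, nsmul_eq_mul]
    rw [← Nat.cast_mul, ← pow_two, ZMod.natCast_self]⟩ (n : ℤ)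
  simpa [R1_iota] using this

private theorem R1_iota_inj (p : ℕ) (hp : p.Prime) (x : ZMod p) (hx : R1_iota p x = 0) : x = 0 := by
  have : NeZero p := ⟨hp.ne_zero⟩
  have h1 : x = ((x.val : ℕ) : ZMod p) := (ZMod.natCast_zmod_val x).symm
  rw [h1, R1_iota_nat, ← Nat.cast_mul, ZMod.natCast_eq_zero_iff, pow_two] at hx
  rw [h1, ZMod.natCast_eq_zero_iff]
  exact Nat.dvd_of_mul_dvd_mul_right hp.pos hx

private theorem R1_iota_surj (p : ℕ) (hp : p.Prime) (a : ZMod (p ^ 2)) (ha : (a.cast : ZMod p) = 0) :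
    ∃ x : ZMod p, R1_iota p x = a := by
  have : NeZero p := ⟨hp.ne_zero⟩
  have : NeZero (p ^ 2) := ⟨pow_ne_zero 2 hp.ne_zero⟩
  have h1 : (a.cast : ZMod p) = (a.val : ZMod p) := by rw [ZMod.cast_eq_val]
  rw [h1, ZMod.natCast_eq_zero_iff] at ha
  obtain ⟨n, hn⟩ := ha
  refine ⟨(n : ZMod p), ?_⟩
  rw [R1_iota_nat, ← Nat.cast_mul, mul_comm, ← hn, ZMod.natCast_zmod_val]

private theorem R1_iota_cast (p : ℕ) (hp : p.Prime) (a : ZMod (p ^ 2)) :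
    (p : ZMod (p ^ 2)) * a = R1_iota p (a.cast : ZMod p) := by
  have : NeZero p := ⟨hp.ne_zero⟩
  have : NeZero (p ^ 2) := ⟨pow_ne_zero 2 hp.ne_zero⟩
  rw [ZMod.cast_eq_val, R1_iota_nat, ZMod.natCast_zmod_val, mul_comm]

private theorem R1_sum (p : ℕ) (z : ℕ → ZMod p) :
    ∑ i ∈ Finset.range p, ∑ j ∈ Finset.range i, z j =
      ((p : ZMod p) - 1) * ∑ j ∈ Finset.range p, z j - ∑ j ∈ Finset.range p, (j : ZMod p) * z j := by
  have key : ∀ n : ℕ, ∑ i ∈ Finset.range n, ∑ j ∈ Finset.range i, z j =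
      ((n : ZMod p) - 1) * ∑ j ∈ Finset.range n, z j - ∑ j ∈ Finset.range n, (j : ZMod p) * z j := by
    intro n
    induction n with
    | zero => simp
    | succ n ih =>
      rw [Finset.sum_range_succ, ih, Finset.sum_range_succ, Finset.sum_range_succ]
      push_cast
      ring
  exact key p

private theorem R1_norm {Γ : Type*} [Group Γ] [TopologicalSpace Γ] [IsTopologicalGroup Γ] {p : ℕ}
    [Fact p.Prime] (P H R : Subgroup Γ) (χ₀ χ₁ χ₂ : Γ → ZMod p)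
    (h₀ : HomOn P χ₀) (h₁ : HomOn P χ₁) (h₂ : HomOn P χ₂)
    (l₀ : LCOn P χ₀) (l₁ : LCOn P χ₁) (l₂ : LCOn P χ₂)
    (hH : ∀ g, g ∈ H ↔ g ∈ P ∧ χ₀ g = 0)
    (hRH : R ≤ H) (hRn : ∀ g ∈ P, ∀ r ∈ R, g * r * g⁻¹ ∈ R)
    (r₁ : ∀ r ∈ R, χ₁ r = 0) (r₂ : ∀ r ∈ R, χ₂ r = 0)
    (lift1 : Lift1 p H R) (lift2 : Lift2 p H R)
    (t₀ : Γ) (ht₀ : t₀ ∈ P) (ht₀1 : χ₀ t₀ = 1) (ht₀p : t₀ ^ p ∈ R)
    (hn1 : χ₁ t₀ = 0) (hn2 : χ₂ t₀ = 0) :
    ∃ ψ : Γ → ZMod p, HomOn P ψ ∧ LCOn P ψ ∧ (∀ r ∈ R, ψ r = 0) ∧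
      ∀ t ∈ P, χ₀ t ≠ 0 → t ^ p ∈ R → χ₀ t * ψ t = χ₁ t * χ₂ t := by
  have hp : p.Prime := Fact.out
  have hHP : H ≤ P := fun g hg => ((hH g).1 hg).1
  have hRP : R ≤ P := hRH.trans hHP
  have homH : ∀ {χ : Γ → ZMod p}, HomOn P χ → HomOn H χ :=
    fun h g hg k hk => h g (hHP hg) k (hHP hk)
  have lcH : ∀ {χ : Γ → ZMod p}, LCOn P χ → LCOn H χ := by
    rintro χ ⟨U, hU, h⟩
    exact ⟨U, hU, fun g hg u hu huH => h g (hHP hg) u hu (hHP huH)⟩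
  have hHn : ∀ x ∈ P, ∀ g ∈ H, x * g * x⁻¹ ∈ H := by
    intro x hx g hg
    rw [hH]
    exact ⟨P.mul_mem (P.mul_mem hx (hHP hg)) (P.inv_mem hx), by
      rw [R1_conj h₀ hx (hHP hg)]; exact ((hH g).1 hg).2⟩
  -- the lift of `χ₂`
  obtain ⟨χ', hom', lc', van', cast'⟩ := lift1 χ₂ (homH h₂) (lcH l₂) r₂
  -- `ζ`
  have exz : ∀ g, ∃ x : ZMod p, g ∈ H → R1_iota p x = χ' (t₀ * g * t₀⁻¹) - χ' g := by
    intro g
    by_cases hg : g ∈ H
    · have h1 : ((χ' (t₀ * g * t₀⁻¹) - χ' g).cast : ZMod p) = 0 := by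
        rw [ZMod.cast_sub (dvd_pow_self p two_ne_zero), cast' _ (hHn t₀ ht₀ g hg), cast' _ hg,
          R1_conj h₂ ht₀ (hHP hg), sub_self]
      obtain ⟨x, hx⟩ := R1_iota_surj p hp _ h1
      exact ⟨x, fun _ => hx⟩
    · exact ⟨0, fun h => absurd h hg⟩
  choose ζ hζ using exz
  have injι : ∀ x y : ZMod p, R1_iota p x = R1_iota p y → x = y := by
    intro x y h
    have : R1_iota p (x - y) = 0 := by rw [map_sub, h, sub_self]
    exact sub_eq_zero.1 (R1_iota_inj p hp _ this)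
  have homζ : HomOn H ζ := by
    intro g hg k hk
    apply injι
    rw [map_add, hζ _ (H.mul_mem hg hk), hζ g hg, hζ k hk]
    have e : t₀ * (g * k) * t₀⁻¹ = (t₀ * g * t₀⁻¹) * (t₀ * k * t₀⁻¹) := by group
    rw [e, hom' _ (hHn t₀ ht₀ g hg) _ (hHn t₀ ht₀ k hk), hom' _ hg _ hk]
    ring
  have lcζ : LCOn H ζ := by
    obtain ⟨U, hU, h⟩ := lc'
    refine ⟨U ⊓ U.comap (MulAut.conj t₀).toMonoidHom, ?_, ?_⟩
    · refine hU.inter ?_
      have hc : Continuous (fun g : Γ => t₀ * g * t₀⁻¹) := by fun_prop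
      exact hU.preimage hc
    · intro g hg u hu huH
      apply injι
      rw [hζ _ (H.mul_mem hg huH), hζ g hg, h g hg u hu.1 huH]
      have e : t₀ * (g * u) * t₀⁻¹ = (t₀ * g * t₀⁻¹) * (t₀ * u * t₀⁻¹) := by group
      have hu2 : t₀ * u * t₀⁻¹ ∈ U := hu.2
      rw [e, h _ (hHn t₀ ht₀ g hg) _ hu2 (hHn t₀ ht₀ u huH)]
  have vanζ : ∀ r ∈ R, ζ r = 0 := by
    intro r hr
    apply injι
    rw [hζ r (hRH hr), van' _ (hRn t₀ ht₀ r hr), van' _ hr, map_zero, sub_self]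
  obtain ⟨φ, lcφ, vanφ, homφ⟩ := lift2 χ₁ ζ (homH h₁) (lcH l₁) r₁ homζ lcζ vanζ
  -- conjugates
  set cj : ℕ → Γ → Γ := fun i g => t₀ ^ i * g * (t₀ ^ i)⁻¹ with hcj
  have cj_mem : ∀ i g, g ∈ H → cj i g ∈ H := fun i g hg => hHn _ (P.pow_mem ht₀ i) g hg
  have cj_zero : ∀ g, cj 0 g = g := by intro g; simp [hcj]
  have cj_succ : ∀ i g, cj (i + 1) g = t₀ * cj i g * t₀⁻¹ := by
    intro i g; simp only [hcj, pow_succ']; group
  have cj_succ' : ∀ i g, cj (i + 1) g = cj i (t₀ * g * t₀⁻¹) := by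
    intro i g; simp only [hcj, pow_succ]; group
  have cj_mul : ∀ i g k, cj i (g * k) = cj i g * cj i k := by
    intro i g k; simp only [hcj]; group
  have cj_R : ∀ i r, r ∈ R → cj i r ∈ R := fun i r hr => hRn _ (P.pow_mem ht₀ i) r hr
  have cj_χ : ∀ {χ : Γ → ZMod p}, HomOn P χ → ∀ i g, g ∈ H → χ (cj i g) = χ g :=
    fun h i g hg => R1_conj h (P.pow_mem ht₀ i) (hHP hg)
  have χ'cj : ∀ g ∈ H, ∀ i, χ' (cj i g) = χ' g + R1_iota p (∑ j ∈ Finset.range i, ζ (cj j g)) := by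
    intro g hg i
    induction i with
    | zero => simp [cj_zero]
    | succ i ih =>
      rw [Finset.sum_range_succ, map_add, hζ _ (cj_mem i g hg), ← cj_succ, ← add_assoc, ← ih]
      ring
  have χ'p : ∀ g ∈ H, χ' (cj p g) = χ' g := by
    intro g hg
    have h1 : t₀ ^ p ∈ H := hRH ht₀p
    show χ' (t₀ ^ p * g * (t₀ ^ p)⁻¹) = χ' g
    rw [hom' _ (H.mul_mem h1 hg) _ (H.inv_mem h1), hom' _ h1 _ hg, van' _ ht₀p, van' _ (R.inv_mem ht₀p)]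
    ring
  have sumζ : ∀ g ∈ H, ∑ j ∈ Finset.range p, ζ (cj j g) = 0 := by
    intro g hg
    apply injι
    have := χ'cj g hg p
    rw [χ'p g hg] at this
    rw [map_zero]
    exact (left_eq_add.1 this)
  have φR : ∀ r ∈ R, ∀ g ∈ H, φ (r * g * r⁻¹) = φ g := by
    intro r hr g hg
    rw [homφ _ (H.mul_mem (hRH hr) hg) _ (H.inv_mem (hRH hr)), homφ _ (hRH hr) _ hg,
      vanφ r hr, vanφ _ (R.inv_mem hr), r₁ r hr, vanζ _ (R.inv_mem hr)]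
    ring
  have φR' : ∀ g ∈ H, φ (cj p g) = φ g := fun g hg => φR _ ht₀p g hg
  set η : Γ → ZMod p := fun g => ∑ i ∈ Finset.range p, φ (cj i g) with hη
  have homη : HomOn H η := by
    intro g hg k hk
    simp only [hη]
    have h1 : ∀ i ∈ Finset.range p, φ (cj i (g * k)) = φ (cj i g) + φ (cj i k) + χ₁ g * ζ (cj i k) := by
      intro i _
      rw [cj_mul, homφ _ (cj_mem i g hg) _ (cj_mem i k hk), cj_χ h₁ i g hg]
    rw [Finset.sum_congr rfl h1, Finset.sum_add_distrib, Finset.sum_add_distrib, ← Finset.mul_sum,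
      sumζ k hk, mul_zero, add_zero]
  have vanη : ∀ r ∈ R, η r = 0 := by
    intro r hr
    simp only [hη]
    exact Finset.sum_eq_zero fun i _ => vanφ _ (cj_R i r hr)
  have ηc : ∀ g ∈ H, η (t₀ * g * t₀⁻¹) = η g := by
    intro g hg
    simp only [hη, ← cj_succ']
    have h1 := Finset.sum_range_succ (fun i => φ (cj i g)) p
    have h2 := Finset.sum_range_succ' (fun i => φ (cj i g)) p
    rw [h1, φR' g hg, cj_zero] at h2
    exact (add_right_cancel h2).symm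
  have ηcj : ∀ i, ∀ g ∈ H, η (cj i g) = η g := by
    intro i g hg
    induction i with
    | zero => rw [cj_zero]
    | succ i ih => rw [cj_succ, ηc _ (cj_mem i g hg), ih]
  -- the norm
  have Nk : ∀ g ∈ H, ∀ k : ℕ, (g * t₀) ^ k * (t₀ ^ k)⁻¹ ∈ H ∧
      χ' ((g * t₀) ^ k * (t₀ ^ k)⁻¹) = ∑ i ∈ Finset.range k, χ' (cj i g) ∧
      χ₁ ((g * t₀) ^ k * (t₀ ^ k)⁻¹) = k * χ₁ g ∧
      φ ((g * t₀) ^ k * (t₀ ^ k)⁻¹) =
        ∑ i ∈ Finset.range k, φ (cj i g) + χ₁ g * ∑ i ∈ Finset.range k, (i : ZMod p) * ζ (cj i g) := by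
    intro g hg k
    induction k with
    | zero =>
      simp only [pow_zero, inv_one, mul_one, Finset.range_zero, Finset.sum_empty, mul_zero, add_zero,
        Nat.cast_zero, zero_mul]
      exact ⟨H.one_mem, R1_one hom', R1_one h₁, vanφ 1 R.one_mem⟩
    | succ k ih =>
      obtain ⟨i1, i2, i3, i4⟩ := ih
      have e : (g * t₀) ^ (k + 1) * (t₀ ^ (k + 1))⁻¹ = ((g * t₀) ^ k * (t₀ ^ k)⁻¹) * cj k g := by
        simp only [hcj, pow_succ]; group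
      rw [e]
      refine ⟨H.mul_mem i1 (cj_mem k g hg), ?_, ?_, ?_⟩
      · rw [hom' _ i1 _ (cj_mem k g hg), i2, Finset.sum_range_succ]
      · rw [h₁ _ (hHP i1) _ (hHP (cj_mem k g hg)), i3, cj_χ h₁ k g hg]; push_cast; ring
      · rw [homφ _ i1 _ (cj_mem k g hg), i4, i3, Finset.sum_range_succ, Finset.sum_range_succ]
        ring
  have key : ∀ g ∈ H, (g * t₀) ^ p ∈ R → η g = -(χ₁ g * χ₂ g) := by
    intro g hg hgR
    have hN : (g * t₀) ^ p * (t₀ ^ p)⁻¹ ∈ R := R.mul_mem hgR (R.inv_mem ht₀p)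
    obtain ⟨_, i2, _, i4⟩ := Nk g hg p
    rw [van' _ hN] at i2
    rw [vanφ _ hN] at i4
    have e1 : ∑ i ∈ Finset.range p, χ' (cj i g) =
        R1_iota p (χ₂ g + ∑ i ∈ Finset.range p, ∑ j ∈ Finset.range i, ζ (cj j g)) := by
      rw [Finset.sum_congr rfl fun i _ => χ'cj g hg i, Finset.sum_add_distrib, Finset.sum_const,
        Finset.card_range, nsmul_eq_mul, R1_iota_cast p hp, cast' g hg, map_add, map_sum]
    rw [e1, R1_sum, sumζ g hg, mul_zero, zero_sub] at i2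
    have e2 : χ₂ g + -∑ j ∈ Finset.range p, (j : ZMod p) * ζ (cj j g) = 0 :=
      R1_iota_inj p hp _ i2.symm
    have e3 : χ₂ g = ∑ j ∈ Finset.range p, (j : ZMod p) * ζ (cj j g) := by
      rw [← sub_eq_add_neg] at e2
      exact sub_eq_zero.1 e2
    rw [← e3] at i4
    have e4 : η g + χ₁ g * χ₂ g = 0 := i4.symm
    exact eq_neg_of_add_eq_zero_left e4
  -- the character
  have inH : ∀ x ∈ P, ∀ n : ℕ, χ₀ x = n → x * (t₀ ^ n)⁻¹ ∈ H := by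
    intro x hx n hn
    rw [hH]
    refine ⟨P.mul_mem hx (P.inv_mem (P.pow_mem ht₀ n)), ?_⟩
    rw [h₀ _ hx _ (P.inv_mem (P.pow_mem ht₀ n)), R1_inv h₀ (P.pow_mem ht₀ n), R1_pow h₀ ht₀, ht₀1, hn]
    simp
  set ψ : Γ → ZMod p := fun x => -η (x * (t₀ ^ (χ₀ x).val)⁻¹) with hψ
  have : NeZero p := ⟨hp.ne_zero⟩
  have ψn : ∀ x ∈ P, ∀ n : ℕ, χ₀ x = n → ψ x = -η (x * (t₀ ^ n)⁻¹) := by
    intro x hx n hn
    have hv : χ₀ x = ((χ₀ x).val : ℕ) := (ZMod.natCast_zmod_val _).symm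
    have h1 := inH x hx _ hv
    have h2 : (χ₀ x).val = n % p := by
      rw [hn, ZMod.val_natCast]
    have h3 : x * (t₀ ^ (χ₀ x).val)⁻¹ = x * (t₀ ^ n)⁻¹ * (t₀ ^ p) ^ (n / p) := by
      have e : t₀ ^ n = (t₀ ^ p) ^ (n / p) * t₀ ^ (χ₀ x).val := by
        rw [h2, ← pow_mul, ← pow_add, Nat.div_add_mod]
      rw [e]; group
    simp only [hψ]
    rw [h3, homη _ (inH x hx n hn) _ (hRH (R.pow_mem ht₀p _)), vanη _ (R.pow_mem ht₀p _), add_zero]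
  have homψ : HomOn P ψ := by
    intro x hx y hy
    have hvx : χ₀ x = ((χ₀ x).val : ℕ) := (ZMod.natCast_zmod_val _).symm
    have hvy : χ₀ y = ((χ₀ y).val : ℕ) := (ZMod.natCast_zmod_val _).symm
    have hxy : χ₀ (x * y) = (((χ₀ x).val + (χ₀ y).val : ℕ) : ZMod p) := by
      rw [h₀ _ hx _ hy]; push_cast; rw [← hvx, ← hvy]
    rw [ψn _ (P.mul_mem hx hy) _ hxy]
    have e : x * y * (t₀ ^ ((χ₀ x).val + (χ₀ y).val))⁻¹ =
        (x * (t₀ ^ (χ₀ x).val)⁻¹) * cj (χ₀ x).val (y * (t₀ ^ (χ₀ y).val)⁻¹) := by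
      simp only [hcj, pow_add]
      group
    rw [e, homη _ (inH x hx _ hvx) _ (cj_mem _ _ (inH y hy _ hvy)), ηcj _ _ (inH y hy _ hvy)]
    simp only [hψ]
    ring
  have ψH : ∀ g ∈ H, ψ g = -η g := by
    intro g hg
    have := ψn g (hHP hg) 0 (by rw [((hH g).1 hg).2]; simp)
    rw [this]; simp
  refine ⟨ψ, homψ, ?_, ?_, ?_⟩
  · -- locally constant
    obtain ⟨U₀, hU₀, hc₀⟩ := l₀
    obtain ⟨U, hU, hc⟩ := lcφ
    have hopen : ∀ m : ℕ, ∃ W : Subgroup Γ, IsOpen (W : Set Γ) ∧ ∀ u ∈ W, ∀ i < m, cj i u ∈ U := by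
      intro m
      induction m with
      | zero => exact ⟨⊤, isOpen_univ, fun u _ i hi => absurd hi (Nat.not_lt_zero i)⟩
      | succ m ih =>
        obtain ⟨W, hW, hWi⟩ := ih
        refine ⟨W ⊓ U.comap (MulAut.conj (t₀ ^ m)).toMonoidHom, hW.inter ?_, ?_⟩
        · have hc : Continuous (fun g : Γ => t₀ ^ m * g * (t₀ ^ m)⁻¹) := by fun_prop
          exact hU.preimage hc
        · intro u hu i hi
          rcases Nat.lt_succ_iff_lt_or_eq.1 hi with h | h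
          · exact hWi u hu.1 i h
          · subst h
            exact hu.2
    obtain ⟨W, hW, hWi⟩ := hopen p
    refine ⟨U₀ ⊓ W, hU₀.inter hW, fun g hg u hu huP => ?_⟩
    have hu0 : χ₀ u = 0 := by
      have := hc₀ 1 P.one_mem u hu.1 huP
      rwa [one_mul, R1_one h₀] at this
    have huH : u ∈ H := (hH u).2 ⟨huP, hu0⟩
    have : η u = 0 := by
      simp only [hη]
      refine Finset.sum_eq_zero fun i hi => ?_
      have h1 := hc 1 H.one_mem (cj i u) (hWi u hu.2 i (Finset.mem_range.1 hi)) (cj_mem i u huH)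
      rw [one_mul] at h1
      rw [h1, vanφ 1 R.one_mem]
    rw [homψ _ hg _ huP, ψH u huH, this, neg_zero, add_zero]
  · intro r hr
    rw [ψH r (hRH hr), vanη r hr, neg_zero]
  · intro t ht hct htp
    set m : ℕ := ((χ₀ t)⁻¹).val with hm
    have hmc : (m : ZMod p) = (χ₀ t)⁻¹ := by rw [hm]; exact ZMod.natCast_zmod_val _
    have hs : χ₀ (t ^ m) = 1 := by
      rw [R1_pow h₀ ht, nsmul_eq_mul, hmc, inv_mul_cancel₀ hct]
    have hsP : t ^ m ∈ P := P.pow_mem ht m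
    have hg : t ^ m * t₀⁻¹ ∈ H := by
      have := inH (t ^ m) hsP 1 (by rw [hs]; simp)
      rwa [pow_one] at this
    have h1 : ψ (t ^ m) = -η (t ^ m * t₀⁻¹) := by
      have := ψn (t ^ m) hsP 1 (by rw [hs]; simp)
      rwa [pow_one] at this
    have h2 : (t ^ m * t₀⁻¹ * t₀) ^ p ∈ R := by
      rw [inv_mul_cancel_right, ← pow_mul, mul_comm, pow_mul]
      exact R.pow_mem htp m
    rw [key _ hg h2, neg_neg, h₁ _ hsP _ (P.inv_mem ht₀), h₂ _ hsP _ (P.inv_mem ht₀), R1_inv h₁ ht₀,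
      R1_inv h₂ ht₀, hn1, hn2, neg_zero, add_zero, add_zero, R1_pow homψ ht, R1_pow h₁ ht, R1_pow h₂ ht,
      nsmul_eq_mul, nsmul_eq_mul, nsmul_eq_mul, hmc] at h1
    have h3 : χ₀ t * (χ₀ t * ((χ₀ t)⁻¹ * ψ t)) =
        χ₀ t * (χ₀ t * ((χ₀ t)⁻¹ * χ₁ t * ((χ₀ t)⁻¹ * χ₂ t))) := by rw [h1]
    have h4 : χ₀ t * (χ₀ t)⁻¹ = 1 := mul_inv_cancel₀ hct
    calc χ₀ t * ψ t = χ₀ t * (χ₀ t * (χ₀ t)⁻¹ * ψ t) := by rw [h4, one_mul]
      _ = χ₀ t * (χ₀ t * ((χ₀ t)⁻¹ * ψ t)) := by ring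
      _ = χ₀ t * (χ₀ t * ((χ₀ t)⁻¹ * χ₁ t * ((χ₀ t)⁻¹ * χ₂ t))) := h3
      _ = (χ₀ t * (χ₀ t)⁻¹) * (χ₀ t * (χ₀ t)⁻¹) * (χ₁ t * χ₂ t) := by ring
      _ = χ₁ t * χ₂ t := by rw [h4]; ring

theorem lemmaA {Γ : Type*} [Group Γ] [TopologicalSpace Γ] [IsTopologicalGroup Γ] {p : ℕ}
    [Fact p.Prime] (P H R : Subgroup Γ) (χ₀ χ₁ χ₂ : Γ → ZMod p)
    (h₀ : HomOn P χ₀) (h₁ : HomOn P χ₁) (h₂ : HomOn P χ₂)
    (l₀ : LCOn P χ₀) (l₁ : LCOn P χ₁) (l₂ : LCOn P χ₂)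
    (hH : ∀ g, g ∈ H ↔ g ∈ P ∧ χ₀ g = 0)
    (hRH : R ≤ H) (hRn : ∀ g ∈ P, ∀ r ∈ R, g * r * g⁻¹ ∈ R)
    (r₁ : ∀ r ∈ R, χ₁ r = 0) (r₂ : ∀ r ∈ R, χ₂ r = 0)
    (lift1 : Lift1 p H R) (lift2 : Lift2 p H R)
    (t₀ : Γ) (ht₀ : t₀ ∈ P) (ht₀1 : χ₀ t₀ = 1) (ht₀p : t₀ ^ p ∈ R) :
    ∃ ψ : Γ → ZMod p, HomOn P ψ ∧ LCOn P ψ ∧ (∀ r ∈ R, ψ r = 0) ∧
      ∀ t ∈ P, χ₀ t ≠ 0 → t ^ p ∈ R → χ₀ t * ψ t = χ₁ t * χ₂ t := by
  have rχ₀ : ∀ r ∈ R, χ₀ r = 0 := fun r hr => ((hH r).1 (hRH hr)).2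
  obtain ⟨ψ, homψ, lcψ, vanψ, keyψ⟩ := R1_norm P H R χ₀ (fun g => χ₁ g - χ₁ t₀ * χ₀ g)
    (fun g => χ₂ g - χ₂ t₀ * χ₀ g) h₀
    (by
      intro g hg k hk
      simp only [h₁ g hg k hk, h₀ g hg k hk]
      ring)
    (by
      intro g hg k hk
      simp only [h₂ g hg k hk, h₀ g hg k hk]
      ring)
    l₀ (R1_lc2 (fun x y => x - χ₁ t₀ * y) l₁ l₀) (R1_lc2 (fun x y => x - χ₂ t₀ * y) l₂ l₀)
    hH hRH hRn
    (by intro r hr; simp only [r₁ r hr, rχ₀ r hr]; ring)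
    (by intro r hr; simp only [r₂ r hr, rχ₀ r hr]; ring)
    lift1 lift2 t₀ ht₀ ht₀1 ht₀p (by simp only [ht₀1]; ring) (by simp only [ht₀1]; ring)
  refine ⟨fun g => ψ g + (χ₁ t₀ * χ₂ g + (χ₂ t₀ * χ₁ g - χ₁ t₀ * χ₂ t₀ * χ₀ g)), ?_, ?_, ?_, ?_⟩
  · intro g hg k hk
    simp only [homψ g hg k hk, h₀ g hg k hk, h₁ g hg k hk, h₂ g hg k hk]
    ring
  · exact R1_lc2 (fun x y => x + y) lcψ (R1_lc2 (fun x y => χ₁ t₀ * x + y) l₂
      (R1_lc2 (fun x y => χ₂ t₀ * x - χ₁ t₀ * χ₂ t₀ * y) l₁ l₀))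
  · intro r hr
    simp only [vanψ r hr, r₁ r hr, r₂ r hr, rχ₀ r hr]
    ring
  · intro t ht hct htp
    have := keyψ t ht hct htp
    simp only at this ⊢
    linear_combination this

end OzakiFree
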