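import Pool.Agent.Lib.MP_6e8030_nt.Base

open IntermediateField
open scoped ComplexConjugate

noncomputable section

namespace OzakiFree

theorem linalg {p : ℕ} [Fact p.Prime] {V : Type*} [AddCommGroup V] [Module (ZMod p) V]
    (T : V →ₗ[ZMod p] V) (ρ : V →ₗ[ZMod p] ZMod p) (hρ : ∀ v, ρ (T v) = ρ v)
    (hper : ∀ v, ∃ a : ℕ, (T ^ ((p - 1) * p ^ a)) v = v)
    (hker : ∀ v, ρ v = 0 → T v = v → v = 0) (v : V) (hv : ρ v ≠ 0) :
    ∃ w, T w = w ∧ ρ w ≠ 0 := by
  classical
  have hp : p.Prime := Fact.out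
  obtain ⟨a, ha⟩ := hper v
  set D : V →ₗ[ZMod p] V := T - 1 with hD
  set S : V →ₗ[ZMod p] V := ∑ i ∈ Finset.range (p - 1), T ^ i with hS
  have hpol : ((Polynomial.X : Polynomial (ZMod p)) - 1) ^ (p ^ a) *
      (∑ i ∈ Finset.range (p - 1), (Polynomial.X : Polynomial (ZMod p)) ^ i) ^ (p ^ a)
      = Polynomial.X ^ ((p - 1) * p ^ a) - 1 := by
    rw [← mul_pow, mul_geom_sum, sub_pow_char_pow, one_pow, ← pow_mul]
  have hend : D ^ (p ^ a) * S ^ (p ^ a) = T ^ ((p - 1) * p ^ a) - 1 := by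
    have h := congrArg (Polynomial.aeval T) hpol
    simpa only [map_mul, map_pow, map_sub, map_sum, Polynomial.aeval_X, map_one] using h
  have hρT : ∀ (i : ℕ) (x : V), ρ ((T ^ i) x) = ρ x := by
    intro i
    induction i with
    | zero => intro x; simp
    | succ i ih => intro x; rw [pow_succ', Module.End.mul_apply, hρ, ih]
  have hρS : ∀ x : V, ρ (S x) = ((p - 1 : ℕ) : ZMod p) * ρ x := by
    intro x
    rw [hS, LinearMap.sum_apply, map_sum]
    simp [hρT]
  have hρSn : ∀ (n : ℕ) (x : V), ρ ((S ^ n) x) = ((p - 1 : ℕ) : ZMod p) ^ n * ρ x := by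
    intro n
    induction n with
    | zero => intro x; simp
    | succ n ih => intro x; rw [pow_succ', Module.End.mul_apply, hρS, ih, pow_succ]; ring
  have hne : ((p - 1 : ℕ) : ZMod p) ≠ 0 := by
    intro h0
    rw [ZMod.natCast_eq_zero_iff] at h0
    have h1 := hp.two_le
    have := Nat.le_of_dvd (by omega) h0
    omega
  set v1 := (S ^ (p ^ a)) v with hv1
  have hρv1 : ρ v1 ≠ 0 := by
    rw [hv1, hρSn]
    exact mul_ne_zero (pow_ne_zero _ hne) hv
  have hzero : (D ^ (p ^ a)) v1 = 0 := by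
    rw [hv1, ← Module.End.mul_apply, hend, LinearMap.sub_apply, ha]
    simp
  have hex : ∃ j, (D ^ j) v1 = 0 := ⟨_, hzero⟩
  set j := Nat.find hex with hj
  have hjs : (D ^ j) v1 = 0 := Nat.find_spec hex
  have hρD : ∀ x, ρ (D x) = 0 := by
    intro x
    rw [hD, LinearMap.sub_apply, map_sub, hρ]
    simp
  have hj0 : j ≠ 0 := by
    intro h0
    rw [h0] at hjs
    apply hρv1
    rw [pow_zero, Module.End.one_apply] at hjs
    rw [hjs, map_zero]
  have hj1 : j = 1 := by
    by_contra hne1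
    obtain ⟨i, hi⟩ : ∃ i, j = i + 2 := ⟨j - 2, by omega⟩
    have hlt : (D ^ (i + 1)) v1 = 0 := by
      apply hker
      · rw [pow_succ', Module.End.mul_apply, hρD]
      · have h2 : D ((D ^ (i + 1)) v1) = 0 := by
          rw [← Module.End.mul_apply, ← pow_succ']
          rw [hi] at hjs
          exact hjs
        rw [hD, LinearMap.sub_apply, Module.End.one_apply, sub_eq_zero] at h2
        exact h2
    have := Nat.find_min' hex hlt
    omega
  refine ⟨v1, ?_, hρv1⟩
  rw [hj1, pow_one, hD, LinearMap.sub_apply, Module.End.one_apply, sub_eq_zero] at hjs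
  exact hjs

end OzakiFree
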