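import Pool.Agent.Lib.MP_6e8030_nt.Base

open IntermediateField
open scoped ComplexConjugate

noncomputable section

namespace OzakiFree

/-! ### R13: complex conjugation -/

/-- The instances `Algebra ℚ Om` found by Lean (`DivisionRing.toRatAlgebra`) and
`AlgebraicClosure.instAlgebra` are equal, but not reducibly. -/
theorem R13_isAlgebraic : Algebra.IsAlgebraic ℚ Om := by
  refine ⟨fun x => ?_⟩
  obtain ⟨p, hp, hx⟩ := (AlgebraicClosure.isAlgebraic ℚ).isAlgebraic x
  refine ⟨p, hp, ?_⟩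
  rw [Polynomial.aeval_def] at hx ⊢
  rw [← hx]
  congr 1

theorem R13_isAlgClosure : IsAlgClosure ℚ Om := ⟨inferInstance, R13_isAlgebraic⟩

theorem exists_conj : ∃ (φ : Om →+* ℂ) (c : GQ), ∀ x, φ (c x) = conj (φ x) := by
  have h1 : Algebra.IsAlgebraic ℚ Om := R13_isAlgebraic
  have h2 : IsAlgClosure ℚ Om := R13_isAlgClosure
  let φ : Om →ₐ[ℚ] ℂ := IsAlgClosed.lift
  let h3 : Algebra Om ℂ := φ.toRingHom.toAlgebra
  have h4 : IsScalarTower ℚ Om ℂ := IsScalarTower.of_algebraMap_eq (fun x => (φ.commutes x).symm)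
  let χ : ℂ ≃ₐ[ℚ] ℂ := Complex.conjAe.restrictScalars ℚ
  refine ⟨φ.toRingHom, χ.restrictNormal Om, fun x => ?_⟩
  exact AlgEquiv.restrictNormal_commutes χ Om x

end OzakiFree
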