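import Pool.Agent.Lib.MP_6e8030_nt.Base

open IntermediateField
open scoped ComplexConjugate

noncomputable section

namespace OzakiFree

/-! ### R2: free pro-p groups have the lifts -/

/-- Two homomorphisms of a free pro-`p` group which agree on the basis and whose kernels contain the
open kernel of a third homomorphism, resp. are open, agree. -/
private theorem R2_unique {p : ℕ} {A : Type} [Group A] [TopologicalSpace A] {X : Type} (b : X → A)
    (hu : ∀ (H : Type) [Group H] [Finite H], IsPGroup p H → ∀ f : X → H, {x | f x ≠ 1}.Finite →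
      ∃! φ : A →* H, IsOpen (φ.ker : Set A) ∧ ∀ x, φ (b x) = f x)
    (H₁ H₂ : Type) [Group H₁] [Finite H₁] [Group H₂] [Finite H₂]
    (h₁ : IsPGroup p (H₁ × H₂))
    (α β : A →* H₁) (φ : A →* H₂) (hα : IsOpen (α.ker : Set A)) (hφ : IsOpen (φ.ker : Set A))
    (hβ : φ.ker ≤ β.ker) (hab : ∀ x, α (b x) = β (b x))
    (hf₁ : {x | α (b x) ≠ 1}.Finite) (hf₂ : {x | φ (b x) ≠ 1}.Finite) : α = β := by
  have hfin : {x | ((α (b x), φ (b x)) : H₁ × H₂) ≠ 1}.Finite := by
    refine (hf₁.union hf₂).subset ?_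
    intro x hx
    by_contra hcon
    simp only [Set.mem_union, Set.mem_setOf_eq, not_or, not_not] at hcon
    exact hx (by rw [hcon.1, hcon.2]; rfl)
  have h := (hu (H₁ × H₂) h₁ (fun x => (α (b x), φ (b x))) hfin).unique
    (y₁ := α.prod φ) (y₂ := β.prod φ)
    ⟨by
      have : ((α.prod φ).ker : Set A) = (α.ker : Set A) ∩ (φ.ker : Set A) := by
        ext g
        simp [MonoidHom.mem_ker, Prod.ext_iff]
      rw [this]
      exact hα.inter hφ, fun x => rfl⟩
    ⟨by
      have : ((β.prod φ).ker : Set A) = (φ.ker : Set A) := by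
        ext g
        simp only [SetLike.mem_coe, MonoidHom.mem_ker, MonoidHom.prod_apply, Prod.ext_iff,
          Prod.fst_one, Prod.snd_one]
        exact ⟨fun h => h.2, fun h => ⟨hβ h, h⟩⟩
      rw [this]
      exact hφ, fun x => by simp [hab x]⟩
  ext g
  have := DFunLike.congr_fun h g
  simp only [MonoidHom.prod_apply, Prod.mk.injEq] at this
  exact this.1

theorem free_lift1 {p : ℕ} [Fact p.Prime] {A : Type} [Group A] [TopologicalSpace A]
    (hA : IsFreeProP p A) (χ : A → ZMod p) (hχ : ∀ g h, χ (g * h) = χ g + χ h)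
    (hc : IsOpen {g | χ g = 0}) :
    ∃ χ' : A → ZMod (p ^ 2), (∀ g h, χ' (g * h) = χ' g + χ' h) ∧ IsOpen {g | χ' g = 0} ∧
      ∀ g, ((χ' g).cast : ZMod p) = χ g := by
  obtain ⟨X, b, hb, hu⟩ := hA
  have hp : p.Prime := Fact.out
  haveI : NeZero p := ⟨hp.ne_zero⟩
  haveI : NeZero (p ^ 2) := ⟨pow_ne_zero _ hp.ne_zero⟩
  let χm : A →* Multiplicative (ZMod p) :=
    MonoidHom.mk' (fun g => Multiplicative.ofAdd (χ g)) (fun g h => by rw [hχ]; rfl)
  have hker : (χm.ker : Set A) = {g | χ g = 0} := by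
    ext g
    simp only [SetLike.mem_coe, MonoidHom.mem_ker, Set.mem_setOf_eq]
    exact Iff.rfl
  have hop : IsOpen (χm.ker : Set A) := by rw [hker]; exact hc
  have hfin : {x | χm (b x) ≠ 1}.Finite := by
    have := hb χm.ker hop
    simpa only [MonoidHom.mem_ker] using this
  let f : X → Multiplicative (ZMod (p ^ 2)) := fun x =>
    Multiplicative.ofAdd (((χ (b x)).val : ℕ) : ZMod (p ^ 2))
  have hff : {x | f x ≠ 1}.Finite := by
    refine hfin.subset ?_
    intro x hx
    simp only [Set.mem_setOf_eq] at hx ⊢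
    intro h1
    apply hx
    have h0 : χ (b x) = 0 := h1
    simp [f, h0]
  have hP2 : IsPGroup p (Multiplicative (ZMod (p ^ 2))) := by
    apply IsPGroup.of_card (n := 2)
    rw [Nat.card_eq_fintype_card, Fintype.card_multiplicative, ZMod.card]
  have hP1 : IsPGroup p (Multiplicative (ZMod p) × Multiplicative (ZMod (p ^ 2))) := by
    apply IsPGroup.of_card (n := 3)
    rw [Nat.card_prod, Nat.card_eq_fintype_card, Nat.card_eq_fintype_card,
      Fintype.card_multiplicative, Fintype.card_multiplicative, ZMod.card, ZMod.card]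
    ring
  obtain ⟨φ, ⟨hφo, hφb⟩, -⟩ := hu _ hP2 f hff
  let ρ : ZMod (p ^ 2) →+* ZMod p := ZMod.castHom (dvd_pow_self p two_ne_zero) (ZMod p)
  let β : A →* Multiplicative (ZMod p) := (AddMonoidHom.toMultiplicative ρ.toAddMonoidHom).comp φ
  have key : χm = β := by
    apply R2_unique (p := p) b hu _ _ hP1 χm β φ hop hφo
    · intro g hg
      rw [MonoidHom.mem_ker] at hg ⊢
      simp [β, hg]
    · intro x
      have h1 := hφb x
      simp only [β, MonoidHom.comp_apply, h1, f]
      have h2 : ρ (((χ (b x)).val : ℕ) : ZMod (p ^ 2)) = χ (b x) := by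
        rw [map_natCast, ZMod.natCast_zmod_val]
      change Multiplicative.ofAdd (χ (b x)) =
        Multiplicative.ofAdd (ρ (((χ (b x)).val : ℕ) : ZMod (p ^ 2)))
      rw [h2]
    · exact hfin
    · simpa only [hφb] using hff
  refine ⟨fun g => Multiplicative.toAdd (φ g),
    fun g h => congrArg Multiplicative.toAdd (map_mul φ g h), ?_, fun g => ?_⟩
  · have : {g | Multiplicative.toAdd (φ g) = 0} = (φ.ker : Set A) := by
      ext g
      simp only [Set.mem_setOf_eq, SetLike.mem_coe, MonoidHom.mem_ker]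
      exact Iff.rfl
    rw [this]
    exact hφo
  · have h1 := DFunLike.congr_fun key g
    have h2 : χ g = ρ (Multiplicative.toAdd (φ g)) := h1
    rw [h2]
    rfl

/-- The Heisenberg group of order `p^3`. -/
@[ext] private structure R2_Heis (p : ℕ) where
  a : ZMod p
  b : ZMod p
  c : ZMod p

private instance R2_mul (p : ℕ) : Mul (R2_Heis p) :=
  ⟨fun x y => ⟨x.a + y.a, x.b + y.b, x.c + y.c + x.a * y.b⟩⟩

private instance R2_one (p : ℕ) : One (R2_Heis p) := ⟨⟨0, 0, 0⟩⟩

private instance R2_inv (p : ℕ) : Inv (R2_Heis p) := ⟨fun x => ⟨-x.a, -x.b, -x.c + x.a * x.b⟩⟩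

private theorem R2_mul_def {p : ℕ} (x y : R2_Heis p) :
    x * y = ⟨x.a + y.a, x.b + y.b, x.c + y.c + x.a * y.b⟩ := rfl

private theorem R2_one_def {p : ℕ} : (1 : R2_Heis p) = ⟨0, 0, 0⟩ := rfl

private theorem R2_inv_def {p : ℕ} (x : R2_Heis p) : x⁻¹ = ⟨-x.a, -x.b, -x.c + x.a * x.b⟩ := rfl

private instance R2_group (p : ℕ) : Group (R2_Heis p) :=
  Group.ofLeftAxioms
    (by
      intro x y z
      simp only [R2_mul_def, R2_Heis.mk.injEq]
      refine ⟨by ring, by ring, by ring⟩)
    (by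
      intro x
      simp only [R2_mul_def, R2_one_def]
      ext <;> simp)
    (by
      intro x
      simp only [R2_mul_def, R2_one_def, R2_inv_def, R2_Heis.mk.injEq]
      refine ⟨by ring, by ring, by ring⟩)

private def R2_equiv (p : ℕ) : R2_Heis p ≃ ZMod p × ZMod p × ZMod p where
  toFun x := (x.a, x.b, x.c)
  invFun y := ⟨y.1, y.2.1, y.2.2⟩
  left_inv _ := rfl
  right_inv _ := rfl

private theorem R2_fst {p : ℕ} [Fact p.Prime] {A : Type} [Group A] [TopologicalSpace A] {X : Type}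
    (b : X → A)
    (hb : ∀ U : Subgroup A, IsOpen (U : Set A) → {x | b x ∉ U}.Finite)
    (hu : ∀ (H : Type) [Group H] [Finite H], IsPGroup p H → ∀ f : X → H, {x | f x ≠ 1}.Finite →
      ∃! φ : A →* H, IsOpen (φ.ker : Set A) ∧ ∀ x, φ (b x) = f x)
    (H : Type) [Group H] [Finite H] (hH : IsPGroup p (Multiplicative (ZMod p) × H))
    (φ : A →* H) (hφ : IsOpen (φ.ker : Set A)) (hf : {x | φ (b x) ≠ 1}.Finite)
    (π : H →* Multiplicative (ZMod p)) (χ : A → ZMod p) (hχ : ∀ g h, χ (g * h) = χ g + χ h)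
    (hc : IsOpen {g | χ g = 0}) (hb' : ∀ x, Multiplicative.toAdd (π (φ (b x))) = χ (b x)) :
    ∀ g, Multiplicative.toAdd (π (φ g)) = χ g := by
  haveI : NeZero p := ⟨(Fact.out : p.Prime).ne_zero⟩
  let χm : A →* Multiplicative (ZMod p) :=
    MonoidHom.mk' (fun g => Multiplicative.ofAdd (χ g)) (fun g h => by rw [hχ]; rfl)
  have hker : (χm.ker : Set A) = {g | χ g = 0} := by
    ext g
    simp only [SetLike.mem_coe, MonoidHom.mem_ker, Set.mem_setOf_eq]
    exact Iff.rfl
  have hop : IsOpen (χm.ker : Set A) := by rw [hker]; exact hc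
  have hfin : {x | χm (b x) ≠ 1}.Finite := by
    have := hb χm.ker hop
    simpa only [MonoidHom.mem_ker] using this
  have key : χm = π.comp φ := by
    apply R2_unique (p := p) b hu _ _ hH χm (π.comp φ) φ hop hφ
    · intro g hg
      rw [MonoidHom.mem_ker] at hg ⊢
      simp [hg]
    · intro x
      exact (congrArg Multiplicative.ofAdd (hb' x)).symm
    · exact hfin
    · exact hf
  intro g
  have h1 := DFunLike.congr_fun key g
  exact (congrArg Multiplicative.toAdd h1).symm

private theorem R2_supp {p : ℕ} {A : Type} [Group A] [TopologicalSpace A] {X : Type} (b : X → A)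
    (hb : ∀ U : Subgroup A, IsOpen (U : Set A) → {x | b x ∉ U}.Finite)
    (χ : A → ZMod p) (hχ : ∀ g h, χ (g * h) = χ g + χ h)
    (hc : IsOpen {g | χ g = 0}) : {x | χ (b x) ≠ 0}.Finite := by
  let χm : A →* Multiplicative (ZMod p) :=
    MonoidHom.mk' (fun g => Multiplicative.ofAdd (χ g)) (fun g h => by rw [hχ]; rfl)
  have hker : (χm.ker : Set A) = {g | χ g = 0} := by
    ext g
    simp only [SetLike.mem_coe, MonoidHom.mem_ker, Set.mem_setOf_eq]
    exact Iff.rfl
  have hop : IsOpen (χm.ker : Set A) := by rw [hker]; exact hc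
  refine (hb χm.ker hop).subset ?_
  intro x hx h1
  apply hx
  have : b x ∈ (χm.ker : Set A) := h1
  rw [hker] at this
  exact this

theorem free_lift2 {p : ℕ} [Fact p.Prime] {A : Type} [Group A] [TopologicalSpace A]
    (hA : IsFreeProP p A) (χ ζ : A → ZMod p) (hχ : ∀ g h, χ (g * h) = χ g + χ h)
    (hc : IsOpen {g | χ g = 0}) (hζ : ∀ g h, ζ (g * h) = ζ g + ζ h)
    (hc' : IsOpen {g | ζ g = 0}) :
    ∃ φ : A → ZMod p, (∃ U : Subgroup A, IsOpen (U : Set A) ∧ ∀ g, ∀ u ∈ U, φ (g * u) = φ g) ∧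
      ∀ g h, φ (g * h) = φ g + φ h + χ g * ζ h := by
  obtain ⟨X, b, hb, hu⟩ := hA
  have hp : p.Prime := Fact.out
  haveI : NeZero p := ⟨hp.ne_zero⟩
  haveI : Finite (R2_Heis p) := Finite.of_equiv _ (R2_equiv p).symm
  have hcard : Nat.card (R2_Heis p) = p ^ 3 := by
    rw [Nat.card_congr (R2_equiv p), Nat.card_prod, Nat.card_prod, Nat.card_eq_fintype_card,
      ZMod.card]
    ring
  have hP : IsPGroup p (R2_Heis p) := IsPGroup.of_card hcard
  have hP1 : IsPGroup p (Multiplicative (ZMod p) × R2_Heis p) := by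
    apply IsPGroup.of_card (n := 4)
    rw [Nat.card_prod, hcard, Nat.card_eq_fintype_card, Fintype.card_multiplicative, ZMod.card]
    ring
  let f : X → R2_Heis p := fun x => ⟨χ (b x), ζ (b x), 0⟩
  have hff : {x | f x ≠ 1}.Finite := by
    refine ((R2_supp b hb χ hχ hc).union (R2_supp b hb ζ hζ hc')).subset ?_
    intro x hx
    by_contra hcon
    simp only [Set.mem_union, Set.mem_setOf_eq, not_or, not_not] at hcon
    apply hx
    simp only [f, hcon.1, hcon.2, R2_one_def]
  obtain ⟨φ, ⟨hφo, hφb⟩, -⟩ := hu _ hP f hff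
  have hff' : {x | φ (b x) ≠ 1}.Finite := by simpa only [hφb] using hff
  let π₁ : R2_Heis p →* Multiplicative (ZMod p) :=
    MonoidHom.mk' (fun x => Multiplicative.ofAdd x.a) (fun x y => rfl)
  let π₂ : R2_Heis p →* Multiplicative (ZMod p) :=
    MonoidHom.mk' (fun x => Multiplicative.ofAdd x.b) (fun x y => rfl)
  have h1 : ∀ g, (φ g).a = χ g := by
    have := R2_fst b hb hu _ hP1 φ hφo hff' π₁ χ hχ hc (fun x => by
      rw [hφb x]; rfl)
    exact this
  have h2 : ∀ g, (φ g).b = ζ g := by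
    have := R2_fst b hb hu _ hP1 φ hφo hff' π₂ ζ hζ hc' (fun x => by
      rw [hφb x]; rfl)
    exact this
  refine ⟨fun g => (φ g).c, ⟨φ.ker, hφo, fun g u hu' => ?_⟩, fun g h => ?_⟩
  · rw [MonoidHom.mem_ker] at hu'
    simp only [map_mul, hu', mul_one]
  · have h3 : (φ (g * h)).c = (φ g).c + (φ h).c + (φ g).a * (φ h).b := by
      rw [map_mul]; rfl
    simp only
    rw [h3, h1, h2]

end OzakiFree
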