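import Pool.Agent.Lib.MP_6e8030_nt.R4
import Pool.Agent.Lib.MP_6e8030_nt.R5
import Pool.Agent.Lib.MP_6e8030_nt.R6

open IntermediateField
open scoped ComplexConjugate Pointwise

noncomputable section

namespace OzakiFree

private theorem R8_alg : Algebra.IsAlgebraic ℚ Om := AlgebraicClosure.isAlgebraic ℚ

attribute [local instance] R8_alg

private theorem R8_ac : IsAlgClosure ℚ Om := ⟨AlgebraicClosure.isAlgClosed ℚ, R8_alg⟩

attribute [local instance] R8_ac

private theorem R8_gal : IsGalois ℚ Om := by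
  have : Normal ℚ Om := IsAlgClosure.normal ℚ Om
  constructor

attribute [local instance] R8_gal

/-! ### topology -/

private theorem R8_isOpen {G : Type*} [Group G] [TopologicalSpace G] [IsTopologicalGroup G]
    (U : Subgroup G) (hU : IsOpen (U : Set G)) (S : Set G) (h : ∀ g ∈ S, ∀ u ∈ U, g * u ∈ S) :
    IsOpen S := by
  rw [isOpen_iff_mem_nhds]
  intro g hg
  have h1 : IsOpen ((fun x => g⁻¹ * x) ⁻¹' (U : Set G)) := hU.preimage (continuous_const_mul g⁻¹)
  refine Filter.mem_of_superset (h1.mem_nhds (by simp)) fun y hy => ?_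
  have := h g hg _ hy
  simpa using this

private theorem R8_isClosed {G : Type*} [Group G] [TopologicalSpace G] [IsTopologicalGroup G]
    (U : Subgroup G) (hU : IsOpen (U : Set G)) (S : Set G) (h : ∀ g ∈ S, ∀ u ∈ U, g * u ∈ S) :
    IsClosed S := by
  rw [← isOpen_compl_iff]
  refine R8_isOpen U hU _ fun g hg u hu hgu => hg ?_
  have := h _ hgu _ (U.inv_mem hu)
  simpa using this

private theorem R8_stab (x : Om) : IsOpen (MulAction.stabilizer GQ x : Set GQ) :=
  stabilizer_isOpen_of_isIntegral x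

private theorem R8_inertia_closed (B : Ideal (integralClosure ℤ Om)) :
    IsClosed (B.inertia GQ : Set GQ) := by
  have h1 : (B.inertia GQ : Set GQ) = ⋂ x : integralClosure ℤ Om, {σ : GQ | σ • x - x ∈ B} := by
    ext σ
    rw [Set.mem_iInter]
    exact Iff.rfl
  rw [h1]
  refine isClosed_iInter fun x => ?_
  refine R8_isClosed _ (R8_stab (x : Om)) _ fun g hg u hu => ?_
  have h2 : u • x = x := by
    apply Subtype.ext
    rw [integralClosure.coe_smul]
    exact hu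
  change (g * u) • x - x ∈ B
  rw [mul_smul, h2]
  exact hg

/-! ### the group `P2` -/

private theorem R8_mem_P2 (t : GQ) : t ∈ P2 ↔ ∀ ζ ∈ muInf 2, t (ζ + ζ⁻¹) = ζ + ζ⁻¹ := by
  have h1 := forall_mem_adjoin_smul_eq_self_iff ℚ (S := {y : Om | ∃ ζ ∈ muInf 2, y = ζ + ζ⁻¹}) t
  constructor
  · intro h ζ hζ
    have h2 : ∀ x ∈ adjoin ℚ {y : Om | ∃ ζ ∈ muInf 2, y = ζ + ζ⁻¹}, t • x = x :=
      fun x hx => h ⟨x, hx⟩
    exact (h1.1 h2) _ ⟨ζ, hζ, rfl⟩
  · intro h
    have h2 : ∀ x ∈ {y : Om | ∃ ζ ∈ muInf 2, y = ζ + ζ⁻¹}, t • x = x := by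
      rintro x ⟨ζ, hζ, rfl⟩
      exact h ζ hζ
    exact fun x => (h1.2 h2) x.1 x.2

private theorem R8_mu_smul {s : GQ} {ζ : Om} (h : ζ ∈ muInf 2) : s ζ ∈ muInf 2 := by
  obtain ⟨m, hm⟩ := h
  exact ⟨m, by rw [← map_pow, hm, map_one]⟩

private theorem R8_P2_conj (s t : GQ) (ht : t ∈ P2) : s⁻¹ * t * s ∈ P2 := by
  rw [R8_mem_P2] at ht ⊢
  intro ζ hζ
  have h1 := ht (s ζ) (R8_mu_smul hζ)
  have h2 : s (ζ + ζ⁻¹) = s ζ + (s ζ)⁻¹ := by rw [map_add, map_inv₀]
  change s⁻¹ (t (s (ζ + ζ⁻¹))) = ζ + ζ⁻¹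
  rw [h2, h1, ← h2]
  change (s⁻¹ * s) (ζ + ζ⁻¹) = ζ + ζ⁻¹
  rw [inv_mul_cancel]
  rfl

private theorem R8_P2_closed : IsClosed (P2 : Set GQ) :=
  InfiniteGalois.fixingSubgroup_isClosed _

private theorem R8_P2_of_mu (t : GQ) (h : ∀ ζ ∈ muInf 2, t ζ = ζ) : t ∈ P2 := by
  rw [R8_mem_P2]
  intro ζ hζ
  rw [map_add, map_inv₀, h ζ hζ]

/-- the power `s ^ (2 ^ m)` fixes the roots of unity of order `2 ^ m` -/
private theorem R8_pow_fix (s : GQ) (m : ℕ) : ∀ ζ : Om, ζ ^ (2 ^ m) = 1 → (s ^ (2 ^ m)) ζ = ζ := by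
  induction m with
  | zero =>
    intro ζ h
    have : ζ = 1 := by simpa using h
    rw [this, map_one]
  | succ m ih =>
    intro ζ h
    have h1 : (s ^ (2 ^ m)) (ζ ^ 2) = ζ ^ 2 := ih _ (by rw [← pow_mul, ← pow_succ', h])
    rw [map_pow] at h1
    have h2 : s ^ (2 ^ (m + 1)) = s ^ (2 ^ m) * s ^ (2 ^ m) := by rw [← pow_add, pow_succ, mul_two]
    rw [h2]
    change (s ^ (2 ^ m)) ((s ^ (2 ^ m)) ζ) = ζ
    rcases sq_eq_sq_iff_eq_or_eq_neg.1 h1 with h3 | h3
    · rw [h3, h3]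
    · rw [h3, map_neg, h3, neg_neg]

/-- every open subgroup containing `P2` contains a power `s ^ (2 ^ m)` of every `s` -/
private theorem R8_pow_mem (Q : Subgroup GQ) (hQ : IsOpen (Q : Set GQ)) (hP : P2 ≤ Q) (s : GQ) :
    ∃ m : ℕ, s ^ (2 ^ m) ∈ Q := by
  set V : ℕ → Set GQ := fun m => ⋂ ζ : {ζ : Om // ζ ^ (2 ^ m) = 1}, (MulAction.stabilizer GQ ζ.1 : Set GQ) with hV
  have hVm : ∀ m t, t ∈ V m ↔ ∀ ζ : Om, ζ ^ (2 ^ m) = 1 → t ζ = ζ := by
    intro m t
    rw [hV]
    simp only [Set.mem_iInter]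
    constructor
    · intro h ζ hζ
      exact h ⟨ζ, hζ⟩
    · intro h ζ
      exact h ζ.1 ζ.2
  have hcl : ∀ m, IsClosed (V m) := fun m => isClosed_iInter fun ζ =>
    Subgroup.isClosed_of_isOpen _ (R8_stab ζ.1)
  have hanti : Antitone V := by
    refine antitone_nat_of_succ_le fun m t ht => ?_
    rw [hVm] at ht ⊢
    intro ζ hζ
    exact ht ζ (by rw [pow_succ, pow_mul, hζ, one_pow])
  obtain ⟨m, hm⟩ := exists_subset_nhds_of_isCompact' (U := (Q : Set GQ)) (V := V)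
    (directed_of_isDirected_le fun i j hij => hanti hij) (fun m => (hcl m).isCompact) hcl
    (fun t ht => hQ.mem_nhds (hP (R8_P2_of_mu t fun ζ hζ => by
      obtain ⟨m, hm⟩ := hζ
      exact (hVm m t).1 (Set.mem_iInter.1 ht m) ζ hm)))
  exact ⟨m, hm ((hVm m _).2 (R8_pow_fix s m))⟩

/-! ### the closed normal subgroup `N` -/

private def R8_N (ψ : GQ → ZMod 2) (hψ : HomOn P2 ψ) : Subgroup GQ where
  carrier := {t | ∀ s : GQ, s⁻¹ * t * s ∈ P2 ∧ ψ (s⁻¹ * t * s) = 0}
  mul_mem' := by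
    intro a b ha hb s
    have h1 : s⁻¹ * (a * b) * s = (s⁻¹ * a * s) * (s⁻¹ * b * s) := by group
    rw [h1]
    exact ⟨P2.mul_mem (ha s).1 (hb s).1, by rw [hψ _ (ha s).1 _ (hb s).1, (ha s).2, (hb s).2, add_zero]⟩
  one_mem' := by
    intro s
    have h1 : s⁻¹ * 1 * s = 1 := by group
    rw [h1]
    refine ⟨P2.one_mem, ?_⟩
    have := hψ 1 P2.one_mem 1 P2.one_mem
    rw [one_mul] at this
    exact left_eq_add.1 this
  inv_mem' := by
    intro a ha s
    have h1 : s⁻¹ * a⁻¹ * s = (s⁻¹ * a * s)⁻¹ := by group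
    rw [h1]
    refine ⟨P2.inv_mem (ha s).1, ?_⟩
    have h2 := hψ _ (ha s).1 _ (P2.inv_mem (ha s).1)
    have h3 := hψ 1 P2.one_mem 1 P2.one_mem
    rw [one_mul] at h3
    rw [mul_inv_cancel, left_eq_add.1 h3, (ha s).2, zero_add] at h2
    exact h2.symm

private theorem R8_mem_N {ψ : GQ → ZMod 2} (hψ : HomOn P2 ψ) (t : GQ) :
    t ∈ R8_N ψ hψ ↔ ∀ s : GQ, s⁻¹ * t * s ∈ P2 ∧ ψ (s⁻¹ * t * s) = 0 := Iff.rfl

private theorem R8_N_normal {ψ : GQ → ZMod 2} (hψ : HomOn P2 ψ) : (R8_N ψ hψ).Normal := by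
  refine ⟨fun t ht g => ?_⟩
  rw [R8_mem_N] at ht ⊢
  intro s
  have h1 : s⁻¹ * (g * t * g⁻¹) * s = (g⁻¹ * s)⁻¹ * t * (g⁻¹ * s) := by group
  rw [h1]
  exact ht _

private theorem R8_N_closed {ψ : GQ → ZMod 2} (hψ : HomOn P2 ψ) (hc : LCOn P2 ψ) :
    IsClosed (R8_N ψ hψ : Set GQ) := by
  obtain ⟨U, hU, hUψ⟩ := hc
  have hK : IsClosed {t : GQ | t ∈ P2 ∧ ψ t = 0} := by
    rw [← isOpen_compl_iff, isOpen_iff_mem_nhds]
    intro g hg
    by_cases hgP : g ∈ P2
    · have h1 : IsOpen ((fun x => g⁻¹ * x) ⁻¹' (U : Set GQ)) := hU.preimage (continuous_const_mul g⁻¹)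
      refine Filter.mem_of_superset (h1.mem_nhds (by simp)) fun y hy hyK => hg ⟨hgP, ?_⟩
      have h2 := hUψ g hgP (g⁻¹ * y) hy (P2.mul_mem (P2.inv_mem hgP) hyK.1)
      rw [mul_inv_cancel_left, hyK.2] at h2
      exact h2.symm
    · exact Filter.mem_of_superset (R8_P2_closed.isOpen_compl.mem_nhds hgP) fun y hy hyK => hy hyK.1
  have h2 : (R8_N ψ hψ : Set GQ) = ⋂ s : GQ, (fun t => s⁻¹ * t * s) ⁻¹' {t : GQ | t ∈ P2 ∧ ψ t = 0} := by
    ext t
    rw [Set.mem_iInter]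
    exact Iff.rfl
  rw [h2]
  exact isClosed_iInter fun s => hK.preimage ((continuous_mul_const s).comp (continuous_const_mul s⁻¹))

private theorem R8_sq_mem {ψ : GQ → ZMod 2} (hψ : HomOn P2 ψ) {z : GQ} (hz : z ∈ P2) :
    z * z ∈ R8_N ψ hψ := by
  rw [R8_mem_N]
  intro s
  have h1 : s⁻¹ * (z * z) * s = (s⁻¹ * z * s) * (s⁻¹ * z * s) := by group
  have h2 := R8_P2_conj s z hz
  rw [h1]
  refine ⟨P2.mul_mem h2 h2, ?_⟩
  rw [hψ _ h2 _ h2]
  exact CharTwo.add_self_eq_zero _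

/-- conjugates of inertia elements -/
private theorem R8_inertia_conj (B : Ideal (integralClosure ℤ Om)) (hB : B.IsMaximal) (t s : GQ)
    (ht : t ∈ B.inertia GQ) : ∃ B' : Ideal (integralClosure ℤ Om), B'.IsMaximal ∧
      s⁻¹ * t * s ∈ B'.inertia GQ := by
  set f : integralClosure ℤ Om →+* integralClosure ℤ Om := MulSemiringAction.toRingHom GQ _ s with hf
  have hsurj : Function.Surjective f := fun y => ⟨s⁻¹ • y, smul_inv_smul s y⟩
  refine ⟨B.comap f, Ideal.comap_isMaximal_of_surjective f hsurj, ?_⟩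
  intro x
  change f ((s⁻¹ * t * s) • x - x) ∈ B
  rw [map_sub]
  change s • ((s⁻¹ * t * s) • x) - s • x ∈ B
  rw [smul_smul, show s * (s⁻¹ * t * s) = t * s by group, mul_smul]
  exact ht (s • x)

private theorem R8_inertia_N {ψ : GQ → ZMod 2} (hψ : HomOn P2 ψ)
    (h : ∀ B : Ideal (integralClosure ℤ Om), B.IsMaximal → ∀ t ∈ B.inertia GQ, t ∈ P2 → ψ t = 0)
    (B : Ideal (integralClosure ℤ Om)) (hB : B.IsMaximal) (t : GQ) (ht : t ∈ B.inertia GQ)
    (htP : t ∈ P2) : t ∈ R8_N ψ hψ := by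
  rw [R8_mem_N]
  intro s
  obtain ⟨B', hB', h1⟩ := R8_inertia_conj B hB t s ht
  exact ⟨R8_P2_conj s t htP, h B' hB' _ h1 (R8_P2_conj s t htP)⟩

/-! ### a maximal ideal over 2 -/

private theorem R8_exists_max : ∃ B : Ideal (integralClosure ℤ Om), B.IsMaximal ∧
    (2 : integralClosure ℤ Om) ∈ B := by
  have h1 : Ideal.span {(2 : integralClosure ℤ Om)} ≠ ⊤ := by
    intro h
    rw [Ideal.span_singleton_eq_top] at h
    obtain ⟨y, hy⟩ := h.exists_right_inv
    have h2 : (2 : Om) * (y : Om) = 1 := by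
      exact congrArg (fun z : integralClosure ℤ Om => (z : Om)) hy
    have h3 : (y : Om) = algebraMap ℚ Om (1 / 2) := by
      rw [map_div₀, map_one, map_ofNat]
      field_simp
      rw [mul_comm]
      exact h2
    have h4 : IsIntegral ℤ (algebraMap ℚ Om (1 / 2)) := h3 ▸ y.2
    rw [isIntegral_algebraMap_iff (algebraMap ℚ Om).injective] at h4
    obtain ⟨k, hk⟩ := IsIntegrallyClosed.isIntegral_iff.1 h4
    have h5 : ((2 * k : ℤ) : ℚ) = ((1 : ℤ) : ℚ) := by
      push_cast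
      rw [eq_intCast] at hk
      rw [hk]
      norm_num
    have h6 : 2 * k = 1 := by exact_mod_cast h5
    omega
  obtain ⟨B, hB, h2⟩ := Ideal.exists_le_maximal _ h1
  exact ⟨B, hB, h2 (Ideal.mem_span_singleton_self _)⟩

/-! ### a subgroup of index two -/

private theorem R8_index_two {M H' : Subgroup GQ} (hM : M.Normal) (hMo : IsOpen (M : Set GQ))
    (hMH : M ≤ H') {z : GQ} (hz : z ∉ H') (hp : ∀ s : GQ, ∃ m : ℕ, s ^ (2 ^ m) ∈ M) :
    ∃ U : Subgroup GQ, U.index = 2 ∧ H' ≤ U := by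
  have hfin : Finite (GQ ⧸ M) := Subgroup.quotient_finite_of_isOpen M hMo
  have hpg : IsPGroup 2 (GQ ⧸ M) := by
    intro g
    obtain ⟨s, rfl⟩ := QuotientGroup.mk'_surjective M g
    obtain ⟨m, hm⟩ := hp s
    refine ⟨m, ?_⟩
    rw [← map_pow]
    exact (QuotientGroup.eq_one_iff _).2 hm
  have hfact : Fact (Nat.Prime 2) := ⟨Nat.prime_two⟩
  obtain ⟨a, ha⟩ := (IsPGroup.iff_card (p := 2)).1 hpg
  set f := QuotientGroup.mk' M with hf
  have hfs : Function.Surjective f := QuotientGroup.mk'_surjective M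
  obtain ⟨n, hn⟩ := (IsPGroup.iff_card (p := 2)).1 (hpg.to_subgroup (H'.map f))
  have hne : H'.map f ≠ ⊤ := by
    intro h
    have h1 : f z ∈ H'.map f := by rw [h]; exact Subgroup.mem_top _
    obtain ⟨y, hy, hyz⟩ := h1
    have h2 : y⁻¹ * z ∈ M := QuotientGroup.eq.1 hyz
    exact hz (by simpa using H'.mul_mem hy (hMH h2))
  have hlt : n < a := by
    have h1 : Nat.card (H'.map f) ≤ Nat.card (GQ ⧸ M) := Subgroup.card_le_card_group _
    have h2 : Nat.card (H'.map f) ≠ Nat.card (GQ ⧸ M) := fun h => hne ((Subgroup.card_eq_iff_eq_top _).1 h)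
    have h3 := lt_of_le_of_ne h1 h2
    rw [hn, ha] at h3
    exact (Nat.pow_lt_pow_iff_right (by norm_num)).1 h3
  obtain ⟨K, hK1, hK2⟩ := Sylow.exists_subgroup_card_pow_prime_le (G := GQ ⧸ M) 2 (n := n) (m := a - 1)
    (by rw [ha]; exact pow_dvd_pow 2 (Nat.sub_le a 1)) (H'.map f) hn (by omega)
  refine ⟨K.comap f, ?_, fun x hx => hK2 ⟨x, hx, rfl⟩⟩
  rw [Subgroup.index_comap_of_surjective _ hfs]
  have h1 := K.card_mul_index
  rw [hK1, ha, show a = (a - 1) + 1 by omega, pow_succ, Nat.add_sub_cancel] at h1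
  exact Nat.eq_of_mul_eq_mul_left (pow_pos (by norm_num) _) h1

/-! ### quadratic fields -/

private theorem R8_quadratic (U : Subgroup GQ) (hU : U.index = 2) (hUo : IsOpen (U : Set GQ)) :
    ∃ (e : ℤ) (x : Om), Squarefree e.natAbs ∧ x ^ 2 = (e : Om) ∧ (∀ u ∈ U, u x = x) ∧
      ∃ s : GQ, s x ≠ x := by
  have hcl : IsClosed (U : Set GQ) := Subgroup.isClosed_of_isOpen _ hUo
  have hfix : (fixedField U).fixingSubgroup = U :=
    InfiniteGalois.fixingSubgroup_fixedField (⟨U, hcl⟩ : ClosedSubgroup GQ)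
  have hn : U.Normal := Subgroup.normal_of_index_eq_two hU
  have hne : U ≠ ⊤ := by
    intro h
    rw [h, Subgroup.index_top] at hU
    norm_num at hU
  obtain ⟨s0, hs0⟩ : ∃ s, s ∉ U := by
    by_contra hcon
    push Not at hcon
    exact hne (eq_top_iff.2 fun x _ => hcon x)
  obtain ⟨y, hyU, hys⟩ : ∃ y : Om, (∀ u ∈ U, u y = y) ∧ s0 y ≠ y := by
    by_contra hcon
    push Not at hcon
    refine hs0 ?_
    rw [← hfix]
    intro w
    exact hcon w.1 fun u hu => w.2 ⟨u, hu⟩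
  have hss : s0 * s0 ∈ U := Subgroup.mul_self_mem_of_index_two hU s0
  set x1 : Om := y - s0 y with hx1
  have hx1U : ∀ u ∈ U, u x1 = x1 := by
    intro u hu
    have h1 : s0⁻¹ * u * s0 ∈ U := by
      have := hn.conj_mem u hu s0⁻¹
      rwa [inv_inv] at this
    have h2 : u (s0 y) = s0 y := by
      have h3 := congrArg s0 (hyU _ h1)
      have h4 : s0 ((s0⁻¹ * u * s0) y) = (s0 * (s0⁻¹ * u * s0)) y := rfl
      rw [h4, show s0 * (s0⁻¹ * u * s0) = u * s0 by group] at h3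
      exact h3
    rw [hx1, map_sub, hyU u hu, h2]
  have hx1s : s0 x1 = -x1 := by
    have h1 : s0 (s0 y) = y := hyU _ hss
    rw [hx1, map_sub, h1]
    ring
  have hx10 : x1 ≠ 0 := sub_ne_zero.2 (Ne.symm hys)
  have hsq : ∀ s : GQ, s (x1 ^ 2) = x1 ^ 2 := by
    intro s
    by_cases hs : s ∈ U
    · rw [map_pow, hx1U s hs]
    · have h1 : s * s0 ∈ U := by
        rw [Subgroup.mul_mem_iff_of_index_two hU]
        exact iff_of_false hs hs0
      have h2 : s (s0 x1) = x1 := hx1U _ h1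
      rw [hx1s, map_neg] at h2
      have h3 : s x1 = -x1 := by rw [← h2, neg_neg]; rw [h2]
      rw [map_pow, h3]
      ring
  obtain ⟨r, hr⟩ := (InfiniteGalois.mem_range_algebraMap_iff_fixed (x1 ^ 2)).2 hsq
  have hr' : x1 ^ 2 = (r : Om) := by rw [← hr, eq_ratCast]
  have hd : (r.den : Om) ≠ 0 := Nat.cast_ne_zero.2 r.den_nz
  set n : ℤ := r.num * r.den with hnd
  set x2 : Om := r.den * x1 with hx2
  have hx2sq : x2 ^ 2 = (n : Om) := by
    have h1 : (r : Om) * r.den = r.num := by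
      rw [← Rat.cast_natCast, ← Rat.cast_mul, Rat.mul_den_eq_num, Rat.cast_intCast]
    rw [hx2, mul_pow, hr', hnd]
    push_cast
    rw [← h1]
    ring
  obtain ⟨a, b, hab, hasq⟩ := Nat.sq_mul_squarefree n.natAbs
  have hx20 : x2 ≠ 0 := mul_ne_zero hd hx10
  have hn0 : n ≠ 0 := by
    intro h0
    rw [h0, Int.cast_zero] at hx2sq
    exact hx20 (pow_eq_zero_iff (by norm_num) |>.1 hx2sq)
  have hb0 : b ≠ 0 := by
    rintro rfl
    rw [zero_pow (by norm_num), zero_mul] at hab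
    exact hn0 (Int.natAbs_eq_zero.1 hab.symm)
  have hb0' : (b : Om) ≠ 0 := Nat.cast_ne_zero.2 hb0
  have hne' : n = (b : ℤ) ^ 2 * (n.sign * a) := by
    have h1 : n = n.sign * n.natAbs := (Int.sign_mul_natAbs n).symm
    rw [← hab] at h1
    push_cast at h1
    calc n = n.sign * ((b : ℤ) ^ 2 * a) := h1
      _ = _ := by ring
  refine ⟨n.sign * a, x2 / b, ?_, ?_, ?_, ⟨s0, ?_⟩⟩
  · rw [Int.natAbs_mul, Int.natAbs_sign_of_ne_zero hn0, one_mul, Int.natAbs_natCast]
    exact hasq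
  · rw [div_pow, hx2sq, div_eq_iff (pow_ne_zero 2 hb0')]
    conv_lhs => rw [hne']
    push_cast
    ring
  · intro u hu
    rw [map_div₀, map_natCast, hx2, map_mul, map_natCast, hx1U u hu]
  · intro h0
    rw [map_div₀, map_natCast, div_left_inj' hb0', hx2, map_mul, map_natCast, hx1s, mul_neg,
      neg_eq_iff_add_eq_zero, ← two_mul] at h0
    exact mul_ne_zero two_ne_zero hx20 h0

private theorem R8_sqfree {a : ℕ} (ha : Squarefree a) : a = 1 ∨ a = 2 ∨
    ∃ l : ℕ, l.Prime ∧ l ≠ 2 ∧ l ∣ a := by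
  rcases Nat.eq_two_pow_or_exists_odd_prime_and_dvd a with ⟨k, rfl⟩ | ⟨l, h1, h2, h3⟩
  · rcases k with _ | _ | k
    · left; norm_num
    · right; left; norm_num
    · exfalso
      have h1 : 2 * 2 ∣ 2 ^ (k + 1 + 1) := ⟨2 ^ k, by ring⟩
      have h2 := ha 2 h1
      norm_num at h2
  · right; right
    refine ⟨l, h1, ?_, h2⟩
    rintro rfl
    norm_num at h3

/-- Row R8. `ℚ_∞` (p = 2) has no quadratic extension unramified at the finite places. -/
theorem no_unram_Qinf2 (ψ : GQ → ZMod 2) (hψ : HomOn P2 ψ) (hc : LCOn P2 ψ)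
    (h : ∀ B : Ideal (integralClosure ℤ Om), B.IsMaximal → ∀ t ∈ B.inertia GQ, t ∈ P2 → ψ t = 0) :
    ∀ t ∈ P2, ψ t = 0 := by
  intro z hzP
  by_contra hz
  obtain ⟨B, hB, hB2⟩ := R8_exists_max
  set I := B.inertia GQ with hI
  set N := R8_N ψ hψ with hN
  have hNn : N.Normal := R8_N_normal hψ
  -- the product `I N` is closed and does not contain `z`
  have hC : IsClosed ((I : Set GQ) * (N : Set GQ)) :=
    (R8_N_closed hψ hc).mul_left_of_isCompact (R8_inertia_closed B).isCompact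
  have hzC : z ∉ (I : Set GQ) * (N : Set GQ) := by
    rintro ⟨i, hi, ν, hν, rfl⟩
    have h1 := (R8_mem_N hψ ν).1 hν 1
    rw [inv_one, one_mul, mul_one] at h1
    have h2 : i ∈ P2 := by
      have := P2.mul_mem hzP (P2.inv_mem h1.1)
      simpa using this
    exact hz (by
      change ψ (i * ν) = 0
      rw [hψ i h2 ν h1.1, h B hB i hi h2, h1.2, add_zero])
  have hopen : IsOpen ((fun v => z * v) ⁻¹' ((I : Set GQ) * (N : Set GQ))ᶜ) :=
    hC.isOpen_compl.preimage (continuous_const_mul z)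
  obtain ⟨V, hV⟩ := ProfiniteGrp.exist_openNormalSubgroup_sub_open_nhds_of_one hopen
    (by change z * 1 ∉ _; rwa [mul_one])
  have hVn : (V.toSubgroup).Normal := V.isNormal'
  set M : Subgroup GQ := N ⊔ V.toSubgroup with hM
  have hMn : M.Normal := Subgroup.sup_normal _ _
  have hVM : V.toSubgroup ≤ M := le_sup_right
  have hMo : IsOpen (M : Set GQ) := Subgroup.isOpen_mono hVM V.isOpen'
  set H' : Subgroup GQ := I ⊔ M with hH'
  have hzH : z ∉ H' := by
    intro h1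
    obtain ⟨i, hi, w, hw, hiw⟩ := Subgroup.mem_sup_of_normal_right.1 h1
    obtain ⟨ν, hν, v, hv, hνv⟩ := Subgroup.mem_sup_of_normal_right.1 hw
    have h2 := hV (V.toSubgroup.inv_mem hv)
    refine h2 ⟨i, hi, ν, hν, ?_⟩
    change i * ν = z * v⁻¹
    rw [← hiw, ← hνv]
    group
  -- powers of two
  have hp : ∀ s : GQ, ∃ m : ℕ, s ^ (2 ^ m) ∈ M := by
    intro s
    have hQo : IsOpen ((M ⊔ P2 : Subgroup GQ) : Set GQ) := Subgroup.isOpen_mono le_sup_left hMo
    obtain ⟨m, hm⟩ := R8_pow_mem (M ⊔ P2) hQo le_sup_right s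
    obtain ⟨w, hw, z', hz', hwz⟩ := Subgroup.mem_sup_of_normal_left.1 hm
    refine ⟨m + 1, ?_⟩
    have h1 : s ^ (2 ^ (m + 1)) = w * (z' * w * z'⁻¹) * (z' * z') := by
      rw [pow_succ, mul_two, pow_add, ← hwz]
      group
    rw [h1]
    refine M.mul_mem (M.mul_mem hw (hMn.conj_mem w hw z')) ?_
    exact (le_sup_left : N ≤ M) (R8_sq_mem hψ hz')
  obtain ⟨U, hU2, hHU⟩ := R8_index_two hMn hMo (le_sup_right : M ≤ H') hzH hp
  have hUo : IsOpen (U : Set GQ) := Subgroup.isOpen_mono ((le_sup_right : M ≤ H').trans hHU) hMo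
  have hNU : N ≤ U := (le_sup_left : N ≤ M).trans ((le_sup_right : M ≤ H').trans hHU)
  have hIU : I ≤ U := (le_sup_left : I ≤ H').trans hHU
  obtain ⟨e, x, hsf, hx, hxU, s, hs⟩ := R8_quadratic U hU2 hUo
  -- the field
  have hUn : U.Normal := Subgroup.normal_of_index_eq_two hU2
  have hcl : IsClosed (U : Set GQ) := Subgroup.isClosed_of_isOpen _ hUo
  have hfix : (fixedField U).fixingSubgroup = U :=
    InfiniteGalois.fixingSubgroup_fixedField (⟨U, hcl⟩ : ClosedSubgroup GQ)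
  have hfd : FiniteDimensional ℚ (fixedField U) := by
    rw [← InfiniteGalois.isOpen_iff_finite]
    change IsOpen ((fixedField U).fixingSubgroup : Set GQ)
    rw [hfix]
    exact hUo
  have hgal : IsGalois ℚ (fixedField U) :=
    (InfiniteGalois.normal_iff_isGalois (fixedField U)).1 (by rw [hfix]; exact hUn)
  have hIF : ∀ t ∈ B.inertia GQ, ∀ y ∈ fixedField U, t y = y := fun t ht y hy => hy ⟨t, hIU ht⟩
  have hxF : x ∈ fixedField U := fun u => hxU u.1 u.2
  have hxint : IsIntegral ℤ x := by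
    refine IsIntegral.of_pow (n := 2) (by norm_num) ?_
    rw [hx, ← eq_intCast (algebraMap ℤ Om)]
    exact isIntegral_algebraMap
  have hB2' : ((2 : ℕ) : integralClosure ℤ Om) ∈ B := by exact_mod_cast hB2
  have hunit : ∀ w w' : integralClosure ℤ Om, w * w' = 1 → w ∉ B := fun w w' hw hwB =>
    hB.ne_top ((Ideal.eq_top_iff_one B).2 (hw ▸ B.mul_mem_right w' hwB))
  rcases R8_sqfree hsf with h1 | h1 | ⟨l, hl, hl2, hla⟩
  · -- e = 1 or e = -1
    rcases Int.natAbs_eq e with h2 | h2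
    · rw [h1] at h2
      rw [h2] at hx
      have h3 : x = 1 ∨ x = -1 := by
        have : x ^ 2 = 1 ^ 2 := by rw [hx]; norm_num
        exact sq_eq_sq_iff_eq_or_eq_neg.1 this
      rcases h3 with rfl | rfl
      · exact hs (map_one s)
      · exact hs (by rw [map_neg, map_one])
    · rw [h1] at h2
      rw [h2] at hx
      have hx' : x ^ 2 = -1 := by rw [hx]; norm_num
      set X : integralClosure ℤ Om := ⟨x, hxint⟩ with hX
      have hXX : X * X = -1 := by
        apply Subtype.ext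
        change x * x = -1
        rw [← hx']
        ring
      have h3 : (1 + X) ^ 2 = ((2 : ℕ) : integralClosure ℤ Om) ^ 1 * X := by
        push_cast
        linear_combination hXX
      have h4 := unr (fixedField U) 2 Nat.prime_two B hB hB2' hIF (1 + X) X
        ((fixedField U).add_mem (fixedField U).one_mem hxF) 2 1
        (hunit X (-X) (by linear_combination -hXX)) h3
      norm_num at h4
  · -- e = 2 or e = -2
    set X : integralClosure ℤ Om := ⟨x, hxint⟩ with hX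
    rcases Int.natAbs_eq e with h2 | h2
    · rw [h1] at h2
      rw [h2] at hx
      have h3 : X ^ 2 = ((2 : ℕ) : integralClosure ℤ Om) ^ 1 * 1 := by
        apply Subtype.ext
        change x ^ 2 = (2 : Om) ^ 1 * 1
        rw [hx]
        norm_num
      have h4 := unr (fixedField U) 2 Nat.prime_two B hB hB2' hIF X 1 hxF 2 1
        (hunit 1 1 (by norm_num)) h3
      norm_num at h4
    · rw [h1] at h2
      rw [h2] at hx
      have h3 : X ^ 2 = ((2 : ℕ) : integralClosure ℤ Om) ^ 1 * (-1) := by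
        apply Subtype.ext
        change x ^ 2 = (2 : Om) ^ 1 * (-1)
        rw [hx]
        norm_num
      have h4 := unr (fixedField U) 2 Nat.prime_two B hB hB2' hIF X (-1) hxF 2 1
        (hunit (-1) (-1) (by norm_num)) h3
      norm_num at h4
  · -- an odd prime divides e
    have hv : ¬ 2 ∣ padicValInt l e := by
      have hlf : Fact l.Prime := ⟨hl⟩
      have h2 : padicValInt l e = 1 := by
        unfold padicValInt
        have h3 := one_le_padicValNat_of_dvd hsf.ne_zero hla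
        have h4 := hsf.natFactorization_le_one l
        rw [Nat.factorization_def _ hl] at h4
        omega
      rw [h2]
      norm_num
    obtain ⟨B', hB', hlB', t, ht, htx⟩ := exists_inertia_moves Nat.prime_two hl hl2 e hv x hx
    have h2B' : ((2 : ℕ) : integralClosure ℤ Om) ∉ B' := by
      intro h2
      have hodd : Odd l := hl.odd_of_ne_two hl2
      obtain ⟨k, hk⟩ := hodd
      have h3 : (1 : integralClosure ℤ Om) = (l : integralClosure ℤ Om) - ((2 : ℕ) : integralClosure ℤ Om) * k := by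
        rw [hk]
        push_cast
        ring
      exact hB'.ne_top ((Ideal.eq_top_iff_one B').2 (h3 ▸ B'.sub_mem hlB' (B'.mul_mem_right _ h2)))
    have htP : t ∈ P2 := R8_P2_of_mu t fun ζ hζ => inertia_fix_mu Nat.prime_two B' hB' h2B' t ht ζ hζ
    exact htx (hxU t (hNU (R8_inertia_N hψ h B' hB' t ht htP)))

end OzakiFree
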