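import Pool.Agent.Lib.MP_6e8030_nt.Base

open IntermediateField
open scoped ComplexConjugate

noncomputable section

namespace OzakiFree

/-! ### R9: Kummer descent (p odd) -/

private theorem R9_alg : Algebra.IsAlgebraic ℚ Om := AlgebraicClosure.isAlgebraic ℚ

private theorem R9_gal : IsGalois ℚ Om := by
  have h1 : Algebra.IsAlgebraic ℚ Om := R9_alg
  have h2 : IsAlgClosure ℚ Om := ⟨inferInstance, h1⟩
  have h3 : Normal ℚ Om := IsAlgClosure.normal ℚ Om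
  exact ⟨⟩

attribute [local instance] R9_alg R9_gal

/-- restriction to a finite normal subextension -/
private theorem R9_restr {K Ω : Type} [Field K] [Field Ω] [Algebra K Ω] (N : IntermediateField K Ω)
    (h1 : FiniteDimensional K N) (h2 : Normal K N) :
    ∃ (G : Type) (_ : Group G) (_ : Finite G) (r : (Ω ≃ₐ[K] Ω) →* G),
      ∀ g h, r g = r h ↔ ∀ x ∈ N, g x = h x := by
  refine ⟨N ≃ₐ[K] N, inferInstance, inferInstance, AlgEquiv.restrictNormalHom N, fun g h => ⟨fun hgh x hx => ?_, fun hgh => ?_⟩⟩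
  · have e1 := AlgEquiv.restrictNormal_commutes g N ⟨x, hx⟩
    have e2 := AlgEquiv.restrictNormal_commutes h N ⟨x, hx⟩
    have e3 : g.restrictNormal N = h.restrictNormal N := hgh
    rw [e3] at e1
    exact e1.symm.trans e2
  · apply AlgEquiv.ext
    intro x
    apply Subtype.ext
    have e1 := AlgEquiv.restrictNormal_commutes g N x
    have e2 := AlgEquiv.restrictNormal_commutes h N x
    exact e1.trans ((hgh x x.2).trans e2.symm)

private theorem R9_cyc {K Ω : Type} [Field K] [Field Ω] [Algebra K Ω] [Algebra.IsAlgebraic K Ω] [CharZero K] (n : ℕ) (hn : n ≠ 0)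
    (ξ : Ω) (hξ : IsPrimitiveRoot ξ n) :
    FiniteDimensional K (adjoin K {ξ}) ∧ Normal K (adjoin K {ξ}) := by
  have : NeZero n := ⟨hn⟩
  have := hξ.intermediateField_adjoin_isCyclotomicExtension K
  have h3 : IsGalois K (adjoin K {ξ}) := IsCyclotomicExtension.isGalois {n} K _
  exact ⟨IsCyclotomicExtension.finiteDimensional {n} K _, h3.to_normal⟩

private theorem R9_adjoin_fix (S : Set Om) (g : GQ) (hg : ∀ x ∈ S, g x = x) (z : Om) (hz : z ∈ adjoin ℚ S) :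
    g z = z := by
  have h1 : adjoin ℚ S ≤ IntermediateField.fixedField (Subgroup.zpowers g) := by
    rw [IntermediateField.adjoin_le_iff]
    intro x hx
    rw [SetLike.mem_coe, IntermediateField.mem_fixedField_iff]
    intro f hf
    have h2 : Subgroup.zpowers g ≤ MulAction.stabilizer GQ x := by
      rw [Subgroup.zpowers_le, MulAction.mem_stabilizer_iff]
      exact hg x hx
    exact MulAction.mem_stabilizer_iff.mp (h2 hf)
  have h3 := h1 hz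
  rw [IntermediateField.mem_fixedField_iff] at h3
  exact h3 g (Subgroup.mem_zpowers g)

private theorem R9_mem_Pmu (p : ℕ) (g : GQ) : g ∈ Pmu p ↔ ∀ ξ ∈ muInf p, g ξ = ξ := by
  constructor
  · intro hg ξ hξ
    rw [Pmu, IntermediateField.mem_fixingSubgroup_iff] at hg
    exact hg ξ (IntermediateField.subset_adjoin ℚ _ hξ)
  · intro h
    rw [Pmu, IntermediateField.mem_fixingSubgroup_iff]
    intro z hz
    exact R9_adjoin_fix _ g h z hz

private def R9_lvl (p m : ℕ) : IntermediateField ℚ Om := adjoin ℚ {ξ : Om | ξ ^ p ^ m = 1}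

private theorem R9_lvl_mono (p : ℕ) {m n : ℕ} (h : m ≤ n) : R9_lvl p m ≤ R9_lvl p n := by
  apply IntermediateField.adjoin.mono
  intro ξ hξ
  obtain ⟨k, rfl⟩ := Nat.exists_eq_add_of_le h
  simp only [Set.mem_ofPred_eq] at hξ ⊢
  rw [pow_add, pow_mul, hξ, one_pow]

/-- elements fixed by `Pmu p` lie in some cyclotomic field of `p`-power level -/
private theorem R9_level (p : ℕ) (z : Om) (hz : ∀ t ∈ Pmu p, t z = z) : ∃ m, ∀ n, m ≤ n → z ∈ R9_lvl p n := by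
  have h1 : z ∈ adjoin ℚ (muInf p) := by
    rw [← InfiniteGalois.fixedField_fixingSubgroup (adjoin ℚ (muInf p)), IntermediateField.mem_fixedField_iff]
    exact hz
  obtain ⟨T, hT, hz'⟩ := IntermediateField.exists_finset_of_mem_adjoin h1
  have h2 : ∀ ξ ∈ T, ∃ m : ℕ, ξ ^ p ^ m = 1 := fun ξ hξ => hT hξ
  have h3 : ∃ m : ℕ, ∀ ξ ∈ T, ξ ^ p ^ m = 1 := by
    classical
    clear hz' hT
    induction T using Finset.induction_on with
    | empty => exact ⟨0, by simp⟩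
    | insert a s ha ih =>
      obtain ⟨m, hm⟩ := ih (fun ξ hξ => h2 ξ (Finset.mem_insert_of_mem hξ))
      obtain ⟨n, hn⟩ := h2 a (Finset.mem_insert_self a s)
      refine ⟨m + n, fun ξ hξ => ?_⟩
      rcases Finset.mem_insert.mp hξ with rfl | h
      · rw [Nat.add_comm, pow_add, pow_mul, hn, one_pow]
      · rw [pow_add, pow_mul, hm ξ h, one_pow]
  obtain ⟨m, hm⟩ := h3
  refine ⟨m, fun n hn => R9_lvl_mono p hn ?_⟩
  exact IntermediateField.adjoin.mono ℚ _ _ (fun ξ hξ => hm ξ hξ) hz'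

private theorem R9_prim {p : ℕ} (hp : p.Prime) (m : ℕ) : ∃ ξ : Om, IsPrimitiveRoot ξ (p ^ m) := by
  have : NeZero (p ^ m) := ⟨pow_ne_zero _ hp.ne_zero⟩
  have : NeZero ((p ^ m : ℕ) : Om) := ⟨by exact_mod_cast pow_ne_zero m hp.ne_zero⟩
  exact HasEnoughRootsOfUnity.exists_primitiveRoot Om (p ^ m)

private theorem R9_lvl_eq {p : ℕ} (hp : p.Prime) (m : ℕ) (ξ : Om) (hξ : IsPrimitiveRoot ξ (p ^ m)) :
    R9_lvl p m = adjoin ℚ {ξ} := by
  have : NeZero (p ^ m) := ⟨pow_ne_zero _ hp.ne_zero⟩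
  apply le_antisymm
  · rw [R9_lvl, IntermediateField.adjoin_le_iff]
    intro x hx
    obtain ⟨i, -, rfl⟩ := hξ.eq_pow_of_pow_eq_one hx
    exact pow_mem (IntermediateField.subset_adjoin ℚ _ (Set.mem_singleton ξ)) i
  · rw [IntermediateField.adjoin_le_iff, Set.singleton_subset_iff]
    exact IntermediateField.subset_adjoin ℚ _ hξ.pow_eq_one

private theorem R9_lvl_gal {p : ℕ} (hp : p.Prime) (m : ℕ) :
    ∃ (G : Type) (_ : Group G) (_ : Finite G) (r : GQ →* G),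
      ∀ g h, r g = r h ↔ ∀ x ∈ R9_lvl p m, g x = h x := by
  obtain ⟨ξ, hξ⟩ := R9_prim hp m
  rw [R9_lvl_eq hp m ξ hξ]
  obtain ⟨h1, h2⟩ := R9_cyc (K := ℚ) _ (pow_ne_zero m hp.ne_zero) ξ hξ
  exact R9_restr _ h1 h2

private theorem R9_pow {p : ℕ} (σ₀ : GQ) (g₀ : ℕ) (hσ : ∀ ξ ∈ muInf p, σ₀ ξ = ξ ^ g₀) (i : ℕ) (ξ : Om) (hξ : ξ ∈ muInf p) :
    (σ₀ ^ i) ξ = ξ ^ (g₀ ^ i) := by
  induction i with
  | zero => simp
  | succ n ih =>
    rw [pow_succ', AlgEquiv.mul_apply, ih, map_pow, hσ ξ hξ, ← pow_mul, pow_succ, Nat.mul_comm]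

/-- elements of the cyclotomic tower fixed by `σ₀` are rational -/
private theorem R9_rat {p : ℕ} (hp : p.Prime) (σ₀ : GQ) (g₀ : ℕ) (hσ : ∀ ξ ∈ muInf p, σ₀ ξ = ξ ^ g₀)
    (hg : ∀ (m : ℕ) (a : (ZMod (p ^ m))ˣ), ∃ i : ℕ, (a : ZMod (p ^ m)) = (g₀ : ZMod (p ^ m)) ^ i)
    (z : Om) (hz : ∀ t ∈ Pmu p, t z = z) (hz0 : σ₀ z = z) : ∃ q : ℚ, z = (q : Om) := by
  obtain ⟨m, hm⟩ := R9_level p z hz
  have hzm := hm m le_rfl
  obtain ⟨ξ, hξ⟩ := R9_prim hp m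
  have : NeZero (p ^ m) := ⟨pow_ne_zero _ hp.ne_zero⟩
  rw [R9_lvl_eq hp m ξ hξ] at hzm
  have hξmu : ξ ∈ muInf p := ⟨m, hξ.pow_eq_one⟩
  have hfix : ∀ τ : GQ, τ z = z := by
    intro τ
    have h1 : IsPrimitiveRoot (τ ξ) (p ^ m) := hξ.map_of_injective τ.injective
    obtain ⟨a, ha, ha'⟩ := hξ.eq_pow_of_pow_eq_one h1.pow_eq_one
    have hcop : a.Coprime (p ^ m) := by
      rw [← hξ.pow_iff_coprime (Nat.pos_of_ne_zero (NeZero.ne _)), ha']
      exact h1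
    obtain ⟨i, hi⟩ := hg m (ZMod.unitOfCoprime a hcop)
    rw [ZMod.coe_unitOfCoprime, ← Nat.cast_pow, ZMod.natCast_eq_natCast_iff] at hi
    have h2 : τ ξ = (σ₀ ^ i) ξ := by
      rw [← ha', R9_pow σ₀ g₀ hσ i ξ hξmu, pow_eq_pow_mod a hξ.pow_eq_one, pow_eq_pow_mod (g₀ ^ i) hξ.pow_eq_one, hi]
    have h3 : ((σ₀ ^ i)⁻¹ * τ) z = z := by
      apply R9_adjoin_fix {ξ} _ _ z hzm
      intro x hx
      rw [Set.mem_singleton_iff.mp hx, AlgEquiv.mul_apply, h2, ← AlgEquiv.mul_apply, inv_mul_cancel, AlgEquiv.one_apply]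
    have h4 : ∀ j : ℕ, (σ₀ ^ j) z = z := by
      intro j
      induction j with
      | zero => simp
      | succ n ih => rw [pow_succ', AlgEquiv.mul_apply, ih, hz0]
    have h5 : τ z = (σ₀ ^ i) (((σ₀ ^ i)⁻¹ * τ) z) := by
      rw [← AlgEquiv.mul_apply, mul_inv_cancel_left]
    rw [h5, h3, h4]
  obtain ⟨q, hq⟩ := (InfiniteGalois.mem_range_algebraMap_iff_fixed z).mpr hfix
  exact ⟨q, by rw [← hq]; simp⟩

/-- independence of automorphisms restricted to an intermediate field -/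
private theorem R9_indep (A : IntermediateField ℚ Om) {ι : Type*} [Fintype ι] (τ : ι → GQ)
    (hinj : ∀ i j, (∀ w ∈ A, τ i w = τ j w) → i = j) (c : ι → Om) (i₀ : ι) (hc : c i₀ ≠ 0) :
    ∃ w ∈ A, ∑ i, c i * τ i w ≠ 0 := by
  by_contra hcon
  push Not at hcon
  let f : ι → (A →* Om) := fun i => (((τ i : Om ≃ₐ[ℚ] Om) : Om →* Om).comp ((algebraMap A Om : A →+* Om) : A →* Om))
  have hf : Function.Injective f := by
    intro i j hij
    apply hinj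
    intro w hw
    exact DFunLike.congr_fun hij ⟨w, hw⟩
  have h1 := (linearIndependent_monoidHom A Om).comp f hf
  rw [Fintype.linearIndependent_iff] at h1
  apply hc
  apply h1 c
  funext w
  simp only [Function.comp, Finset.sum_apply, Pi.smul_apply, smul_eq_mul, Pi.zero_apply]
  exact hcon w w.2

private theorem R9_val {p : ℕ} (ζ : Om) (hζ : ζ ^ p = 1) (n : ℕ) : ζ ^ (n : ZMod p).val = ζ ^ n := by
  rw [ZMod.val_natCast]
  exact (pow_eq_pow_mod n hζ).symm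

private theorem R9_add {p : ℕ} [NeZero p] (ζ : Om) (hζ : ζ ^ p = 1) (a b : ZMod p) :
    ζ ^ (a + b).val = ζ ^ a.val * ζ ^ b.val := by
  rw [← pow_add, ← R9_val ζ hζ (a.val + b.val)]
  simp

private theorem R9_mul {p : ℕ} [NeZero p] (ζ : Om) (hζ : ζ ^ p = 1) (a : ZMod p) (g : ℕ) :
    (ζ ^ a.val) ^ g = ζ ^ ((g : ZMod p) * a).val := by
  rw [← pow_mul, ← R9_val ζ hζ (a.val * g)]
  congr 2
  push_cast
  rw [ZMod.natCast_zmod_val, mul_comm]

/-- a resolvent -/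
private theorem R9_res {p : ℕ} (hp : p.Prime) (ζ : Om) (hζ : ζ ^ p = 1)
    (θ : GQ → ZMod p) (hθ : HomOn (Pmu p) θ) (hc : LCOn (Pmu p) θ) :
    ∃ y : Om, y ≠ 0 ∧ ∀ t ∈ Pmu p, t y = ζ ^ (θ t).val * y := by
  have : NeZero p := ⟨hp.ne_zero⟩
  obtain ⟨U, hU, hUθ⟩ := hc
  have hnhds : (U : Set GQ) ∈ nhds (1 : GQ) := hU.mem_nhds U.one_mem
  rw [krullTopology_mem_nhds_one_iff_of_normal] at hnhds
  obtain ⟨N, hfin, hnor, hNU⟩ := hnhds
  have hN : ∀ g : GQ, (∀ x ∈ N, g x = x) → g ∈ U := by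
    intro g hg
    apply hNU
    rw [SetLike.mem_coe, IntermediateField.mem_fixingSubgroup_iff]
    exact hg
  obtain ⟨G, _, _, r, hr⟩ := R9_restr N hfin hnor
  have hreq : ∀ g h : GQ, r g = r h → ∀ x ∈ N, g x = h x := fun g h => (hr g h).mp
  have hθeq : ∀ g ∈ Pmu p, ∀ h ∈ Pmu p, r g = r h → θ g = θ h := by
    intro g hg h hh hgh
    have h1 : g = h * (h⁻¹ * g) := by group
    have h2 : h⁻¹ * g ∈ Pmu p := (Pmu p).mul_mem ((Pmu p).inv_mem hh) hg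
    rw [h1]
    apply hUθ h hh _ _ h2
    apply hN
    intro x hx
    rw [AlgEquiv.mul_apply, hreq g h hgh x hx, ← AlgEquiv.mul_apply, inv_mul_cancel, AlgEquiv.one_apply]
  have : Finite ↥((Pmu p).map r) := inferInstance
  have := Fintype.ofFinite ↥((Pmu p).map r)
  have hlift : ∀ τ : ↥((Pmu p).map r), ∃ g : GQ, g ∈ Pmu p ∧ r g = τ.1 := fun τ => Subgroup.mem_map.mp τ.2
  choose L hLP hLr using hlift
  obtain ⟨w, hw, hne⟩ := R9_indep N L (by
    intro i j hij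
    apply Subtype.ext
    rw [← hLr i, ← hLr j]
    exact (hr _ _).mpr hij) (fun τ => ζ ^ (-(θ (L τ))).val) 1 (by
      intro h
      have hz : ζ ≠ 0 := by
        rintro rfl
        rw [zero_pow hp.ne_zero] at hζ
        exact zero_ne_one hζ
      exact pow_ne_zero _ hz h)
  refine ⟨_, hne, ?_⟩
  intro t ht
  have hζmu : ∀ n : ℕ, t (ζ ^ n) = ζ ^ n := by
    intro n
    rw [map_pow, (R9_mem_Pmu p t).mp ht ζ ⟨1, by rw [pow_one]; exact hζ⟩]
  rw [map_sum, Finset.mul_sum]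
  have hmem : r t ∈ (Pmu p).map r := Subgroup.mem_map_of_mem r ht
  refine Fintype.sum_equiv (Equiv.mulLeft (⟨r t, hmem⟩ : ↥((Pmu p).map r))) _ _ ?_
  intro τ
  rw [Equiv.coe_mulLeft]
  set τ' := (⟨r t, hmem⟩ : ↥((Pmu p).map r)) * τ with hτ'
  have e1 : r (L τ') = r (t * L τ) := by
    rw [hLr, map_mul, hLr, hτ']
    rfl
  have e2 : θ (L τ') = θ t + θ (L τ) := by
    rw [hθeq _ (hLP τ') _ ((Pmu p).mul_mem ht (hLP τ)) e1]
    exact hθ t ht _ (hLP τ)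
  have e3 : L τ' w = t (L τ w) := hreq _ _ e1 w hw
  rw [map_mul, hζmu, e3, ← mul_assoc, ← R9_add ζ hζ, e2]
  congr 3
  ring

theorem kummer_descent {p : ℕ} (hp : p.Prime) (hp2 : p ≠ 2) (ζ : Om) (hζ : IsPrimitiveRoot ζ p)
    (σ₀ : GQ) (g₀ : ℕ) (hσ : ∀ ξ ∈ muInf p, σ₀ ξ = ξ ^ g₀)
    (hg : ∀ (m : ℕ) (a : (ZMod (p ^ m))ˣ), ∃ i : ℕ, (a : ZMod (p ^ m)) = (g₀ : ZMod (p ^ m)) ^ i)
    (θ : GQ → ZMod p) (hθ : HomOn (Pmu p) θ) (hc : LCOn (Pmu p) θ)
    (heq : ∀ t ∈ Pmu p, θ (σ₀ * t * σ₀⁻¹) = (g₀ : ZMod p) * θ t) :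
    ∃ (b : ℤ) (x : Om), b ≠ 0 ∧ x ^ p = (b : Om) ∧ ∀ t ∈ Pmu p, t x = ζ ^ (θ t).val * x := by
  have : NeZero p := ⟨hp.ne_zero⟩
  have hζ1 : ζ ^ p = 1 := hζ.pow_eq_one
  have hζne : ζ ≠ 0 := hζ.ne_zero hp.ne_zero
  have hζmu : ζ ∈ muInf p := ⟨1, by rw [pow_one]; exact hζ1⟩
  have hinj : ∀ a b : Om, σ₀ a = σ₀ b → a = b := fun a b h => σ₀.injective h
  -- `P` is stable under conjugation by `σ₀⁻¹`
  have hPn : ∀ t ∈ Pmu p, σ₀⁻¹ * t * σ₀ ∈ Pmu p := by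
    intro t ht
    rw [R9_mem_Pmu] at ht ⊢
    intro ξ hξ
    have h1 : σ₀ ξ ∈ muInf p := by
      obtain ⟨m, hm⟩ := hξ
      exact ⟨m, by rw [← map_pow, hm, map_one]⟩
    rw [AlgEquiv.mul_apply, AlgEquiv.mul_apply, ht _ h1, ← AlgEquiv.mul_apply, inv_mul_cancel, AlgEquiv.one_apply]
  -- σ₀ preserves semi-invariants and invariants
  have hswap : ∀ (t : GQ) (z : Om), t (σ₀ z) = σ₀ ((σ₀⁻¹ * t * σ₀) z) := by
    intro t z
    rw [← AlgEquiv.mul_apply, ← AlgEquiv.mul_apply]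
    congr 1
    group
  have hsemi : ∀ z : Om, (∀ t ∈ Pmu p, t z = ζ ^ (θ t).val * z) → ∀ t ∈ Pmu p, t (σ₀ z) = ζ ^ (θ t).val * σ₀ z := by
    intro z hz t ht
    have ht' := hPn t ht
    have h1 := heq _ ht'
    have h2 : σ₀ * (σ₀⁻¹ * t * σ₀) * σ₀⁻¹ = t := by group
    rw [h2] at h1
    rw [hswap, hz _ ht', map_mul, map_pow, hσ ζ hζmu, ← pow_mul, Nat.mul_comm, pow_mul, R9_mul ζ hζ1, h1]
  have hinv : ∀ z : Om, (∀ t ∈ Pmu p, t z = z) → ∀ t ∈ Pmu p, t (σ₀ z) = σ₀ z := by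
    intro z hz t ht
    rw [hswap, hz _ (hPn t ht)]
  have hsemi' : ∀ (i : ℕ) (z : Om), (∀ t ∈ Pmu p, t z = ζ ^ (θ t).val * z) →
      ∀ t ∈ Pmu p, t ((σ₀ ^ i) z) = ζ ^ (θ t).val * (σ₀ ^ i) z := by
    intro i
    induction i with
    | zero => intro z hz; simpa using hz
    | succ n ih =>
      intro z hz
      rw [pow_succ', AlgEquiv.mul_apply]
      exact hsemi _ (ih z hz)
  have hinv' : ∀ (i : ℕ) (z : Om), (∀ t ∈ Pmu p, t z = z) → ∀ t ∈ Pmu p, t ((σ₀ ^ i) z) = (σ₀ ^ i) z := by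
    intro i
    induction i with
    | zero => intro z hz; simpa using hz
    | succ n ih =>
      intro z hz
      rw [pow_succ', AlgEquiv.mul_apply]
      exact hinv _ (ih z hz)
  -- ratio and power of semi-invariants
  have hratio : ∀ y z : Om, y ≠ 0 → (∀ t ∈ Pmu p, t y = ζ ^ (θ t).val * y) →
      (∀ t ∈ Pmu p, t z = ζ ^ (θ t).val * z) → ∀ t ∈ Pmu p, t (z / y) = z / y := by
    intro y z hy hy1 hz1 t ht
    rw [map_div₀, hy1 t ht, hz1 t ht]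
    exact mul_div_mul_left _ _ (pow_ne_zero _ hζne)
  have hpow : ∀ y : Om, (∀ t ∈ Pmu p, t y = ζ ^ (θ t).val * y) → ∀ t ∈ Pmu p, t (y ^ p) = y ^ p := by
    intro y hy t ht
    rw [map_pow, hy t ht, mul_pow, ← pow_mul, Nat.mul_comm, pow_mul, hζ1, one_pow, one_mul]
  obtain ⟨y, hy0, hy⟩ := R9_res hp ζ hζ1 θ hθ hc
  have hσy0 : σ₀ y ≠ 0 := fun h => hy0 (hinj y 0 (by rw [h, map_zero]))
  obtain ⟨m₁, hm₁⟩ := R9_level p (y ^ p) (hpow y hy)
  obtain ⟨m₂, hm₂⟩ := R9_level p (σ₀ y / y) (hratio y (σ₀ y) hy0 hy (hsemi y hy))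
  obtain ⟨m, hm⟩ : ∃ m, m = max m₁ m₂ := ⟨_, rfl⟩
  have hyA : y ^ p ∈ R9_lvl p m := hm₁ m (hm ▸ le_max_left _ _)
  have hsA : σ₀ y / y ∈ R9_lvl p m := hm₂ m (hm ▸ le_max_right _ _)
  have hAP : ∀ a ∈ R9_lvl p m, ∀ t ∈ Pmu p, t a = a := by
    intro a ha t ht
    apply R9_adjoin_fix _ t _ a ha
    intro ξ hξ
    exact (R9_mem_Pmu p t).mp ht ξ ⟨m, hξ⟩
  obtain ⟨G, _, _, r, hr⟩ := R9_lvl_gal hp m
  have hM : 0 < orderOf (r σ₀) := orderOf_pos (r σ₀)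
  obtain ⟨M, hMdef⟩ : ∃ M, M = orderOf (r σ₀) := ⟨_, rfl⟩
  rw [← hMdef] at hM
  have hMfix : ∀ a ∈ R9_lvl p m, (σ₀ ^ M) a = a := by
    intro a ha
    have h1 : r (σ₀ ^ M) = r 1 := by
      rw [map_pow, hMdef, pow_orderOf_eq_one, map_one]
    exact (hr _ _).mp h1 a ha
  -- c = σ₀^M y / y is 1
  have hMy : (σ₀ ^ M) y = y := by
    have hcP := hratio y ((σ₀ ^ M) y) hy0 hy (hsemi' M y hy)
    have hcσ : σ₀ ((σ₀ ^ M) y / y) = (σ₀ ^ M) y / y := by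
      have h1 : σ₀ ((σ₀ ^ M) y) = (σ₀ ^ M) (σ₀ y) := by
        rw [← AlgEquiv.mul_apply, ← AlgEquiv.mul_apply, ← pow_succ', pow_succ]
      have h2 : σ₀ y = (σ₀ y / y) * y := by field_simp
      rw [map_div₀, h1, h2, map_mul, hMfix _ hsA]
      have h3 : σ₀ y / y ≠ 0 := div_ne_zero hσy0 hy0
      rw [mul_div_mul_left _ _ h3]
    obtain ⟨q, hq⟩ := R9_rat hp σ₀ g₀ hσ hg _ hcP hcσ
    have hqp : (q : Om) ^ p = 1 := by
      rw [← hq, div_pow, ← map_pow, hMfix _ hyA, div_self (pow_ne_zero _ hy0)]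
    have hqp' : q ^ p = 1 := by exact_mod_cast hqp
    have hodd : Odd p := hp.odd_of_ne_two hp2
    have hq1 : q = 1 := (hodd.strictMono_pow.injective : Function.Injective fun x : ℚ => x ^ p) (by simpa using hqp')
    rw [hq1, Rat.cast_one, div_eq_one_iff_eq hy0] at hq
    exact hq
  -- Hilbert 90
  obtain ⟨a, haA, hane⟩ := R9_indep (R9_lvl p m) (fun i : Fin M => σ₀ ^ (i : ℕ)) (by
    intro i j hij
    apply Fin.ext
    apply pow_injOn_Iio_orderOf (x := r σ₀)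
    · rw [← hMdef]; exact i.2
    · rw [← hMdef]; exact j.2
    · change r σ₀ ^ (i : ℕ) = r σ₀ ^ (j : ℕ)
      rw [← map_pow, ← map_pow]
      exact (hr _ _).mpr hij) (fun i => (σ₀ ^ (i : ℕ)) y) ⟨0, hM⟩ (by simpa using hy0)
  obtain ⟨x', hx'⟩ : ∃ x', x' = ∑ i ∈ Finset.range M, (σ₀ ^ i) (a * y) := ⟨_, rfl⟩
  have hx0 : x' ≠ 0 := by
    rw [hx', Finset.sum_range]
    convert hane using 3 with i
    rw [map_mul, mul_comm]
  have hxσ : σ₀ x' = x' := by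
    have h1 : σ₀ x' = ∑ i ∈ Finset.range M, (σ₀ ^ (i + 1)) (a * y) := by
      rw [hx', map_sum]
      refine Finset.sum_congr rfl fun i _ => ?_
      rw [pow_succ', AlgEquiv.mul_apply]
    have h2 := Finset.sum_range_succ (fun i => (σ₀ ^ i) (a * y)) M
    rw [Finset.sum_range_succ'] at h2
    rw [← h1, ← hx'] at h2
    have h3 : (σ₀ ^ M) (a * y) = (σ₀ ^ 0) (a * y) := by
      rw [map_mul, hMfix a haA, hMy, pow_zero, AlgEquiv.one_apply]
    rw [h3] at h2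
    exact add_right_cancel h2
  have hxY : ∀ t ∈ Pmu p, t x' = ζ ^ (θ t).val * x' := by
    intro t ht
    rw [hx', map_sum, Finset.mul_sum]
    refine Finset.sum_congr rfl fun i _ => ?_
    rw [map_mul, map_mul, hsemi' i y hy t ht, hinv' i a (hAP a haA) t ht]
    ring
  obtain ⟨q, hq⟩ := R9_rat hp σ₀ g₀ hσ hg (x' ^ p) (hpow x' hxY) (by rw [map_pow, hxσ])
  have hq0 : q ≠ 0 := by
    rintro rfl
    rw [Rat.cast_zero] at hq
    exact pow_ne_zero p hx0 hq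
  refine ⟨q.num * (q.den : ℤ) ^ (p - 1), (q.den : Om) * x', ?_, ?_, ?_⟩
  · exact mul_ne_zero (Rat.num_ne_zero.mpr hq0) (pow_ne_zero _ (by exact_mod_cast q.den_nz))
  · rw [mul_pow, hq]
    have h1 : (q : Om) * (q.den : Om) = (q.num : Om) := by
      have := Rat.mul_den_eq_num q
      exact_mod_cast congrArg (fun z : ℚ => (z : Om)) this
    have h2 : (q.den : Om) ^ p = (q.den : Om) ^ (p - 1) * q.den := by
      rw [← pow_succ, Nat.sub_add_cancel hp.one_le]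
    rw [h2]
    push_cast
    rw [← h1]
    ring
  · intro t ht
    rw [map_mul, hxY t ht, map_natCast]
    ring

end OzakiFree
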