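import Pool.Agent.Lib.MP_6e8030_nt.R1
import Pool.Agent.Lib.MP_6e8030_nt.R2
import Pool.Agent.Lib.MP_6e8030_nt.R4
import Pool.Agent.Lib.MP_6e8030_nt.R5
import Pool.Agent.Lib.MP_6e8030_nt.R6
import Pool.Agent.Lib.MP_6e8030_nt.R7
import Pool.Agent.Lib.MP_6e8030_nt.R8
import Pool.Agent.Lib.MP_6e8030_nt.R9
import Pool.Agent.Lib.MP_6e8030_nt.R10a
import Pool.Agent.Lib.MP_6e8030_nt.R10b
import Pool.Agent.Lib.MP_6e8030_nt.R13
import Pool.Agent.Lib.MP_6e8030_nt.N3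
import Pool.Agent.Lib.MP_6e8030_nt.GF
import Pool.Agent.Lib.MP_6e8030_nt.N11
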