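import Mathlib

open scoped Classical in
noncomputable section

namespace OzakiFree

private theorem U1_mult {B : Type*} [AddCommGroup B] (f g : B →+ B) :
    (f.comp g).range.index * (Nat.card f.ker * Nat.card g.ker) =
      f.range.index * g.range.index * Nat.card (f.comp g).ker := by
  have h1 : (f.comp g).range.index = (g.range ⊔ f.ker).index * f.range.index := by
    rw [AddMonoidHom.range_comp, AddSubgroup.index_map]
  have h3 : g.range.relIndex f.ker * (g.range ⊔ f.ker).index = g.range.index := by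
    rw [← AddSubgroup.relIndex_sup_left (H := f.ker) (K := g.range)]
    exact AddSubgroup.relIndex_mul_index le_sup_left
  have h5 : Nat.card (g.range ⊓ f.ker : AddSubgroup B) * g.range.relIndex f.ker =
      Nat.card f.ker := by
    rw [← AddSubgroup.relIndex_bot_left (H := f.ker), ← AddSubgroup.inf_relIndex_right,
      ← AddSubgroup.relIndex_bot_left (H := g.range ⊓ f.ker)]
    exact AddSubgroup.relIndex_mul_relIndex _ _ _ bot_le inf_le_right
  have h6 : Nat.card g.ker * Nat.card (g.range ⊓ f.ker : AddSubgroup B) =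
      Nat.card (f.comp g).ker := by
    have e1 : (f.comp g).ker = f.ker.comap g := by
      ext x; simp [AddMonoidHom.mem_ker]
    rw [e1, ← AddSubgroup.map_comap_eq, ← AddSubgroup.relIndex_ker,
      ← AddSubgroup.relIndex_bot_left (H := g.ker),
      ← AddSubgroup.relIndex_bot_left (H := f.ker.comap g)]
    refine AddSubgroup.relIndex_mul_relIndex _ _ _ bot_le ?_
    intro x hx
    rw [AddSubgroup.mem_comap, AddMonoidHom.mem_ker.1 hx]
    exact zero_mem _
  rw [h1, ← h3, ← h5, ← h6]
  ring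

private theorem U1_nsmul (B : Type*) [AddCommGroup B] [Module.Finite ℤ B] (p : ℕ) (hp : p ≠ 0) :
    (nsmulAddMonoidHom (α := B) p).range.index =
      p ^ Module.finrank ℤ B * Nat.card (nsmulAddMonoidHom (α := B) p).ker ∧
    Nat.card (nsmulAddMonoidHom (α := B) p).ker ≠ 0 := by
  set T : Submodule ℤ B := Submodule.torsion ℤ B with hT
  have hTf : Finite T := Module.finite_of_fg_torsion T (Submodule.torsion_isTorsion)
  set f := nsmulAddMonoidHom (α := B) p with hf
  have hmemT : ∀ x : B, p • x ∈ T → x ∈ T := by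
    intro x hx
    rw [hT, Submodule.mem_torsion_iff] at hx ⊢
    obtain ⟨a, ha⟩ := hx
    refine ⟨a * ⟨(p : ℤ), by simpa [mem_nonZeroDivisors_iff_ne_zero] using hp⟩, ?_⟩
    rw [mul_smul]
    have e : ((⟨(p : ℤ), by simpa [mem_nonZeroDivisors_iff_ne_zero] using hp⟩ : nonZeroDivisors ℤ)
      • x) = p • x := by
      change (p : ℤ) • x = p • x
      rw [natCast_zsmul]
    rw [e, ha]
  have hkT : f.ker ≤ T.toAddSubgroup := by
    intro x hx
    have hx' : p • x = 0 := hx
    exact hmemT x (by rw [hx']; exact zero_mem _)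
  have hfin : Finite f.ker := by
    have : Finite T.toAddSubgroup := hTf
    exact Finite.of_injective (AddSubgroup.inclusion hkT) (AddSubgroup.inclusion_injective hkT)
  refine ⟨?_, Nat.card_pos.ne'⟩
  have hfree : Module.Free ℤ (B ⧸ T) := by
    have : Module.IsTorsionFree ℤ (B ⧸ T) := inferInstance
    infer_instance
  have hrk : Module.finrank ℤ (B ⧸ T) = Module.finrank ℤ B :=
    finrank_quotient_eq_of_le_torsion le_rfl
  set q : B →+ B ⧸ T := T.mkQ.toAddMonoidHom with hq
  have hqs : Function.Surjective q := T.mkQ_surjective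
  have hqk : q.ker = T.toAddSubgroup := by
    ext x
    simp [hq, AddMonoidHom.mem_ker]
  have hqr : q.range = ⊤ := AddMonoidHom.range_eq_top.2 hqs
  have h1 : (f.range ⊔ T.toAddSubgroup).index = p ^ Module.finrank ℤ B := by
    have e1 := AddSubgroup.index_map (H := f.range) q
    rw [hqk, hqr, AddSubgroup.index_top, mul_one] at e1
    rw [← e1, ← hrk, ← AddSubgroup.index_range_nsmul (B ⧸ T) p]
    congr 1
    ext x
    constructor
    · rintro ⟨y, ⟨z, rfl⟩, rfl⟩
      exact ⟨q z, by simp [hf]⟩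
    · rintro ⟨y, rfl⟩
      obtain ⟨z, rfl⟩ := hqs y
      exact ⟨f z, ⟨z, rfl⟩, by simp [hf]⟩
  have h2 : f.range.relIndex T.toAddSubgroup = Nat.card f.ker := by
    set fT := nsmulAddMonoidHom (α := T.toAddSubgroup) p with hfT
    have hTf' : Finite T.toAddSubgroup := hTf
    have e1 : fT.range.index = Nat.card fT.ker := AddSubgroup.index_range
    have e2 : f.range.addSubgroupOf T.toAddSubgroup = fT.range := by
      ext x
      constructor
      · intro hx
        rw [AddSubgroup.mem_addSubgroupOf] at hx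
        obtain ⟨y, hy⟩ := hx
        have hy' : p • y = (x : B) := hy
        have hyT : y ∈ T := hmemT y (by rw [hy']; exact x.2)
        exact ⟨⟨y, hyT⟩, Subtype.ext hy'⟩
      · rintro ⟨y, rfl⟩
        rw [AddSubgroup.mem_addSubgroupOf]
        exact ⟨(y : B), by simp [hf, hfT]⟩
    have e3 : Nat.card fT.ker = Nat.card f.ker := by
      refine Nat.card_congr ⟨fun x => ⟨(x : T.toAddSubgroup), ?_⟩, fun x => ⟨⟨(x : B), hkT x.2⟩, ?_⟩, ?_, ?_⟩
      · have hx : p • (x : T.toAddSubgroup) = 0 := x.2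
        change p • ((x : T.toAddSubgroup) : B) = 0
        exact congrArg Subtype.val hx
      · have hx : p • (x : B) = 0 := x.2
        exact Subtype.ext hx
      · intro x; rfl
      · intro x; rfl
    rw [AddSubgroup.relIndex, e2, e1, e3]
  have h3 : f.range.relIndex T.toAddSubgroup * (f.range ⊔ T.toAddSubgroup).index =
      f.range.index := by
    rw [← AddSubgroup.relIndex_sup_left (H := T.toAddSubgroup) (K := f.range)]
    exact AddSubgroup.relIndex_mul_index le_sup_left
  rw [← h3, h1, h2, mul_comm]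

open Polynomial in
/-- `∏_{0<i<p} (1 - X^i) = p` modulo `1 + X + ... + X^(p-1)` -/
private theorem U1_poly {p : ℕ} (hp : p.Prime) :
    ∃ h : ℤ[X], ∏ k ∈ Finset.range (p - 1), (1 - (X : ℤ[X]) ^ (k + 1)) =
      C (p : ℤ) + h * ∑ i ∈ Finset.range p, X ^ i := by
  have : Fact p.Prime := ⟨hp⟩
  have hζ := Complex.isPrimitiveRoot_exp p hp.ne_zero
  set ζ := Complex.exp (2 * Real.pi * Complex.I / p)
  have hd : cyclotomic p ℤ ∣ ∏ k ∈ Finset.range (p - 1), (1 - (X : ℤ[X]) ^ (k + 1)) -
      C (p : ℤ) := by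
    rw [cyclotomic_eq_minpoly hζ hp.pos]
    refine minpoly.isIntegrallyClosed_dvd (hζ.isIntegral hp.pos) ?_
    have h1 : IsPrimitiveRoot ζ ((p - 1) + 1) := by
      rwa [Nat.sub_add_cancel hp.one_lt.le]
    have h2 := h1.prod_one_sub_pow_eq_order
    rw [map_sub, map_prod]
    simp only [map_sub, map_one, map_pow, aeval_X, aeval_C, h2]
    have h3 : (((p - 1 : ℕ) : ℂ) + 1) = (p : ℂ) := by
      rw [← Nat.cast_add_one, Nat.sub_add_cancel hp.one_lt.le]
    rw [h3]
    simp
  obtain ⟨h, hh⟩ := hd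
  refine ⟨h, ?_⟩
  rw [cyclotomic_prime] at hh
  linear_combination hh

/-- kernel of an endomorphism -/
private def U1_K {B : Type*} [AddCommGroup B] (u : AddMonoid.End B) : AddSubgroup B :=
  AddMonoidHom.ker (u : B →+ B)

/-- image of an endomorphism -/
private def U1_R {B : Type*} [AddCommGroup B] (u : AddMonoid.End B) : AddSubgroup B :=
  AddMonoidHom.range (u : B →+ B)

private theorem U1_memK {B : Type*} [AddCommGroup B] {u : AddMonoid.End B} {x : B} :
    x ∈ U1_K u ↔ u x = 0 := Iff.rfl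

private theorem U1_memR {B : Type*} [AddCommGroup B] {u : AddMonoid.End B} {x : B} :
    x ∈ U1_R u ↔ ∃ y, u y = x := Iff.rfl

private theorem U1_mult' {B : Type*} [AddCommGroup B] (f g : AddMonoid.End B) :
    (U1_R (f * g)).index * (Nat.card (U1_K f) * Nat.card (U1_K g)) =
      (U1_R f).index * (U1_R g).index * Nat.card (U1_K (f * g)) :=
  U1_mult (f : B →+ B) (g : B →+ B)

private theorem U1_ker_le {B : Type*} [AddCommGroup B] {u v w : AddMonoid.End B}
    (h : u = w * v) : U1_K v ≤ U1_K u := by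
  intro x hx
  have hx' : v x = 0 := hx
  change u x = 0
  rw [h]
  change w (v x) = 0
  rw [hx', map_zero]

private theorem U1_range_le {B : Type*} [AddCommGroup B] {u v w : AddMonoid.End B}
    (h : u = v * w) : U1_R u ≤ U1_R v := by
  rintro x ⟨y, rfl⟩
  exact ⟨w y, by rw [h]; rfl⟩

private theorem U1_pow {B : Type*} [AddCommGroup B] {p : ℕ} (hp : p.Prime)
    (τ : AddMonoid.End B) (hτ : τ ^ p = 1) (i : ℕ) (hi : 0 < i) (hip : i < p) :
    U1_K (1 - τ ^ i) = U1_K (1 - τ) ∧ U1_R (1 - τ ^ i) = U1_R (1 - τ) := by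
  obtain ⟨j, hj⟩ : ∃ j : ℕ, τ ^ (i * j) = τ := by
    have hc : Nat.Coprime i p :=
      ((Nat.Prime.coprime_iff_not_dvd hp).2 (Nat.not_dvd_of_pos_of_lt hi hip)).symm
    obtain ⟨j, -, hj⟩ := Nat.exists_mul_mod_eq_one_of_coprime hc hp.one_lt
    refine ⟨j, ?_⟩
    rw [← Nat.div_add_mod (i * j) p, hj, pow_add, pow_mul, hτ, one_pow, one_mul, pow_one]
  have h1 : 1 - τ ^ i = (∑ k ∈ Finset.range i, τ ^ k) * (1 - τ) := (geom_sum_mul_neg _ _).symm
  have h2 : 1 - τ ^ i = (1 - τ) * (∑ k ∈ Finset.range i, τ ^ k) := (mul_neg_geom_sum _ _).symm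
  have h3 : 1 - τ = (∑ k ∈ Finset.range j, (τ ^ i) ^ k) * (1 - τ ^ i) := by
    rw [geom_sum_mul_neg, ← pow_mul, hj]
  have h4 : 1 - τ = (1 - τ ^ i) * (∑ k ∈ Finset.range j, (τ ^ i) ^ k) := by
    rw [mul_neg_geom_sum, ← pow_mul, hj]
  exact ⟨le_antisymm (U1_ker_le h3) (U1_ker_le h1), le_antisymm (U1_range_le h2) (U1_range_le h4)⟩

private theorem U1_nsmul' (B : Type*) [AddCommGroup B] [Module.Finite ℤ B] (p : ℕ) (hp : p ≠ 0) :
    (U1_R (p : AddMonoid.End B)).index =
      p ^ Module.finrank ℤ B * Nat.card (U1_K (p : AddMonoid.End B)) ∧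
    Nat.card (U1_K (p : AddMonoid.End B)) ≠ 0 := by
  have e : (p : AddMonoid.End B) = nsmulAddMonoidHom (α := B) p := by
    ext x
    simp
    rfl
  rw [e]
  exact U1_nsmul B p hp

private theorem U1_fin {B : Type*} [AddCommGroup B] [Module.Finite ℤ B] {p : ℕ} (hp : p ≠ 0)
    {u w : AddMonoid.End B} (h : (p : AddMonoid.End B) = w * u) : Nat.card (U1_K u) ≠ 0 := by
  have hfin : Finite (U1_K (p : AddMonoid.End B)) :=
    Nat.finite_of_card_ne_zero (U1_nsmul' B p hp).2
  have hle := U1_ker_le h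
  have : Finite (U1_K u) :=
    Finite.of_injective (AddSubgroup.inclusion hle) (AddSubgroup.inclusion_injective hle)
  exact Nat.card_pos.ne'

open Polynomial in
private theorem U1_tau {B : Type*} [AddCommGroup B] [Module.Finite ℤ B] {p : ℕ} (hp : p.Prime)
    (τ : AddMonoid.End B) (hτ : ∑ i ∈ Finset.range p, τ ^ i = 0) (b : ℕ)
    (hb : Module.finrank ℤ B = b * (p - 1)) :
    (U1_R (1 - τ)).index = p ^ b * Nat.card (U1_K (1 - τ)) ∧
      Nat.card (U1_K (1 - τ)) ≠ 0 := by
  have hp1 : 0 < p - 1 := Nat.sub_pos_of_lt hp.one_lt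
  have hτp : τ ^ p = 1 := by
    have := geom_sum_mul τ p
    rw [hτ, zero_mul, eq_comm, sub_eq_zero] at this
    exact this
  obtain ⟨h, hh⟩ := U1_poly hp
  set F : ℕ → AddMonoid.End B := fun m =>
    aeval τ (∏ k ∈ Finset.range m, (1 - (X : ℤ[X]) ^ (k + 1))) with hF
  have hFs : ∀ m, F (m + 1) = F m * (1 - τ ^ (m + 1)) := by
    intro m
    simp only [hF, Finset.prod_range_succ, map_mul, map_sub, map_one, map_pow, aeval_X]
  have hF0 : F 0 = 1 := by simp [hF]
  have hFp : F (p - 1) = (p : AddMonoid.End B) := by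
    simp only [hF]
    rw [hh, map_add, map_mul, map_sum]
    simp only [map_pow, aeval_X, hτ, mul_zero, add_zero]
    simp
  have hker : ∀ m, m ≤ p - 1 → Nat.card (U1_K (F m)) ≠ 0 := by
    intro m hm
    obtain ⟨n, hn⟩ := Nat.exists_eq_add_of_le hm
    have e : (p : AddMonoid.End B) =
        aeval τ (∏ k ∈ Finset.range n, (1 - (X : ℤ[X]) ^ (m + k + 1))) * F m := by
      rw [← hFp]
      simp only [hF]
      rw [hn, Finset.prod_range_add, mul_comm, map_mul]
    exact U1_fin hp.ne_zero e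
  have hk : Nat.card (U1_K (1 - τ)) ≠ 0 := by
    have := hker 1 hp1
    have e : F 1 = 1 - τ := by rw [hFs 0, hF0]; simp
    rwa [e] at this
  refine ⟨?_, hk⟩
  set I := (U1_R (1 - τ)).index
  set k := Nat.card (U1_K (1 - τ))
  have hind : ∀ m, m ≤ p - 1 → (U1_R (F m)).index * k ^ m =
      I ^ m * Nat.card (U1_K (F m)) := by
    intro m
    induction m with
    | zero =>
      intro _
      rw [hF0]
      have e1 : U1_R (1 : AddMonoid.End B) = ⊤ :=
        AddMonoidHom.range_eq_top.2 Function.surjective_id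
      have e2 : U1_K (1 : AddMonoid.End B) = ⊥ :=
        (AddMonoidHom.ker_eq_bot_iff _).2 Function.injective_id
      rw [e1, e2]
      simp
    | succ m ih =>
      intro hm
      have ih' := ih (by omega)
      have hmul := U1_mult' (F m) (1 - τ ^ (m + 1))
      have hpw := U1_pow hp τ hτp (m + 1) (by omega) (by omega)
      rw [← hFs m, hpw.1, hpw.2] at hmul
      have hm0 := hker m (by omega)
      apply mul_right_cancel₀ hm0
      calc _ = (U1_R (F (m + 1))).index *
            (Nat.card (U1_K (F m)) * k) * k ^ m := by ring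
        _ = ((U1_R (F m)).index * k ^ m) * I *
            Nat.card (U1_K (F (m + 1))) := by rw [hmul]; ring
        _ = _ := by rw [ih']; ring
  have hfinal := hind (p - 1) le_rfl
  rw [hFp, (U1_nsmul' B p hp.ne_zero).1, hb] at hfinal
  have hfinal2 : (p ^ b * k) ^ (p - 1) = I ^ (p - 1) := by
    apply mul_right_cancel₀ (U1_nsmul' B p hp.ne_zero).2
    rw [← hfinal, mul_pow, ← pow_mul]
    ring
  exact (Nat.pow_left_injective hp1.ne' hfinal2).symm

private theorem U1_rank {M M' : Type*} [AddCommGroup M] [AddCommGroup M'] (f : M →ₗ[ℤ] M')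
    (h : LinearMap.ker f ≤ Submodule.torsion ℤ M) :
    Module.finrank ℤ (LinearMap.range f) = Module.finrank ℤ M := by
  rw [← (f.quotKerEquivRange).finrank_eq]
  exact finrank_quotient_eq_of_le_torsion h

private theorem U1_geom {B : Type*} [AddCommGroup B] (σ : AddMonoid.End B) (n : ℕ) :
    ∃ w : AddMonoid.End B, ∑ i ∈ Finset.range n, σ ^ i = (n : AddMonoid.End B) + w * (σ - 1) := by
  refine ⟨∑ i ∈ Finset.range n, ∑ j ∈ Finset.range i, σ ^ j, ?_⟩
  rw [Finset.sum_mul]
  simp only [geom_sum_mul]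
  rw [Finset.sum_sub_distrib]
  simp

private theorem U1_relmap {A : Type*} [AddCommGroup A] (f : A →+ A) (F : AddSubgroup A) :
    (F.map f).relIndex f.range = (F ⊔ f.ker).index := by
  have h := AddSubgroup.relIndex_map_map f F ⊤
  rwa [← AddMonoidHom.range_eq_map, top_sup_eq, AddSubgroup.relIndex_top_right] at h

theorem herbrand {A : Type*} [AddCommGroup A] [Module.Finite ℤ A] {p : ℕ} (hp : p.Prime)
    (σ : AddMonoid.End A) (hσ : σ ^ p = 1)
    (hrank : Module.finrank ℤ A + 1 = p * (Module.finrank ℤ (AddMonoidHom.ker (σ - 1)) + 1)) :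
    (AddMonoidHom.range (∑ i ∈ Finset.range p, σ ^ i)).relIndex (AddMonoidHom.ker (σ - 1)) ≠ 0 ∧
    p * (AddMonoidHom.range (∑ i ∈ Finset.range p, σ ^ i)).relIndex (AddMonoidHom.ker (σ - 1)) =
      (AddMonoidHom.range (σ - 1)).relIndex (AddMonoidHom.ker (∑ i ∈ Finset.range p, σ ^ i)) := by
  change Module.finrank ℤ A + 1 =
    p * (Module.finrank ℤ ↥(U1_K (σ - 1 : AddMonoid.End A)) + 1) at hrank
  change (U1_R (∑ i ∈ Finset.range p, σ ^ i)).relIndex (U1_K (σ - 1)) ≠ 0 ∧
    p * (U1_R (∑ i ∈ Finset.range p, σ ^ i)).relIndex (U1_K (σ - 1)) =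
      (U1_R (σ - 1)).relIndex (U1_K (∑ i ∈ Finset.range p, σ ^ i))
  set s : AddMonoid.End A := σ - 1 with hs
  set N : AddMonoid.End A := ∑ i ∈ Finset.range p, σ ^ i with hN
  set F := U1_K s with hF
  set K := U1_K N with hK
  have hsN : s * N = 0 := by rw [hs, hN, mul_geom_sum, hσ, sub_self]
  have hNs : N * s = 0 := by rw [hs, hN, geom_sum_mul, hσ, sub_self]
  obtain ⟨w, hw⟩ := U1_geom σ p
  rw [← hN, ← hs] at hw
  have hNF : ∀ x ∈ F, N x = p • x := by
    intro x hx
    have hx' : s x = 0 := hx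
    rw [hw]
    change (p : AddMonoid.End A) x + w (s x) = p • x
    rw [hx', map_zero, add_zero]
    simp
  have hRF : U1_R N ≤ F := by
    rintro x ⟨y, rfl⟩
    change (s * N) y = 0
    rw [hsN]; rfl
  have hRK : U1_R s ≤ K := by
    rintro x ⟨y, rfl⟩
    change (N * s) y = 0
    rw [hNs]; rfl
  have hFmap : F.map (nsmulAddMonoidHom (α := A) p) = F.map (N : A →+ A) := by
    ext x
    constructor
    · rintro ⟨y, hy, rfl⟩
      exact ⟨y, hy, hNF y hy⟩
    · rintro ⟨y, hy, rfl⟩
      exact ⟨y, hy, (hNF y hy).symm⟩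
  have hm1 : (F.map (N : A →+ A)).relIndex (U1_R N) = (F ⊔ K).index :=
    U1_relmap (N : A →+ A) F
  have hm2 : (K.map (s : A →+ A)).relIndex (U1_R s) = (F ⊔ K).index := by
    rw [sup_comm]
    exact U1_relmap (s : A →+ A) K
  have h3 : (F.map (N : A →+ A)).relIndex (U1_R N) * (U1_R N).relIndex F =
      (F.map (N : A →+ A)).relIndex F :=
    AddSubgroup.relIndex_mul_relIndex _ _ _ (AddSubgroup.map_le_range _ _) hRF
  have h4 : (K.map (s : A →+ A)).relIndex (U1_R s) * (U1_R s).relIndex K =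
      (K.map (s : A →+ A)).relIndex K :=
    AddSubgroup.relIndex_mul_relIndex _ _ _ (AddSubgroup.map_le_range _ _) hRK
  have hFfin : Module.Finite ℤ F :=
    inferInstanceAs (Module.Finite ℤ (AddSubgroup.toIntSubmodule F))
  have hKfin : Module.Finite ℤ K :=
    inferInstanceAs (Module.Finite ℤ (AddSubgroup.toIntSubmodule K))
  set a := Module.finrank ℤ F with ha
  set kk := Nat.card (nsmulAddMonoidHom (α := F) p).ker with hkk
  have h5 : (F.map (N : A →+ A)).relIndex F = p ^ a * kk ∧ kk ≠ 0 := by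
    have h := U1_nsmul F p hp.ne_zero
    refine ⟨?_, h.2⟩
    rw [← hFmap, AddSubgroup.relIndex,
      AddSubgroup.addSubgroupOf_map_nsmulAddMonoidHom_eq_range, h.1]
  -- the action on K
  have hσK : ∀ x : K, σ (x : A) ∈ K := by
    intro x
    have hx : N (x : A) = 0 := x.2
    have hc : N * σ = σ * N := by
      rw [hN, Finset.sum_mul, Finset.mul_sum]
      refine Finset.sum_congr rfl fun i _ => ?_
      rw [← pow_succ, ← pow_succ']
    change (N * σ) (x : A) = 0
    rw [hc]
    change σ (N (x : A)) = 0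
    rw [hx, map_zero]
  let τ : AddMonoid.End K :=
    { toFun := fun x => ⟨σ x, hσK x⟩
      map_zero' := Subtype.ext (map_zero σ)
      map_add' := fun x y => Subtype.ext (map_add σ _ _) }
  have hτpow : ∀ (i : ℕ) (x : K), (((τ ^ i) x : K) : A) = (σ ^ i) (x : A) := by
    intro i
    induction i with
    | zero => intro x; rfl
    | succ i ih =>
      intro x
      rw [pow_succ, pow_succ]
      exact ih (τ x)
  have hτ0 : ∑ i ∈ Finset.range p, τ ^ i = 0 := by
    ext x
    have hx : N (x : A) = 0 := x.2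
    have h1 : (∑ i ∈ Finset.range p, τ ^ i) x = ∑ i ∈ Finset.range p, (τ ^ i) x :=
      AddMonoidHom.finsetSum_apply _ _ _
    have h2 : N (x : A) = ∑ i ∈ Finset.range p, (σ ^ i) (x : A) := by
      rw [hN]
      exact AddMonoidHom.finsetSum_apply _ _ _
    rw [h1, AddSubgroup.val_finsetSum]
    simp only [hτpow]
    rw [← h2, hx]
    rfl
  have hrK : Module.finrank ℤ K = (a + 1) * (p - 1) := by
    let NL : A →ₗ[ℤ] A := AddMonoidHom.toIntLinearMap (N : A →+ A)
    have hkerNL : Module.finrank ℤ (LinearMap.ker NL) = Module.finrank ℤ K := rfl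
    have hq := (LinearMap.ker NL).finrank_quotient_add_finrank
    rw [(NL.quotKerEquivRange).finrank_eq, hkerNL] at hq
    have hle : Module.finrank ℤ (LinearMap.range NL) ≤ a := by
      have h1 : LinearMap.range NL ≤ AddSubgroup.toIntSubmodule F := by
        rintro x ⟨y, rfl⟩
        exact hRF ⟨y, rfl⟩
      exact Submodule.finrank_mono h1
    have hge : a ≤ Module.finrank ℤ (LinearMap.range NL) := by
      let g : (AddSubgroup.toIntSubmodule F) →ₗ[ℤ] A :=
        (p : ℤ) • (AddSubgroup.toIntSubmodule F).subtype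
      have hgk : LinearMap.ker g ≤ Submodule.torsion ℤ (AddSubgroup.toIntSubmodule F) := by
        intro x hx
        have hx' : (p : ℤ) • (x : A) = 0 := hx
        rw [Submodule.mem_torsion_iff]
        refine ⟨⟨(p : ℤ), by simpa [mem_nonZeroDivisors_iff_ne_zero] using hp.ne_zero⟩, ?_⟩
        exact Subtype.ext hx'
      have h1 : LinearMap.range g ≤ LinearMap.range NL := by
        rintro x ⟨y, rfl⟩
        refine ⟨(y : A), ?_⟩
        have := hNF (y : A) y.2
        change N (y : A) = (p : ℤ) • (y : A)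
        rw [this, natCast_zsmul]
      have h2 : Module.finrank ℤ (LinearMap.range g) = a := U1_rank g hgk
      rw [← h2]
      exact Submodule.finrank_mono h1
    have heq : Module.finrank ℤ (LinearMap.range NL) = a := le_antisymm hle hge
    rw [heq] at hq
    obtain ⟨r, hr⟩ : ∃ r, p = r + 1 := ⟨p - 1, (Nat.sub_add_cancel hp.one_lt.le).symm⟩
    rw [hr] at hrank
    have hr' : p - 1 = r := by omega
    rw [hr']
    have : (r + 1) * (a + 1) = (a + 1) * r + a + 1 := by ring
    omega
  have h6 := U1_tau hp τ hτ0 (a + 1) hrK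
  have h7 : (K.map (s : A →+ A)).relIndex K = (U1_R (1 - τ)).index := by
    rw [AddSubgroup.relIndex]
    congr 1
    ext x
    rw [AddSubgroup.mem_addSubgroupOf, U1_memR]
    constructor
    · rintro ⟨y, hy, hyx⟩
      refine ⟨-⟨y, hy⟩, Subtype.ext ?_⟩
      have hyx' : σ y - y = x := hyx
      change -y - σ (-y) = x
      rw [map_neg, ← hyx']
      abel
    · rintro ⟨y, hyx⟩
      refine ⟨-(y : A), neg_mem y.2, ?_⟩
      have hyx' : (y : A) - σ (y : A) = x := congrArg Subtype.val hyx
      change σ (-(y : A)) - (-(y : A)) = x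
      rw [map_neg, ← hyx']
      abel
  have h8 : Nat.card (U1_K (1 - τ)) = kk := by
    have e1 : ∀ x : U1_K (1 - τ), ((x : K) : A) ∈ F := by
      intro x
      have hx : ((x : K) : A) - σ ((x : K) : A) = 0 := congrArg Subtype.val x.2
      change σ ((x : K) : A) - ((x : K) : A) = 0
      rw [← neg_sub, hx, neg_zero]
    have e2 : ∀ x : (nsmulAddMonoidHom (α := F) p).ker, ((x : F) : A) ∈ K := by
      intro x
      have hx : p • ((x : F) : A) = 0 := congrArg Subtype.val x.2
      change N ((x : F) : A) = 0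
      rw [hNF _ (x : F).2, hx]
    refine Nat.card_congr ⟨fun x => ⟨⟨((x : K) : A), e1 x⟩, ?_⟩,
      fun x => ⟨⟨((x : F) : A), e2 x⟩, ?_⟩, fun x => rfl, fun x => rfl⟩
    · refine Subtype.ext ?_
      change p • ((x : K) : A) = 0
      rw [← hNF _ (e1 x)]
      exact (x : K).2
    · refine Subtype.ext ?_
      have hx : σ ((x : F) : A) - ((x : F) : A) = 0 := (x : F).2
      change ((x : F) : A) - σ ((x : F) : A) = 0
      rw [← neg_sub, hx, neg_zero]
  -- the common index
  have hm0 : (F ⊔ K).index ≠ 0 := by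
    have h := (U1_nsmul A p hp.ne_zero)
    have hpa : (nsmulAddMonoidHom (α := A) p).range.index ≠ 0 := by
      rw [h.1]
      exact mul_ne_zero (pow_ne_zero _ hp.ne_zero) h.2
    have hle : (nsmulAddMonoidHom (α := A) p).range ≤ F ⊔ K := by
      rintro x ⟨y, rfl⟩
      have e : (nsmulAddMonoidHom (α := A) p) y = N y + (p • y - N y) := by
        change p • y = _
        abel
      rw [e]
      refine AddSubgroup.add_mem_sup (hRF ⟨y, rfl⟩) ?_
      change N (p • y - N y) = 0
      rw [map_sub, map_nsmul, hNF (N y) (hRF ⟨y, rfl⟩), sub_self]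
    intro h0
    exact hpa (Nat.eq_zero_of_zero_dvd (h0 ▸ AddSubgroup.index_dvd_of_le hle))
  rw [hm1, h5.1] at h3
  rw [hm2, h7, h6.1, h8] at h4
  constructor
  · intro h0
    rw [h0, mul_zero] at h3
    exact mul_ne_zero (pow_ne_zero _ hp.ne_zero) h5.2 h3.symm
  · apply mul_left_cancel₀ hm0
    rw [h4, mul_left_comm, h3, pow_succ]
    ring

end OzakiFree
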