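import Pool.Agent.Lib.MP_6e8030_nt.UBase
import Pool.Agent.Lib.MP_6e8030_nt.E7
import Pool.Agent.Lib.MP_6e8030_nt.R8
import Pool.Agent.Lib.MP_6e8030_nt.GF

open IntermediateField
open scoped ComplexConjugate

noncomputable section

namespace OzakiFree

private theorem U10_mem_two (σ : GQ) : σ ∈ PQ 2 ↔ σ ∈ P2 := by
  have h := mem_cycZp Nat.prime_two ⊥ (by
    intro ζ hζ
    have h2 : (ζ - 1) * (ζ + 1) = 0 := by linear_combination hζ
    rcases mul_eq_zero.1 h2 with h | h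
    · rw [sub_eq_zero.1 h]; exact one_mem _
    · rw [eq_neg_of_add_eq_zero_left h]; exact neg_mem (one_mem _)) σ
  have hPP : PP 2 = P2 := if_pos rfl
  rw [hPP] at h
  unfold PQ
  rw [h]
  refine ⟨fun h => h.1, fun h => ⟨h, ?_⟩⟩
  rw [IntermediateField.fixingSubgroup_bot]
  exact Subgroup.mem_top σ

theorem no_unram_all {p : ℕ} (hp : p.Prime) (ψ : GQ → ZMod p)
    (hψ : HomOn (PQ p) ψ) (hc : LCOn (PQ p) ψ)
    (h : ∀ B : Ideal ZO, B.IsMaximal → ∀ t ∈ B.inertia GQ, t ∈ PQ p → ψ t = 0) :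
    ∀ t ∈ PQ p, ψ t = 0 := by
  by_cases hp2 : p = 2
  · subst hp2
    have hPP : PQ 2 = P2 := Subgroup.ext U10_mem_two
    rw [hPP] at hψ hc h ⊢
    exact no_unram_Qinf2 ψ hψ hc h
  · exact no_unram_PQ hp hp2 ψ hψ hc h

end OzakiFree
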