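import Pool.Agent.Lib.MP_6e8030_nt.UBase

open IntermediateField
open scoped ComplexConjugate

noncomputable section

namespace OzakiFree

theorem fixing_inf {p : ℕ} (hp : p.Prime) (E : IntermediateField ℚ Om) [FiniteDimensional ℚ E] :
    (E ⊓ cycZp p ⊥).fixingSubgroup = PQ p ⊔ E.fixingSubgroup := by
  have hg : IsGalois ℚ Om := by
    have : IsAlgClosure ℚ Om := instAlgClosureOm
    exact IsAlgClosure.isGalois ℚ Om
  have hopen : IsOpen (E.fixingSubgroup : Set GQ) := E.fixingSubgroup_isOpen
  have hHo : IsOpen ((PQ p ⊔ E.fixingSubgroup : Subgroup GQ) : Set GQ) :=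
    Subgroup.isOpen_mono le_sup_right hopen
  have hHc : IsClosed ((PQ p ⊔ E.fixingSubgroup : Subgroup GQ) : Set GQ) :=
    Subgroup.isClosed_of_isOpen _ hHo
  have h1 : (IntermediateField.fixedField (PQ p ⊔ E.fixingSubgroup)).fixingSubgroup =
      PQ p ⊔ E.fixingSubgroup :=
    InfiniteGalois.fixingSubgroup_fixedField ⟨_, hHc⟩
  have h2 : IntermediateField.fixedField (PQ p ⊔ E.fixingSubgroup) = E ⊓ cycZp p ⊥ := by
    apply le_antisymm
    · apply le_inf
      · have h3 := IntermediateField.fixedField_antitone (F := ℚ) (E := Om)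
          (le_sup_right : E.fixingSubgroup ≤ PQ p ⊔ E.fixingSubgroup)
        rwa [InfiniteGalois.fixedField_fixingSubgroup] at h3
      · have h3 := IntermediateField.fixedField_antitone (F := ℚ) (E := Om)
          (le_sup_left : PQ p ≤ PQ p ⊔ E.fixingSubgroup)
        unfold PQ at h3 ⊢
        rwa [InfiniteGalois.fixedField_fixingSubgroup] at h3
    · rw [IntermediateField.le_iff_le]
      apply sup_le
      · exact IntermediateField.fixingSubgroup_antitone inf_le_right
      · exact IntermediateField.fixingSubgroup_antitone inf_le_left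
  rw [← h2, h1]

end OzakiFree
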