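import Pool.Agent.Lib.MP_6e8030_nt.UBase
import Pool.Agent.Lib.MP_6e8030_nt.E1

open IntermediateField
open scoped ComplexConjugate Pointwise

noncomputable section

namespace OzakiFree

/-! ### an automorphism of infinite order modulo `PQ p` -/

private theorem U12_exists_one {p : ℕ} (hp : p.Prime) (g₀ : ℕ) (hg : Nat.Coprime g₀ p) (m : ℕ) :
    ∃ σ : GQ, ∀ ξ : Om, ξ ^ (p ^ m) = 1 → σ ξ = ξ ^ g₀ := by
  have : NeZero (p ^ m) := ⟨pow_ne_zero _ hp.ne_zero⟩
  obtain ⟨ζ, hζ⟩ := HasEnoughRootsOfUnity.exists_primitiveRoot Om (p ^ m)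
  have hcop : Nat.Coprime g₀ (p ^ m) := Nat.Coprime.pow_right _ hg
  have h1 : minpoly ℤ ζ = minpoly ℤ (ζ ^ g₀) := by
    have h := hζ.minpoly_eq_pow_coprime hcop
    have e : (Ring.toIntAlgebra Om : Algebra ℤ Om) = AlgebraicClosure.instAlgebra ℚ :=
      Subsingleton.elim _ _
    rw [e] at h
    exact h
  have hint : IsIntegral ℤ ζ := hζ.isIntegral (pow_pos hp.pos m)
  have h2 : minpoly ℚ (ζ ^ g₀) = minpoly ℚ ζ := by
    rw [minpoly.isIntegrallyClosed_eq_field_fractions' ℚ hint,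
      minpoly.isIntegrallyClosed_eq_field_fractions' ℚ (hint.pow g₀), ← h1]
  obtain ⟨σ, hσ⟩ := (Normal.minpoly_eq_iff_mem_orbit (F := ℚ) (E := Om)).1 h2
  refine ⟨σ, fun ξ hξ => ?_⟩
  obtain ⟨i, -, rfl⟩ := hζ.eq_pow_of_pow_eq_one hξ
  have h3 : σ ζ = ζ ^ g₀ := hσ
  rw [map_pow, h3, ← pow_mul, ← pow_mul, mul_comm]

private theorem U12_isClosed (x y : Om) : IsClosed {σ : GQ | σ x = y} := by
  by_cases h : ∃ σ₁ : GQ, σ₁ x = y
  · obtain ⟨σ₁, h₁⟩ := h
    have hst : IsClosed (MulAction.stabilizer GQ x : Set GQ) :=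
      OpenSubgroup.isClosed ⟨MulAction.stabilizer GQ x, stabilizer_isOpen_of_isIntegral x⟩
    have : {σ : GQ | σ x = y} = σ₁ • (MulAction.stabilizer GQ x : Set GQ) := by
      ext σ
      rw [mem_leftCoset_iff, SetLike.mem_coe, MulAction.mem_stabilizer_iff]
      constructor
      · intro hσ
        change σ₁⁻¹ (σ x) = x
        have hσ' : σ x = y := hσ
        rw [hσ', ← h₁]
        exact σ₁.symm_apply_apply x
      · intro hσ
        have hσ' : σ₁⁻¹ (σ x) = x := hσ
        change σ x = y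
        rw [← h₁]
        conv_rhs => rw [← hσ']
        exact (σ₁.apply_symm_apply (σ x)).symm
    rw [this]
    exact hst.leftCoset σ₁
  · have : {σ : GQ | σ x = y} = ∅ := by
      ext σ
      simp only [Set.mem_ofPred_eq, Set.mem_empty_iff_false, iff_false]
      exact fun hσ => h ⟨σ, hσ⟩
    rw [this]
    exact isClosed_empty

private theorem U12_sigma {p : ℕ} (hp : p.Prime) : ∃ σ : GQ, ∀ r : ℕ, 0 < r → σ ^ r ∉ PQ p := by
  have hcop : Nat.Coprime (p + 1) p := by simp
  let C : ℕ → Set GQ := fun m => {σ : GQ | ∀ ξ : Om, ξ ^ (p ^ m) = 1 → σ ξ = ξ ^ (p + 1)}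
  have hclosed : ∀ m, IsClosed (C m) := by
    intro m
    have : C m = ⋂ (ξ : Om) (_ : ξ ^ (p ^ m) = 1), {σ : GQ | σ ξ = ξ ^ (p + 1)} := by
      ext σ
      simp [C]
    rw [this]
    exact isClosed_iInter fun ξ => isClosed_iInter fun _ => U12_isClosed _ _
  have hanti : ∀ m, C (m + 1) ⊆ C m := by
    intro m σ hσ ξ hξ
    refine hσ ξ ?_
    rw [pow_succ, pow_mul, hξ, one_pow]
  have hne : (⋂ m, C m).Nonempty :=
    IsCompact.nonempty_iInter_of_sequence_nonempty_isCompact_isClosed C hanti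
      (fun m => U12_exists_one hp (p + 1) hcop m) (hclosed 0).isCompact hclosed
  obtain ⟨σ₀, hσ₀⟩ := hne
  have h0 : ∀ ξ ∈ muInf p, σ₀ ξ = ξ ^ (p + 1) := by
    rintro ξ ⟨m, hm⟩
    exact (Set.mem_iInter.1 hσ₀ m) ξ hm
  have hpow : ∀ (n : ℕ), ∀ ξ ∈ muInf p, (σ₀ ^ n) ξ = ξ ^ ((p + 1) ^ n) := by
    intro n
    induction n with
    | zero => intro ξ _; simp
    | succ n ih =>
      intro ξ hξ
      rw [pow_succ', AlgEquiv.mul_apply, ih ξ hξ, map_pow, h0 ξ hξ, ← pow_mul, pow_succ']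
  refine ⟨σ₀, fun r hr hmem => ?_⟩
  obtain ⟨s, hs, hfix⟩ := (mem_PQ_iff hp _).1 hmem
  set n := r * s with hn
  have hn0 : 0 < n := Nat.mul_pos hr hs
  have hg1 : 1 < (p + 1) ^ n := Nat.one_lt_pow hn0.ne' (by have := hp.pos; omega)
  have hdvd : p ^ ((p + 1) ^ n) ∣ (p + 1) ^ n - 1 := by
    have : NeZero (p ^ ((p + 1) ^ n)) := ⟨pow_ne_zero _ hp.ne_zero⟩
    obtain ⟨ζ, hζ⟩ := HasEnoughRootsOfUnity.exists_primitiveRoot Om (p ^ ((p + 1) ^ n))
    have hmem : ζ ∈ muInf p := ⟨_, hζ.pow_eq_one⟩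
    have h1 := hfix ζ hmem
    rw [← pow_mul, hpow n ζ hmem] at h1
    refine (hζ.pow_eq_one_iff_dvd _).1 ?_
    have hζ0 : ζ ≠ 0 := hζ.ne_zero (pow_ne_zero _ hp.ne_zero)
    have h2 : ζ ^ ((p + 1) ^ n - 1) * ζ = 1 * ζ := by
      rw [← pow_succ, Nat.sub_add_cancel hg1.le, h1, one_mul]
    exact mul_right_cancel₀ hζ0 h2
  have h3 := Nat.le_of_dvd (by omega) hdvd
  have h4 : (p + 1) ^ n < p ^ ((p + 1) ^ n) := Nat.lt_pow_self hp.one_lt
  omega

/-! ### subfields of `ℚ_∞` of large degree -/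

private theorem U12_layers {p : ℕ} (hp : p.Prime) (M : ℕ) :
    ∃ (D : IntermediateField ℚ Om) (_ : FiniteDimensional ℚ D), D ≤ cycZp p ⊥ ∧
      M ≤ Module.finrank ℚ D := by
  obtain ⟨σ, hσ⟩ := U12_sigma hp
  have hx : ∀ k : ℕ, ∃ x ∈ cycZp p ⊥, 0 < k → (σ ^ k) x ≠ x := by
    intro k
    by_cases hk : 0 < k
    · have h := hσ k hk
      unfold PQ at h
      rw [IntermediateField.mem_fixingSubgroup_iff] at h
      push Not at h
      obtain ⟨x, hx, hne⟩ := h
      exact ⟨x, hx, fun _ => hne⟩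
    · exact ⟨0, zero_mem _, fun h => absurd h hk⟩
  choose x hxm hxne using hx
  set S : Set Om := x '' (Finset.range (M + 1) : Set ℕ) with hS
  have hSfin : S.Finite := (Finset.finite_toSet _).image _
  have : Finite S := hSfin
  set D : IntermediateField ℚ Om := adjoin ℚ S with hD
  have hDfin : FiniteDimensional ℚ D :=
    IntermediateField.finiteDimensional_adjoin fun y _ => Algebra.IsIntegral.isIntegral y
  have hle : D ≤ cycZp p ⊥ := by
    rw [hD, adjoin_le_iff]
    rintro _ ⟨k, -, rfl⟩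
    exact hxm k
  refine ⟨D, hDfin, hle, ?_⟩
  have hmem : ∀ k, k < M + 1 → x k ∈ D := fun k hk =>
    subset_adjoin ℚ S ⟨k, by simpa using hk, rfl⟩
  let e : Fin M → (D →ₐ[ℚ] Om) := fun i => ((σ ^ (i : ℕ) : GQ) : Om →ₐ[ℚ] Om).comp D.val
  have hinj : ∀ i j : Fin M, (i : ℕ) < j → e i ≠ e j := by
    intro i j hij heq
    have hk : (j : ℕ) - i < M + 1 := by have := j.2; omega
    have h1 := DFunLike.congr_fun heq (⟨x (j - i), hmem _ hk⟩ : D)
    have h2 : (σ ^ (i : ℕ)) (x (j - i)) = (σ ^ (j : ℕ)) (x (j - i)) := h1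
    have h3 : σ ^ (j : ℕ) = σ ^ (i : ℕ) * σ ^ ((j : ℕ) - i) := by
      rw [← pow_add]
      congr 1
      omega
    rw [h3, AlgEquiv.mul_apply] at h2
    exact hxne (j - i) (by omega) ((σ ^ (i : ℕ)).injective h2).symm
  have hinj' : Function.Injective e := by
    intro i j hij
    by_contra hne
    rcases lt_or_gt_of_ne (fun h => hne (Fin.ext h) : (i : ℕ) ≠ j) with h | h
    · exact hinj i j h hij
    · exact hinj j i h hij.symm
  have h1 := Fintype.card_le_of_injective e hinj'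
  rw [Fintype.card_fin, AlgHom.card] at h1
  exact h1

/-! ### units of number fields -/

private theorem U12_rank (K : Type) [Field K] [NumberField K] :
    Module.finrank ℚ K ≤ 2 * (NumberField.Units.rank K + 1) := by
  have h1 := NumberField.InfinitePlace.card_add_two_mul_card_eq_rank K
  have h2 := NumberField.InfinitePlace.card_eq_nrRealPlaces_add_nrComplexPlaces K
  unfold NumberField.Units.rank
  have h3 : 0 < Fintype.card (NumberField.InfinitePlace K) := Fintype.card_pos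
  omega

private theorem U12_exps (K : Type) [Field K] [NumberField K] (p : ℕ) :
    ∃ U : (Fin (NumberField.Units.rank K) → Fin p) → (NumberField.RingOfIntegers K)ˣ,
      ∀ c c' : Fin (NumberField.Units.rank K) → Fin p, ∀ w : (NumberField.RingOfIntegers K)ˣ,
        U c = U c' * w ^ p → c = c' := by
  refine ⟨fun c => ∏ i, NumberField.Units.fundSystem K i ^ (c i : ℕ), fun c c' w h => ?_⟩
  obtain ⟨⟨ζ, f⟩, hw, -⟩ := NumberField.Units.exist_unique_eq_mul_prod K w
  simp only at hw h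
  have h1 := NumberField.Units.fun_eq_repr K (x := ∏ i, NumberField.Units.fundSystem K i ^ (c i : ℕ))
    (ζ := 1) (f := fun i => ((c i : ℕ) : ℤ)) (Subgroup.one_mem _) (by simp)
  have h2 := NumberField.Units.fun_eq_repr K (x := ∏ i, NumberField.Units.fundSystem K i ^ (c i : ℕ))
    (ζ := (ζ : (NumberField.RingOfIntegers K)ˣ) ^ p) (f := fun i => ((c' i : ℕ) : ℤ) + p * f i)
    (Subgroup.pow_mem _ ζ.2 _) (by
      rw [h, hw, mul_pow, ← Finset.prod_pow]
      simp only [zpow_add, zpow_natCast, Finset.prod_mul_distrib]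
      have h3 : ∀ i, (NumberField.Units.fundSystem K i ^ f i) ^ p =
          NumberField.Units.fundSystem K i ^ ((p : ℤ) * f i) := by
        intro i
        rw [← zpow_natCast, ← zpow_mul, mul_comm]
      simp only [h3]
      exact mul_left_comm _ _ _)
  funext i
  have h4 : ((c i : ℕ) : ℤ) = ((c' i : ℕ) : ℤ) + p * f i := by
    have := congrFun (h1.trans h2.symm) i
    simpa using this
  have h5 := (c i).2
  have h6 := (c' i).2
  refine Fin.ext ?_
  have h7 : ((c i : ℕ) : ℤ) % p = ((c' i : ℕ) : ℤ) % p := by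
    rw [h4, Int.add_mul_emod_self_left]
  rw [Int.emod_eq_of_lt (by positivity) (by exact_mod_cast h5),
    Int.emod_eq_of_lt (by positivity) (by exact_mod_cast h6)] at h7
  exact_mod_cast h7

/-! ### going down from `D(μ_p)` to `D` -/

private theorem U12_down {p : ℕ} (hp : p.Prime) (D : IntermediateField ℚ Om) (a y : Om)
    (ha : a ∈ D) (hy : y ^ p = a) (hyK : y ∈ D ⊔ adjoin ℚ {x : Om | x ^ p = 1}) :
    ∃ b ∈ D, b ^ p = a := by
  by_contra hcon
  push Not at hcon
  have hp0 : 0 < p := hp.pos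
  have : NeZero p := ⟨hp.ne_zero⟩
  obtain ⟨ζ, hζ⟩ := HasEnoughRootsOfUnity.exists_primitiveRoot Om p
  have hirr : Irreducible (Polynomial.X ^ p - Polynomial.C (⟨a, ha⟩ : D)) := by
    refine X_pow_sub_C_irreducible_of_prime hp fun b hb => hcon b.1 b.2 ?_
    have := congrArg Subtype.val hb
    simpa using this
  have hmon : (Polynomial.X ^ p - Polynomial.C (⟨a, ha⟩ : D)).Monic :=
    Polynomial.monic_X_pow_sub_C _ hp0.ne'
  have hroot : Polynomial.aeval y (Polynomial.X ^ p - Polynomial.C (⟨a, ha⟩ : D)) = 0 := by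
    simp only [map_sub, map_pow, Polynomial.aeval_X, Polynomial.aeval_C]
    rw [hy]
    exact sub_self a
  have hmin := minpoly.eq_of_irreducible_of_monic hirr hroot hmon
  have hyint : IsIntegral D y := ⟨_, hmon, by
    rw [← Polynomial.aeval_def]; exact hroot⟩
  have hζint : IsIntegral D ζ := by
    refine ⟨Polynomial.X ^ p - 1, Polynomial.monic_X_pow_sub_C 1 hp0.ne', ?_⟩
    simp [hζ.pow_eq_one]
  have h1 : Module.finrank D D⟮y⟯ = p := by
    rw [IntermediateField.adjoin.finrank hyint, ← hmin, Polynomial.natDegree_X_pow_sub_C]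
  have h2 : Module.finrank D D⟮ζ⟯ ≤ p - 1 := by
    rw [IntermediateField.adjoin.finrank hζint, ← Nat.totient_prime hp,
      ← Polynomial.natDegree_cyclotomic p D]
    refine Polynomial.natDegree_le_of_dvd (minpoly.dvd _ _ ?_) (Polynomial.cyclotomic_ne_zero p D)
    rw [Polynomial.aeval_def, ← Polynomial.eval_map, Polynomial.map_cyclotomic]
    exact hζ.isRoot_cyclotomic hp0
  have h3 : D ⊔ adjoin ℚ {x : Om | x ^ p = 1} ≤ (D⟮ζ⟯).restrictScalars ℚ := by
    refine sup_le ?_ ?_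
    · intro x hx
      exact (D⟮ζ⟯).algebraMap_mem (⟨x, hx⟩ : D)
    · rw [adjoin_le_iff]
      intro x hx
      obtain ⟨i, -, rfl⟩ := hζ.eq_pow_of_pow_eq_one (show x ^ p = 1 from hx)
      exact pow_mem (mem_adjoin_simple_self D ζ) i
  have h4 : D⟮y⟯ ≤ D⟮ζ⟯ := by
    rw [adjoin_simple_le_iff]
    exact h3 hyK
  have : FiniteDimensional D D⟮ζ⟯ := IntermediateField.adjoin.finiteDimensional hζint
  have h5 : Module.finrank D D⟮y⟯ ≤ Module.finrank D D⟮ζ⟯ := by
    exact IntermediateField.finrank_le_of_le_right h4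
  omega

private theorem U12_gal : IsGalois ℚ Om := by
  have : Normal ℚ Om := inferInstance
  have : Algebra.IsSeparable ℚ Om := inferInstance
  exact ⟨⟩

/-- an integral element of `D` whose `p`-th power is a unit is a unit -/
private theorem U12_lift {p : ℕ} (hp : p.Prime) (D : IntermediateField ℚ Om) (V : (ZF D)ˣ)
    (b : Om) (hb : b ∈ D) (hbp : b ^ p = (V : ZF D).val) : ∃ w : (ZF D)ˣ, V = w ^ p := by
  have hint : IsIntegral ℤ b := by
    refine IsIntegral.of_pow hp.pos ?_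
    rw [hbp]
    exact ZF_val_isIntegral _
  let b' : ZF D := ⟨(⟨b, hb⟩ : FL D), by
    refine (isIntegral_algHom_iff (FLhom D).toIntAlgHom (FLhom D).injective).1 ?_
    exact hint⟩
  have h1 : b' ^ p = (V : ZF D) := ZF_val_inj _ _ hbp
  have h2 : IsUnit b' := by
    refine (isUnit_pow_iff hp.ne_zero).1 ?_
    rw [h1]
    exact V.isUnit
  obtain ⟨w, hw⟩ := h2
  refine ⟨w, Units.ext ?_⟩
  rw [Units.val_pow_eq_pow_val, hw, h1]

theorem exists_unit {p : ℕ} (hp : p.Prime) (F : IntermediateField ℚ Om) [FiniteDimensional ℚ F] :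
    ∃ (D : IntermediateField ℚ Om) (_ : FiniteDimensional ℚ D) (u : (ZF D)ˣ), D ≤ cycZp p ⊥ ∧
      ∀ y : Om, y ^ p = (u : ZF D).val → y ∉ F ⊔ D ⊔ adjoin ℚ {x : Om | x ^ p = 1} := by
  have : IsGalois ℚ Om := U12_gal
  have hFo : IsOpen (F.fixingSubgroup : Set GQ) := F.fixingSubgroup_isOpen
  have hFfin : Finite (GQ ⧸ F.fixingSubgroup) := Subgroup.quotient_finite_of_isOpen _ hFo
  have hFi : F.fixingSubgroup.index ≠ 0 := Nat.card_pos.ne'
  obtain ⟨D, hDfin, hDle, hDM⟩ := U12_layers hp (2 * (F.fixingSubgroup.index + 1) + 1)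
  by_contra hcon
  have hcon' : ∀ u : (ZF D)ˣ, ∃ y : Om, y ^ p = (u : ZF D).val ∧
      y ∈ F ⊔ D ⊔ adjoin ℚ {x : Om | x ^ p = 1} := by
    intro u
    by_contra h
    push Not at h
    exact hcon ⟨D, hDfin, u, hDle, h⟩
  obtain ⟨U, hU⟩ : ∃ U : (Fin (NumberField.Units.rank (FL D)) → Fin p) → (ZF D)ˣ,
      ∀ c c' : Fin (NumberField.Units.rank (FL D)) → Fin p, ∀ w : (ZF D)ˣ,
        U c = U c' * w ^ p → c = c' := U12_exps (FL D) p
  have hrank := U12_rank (FL D)
  have hfr : Module.finrank ℚ (FL D) = Module.finrank ℚ D := rfl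
  choose y hy hyE using fun c => hcon' (U c)
  have : NeZero p := ⟨hp.ne_zero⟩
  obtain ⟨ζ, hζ⟩ := HasEnoughRootsOfUnity.exists_primitiveRoot Om p
  set K : IntermediateField ℚ Om := D ⊔ adjoin ℚ {x : Om | x ^ p = 1} with hK
  have hD : ∀ g ∈ K.fixingSubgroup, ∀ x ∈ D, g x = x := fun g hg x hx =>
    (IntermediateField.mem_fixingSubgroup_iff _ _).1 hg x (le_sup_left (a := D) hx)
  have hT : ∀ g ∈ K.fixingSubgroup, g ζ = ζ := fun g hg =>
    (IntermediateField.mem_fixingSubgroup_iff _ _).1 hg ζ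
      (le_sup_right (a := D) (subset_adjoin ℚ {x : Om | x ^ p = 1} hζ.pow_eq_one))
  have hval0 : ∀ u : (ZF D)ˣ, (u : ZF D).val ≠ 0 := by
    intro u h0
    have h1 : (u : ZF D).val * ((u⁻¹ : (ZF D)ˣ) : ZF D).val = (1 : ZF D).val := by
      have := congrArg ZF.val (Units.mul_inv u)
      exact this
    rw [h0, zero_mul] at h1
    exact zero_ne_one h1
  have hy0 : ∀ c, y c ≠ 0 := by
    intro c h0
    have := hy c
    rw [h0, zero_pow hp.ne_zero] at this
    exact hval0 _ this.symm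
  have hexp : ∀ c, ∀ g ∈ K.fixingSubgroup, ∃ i : Fin p, g (y c) = ζ ^ (i : ℕ) * y c := by
    intro c g hg
    have h1 : (g (y c) / y c) ^ p = 1 := by
      rw [div_pow, ← map_pow, hy, hD g hg _ (ZF_val_mem _)]
      exact div_self (hval0 _)
    obtain ⟨i, hi, h2⟩ := hζ.eq_pow_of_pow_eq_one h1
    exact ⟨⟨i, hi⟩, by rw [h2, div_mul_cancel₀ _ (hy0 c)]⟩
  let H : Subgroup K.fixingSubgroup := F.fixingSubgroup.subgroupOf K.fixingSubgroup
  have hrel : F.fixingSubgroup.relIndex K.fixingSubgroup ≤ F.fixingSubgroup.index := by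
    have := Subgroup.relIndex_le_of_le_right (H := F.fixingSubgroup)
      (le_top : K.fixingSubgroup ≤ ⊤) (by rw [Subgroup.relIndex_top_right]; exact hFi)
    rwa [Subgroup.relIndex_top_right] at this
  have hHfin : Finite (K.fixingSubgroup ⧸ H) := by
    have : Function.Injective (Subgroup.quotientSubgroupOfEmbeddingOfLE F.fixingSubgroup
      (le_top : K.fixingSubgroup ≤ ⊤)) := Function.Embedding.injective _
    have hfin2 : Finite ((⊤ : Subgroup GQ) ⧸ F.fixingSubgroup.subgroupOf ⊤) := by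
      refine Nat.finite_of_card_ne_zero ?_
      have h2 : F.fixingSubgroup.relIndex ⊤ ≠ 0 := by
        rw [Subgroup.relIndex_top_right]; exact hFi
      exact h2
    exact Finite.of_injective _ this
  choose e he using fun c (q : K.fixingSubgroup ⧸ H) =>
    hexp c (q.out : K.fixingSubgroup).1 (q.out : K.fixingSubgroup).2
  have hinj : Function.Injective e := by
    intro c c' hcc
    have hfix : ∀ c, ∀ g : K.fixingSubgroup,
        (g : GQ) (y c) = ζ ^ (e c (QuotientGroup.mk g) : ℕ) * y c := by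
      intro c g
      rw [← he c (QuotientGroup.mk g)]
      obtain ⟨h, hh⟩ := QuotientGroup.mk_out_eq_mul H g
      rw [hh, Subgroup.coe_mul, AlgEquiv.mul_apply]
      congr 1
      have h1 : ((h : K.fixingSubgroup) : GQ) ∈ (F ⊔ K).fixingSubgroup := by
        rw [IntermediateField.fixingSubgroup_sup]
        exact ⟨Subgroup.mem_subgroupOf.1 h.2, (h : K.fixingSubgroup).2⟩
      refine ((IntermediateField.mem_fixingSubgroup_iff _ _).1 h1 (y c) ?_).symm
      rw [hK, ← sup_assoc]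
      exact hyE c
    have hz : y c / y c' ∈ K := by
      have h1 := InfiniteGalois.fixedField_fixingSubgroup K
      rw [← h1, IntermediateField.mem_fixedField_iff]
      intro g hg
      have h2 := hfix c ⟨g, hg⟩
      have h3 := hfix c' ⟨g, hg⟩
      rw [map_div₀]
      simp only at h2 h3
      rw [h2, h3, hcc, mul_div_mul_left _ _ (pow_ne_zero _ (hζ.ne_zero hp.ne_zero))]
    obtain ⟨V, hV⟩ : ∃ V : (ZF D)ˣ, V = U c * (U c')⁻¹ := ⟨_, rfl⟩
    have hVval : (y c / y c') ^ p = (V : ZF D).val := by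
      rw [div_pow, hy, hy, div_eq_iff (hval0 _)]
      have h1 : V * U c' = U c := by
        rw [hV]
        exact inv_mul_cancel_right _ _
      have h2 := congrArg (fun u : (ZF D)ˣ => (u : ZF D).val) h1
      exact h2.symm
    obtain ⟨b, hb, hbp⟩ := U12_down hp D _ _ (ZF_val_mem (V : ZF D)) hVval hz
    obtain ⟨w, hw⟩ := U12_lift hp D V b hb hbp
    refine hU c c' w ?_
    have h1 : U c = V * U c' := by
      rw [hV]
      exact (inv_mul_cancel_right _ _).symm
    rw [h1, hw]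
    exact mul_comm _ _
  have hcard := Nat.card_le_card_of_injective e hinj
  rw [Nat.card_fun, Nat.card_fun, Nat.card_eq_fintype_card, Fintype.card_fin,
    Nat.card_eq_fintype_card, Fintype.card_fin, Nat.pow_le_pow_iff_right hp.one_lt] at hcard
  have h1 : Nat.card (K.fixingSubgroup ⧸ H) = F.fixingSubgroup.relIndex K.fixingSubgroup := rfl
  rw [h1] at hcard
  rw [hfr] at hrank
  omega

end OzakiFree
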