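import Pool.Agent.Lib.MP_6e8030_nt.UBase

open IntermediateField
open scoped ComplexConjugate

noncomputable section

namespace OzakiFree

theorem U13_card {D : Type*} [CommRing D] [IsDomain D] {l : ℕ} (hl : l.Prime) (hl0 : (l : D) = 0)
    (h : ∀ x : D, x ^ l = x) : Nat.card D = l := by
  classical
  have : Fact l.Prime := ⟨hl⟩
  have : CharP D l := (CharP.charP_iff_prime_eq_zero hl).mpr hl0
  let f : ZMod l →+* D := ZMod.castHom dvd_rfl D
  have hf : Function.Injective f := f.injective
  have hs : Function.Surjective f := by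
    intro x
    by_contra hx
    push Not at hx
    let P : Polynomial D := Polynomial.X ^ l - Polynomial.X
    have hdeg : P.natDegree = l := by
      have h1 : (Polynomial.X : Polynomial D).natDegree < (Polynomial.X ^ l : Polynomial D).natDegree := by
        rw [Polynomial.natDegree_X, Polynomial.natDegree_X_pow]
        exact hl.one_lt
      have h2 := Polynomial.natDegree_sub_eq_left_of_natDegree_lt h1
      rw [Polynomial.natDegree_X_pow] at h2
      exact h2
    have hP0 : P ≠ 0 := by
      intro h0
      rw [h0, Polynomial.natDegree_zero] at hdeg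
      exact hl.ne_zero hdeg.symm
    have hroot : ∀ y : D, y ∈ P.roots := by
      intro y
      rw [Polynomial.mem_roots hP0, Polynomial.IsRoot.def, Polynomial.eval_sub,
        Polynomial.eval_pow, Polynomial.eval_X, h y, sub_self]
    let S : Finset D := insert x (Finset.univ.image f)
    have hS : S.card = l + 1 := by
      rw [Finset.card_insert_of_notMem, Finset.card_image_of_injective _ hf, Finset.card_univ,
        ZMod.card]
      intro hmem
      obtain ⟨a, -, ha⟩ := Finset.mem_image.mp hmem
      exact hx a ha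
    have hle : S.card ≤ P.roots.toFinset.card := by
      apply Finset.card_le_card
      intro y _
      rw [Multiset.mem_toFinset]
      exact hroot y
    have h2 : P.roots.toFinset.card ≤ l := by
      exact (Multiset.toFinset_card_le _).trans ((Polynomial.card_roots' P).trans hdeg.le)
    omega
  rw [← Nat.card_congr (Equiv.ofBijective f ⟨hf, hs⟩), Nat.card_zmod]

theorem card_of_pow (E : IntermediateField ℚ Om) [FiniteDimensional ℚ E] {l : ℕ} (hl : l.Prime)
    (B : Ideal ZO) (hB : B.IsMaximal) (hlB : (l : ZO) ∈ B)
    (h : ∀ z : ZF E, iota E z - iota E z ^ l ∈ B) :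
    Nat.card (ZF E ⧸ B.comap (iota E)) = l := by
  have : (B.comap (iota E)).IsPrime := by
    have := hB.isPrime
    exact Ideal.comap_isPrime _ _
  apply U13_card hl
  · rw [← map_natCast (Ideal.Quotient.mk (B.comap (iota E))), Ideal.Quotient.eq_zero_iff_mem,
      Ideal.mem_comap, map_natCast]
    exact hlB
  · rintro ⟨z⟩
    change (Ideal.Quotient.mk _ z) ^ l = Ideal.Quotient.mk _ z
    rw [← map_pow, Ideal.Quotient.eq, Ideal.mem_comap, map_sub, map_pow, ← neg_sub]
    exact B.neg_mem (h z)

theorem pow_of_card (E : IntermediateField ℚ Om) [FiniteDimensional ℚ E] {l : ℕ} (hl : l.Prime)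
    (B : Ideal ZO) (hB : B.IsMaximal) (hcard : Nat.card (ZF E ⧸ B.comap (iota E)) = l) :
    (l : ZO) ∈ B ∧ ∀ z : ZF E, iota E z - iota E z ^ l ∈ B := by
  have hfin : Finite (ZF E ⧸ B.comap (iota E)) :=
    Nat.finite_of_card_ne_zero (by rw [hcard]; exact hl.ne_zero)
  have := Fintype.ofFinite (ZF E ⧸ B.comap (iota E))
  have hc : Fintype.card (ZF E ⧸ B.comap (iota E)) = l := by
    rw [← Nat.card_eq_fintype_card, hcard]
  have : Fact l.Prime := ⟨hl⟩
  let e : ZMod l ≃+* (ZF E ⧸ B.comap (iota E)) := ZMod.ringEquivOfPrime _ hl hc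
  have hpow : ∀ x : ZF E ⧸ B.comap (iota E), x ^ l = x := by
    intro x
    have h1 := ZMod.pow_card (e.symm x)
    have h2 := congrArg e h1
    rwa [map_pow, RingEquiv.apply_symm_apply] at h2
  constructor
  · have h1 : (l : ZF E ⧸ B.comap (iota E)) = 0 := by
      have h2 := congrArg e (ZMod.natCast_self l)
      rwa [map_natCast, map_zero] at h2
    rw [← map_natCast (Ideal.Quotient.mk (B.comap (iota E))), Ideal.Quotient.eq_zero_iff_mem,
      Ideal.mem_comap, map_natCast] at h1
    exact h1
  · intro z
    have h1 := hpow (Ideal.Quotient.mk _ z)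
    rw [← map_pow, Ideal.Quotient.eq, Ideal.mem_comap, map_sub, map_pow] at h1
    rw [← neg_sub]
    exact B.neg_mem h1

end OzakiFree
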