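import Pool.Agent.Lib.MP_6e8030_nt.UBase

open IntermediateField
open scoped ComplexConjugate

noncomputable section

namespace OzakiFree

/-! ### U14: the field of a character -/

/-- an automorphism over `K` as an element of `GQ` -/
private def U14_res (K : IntermediateField ℚ Om) : (Om ≃ₐ[K] Om) →* GQ :=
  AlgEquiv.restrictScalarsHom ℚ

private theorem U14_fix (K : IntermediateField ℚ Om) (t : GQ) :
    t ∈ K.fixingSubgroup ↔ ∀ x ∈ K, t x = x :=
  IntermediateField.mem_fixingSubgroup_iff K t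

private theorem U14_res_mem (K : IntermediateField ℚ Om) (t : Om ≃ₐ[K] Om) :
    U14_res K t ∈ K.fixingSubgroup := by
  rw [U14_fix]
  intro x hx
  exact t.commutes ⟨x, hx⟩

private theorem U14_res_surj (K : IntermediateField ℚ Om) (t : GQ) (ht : t ∈ K.fixingSubgroup) :
    ∃ t' : Om ≃ₐ[K] Om, U14_res K t' = t := by
  rw [U14_fix] at ht
  refine ⟨AlgEquiv.ofRingEquiv (f := (t : Om ≃+* Om)) fun x => ht x.1 x.2, ?_⟩
  ext x
  rfl

/-- a neighbourhood of `1` in `GQ` contains the image of one in `Gal(Om/K)` -/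
private theorem U14_nhds (K : IntermediateField ℚ Om) (V : Subgroup GQ)
    (hV : IsOpen (V : Set GQ)) :
    ∃ F1 : IntermediateField K Om, FiniteDimensional K F1 ∧
      ∀ t ∈ F1.fixingSubgroup, U14_res K t ∈ V := by
  obtain ⟨F0, hF0, hsub⟩ := (krullTopology_mem_nhds_one_iff ℚ Om (V : Set GQ)).1
    (hV.mem_nhds V.one_mem)
  have hess : Algebra.EssFiniteType ℚ F0 := inferInstance
  obtain ⟨S, hS⟩ := IntermediateField.essFiniteType_iff.1 hess
  refine ⟨adjoin K (S : Set Om), ?_, ?_⟩
  · exact finiteDimensional_adjoin fun x _ =>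
      ((Algebra.IsAlgebraic.isAlgebraic (R := ℚ) x).isIntegral).tower_top
  · intro t ht
    refine hsub ?_
    have h1 : F0 ≤ (adjoin K (S : Set Om)).restrictScalars ℚ := by
      rw [← hS, adjoin_le_iff]
      exact subset_adjoin K (S : Set Om)
    refine (U14_fix F0 _).2 fun x hx => ?_
    exact (IntermediateField.mem_fixingSubgroup_iff _ t).1 ht x (h1 hx)

theorem field_of_char {p : ℕ} (hp : p.Prime) (D : IntermediateField ℚ Om) [FiniteDimensional ℚ D]
    (θ : GQ → ZMod p) (h1 : HomOn D.fixingSubgroup θ) (h2 : LCOn D.fixingSubgroup θ)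
    (h3 : ∃ t ∈ D.fixingSubgroup, θ t ≠ 0) :
    ∃ (M : IntermediateField ℚ Om) (_ : FiniteDimensional ℚ M), CycDM p D M ∧
      ∀ g, g ∈ M.fixingSubgroup ↔ g ∈ D.fixingSubgroup ∧ θ g = 0 := by
  have hone : θ 1 = 0 := by
    have := h1 1 (one_mem _) 1 (one_mem _)
    rw [mul_one] at this
    exact left_eq_add.1 this
  have hχ : ∀ a b : Om ≃ₐ[D] Om, θ (U14_res D (a * b)) = θ (U14_res D a) + θ (U14_res D b) := by
    intro a b
    rw [map_mul]
    exact h1 _ (U14_res_mem D a) _ (U14_res_mem D b)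
  let f : (Om ≃ₐ[D] Om) →* Multiplicative (ZMod p) :=
    { toFun := fun t => Multiplicative.ofAdd (θ (U14_res D t))
      map_one' := by rw [map_one, hone]; rfl
      map_mul' := fun a b => by rw [hχ, ofAdd_add] }
  have hf : ∀ t, f t = 1 ↔ θ (U14_res D t) = 0 := fun t => Iff.rfl
  have hopen : IsOpen (f.ker : Set (Om ≃ₐ[D] Om)) := by
    obtain ⟨V, hV, hV2⟩ := h2
    obtain ⟨F1, hF1, hF1V⟩ := U14_nhds D V hV
    refine Subgroup.isOpen_mono (H₁ := F1.fixingSubgroup) ?_
      (IntermediateField.fixingSubgroup_isOpen F1)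
    intro t ht
    have h5 := hV2 1 (one_mem _) _ (hF1V t ht) (U14_res_mem D t)
    rw [one_mul, hone] at h5
    exact (hf t).2 h5
  have hclosed : IsClosed (f.ker : Set (Om ≃ₐ[D] Om)) := Subgroup.isClosed_of_isOpen _ hopen
  have : IsGalois D Om := inferInstance
  set E0 : IntermediateField D Om := fixedField f.ker with hE0
  have hfix : E0.fixingSubgroup = f.ker :=
    InfiniteGalois.fixingSubgroup_fixedField (⟨f.ker, hclosed⟩ : ClosedSubgroup (Om ≃ₐ[D] Om))
  have hfd : FiniteDimensional D E0 := by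
    rw [← InfiniteGalois.isOpen_iff_finite, hfix]
    exact hopen
  have hcard : Module.finrank D E0 = p := by
    have : (⟨f.ker, hclosed⟩ : ClosedSubgroup (Om ≃ₐ[D] Om)).Normal := f.normal_ker
    have hgal : IsGalois D E0 := by
      rw [← InfiniteGalois.normal_iff_isGalois, hfix]
      exact f.normal_ker
    have h5 := InfiniteGalois.normalAutEquivQuotient
      (⟨f.ker, hclosed⟩ : ClosedSubgroup (Om ≃ₐ[D] Om))
    have h6 : Nat.card (E0 ≃ₐ[D] E0) = Module.finrank D E0 := IsGalois.card_aut_eq_finrank D E0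
    have h7 : Nat.card ((Om ≃ₐ[D] Om) ⧸ f.ker) = Nat.card (E0 ≃ₐ[D] E0) := Nat.card_congr h5.toEquiv
    have h8 : Nat.card ((Om ≃ₐ[D] Om) ⧸ f.ker) = Nat.card f.range :=
      Nat.card_congr (QuotientGroup.quotientKerEquivRange f).toEquiv
    have h9 : Nat.card f.range ∣ p := by
      have := Subgroup.card_subgroup_dvd_card f.range
      rwa [Nat.card_congr (Multiplicative.toAdd (α := ZMod p)), Nat.card_zmod] at this
    rw [← h6, ← h7, h8]
    rcases (Nat.dvd_prime hp).1 h9 with h | h
    · exfalso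
      obtain ⟨t, ht, ht0⟩ := h3
      obtain ⟨t', rfl⟩ := U14_res_surj D t ht
      have hbot : f.range = ⊥ := Subgroup.card_eq_one.1 h
      have hmem : f t' ∈ f.range := ⟨t', rfl⟩
      rw [hbot, Subgroup.mem_bot] at hmem
      exact ht0 ((hf t').1 hmem)
    · exact h
  have hDE : D ≤ E0.restrictScalars ℚ := fun y hy => E0.algebraMap_mem ⟨y, hy⟩
  have hker : ∀ t : GQ, t ∈ D.fixingSubgroup → θ t = 0 →
      t ∈ (E0.restrictScalars ℚ).fixingSubgroup := by
    intro t ht h0
    rw [U14_fix]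
    intro x hx
    obtain ⟨t', rfl⟩ := U14_res_surj D t ht
    exact (IntermediateField.mem_fixedField_iff _ x).1 hx t' ((hf t').2 h0)
  have hfin : FiniteDimensional ℚ (E0.restrictScalars ℚ) := by
    have h4 : FiniteDimensional ℚ E0 := Module.Finite.trans D E0
    exact h4
  refine ⟨E0.restrictScalars ℚ, hfin, ⟨hDE, ?_, ?_⟩, ?_⟩
  · rw [IntermediateField.relfinrank_eq_finrank_of_le hDE]
    exact hcard
  · intro t ht x hx
    obtain ⟨t', rfl⟩ := U14_res_surj D t ht
    refine (IntermediateField.mem_fixedField_iff _ (t' x)).2 fun s hs => ?_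
    have h5 : t'⁻¹ * s * t' ∈ f.ker := by
      have := f.normal_ker.conj_mem s hs t'⁻¹
      rwa [inv_inv] at this
    have h6 := (IntermediateField.mem_fixedField_iff _ x).1 hx _ h5
    have h7 := congrArg t' h6
    have h8 : t' ((t'⁻¹ * s * t') x) = s (t' x) := by
      show t' (t'⁻¹ (s (t' x))) = s (t' x)
      exact t'.apply_symm_apply _
    rwa [h8] at h7
  · intro g
    constructor
    · intro hg
      have hgD : g ∈ D.fixingSubgroup := by
        rw [U14_fix] at hg ⊢
        exact fun x hx => hg x (hDE hx)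
      refine ⟨hgD, ?_⟩
      obtain ⟨g', rfl⟩ := U14_res_surj D g hgD
      have h6 : g' ∈ E0.fixingSubgroup := by
        refine (IntermediateField.mem_fixingSubgroup_iff _ g').2 fun x hx => ?_
        exact (U14_fix _ _).1 hg x hx
      rw [hfix] at h6
      exact (hf g').1 h6
    · rintro ⟨hg, h0⟩
      exact hker g hg h0

end OzakiFree
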