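import Pool.Agent.Lib.MP_6e8030_nt.UBase

open IntermediateField
open scoped ComplexConjugate

noncomputable section

namespace OzakiFree

theorem exists_N (E : IntermediateField ℚ Om) [FiniteDimensional ℚ E] (y : Om) :
    ∃ (N : IntermediateField ℚ Om) (_ : FiniteDimensional ℚ N), E ≤ N ∧ y ∈ N ∧
      ∀ (t : GQ), ∀ x ∈ N, t x ∈ N := by
  have hint : Algebra.IsIntegral ℚ Om := Algebra.IsAlgebraic.isIntegral
  have hnorm : Normal ℚ Om := IsAlgClosure.normal ℚ Om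
  have h1 : FiniteDimensional ℚ (ℚ⟮y⟯ : IntermediateField ℚ Om) :=
    IntermediateField.adjoin.finiteDimensional (Algebra.IsIntegral.isIntegral y)
  have h2 : FiniteDimensional ℚ (E ⊔ ℚ⟮y⟯ : IntermediateField ℚ Om) := inferInstance
  have e := IntermediateField.normalClosure_def'' (F := ℚ) (L := Om) (E ⊔ ℚ⟮y⟯)
  have hfd : FiniteDimensional ℚ (⨆ f : GQ, IntermediateField.map (f : Om →ₐ[ℚ] Om)
      (E ⊔ ℚ⟮y⟯) : IntermediateField ℚ Om) := by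
    have h3 := normalClosure.is_finiteDimensional (F := ℚ) (L := Om)
      (K := (E ⊔ ℚ⟮y⟯ : IntermediateField ℚ Om))
    exact e ▸ h3
  have h4 : (E ⊔ ℚ⟮y⟯) ≤ ⨆ f : GQ, IntermediateField.map (f : Om →ₐ[ℚ] Om) (E ⊔ ℚ⟮y⟯) :=
    le_iSup_of_le (1 : GQ) fun x hx => ⟨x, hx, rfl⟩
  refine ⟨⨆ f : GQ, IntermediateField.map (f : Om →ₐ[ℚ] Om) (E ⊔ ℚ⟮y⟯), hfd, ?_, ?_, ?_⟩
  · exact (le_sup_left : E ≤ E ⊔ ℚ⟮y⟯).trans h4
  · exact h4 ((le_sup_right : ℚ⟮y⟯ ≤ E ⊔ ℚ⟮y⟯) (IntermediateField.mem_adjoin_simple_self ℚ y))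
  · intro t x hx
    have key : IntermediateField.map (t : Om →ₐ[ℚ] Om)
        (⨆ f : GQ, IntermediateField.map (f : Om →ₐ[ℚ] Om) (E ⊔ ℚ⟮y⟯)) ≤
        ⨆ f : GQ, IntermediateField.map (f : Om →ₐ[ℚ] Om) (E ⊔ ℚ⟮y⟯) := by
      rw [IntermediateField.map_iSup]
      refine iSup_le fun f => ?_
      rw [IntermediateField.map_map]
      exact le_iSup_of_le (t * f) le_rfl
    exact key ⟨x, hx, rfl⟩

end OzakiFree
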