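import Pool.Agent.Lib.MP_6e8030_nt.UBase

open IntermediateField
open scoped ComplexConjugate

noncomputable section

namespace OzakiFree

theorem units_finite (M : IntermediateField ℚ Om) [FiniteDimensional ℚ M] :
    Module.Finite ℤ (UA M) :=
  (inferInstance : Module.Finite ℤ (Additive (NumberField.RingOfIntegers (FL M))ˣ))

/-- every embedding of `Om` in `ℂ` carries complex conjugation -/
theorem U2a_exists_conj (Φ : Om →+* ℂ) : ∃ c : GQ, ∀ x, Φ (c x) = conj (Φ x) := by
  let _ : Algebra Om ℂ := Φ.toAlgebra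
  have _ : IsScalarTower ℚ Om ℂ := IsScalarTower.of_algebraMap_eq fun q => by
    rw [RingHom.algebraMap_toAlgebra]; simp
  let χ : ℂ ≃ₐ[ℚ] ℂ := Complex.conjAe.restrictScalars ℚ
  refine ⟨χ.restrictNormal Om, fun x => ?_⟩
  exact χ.restrictNormal_commutes Om x

theorem U2a_isReal (M : IntermediateField ℚ Om) (hM : TotReal M) (φ : FL M →+* ℂ) (x : FL M) :
    conj (φ x) = φ x := by
  let _ : Algebra (FL M) ℂ := φ.toAlgebra
  let _ : Algebra (FL M) Om := (FLhom M).toAlgebra
  have _ : Algebra.IsAlgebraic (FL M) Om := by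
    have h1 : Algebra.IsAlgebraic M Om := Algebra.IsAlgebraic.tower_top (K := ℚ) M
    exact h1
  let Ψ : Om →ₐ[FL M] ℂ := IsAlgClosed.lift
  have hΨ : ∀ y : FL M, Ψ (FLhom M y) = φ y := fun y => Ψ.commutes y
  obtain ⟨c, hc⟩ := U2a_exists_conj (Ψ : Om →+* ℂ)
  have h2 : c ∈ M.fixingSubgroup := hM (Ψ : Om →+* ℂ) c hc
  have h3 : c (FLhom M x) = FLhom M x := (mem_fixingSubgroup_iff M c).1 h2 _ x.2
  have h4 := hc (FLhom M x)
  rw [h3] at h4
  have h5 : (Ψ : Om →+* ℂ) (FLhom M x) = φ x := hΨ x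
  rw [h5] at h4
  exact h4.symm

theorem rank_real (M : IntermediateField ℚ Om) [FiniteDimensional ℚ M] (hM : TotReal M) :
    Module.finrank ℤ (UA M) + 1 = Module.finrank ℚ M := by
  have h1 : Module.finrank ℤ (Additive (NumberField.RingOfIntegers (FL M))ˣ) =
      NumberField.Units.rank (FL M) := NumberField.Units.finrank_eq (FL M)
  have h0 : Module.finrank ℤ (UA M) = NumberField.Units.rank (FL M) := h1
  have h2 : NumberField.InfinitePlace.nrComplexPlaces (FL M) = 0 := by
    rw [NumberField.nrComplexPlaces_eq_zero_iff]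
    refine ⟨fun w => ?_⟩
    rw [NumberField.InfinitePlace.isReal_iff]
    ext x
    exact U2a_isReal M hM _ x
  have h3 := NumberField.InfinitePlace.card_add_two_mul_card_eq_rank (FL M)
  have h4 := NumberField.InfinitePlace.card_eq_nrRealPlaces_add_nrComplexPlaces (FL M)
  have h5 : Module.finrank ℚ (FL M) = Module.finrank ℚ M := by
    have : (DivisionRing.toRatAlgebra : Algebra ℚ (FL M)) =
      (inferInstanceAs (Algebra ℚ M) : Algebra ℚ (FL M)) := Subsingleton.elim _ _
    rw [this]
    rfl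
  have h6 : 0 < Fintype.card (NumberField.InfinitePlace (FL M)) := Fintype.card_pos
  rw [h0, NumberField.Units.rank, ← h5]
  omega

end OzakiFree
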