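import Pool.Agent.Lib.MP_6e8030_nt.UBase

open IntermediateField
open scoped ComplexConjugate

noncomputable section

namespace OzakiFree

/-- an element of `M` fixed by `τ` is in `D` -/
theorem U2b_mem {p : ℕ} (hp : p.Prime) {D M : IntermediateField ℚ Om} (h : CycDM p D M) {τ : GQ}
    (hτ : τ ∈ D.fixingSubgroup) (hτM : τ ∉ M.fixingSubgroup) (x : Om) (hx : x ∈ M)
    (hfix : τ x = x) : x ∈ D := by
  have hxE : x ∈ D ⊔ adjoin ℚ {x} :=
    (le_sup_right : adjoin ℚ {x} ≤ D ⊔ adjoin ℚ {x}) (subset_adjoin ℚ {x} rfl)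
  have h1 : D ≤ D ⊔ adjoin ℚ {x} := le_sup_left
  have h2 : D ⊔ adjoin ℚ {x} ≤ M := sup_le h.le (adjoin_le_iff.2 (by simpa using hx))
  have h3 := relfinrank_mul_relfinrank h1 h2
  rw [h.deg] at h3
  rcases (Nat.dvd_prime hp).1 (Dvd.intro _ h3) with h4 | h4
  · exact (relfinrank_eq_one_iff.1 h4) hxE
  · exfalso
    rw [h4] at h3
    have h5 : relfinrank (D ⊔ adjoin ℚ {x}) M = 1 :=
      Nat.eq_of_mul_eq_mul_left hp.pos (by rw [h3, mul_one])
    have h6 : M ≤ D ⊔ adjoin ℚ {x} := relfinrank_eq_one_iff.1 h5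
    apply hτM
    have h7 : D ⊔ adjoin ℚ {x} ≤ fixedField (Subgroup.zpowers τ) := by
      refine sup_le ?_ (adjoin_le_iff.2 ?_)
      · intro y hy
        rw [mem_fixedField_iff]
        rintro g ⟨k, rfl⟩
        have : τ ^ k ∈ D.fixingSubgroup := zpow_mem hτ k
        exact (IntermediateField.mem_fixingSubgroup_iff _ _).1 this y hy
      · intro y hy
        obtain rfl : y = x := hy
        change y ∈ fixedField (Subgroup.zpowers τ)
        rw [mem_fixedField_iff]
        rintro g ⟨k, rfl⟩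
        have h8 : Subgroup.zpowers τ ≤ MulAction.stabilizer GQ y :=
          (Subgroup.zpowers_le).2 hfix
        exact h8 ⟨k, rfl⟩
    rw [IntermediateField.mem_fixingSubgroup_iff]
    intro y hy
    have h9 := h7 (h6 hy)
    rw [mem_fixedField_iff] at h9
    exact h9 τ (Subgroup.mem_zpowers τ)

/-- the inclusion of the rings of integers -/
def U2b_inc {D M : IntermediateField ℚ Om} (h : D ≤ M) : ZF D →+* ZF M where
  toFun z := ⟨(⟨z.val, h (ZF_val_mem z)⟩ : FL M), by
    refine (isIntegral_algHom_iff (FLhom M).toIntAlgHom (FLhom M).injective).1 ?_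
    exact ZF_val_isIntegral z⟩
  map_one' := rfl
  map_zero' := rfl
  map_mul' := fun _ _ => rfl
  map_add' := fun _ _ => rfl

theorem U2b_inc_val {D M : IntermediateField ℚ Om} (h : D ≤ M) (z : ZF D) :
    (U2b_inc h z).val = z.val := rfl

theorem U2b_lift {D M : IntermediateField ℚ Om} (z : ZF M) (hz : z.val ∈ D) :
    ∃ w : ZF D, w.val = z.val :=
  ⟨⟨(⟨z.val, hz⟩ : FL D), by
    refine (isIntegral_algHom_iff (FLhom D).toIntAlgHom (FLhom D).injective).1 ?_
    exact ZF_val_isIntegral z⟩, rfl⟩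

/-- the units of `M` fixed by `τ` are the units of `D` -/
theorem rank_fixed {p : ℕ} (hp : p.Prime) (D M : IntermediateField ℚ Om) [FiniteDimensional ℚ D]
    [FiniteDimensional ℚ M] (h : CycDM p D M) (τ : GQ) (hτ : τ ∈ D.fixingSubgroup)
    (hτM : τ ∉ M.fixingSubgroup) :
    Module.finrank ℤ (AddMonoidHom.ker (actU M τ (h.stable τ hτ) - 1)) =
      Module.finrank ℤ (UA D) := by
  have hfix : ∀ u : UA M, u ∈ AddMonoidHom.ker (actU M τ (h.stable τ hτ) - 1) ↔
      τ ((Additive.toMul u : (ZF M)ˣ) : ZF M).val = ((Additive.toMul u : (ZF M)ˣ) : ZF M).val := by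
    intro u
    have h1 : u ∈ AddMonoidHom.ker (actU M τ (h.stable τ hτ) - 1) ↔
        actU M τ (h.stable τ hτ) u - u = 0 := Iff.rfl
    rw [h1, sub_eq_zero]
    constructor
    · intro h2
      have h3 := congrArg (fun v : UA M => ((Additive.toMul v : (ZF M)ˣ) : ZF M).val) h2
      exact h3
    · intro h2
      apply Additive.toMul.injective
      apply Units.ext
      apply ZF_val_inj
      exact h2
  let f : UA D →+ UA M := MonoidHom.toAdditive (Units.map (U2b_inc h.le : ZF D →* ZF M))
  have hfval : ∀ u : UA D, ((Additive.toMul (f u) : (ZF M)ˣ) : ZF M).val =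
      ((Additive.toMul u : (ZF D)ˣ) : ZF D).val := fun u => rfl
  let g : UA D →+ AddMonoidHom.ker (actU M τ (h.stable τ hτ) - 1) :=
    f.codRestrict _ (by
      intro u
      rw [hfix, hfval]
      exact (IntermediateField.mem_fixingSubgroup_iff _ _).1 hτ _ (ZF_val_mem _))
  have hg : Function.Bijective g := by
    constructor
    · intro u v huv
      have h1 : f u = f v := congrArg Subtype.val huv
      apply Additive.toMul.injective
      apply Units.ext
      apply ZF_val_inj
      rw [← hfval, ← hfval, h1]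
    · rintro ⟨u, hu⟩
      rw [hfix] at hu
      have h1 : ((Additive.toMul u : (ZF M)ˣ) : ZF M).val ∈ D :=
        U2b_mem hp h hτ hτM _ (ZF_val_mem _) hu
      have h0 : ((Additive.toMul u : (ZF M)ˣ) : ZF M).val *
          (((Additive.toMul u : (ZF M)ˣ)⁻¹ : (ZF M)ˣ) : ZF M).val = 1 :=
        congrArg ZF.val (Units.mul_inv (Additive.toMul u : (ZF M)ˣ))
      have h2 : (((Additive.toMul u : (ZF M)ˣ)⁻¹ : (ZF M)ˣ) : ZF M).val ∈ D := by
        rw [← inv_eq_of_mul_eq_one_right h0]
        exact D.inv_mem h1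
      obtain ⟨w, hw⟩ := U2b_lift _ h1
      obtain ⟨w', hw'⟩ := U2b_lift _ h2
      have h3 : w * w' = 1 := by
        apply ZF_val_inj
        change w.val * w'.val = 1
        rw [hw, hw']
        exact h0
      have h4 : w' * w = 1 := by rw [mul_comm]; exact h3
      refine ⟨Additive.ofMul (⟨w, w', h3, h4⟩ : (ZF D)ˣ), ?_⟩
      apply Subtype.ext
      apply Additive.toMul.injective
      apply Units.ext
      apply ZF_val_inj
      exact hw
  exact (LinearEquiv.finrank_eq (AddEquiv.ofBijective g hg).toIntLinearEquiv).symm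

end OzakiFree
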