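import Pool.Agent.Lib.MP_6e8030_nt.UBase
import Pool.Agent.Lib.MP_6e8030_nt.R4

open IntermediateField
open scoped ComplexConjugate Pointwise

noncomputable section

namespace OzakiFree

open NumberField in
theorem U3_abstract (K L : Type) [Field K] [Field L] [NumberField K] [NumberField L] [Algebra K L]
    [IsGalois K L] (Q : Ideal (𝓞 L)) (hQ : Q.IsPrime) (hQ0 : Q ≠ ⊥) :
    ∃ e : ℕ, e ∣ Module.finrank K L ∧
      ((∀ σ ∈ Q.inertia (L ≃ₐ[K] L), σ = 1) → e = 1) ∧
      ∀ b : 𝓞 K, b ≠ 0 → multiplicity Q (Ideal.span {algebraMap (𝓞 K) (𝓞 L) b}) =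
        e * multiplicity (Q.under (𝓞 K)) (Ideal.span {b}) := by
  classical
  have hinst : IsGaloisGroup (L ≃ₐ[K] L) (𝓞 K) (𝓞 L) :=
    IsGaloisGroup.of_isFractionRing _ (𝓞 K) (𝓞 L) K L
  have hover : Q.LiesOver (Q.under (𝓞 K)) := ⟨rfl⟩
  have hq0 : Q.under (𝓞 K) ≠ ⊥ := by
    intro h
    exact hQ0 (Ideal.eq_bot_of_comap_eq_bot h)
  have hqp : (Q.under (𝓞 K)).IsPrime := inferInstance
  have hqmax : (Q.under (𝓞 K)).IsMaximal := hqp.isMaximal hq0
  refine ⟨Ideal.ramificationIdxIn (Q.under (𝓞 K)) (𝓞 L), ?_, ?_, ?_⟩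
  · have h1 := Ideal.ncard_primesOver_mul_ramificationIdxIn_mul_inertiaDegIn (Q.under (𝓞 K))
      (𝓞 L) (L ≃ₐ[K] L)
    rw [IsGalois.card_aut_eq_finrank] at h1
    rw [← h1]
    exact Dvd.dvd.mul_left (Dvd.intro _ rfl) _
  · intro hI
    have hcard : Nat.card (Q.inertia (L ≃ₐ[K] L)) = 1 := by
      rw [Nat.card_eq_one_iff_unique]
      refine ⟨⟨fun a b => ?_⟩, ⟨1⟩⟩
      apply Subtype.ext
      rw [hI a a.2, hI b b.2]
    rw [← Ideal.card_inertia_eq_ramificationIdxIn (G := L ≃ₐ[K] L) (Q.under (𝓞 K)) Q]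
    exact hcard
  · intro b hb
    rw [Ideal.ramificationIdxIn_eq_ramificationIdx (Q.under (𝓞 K)) Q (L ≃ₐ[K] L),
      ← Ideal.ramificationIdx'_eq_ramificationIdx (Q.under (𝓞 K)) Q hq0]
    have hbI : Ideal.span {b} ≠ ⊥ := by
      rw [Ne, Ideal.span_singleton_eq_bot]
      exact hb
    have hqi : Irreducible (Q.under (𝓞 K)) := (Ideal.prime_of_isPrime hq0 hqp).irreducible
    have hQi : Irreducible Q := (Ideal.prime_of_isPrime hQ0 hQ).irreducible
    have h1 := Ideal.IsDedekindDomain.emultiplicity_map_eq_ramificationIdx'_mul hbI hqi hQi hQ0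
    rw [Ideal.map_span, Set.image_singleton] at h1
    have hf : FiniteMultiplicity (Q.under (𝓞 K)) (Ideal.span {b}) :=
      FiniteMultiplicity.of_prime_left (Ideal.prime_of_isPrime hq0 hqp) hbI
    rw [hf.emultiplicity_eq_multiplicity] at h1
    have h2 : emultiplicity Q (Ideal.span {algebraMap (𝓞 K) (𝓞 L) b}) =
      (((Q.under (𝓞 K)).ramificationIdx' Q * multiplicity (Q.under (𝓞 K)) (Ideal.span {b}) : ℕ) : ℕ∞) := by
      rw [h1]
      push_cast
      rfl
    exact multiplicity_eq_of_emultiplicity_eq_some h2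

/-- automorphisms of `N` in the inertia group of `B ∩ N` lift to the inertia group of `B` -/
theorem U3_surj (N : IntermediateField ℚ Om) [FiniteDimensional ℚ N]
    (B : Ideal (integralClosure ℤ Om)) (hB : B.IsMaximal) (σ : N ≃ₐ[ℚ] N)
    (hσ : ∀ (z : integralClosure ℤ Om) (hz : (z : Om) ∈ N),
      ∃ b ∈ B, (b : Om) = (σ ⟨z, hz⟩ : N) - z) :
    ∃ t ∈ B.inertia GQ, ∀ x : N, t (x : Om) = (σ x : N) := by
  classical
  let : TopologicalSpace (integralClosure ℤ Om) := ⊥
  have : DiscreteTopology (integralClosure ℤ Om) := ⟨rfl⟩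
  have : ContinuousSMul (Om ≃ₐ[N] Om) (integralClosure ℤ Om) := by
    rw [continuousSMul_iff_stabilizer_isOpen]
    intro x
    have h1 := stabilizer_isOpen_of_isIntegral (K := N) (L := Om) (x : Om)
    convert h1 using 1
    ext g
    constructor
    · intro h
      exact congrArg Subtype.val h
    · intro h
      exact Subtype.ext h
  have := hB.isPrime
  -- lift
  let g : GQ := σ.liftNormal Om
  have hg : ∀ x : N, g (x : Om) = (σ x : N) := fun x => AlgEquiv.liftNormal_commutes σ Om x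
  have hginv : ∀ x : N, g⁻¹ (x : Om) = (σ.symm x : N) := by
    intro x
    have h1 := hg (σ.symm x)
    rw [AlgEquiv.apply_symm_apply] at h1
    rw [← h1]
    exact AlgEquiv.symm_apply_apply g _
  have hmem : ∀ (z : integralClosure ℤ Om), (z : Om) ∈ N → (z ∈ g • B ↔ z ∈ B) := by
    intro z hz
    rw [Ideal.mem_pointwise_smul_iff_inv_smul_mem]
    have hy : ((g⁻¹ • z : integralClosure ℤ Om) : Om) = (σ.symm ⟨z, hz⟩ : N) := hginv ⟨z, hz⟩
    have hyN : ((g⁻¹ • z : integralClosure ℤ Om) : Om) ∈ N := by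
      rw [hy]
      exact (σ.symm ⟨z, hz⟩).2
    obtain ⟨b, hb, hb'⟩ := hσ (g⁻¹ • z) hyN
    have h3 : (⟨((g⁻¹ • z : integralClosure ℤ Om) : Om), hyN⟩ : N) = σ.symm ⟨z, hz⟩ :=
      Subtype.ext hy
    rw [h3, AlgEquiv.apply_symm_apply] at hb'
    have h4 : b = z - g⁻¹ • z := Subtype.ext (by rw [hb']; rfl)
    rw [h4] at hb
    constructor
    · intro h
      have := B.add_mem hb h
      simpa using this
    · intro h
      have := B.sub_mem h hb
      simpa using this
  have hunder : (g • B).under (R4A N) = B.under (R4A N) := by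
    ext z
    exact hmem z z.2
  have : (g • B).IsPrime := inferInstance
  obtain ⟨h, hh⟩ := Algebra.IsInvariant.exists_smul_of_under_eq_of_profinite
    (A := R4A N) (G := (Om ≃ₐ[N] Om)) (g • B) B hunder
  let h' : GQ := AlgEquiv.restrictScalars ℚ h
  have hh' : (h' * g) • B = B := by
    rw [mul_smul]
    exact hh.symm
  have hg' : ∀ x : N, (h' * g) (x : Om) = (σ x : N) := by
    intro x
    change h (g (x : Om)) = _
    rw [hg]
    exact h.commutes (σ x)
  let e : (integralClosure ℤ Om ⧸ B) ≃ₐ[R4A N ⧸ B.under (R4A N)] (integralClosure ℤ Om ⧸ B) :=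
    { __ := Ideal.quotientEquiv B B (MulSemiringAction.toRingEquiv GQ (integralClosure ℤ Om) (h' * g))
        hh'.symm
      commutes' := by
        rintro ⟨z⟩
        change Ideal.Quotient.mk B ((h' * g) • (z : integralClosure ℤ Om)) =
          Ideal.Quotient.mk B (z : integralClosure ℤ Om)
        rw [Ideal.Quotient.eq]
        obtain ⟨b, hb, hb'⟩ := hσ z z.2
        have : (h' * g) • (z : integralClosure ℤ Om) - z = b := by
          apply Subtype.ext
          have h6 := hg' ⟨((z : integralClosure ℤ Om) : Om), z.2⟩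
          refine Eq.trans ?_ hb'.symm
          exact congrArg (fun y : Om => y - ((z : integralClosure ℤ Om) : Om)) h6
        rw [this]
        exact hb }
  obtain ⟨s, hs⟩ := Ideal.Quotient.stabilizerHom_surjective_of_profinite
    (G := (Om ≃ₐ[N] Om)) (B.under (R4A N)) B e
  let s' : GQ := AlgEquiv.restrictScalars ℚ (s : Om ≃ₐ[N] Om)
  have hs' : ∀ z : integralClosure ℤ Om, s' • z - (h' * g) • z ∈ B := by
    intro z
    rw [← Ideal.Quotient.eq]
    exact DFunLike.congr_fun hs (Ideal.Quotient.mk B z)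
  have hsB : s' • B = B := s.2
  refine ⟨s'⁻¹ * (h' * g), ?_, ?_⟩
  · intro z
    have h1 := hs' z
    have h2 : s'⁻¹ • ((h' * g) • z - s' • z) ∈ B := by
      have h3 : (h' * g) • z - s' • z ∈ s' • B := by
        rw [hsB, ← neg_sub]
        exact B.neg_mem h1
      rwa [Ideal.mem_pointwise_smul_iff_inv_smul_mem] at h3
    rw [smul_sub, ← mul_smul, inv_smul_smul] at h2
    exact h2
  · intro x
    change s'⁻¹ ((h' * g) (x : Om)) = _
    rw [hg' x]
    have h1 : s' ((σ x : N) : Om) = (σ x : N) := (s : Om ≃ₐ[N] Om).commutes (σ x)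
    conv_lhs => rw [← h1]
    exact AlgEquiv.symm_apply_apply s' _

theorem U3_comap_maximal (M : IntermediateField ℚ Om) [FiniteDimensional ℚ M] (B : Ideal ZO)
    (hB : B.IsMaximal) : (B.comap (iota M)).IsPrime ∧ B.comap (iota M) ≠ ⊥ := by
  have := hB.isPrime
  refine ⟨Ideal.comap_isPrime (iota M) B, ?_⟩
  have h1 : (B.comap (algebraMap ℤ ZO)).IsMaximal :=
    Ideal.isMaximal_comap_of_isIntegral_of_isMaximal B
  have h2 : B.comap (algebraMap ℤ ZO) ≠ ⊥ :=
    Ring.ne_bot_of_isMaximal_of_not_isField h1 Int.not_isField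
  obtain ⟨n, hn, hn0⟩ := Submodule.exists_mem_ne_zero_of_ne_bot h2
  intro h
  have h3 : ((n : ℤ) : ZF M) ∈ B.comap (iota M) := by
    rw [Ideal.mem_comap, map_intCast]
    rw [Ideal.mem_comap] at hn
    simpa using hn
  rw [h, Ideal.mem_bot] at h3
  apply hn0
  have h5 : ((n : ℤ) : Om) = 0 := by
    have h6 : iota M ((n : ℤ) : ZF M) = 0 := by rw [h3, map_zero]
    rw [map_intCast] at h6
    have h7 := congrArg (fun z : ZO => (z : Om)) h6
    simpa using h7
  exact_mod_cast h5

theorem U3_galois {p : ℕ} (D M : IntermediateField ℚ Om) [FiniteDimensional ℚ D]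
    [FiniteDimensional ℚ M] (h : CycDM p D M) :
    ∃ alg : Algebra (FL D) (FL M), (∀ x : FL D, (algebraMap (FL D) (FL M) x).val = x.val) ∧
      IsGalois (FL D) (FL M) ∧ Module.finrank (FL D) (FL M) = p := by
  let alg : Algebra (FL D) (FL M) := (IntermediateField.inclusion h.le).toRingHom.toAlgebra
  refine ⟨alg, fun x => rfl, ?_⟩
  let E : IntermediateField D Om := IntermediateField.extendScalars h.le
  have : Algebra.IsAlgebraic D Om := Algebra.IsAlgebraic.tower_top (K := ℚ) D
  have hcl : IsAlgClosure D Om := ⟨inferInstance, inferInstance⟩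
  have : Normal D Om := IsAlgClosure.normal D Om
  have hn : Normal D E := by
    rw [IntermediateField.normal_iff_forall_map_le']
    rintro σ _ ⟨x, hx, rfl⟩
    have h1 : (AlgEquiv.restrictScalars ℚ σ : GQ) ∈ D.fixingSubgroup := by
      rw [IntermediateField.mem_fixingSubgroup_iff]
      intro y hy
      exact σ.commutes ⟨y, hy⟩
    exact h.stable _ h1 x hx
  have hg : IsGalois D E := { }
  let algD : Algebra D (FL M) := alg
  let e : E ≃ₐ[D] (FL M) :=
    { toFun := fun x => (⟨x.1, x.2⟩ : M)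
      invFun := fun x => ⟨x.1, x.2⟩
      left_inv := fun x => rfl
      right_inv := fun x => rfl
      map_mul' := fun x y => rfl
      map_add' := fun x y => rfl
      commutes' := fun x => rfl }
  have hg2 : IsGalois D (FL M) := IsGalois.of_algEquiv e
  refine ⟨hg2, ?_⟩
  have h2 := IntermediateField.relfinrank_eq_finrank_of_le h.le
  rw [h.deg] at h2
  rw [h2]
  exact (e.toLinearEquiv.finrank_eq).symm

theorem mult_ram {p : ℕ} (hp : p.Prime) (D M : IntermediateField ℚ Om) [FiniteDimensional ℚ D]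
    [FiniteDimensional ℚ M] (h : CycDM p D M) (B : Ideal ZO) (hB : B.IsMaximal) :
    ∃ e : ℕ, e ∣ p ∧ ((∀ t ∈ B.inertia GQ, t ∈ D.fixingSubgroup → t ∈ M.fixingSubgroup) → e = 1) ∧
      ∀ (b : ZF D) (b' : ZF M), b ≠ 0 → b'.val = b.val →
        multiplicity (B.comap (iota M)) (Ideal.span {b'}) =
          e * multiplicity (B.comap (iota D)) (Ideal.span {b}) := by
  classical
  obtain ⟨alg, hval, hgal, hfin⟩ := U3_galois D M h
  obtain ⟨hQ, hQ0⟩ := U3_comap_maximal M B hB
  obtain ⟨e, he1, he2, he3⟩ := U3_abstract (FL D) (FL M) (B.comap (iota M)) hQ hQ0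
  rw [hfin] at he1
  refine ⟨e, he1, ?_, ?_⟩
  · intro hI
    apply he2
    intro σ hσ
    let σ' : M ≃ₐ[ℚ] M := AlgEquiv.ofRingEquiv (f := (σ : FL M ≃+* FL M)) (fun r => by
      exact map_ratCast (σ : FL M ≃+* FL M) r)
    have hσ' : ∀ x : FL M, (σ' x : M) = σ x := fun x => rfl
    obtain ⟨t, ht, ht'⟩ := U3_surj M B hB σ' (by
      intro z hz
      have hzi : IsIntegral ℤ (⟨(z : Om), hz⟩ : FL M) := by
        refine (isIntegral_algHom_iff (FLhom M).toIntAlgHom (FLhom M).injective).1 ?_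
        exact z.2
      let y : ZF M := ⟨⟨(z : Om), hz⟩, hzi⟩
      refine ⟨_, hσ y, ?_⟩
      rfl)
    have htD : t ∈ D.fixingSubgroup := by
      rw [IntermediateField.mem_fixingSubgroup_iff]
      intro x hx
      have h1 := ht' ⟨x, h.le hx⟩
      have h2 : σ (algebraMap (FL D) (FL M) ⟨x, hx⟩) = algebraMap (FL D) (FL M) ⟨x, hx⟩ :=
        σ.commutes _
      have h3 : (algebraMap (FL D) (FL M) ⟨x, hx⟩) = (⟨x, h.le hx⟩ : M) := Subtype.ext (hval ⟨x, hx⟩)
      rw [h3] at h2
      have h4 := congrArg (fun y : FL M => y.val) h2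
      exact h1.trans h4
    have htM := hI t ht htD
    rw [IntermediateField.mem_fixingSubgroup_iff] at htM
    apply AlgEquiv.ext
    intro x
    apply Subtype.ext
    have h1 := ht' x
    have h2 := htM x.1 x.2
    exact h1.symm.trans h2
  · intro b b' hb hbb
    have h1 := he3 b hb
    have h2 : b' = (algebraMap (NumberField.RingOfIntegers (FL D))
        (NumberField.RingOfIntegers (FL M)) b : NumberField.RingOfIntegers (FL M)) := by
      apply ZF_val_inj
      rw [hbb]
      exact (hval b.1).symm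
    have h3 : Ideal.under (NumberField.RingOfIntegers (FL D))
        (B.comap (iota M) : Ideal (NumberField.RingOfIntegers (FL M))) = B.comap (iota D) := by
      ext x
      have h4 : iota M (algebraMap (NumberField.RingOfIntegers (FL D))
        (NumberField.RingOfIntegers (FL M)) x) = iota D x := by
        apply Subtype.ext
        exact hval x.1
      change iota M (algebraMap (NumberField.RingOfIntegers (FL D))
        (NumberField.RingOfIntegers (FL M)) x) ∈ B ↔ iota D x ∈ B
      rw [h4]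
    rw [h3] at h1
    rw [h2]
    exact h1

end OzakiFree
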