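import Pool.Agent.Lib.MP_6e8030_nt.UBase

open IntermediateField
open scoped ComplexConjugate NumberField

noncomputable section

namespace OzakiFree

private theorem U4_prime {R : Type*} [CommRing R] [IsDedekindDomain R] {q : Ideal R}
    (hq : q.IsMaximal) (h0 : q ≠ ⊥) : Prime q :=
  Ideal.prime_of_isPrime h0 hq.isPrime

private theorem U4_mult_mul {R : Type*} [CommRing R] [IsDedekindDomain R] {q : Ideal R}
    (hq : q.IsMaximal) (h0 : q ≠ ⊥) {a b : Ideal R} (ha : a ≠ ⊥) (hb : b ≠ ⊥) :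
    multiplicity q (a * b) = multiplicity q a + multiplicity q b := by
  have hp := U4_prime hq h0
  refine multiplicity_mul hp (FiniteMultiplicity.of_prime_left hp ?_)
  exact mul_ne_zero ha hb

private theorem U4_mult_pow {R : Type*} [CommRing R] [IsDedekindDomain R] {q : Ideal R}
    (hq : q.IsMaximal) (h0 : q ≠ ⊥) {a : Ideal R} (ha : a ≠ ⊥) (n : ℕ) :
    multiplicity q (a ^ n) = n * multiplicity q a := by
  have hp := U4_prime hq h0
  exact (FiniteMultiplicity.of_prime_left hp ha).multiplicity_pow hp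

private theorem U4_pow {R : Type*} [CommRing R] [IsDedekindDomain R] {p : ℕ} (hp : p.Prime)
    (I : Ideal R) : I ≠ ⊥ →
    (∀ q : Ideal R, q.IsMaximal → q ≠ ⊥ → p ∣ multiplicity q I) → ∃ c : Ideal R, I = c ^ p := by
  refine WellFoundedGT.induction (motive := fun I : Ideal R => I ≠ ⊥ →
    (∀ q : Ideal R, q.IsMaximal → q ≠ ⊥ → p ∣ multiplicity q I) → ∃ c : Ideal R, I = c ^ p) I ?_
  intro I ih hI h
  by_cases htop : I = ⊤
  · exact ⟨⊤, by rw [htop, Ideal.top_pow]⟩
  obtain ⟨q, hq, hle⟩ := Ideal.exists_le_maximal I htop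
  have hq0 : q ≠ ⊥ := by
    rintro rfl
    exact hI (le_bot_iff.1 hle)
  have hqp := U4_prime hq hq0
  have hfin : FiniteMultiplicity q I := FiniteMultiplicity.of_prime_left hqp hI
  have h1 : multiplicity q I ≠ 0 := by
    intro h0
    rw [multiplicity_eq_zero, Ideal.dvd_iff_le] at h0
    exact h0 hle
  have h2 : p ≤ multiplicity q I := Nat.le_of_dvd (Nat.pos_of_ne_zero h1) (h q hq hq0)
  obtain ⟨J, hJ⟩ := pow_dvd_of_le_multiplicity h2
  have hJ0 : J ≠ ⊥ := by
    rintro rfl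
    exact hI (by rw [hJ]; exact Ideal.mul_bot _)
  have hqp0 : q ^ p ≠ ⊥ := pow_ne_zero p hq0
  have hlt : I < J := by
    refine lt_of_le_of_ne ?_ ?_
    · rw [hJ]
      exact Ideal.mul_le_right (I := q ^ p) (J := J)
    · intro hIJ
      have h3 : multiplicity q I = multiplicity q (q ^ p) + multiplicity q J := by
        conv_lhs => rw [hJ]
        exact U4_mult_mul hq hq0 hqp0 hJ0
      rw [U4_mult_pow hq hq0 hq0, multiplicity_self, ← hIJ] at h3
      have := hp.pos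
      omega
  obtain ⟨c, hc⟩ := ih J hlt hJ0 (by
    intro r hr hr0
    have h3 : multiplicity r I = multiplicity r (q ^ p) + multiplicity r J := by
      conv_lhs => rw [hJ]
      exact U4_mult_mul hr hr0 hqp0 hJ0
    rw [U4_mult_pow hr hr0 hq0] at h3
    exact (Nat.dvd_add_right (Dvd.intro _ rfl)).1 (h3 ▸ h r hr hr0))
  exact ⟨q * c, by rw [mul_pow, ← hc, ← hJ]⟩

private theorem U4_main (K : Type) [Field K] [NumberField K] {p : ℕ} (hp : p.Prime)
    (hcl : ¬ p ∣ NumberField.classNumber K) (a : 𝓞 K) (ha : a ≠ 0)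
    (h : ∀ q : Ideal (𝓞 K), q.IsMaximal → p ∣ multiplicity q (Ideal.span {a})) :
    ∃ (β : 𝓞 K) (η : (𝓞 K)ˣ), a = β ^ p * η := by
  have hI : Ideal.span {a} ≠ ⊥ := by
    rw [Ne, Ideal.span_singleton_eq_bot]
    exact ha
  obtain ⟨c, hc⟩ := U4_pow hp (Ideal.span {a}) hI (fun q hq _ => h q hq)
  have hc0 : c ≠ ⊥ := by
    rintro rfl
    apply hI
    rw [hc]
    exact zero_pow hp.ne_zero
  have hcn : c ∈ nonZeroDivisors (Ideal (𝓞 K)) := mem_nonZeroDivisors_iff_ne_zero.2 hc0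
  have h1 : (ClassGroup.mk0 ⟨c, hcn⟩) ^ p = 1 := by
    rw [← map_pow]
    have h2 : (⟨c, hcn⟩ : nonZeroDivisors (Ideal (𝓞 K))) ^ p =
        ⟨Ideal.span {a}, mem_nonZeroDivisors_iff_ne_zero.2 hI⟩ := by
      ext1
      simp [hc]
    rw [h2, ClassGroup.mk0_eq_one_iff]
    exact ⟨a, rfl⟩
  have h2 : ClassGroup.mk0 ⟨c, hcn⟩ = 1 := by
    rw [← orderOf_eq_one_iff]
    rcases (Nat.dvd_prime hp).1 (orderOf_dvd_of_pow_eq_one h1) with h3 | h3
    · exact h3
    · exfalso
      apply hcl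
      rw [← h3]
      exact orderOf_dvd_card
  rw [ClassGroup.mk0_eq_one_iff] at h2
  obtain ⟨β, hβ⟩ := h2
  have hβ' : c = Ideal.span {β} := hβ
  have h4 : Ideal.span {β ^ p} = Ideal.span {a} := by
    rw [← Ideal.span_singleton_pow, ← hβ', ← hc]
  obtain ⟨η, hη⟩ := Ideal.span_singleton_eq_span_singleton.1 h4
  exact ⟨β, η, hη.symm⟩

/-! ### U4: `p`-th powers when `p` does not divide the class number -/

theorem exists_pow_unit {p : ℕ} (hp : p.Prime) (D : IntermediateField ℚ Om)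
    [FiniteDimensional ℚ D] (hcl : ¬ p ∣ NumberField.classNumber (FL D)) (a : ZF D) (ha : a ≠ 0)
    (h : ∀ q : Ideal (ZF D), q.IsMaximal → p ∣ multiplicity q (Ideal.span {a})) :
    ∃ (β : ZF D) (η : (ZF D)ˣ), a = β ^ p * η :=
  U4_main (FL D) hp hcl a ha h

end OzakiFree
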