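import Pool.Agent.Lib.MP_6e8030_nt.UBase

open IntermediateField
open scoped ComplexConjugate

noncomputable section

namespace OzakiFree

theorem U5_fix {F : IntermediateField ℚ Om} {t : GQ} (ht : t ∈ F.fixingSubgroup) (x : Om)
    (hx : x ∈ F) : t x = x := by
  rw [IntermediateField.mem_fixingSubgroup_iff] at ht
  exact ht x hx

/-- `t` as an automorphism over `D` -/
def U5_lift (D : IntermediateField ℚ Om) (t : GQ) (ht : t ∈ D.fixingSubgroup) : Om ≃ₐ[D] Om :=
  { (t : Om ≃+* Om) with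
    commutes' := fun r => U5_fix ht r.1 r.2 }

theorem U5_lift_apply (D : IntermediateField ℚ Om) (t : GQ) (ht : t ∈ D.fixingSubgroup) (x : Om) :
    U5_lift D t ht x = t x := rfl

/-- the structure of the Galois group of `M/D` -/
theorem U5_gal {p : ℕ} (hp : p.Prime) (D M : IntermediateField ℚ Om) [FiniteDimensional ℚ D]
    [FiniteDimensional ℚ M] (h : CycDM p D M) :
    (∀ τ ∈ D.fixingSubgroup, ∀ x ∈ M, (τ ^ p) x = x) ∧
    ∀ τ ∈ D.fixingSubgroup, τ ∉ M.fixingSubgroup → ∀ t ∈ D.fixingSubgroup,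
      ∃ k : ℕ, ∀ x ∈ M, t x = (τ ^ k) x := by
  classical
  set E : IntermediateField D Om := extendScalars h.le with hE
  have hmem : ∀ x : Om, x ∈ E ↔ x ∈ M := fun x => mem_extendScalars h.le
  have hfin : Module.finrank D E = p := by
    have := h.deg
    rw [relfinrank_eq_finrank_of_le h.le] at this
    exact this
  have : FiniteDimensional D E := by
    apply Module.finite_of_finrank_pos
    rw [hfin]
    exact hp.pos
  have : Normal D Om := inferInstance
  have hnorm : Normal D E := by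
    rw [IntermediateField.normal_iff_forall_map_le']
    intro σ
    rintro y ⟨x, hx, rfl⟩
    have hσ : (AlgEquiv.restrictScalars ℚ σ) ∈ D.fixingSubgroup := by
      rw [IntermediateField.mem_fixingSubgroup_iff]
      intro z hz
      exact σ.commutes ⟨z, hz⟩
    exact (hmem _).2 (h.stable _ hσ x ((hmem x).1 hx))
  have hgal : IsGalois D E := { to_normal := hnorm, to_isSeparable := inferInstance }
  have hcard : Nat.card (E ≃ₐ[D] E) = p := by
    rw [IsGalois.card_aut_eq_finrank, hfin]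
  set R : (Om ≃ₐ[D] Om) →* (E ≃ₐ[D] E) := AlgEquiv.restrictNormalHom E with hR
  have hRapp : ∀ (s : Om ≃ₐ[D] Om) (x : E), ((R s x : E) : Om) = s (x : Om) := by
    intro s x
    exact AlgEquiv.restrictNormal_commutes s E x
  have hpow : ∀ (τ : GQ) (hτ : τ ∈ D.fixingSubgroup) (k : ℕ) (x : Om),
      ((U5_lift D τ hτ) ^ k) x = (τ ^ k) x := by
    intro τ hτ k
    induction k with
    | zero => intro x; rfl
    | succ k ih =>
      intro x
      rw [pow_succ, pow_succ]
      change ((U5_lift D τ hτ) ^ k) ((U5_lift D τ hτ) x) = (τ ^ k) (τ x)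
      rw [ih]
      rfl
  constructor
  · intro τ hτ x hx
    have h1 : (R (U5_lift D τ hτ)) ^ p = 1 := by
      rw [← hcard]
      exact pow_card_eq_one'
    rw [← hpow τ hτ]
    have h2 := hRapp ((U5_lift D τ hτ) ^ p) ⟨x, (hmem x).2 hx⟩
    rw [map_pow, h1] at h2
    exact h2.symm
  · intro τ hτ hτM t ht
    have hne : R (U5_lift D τ hτ) ≠ 1 := by
      intro h1
      apply hτM
      rw [IntermediateField.mem_fixingSubgroup_iff]
      intro x hx
      have h2 := hRapp (U5_lift D τ hτ) ⟨x, (hmem x).2 hx⟩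
      rw [h1] at h2
      exact h2.symm
    have : Finite (E ≃ₐ[D] E) := inferInstance
    have : Fact (Nat.card (E ≃ₐ[D] E)).Prime := ⟨by rw [hcard]; exact hp⟩
    have h3 : R (U5_lift D t ht) ∈ Subgroup.zpowers (R (U5_lift D τ hτ)) := by
      have := zpowers_eq_top_of_prime_card (p := p) (G := (E ≃ₐ[D] E)) (hp := ⟨hp⟩) hcard hne
      rw [this]
      trivial
    obtain ⟨k, hk⟩ := (mem_powers_iff_mem_zpowers (x := R (U5_lift D τ hτ))).2 h3
    refine ⟨k, fun x hx => ?_⟩
    have h4 := hRapp (U5_lift D t ht) ⟨x, (hmem x).2 hx⟩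
    have h5 := hRapp ((U5_lift D τ hτ) ^ k) ⟨x, (hmem x).2 hx⟩
    rw [map_pow] at h5
    rw [← hpow τ hτ k x, ← h5]
    simp only at hk
    rw [hk]
    exact h4.symm

theorem U5_distinct {p : ℕ} (hp : p.Prime) (D M : IntermediateField ℚ Om) [FiniteDimensional ℚ D]
    [FiniteDimensional ℚ M] (h : CycDM p D M) (τ : GQ) (hτ : τ ∈ D.fixingSubgroup)
    (hτM : τ ∉ M.fixingSubgroup) {i j : ℕ} (hij : i < j) (hj : j < p)
    (he : ∀ x ∈ M, (τ ^ i) x = (τ ^ j) x) : False := by
  have hfix : ∀ x ∈ M, (τ ^ p) x = x := (U5_gal hp D M h).1 τ hτ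
  have hpM : τ ^ p ∈ M.fixingSubgroup := by
    rw [IntermediateField.mem_fixingSubgroup_iff]
    exact hfix
  have hdM : τ ^ (j - i) ∈ M.fixingSubgroup := by
    rw [IntermediateField.mem_fixingSubgroup_iff]
    intro x hx
    have h1 := he x hx
    have h2 : j = i + (j - i) := by omega
    rw [h2, pow_add] at h1
    have h3 : (τ ^ i) x = (τ ^ i) ((τ ^ (j - i)) x) := h1
    exact ((τ ^ i).injective h3).symm
  have hco : Nat.Coprime (j - i) p := by
    rw [Nat.coprime_comm]
    exact (Nat.Prime.coprime_iff_not_dvd hp).2 (fun hd => by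
      have := Nat.le_of_dvd (by omega) hd
      omega)
  apply hτM
  have h4 : τ = (τ ^ (j - i)) ^ (Nat.gcdA (j - i) p) * (τ ^ p) ^ (Nat.gcdB (j - i) p) := by
    rw [← zpow_natCast, ← zpow_mul, ← zpow_natCast, ← zpow_mul, ← zpow_add]
    have h5 := Nat.gcd_eq_gcd_ab (j - i) p
    rw [hco] at h5
    rw [← h5]
    simp
  rw [h4]
  exact M.fixingSubgroup.mul_mem (M.fixingSubgroup.zpow_mem hdM _) (M.fixingSubgroup.zpow_mem hpM _)

/-- an element of `Om` in `F` which is integral -/
def U5_mk (F : IntermediateField ℚ Om) (x : Om) (hx : x ∈ F) (hi : IsIntegral ℤ x) : ZF F :=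
  ⟨(⟨x, hx⟩ : FL F), (isIntegral_algHom_iff (FLhom F).toIntAlgHom (FLhom F).injective).1 hi⟩

theorem U5_mk_val (F : IntermediateField ℚ Om) (x : Om) (hx : x ∈ F) (hi : IsIntegral ℤ x) :
    (U5_mk F x hx hi).val = x := rfl

theorem hilbert90 {p : ℕ} (hp : p.Prime) (D M : IntermediateField ℚ Om) [FiniteDimensional ℚ D]
    [FiniteDimensional ℚ M] (h : CycDM p D M) (τ : GQ) (hτ : τ ∈ D.fixingSubgroup)
    (hτM : τ ∉ M.fixingSubgroup) (x : Om) (hx : x ∈ M)
    (hN : ∏ i ∈ Finset.range p, (τ ^ i) x = 1) :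
    ∃ α : ZF M, α ≠ 0 ∧ τ α.val = x * α.val := by
  classical
  have hst : ∀ y ∈ M, τ y ∈ M := h.stable τ hτ
  have hstk : ∀ (k : ℕ), ∀ y ∈ M, (τ ^ k) y ∈ M := by
    intro k
    induction k with
    | zero => intro y hy; exact hy
    | succ k ih =>
      intro y hy
      rw [pow_succ]
      exact ih _ (hst y hy)
  have hfix : ∀ y ∈ M, (τ ^ p) y = y := (U5_gal hp D M h).1 τ hτ
  have hx0 : x ≠ 0 := by
    rintro rfl
    have : ∏ i ∈ Finset.range p, (τ ^ i) (0 : Om) = 0 :=
      Finset.prod_eq_zero (Finset.mem_range.2 hp.pos) (by simp)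
    rw [this] at hN
    exact zero_ne_one hN
  set c : ℕ → Om := fun i => ∏ j ∈ Finset.range i, ((τ ^ j) x)⁻¹ with hc
  have hc0 : c 0 = 1 := by simp [hc]
  have hcp : c p = 1 := by
    simp only [hc, Finset.prod_inv_distrib, hN, inv_one]
  have hcM : ∀ i, c i ∈ M := fun i => prod_mem fun j _ => M.inv_mem (hstk j x hx)
  have hcs : ∀ i, τ (c i) = x * c (i + 1) := by
    intro i
    simp only [hc]
    rw [Finset.prod_range_succ', map_prod]
    have h1 : ∀ j, τ (((τ ^ j) x)⁻¹) = ((τ ^ (j + 1)) x)⁻¹ := by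
      intro j
      rw [map_inv₀, pow_succ']
      rfl
    simp only [h1]
    have h2 : ((τ ^ 0) x) = x := rfl
    rw [h2, mul_comm x, mul_assoc, inv_mul_cancel₀ hx0, mul_one]
  -- the element
  have hlin : ∃ θ ∈ M, ∑ i ∈ Finset.range p, c i * (τ ^ i) θ ≠ 0 := by
    by_contra hcon
    push Not at hcon
    have hli := linearIndependent_monoidHom M Om
    set f : Fin p → (M →* Om) := fun i =>
      ((((τ ^ (i : ℕ) : GQ) : Om →+* Om).comp (M.val : M →+* Om) : M →+* Om) : M →* Om) with hf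
    have hfapp : ∀ (i : Fin p) (y : M), f i y = (τ ^ (i : ℕ)) (y : Om) := fun i y => rfl
    have hinj : Function.Injective f := by
      intro i j hij
      by_contra hne
      have hne' : (i : ℕ) ≠ j := fun h => hne (Fin.ext h)
      rcases lt_or_gt_of_ne hne' with hlt | hlt
      · exact U5_distinct hp D M h τ hτ hτM hlt j.2 (fun y hy => by
          have := DFunLike.congr_fun hij ⟨y, hy⟩
          rw [hfapp, hfapp] at this
          exact this)
      · exact U5_distinct hp D M h τ hτ hτM hlt i.2 (fun y hy => by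
          have := DFunLike.congr_fun hij ⟨y, hy⟩
          rw [hfapp, hfapp] at this
          exact this.symm)
    have h1 := hli.comp f hinj
    rw [Fintype.linearIndependent_iff] at h1
    have h2 := h1 (fun i => c i) (by
      funext y
      simp only [Finset.sum_apply, Pi.smul_apply, Function.comp, smul_eq_mul, Pi.zero_apply]
      have h3 := hcon (y : Om) y.2
      rw [Finset.sum_range] at h3
      exact h3) ⟨0, hp.pos⟩
    simp only [hc0] at h2
    exact one_ne_zero h2
  obtain ⟨θ, hθ, hne⟩ := hlin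
  set α : Om := ∑ i ∈ Finset.range p, c i * (τ ^ i) θ with hα
  have hαM : α ∈ M := sum_mem fun i _ => M.mul_mem (hcM i) (hstk i θ hθ)
  have hτα : τ α = x * α := by
    rw [hα, map_sum]
    have h1 : ∀ i, τ (c i * (τ ^ i) θ) = x * (c (i + 1) * (τ ^ (i + 1)) θ) := by
      intro i
      rw [map_mul, hcs, pow_succ' τ i]
      change x * c (i + 1) * τ ((τ ^ i) θ) = x * (c (i + 1) * τ ((τ ^ i) θ))
      ring
    simp only [h1]
    rw [← Finset.mul_sum]
    congr 1
    have h2 := Finset.sum_range_succ (fun i => c i * (τ ^ i) θ) p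
    have h3 := Finset.sum_range_succ' (fun i => c i * (τ ^ i) θ) p
    rw [h2] at h3
    have h4 : c p * (τ ^ p) θ = c 0 * (τ ^ 0) θ := by
      rw [hcp, hc0, hfix θ hθ]
      rfl
    rw [h4] at h3
    exact (add_right_cancel h3).symm
  -- an integral multiple
  have halg : IsAlgebraic ℤ α := by
    have : IsAlgebraic ℚ α := Algebra.IsAlgebraic.isAlgebraic α
    exact (IsFractionRing.isAlgebraic_iff ℤ ℚ Om).2 this
  obtain ⟨n, hn0, hn⟩ := halg.exists_integral_multiple
  refine ⟨U5_mk M (n • α) (M.toSubfield.zsmul_mem hαM n) hn, ?_, ?_⟩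
  · intro h0
    have h1 : (U5_mk M (n • α) (M.toSubfield.zsmul_mem hαM n) hn).val = (0 : ZF M).val := by rw [h0]
    rw [U5_mk_val] at h1
    have h2 : (0 : ZF M).val = 0 := rfl
    rw [h2, zsmul_eq_mul, mul_eq_zero] at h1
    rcases h1 with h1 | h1
    · exact hn0 (by exact_mod_cast h1)
    · exact hne h1
  · rw [U5_mk_val, map_zsmul, hτα, mul_smul_comm]

theorem norm_mem {p : ℕ} (hp : p.Prime) (D M : IntermediateField ℚ Om) [FiniteDimensional ℚ D]
    [FiniteDimensional ℚ M] (h : CycDM p D M) (τ : GQ) (hτ : τ ∈ D.fixingSubgroup)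
    (hτM : τ ∉ M.fixingSubgroup) (α : ZF M) :
    (∀ i : ℕ, (τ ^ (i + p)) α.val = (τ ^ i) α.val) ∧
    ∃ a : ZF D, a.val = ∏ i ∈ Finset.range p, (τ ^ i) α.val := by
  classical
  have hst : ∀ y ∈ M, τ y ∈ M := h.stable τ hτ
  have hstk : ∀ (k : ℕ), ∀ y ∈ M, (τ ^ k) y ∈ M := by
    intro k
    induction k with
    | zero => intro y hy; exact hy
    | succ k ih =>
      intro y hy
      rw [pow_succ]
      exact ih _ (hst y hy)
  have hfix : ∀ y ∈ M, (τ ^ p) y = y := (U5_gal hp D M h).1 τ hτ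
  have hper : ∀ i : ℕ, (τ ^ (i + p)) α.val = (τ ^ i) α.val := by
    intro i
    rw [pow_add]
    change (τ ^ i) ((τ ^ p) α.val) = _
    rw [hfix _ (ZF_val_mem α)]
  refine ⟨hper, ?_⟩
  set N : Om := ∏ i ∈ Finset.range p, (τ ^ i) α.val with hN
  have hNM : N ∈ M := prod_mem fun i _ => hstk i _ (ZF_val_mem α)
  have hτN : τ N = N := by
    rw [hN, map_prod]
    have h1 : ∀ i, τ ((τ ^ i) α.val) = (τ ^ (i + 1)) α.val := by
      intro i
      rw [pow_succ']
      rfl
    simp only [h1]
    have h2 := Finset.prod_range_succ (fun i => (τ ^ i) α.val) p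
    have h3 := Finset.prod_range_succ' (fun i => (τ ^ i) α.val) p
    rw [h2] at h3
    have h4 : (τ ^ p) α.val = (τ ^ 0) α.val := by
      have := hper 0
      rwa [zero_add] at this
    rw [h4] at h3
    by_cases h0 : (τ ^ 0) α.val = 0
    · have hz : α.val = 0 := h0
      have h5 : ∀ k : ℕ, (τ ^ k) α.val = 0 := fun k => by rw [hz, map_zero]
      rw [Finset.prod_eq_zero (Finset.mem_range.2 hp.pos) (h5 _),
        Finset.prod_eq_zero (Finset.mem_range.2 hp.pos) (h5 _)]
    · exact (mul_right_cancel₀ h0 h3).symm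
  have hτkN : ∀ k : ℕ, (τ ^ k) N = N := by
    intro k
    induction k with
    | zero => rfl
    | succ k ih =>
      rw [pow_succ]
      change (τ ^ k) (τ N) = N
      rw [hτN, ih]
  have hND : N ∈ D := by
    rw [← InfiniteGalois.fixedField_fixingSubgroup D, IntermediateField.mem_fixedField_iff]
    intro t ht
    obtain ⟨k, hk⟩ := (U5_gal hp D M h).2 τ hτ hτM t ht
    rw [hk N hNM, hτkN]
  have hNi : IsIntegral ℤ N := by
    apply IsIntegral.prod
    intro i _
    exact map_isIntegral_int ((τ ^ i : GQ) : Om →+* Om) (ZF_val_isIntegral α)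
  exact ⟨U5_mk D N hND hNi, rfl⟩

end OzakiFree
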