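import Pool.Agent.Lib.MP_6e8030_nt.UBase
import Pool.Agent.Lib.MP_6e8030_nt.GOver
import Pool.Agent.Lib.MP_6e8030_nt.U1
import Pool.Agent.Lib.MP_6e8030_nt.U2a
import Pool.Agent.Lib.MP_6e8030_nt.U2b
import Pool.Agent.Lib.MP_6e8030_nt.U3
import Pool.Agent.Lib.MP_6e8030_nt.U4
import Pool.Agent.Lib.MP_6e8030_nt.U5

open IntermediateField
open scoped ComplexConjugate

noncomputable section

namespace OzakiFree

/-- the value as a ring homomorphism -/
def U6a_val (M : IntermediateField ℚ Om) : ZF M →+* Om := (algebraMap ZO Om).comp (iota M)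

theorem U6a_val_apply (M : IntermediateField ℚ Om) (z : ZF M) : U6a_val M z = z.val := rfl

/-- the inclusion of the rings of integers -/
def U6a_incl {D M : IntermediateField ℚ Om} (h : D ≤ M) : ZF D →+* ZF M where
  toFun z := ⟨(⟨z.val, h (ZF_val_mem z)⟩ : FL M), by
    have h1 : IsIntegral ℤ z.val := ZF_val_isIntegral z
    refine (isIntegral_algHom_iff (FLhom M).toIntAlgHom (FLhom M).injective).1 ?_
    exact h1⟩
  map_one' := rfl
  map_mul' := fun _ _ => rfl
  map_zero' := rfl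
  map_add' := fun _ _ => rfl

theorem U6a_incl_val {D M : IntermediateField ℚ Om} (h : D ≤ M) (z : ZF D) :
    (U6a_incl h z).val = z.val := rfl

theorem U6a_actU_val (M : IntermediateField ℚ Om) (τ : GQ) (h : ∀ x ∈ M, τ x ∈ M) (u : UA M) :
    (((actU M τ h u).toMul : (ZF M)ˣ) : ZF M).val = τ ((u.toMul : (ZF M)ˣ) : ZF M).val := rfl

theorem U6a_pow_val (M : IntermediateField ℚ Om) (τ : GQ) (h : ∀ x ∈ M, τ x ∈ M) (i : ℕ)
    (u : UA M) :
    (((((actU M τ h) ^ i) u).toMul : (ZF M)ˣ) : ZF M).val =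
      (τ ^ i) ((u.toMul : (ZF M)ˣ) : ZF M).val := by
  induction i with
  | zero => rfl
  | succ i ih =>
    rw [pow_succ', pow_succ']
    exact congrArg τ ih

theorem U6a_norm_val (M : IntermediateField ℚ Om) (τ : GQ) (h : ∀ x ∈ M, τ x ∈ M) (p : ℕ)
    (u : UA M) :
    ((((∑ i ∈ Finset.range p, (actU M τ h) ^ i : AddMonoid.End (UA M)) u).toMul : (ZF M)ˣ) :
      ZF M).val = ∏ i ∈ Finset.range p, (τ ^ i) ((u.toMul : (ZF M)ˣ) : ZF M).val := by
  induction p with
  | zero => rfl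
  | succ p ih =>
    rw [Finset.sum_range_succ, Finset.prod_range_succ, ← ih, ← U6a_pow_val M τ h p u]
    rfl

theorem U6a_units_ext {M : IntermediateField ℚ Om} {u v : UA M}
    (h : ((u.toMul : (ZF M)ˣ) : ZF M).val = ((v.toMul : (ZF M)ˣ) : ZF M).val) : u = v :=
  Additive.toMul.injective (Units.ext (ZF_val_inj _ _ h))

/-- `τ^i α` and `α` are associated -/
theorem U6a_pow_assoc {M : IntermediateField ℚ Om} (τ : GQ) (hst : ∀ x ∈ M, τ x ∈ M) (α : ZF M)
    (x : (ZF M)ˣ) (hx : τ α.val = (x : ZF M).val * α.val) (i : ℕ) :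
    ∃ y : (ZF M)ˣ, (τ ^ i) α.val = (y : ZF M).val * α.val := by
  induction i with
  | zero => exact ⟨1, (one_mul _).symm⟩
  | succ i ih =>
    obtain ⟨y, hy⟩ := ih
    refine ⟨Units.map (actZ M τ hst : ZF M →* ZF M) y * x, ?_⟩
    rw [pow_succ', AlgEquiv.mul_apply, hy, map_mul, hx, ← mul_assoc]
    rfl

/-- the norm of `α` and `α ^ p` are associated -/
theorem U6a_norm_assoc {p : ℕ} {D M : IntermediateField ℚ Om} (hDM : D ≤ M) (τ : GQ)
    (hst : ∀ x ∈ M, τ x ∈ M) (α : ZF M) (x : (ZF M)ˣ) (a : ZF D)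
    (hx : τ α.val = (x : ZF M).val * α.val)
    (ha : a.val = ∏ i ∈ Finset.range p, (τ ^ i) α.val) :
    Associated (U6a_incl hDM a) (α ^ p) := by
  choose y hy using U6a_pow_assoc τ hst α x hx
  have h1 : U6a_incl hDM a = α ^ p * ((∏ i ∈ Finset.range p, y i : (ZF M)ˣ) : ZF M) := by
    apply ZF_val_inj
    rw [U6a_incl_val, ha]
    have h2 : (α ^ p * ((∏ i ∈ Finset.range p, y i : (ZF M)ˣ) : ZF M)).val =
        α.val ^ p * ∏ i ∈ Finset.range p, ((y i : (ZF M)ˣ) : ZF M).val := by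
      have h3 := (U6a_val M).map_mul (α ^ p) ((∏ i ∈ Finset.range p, y i : (ZF M)ˣ) : ZF M)
      rw [map_pow, Units.coe_prod, map_prod] at h3
      rw [Units.coe_prod]
      exact h3
    rw [h2, Finset.prod_congr rfl (fun i _ => hy i), Finset.prod_mul_distrib, Finset.prod_const,
      Finset.card_range, mul_comm]
  rw [h1]
  exact (associated_mul_unit_right _ _ (Units.isUnit _)).symm

theorem U6a_prime {M : IntermediateField ℚ Om} [FiniteDimensional ℚ M] (P : Ideal (ZF M))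
    (hP : P.IsMaximal) : Prime P :=
  Ideal.prime_of_isPrime (Ring.ne_bot_of_isMaximal_of_not_isField hP
    (NumberField.RingOfIntegers.not_isField (FL M))) hP.isPrime

theorem U6a_fin {M : IntermediateField ℚ Om} [FiniteDimensional ℚ M] (P : Ideal (ZF M))
    (hP : P.IsMaximal) (α : ZF M) (hα : α ≠ 0) : FiniteMultiplicity P (Ideal.span {α}) := by
  refine FiniteMultiplicity.of_prime_left (U6a_prime P hP) ?_
  intro h
  exact hα (Ideal.span_singleton_eq_bot.1 h)

theorem U6a_mult_pow {M : IntermediateField ℚ Om} [FiniteDimensional ℚ M] (P : Ideal (ZF M))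
    (hP : P.IsMaximal) (α : ZF M) (hα : α ≠ 0) (n : ℕ) :
    multiplicity P (Ideal.span {α ^ n}) = n * multiplicity P (Ideal.span {α}) := by
  rw [← Ideal.span_singleton_pow]
  exact (U6a_fin P hP α hα).multiplicity_pow (U6a_prime P hP)

theorem U6a_mult_mul {M : IntermediateField ℚ Om} [FiniteDimensional ℚ M] (P : Ideal (ZF M))
    (hP : P.IsMaximal) (α β : ZF M) (hα : α ≠ 0) (hβ : β ≠ 0) :
    multiplicity P (Ideal.span {α * β}) =
      multiplicity P (Ideal.span {α}) + multiplicity P (Ideal.span {β}) := by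
  have h1 := U6a_fin P hP (α * β) (mul_ne_zero hα hβ)
  rw [← Ideal.span_singleton_mul_span_singleton] at h1 ⊢
  exact multiplicity_mul (U6a_prime P hP) h1

theorem U6a_norm_ne {p : ℕ} {D M : IntermediateField ℚ Om} (τ : GQ) (α : ZF M) (a : ZF D)
    (hα : α ≠ 0) (ha : a.val = ∏ i ∈ Finset.range p, (τ ^ i) α.val) : a ≠ 0 := by
  rintro rfl
  have h1 : (0 : Om) = ∏ i ∈ Finset.range p, (τ ^ i) α.val := ha
  obtain ⟨i, -, hi⟩ := Finset.prod_eq_zero_iff.1 h1.symm
  have h2 : α.val = 0 := (map_eq_zero_iff (τ ^ i) (τ ^ i).injective).1 hi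
  exact hα (ZF_val_inj α 0 h2)

/-- outside `B₀` the multiplicities of the norm are divisible by `p` -/
theorem U6a_dvd {p : ℕ} (hp : p.Prime) (D M : IntermediateField ℚ Om) [FiniteDimensional ℚ D]
    [FiniteDimensional ℚ M] (h : CycDM p D M) (B₀ : Ideal ZO)
    (hram : OneRam D M B₀) (τ : GQ) (hst : ∀ x ∈ M, τ x ∈ M) (α : ZF M) (x : (ZF M)ˣ) (a : ZF D)
    (hα : α ≠ 0) (hx : τ α.val = (x : ZF M).val * α.val)
    (ha : a.val = ∏ i ∈ Finset.range p, (τ ^ i) α.val)
    (q : Ideal (ZF D)) (hq : q.IsMaximal) (hq0 : q ≠ B₀.comap (iota D)) :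
    p ∣ multiplicity q (Ideal.span {a}) := by
  obtain ⟨B, hB, hBq⟩ := exists_over D q hq
  obtain ⟨e, -, he1, hmul⟩ := mult_ram hp D M h B hB
  have he : e = 1 := by
    apply he1
    intro t ht htD
    by_contra htM
    exact hq0 (hBq ▸ hram B hB t ht htD htM)
  have h1 := hmul a (U6a_incl h.le a) (U6a_norm_ne τ α a hα ha) rfl
  rw [he, one_mul, hBq, Ideal.span_singleton_eq_span_singleton.2
    (U6a_norm_assoc h.le τ hst α x a hx ha), U6a_mult_pow _ (comap_max M B hB) α hα] at h1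
  exact ⟨_, h1.symm⟩

/-- if all multiplicities of the norm are divisible by `p`, then `x = τ ε / ε` -/
theorem U6a_triv {p : ℕ} (hp : p.Prime) (D M : IntermediateField ℚ Om) [FiniteDimensional ℚ D]
    [FiniteDimensional ℚ M] (h : CycDM p D M)
    (hcl : ¬ p ∣ NumberField.classNumber (FL D)) (B₀ : Ideal ZO)
    (hram : OneRam D M B₀) (τ : GQ) (hτ : τ ∈ D.fixingSubgroup) (α : ZF M) (x : (ZF M)ˣ)
    (a : ZF D) (hα : α ≠ 0) (hx : τ α.val = (x : ZF M).val * α.val)
    (ha : a.val = ∏ i ∈ Finset.range p, (τ ^ i) α.val)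
    (hdvd : p ∣ multiplicity (B₀.comap (iota D)) (Ideal.span {a})) :
    Additive.ofMul x ∈ AddMonoidHom.range (actU M τ (h.stable τ hτ) - 1) := by
  have hst := h.stable τ hτ
  have hall : ∀ q : Ideal (ZF D), q.IsMaximal → p ∣ multiplicity q (Ideal.span {a}) := by
    intro q hq
    by_cases hq0 : q = B₀.comap (iota D)
    · rw [hq0]; exact hdvd
    · exact U6a_dvd hp D M h B₀ hram τ hst α x a hα hx ha q hq hq0
  obtain ⟨β, η, hβ⟩ := exists_pow_unit hp D hcl a (U6a_norm_ne τ α a hα ha) hall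
  have h1 : Associated ((U6a_incl h.le β) ^ p) (α ^ p) := by
    have h2 := U6a_norm_assoc h.le τ hst α x a hx ha
    rw [hβ, map_mul, map_pow] at h2
    refine Associated.trans ?_ h2
    exact (associated_mul_unit_right _ _ ((Units.isUnit η).map (U6a_incl h.le)))
  have : IsIntegrallyClosed (ZF M) :=
    inferInstanceAs (IsIntegrallyClosed (NumberField.RingOfIntegers (FL M)))
  have h3 : U6a_incl h.le β ∣ α := (IsIntegrallyClosed.pow_dvd_pow_iff hp.ne_zero).1 h1.dvd
  have h4 : α ∣ U6a_incl h.le β := (IsIntegrallyClosed.pow_dvd_pow_iff hp.ne_zero).1 h1.symm.dvd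
  obtain ⟨ε, hε⟩ := associated_of_dvd_dvd h3 h4
  refine ⟨Additive.ofMul ε, ?_⟩
  have h5 : actU M τ hst (Additive.ofMul ε) = Additive.ofMul x + Additive.ofMul ε := by
    apply U6a_units_ext
    show τ (ε : ZF M).val = (x : ZF M).val * (ε : ZF M).val
    have h6 : α.val = β.val * (ε : ZF M).val := by rw [← hε]; rfl
    have h7 : β.val ≠ 0 := by
      intro h8
      rw [h8, zero_mul] at h6
      exact hα (ZF_val_inj α 0 h6)
    have h8 : τ β.val = β.val := (IntermediateField.mem_fixingSubgroup_iff D τ).1 hτ _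
      (ZF_val_mem β)
    rw [h6, map_mul, h8] at hx
    apply mul_left_cancel₀ h7
    rw [hx]; ring
  show actU M τ hst (Additive.ofMul ε) - Additive.ofMul ε = Additive.ofMul x
  rw [h5, add_sub_cancel_right]

theorem unit_norm {p : ℕ} (hp : p.Prime) (D M : IntermediateField ℚ Om) [FiniteDimensional ℚ D]
    [FiniteDimensional ℚ M] (h : CycDM p D M) (hM : TotReal M)
    (hcl : ¬ p ∣ NumberField.classNumber (FL D)) (B₀ : Ideal ZO) (hB₀ : B₀.IsMaximal)
    (hram : OneRam D M B₀) (τ : GQ) (hτ : τ ∈ D.fixingSubgroup) (hτM : τ ∉ M.fixingSubgroup) :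
    (∀ u : (ZF D)ˣ, ∃ ε : (ZF M)ˣ, (u : ZF D).val = ∏ i ∈ Finset.range p, (τ ^ i) (ε : ZF M).val) ∧
    ∃ (α : ZF M) (x : (ZF M)ˣ) (a : ZF D), α ≠ 0 ∧ τ α.val = (x : ZF M).val * α.val ∧
      a.val = ∏ i ∈ Finset.range p, (τ ^ i) α.val ∧
      ¬ p ∣ multiplicity (B₀.comap (iota D)) (Ideal.span {a}) := by
  have hst := h.stable τ hτ
  have hD : TotReal D := by
    intro φ c hc
    rw [IntermediateField.mem_fixingSubgroup_iff]
    intro y hy
    exact (IntermediateField.mem_fixingSubgroup_iff M c).1 (hM φ c hc) y (h.le hy)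
  have hfin := units_finite M
  have hσ : (actU M τ (h.stable τ hτ)) ^ p = 1 := by
    refine AddMonoidHom.ext fun u => U6a_units_ext ?_
    refine (U6a_pow_val M τ hst p u).trans ?_
    have h1 := (norm_mem hp D M h τ hτ hτM ((u.toMul : (ZF M)ˣ) : ZF M)).1 0
    rw [zero_add, pow_zero] at h1
    exact h1
  have hrank : Module.finrank ℤ (UA M) + 1 =
      p * (Module.finrank ℤ (AddMonoidHom.ker (actU M τ (h.stable τ hτ) - 1)) + 1) := by
    rw [rank_real M hM, rank_fixed hp D M h τ hτ hτM, rank_real D hD]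
    have h1 := relfinrank_mul_relfinrank (bot_le : (⊥ : IntermediateField ℚ Om) ≤ D) h.le
    rw [relfinrank_bot_left, relfinrank_bot_left, h.deg] at h1
    rw [← h1, mul_comm]
  obtain ⟨hr0, hr⟩ := herbrand hp (actU M τ (h.stable τ hτ)) hσ hrank
  -- Hilbert 90
  have hx : ∀ x : (ZF M)ˣ, Additive.ofMul x ∈ AddMonoidHom.ker
      (∑ i ∈ Finset.range p, (actU M τ (h.stable τ hτ)) ^ i) →
      ∃ (α : ZF M) (a : ZF D), α ≠ 0 ∧ τ α.val = (x : ZF M).val * α.val ∧
        a.val = ∏ i ∈ Finset.range p, (τ ^ i) α.val := by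
    intro x hxN
    have h1 : ∏ i ∈ Finset.range p, (τ ^ i) (x : ZF M).val = 1 := by
      have h2 := U6a_norm_val M τ hst p (Additive.ofMul x)
      have h3 := AddMonoidHom.mem_ker.1 hxN
      exact h2.symm.trans (congrArg (fun w : UA M => ((w.toMul : (ZF M)ˣ) : ZF M).val) h3)
    obtain ⟨α, hα, hα1⟩ := hilbert90 hp D M h τ hτ hτM (x : ZF M).val (ZF_val_mem _) h1
    obtain ⟨-, a, ha⟩ := norm_mem hp D M h τ hτ hτM α
    exact ⟨α, a, hα, hα1, ha⟩
  have h2nd : ∃ (α : ZF M) (x : (ZF M)ˣ) (a : ZF D), α ≠ 0 ∧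
      τ α.val = (x : ZF M).val * α.val ∧
      a.val = ∏ i ∈ Finset.range p, (τ ^ i) α.val ∧
      ¬ p ∣ multiplicity (B₀.comap (iota D)) (Ideal.span {a}) := by
    by_contra hno
    push Not at hno
    have h1 : AddMonoidHom.ker (∑ i ∈ Finset.range p, (actU M τ (h.stable τ hτ)) ^ i) ≤
        AddMonoidHom.range (actU M τ (h.stable τ hτ) - 1) := by
      intro u hu
      obtain ⟨α, a, hα, hα1, ha⟩ := hx u.toMul hu
      exact U6a_triv hp D M h hcl B₀ hram τ hτ α u.toMul a hα hα1 ha (hno α u.toMul a hα hα1 ha)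
    rw [AddSubgroup.relIndex_eq_one.2 h1] at hr
    exact hp.one_lt.ne' (Nat.eq_one_of_mul_eq_one_right hr)
  refine ⟨?_, h2nd⟩
  obtain ⟨α₁, x₁, a₁, hα₁, hx₁, ha₁, hm₁⟩ := h2nd
  have hq0 := comap_max D B₀ hB₀
  have hpf : Fact p.Prime := ⟨hp⟩
  have hj : ∀ x : (ZF M)ˣ, Additive.ofMul x ∈ AddMonoidHom.ker
      (∑ i ∈ Finset.range p, (actU M τ (h.stable τ hτ)) ^ i) →
      ∃ j : Fin p, Additive.ofMul x + (j : ℕ) • Additive.ofMul x₁ ∈
        AddMonoidHom.range (actU M τ (h.stable τ hτ) - 1) := by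
    intro x hxN
    obtain ⟨α, a, hα, hα1, ha⟩ := hx x hxN
    set m := multiplicity (B₀.comap (iota D)) (Ideal.span {a}) with hm
    set m₁ := multiplicity (B₀.comap (iota D)) (Ideal.span {a₁}) with hm₁'
    have hm10 : (m₁ : ZMod p) ≠ 0 := by
      intro h0
      exact hm₁ ((ZMod.natCast_eq_zero_iff _ _).1 h0)
    refine ⟨⟨(-(m : ZMod p) * (m₁ : ZMod p)⁻¹).val, ZMod.val_lt _⟩, ?_⟩
    set j := (-(m : ZMod p) * (m₁ : ZMod p)⁻¹).val with hjdef
    have h1 := U6a_triv hp D M h hcl B₀ hram τ hτ (α * α₁ ^ j) (x * x₁ ^ j) (a * a₁ ^ j)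
      (mul_ne_zero hα (pow_ne_zero _ hα₁)) ?_ ?_ ?_
    · exact h1
    · show τ (α.val * α₁.val ^ j) = ((x : ZF M).val * (x₁ : ZF M).val ^ j) * (α.val * α₁.val ^ j)
      rw [map_mul, map_pow, hα1, hx₁]
      ring
    · show a.val * a₁.val ^ j = ∏ i ∈ Finset.range p, (τ ^ i) (α.val * α₁.val ^ j)
      rw [ha, ha₁, ← Finset.prod_pow, ← Finset.prod_mul_distrib]
      refine Finset.prod_congr rfl fun i _ => ?_
      rw [map_mul, map_pow]
    · rw [U6a_mult_mul _ hq0 _ _ (U6a_norm_ne τ α a hα ha)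
        (pow_ne_zero _ (U6a_norm_ne τ α₁ a₁ hα₁ ha₁)),
        U6a_mult_pow _ hq0 _ (U6a_norm_ne τ α₁ a₁ hα₁ ha₁)]
      rw [← ZMod.natCast_eq_zero_iff]
      push_cast
      rw [hjdef, ZMod.natCast_zmod_val]
      field_simp
      ring
  have hle : (AddMonoidHom.range (actU M τ (h.stable τ hτ) - 1)).relIndex
      (AddMonoidHom.ker (∑ i ∈ Finset.range p, (actU M τ (h.stable τ hτ)) ^ i)) ≤ p := by
    have hj' : ∀ u : AddMonoidHom.ker
        (∑ i ∈ Finset.range p, (actU M τ (h.stable τ hτ)) ^ i),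
        ∃ j : Fin p, (u : UA M) + (j : ℕ) • Additive.ofMul x₁ ∈
          AddMonoidHom.range (actU M τ (h.stable τ hτ) - 1) := fun u => hj u.1.toMul u.2
    choose J hJ using hj'
    have hinj : Function.Injective (fun q : AddMonoidHom.ker
        (∑ i ∈ Finset.range p, (actU M τ (h.stable τ hτ)) ^ i) ⧸
        (AddMonoidHom.range (actU M τ (h.stable τ hτ) - 1)).addSubgroupOf _ => J q.out) := by
      intro q q' hqq
      have h1 := AddSubgroup.sub_mem _ (hJ q'.out) (hJ q.out)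
      simp only at hqq
      rw [hqq, add_sub_add_right_eq_sub] at h1
      rw [← QuotientAddGroup.out_eq' q, ← QuotientAddGroup.out_eq' q', QuotientAddGroup.eq,
        AddSubgroup.mem_addSubgroupOf]
      rw [sub_eq_neg_add] at h1
      exact h1
    have h2 := Nat.card_le_card_of_injective _ hinj
    rw [Nat.card_fin] at h2
    exact h2
  rw [← hr] at hle
  have hr1 : (AddMonoidHom.range (∑ i ∈ Finset.range p, (actU M τ (h.stable τ hτ)) ^ i)).relIndex
      (AddMonoidHom.ker (actU M τ (h.stable τ hτ) - 1)) = 1 := by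
    have h1 := le_of_mul_le_mul_left (hle.trans_eq (mul_one p).symm) hp.pos
    omega
  have hker := AddSubgroup.relIndex_eq_one.1 hr1
  intro u
  have hu : Additive.ofMul (Units.map (U6a_incl h.le : ZF D →* ZF M) u) ∈
      AddMonoidHom.ker (actU M τ (h.stable τ hτ) - 1) := by
    rw [AddMonoidHom.mem_ker]
    show actU M τ (h.stable τ hτ) _ - _ = 0
    rw [sub_eq_zero]
    apply U6a_units_ext
    show τ (u : ZF D).val = (u : ZF D).val
    exact (IntermediateField.mem_fixingSubgroup_iff D τ).1 hτ _ (ZF_val_mem _)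
  obtain ⟨ε, hε⟩ := hker hu
  refine ⟨ε.toMul, ?_⟩
  exact ((U6a_norm_val M τ (h.stable τ hτ) p ε).symm.trans
    (congrArg (fun w : UA M => ((w.toMul : (ZF M)ˣ) : ZF M).val) hε)).symm

end OzakiFree
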