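import Pool.Agent.Lib.MP_6e8030_nt.UBase
import Pool.Agent.Lib.MP_6e8030_nt.U3
import Pool.Agent.Lib.MP_6e8030_nt.U4
import Pool.Agent.Lib.MP_6e8030_nt.U5
import Pool.Agent.Lib.MP_6e8030_nt.U6a

open IntermediateField
open scoped ComplexConjugate

noncomputable section

namespace OzakiFree

/-! ### U6b: the class number of `M` is prime to `p` -/

section Abstract

variable {R : Type*} [CommRing R]

private theorem U6b_mem_iter (τ : R ≃+* R) (I : Ideal R) (n : ℕ) (x : R) :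
    x ∈ (Ideal.map τ)^[n] I ↔ ∃ y ∈ I, τ^[n] y = x := by
  induction n generalizing x with
  | zero => simp
  | succ n ih =>
    rw [Function.iterate_succ_apply', Ideal.mem_map_of_equiv]
    constructor
    · rintro ⟨z, hz, rfl⟩
      obtain ⟨y, hy, rfl⟩ := (ih z).1 hz
      exact ⟨y, hy, Function.iterate_succ_apply' _ _ _⟩
    · rintro ⟨y, hy, rfl⟩
      exact ⟨τ^[n] y, (ih _).2 ⟨y, hy, rfl⟩, (Function.iterate_succ_apply' _ _ _).symm⟩

private theorem U6b_iter_eq (τ : R ≃+* R) {p : ℕ} (hτ : ∀ x, τ^[p] x = x) (I : Ideal R) :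
    (Ideal.map τ)^[p] I = I := by
  ext x
  rw [U6b_mem_iter]
  constructor
  · rintro ⟨y, hy, rfl⟩
    rwa [hτ]
  · intro hx
    exact ⟨x, hx, hτ x⟩

private theorem U6b_map_span (τ : R ≃+* R) (x : R) :
    Ideal.map τ (Ideal.span {x}) = Ideal.span {τ x} := by
  rw [Ideal.map_span, Set.image_singleton]

private theorem U6b_map_mul (τ : R ≃+* R) (I J : Ideal R) :
    Ideal.map τ (I * J) = Ideal.map τ I * Ideal.map τ J := Ideal.map_mul _ _ _

private theorem U6b_map_ne (τ : R ≃+* R) {I : Ideal R} (hI : I ≠ ⊥) : Ideal.map τ I ≠ ⊥ := by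
  intro h
  apply hI
  rw [eq_bot_iff]
  intro x hx
  have h1 : τ x ∈ Ideal.map τ I := Ideal.mem_map_of_mem _ hx
  rw [h, Ideal.mem_bot] at h1
  rw [Ideal.mem_bot]
  exact (map_eq_zero_iff τ τ.injective).1 h1

private theorem U6b_iter_rel (τ : R ≃+* R) {I : Ideal R} {x y : R}
    (h : Ideal.span {x} * Ideal.map τ I = Ideal.span {y} * I) (n : ℕ) :
    Ideal.span {τ^[n] x} * (Ideal.map τ)^[n + 1] I = Ideal.span {τ^[n] y} * (Ideal.map τ)^[n] I := by
  induction n with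
  | zero => simpa using h
  | succ n ih =>
    have := congrArg (Ideal.map τ) ih
    rw [U6b_map_mul, U6b_map_mul, U6b_map_span, U6b_map_span,
      ← Function.iterate_succ_apply' (Ideal.map τ), ← Function.iterate_succ_apply' (Ideal.map τ),
      ← Function.iterate_succ_apply' τ, ← Function.iterate_succ_apply' τ] at this
    exact this

private theorem U6b_prod_rel (τ : R ≃+* R) {I : Ideal R} {x y : R}
    (h : Ideal.span {x} * Ideal.map τ I = Ideal.span {y} * I) (n : ℕ) :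
    Ideal.span {∏ i ∈ Finset.range n, τ^[i] x} * (Ideal.map τ)^[n] I =
      Ideal.span {∏ i ∈ Finset.range n, τ^[i] y} * I := by
  induction n with
  | zero => simp
  | succ n ih =>
    rw [Finset.prod_range_succ, Finset.prod_range_succ, ← Ideal.span_singleton_mul_span_singleton,
      ← Ideal.span_singleton_mul_span_singleton, mul_assoc, U6b_iter_rel τ h n,
      mul_left_comm, ih]
    ring

private theorem U6b_iter_mul (τ : R ≃+* R) (n : ℕ) (x y : R) :
    τ^[n] (x * y) = τ^[n] x * τ^[n] y := by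
  induction n with
  | zero => rfl
  | succ n ih => rw [Function.iterate_succ_apply', ih, map_mul, ← Function.iterate_succ_apply' τ,
      ← Function.iterate_succ_apply' τ]

private theorem U6b_iter_ne (τ : R ≃+* R) (n : ℕ) {x : R} (hx : x ≠ 0) : τ^[n] x ≠ 0 := by
  induction n with
  | zero => exact hx
  | succ n ih =>
    rw [Function.iterate_succ_apply']
    intro h
    exact ih ((map_eq_zero_iff τ τ.injective).1 h)

/-- the shifted product over `0 < i < p` -/
private def U6bA (τ : R ≃+* R) (p : ℕ) (x : R) : R := ∏ i ∈ Finset.range (p - 1), τ^[i + 1] x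

private theorem U6bA_mul (τ : R ≃+* R) {p : ℕ} (hp : 0 < p) (x : R) :
    U6bA τ p x * x = ∏ i ∈ Finset.range p, τ^[i] x := by
  obtain ⟨k, rfl⟩ : ∃ k, p = k + 1 := ⟨p - 1, (Nat.succ_pred_eq_of_pos hp).symm⟩
  rw [Finset.prod_range_succ', U6bA]
  rfl

private theorem U6bA_map (τ : R ≃+* R) {p : ℕ} (hp : 0 < p) (hτ : ∀ x, τ^[p] x = x) (x : R) :
    τ (U6bA τ p x) * τ x = U6bA τ p x * x := by
  obtain ⟨k, rfl⟩ : ∃ k, p = k + 1 := ⟨p - 1, (Nat.succ_pred_eq_of_pos hp).symm⟩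
  rw [U6bA, Nat.add_sub_cancel, map_prod]
  have h1 : ∀ i ∈ Finset.range k, τ (τ^[i + 1] x) = τ^[i + 1 + 1] x := fun i _ =>
    (Function.iterate_succ_apply' _ _ _).symm
  rw [Finset.prod_congr rfl h1]
  have h2 := Finset.prod_range_succ' (fun i => τ^[i + 1] x) k
  have h3 := Finset.prod_range_succ (fun i => τ^[i + 1] x) k
  have h4 : τ^[0 + 1] x = τ x := rfl
  simp only [h4, hτ] at h2 h3
  rw [← h2, ← h3]

end Abstract

section Dedekind

variable {R : Type*} [CommRing R] [IsDedekindDomain R]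

/-- the action of a ring automorphism on the class group -/
private theorem U6b_exists_act (τ : R ≃+* R) :
    ∃ T : ClassGroup R →* ClassGroup R, ∀ (I : Ideal R) (hI : I ≠ ⊥),
      T (ClassGroup.mk0 ⟨I, mem_nonZeroDivisors_iff_ne_zero.2 hI⟩) =
        ClassGroup.mk0 ⟨Ideal.map τ I, mem_nonZeroDivisors_iff_ne_zero.2 (U6b_map_ne τ hI)⟩ := by
  classical
  let J : ClassGroup R → nonZeroDivisors (Ideal R) := fun c => (ClassGroup.mk0_surjective c).choose
  have hJ : ∀ c, ClassGroup.mk0 (J c) = c := fun c => (ClassGroup.mk0_surjective c).choose_spec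
  have hJ0 : ∀ c, (J c : Ideal R) ≠ ⊥ := fun c => nonZeroDivisors.coe_ne_zero _
  let T : ClassGroup R → ClassGroup R := fun c =>
    ClassGroup.mk0 ⟨Ideal.map τ (J c : Ideal R),
      mem_nonZeroDivisors_iff_ne_zero.2 (U6b_map_ne τ (hJ0 c))⟩
  have key : ∀ (I : Ideal R) (hI : I ≠ ⊥),
      T (ClassGroup.mk0 ⟨I, mem_nonZeroDivisors_iff_ne_zero.2 hI⟩) =
        ClassGroup.mk0 ⟨Ideal.map τ I, mem_nonZeroDivisors_iff_ne_zero.2 (U6b_map_ne τ hI)⟩ := by
    intro I hI
    have h1 := hJ (ClassGroup.mk0 ⟨I, mem_nonZeroDivisors_iff_ne_zero.2 hI⟩)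
    rw [ClassGroup.mk0_eq_mk0_iff] at h1
    obtain ⟨x, y, hx, hy, h⟩ := h1
    refine ClassGroup.mk0_eq_mk0_iff.2 ⟨τ x, τ y, ?_, ?_, ?_⟩
    · exact fun h => hx ((map_eq_zero_iff τ τ.injective).1 h)
    · exact fun h => hy ((map_eq_zero_iff τ τ.injective).1 h)
    · have := congrArg (Ideal.map τ) h
      rw [U6b_map_mul, U6b_map_mul, U6b_map_span, U6b_map_span] at this
      exact this
  refine ⟨MonoidHom.mk' T ?_, key⟩
  intro c d
  have h1 : c * d = ClassGroup.mk0 ⟨(J c : Ideal R) * (J d : Ideal R),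
      mem_nonZeroDivisors_iff_ne_zero.2 (mul_ne_zero (hJ0 c) (hJ0 d))⟩ := by
    have : (⟨(J c : Ideal R) * (J d : Ideal R),
      mem_nonZeroDivisors_iff_ne_zero.2 (mul_ne_zero (hJ0 c) (hJ0 d))⟩ :
        nonZeroDivisors (Ideal R)) = J c * J d := rfl
    rw [this, map_mul, hJ, hJ]
  have h2 : T (c * d) = ClassGroup.mk0 ⟨Ideal.map τ ((J c : Ideal R) * (J d : Ideal R)),
      mem_nonZeroDivisors_iff_ne_zero.2 (U6b_map_ne τ (mul_ne_zero (hJ0 c) (hJ0 d)))⟩ := by
    rw [h1]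
    exact key _ (mul_ne_zero (hJ0 c) (hJ0 d))
  rw [h2]
  show _ = ClassGroup.mk0 _ * ClassGroup.mk0 _
  rw [← map_mul]
  congr 1
  exact Subtype.ext (U6b_map_mul τ _ _)

private theorem U6b_act_iter (τ : R ≃+* R) (T : ClassGroup R →* ClassGroup R)
    (hT : ∀ (I : Ideal R) (hI : I ≠ ⊥),
      T (ClassGroup.mk0 ⟨I, mem_nonZeroDivisors_iff_ne_zero.2 hI⟩) =
        ClassGroup.mk0 ⟨Ideal.map τ I, mem_nonZeroDivisors_iff_ne_zero.2 (U6b_map_ne τ hI)⟩)
    (I : Ideal R) (hI : I ≠ ⊥) (n : ℕ) :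
    ∃ h : (Ideal.map τ)^[n] I ≠ ⊥, T^[n] (ClassGroup.mk0 ⟨I, mem_nonZeroDivisors_iff_ne_zero.2 hI⟩) =
      ClassGroup.mk0 ⟨(Ideal.map τ)^[n] I, mem_nonZeroDivisors_iff_ne_zero.2 h⟩ := by
  induction n with
  | zero => exact ⟨hI, rfl⟩
  | succ n ih =>
    obtain ⟨h, ih⟩ := ih
    refine ⟨?_, ?_⟩
    · rw [Function.iterate_succ_apply']
      exact U6b_map_ne τ h
    · rw [Function.iterate_succ_apply', ih, hT _ h]
      congr 1
      apply Subtype.ext
      show Ideal.map τ ((Ideal.map τ)^[n] I) = (Ideal.map τ)^[n + 1] I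
      rw [Function.iterate_succ_apply']

private theorem U6b_act_pow (τ : R ≃+* R) {p : ℕ} (hτ : ∀ x, τ^[p] x = x)
    (T : ClassGroup R →* ClassGroup R)
    (hT : ∀ (I : Ideal R) (hI : I ≠ ⊥),
      T (ClassGroup.mk0 ⟨I, mem_nonZeroDivisors_iff_ne_zero.2 hI⟩) =
        ClassGroup.mk0 ⟨Ideal.map τ I, mem_nonZeroDivisors_iff_ne_zero.2 (U6b_map_ne τ hI)⟩)
    (c : ClassGroup R) : T^[p] c = c := by
  obtain ⟨⟨I, hI⟩, rfl⟩ := ClassGroup.mk0_surjective c
  have hI0 : I ≠ ⊥ := mem_nonZeroDivisors_iff_ne_zero.1 hI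
  obtain ⟨h, h1⟩ := U6b_act_iter τ T hT I hI0 p
  rw [h1]
  congr 1
  exact Subtype.ext (U6b_iter_eq τ hτ I)

/-- a class of order `p` fixed by the automorphism -/
private theorem U6b_fixed_class {G : Type*} [CommGroup G] [Finite G] {p : ℕ} (hp : p.Prime)
    (T : G →* G) (hT : ∀ c, T^[p] c = c) (hdvd : p ∣ Nat.card G) :
    ∃ c : G, c ≠ 1 ∧ c ^ p = 1 ∧ T c = c := by
  classical
  have : Fact p.Prime := ⟨hp⟩
  let V : Subgroup G := (powMonoidHom p : G →* G).ker
  have hV : ∀ c, c ∈ V ↔ c ^ p = 1 := fun c => by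
    rw [MonoidHom.mem_ker, powMonoidHom_apply]
  have hpV : p ∣ Nat.card V := by
    obtain ⟨c, hc⟩ := exists_prime_orderOf_dvd_card' p hdvd
    have h1 : c ∈ V := (hV c).2 (by rw [← hc]; exact pow_orderOf_eq_one c)
    have h2 : orderOf (⟨c, h1⟩ : V) = p := by
      rw [← hc]
      exact Subgroup.orderOf_mk c h1
    rw [← h2]
    exact orderOf_dvd_natCard _
  let f : Function.End V := fun c => ⟨T c, (hV _).2 (by rw [← map_pow, (hV _).1 c.2, map_one])⟩
  have hf : ∀ (n : ℕ) (c : V), (((f ^ n : Function.End V) c : V) : G) = T^[n] c := by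
    intro n
    induction n with
    | zero => intro c; rfl
    | succ n ih =>
      intro c
      rw [pow_succ']
      show T ((f ^ n : Function.End V) c : V) = _
      rw [ih, Function.iterate_succ_apply']
  have hfp : f ^ p ^ 1 = 1 := by
    rw [pow_one]
    funext c
    apply Subtype.ext
    rw [hf, hT]
    rfl
  have : Fintype V := Fintype.ofFinite V
  have h1 := Equiv.Perm.card_fixedPoints_modEq (p := p) hfp
  rw [← Nat.card_eq_fintype_card] at h1
  have h2 : p ∣ Fintype.card (Function.fixedPoints f) :=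
    (Nat.modEq_zero_iff_dvd.1 (h1.symm.trans (Nat.modEq_zero_iff_dvd.2 hpV)))
  have one_fix : (1 : V) ∈ Function.fixedPoints f := by
    apply Subtype.ext
    show T (1 : G) = 1
    exact map_one T
  have h3 : 1 < Fintype.card (Function.fixedPoints f) := by
    have : 0 < Fintype.card (Function.fixedPoints f) := Fintype.card_pos_iff.2 ⟨⟨1, one_fix⟩⟩
    exact lt_of_lt_of_le hp.one_lt (Nat.le_of_dvd this h2)
  obtain ⟨b, hb⟩ := Fintype.exists_ne_of_one_lt_card h3 ⟨1, one_fix⟩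
  refine ⟨b.1.1, ?_, (hV _).1 b.1.2, congrArg Subtype.val b.2⟩
  intro h
  exact hb (Subtype.ext (Subtype.ext h))

/-- an invariant ideal in a class of order `p` -/
private theorem U6b_inv_ideal [Fintype (ClassGroup R)] {p : ℕ} (hp : p.Prime) (τ : R ≃+* R)
    (hτ : ∀ x, τ^[p] x = x) (hdvd : p ∣ Fintype.card (ClassGroup R))
    (hN : ∀ x y : R, x ≠ 0 → y ≠ 0 →
      Associated (∏ i ∈ Finset.range p, τ^[i] x) (∏ i ∈ Finset.range p, τ^[i] y) →
      ∃ ε : Rˣ, ∏ i ∈ Finset.range p, τ^[i] x = ∏ i ∈ Finset.range p, τ^[i] (y * ε))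
    (h90 : ∀ x y : R, x ≠ 0 → y ≠ 0 →
      ∏ i ∈ Finset.range p, τ^[i] x = ∏ i ∈ Finset.range p, τ^[i] y →
      ∃ α : R, α ≠ 0 ∧ x * τ α = y * α) :
    ∃ J : Ideal R, J ≠ ⊥ ∧ ¬ J.IsPrincipal ∧ (J ^ p).IsPrincipal ∧ Ideal.map τ J = J := by
  obtain ⟨T, hT⟩ := U6b_exists_act τ
  rw [← Nat.card_eq_fintype_card] at hdvd
  obtain ⟨c, hc1, hcp, hcT⟩ := U6b_fixed_class hp T (U6b_act_pow τ hτ T hT) hdvd
  obtain ⟨⟨I, hI⟩, rfl⟩ := ClassGroup.mk0_surjective c
  have hI0 : I ≠ ⊥ := mem_nonZeroDivisors_iff_ne_zero.1 hI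
  rw [hT I hI0, ClassGroup.mk0_eq_mk0_iff] at hcT
  obtain ⟨x, y, hx, hy, hxy⟩ := hcT
  simp only at hxy
  have h1 := U6b_prod_rel τ hxy p
  rw [U6b_iter_eq τ hτ] at h1
  have h2 := mul_right_cancel₀ (b := I) hI0 h1
  rw [Ideal.span_singleton_eq_span_singleton] at h2
  obtain ⟨ε, hε⟩ := hN x y hx hy h2
  have hyε : y * ε ≠ 0 := mul_ne_zero hy ε.ne_zero
  obtain ⟨α, hα0, hα⟩ := h90 x (y * ε) hx hyε hε
  set A := U6bA τ p α with hA
  have hA0 : A ≠ 0 := by
    intro h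
    have := U6bA_mul τ hp.pos α
    rw [← hA, h, zero_mul] at this
    rw [eq_comm, Finset.prod_eq_zero_iff] at this
    obtain ⟨i, -, hi⟩ := this
    exact U6b_iter_ne τ i hα0 hi
  have hspan : Ideal.span {y * (ε : R)} = Ideal.span {y} := by
    rw [Ideal.span_singleton_mul_right_unit ε.isUnit]
  have hJ0 : Ideal.span {A} * I ≠ ⊥ := mul_ne_zero (by
    rw [Ne, Ideal.zero_eq_bot, Ideal.span_singleton_eq_bot]; exact hA0) hI0
  have hcls : ClassGroup.mk0 ⟨Ideal.span {A} * I, mem_nonZeroDivisors_iff_ne_zero.2 hJ0⟩ =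
      ClassGroup.mk0 ⟨I, hI⟩ := by
    rw [ClassGroup.mk0_eq_mk0_iff]
    refine ⟨1, A, one_ne_zero, hA0, ?_⟩
    simp
  refine ⟨Ideal.span {A} * I, hJ0, ?_, ?_, ?_⟩
  · intro h
    rw [← ClassGroup.mk0_eq_one_iff (mem_nonZeroDivisors_iff_ne_zero.2 hJ0), hcls] at h
    exact hc1 h
  · rw [← ClassGroup.mk0_eq_one_iff (mem_nonZeroDivisors_iff_ne_zero.2 (pow_ne_zero p hJ0))]
    have : (⟨(Ideal.span {A} * I) ^ p, mem_nonZeroDivisors_iff_ne_zero.2 (pow_ne_zero p hJ0)⟩ :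
        nonZeroDivisors (Ideal R)) =
        ⟨Ideal.span {A} * I, mem_nonZeroDivisors_iff_ne_zero.2 hJ0⟩ ^ p := rfl
    rw [this, map_pow, hcls, hcp]
  · rw [U6b_map_mul, U6b_map_span]
    have hτα : τ α ≠ 0 := fun h => hα0 ((map_eq_zero_iff τ τ.injective).1 h)
    have h3 : Ideal.span {x * τ α} ≠ (0 : Ideal R) := by
      rw [Ne, Ideal.zero_eq_bot, Ideal.span_singleton_eq_bot]
      exact mul_ne_zero hx hτα
    apply mul_left_cancel₀ h3
    calc Ideal.span {x * τ α} * (Ideal.span {τ A} * Ideal.map τ I)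
        = Ideal.span {τ A * τ α} * (Ideal.span {x} * Ideal.map τ I) := by
          rw [← Ideal.span_singleton_mul_span_singleton, ← Ideal.span_singleton_mul_span_singleton]
          ring
      _ = Ideal.span {A * α} * (Ideal.span {y * (ε : R)} * I) := by
          rw [U6bA_map τ hp.pos hτ, hxy, hspan]
      _ = Ideal.span {y * (ε : R) * α} * (Ideal.span {A} * I) := by
          rw [← Ideal.span_singleton_mul_span_singleton A α,
            ← Ideal.span_singleton_mul_span_singleton (y * (ε : R)) α]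
          ring
      _ = Ideal.span {x * τ α} * (Ideal.span {A} * I) := by rw [hα]

private theorem U6b_mult_mul {q : Ideal R} (hq : Prime q) {a b : Ideal R} (ha : a ≠ ⊥)
    (hb : b ≠ ⊥) : multiplicity q (a * b) = multiplicity q a + multiplicity q b := by
  refine multiplicity_mul hq (FiniteMultiplicity.of_prime_left hq ?_)
  exact mul_ne_zero ha hb

private theorem U6b_mult_pow {q : Ideal R} (hq : Prime q) {a : Ideal R} (ha : a ≠ ⊥) (n : ℕ) :
    multiplicity q (a ^ n) = n * multiplicity q a :=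
  (FiniteMultiplicity.of_prime_left hq ha).multiplicity_pow hq

private theorem U6b_pow_inj {n : ℕ} (hn : n ≠ 0) {a b : Ideal R} (h : a ^ n = b ^ n) : a = b := by
  have h1 : a ∣ b := (UniqueFactorizationMonoid.pow_dvd_pow_iff_dvd hn).1 h.dvd
  have h2 : b ∣ a := (UniqueFactorizationMonoid.pow_dvd_pow_iff_dvd hn).1 h.symm.dvd
  exact le_antisymm (Ideal.dvd_iff_le.1 h2) (Ideal.dvd_iff_le.1 h1)

omit [IsDedekindDomain R] in
private theorem U6b_span_ne {x : R} (hx : x ≠ 0) : Ideal.span {x} ≠ (⊥ : Ideal R) := by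
  rw [Ne, Ideal.span_singleton_eq_bot]; exact hx

omit [IsDedekindDomain R] in
/-- the norm of an element whose conjugates are associated -/
private theorem U6b_norm_assoc (τ : R ≃+* R) {γ : R} (h : Ideal.span {τ γ} = Ideal.span {γ})
    (n : ℕ) : Ideal.span {∏ i ∈ Finset.range n, τ^[i] γ} = (Ideal.span {γ}) ^ n := by
  have h1 : ∀ i, Ideal.span {τ^[i] γ} = Ideal.span {γ} := by
    intro i
    induction i with
    | zero => rfl
    | succ i ih =>
      rw [Function.iterate_succ_apply', ← U6b_map_span, ih, U6b_map_span, h]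
  induction n with
  | zero => simp
  | succ n ih =>
    rw [Finset.prod_range_succ, ← Ideal.span_singleton_mul_span_singleton, ih, h1, pow_succ]

/-- the abstract form of the theorem -/
private theorem U6b_abstract {S : Type*} [CommRing S] [IsDedekindDomain S]
    [Fintype (ClassGroup R)] {p : ℕ} (hp : p.Prime) (τ : R ≃+* R)
    (hτ : ∀ x, τ^[p] x = x) (j : S →+* R) (hj : Function.Injective j) (q₀ : Ideal S)
    (H1 : ∀ q : Ideal S, q.IsMaximal → Prime q ∧ ∃ (P : Ideal R) (e : ℕ), Prime P ∧ e ∣ p ∧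
      (q ≠ q₀ → e = 1) ∧ ∀ b : S, b ≠ 0 →
        multiplicity P (Ideal.span {j b}) = e * multiplicity q (Ideal.span {b}))
    (H2 : ∀ a : S, a ≠ 0 → (∀ q : Ideal S, q.IsMaximal → p ∣ multiplicity q (Ideal.span {a})) →
      ∃ (β : S) (η : Sˣ), a = β ^ p * η)
    (H3 : ∀ α : R, ∃ a : S, j a = ∏ i ∈ Finset.range p, τ^[i] α)
    (H4 : ∀ u : Sˣ, ∃ ε : Rˣ, j u = ∏ i ∈ Finset.range p, τ^[i] (ε : R))
    (H5 : ∃ (α : R) (x : Rˣ) (a : S), α ≠ 0 ∧ τ α = x * α ∧
      j a = ∏ i ∈ Finset.range p, τ^[i] α ∧ ¬ p ∣ multiplicity q₀ (Ideal.span {a}))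
    (H6 : ∀ x y : R, x ≠ 0 → y ≠ 0 →
      ∏ i ∈ Finset.range p, τ^[i] x = ∏ i ∈ Finset.range p, τ^[i] y →
      ∃ α : R, α ≠ 0 ∧ x * τ α = y * α)
    (H7 : ∀ (a b : S) (u : Rˣ), b ≠ 0 → j a = j b * u → ∃ v : Sˣ, (u : R) = j v) :
    ¬ p ∣ Fintype.card (ClassGroup R) := by
  intro hdvd
  have hj0 : ∀ {b : S}, b ≠ 0 → j b ≠ 0 := fun hb h => hb ((map_eq_zero_iff j hj).1 h)
  have hnorm0 : ∀ {x : R}, x ≠ 0 → ∏ i ∈ Finset.range p, τ^[i] x ≠ 0 := by
    intro x hx h
    rw [Finset.prod_eq_zero_iff] at h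
    obtain ⟨i, -, hi⟩ := h
    exact U6b_iter_ne τ i hx hi
  have hN : ∀ x y : R, x ≠ 0 → y ≠ 0 →
      Associated (∏ i ∈ Finset.range p, τ^[i] x) (∏ i ∈ Finset.range p, τ^[i] y) →
      ∃ ε : Rˣ, ∏ i ∈ Finset.range p, τ^[i] x = ∏ i ∈ Finset.range p, τ^[i] (y * ε) := by
    intro x y hx hy h
    obtain ⟨u, hu⟩ := h.symm
    obtain ⟨a, ha⟩ := H3 x
    obtain ⟨b, hb⟩ := H3 y
    have hb0 : b ≠ 0 := by
      rintro rfl
      rw [map_zero] at hb
      exact hnorm0 hy hb.symm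
    obtain ⟨v, hv⟩ := H7 a b u hb0 (by rw [ha, hb, hu])
    obtain ⟨ε, hε⟩ := H4 v
    refine ⟨ε, ?_⟩
    rw [Finset.prod_congr rfl (fun i _ => U6b_iter_mul τ i y ε), Finset.prod_mul_distrib, ← hε,
      ← hv, hu]
  obtain ⟨J, hJ0, hJ1, hJp, hJτ⟩ := U6b_inv_ideal hp τ hτ hdvd hN H6
  apply hJ1
  obtain ⟨⟨γ, hγ⟩⟩ := hJp
  rw [Ideal.submodule_span_eq] at hγ
  have hγ0 : γ ≠ 0 := by
    rintro rfl
    rw [Ideal.span_singleton_eq_bot.2 rfl] at hγ
    exact pow_ne_zero p hJ0 hγ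
  have hτγ : Ideal.span {τ γ} = Ideal.span {γ} := by
    rw [← U6b_map_span, ← hγ, Ideal.map_pow, hJτ]
  obtain ⟨a, ha⟩ := H3 γ
  have ha0 : a ≠ 0 := by
    rintro rfl
    rw [map_zero] at ha
    exact hnorm0 hγ0 ha.symm
  have haJ : Ideal.span {j a} = (J ^ p) ^ p := by
    rw [ha, U6b_norm_assoc τ hτγ, hγ]
  -- `a` is a `p`-th power times a unit
  have hdiv : ∀ q : Ideal S, q.IsMaximal → p ∣ multiplicity q (Ideal.span {a}) := by
    intro q hq
    obtain ⟨-, P, e, hP, he, -, hmul⟩ := H1 q hq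
    have h1 := hmul a ha0
    rw [haJ, U6b_mult_pow hP (pow_ne_zero p hJ0), U6b_mult_pow hP hJ0] at h1
    rcases (Nat.dvd_prime hp).1 he with h | h
    · rw [h, one_mul] at h1
      exact ⟨_, h1.symm⟩
    · rw [h] at h1
      exact ⟨_, (Nat.eq_of_mul_eq_mul_left hp.pos h1).symm⟩
  obtain ⟨β, η, hβ⟩ := H2 a ha0 hdiv
  have hβ0 : β ≠ 0 := by
    rintro rfl
    rw [zero_pow hp.ne_zero, zero_mul] at hβ
    exact ha0 hβ
  have hηu : IsUnit (j η) := η.isUnit.map j
  have hβJ : Ideal.span {j β} = J ^ p := by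
    apply U6b_pow_inj hp.ne_zero
    rw [← haJ, hβ, map_mul, map_pow, Ideal.span_singleton_mul_right_unit hηu,
      Ideal.span_singleton_pow]
  obtain ⟨α, x, a₁, hα0, hα, ha₁, hnd⟩ := H5
  have ha₁0 : a₁ ≠ 0 := by
    rintro rfl
    rw [map_zero] at ha₁
    exact hnorm0 hα0 ha₁.symm
  have hτα : Ideal.span {τ α} = Ideal.span {α} := by
    rw [hα, mul_comm, Ideal.span_singleton_mul_right_unit x.isUnit]
  have haα : Ideal.span {j a₁} = (Ideal.span {α}) ^ p := by
    rw [ha₁, U6b_norm_assoc τ hτα]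
  -- choice of the exponent
  obtain ⟨m, hm⟩ : ∃ m : ℕ, p ∣ multiplicity q₀ (Ideal.span {β}) +
      m * multiplicity q₀ (Ideal.span {a₁}) := by
    have : Fact p.Prime := ⟨hp⟩
    set u := multiplicity q₀ (Ideal.span {β})
    set v := multiplicity q₀ (Ideal.span {a₁})
    have hv : ((v : ℕ) : ZMod p) ≠ 0 := fun h => hnd ((ZMod.natCast_eq_zero_iff _ _).1 h)
    refine ⟨(-(u : ZMod p) / v).val, ?_⟩
    rw [← ZMod.natCast_eq_zero_iff]
    push_cast
    rw [ZMod.natCast_zmod_val, div_mul_cancel₀ _ hv]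
    ring
  have hdiv2 : ∀ q : Ideal S, q.IsMaximal → p ∣ multiplicity q (Ideal.span {β * a₁ ^ m}) := by
    intro q hq
    obtain ⟨hqP, P, e, hP, he, hne, hmul⟩ := H1 q hq
    have hsum : multiplicity q (Ideal.span {β * a₁ ^ m}) =
        multiplicity q (Ideal.span {β}) + m * multiplicity q (Ideal.span {a₁}) := by
      rw [← Ideal.span_singleton_mul_span_singleton, ← Ideal.span_singleton_pow,
        U6b_mult_mul hqP (U6b_span_ne hβ0) (pow_ne_zero m (U6b_span_ne ha₁0)),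
        U6b_mult_pow hqP (U6b_span_ne ha₁0)]
    rw [hsum]
    by_cases hqq : q = q₀
    · rw [hqq]
      exact hm
    · have he1 := hne hqq
      have h1 := hmul β hβ0
      have h2 := hmul a₁ ha₁0
      rw [hβJ, U6b_mult_pow hP hJ0, he1, one_mul] at h1
      rw [haα, U6b_mult_pow hP (U6b_span_ne hα0), he1, one_mul] at h2
      rw [← h1, ← h2]
      exact dvd_add (dvd_mul_right _ _) (Dvd.dvd.mul_left (dvd_mul_right _ _) _)
  obtain ⟨β₂, η₂, hβ₂⟩ := H2 (β * a₁ ^ m) (mul_ne_zero hβ0 (pow_ne_zero m ha₁0)) hdiv2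
  have hη₂u : IsUnit (j η₂) := η₂.isUnit.map j
  have hfin : J * Ideal.span {α} ^ m = Ideal.span {j β₂} := by
    apply U6b_pow_inj hp.ne_zero
    have h1 : Ideal.span {j (β * a₁ ^ m)} = (Ideal.span {j β₂}) ^ p := by
      rw [hβ₂, map_mul, map_pow, Ideal.span_singleton_mul_right_unit hη₂u,
        Ideal.span_singleton_pow]
    rw [← h1, map_mul, map_pow, ← Ideal.span_singleton_mul_span_singleton,
      ← Ideal.span_singleton_pow, hβJ, haα, mul_pow, ← pow_mul, ← pow_mul, mul_comm p m]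
  -- `J` is principal
  have hcl : ClassGroup.mk0 ⟨J, mem_nonZeroDivisors_iff_ne_zero.2 hJ0⟩ = 1 := by
    have hβ₂0 : j β₂ ≠ 0 := by
      intro h
      rw [h, Ideal.span_singleton_eq_bot.2 rfl] at hfin
      exact mul_ne_zero hJ0 (pow_ne_zero m (U6b_span_ne hα0)) hfin
    have htop : (⊤ : Ideal R) ≠ ⊥ := top_ne_bot
    have : (1 : ClassGroup R) = ClassGroup.mk0 ⟨⊤, mem_nonZeroDivisors_iff_ne_zero.2 htop⟩ := by
      rw [← map_one ClassGroup.mk0]
      congr 1
      exact Subtype.ext Ideal.one_eq_top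
    rw [this, ClassGroup.mk0_eq_mk0_iff]
    refine ⟨α ^ m, j β₂, pow_ne_zero m hα0, hβ₂0, ?_⟩
    rw [← Ideal.span_singleton_pow, mul_comm, hfin]
    simp
  rwa [ClassGroup.mk0_eq_one_iff] at hcl

end Dedekind

section Concrete

private theorem U6b_dedekind (M : IntermediateField ℚ Om) [FiniteDimensional ℚ M] :
    IsDedekindDomain (ZF M) :=
  inferInstanceAs (IsDedekindDomain (NumberField.RingOfIntegers (FL M)))

private theorem U6b_exists_tau {p : ℕ} (hp : p.Prime) (D M : IntermediateField ℚ Om)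
    (h : CycDM p D M) : ∃ τ : GQ, τ ∈ D.fixingSubgroup ∧ τ ∉ M.fixingSubgroup := by
  by_contra hcon
  push Not at hcon
  have h1 : M ≤ D := by
    rw [← InfiniteGalois.fixedField_fixingSubgroup M,
      ← InfiniteGalois.fixedField_fixingSubgroup D]
    exact IntermediateField.fixedField_antitone hcon
  have h2 := h.deg
  rw [IntermediateField.relfinrank_eq_one_iff.2 h1] at h2
  exact hp.one_lt.ne h2

private theorem U6b_lift (F : IntermediateField ℚ Om) (z : Om) (hz : z ∈ F)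
    (hint : IsIntegral ℤ z) : ∃ w : ZF F, w.val = z := by
  let x : FL F := ⟨z, hz⟩
  have hx : FLhom F x = z := rfl
  have h1 : IsIntegral ℤ x := by
    refine (isIntegral_algHom_iff (FLhom F).toIntAlgHom (FLhom F).injective).1 ?_
    show IsIntegral ℤ (FLhom F x)
    rw [hx]
    exact hint
  exact ⟨⟨x, h1⟩, rfl⟩

/-- the inclusion `ZF D → ZF M` -/
private def U6b_j (D M : IntermediateField ℚ Om) (h : D ≤ M) : ZF D →+* ZF M where
  toFun z := ⟨(⟨z.val, h (ZF_val_mem z)⟩ : FL M), by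
    refine (isIntegral_algHom_iff (FLhom M).toIntAlgHom (FLhom M).injective).1 ?_
    exact ZF_val_isIntegral z⟩
  map_one' := ZF_val_inj _ _ rfl
  map_mul' := fun _ _ => ZF_val_inj _ _ rfl
  map_zero' := ZF_val_inj _ _ rfl
  map_add' := fun _ _ => ZF_val_inj _ _ rfl

private theorem U6b_j_val (D M : IntermediateField ℚ Om) (h : D ≤ M) (z : ZF D) :
    (U6b_j D M h z).val = z.val := rfl

/-- `τ` as a ring automorphism of `ZF M` -/
private def U6b_e (M : IntermediateField ℚ Om) (τ : GQ) (h : ∀ x ∈ M, τ x ∈ M)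
    (h' : ∀ x ∈ M, τ⁻¹ x ∈ M) : ZF M ≃+* ZF M where
  toFun := actZ M τ h
  invFun := actZ M τ⁻¹ h'
  left_inv := fun z => ZF_val_inj _ _ (by
    rw [actZ_val, actZ_val, ← AlgEquiv.mul_apply, inv_mul_cancel, AlgEquiv.one_apply])
  right_inv := fun z => ZF_val_inj _ _ (by
    rw [actZ_val, actZ_val, ← AlgEquiv.mul_apply, mul_inv_cancel, AlgEquiv.one_apply])
  map_mul' := map_mul _
  map_add' := map_add _

private theorem U6b_e_val (M : IntermediateField ℚ Om) (τ : GQ) (h : ∀ x ∈ M, τ x ∈ M)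
    (h' : ∀ x ∈ M, τ⁻¹ x ∈ M) (z : ZF M) : (U6b_e M τ h h' z).val = τ z.val := rfl

private theorem U6b_e_iter (M : IntermediateField ℚ Om) (τ : GQ) (h : ∀ x ∈ M, τ x ∈ M)
    (h' : ∀ x ∈ M, τ⁻¹ x ∈ M) (i : ℕ) (z : ZF M) :
    ((U6b_e M τ h h')^[i] z).val = (τ ^ i) z.val := by
  induction i with
  | zero => rfl
  | succ i ih => rw [Function.iterate_succ_apply', U6b_e_val, ih, pow_succ', AlgEquiv.mul_apply]

private theorem U6b_val_mul {M : IntermediateField ℚ Om} (z w : ZF M) :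
    (z * w).val = z.val * w.val := rfl

private theorem U6b_val_one {M : IntermediateField ℚ Om} : (1 : ZF M).val = 1 := rfl

private theorem U6b_val_zero {M : IntermediateField ℚ Om} : (0 : ZF M).val = 0 := rfl

private theorem U6b_val_ne {M : IntermediateField ℚ Om} {z : ZF M} (h : z ≠ 0) : z.val ≠ 0 :=
  fun h' => h (ZF_val_inj _ _ h')

private theorem U6b_val_prod {M : IntermediateField ℚ Om} (f : ℕ → ZF M) (n : ℕ) :
    (∏ i ∈ Finset.range n, f i).val = ∏ i ∈ Finset.range n, (f i).val := by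
  induction n with
  | zero => rfl
  | succ n ih => rw [Finset.prod_range_succ, Finset.prod_range_succ, U6b_val_mul, ih]

private theorem U6b_norm_val (M : IntermediateField ℚ Om) (τ : GQ) (h : ∀ x ∈ M, τ x ∈ M)
    (h' : ∀ x ∈ M, τ⁻¹ x ∈ M) (p : ℕ) (z : ZF M) :
    (∏ i ∈ Finset.range p, (U6b_e M τ h h')^[i] z).val = ∏ i ∈ Finset.range p, (τ ^ i) z.val := by
  rw [U6b_val_prod]
  exact Finset.prod_congr rfl fun i _ => U6b_e_iter M τ h h' i z

private theorem U6b_not_field (M : IntermediateField ℚ Om) [FiniteDimensional ℚ M] :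
    ¬ IsField (ZF M) := NumberField.RingOfIntegers.not_isField (FL M)

private theorem U6b_over (D : IntermediateField ℚ Om) [FiniteDimensional ℚ D] (q : Ideal (ZF D))
    (hq : q.IsMaximal) : ∃ B : Ideal ZO, B.IsMaximal ∧ B.comap (iota D) = q := by
  let alg : Algebra (ZF D) ZO := (iota D).toAlgebra
  have : IsScalarTower ℤ (ZF D) ZO := IsScalarTower.of_algebraMap_eq' (Subsingleton.elim _ _)
  have : Algebra.IsIntegral (ZF D) ZO := Algebra.IsIntegral.tower_top (R := ℤ)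
  have hker : RingHom.ker (algebraMap (ZF D) ZO) ≤ q := by
    intro z hz
    have h1 : iota D z = 0 := hz
    have h2 : z.val = 0 := congrArg Subtype.val h1
    have h3 : z = 0 := ZF_val_inj z 0 h2
    rw [h3]
    exact q.zero_mem
  obtain ⟨B, hB, hcomap⟩ := Ideal.exists_ideal_over_maximal_of_isIntegral q hker
  exact ⟨B, hB, hcomap⟩

theorem class_up {p : ℕ} (hp : p.Prime) (D M : IntermediateField ℚ Om) [FiniteDimensional ℚ D]
    [FiniteDimensional ℚ M] (h : CycDM p D M) (hM : TotReal M)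
    (hcl : ¬ p ∣ NumberField.classNumber (FL D)) (B₀ : Ideal ZO) (hB₀ : B₀.IsMaximal)
    (hram : OneRam D M B₀) : ¬ p ∣ NumberField.classNumber (FL M) := by
  obtain ⟨τ, hτ, hτM⟩ := U6b_exists_tau hp D M h
  have hs : ∀ x ∈ M, τ x ∈ M := h.stable τ hτ
  have hs' : ∀ x ∈ M, τ⁻¹ x ∈ M := h.stable τ⁻¹ (inv_mem hτ)
  have : IsDedekindDomain (ZF M) := U6b_dedekind M
  have : IsDedekindDomain (ZF D) := U6b_dedekind D
  let F : Fintype (ClassGroup (ZF M)) :=
    inferInstanceAs (Fintype (ClassGroup (NumberField.RingOfIntegers (FL M))))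
  have hbot : ∀ q : Ideal (ZF D), q.IsMaximal → q ≠ ⊥ := fun q hq =>
    Ring.ne_bot_of_isMaximal_of_not_isField hq (U6b_not_field D)
  obtain ⟨hU1, hU2⟩ := unit_norm hp D M h hM hcl B₀ hB₀ hram τ hτ hτM
  have hjinj : Function.Injective (U6b_j D M h.le) := by
    intro a b hab
    apply ZF_val_inj
    rw [← U6b_j_val D M h.le a, ← U6b_j_val D M h.le b, hab]
  have key := U6b_abstract (R := ZF M) (S := ZF D) hp (U6b_e M τ hs hs') ?_ (U6b_j D M h.le) hjinj
    (B₀.comap (iota D)) ?_ ?_ ?_ ?_ ?_ ?_ ?_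
  · exact key
  · -- `τ^p = 1`
    intro z
    apply ZF_val_inj
    rw [U6b_e_iter]
    have := (norm_mem hp D M h τ hτ hτM z).1 0
    rwa [zero_add, pow_zero, AlgEquiv.one_apply] at this
  · -- ramification
    intro q hq
    refine ⟨Ideal.prime_of_isPrime (hbot q hq) hq.isPrime, ?_⟩
    obtain ⟨B, hB, hBq⟩ := U6b_over D q hq
    obtain ⟨e, he, he1, hmul⟩ := mult_ram hp D M h B hB
    have hPprime : (B.comap (iota M)).IsPrime := by
      have := hB.isPrime
      exact Ideal.comap_isPrime _ _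
    have hPbot : B.comap (iota M) ≠ ⊥ := by
      obtain ⟨b, hb, hb0⟩ := Submodule.exists_mem_ne_zero_of_ne_bot (hbot q hq)
      intro hP
      have h1 : U6b_j D M h.le b ∈ B.comap (iota M) := by
        rw [Ideal.mem_comap]
        have h2 : iota M (U6b_j D M h.le b) = iota D b := Subtype.ext rfl
        rw [h2, ← Ideal.mem_comap, hBq]
        exact hb
      rw [hP, Ideal.mem_bot, map_eq_zero_iff _ hjinj] at h1
      exact hb0 h1
    refine ⟨B.comap (iota M), e, Ideal.prime_of_isPrime hPbot hPprime, he, ?_, ?_⟩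
    · intro hne
      apply he1
      intro t ht htD
      by_contra htM
      exact hne (hBq ▸ hram B hB t ht htD htM)
    · intro b hb
      rw [← hBq]
      exact hmul b _ hb (U6b_j_val D M h.le b)
  · intro a ha hd
    exact exists_pow_unit hp D hcl a ha hd
  · intro α
    obtain ⟨a, ha⟩ := (norm_mem hp D M h τ hτ hτM α).2
    refine ⟨a, ZF_val_inj _ _ ?_⟩
    rw [U6b_j_val, ha, U6b_norm_val]
  · intro u
    obtain ⟨ε, hε⟩ := hU1 u
    refine ⟨ε, ZF_val_inj _ _ ?_⟩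
    rw [U6b_j_val, hε, U6b_norm_val]
  · obtain ⟨α, x, a, hα0, hα, ha, hnd⟩ := hU2
    refine ⟨α, x, a, hα0, ZF_val_inj _ _ ?_, ZF_val_inj _ _ ?_, hnd⟩
    · rw [U6b_e_val, hα, U6b_val_mul]
    · rw [U6b_j_val, ha, U6b_norm_val]
  · intro x y hx hy hxy
    have hx' := U6b_val_ne hx
    have hy' := U6b_val_ne hy
    have hN : ∏ i ∈ Finset.range p, (τ ^ i) (y.val / x.val) = 1 := by
      have h1 := congrArg ZF.val hxy
      rw [U6b_norm_val, U6b_norm_val] at h1
      have h2 : ∏ i ∈ Finset.range p, (τ ^ i) x.val ≠ 0 := by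
        rw [Finset.prod_ne_zero_iff]
        intro i _ h3
        exact hx' ((map_eq_zero _).1 h3)
      simp only [map_div₀]
      rw [Finset.prod_div_distrib, ← h1, div_self h2]
    obtain ⟨α, hα0, hα⟩ := hilbert90 hp D M h τ hτ hτM (y.val / x.val)
      (div_mem (ZF_val_mem y) (ZF_val_mem x)) hN
    refine ⟨α, hα0, ZF_val_inj _ _ ?_⟩
    rw [U6b_val_mul, U6b_val_mul, U6b_e_val, hα, div_mul_eq_mul_div, mul_div_cancel₀ _ hx']
  · intro a b u hb hab
    have hb' := U6b_val_ne hb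
    have h1 : a.val = b.val * (u : ZF M).val := by
      have := congrArg ZF.val hab
      rwa [U6b_j_val, U6b_val_mul, U6b_j_val] at this
    have h2 : (u : ZF M).val = a.val / b.val := by
      rw [h1, mul_div_cancel_left₀ _ hb']
    have h3 : (u : ZF M).val * ((u⁻¹ : (ZF M)ˣ) : ZF M).val = 1 := by
      rw [← U6b_val_mul, Units.mul_inv, U6b_val_one]
    have h4 : ((u⁻¹ : (ZF M)ˣ) : ZF M).val = ((u : ZF M).val)⁻¹ := (inv_eq_of_mul_eq_one_right h3).symm
    have hmem : (u : ZF M).val ∈ D := by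
      rw [h2]
      exact div_mem (ZF_val_mem a) (ZF_val_mem b)
    obtain ⟨v, hv⟩ := U6b_lift D _ hmem (ZF_val_isIntegral _)
    obtain ⟨w, hw⟩ := U6b_lift D ((u⁻¹ : (ZF M)ˣ) : ZF M).val (by rw [h4]; exact inv_mem hmem)
      (ZF_val_isIntegral _)
    have hvw : v * w = 1 := ZF_val_inj _ _ (by rw [U6b_val_mul, hv, hw, h3, U6b_val_one])
    refine ⟨⟨v, w, hvw, by rw [mul_comm, hvw]⟩, ZF_val_inj _ _ ?_⟩
    rw [U6b_j_val]
    exact hv.symm

end Concrete

end OzakiFree
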