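import Pool.Agent.Lib.MP_6e8030_nt.UBase
import Pool.Agent.Lib.MP_6e8030_nt.E6
import Pool.Agent.Lib.MP_6e8030_nt.E1

open IntermediateField
open scoped ComplexConjugate Pointwise

noncomputable section

namespace OzakiFree

private theorem U7a_charP {p : ℕ} (hp : p.Prime) (B : Ideal ZO) (hB : B.IsMaximal)
    (hpB : (p : ZO) ∈ B) : CharP (ZO ⧸ B) p := by
  have : Nontrivial (ZO ⧸ B) := Ideal.Quotient.nontrivial_iff.2 hB.ne_top
  refine (CharP.charP_iff_prime_eq_zero hp).2 ?_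
  rw [← map_natCast (Ideal.Quotient.mk B)]
  exact Ideal.Quotient.eq_zero_iff_mem.2 hpB

/-- `p`-power roots of unity are `1` modulo `B` -/
private theorem U7a_zeta {p : ℕ} (hp : p.Prime) (B : Ideal ZO) (hB : B.IsMaximal)
    (hpB : (p : ZO) ∈ B) (m : ℕ) (z : ZO) (hz : z ^ (p ^ m) = 1) :
    Ideal.Quotient.mk B z = 1 := by
  have := U7a_charP hp B hB hpB
  have : Fact p.Prime := ⟨hp⟩
  have := hB.isPrime
  have h1 : (Ideal.Quotient.mk B z - 1) ^ (p ^ m) = 0 := by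
    rw [sub_pow_char_pow, ← map_pow, hz, map_one, one_pow, sub_self]
  have h2 := eq_zero_of_pow_eq_zero h1
  exact sub_eq_zero.1 h2

/-- an element of `Gal(Om/ℚ)` moves an algebraic integer of `ℚ(μ_{p^m})` into its class mod `B` -/
private theorem U7a_cong {p : ℕ} (hp : p.Prime) (B : Ideal ZO) (hB : B.IsMaximal)
    (hpB : (p : ZO) ∈ B) (m : ℕ) (ζ : Om) (hζ : IsPrimitiveRoot ζ (p ^ m)) (σ : GQ)
    (z : ZO) (hz : (z : Om) ∈ (adjoin ℚ {ζ} : IntermediateField ℚ Om)) : σ • z - z ∈ B := by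
  have hfp : Fact p.Prime := ⟨hp⟩
  have : NeZero (p ^ m) := ⟨pow_ne_zero _ hp.ne_zero⟩
  have hcyc : IsCyclotomicExtension {p ^ m} ℚ (adjoin ℚ {ζ} : IntermediateField ℚ Om) :=
    hζ.intermediateField_adjoin_isCyclotomicExtension ℚ
  set N : IntermediateField ℚ Om := adjoin ℚ {ζ} with hN
  let ζN : N := ⟨ζ, mem_adjoin_simple_self ℚ ζ⟩
  have hζN : IsPrimitiveRoot ζN (p ^ m) := by
    refine IsPrimitiveRoot.of_map_of_injective (f := N.val) ?_ N.val.injective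
    exact hζ
  have hic := IsCyclotomicExtension.Rat.isIntegralClosure_adjoin_singleton_of_prime_pow hζN
  have hint : IsIntegral ℤ ζ := hζ.isIntegral (pow_pos hp.pos m)
  have hzN : IsIntegral ℤ (⟨(z : Om), hz⟩ : N) := by
    refine (isIntegral_algHom_iff (N.val.restrictScalars ℤ) N.val.injective).1 ?_
    exact z.2
  obtain ⟨y, hy⟩ := hic.isIntegral_iff.1 hzN
  have hy2 : (y : N) ∈ (Polynomial.aeval (R := ℤ) ζN).range := by
    rw [← Algebra.adjoin_singleton_eq_range_aeval]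
    exact y.2
  obtain ⟨f, hf⟩ := hy2
  let ζ' : ZO := ⟨ζ, hint⟩
  have h1 : z = Polynomial.eval₂ (Int.castRingHom ZO) ζ' f := by
    apply Subtype.ext
    have e1 : ((Polynomial.eval₂ (Int.castRingHom ZO) ζ' f : ZO) : Om) =
        Polynomial.eval₂ (Int.castRingHom Om) ζ f := by
      have := Polynomial.hom_eval₂ f (Int.castRingHom ZO) ((integralClosure ℤ Om).val : ZO →+* Om) ζ'
      refine Eq.trans this ?_
      congr 1
    have e2 : (z : Om) = Polynomial.eval₂ (Int.castRingHom Om) ζ f := by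
      have e3 : (z : Om) = N.val (⟨(z : Om), hz⟩ : N) := rfl
      have e4 : (⟨(z : Om), hz⟩ : N) = Polynomial.aeval ζN f := hy.symm.trans hf.symm
      rw [e3, e4, Polynomial.aeval_def]
      have := Polynomial.hom_eval₂ f (algebraMap ℤ N) (N.val : N →+* Om) ζN
      refine Eq.trans this ?_
      congr 1
    rw [e1, e2]
  have hmk : ∀ τ : GQ, Ideal.Quotient.mk B (τ • z) =
      Polynomial.eval₂ (Int.castRingHom (ZO ⧸ B)) 1 f := by
    intro τ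
    have e1 : τ • z = Polynomial.eval₂ (Int.castRingHom ZO) (τ • ζ') f := by
      conv_lhs => rw [h1]
      have := Polynomial.hom_eval₂ f (Int.castRingHom ZO)
        (MulSemiringAction.toRingHom GQ ZO τ) ζ'
      refine Eq.trans this ?_
      congr 1
      exact RingHom.ext_int _ _
    rw [e1, Polynomial.hom_eval₂]
    congr 1
    refine U7a_zeta hp B hB hpB m _ ?_
    rw [← smul_pow']
    have : ζ' ^ (p ^ m) = 1 := Subtype.ext hζ.pow_eq_one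
    rw [this, smul_one]
  rw [← Ideal.Quotient.eq]
  have h3 := hmk 1
  rw [one_smul] at h3
  rw [hmk σ, h3]

private theorem U7a_closed (x : Om) (s : Set Om) : IsClosed {σ : GQ | σ x ∈ s} := by
  refine ⟨?_⟩
  exact N3_loc x sᶜ

/-- total ramification of `μ_{p^m}` -/
private theorem U7a_inert {p : ℕ} (hp : p.Prime) (B : Ideal ZO) (hB : B.IsMaximal)
    (hpB : (p : ZO) ∈ B) (m : ℕ) (σ : GQ) :
    ∃ t ∈ B.inertia GQ, ∀ ξ : Om, ξ ^ (p ^ m) = 1 → t ξ = σ ξ := by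
  have hfp : Fact p.Prime := ⟨hp⟩
  have : NeZero (p ^ m) := ⟨pow_ne_zero _ hp.ne_zero⟩
  obtain ⟨ζ, hζ⟩ := HasEnoughRootsOfUnity.exists_primitiveRoot Om (p ^ m)
  have hcyc : IsCyclotomicExtension {p ^ m} ℚ (adjoin ℚ {ζ} : IntermediateField ℚ Om) :=
    hζ.intermediateField_adjoin_isCyclotomicExtension ℚ
  have : FiniteDimensional ℚ (adjoin ℚ {ζ} : IntermediateField ℚ Om) :=
    IsCyclotomicExtension.finiteDimensional {p ^ m} ℚ _
  have : IsGalois ℚ (adjoin ℚ {ζ} : IntermediateField ℚ Om) :=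
    IsCyclotomicExtension.isGalois {p ^ m} ℚ _
  obtain ⟨t, ht, ht'⟩ := inertia_surj (adjoin ℚ {ζ} : IntermediateField ℚ Om) B hB
    (σ.restrictNormal _) (fun z hz => by
      refine ⟨σ • z - z, U7a_cong hp B hB hpB m ζ hζ σ z hz, ?_⟩
      have := AlgEquiv.restrictNormal_commutes σ (adjoin ℚ {ζ} : IntermediateField ℚ Om)
        ⟨(z : Om), hz⟩
      have h2 : ((σ.restrictNormal (adjoin ℚ {ζ} : IntermediateField ℚ Om) ⟨(z : Om), hz⟩ :
        (adjoin ℚ {ζ} : IntermediateField ℚ Om)) : Om) = σ (z : Om) := this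
      rw [h2]
      rfl)
  refine ⟨t, ht, fun ξ hξ => ?_⟩
  obtain ⟨i, -, rfl⟩ := hζ.eq_pow_of_pow_eq_one hξ
  have h1 := ht' ⟨ζ, mem_adjoin_simple_self ℚ ζ⟩
  have h2 := AlgEquiv.restrictNormal_commutes σ (adjoin ℚ {ζ} : IntermediateField ℚ Om)
        ⟨ζ, mem_adjoin_simple_self ℚ ζ⟩
  have h3 : t ζ = σ ζ := h1.trans h2
  rw [map_pow, map_pow, h3]

private theorem U7a_mem_PQ {p : ℕ} (σ : GQ) (h : ∀ ξ ∈ muInf p, σ ξ = ξ) : σ ∈ PQ p := by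
  have h1 := R7_fix_mu σ h
  unfold Pmu at h1
  refine IntermediateField.fixingSubgroup_antitone ?_ h1
  refine le_trans inf_le_left ?_
  rw [bot_sup_eq]

private theorem U7a_exp {p : ℕ} (hp : p.Prime) (σ : GQ) (m : ℕ) :
    ∃ a : (ZMod (p ^ m))ˣ, ∀ ξ : Om, ξ ^ (p ^ m) = 1 → σ ξ = ξ ^ (a : ZMod (p ^ m)).val := by
  have : NeZero (p ^ m) := ⟨pow_ne_zero _ hp.ne_zero⟩
  obtain ⟨ζ, hζ⟩ := HasEnoughRootsOfUnity.exists_primitiveRoot Om (p ^ m)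
  refine ⟨hζ.autToPow ℚ σ, fun ξ hξ => ?_⟩
  obtain ⟨i, -, rfl⟩ := hζ.eq_pow_of_pow_eq_one hξ
  rw [map_pow, ← hζ.autToPow_spec ℚ σ, ← pow_mul, ← pow_mul, mul_comm]

private theorem U7a_exists_one {p : ℕ} (hp : p.Prime) (g₀ : ℕ) (hg : Nat.Coprime g₀ p) (m : ℕ) :
    ∃ σ : GQ, ∀ ξ : Om, ξ ^ (p ^ m) = 1 → σ ξ = ξ ^ g₀ := by
  have : NeZero (p ^ m) := ⟨pow_ne_zero _ hp.ne_zero⟩
  obtain ⟨ζ, hζ⟩ := HasEnoughRootsOfUnity.exists_primitiveRoot Om (p ^ m)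
  have hcop : Nat.Coprime g₀ (p ^ m) := Nat.Coprime.pow_right _ hg
  have h1 : minpoly ℤ ζ = minpoly ℤ (ζ ^ g₀) := by
    have h := hζ.minpoly_eq_pow_coprime hcop
    have e : (Ring.toIntAlgebra Om : Algebra ℤ Om) = AlgebraicClosure.instAlgebra ℚ :=
      Subsingleton.elim _ _
    rw [e] at h
    exact h
  have hint : IsIntegral ℤ ζ := hζ.isIntegral (pow_pos hp.pos m)
  have h2 : minpoly ℚ (ζ ^ g₀) = minpoly ℚ ζ := by
    rw [minpoly.isIntegrallyClosed_eq_field_fractions' ℚ hint,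
      minpoly.isIntegrallyClosed_eq_field_fractions' ℚ (hint.pow g₀), ← h1]
  obtain ⟨σ, hσ⟩ := (Normal.minpoly_eq_iff_mem_orbit (F := ℚ) (E := Om)).1 h2
  refine ⟨σ, fun ξ hξ => ?_⟩
  obtain ⟨i, -, rfl⟩ := hζ.eq_pow_of_pow_eq_one hξ
  have h3 : σ ζ = ζ ^ g₀ := hσ
  rw [map_pow, h3, ← pow_mul, ← pow_mul, mul_comm]


private theorem U7a_five (k : ℕ) : ∃ t : ℤ, (5 : ℤ) ^ (2 ^ k) = 1 + 2 ^ (k + 2) + 2 ^ (k + 3) * t := by
  induction k with
  | zero => exact ⟨0, by norm_num⟩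
  | succ k ih =>
    obtain ⟨t, ht⟩ := ih
    refine ⟨t + 2 ^ k * (1 + 2 * t) ^ 2, ?_⟩
    rw [pow_succ, pow_mul, ht]
    ring

private theorem U7a_unit (a : ℤ) (ha : a % 2 = 1) (k : ℕ) :
    ∃ (i : ℕ) (c e : ℤ), (e = 1 ∨ e = -1) ∧ a * 5 ^ i = e + 2 ^ (k + 2) * c := by
  induction k with
  | zero =>
    rcases (show a % 4 = 1 ∨ a % 4 = 3 by omega) with h | h
    · exact ⟨0, a / 4, 1, Or.inl rfl, by omega⟩
    · exact ⟨0, a / 4 + 1, -1, Or.inr rfl, by omega⟩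
  | succ k ih =>
    obtain ⟨i, c, e, he, h⟩ := ih
    obtain ⟨t, ht⟩ := U7a_five k
    rcases Int.even_or_odd' c with ⟨c', hc | hc⟩
    · exact ⟨i, c', e, he, by rw [h, hc]; ring⟩
    · have h2 : ∃ d, c + e = 2 * d := by
        rcases he with rfl | rfl
        · exact ⟨c' + 1, by rw [hc]; ring⟩
        · exact ⟨c', by rw [hc]; ring⟩
      obtain ⟨d, hd⟩ := h2
      refine ⟨i + 2 ^ k, d + e * t + 2 ^ (k + 1) * c * (1 + 2 * t), e, he, ?_⟩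
      have hc' : c = 2 * d - e := by linarith
      rw [pow_add, ← mul_assoc, h, ht, hc']
      ring

private theorem U7a_two : ∃ (B : Ideal ZO) (σ₀ : GQ), B.IsMaximal ∧ ((2 : ℕ) : ZO) ∈ B ∧
    σ₀ ∈ B.inertia GQ ∧
      ∀ G : Subgroup GQ, IsOpen (G : Set GQ) → ∀ g : GQ, ∃ i : ℕ, σ₀ ^ i * g ∈ PQ 2 ⊔ G := by
  have hp : (2 : ℕ).Prime := Nat.prime_two
  have hfp : Fact (2 : ℕ).Prime := ⟨hp⟩
  set B : Ideal ZO := R7_B 2 with hBdef
  have hB : B.IsMaximal := R7_B_maximal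
  have hpB : ((2 : ℕ) : ZO) ∈ B := R7_p_mem
  have hclB : ∀ z w : ZO, IsClosed {σ : GQ | σ • z - w ∈ B} := by
    intro z w
    have : {σ : GQ | σ • z - w ∈ B} = {σ : GQ | σ (z : Om) ∈ {y : Om | ∃ b ∈ B, (b : Om) = y - w}} := by
      ext σ
      constructor
      · intro h
        exact ⟨_, h, rfl⟩
      · rintro ⟨b, hb, hb2⟩
        have : σ • z - w = b := Subtype.ext hb2.symm
        change σ • z - w ∈ B
        rw [this]
        exact hb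
    rw [this]
    exact U7a_closed _ _
  have hclosedI : IsClosed (B.inertia GQ : Set GQ) := by
    have : (B.inertia GQ : Set GQ) = ⋂ z : ZO, {σ : GQ | σ • z - z ∈ B} := by
      ext σ
      simp only [Set.mem_iInter, Set.mem_ofPred_eq, SetLike.mem_coe]
      rfl
    rw [this]
    exact isClosed_iInter fun z => hclB z z
  have hclosedS : ∀ (f : Om → Set Om) (m : ℕ),
      IsClosed {σ : GQ | ∀ ξ : Om, ξ ^ (2 ^ m) = 1 → σ ξ ∈ f ξ} := by
    intro f m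
    have : {σ : GQ | ∀ ξ : Om, ξ ^ (2 ^ m) = 1 → σ ξ ∈ f ξ} =
        ⋂ (ξ : Om) (_ : ξ ^ (2 ^ m) = 1), {σ : GQ | σ ξ ∈ f ξ} := by
      ext σ
      simp
    rw [this]
    exact isClosed_iInter fun ξ => isClosed_iInter fun _ => U7a_closed _ _
  have hg : IsGalois ℚ Om := N3_gal
  have hcomp : CompactSpace GQ := inferInstance
  obtain ⟨σ₀, hσ₀I, hσ₀⟩ : ∃ σ₀ ∈ B.inertia GQ, ∀ ξ ∈ muInf 2, σ₀ ξ = ξ ^ 5 := by
    let C : ℕ → Set GQ := fun m => (B.inertia GQ : Set GQ) ∩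
      {σ : GQ | ∀ ξ : Om, ξ ^ (2 ^ m) = 1 → σ ξ ∈ ({ξ ^ 5} : Set Om)}
    have hC : ∀ m, IsClosed (C m) := fun m => hclosedI.inter (hclosedS _ m)
    have hanti : ∀ m, C (m + 1) ⊆ C m := by
      rintro m σ ⟨h1, h2⟩
      refine ⟨h1, fun ξ hξ => h2 ξ ?_⟩
      rw [pow_succ, pow_mul, hξ, one_pow]
    have hne : (⋂ m, C m).Nonempty := by
      refine IsCompact.nonempty_iInter_of_sequence_nonempty_isCompact_isClosed C hanti
        (fun m => ?_) (hC 0).isCompact hC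
      obtain ⟨σ₁, hσ₁⟩ := U7a_exists_one hp 5 (by norm_num) m
      obtain ⟨t, ht, ht'⟩ := U7a_inert hp B hB hpB m σ₁
      exact ⟨t, ht, fun ξ hξ => (ht' ξ hξ).trans (hσ₁ ξ hξ)⟩
    obtain ⟨σ₀, h⟩ := hne
    rw [Set.mem_iInter] at h
    exact ⟨σ₀, (h 0).1, fun ξ ⟨m, hm⟩ => (h m).2 ξ hm⟩
  have hpow : ∀ (n : ℕ), ∀ ξ ∈ muInf 2, (σ₀ ^ n) ξ = ξ ^ (5 ^ n) := by
    intro n
    induction n with
    | zero => intro ξ _; simp
    | succ n ih =>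
      intro ξ hξ
      rw [pow_succ', AlgEquiv.mul_apply, ih ξ hξ, map_pow, hσ₀ ξ hξ, ← pow_mul, pow_succ']
  have hinv : ∀ (g : GQ) (m : ℕ), ∃ i : ℕ, ∀ ξ : Om, ξ ^ (2 ^ m) = 1 →
      (σ₀ ^ i * g) ξ = ξ ∨ (σ₀ ^ i * g) ξ = ξ⁻¹ := by
    intro g m
    have : NeZero (2 ^ (m + 2)) := ⟨pow_ne_zero _ hp.ne_zero⟩
    obtain ⟨a, ha⟩ := U7a_exp hp g (m + 2)
    have hodd : ((a : ZMod (2 ^ (m + 2))).val : ℤ) % 2 = 1 := by
      have h1 : Nat.Coprime (a : ZMod (2 ^ (m + 2))).val (2 ^ (m + 2)) := ZMod.val_coe_unit_coprime a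
      have h2 : Nat.Coprime (a : ZMod (2 ^ (m + 2))).val 2 :=
        Nat.Coprime.coprime_dvd_right (dvd_pow_self 2 (by omega)) h1
      have h3 : ¬ 2 ∣ (a : ZMod (2 ^ (m + 2))).val := fun h =>
        absurd (Nat.dvd_gcd h (dvd_refl 2)) (by rw [h2]; norm_num)
      omega
    obtain ⟨i, c, e, he, hi⟩ := U7a_unit _ hodd m
    refine ⟨i, fun ξ hξ => ?_⟩
    have hξ' : ξ ^ (2 ^ (m + 2)) = 1 := by rw [pow_add, pow_mul, hξ, one_pow]
    have hne : ξ ≠ 0 := by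
      rintro rfl
      rw [zero_pow (pow_ne_zero _ two_ne_zero)] at hξ
      exact zero_ne_one hξ
    have h1 : (σ₀ ^ i * g) ξ = ξ ^ (e : ℤ) := by
      rw [AlgEquiv.mul_apply, ha ξ hξ', map_pow, hpow i ξ ⟨m, hξ⟩, ← pow_mul, ← zpow_natCast]
      have h2 : ((5 ^ i * (a : ZMod (2 ^ (m + 2))).val : ℕ) : ℤ) = e + 2 ^ (m + 2) * c := by
        rw [← hi]; push_cast; ring
      have h3 : ((2 : ℤ) ^ (m + 2)) = ((2 ^ (m + 2) : ℕ) : ℤ) := by push_cast; ring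
      rw [h2, zpow_add₀ hne, h3, zpow_mul, zpow_natCast, hξ', one_zpow, mul_one]
    rw [h1]
    rcases he with rfl | rfl
    · left; rw [zpow_one]
    · right; rw [zpow_neg_one]
  refine ⟨B, σ₀, hB, hpB, hσ₀I, ?_⟩
  intro G hG g
  let D : ℕ → Set GQ := fun m => {σ : GQ | ∀ ξ : Om, ξ ^ (2 ^ m) = 1 → σ ξ ∈ ({ξ, ξ⁻¹} : Set Om)}
  have hDclosed : ∀ m, IsClosed (D m) := fun m => hclosedS _ m
  have hDanti : Antitone D := by
    refine antitone_nat_of_succ_le fun m σ hσ ξ hξ => ?_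
    refine hσ ξ ?_
    rw [pow_succ, pow_mul, hξ, one_pow]
  have hDP : ∀ σ, σ ∈ ⋂ m, D m → σ ∈ PQ 2 := by
    intro σ hσ
    rw [mem_PQ_iff hp]
    refine ⟨2, by norm_num, ?_⟩
    rintro ξ ⟨m, hm⟩
    have h1 : σ ξ = ξ ∨ σ ξ = ξ⁻¹ := by
      have := (Set.mem_iInter.1 hσ m) ξ hm
      simpa using this
    rw [pow_two, AlgEquiv.mul_apply]
    rcases h1 with h | h
    · rw [h, h]
    · rw [h, map_inv₀, h, inv_inv]
  have hOopen : IsOpen ((G : Set GQ) * (PQ 2 : Set GQ)) := hG.mul_right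
  obtain ⟨m, hm⟩ : ∃ m, D m ⊆ (G : Set GQ) * (PQ 2 : Set GQ) := by
    refine exists_subset_nhds_of_compactSpace (directed_of_isDirected_le fun a b hab => hDanti hab)
      hDclosed fun σ hσ => hOopen.mem_nhds ?_
    exact ⟨1, Subgroup.one_mem _, σ, hDP σ hσ, one_mul σ⟩
  obtain ⟨i, hi⟩ := hinv g m
  obtain ⟨w, hw, z, hz, hwz⟩ := hm (show σ₀ ^ i * g ∈ D m from fun ξ hξ => by
    have := hi ξ hξ
    simpa using this)
  refine ⟨i, ?_⟩
  rw [← show w * z = σ₀ ^ i * g from hwz]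
  exact Subgroup.mul_mem _ (Subgroup.mem_sup_right hw) (Subgroup.mem_sup_left hz)

theorem exists_sigma {p : ℕ} (hp : p.Prime) :
    ∃ (B : Ideal ZO) (σ₀ : GQ), B.IsMaximal ∧ (p : ZO) ∈ B ∧ σ₀ ∈ B.inertia GQ ∧
      ∀ G : Subgroup GQ, IsOpen (G : Set GQ) → ∀ g : GQ, ∃ i : ℕ, σ₀ ^ i * g ∈ PQ p ⊔ G := by
  by_cases hp2 : p = 2
  · subst hp2
    exact U7a_two
  · obtain ⟨B, σ₀, φ, h1, h2, h3, -, -, h4, -⟩ := exists_frob_p hp hp2
    exact ⟨B, σ₀, h1, h2, h3, h4⟩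

end OzakiFree
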