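import Pool.Agent.Lib.MP_6e8030_nt.UBase
import Pool.Agent.Lib.MP_6e8030_nt.E1
import Pool.Agent.Lib.MP_6e8030_nt.N3

open IntermediateField
open scoped ComplexConjugate

noncomputable section

namespace OzakiFree

private theorem U7b_gal : IsGalois ℚ Om := by
  have : IsAlgClosure ℚ Om := instAlgClosureOm
  exact IsAlgClosure.isGalois ℚ Om

private theorem U7b_normal {Γ : Type*} [Group Γ] {P V : Subgroup Γ}
    (hcomm : ∀ g h : Γ, g * h * g⁻¹ * h⁻¹ ∈ P) (hPV : P ≤ V) : V.Normal := by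
  constructor
  intro n hn g
  have h1 := V.mul_mem (hPV (hcomm g n)) hn
  rwa [inv_mul_cancel_right] at h1

private theorem U7b_exp {p : ℕ} (hp : p.Prime) (σ : GQ) (m : ℕ) :
    ∃ a : ℕ, Nat.Coprime a (p ^ m) ∧ ∀ ζ : Om, ζ ^ (p ^ m) = 1 → σ ζ = ζ ^ a := by
  have : NeZero (p ^ m) := ⟨pow_ne_zero _ hp.ne_zero⟩
  have : NeZero ((p ^ m : ℕ) : Om) := ⟨by exact_mod_cast pow_ne_zero _ hp.ne_zero⟩
  obtain ⟨ξ, hξ⟩ := HasEnoughRootsOfUnity.exists_primitiveRoot Om (p ^ m)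
  have h1 : (σ ξ) ^ (p ^ m) = 1 := by rw [← map_pow, hξ.pow_eq_one, map_one]
  obtain ⟨i, -, hi⟩ := hξ.eq_pow_of_pow_eq_one h1
  have h2 : IsPrimitiveRoot (σ ξ) (p ^ m) := hξ.map_of_injective σ.injective
  rw [← hi] at h2
  refine ⟨i, (hξ.pow_iff_coprime (pow_pos hp.pos m) i).1 h2, ?_⟩
  intro ζ hζ
  obtain ⟨j, -, hj⟩ := hξ.eq_pow_of_pow_eq_one hζ
  rw [← hj, map_pow, ← hi, ← pow_mul, ← pow_mul, mul_comm]

private theorem U7b_pow {p : ℕ} (σ : GQ) {m a : ℕ} (h : ∀ ζ : Om, ζ ^ (p ^ m) = 1 → σ ζ = ζ ^ a)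
    (ζ : Om) (hζ : ζ ^ (p ^ m) = 1) (r : ℕ) : (σ ^ r) ζ = ζ ^ (a ^ r) := by
  induction r with
  | zero => simp
  | succ r ih =>
    rw [pow_succ', AlgEquiv.mul_apply, ih, map_pow, h ζ hζ, ← pow_mul, ← pow_succ']

private theorem U7b_closed (p m : ℕ) (hp : p.Prime) :
    IsClosed {σ : GQ | ∀ ζ : Om, ζ ^ (p ^ m) = 1 → σ ζ = ζ} := by
  have h1 : {σ : GQ | ∀ ζ : Om, ζ ^ (p ^ m) = 1 → σ ζ = ζ} =
      ⋂ ζ : {ζ : Om // ζ ^ (p ^ m) = 1}, {σ : GQ | σ ζ.1 ∈ ({ζ.1} : Set Om)} := by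
    ext σ
    simp
  rw [h1]
  refine isClosed_iInter fun ζ => ?_
  rw [← isOpen_compl_iff]
  exact N3_loc ζ.1 ({ζ.1}ᶜ)

/-- powers of `p` bring every element into an open subgroup above `PQ` -/
private theorem U7b_ppow {p : ℕ} (hp : p.Prime) (U : Subgroup GQ) (hU : IsOpen (U : Set GQ))
    (hPU : PQ p ≤ U) (g : GQ) : ∃ j : ℕ, g ^ (p ^ j) ∈ U := by
  have hg : IsGalois ℚ Om := U7b_gal
  by_contra hcon
  push Not at hcon
  set F : ℕ → Set GQ := fun m =>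
    (U : Set GQ)ᶜ ∩ (fun σ : GQ => σ ^ (p - 1)) ⁻¹' {σ : GQ | ∀ ζ : Om, ζ ^ (p ^ m) = 1 → σ ζ = ζ}
    with hF
  have hcl : ∀ m, IsClosed (F m) := fun m =>
    hU.isClosed_compl.inter ((U7b_closed p m hp).preimage (continuous_pow _))
  have hne : (⋂ m, F m).Nonempty := by
    refine IsCompact.nonempty_iInter_of_sequence_nonempty_isCompact_isClosed F ?_ ?_
      (hcl 0).isCompact hcl
    · rintro m σ ⟨h1, h2⟩
      refine ⟨h1, ?_⟩
      intro ζ hζ
      exact h2 ζ (by rw [pow_succ, pow_mul, hζ, one_pow])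
    · intro m
      refine ⟨g ^ (p ^ m), hcon m, ?_⟩
      intro ζ hζ
      obtain ⟨a, ha, hga⟩ := U7b_exp hp g m
      show ((g ^ (p ^ m)) ^ (p - 1)) ζ = ζ
      rw [← pow_mul, U7b_pow g hga ζ hζ]
      rcases Nat.eq_zero_or_pos m with rfl | hm
      · have : ζ = 1 := by simpa using hζ
        rw [this, one_pow]
      · have h3 : a ^ (p ^ m * (p - 1)) ≡ 1 [MOD p ^ m] := by
          have h4 := Nat.ModEq.pow_totient ha
          rw [Nat.totient_prime_pow hp hm] at h4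
          have h5 : p ^ m * (p - 1) = (p ^ (m - 1) * (p - 1)) * p := by
            conv_lhs => rw [← Nat.sub_add_cancel hm, pow_succ]
            ring
          rw [h5, pow_mul]
          simpa using h4.pow p
        have h6 : ζ ^ (a ^ (p ^ m * (p - 1))) = ζ ^ 1 := pow_eq_pow_of_modEq h3 hζ
        rw [h6, pow_one]
  obtain ⟨t, ht⟩ := hne
  rw [Set.mem_iInter] at ht
  have h7 : t ∈ PQ p := by
    rw [mem_PQ_iff hp]
    refine ⟨p - 1, by have := hp.two_le; omega, ?_⟩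
    rintro ζ ⟨m, hm⟩
    exact (ht m).2 ζ hm
  exact (ht 0).1 (hPU h7)

private theorem U7b_cyc {p : ℕ} (hp : p.Prime) (m : ℕ) :
    ∃ g : GQ, ∀ ζ : Om, ζ ^ (p ^ m) = 1 → g ζ = ζ ^ (p + 1) := by
  have hg : IsGalois ℚ Om := U7b_gal
  have : NeZero (p ^ m) := ⟨pow_ne_zero _ hp.ne_zero⟩
  have : NeZero ((p ^ m : ℕ) : Om) := ⟨by exact_mod_cast pow_ne_zero _ hp.ne_zero⟩
  have hpos : 0 < p ^ m := pow_pos hp.pos m
  obtain ⟨ξ, hξ⟩ := HasEnoughRootsOfUnity.exists_primitiveRoot Om (p ^ m)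
  have hco : Nat.Coprime (p + 1) (p ^ m) := Nat.Coprime.pow_right _ (by simp)
  have h1 : IsPrimitiveRoot (ξ ^ (p + 1)) (p ^ m) := hξ.pow_of_coprime _ hco
  have h2 : IsConjRoot ℚ (ξ ^ (p + 1)) ξ := by
    rw [isConjRoot_def, ← Polynomial.cyclotomic_eq_minpoly_rat h1 hpos,
      ← Polynomial.cyclotomic_eq_minpoly_rat hξ hpos]
  obtain ⟨g, hgx⟩ := isConjRoot_iff_exists_algEquiv.1 h2
  refine ⟨g, ?_⟩
  intro ζ hζ
  obtain ⟨j, -, hj⟩ := hξ.eq_pow_of_pow_eq_one hζ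
  rw [← hj, map_pow, hgx, ← pow_mul, ← pow_mul, mul_comm]

private theorem U7b_cycInf {p : ℕ} (hp : p.Prime) :
    ∃ g : GQ, ∀ m : ℕ, ∀ ζ : Om, ζ ^ (p ^ m) = 1 → g ζ = ζ ^ (p + 1) := by
  have hg : IsGalois ℚ Om := U7b_gal
  set F : ℕ → Set GQ := fun m => {σ : GQ | ∀ ζ : Om, ζ ^ (p ^ m) = 1 → σ ζ = ζ ^ (p + 1)} with hF
  have hcl : ∀ m, IsClosed (F m) := fun m => by
    have h1 : F m = ⋂ ζ : {ζ : Om // ζ ^ (p ^ m) = 1}, {σ : GQ | σ ζ.1 ∈ ({ζ.1 ^ (p + 1)} : Set Om)} := by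
      ext σ
      simp [hF]
    rw [h1]
    refine isClosed_iInter fun ζ => ?_
    rw [← isOpen_compl_iff]
    exact N3_loc ζ.1 ({ζ.1 ^ (p + 1)}ᶜ)
  have hne : (⋂ m, F m).Nonempty := by
    refine IsCompact.nonempty_iInter_of_sequence_nonempty_isCompact_isClosed F ?_
      (fun m => U7b_cyc hp m) (hcl 0).isCompact hcl
    intro m σ h2 ζ hζ
    exact h2 ζ (by rw [pow_succ, pow_mul, hζ, one_pow])
  obtain ⟨g, hgm⟩ := hne
  exact ⟨g, fun m => Set.mem_iInter.1 hgm m⟩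

/-- `PQ` is not open -/
private theorem U7b_not_open {p : ℕ} (hp : p.Prime) : ¬ IsOpen (PQ p : Set GQ) := by
  intro ho
  have hg : IsGalois ℚ Om := U7b_gal
  have hfin : Finite (GQ ⧸ PQ p) := (PQ p).quotient_finite_of_isOpen ho
  have hn : (PQ p).Normal := U7b_normal (PQ_comm hp) le_rfl
  obtain ⟨g, hgp⟩ := U7b_cycInf hp
  have hidx : (PQ p).index ≠ 0 := by
    rw [Subgroup.index]
    exact Nat.card_pos.ne'
  obtain ⟨r, hr0, hr⟩ := (mem_PQ_iff hp _).1 (Subgroup.pow_index_mem (PQ p) g)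
  set N := (PQ p).index * r with hN
  have hN0 : 0 < N := Nat.mul_pos (Nat.pos_of_ne_zero hidx) hr0
  obtain ⟨m, hm⟩ := pow_unbounded_of_one_lt ((p + 1) ^ N) hp.one_lt
  have : NeZero (p ^ m) := ⟨pow_ne_zero _ hp.ne_zero⟩
  have : NeZero ((p ^ m : ℕ) : Om) := ⟨by exact_mod_cast pow_ne_zero _ hp.ne_zero⟩
  obtain ⟨ξ, hξ⟩ := HasEnoughRootsOfUnity.exists_primitiveRoot Om (p ^ m)
  have h1 := hr ξ ⟨m, hξ.pow_eq_one⟩
  rw [← pow_mul, ← hN, U7b_pow g (hgp m) ξ hξ.pow_eq_one] at h1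
  have h2 : 1 < (p + 1) ^ N := Nat.one_lt_pow hN0.ne' (by have := hp.pos; omega)
  have h3 : ξ ^ ((p + 1) ^ N - 1) = 1 := by
    have hne : ξ ≠ 0 := hξ.ne_zero (pow_ne_zero _ hp.ne_zero)
    have h4 : ξ ^ ((p + 1) ^ N - 1) * ξ = 1 * ξ := by
      rw [← pow_succ, Nat.sub_add_cancel h2.le, h1, one_mul]
    exact mul_right_cancel₀ hne h4
  have h5 := Nat.le_of_dvd (by omega) ((hξ.pow_eq_one_iff_dvd _).1 h3)
  omega

/-- a finite nontrivial quotient of exponent a power of `p` has a subgroup of index `p` -/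
private theorem U7b_index {Γ : Type*} [Group Γ] {p : ℕ} (hp : p.Prime) (W : Subgroup Γ) [W.Normal]
    [Finite (Γ ⧸ W)] (hW : W ≠ ⊤) (hpow : ∀ g : Γ, ∃ j : ℕ, g ^ (p ^ j) ∈ W) :
    (∃ V : Subgroup Γ, W ≤ V ∧ V.index = p) ∧ ∃ V : Subgroup Γ, W ≤ V ∧ W.relIndex V = p := by
  have : Fact p.Prime := ⟨hp⟩
  have hP : IsPGroup p (Γ ⧸ W) := by
    intro x
    obtain ⟨g, rfl⟩ := QuotientGroup.mk_surjective x
    obtain ⟨j, hj⟩ := hpow g
    exact ⟨j, by rw [← QuotientGroup.mk_pow, QuotientGroup.eq_one_iff]; exact hj⟩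
  obtain ⟨k, hk⟩ := IsPGroup.iff_card.1 hP
  have hk0 : k ≠ 0 := by
    rintro rfl
    rw [pow_zero] at hk
    exact hW (Subgroup.index_eq_one.1 hk)
  obtain ⟨k, rfl⟩ := Nat.exists_eq_succ_of_ne_zero hk0
  have hmk : Function.Surjective (QuotientGroup.mk' W) := QuotientGroup.mk'_surjective W
  constructor
  · obtain ⟨K, hK⟩ := Sylow.exists_subgroup_card_pow_prime (G := Γ ⧸ W) p (n := k)
      (by rw [hk]; exact pow_dvd_pow p (Nat.le_succ k))
    refine ⟨K.comap (QuotientGroup.mk' W), ?_, ?_⟩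
    · intro w hw
      rw [Subgroup.mem_comap]
      have : QuotientGroup.mk' W w = 1 := (QuotientGroup.eq_one_iff w).2 hw
      rw [this]
      exact K.one_mem
    · rw [Subgroup.index_comap_of_surjective _ hmk]
      have h1 := K.card_mul_index
      rw [hK, hk, pow_succ] at h1
      exact Nat.eq_of_mul_eq_mul_left (pow_pos hp.pos k) h1
  · obtain ⟨K, hK⟩ := Sylow.exists_subgroup_card_pow_prime (G := Γ ⧸ W) p (n := 1)
      (by rw [hk]; exact pow_dvd_pow p (by omega))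
    have hWV : W ≤ K.comap (QuotientGroup.mk' W) := by
      intro w hw
      rw [Subgroup.mem_comap]
      have : QuotientGroup.mk' W w = 1 := (QuotientGroup.eq_one_iff w).2 hw
      rw [this]
      exact K.one_mem
    refine ⟨K.comap (QuotientGroup.mk' W), hWV, ?_⟩
    have h1 : (K.comap (QuotientGroup.mk' W)).index = K.index :=
      Subgroup.index_comap_of_surjective _ hmk
    have h2 := K.card_mul_index
    rw [hK, pow_one] at h2
    have h3 := Subgroup.relIndex_mul_index hWV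
    rw [h1] at h3
    have h4 : W.index = Nat.card (Γ ⧸ W) := rfl
    have h5 : K.index ≠ 0 := by
      intro h0
      rw [h0, mul_zero] at h2
      rw [hk] at h2
      exact (pow_ne_zero _ hp.ne_zero) h2.symm
    rw [h4, ← h2] at h3
    exact Nat.eq_of_mul_eq_mul_right (Nat.pos_of_ne_zero h5) h3

/-- the index of an open subgroup containing `Gal(Om/ℚ_∞)` is a power of `p`, and subgroups of
index `p` go up -/
theorem layer_up {p : ℕ} (hp : p.Prime) (U : Subgroup GQ) (hU : IsOpen (U : Set GQ))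
    (hPU : PQ p ≤ U) (hne : U ≠ ⊤) :
    ∃ V : Subgroup GQ, U ≤ V ∧ V.Normal ∧ U.Normal ∧ U.relIndex V = p := by
  have hg : IsGalois ℚ Om := U7b_gal
  have hfin : Finite (GQ ⧸ U) := U.quotient_finite_of_isOpen hU
  have hn : U.Normal := U7b_normal (PQ_comm hp) hPU
  obtain ⟨-, V, hUV, hV⟩ := U7b_index hp U hne (U7b_ppow hp U hU hPU)
  exact ⟨V, hUV, U7b_normal (PQ_comm hp) (hPU.trans hUV), hn, hV⟩

/-- every open subgroup `U` containing `Gal(Om/ℚ_∞)` has a character of order `p` which is trivial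
on `Gal(Om/ℚ_∞)` -/
theorem exists_lambda {p : ℕ} (hp : p.Prime) (U : Subgroup GQ) (hU : IsOpen (U : Set GQ))
    (hPU : PQ p ≤ U) :
    ∃ χ : GQ → ZMod p, HomOn U χ ∧ LCOn U χ ∧ (∀ t ∈ PQ p, χ t = 0) ∧ ∃ t ∈ U, χ t ≠ 0 := by
  classical
  have hg : IsGalois ℚ Om := U7b_gal
  have hfact : Fact p.Prime := ⟨hp⟩
  -- a point of U outside PQ
  obtain ⟨u, huU, huP⟩ : ∃ u ∈ U, u ∉ PQ p := by
    by_contra hcon
    push Not at hcon
    have : U = PQ p := le_antisymm hcon hPU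
    exact U7b_not_open hp (this ▸ hU)
  -- an open subgroup W above PQ which does not contain u
  have hPc : IsClosed (PQ p : Set GQ) := InfiniteGalois.fixingSubgroup_isClosed _
  obtain ⟨W, hWo, hPW, huW⟩ : ∃ W : Subgroup GQ, IsOpen (W : Set GQ) ∧ PQ p ≤ W ∧ u ∉ W := by
    have h1 : (PQ p : Set GQ)ᶜ ∈ nhds u := hPc.isOpen_compl.mem_nhds huP
    have h2 : (fun x : GQ => x⁻¹ * u) ⁻¹' (PQ p : Set GQ)ᶜ ∈ nhds (1 : GQ) := by
      refine (continuous_inv.mul continuous_const).continuousAt.preimage_mem_nhds ?_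
      simpa using h1
    obtain ⟨E, hEf, hE⟩ := (krullTopology_mem_nhds_one_iff ℚ Om _).1 h2
    have hEo : IsOpen (E.fixingSubgroup : Set GQ) := E.fixingSubgroup_isOpen
    refine ⟨E.fixingSubgroup ⊔ PQ p, ?_, le_sup_right, ?_⟩
    · exact Subgroup.isOpen_mono le_sup_left hEo
    · intro hmem
      have hPn : (PQ p).Normal := U7b_normal (PQ_comm hp) le_rfl
      obtain ⟨y, hy, z, hz, hyz⟩ := Subgroup.mem_sup_of_normal_right.1 hmem
      have h3 := hE hy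
      apply h3
      show y⁻¹ * u ∈ PQ p
      rw [← hyz, inv_mul_cancel_left]
      exact hz
  -- inside U
  set W' : Subgroup U := W.subgroupOf U with hW'
  have hcommU : ∀ g h : U, g * h * g⁻¹ * h⁻¹ ∈ (PQ p).subgroupOf U := by
    intro g h
    rw [Subgroup.mem_subgroupOf]
    exact PQ_comm hp g h
  have hPW' : (PQ p).subgroupOf U ≤ W' := fun x hx => hPW hx
  have hWn : W'.Normal := U7b_normal hcommU hPW'
  have hUc : IsClosed (U : Set GQ) := Subgroup.isClosed_of_isOpen U hU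
  have hcpt : CompactSpace U := isCompact_iff_compactSpace.1 hUc.isCompact
  have hW'o : IsOpen (W' : Set U) := hWo.preimage continuous_subtype_val
  have hfin : Finite (U ⧸ W') := W'.quotient_finite_of_isOpen hW'o
  have hne : W' ≠ ⊤ := by
    intro htop
    have : (⟨u, huU⟩ : U) ∈ W' := by rw [htop]; trivial
    exact huW this
  have hpow : ∀ g : U, ∃ j : ℕ, g ^ (p ^ j) ∈ W' := by
    intro g
    obtain ⟨j, hj⟩ := U7b_ppow hp W hWo hPW (g : GQ)
    refine ⟨j, ?_⟩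
    rw [hW', Subgroup.mem_subgroupOf]
    simpa using hj
  obtain ⟨⟨V, hWV, hV⟩, -⟩ := U7b_index hp W' hne hpow
  have hVn : V.Normal := U7b_normal hcommU (hPW'.trans hWV)
  have hcard : Nat.card (U ⧸ V) = Nat.card (Multiplicative (ZMod p)) := by
    rw [show Nat.card (U ⧸ V) = V.index from rfl, hV]
    simp
  have e : (U ⧸ V) ≃* Multiplicative (ZMod p) := mulEquivOfPrimeCardEq (p := p)
    (by rw [hcard]; simp) (by simp)
  set f : U →* Multiplicative (ZMod p) := e.toMonoidHom.comp (QuotientGroup.mk' V) with hf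
  have hfV : ∀ x : U, x ∈ V → f x = 1 := by
    intro x hx
    have : QuotientGroup.mk' V x = 1 := (QuotientGroup.eq_one_iff x).2 hx
    rw [hf, MonoidHom.comp_apply, this, map_one]
  refine ⟨fun g => if h : g ∈ U then (f ⟨g, h⟩).toAdd else 0, ?_, ?_, ?_, ?_⟩
  · intro g hg1 h hh
    have hgh : g * h ∈ U := U.mul_mem hg1 hh
    simp only [dif_pos hg1, dif_pos hh, dif_pos hgh]
    rw [← toAdd_mul, ← map_mul]
    rfl
  · refine ⟨W, hWo, ?_⟩
    intro g hg1 w hw hwU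
    have hgw : g * w ∈ U := U.mul_mem hg1 hwU
    simp only [dif_pos hg1, dif_pos hgw]
    have h1 : (⟨g * w, hgw⟩ : U) = ⟨g, hg1⟩ * ⟨w, hwU⟩ := rfl
    rw [h1, map_mul, hfV ⟨w, hwU⟩ (hWV hw), mul_one]
  · intro t ht
    simp only [dif_pos (hPU ht)]
    rw [hfV ⟨t, hPU ht⟩ (hWV (hPW' ht))]
    rfl
  · have hsurj : Function.Surjective f := e.surjective.comp (QuotientGroup.mk'_surjective V)
    obtain ⟨x, hx⟩ := hsurj (Multiplicative.ofAdd (1 : ZMod p))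
    refine ⟨x.1, x.2, ?_⟩
    simp only [dif_pos x.2]
    rw [show (⟨x.1, x.2⟩ : U) = x from rfl, hx]
    have : Nontrivial (ZMod p) := ZMod.nontrivial p
    exact one_ne_zero

end OzakiFree
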