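import Pool.Agent.Lib.MP_6e8030_nt.UBase
import Pool.Agent.Lib.MP_6e8030_nt.R5
import Pool.Agent.Lib.MP_6e8030_nt.E1
import Pool.Agent.Lib.MP_6e8030_nt.E9
import Pool.Agent.Lib.MP_6e8030_nt.U6b
import Pool.Agent.Lib.MP_6e8030_nt.U7a
import Pool.Agent.Lib.MP_6e8030_nt.U7b

open IntermediateField
open scoped ComplexConjugate

noncomputable section

namespace OzakiFree

/-! ### U7c: `p` does not divide the class numbers of the layers of `ℚ_∞` -/

private theorem U7c_gal : IsGalois ℚ Om := by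
  have : IsAlgClosure ℚ Om := instAlgClosureOm
  exact IsAlgClosure.isGalois ℚ Om

private theorem U7c_int_mem {l : ℕ} (hl : l.Prime) (B : Ideal ZO) (hB : B.IsMaximal)
    (hlB : (l : ZO) ∈ B) (n : ℤ) : (n : ZO) ∈ B ↔ (l : ℤ) ∣ n := by
  constructor
  · intro h
    by_contra hn
    have hcop : IsCoprime (l : ℤ) n :=
      (Prime.coprime_iff_not_dvd (Nat.prime_iff_prime_int.1 hl)).2 hn
    obtain ⟨a, b, hab⟩ := hcop
    apply hB.ne_top
    rw [Ideal.eq_top_iff_one]
    have h1 : (1 : ZO) = (a : ZO) * (l : ZO) + (b : ZO) * (n : ZO) := by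
      exact_mod_cast (congrArg (Int.cast : ℤ → ZO) hab).symm
    rw [h1]
    exact B.add_mem (B.mul_mem_left _ hlB) (B.mul_mem_left _ h)
  · rintro ⟨m, rfl⟩
    push_cast
    exact B.mul_mem_right _ hlB

private theorem U7c_bot_int (z : ZO) (hz : (z : Om) ∈ (⊥ : IntermediateField ℚ Om)) :
    ∃ n : ℤ, z = (n : ZO) := by
  obtain ⟨r, hr⟩ := IntermediateField.mem_bot.1 hz
  have h1 : IsIntegral ℤ (algebraMap ℚ Om r) := by
    rw [hr]
    exact z.2
  have h2 : IsIntegral ℤ r := by
    have hinj : Function.Injective (algebraMap ℚ Om) := (algebraMap ℚ Om).injective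
    exact (isIntegral_algebraMap_iff (R := ℤ) (A := ℚ) (B := Om) hinj).1 h1
  obtain ⟨n, hn⟩ := IsIntegrallyClosed.isIntegral_iff.1 h2
  refine ⟨n, Subtype.ext ?_⟩
  rw [← hr, ← hn]
  simp

private theorem U7c_bot_comap {l : ℕ} (hl : l.Prime) (B B' : Ideal ZO) (hB : B.IsMaximal)
    (hlB : (l : ZO) ∈ B) (hB' : B'.IsMaximal) (hlB' : (l : ZO) ∈ B') :
    B.comap (iota ⊥) = B'.comap (iota ⊥) := by
  ext w
  rw [Ideal.mem_comap, Ideal.mem_comap]
  obtain ⟨n, hn⟩ := U7c_bot_int (iota ⊥ w) (ZF_val_mem w)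
  rw [hn, U7c_int_mem hl B hB hlB, U7c_int_mem hl B' hB' hlB']

/-- the class number of `ℚ` -/
private theorem U7c_bot [FiniteDimensional ℚ (⊥ : IntermediateField ℚ Om)] :
    NumberField.classNumber (FL (⊥ : IntermediateField ℚ Om)) = 1 := by
  rw [NumberField.classNumber_eq_one_iff]
  refine IsPrincipalIdealRing.of_surjective
    (Int.castRingHom (NumberField.RingOfIntegers (FL (⊥ : IntermediateField ℚ Om)))) ?_
  intro w
  obtain ⟨n, hn⟩ := U7c_bot_int (iota ⊥ (w : ZF ⊥)) (ZF_val_mem _)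
  refine ⟨n, ?_⟩
  refine ZF_val_inj (F := ⊥) _ _ ?_
  have h1 := congrArg (Subtype.val : ZO → Om) hn
  have h2 : (((n : ZO)) : Om) = (n : Om) := by push_cast; rfl
  rw [h2] at h1
  have h3 : ZF.val (F := ⊥) (w : ZF ⊥) = (n : Om) := h1
  rw [h3]
  have h4 : iota ⊥ ((n : ZF ⊥)) = (n : ZO) := map_intCast (iota ⊥) n
  have h5 := congrArg (Subtype.val : ZO → Om) h4
  rw [h2] at h5
  exact h5

private theorem U7c_inertia_pow (B : Ideal ZO) (σ : GQ) (h : σ ∈ B.inertia GQ) (i : ℕ) (x : ZO) :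
    σ ^ i • x ∈ B ↔ x ∈ B := by
  have h1 : σ ^ i ∈ B.inertia GQ := Subgroup.pow_mem _ h i
  have h2 : σ ^ i • x - x ∈ B := (AddSubgroup.mem_inertia.1 h1) x
  constructor
  · intro h3
    have := B.sub_mem h3 h2
    rwa [sub_sub_cancel] at this
  · intro h3
    have := B.add_mem h2 h3
    rwa [sub_add_cancel] at this

private theorem U7c_main {p : ℕ} (hp : p.Prime) (n : ℕ) :
    ∀ (D : IntermediateField ℚ Om) [FiniteDimensional ℚ D], Module.finrank ℚ D = n →
      D ≤ cycZp p ⊥ → ¬ p ∣ NumberField.classNumber (FL D) := by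
  have hg : IsGalois ℚ Om := U7c_gal
  obtain ⟨B, σ₀, hB, hpB, hσ₀, hgen⟩ := exists_sigma hp
  induction n using Nat.strong_induction_on with
  | _ n ih =>
  intro D hfin hn hD
  by_cases hbot : D = ⊥
  · subst hbot
    rw [U7c_bot]
    exact fun h => hp.one_lt.ne' (Nat.dvd_one.1 h)
  have hPU : PQ p ≤ D.fixingSubgroup := IntermediateField.fixingSubgroup_antitone hD
  have hUopen : IsOpen (D.fixingSubgroup : Set GQ) := D.fixingSubgroup_isOpen
  have hne : D.fixingSubgroup ≠ ⊤ := by
    intro h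
    apply hbot
    rw [← InfiniteGalois.fixedField_fixingSubgroup D, h, ← IntermediateField.fixingSubgroup_bot,
      InfiniteGalois.fixedField_fixingSubgroup]
  obtain ⟨V, hUV, hVn, hUn, hidx⟩ := layer_up hp D.fixingSubgroup hUopen hPU hne
  have hVopen : IsOpen (V : Set GQ) := Subgroup.isOpen_mono hUV hUopen
  have hVclosed : IsClosed (V : Set GQ) := Subgroup.isClosed_of_isOpen _ hVopen
  set D1 : IntermediateField ℚ Om := IntermediateField.fixedField V with hD1
  have hfix : D1.fixingSubgroup = V := InfiniteGalois.fixingSubgroup_fixedField ⟨V, hVclosed⟩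
  have hle : D1 ≤ D := by
    have h3 := IntermediateField.fixedField_antitone (F := ℚ) (E := Om) hUV
    rwa [InfiniteGalois.fixedField_fixingSubgroup] at h3
  have hfin1 : FiniteDimensional ℚ D1 := by
    rw [← InfiniteGalois.isOpen_iff_finite, hfix]
    exact hVopen
  have hindD : Module.finrank ℚ D = D.fixingSubgroup.index :=
    IntermediateField.finrank_eq_fixingSubgroup_index _ D
  have hindD1 : Module.finrank ℚ D1 = V.index := by
    rw [← hfix]
    exact IntermediateField.finrank_eq_fixingSubgroup_index _ D1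
  have hmul : p * V.index = D.fixingSubgroup.index := by
    rw [← hidx]
    exact Subgroup.relIndex_mul_index hUV
  have hVpos : 0 < V.index := by
    rw [← hindD1]
    exact Module.finrank_pos
  have hlt : Module.finrank ℚ D1 < n := by
    rw [← hn, hindD1, hindD, ← hmul]
    have := hp.two_le
    nlinarith
  have hrel : relfinrank D1 D = p := by
    have h1 := IntermediateField.relfinrank_mul_relfinrank (bot_le : ⊥ ≤ D1) hle
    rw [IntermediateField.relfinrank_bot_left, IntermediateField.relfinrank_bot_left, hindD, hindD1,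
      ← hmul, mul_comm p] at h1
    exact Nat.eq_of_mul_eq_mul_left hVpos h1
  have hstable : ∀ (t : GQ), ∀ x ∈ D, t x ∈ D := by
    intro t x hx
    rw [← InfiniteGalois.fixedField_fixingSubgroup D]
    refine (IntermediateField.mem_fixedField_iff _ _).2 fun u hu => ?_
    have h1 : t⁻¹ * u * t ∈ D.fixingSubgroup := by
      have := hUn.conj_mem u hu t⁻¹
      rwa [inv_inv] at this
    have h2 := (IntermediateField.mem_fixingSubgroup_iff D _).1 h1 x hx
    have h3 := congrArg t h2
    have h4 : t ((t⁻¹ * u * t) x) = u (t x) := by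
      show t (t⁻¹ (u (t x))) = u (t x)
      exact t.apply_symm_apply _
    rwa [h4] at h3
  have hcyc : CycDM p D1 D := ⟨hle, hrel, fun t _ x hx => hstable t x hx⟩
  have hreal : TotReal D := by
    intro φ c hc
    apply hPU
    rw [mem_PQ_iff hp]
    refine ⟨2, two_pos, ?_⟩
    intro ζ _
    rw [pow_two, AlgEquiv.mul_apply]
    apply φ.injective
    rw [hc, hc, Complex.conj_conj]
  have hone : OneRam D1 D B := by
    intro B' hB' t ht htD1 htD
    have hpB' : (p : ZO) ∈ B' := by
      by_contra hcon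
      apply htD
      apply hPU
      rw [mem_PQ_iff hp]
      refine ⟨1, one_pos, ?_⟩
      intro ζ hζ
      rw [pow_one]
      exact inertia_fix_mu hp B' hB' hcon t ht ζ hζ
    obtain ⟨g, -, hgB⟩ := trans_F ⊥ B B' hB hB' (U7c_bot_comap hp B B' hB hpB hB' hpB')
    obtain ⟨i, hi⟩ := hgen D1.fixingSubgroup (D1.fixingSubgroup_isOpen) g
    have hi2 : σ₀ ^ i * g ∈ D1.fixingSubgroup := by
      have h1 : PQ p ⊔ D1.fixingSubgroup ≤ D1.fixingSubgroup :=
        sup_le (by rw [hfix]; exact hPU.trans hUV) le_rfl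
      exact h1 hi
    ext w
    rw [Ideal.mem_comap, Ideal.mem_comap, hgB, ← U7c_inertia_pow B σ₀ hσ₀ i, smul_smul]
    have h5 : (σ₀ ^ i * g) • iota D1 w = iota D1 w := by
      apply Subtype.ext
      exact (IntermediateField.mem_fixingSubgroup_iff D1 _).1 hi2 _ (ZF_val_mem w)
    rw [h5]
  exact class_up hp D1 D hcyc hreal
    (ih _ hlt D1 rfl (hle.trans hD)) B hB hone

theorem class_layer {p : ℕ} (hp : p.Prime) (D : IntermediateField ℚ Om) [FiniteDimensional ℚ D]
    (hD : D ≤ cycZp p ⊥) : ¬ p ∣ NumberField.classNumber (FL D) :=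
  U7c_main hp _ D rfl hD

end OzakiFree
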