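import Pool.Agent.Lib.MP_6e8030_nt.Base

noncomputable section

namespace OzakiFree

private theorem U8_zero {Γ : Type*} [Group Γ] {P : Subgroup Γ} {p : ℕ} {χ : Γ → ZMod p}
    (h : HomOn P χ) : χ 1 = 0 := by
  have h1 := h 1 P.one_mem 1 P.one_mem
  rw [mul_one] at h1
  simpa using h1

private theorem U8_pow {Γ : Type*} [Group Γ] {P : Subgroup Γ} {p : ℕ} {χ : Γ → ZMod p}
    (h : HomOn P χ) {g : Γ} (hg : g ∈ P) (h0 : χ g = 0) (n : ℕ) : χ (g ^ n) = 0 := by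
  induction n with
  | zero => rw [pow_zero]; exact U8_zero h
  | succ n ih => rw [pow_succ, h _ (P.pow_mem hg n) _ hg, ih, h0, add_zero]

theorem extend_char {Γ : Type*} [Group Γ] [TopologicalSpace Γ] [IsTopologicalGroup Γ] {p : ℕ}
    (hp : p.Prime) (P A : Subgroup Γ) (hP : P.Normal) (hPA : P ≤ A) (hA : IsOpen (A : Set Γ))
    (hcomm : ∀ g h : Γ, g * h * g⁻¹ * h⁻¹ ∈ P)
    (σ : Γ) (hσA : σ ∈ A)
    (hσ : ∀ V : Subgroup Γ, IsOpen (V : Set Γ) → ∀ a ∈ A, ∃ i : ℕ, σ ^ i * a ∈ P ⊔ V)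
    (hlam : ∀ U : Subgroup Γ, IsOpen (U : Set Γ) → P ≤ U → U ≤ A →
      ∃ χ : Γ → ZMod p, HomOn U χ ∧ LCOn U χ ∧ (∀ t ∈ P, χ t = 0) ∧ ∃ t ∈ U, χ t ≠ 0)
    (hnormal : ∀ V : Subgroup Γ, IsOpen (V : Set Γ) →
      ∃ W : Subgroup Γ, IsOpen (W : Set Γ) ∧ W ≤ V ∧ W.Normal ∧ W.FiniteIndex)
    (θ : Γ → ZMod p) (h1 : HomOn P θ) (h2 : LCOn P θ)
    (hinv : ∀ a ∈ A, ∀ t ∈ P, θ (a * t * a⁻¹) = θ t) :
    ∃ θ' : Γ → ZMod p, HomOn A θ' ∧ LCOn A θ' ∧ (∀ t ∈ P, θ' t = θ t) ∧ θ' σ = 0 := by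
  classical
  have : Fact p.Prime := ⟨hp⟩
  obtain ⟨V, hVo, hV⟩ := h2
  obtain ⟨W, hWo, hWVA, hWn, hWf⟩ := hnormal (V ⊓ A) (hVo.inter hA)
  have hWV : W ≤ V := hWVA.trans inf_le_left
  have hWA : W ≤ A := hWVA.trans inf_le_right
  have hker : ∀ x ∈ P, x ∈ W → θ x = 0 := by
    intro x hx hxW
    have h3 := hV 1 P.one_mem x (hWV hxW) hx
    rw [one_mul] at h3
    rw [h3]
    exact U8_zero h1
  set U : Subgroup Γ := P ⊔ W with hU
  have hmemU : ∀ g : Γ, g ∈ U ↔ ∃ x ∈ P, ∃ w ∈ W, x * w = g := by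
    intro g
    rw [hU, Subgroup.mem_sup_of_normal_right]
  have hPU : P ≤ U := le_sup_left
  have hWU : W ≤ U := le_sup_right
  have hUA : U ≤ A := sup_le hPA hWA
  have hUo : IsOpen (U : Set Γ) := Subgroup.isOpen_mono hWU hWo
  -- the extension to `U`
  let θU : Γ → ZMod p := fun g =>
    if h : ∃ x ∈ P, ∃ w ∈ W, x * w = g then θ h.choose else 0
  have hθU : ∀ x ∈ P, ∀ w ∈ W, θU (x * w) = θ x := by
    intro x hx w hw
    have hex : ∃ x' ∈ P, ∃ w' ∈ W, x' * w' = x * w := ⟨x, hx, w, hw, rfl⟩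
    have h3 : θU (x * w) = θ hex.choose := dif_pos hex
    rw [h3]
    obtain ⟨hx', w', hw', he⟩ := hex.choose_spec
    set x' := hex.choose
    have h4 : x'⁻¹ * x = w' * w⁻¹ := by
      rw [eq_mul_inv_iff_mul_eq, mul_assoc, ← he]
      group
    have h5 : θ (x'⁻¹ * x) = 0 := hker _ (P.mul_mem (P.inv_mem hx') hx)
      (h4 ▸ W.mul_mem hw' (W.inv_mem hw))
    have h6 : x = x' * (x'⁻¹ * x) := by group
    rw [h6, h1 x' hx' _ (P.mul_mem (P.inv_mem hx') hx), h5, add_zero]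
  have hθUhom : HomOn U θU := by
    intro g hg h hh
    obtain ⟨x, hx, w, hw, rfl⟩ := (hmemU g).1 hg
    obtain ⟨y, hy, v, hv, rfl⟩ := (hmemU h).1 hh
    have h3 : x * w * (y * v) = (x * y) * ((y⁻¹ * w * y⁻¹⁻¹) * v) := by group
    rw [h3, hθU _ (P.mul_mem hx hy) _ (W.mul_mem (hWn.conj_mem w hw y⁻¹) hv), hθU x hx w hw,
      hθU y hy v hv, h1 x hx y hy]
  have hθUinv : ∀ a ∈ A, ∀ u ∈ U, θU (a * u * a⁻¹) = θU u := by
    intro a ha u hu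
    obtain ⟨x, hx, w, hw, rfl⟩ := (hmemU u).1 hu
    have h3 : a * (x * w) * a⁻¹ = (a * x * a⁻¹) * (a * w * a⁻¹) := by group
    rw [h3, hθU _ (hP.conj_mem x hx a) _ (hWn.conj_mem w hw a), hθU x hx w hw, hinv a ha x hx]
  have hθUW : ∀ g ∈ U, ∀ u ∈ W, θU (g * u) = θU g := by
    intro g hg u hu
    obtain ⟨x, hx, w, hw, rfl⟩ := (hmemU g).1 hg
    rw [mul_assoc, hθU x hx _ (W.mul_mem hw hu), hθU x hx w hw]
  have hθUP : ∀ x ∈ P, θU x = θ x := by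
    intro x hx
    have h3 := hθU x hx 1 W.one_mem
    rwa [mul_one] at h3
  -- the least power of `σ` in `U`
  have hex : ∃ m : ℕ, 0 < m ∧ σ ^ m ∈ U := by
    obtain ⟨k, hk0, -, hk⟩ := W.exists_pow_mem_of_index_ne_zero hWf.index_ne_zero σ
    exact ⟨k, hk0, hWU hk⟩
  obtain ⟨hm0, hm⟩ := Nat.find_spec hex
  set m := Nat.find hex with hmdef
  have hmin : ∀ i : ℕ, σ ^ i ∈ U → m ∣ i := by
    intro i hi
    rw [Nat.dvd_iff_mod_eq_zero]
    by_contra h0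
    have h3 : σ ^ (i % m) ∈ U := by
      have h4 : σ ^ i = σ ^ (m * (i / m)) * σ ^ (i % m) := by
        rw [← pow_add, Nat.div_add_mod]
      have h5 : σ ^ (m * (i / m)) ∈ U := by
        rw [pow_mul]
        exact U.pow_mem hm _
      rw [h4] at hi
      exact (U.mul_mem_cancel_left h5).1 hi
    exact Nat.find_min hex (m := i % m) (Nat.mod_lt _ hm0) ⟨Nat.pos_of_ne_zero h0, h3⟩
  obtain ⟨χ, hχ, ⟨Vχ, hVχo, hVχ⟩, hχP, t, ht, hχt⟩ := hlam U hUo hPU hUA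
  have hχm : χ (σ ^ m) ≠ 0 := by
    intro h0
    apply hχt
    obtain ⟨W', hW'o, hW'V, hW'n, -⟩ := hnormal (Vχ ⊓ U) (hVχo.inter hUo)
    obtain ⟨i, hi⟩ := hσ W' hW'o t (hUA ht)
    rw [Subgroup.mem_sup_of_normal_right] at hi
    obtain ⟨x, hx, w, hw, he⟩ := hi
    have hwU : w ∈ U := (hW'V hw).2
    have hiU : σ ^ i ∈ U := by
      have h3 : σ ^ i = x * w * t⁻¹ := by rw [he]; group
      rw [h3]
      exact U.mul_mem (U.mul_mem (hPU hx) hwU) (U.inv_mem ht)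
    obtain ⟨k, rfl⟩ := hmin i hiU
    have h4 : χ (σ ^ (m * k)) = 0 := by
      rw [pow_mul]
      exact U8_pow hχ hm h0 k
    have h5 : χ (σ ^ (m * k) * t) = χ t := by rw [hχ _ hiU _ ht, h4, zero_add]
    rw [← h5, ← he, hVχ x (hPU hx) w (hW'V hw).1 hwU]
    exact hχP x hx
  -- the corrected extension to `U`
  let c : ZMod p := θU (σ ^ m) / χ (σ ^ m)
  let η : Γ → ZMod p := fun g => θU g - c * χ g
  have hη : HomOn U η := by
    intro g hg h hh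
    change θU (g * h) - c * χ (g * h) = (θU g - c * χ g) + (θU h - c * χ h)
    rw [hθUhom g hg h hh, hχ g hg h hh]
    ring
  have hηm : η (σ ^ m) = 0 := by
    change θU (σ ^ m) - θU (σ ^ m) / χ (σ ^ m) * χ (σ ^ m) = 0
    rw [div_mul_cancel₀ _ hχm, sub_self]
  have hconjU : ∀ a u : Γ, u ∈ U → a * u * a⁻¹ ∈ U := by
    intro a u hu
    have h3 : a * u * a⁻¹ = (a * u * a⁻¹ * u⁻¹) * u := by group
    rw [h3]
    exact U.mul_mem (hPU (hcomm a u)) hu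
  have hηinv : ∀ a ∈ A, ∀ u ∈ U, η (a * u * a⁻¹) = η u := by
    intro a ha u hu
    change θU (a * u * a⁻¹) - c * χ (a * u * a⁻¹) = θU u - c * χ u
    have h3 : a * u * a⁻¹ = (a * u * a⁻¹ * u⁻¹) * u := by group
    have h4 : χ (a * u * a⁻¹) = χ u := by
      rw [h3, hχ _ (hPU (hcomm a u)) u hu, hχP _ (hcomm a u), zero_add]
    rw [hθUinv a ha u hu, h4]
  have hηLC : ∀ g ∈ U, ∀ u ∈ W ⊓ Vχ, η (g * u) = η g := by
    intro g hg u hu
    change θU (g * u) - c * χ (g * u) = θU g - c * χ g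
    rw [hθUW g hg u hu.1, hVχ g hg u hu.2 (hWU hu.1)]
  have hηP : ∀ x ∈ P, η x = θ x := by
    intro x hx
    change θU x - c * χ x = θ x
    rw [hθUP x hx, hχP x hx, mul_zero, sub_zero]
  have hηpow : ∀ i : ℕ, σ ^ i ∈ U → η (σ ^ i) = 0 := by
    intro i hi
    obtain ⟨k, rfl⟩ := hmin i hi
    rw [pow_mul]
    exact U8_pow hη hm hηm k
  -- the extension to `A`
  have hexi : ∀ a ∈ A, ∃ i : ℕ, σ ^ i * a ∈ U := fun a ha => hσ W hWo a ha
  let θ' : Γ → ZMod p := fun a => if h : ∃ i : ℕ, σ ^ i * a ∈ U then η (σ ^ h.choose * a) else 0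
  have hindep : ∀ (a : Γ) (i k : ℕ), σ ^ i * a ∈ U → σ ^ (k + i) * a ∈ U →
      η (σ ^ (k + i) * a) = η (σ ^ i * a) := by
    intro a i k hi hk
    rw [pow_add, mul_assoc] at hk ⊢
    have h3 : σ ^ k ∈ U := (U.mul_mem_cancel_right hi).1 hk
    rw [hη _ h3 _ hi, hηpow k h3, zero_add]
  have hθ' : ∀ (a : Γ) (i : ℕ), σ ^ i * a ∈ U → θ' a = η (σ ^ i * a) := by
    intro a i hi
    have hex' : ∃ i : ℕ, σ ^ i * a ∈ U := ⟨i, hi⟩
    have h3 : θ' a = η (σ ^ hex'.choose * a) := dif_pos hex'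
    rw [h3]
    have h4 := hex'.choose_spec
    set j := hex'.choose
    rcases le_total i j with hij | hij
    · obtain ⟨k, hk⟩ := Nat.exists_eq_add_of_le' hij
      rw [hk] at h4 ⊢
      exact hindep a i k hi h4
    · obtain ⟨k, hk⟩ := Nat.exists_eq_add_of_le' hij
      rw [hk] at hi ⊢
      exact (hindep a j k h4 hi).symm
  refine ⟨θ', ?_, ⟨W ⊓ Vχ, hWo.inter hVχo, ?_⟩, ?_, ?_⟩
  · intro a ha b hb
    obtain ⟨i, hi⟩ := hexi a ha
    obtain ⟨j, hj⟩ := hexi b hb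
    have h3 : σ ^ (j + i) * (a * b) = (σ ^ j * (σ ^ i * a) * (σ ^ j)⁻¹) * (σ ^ j * b) := by
      rw [pow_add]; group
    have h4 := hconjU (σ ^ j) (σ ^ i * a) hi
    rw [hθ' (a * b) (j + i) (by rw [h3]; exact U.mul_mem h4 hj), h3, hη _ h4 _ hj,
      hηinv _ (A.pow_mem hσA j) _ hi, hθ' a i hi, hθ' b j hj]
  · intro a ha u hu _
    obtain ⟨i, hi⟩ := hexi a ha
    have h3 : σ ^ i * (a * u) ∈ U := by
      rw [← mul_assoc]
      exact U.mul_mem hi (hWU hu.1)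
    rw [hθ' (a * u) i h3, hθ' a i hi, ← mul_assoc]
    exact hηLC _ hi u hu
  · intro x hx
    rw [hθ' x 0 (by rw [pow_zero, one_mul]; exact hPU hx), pow_zero, one_mul]
    exact hηP x hx
  · have h3 : σ ^ (m - 1) * σ = σ ^ m := by
      rw [← pow_succ, Nat.sub_add_cancel hm0]
    rw [hθ' σ (m - 1) (by rw [h3]; exact hm), h3, hηm]

end OzakiFree
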