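import Pool.Agent.Lib.MP_6e8030_nt.UBase

open IntermediateField
open scoped ComplexConjugate

noncomputable section

namespace OzakiFree

private theorem U9_isOpen {G : Type*} [Group G] [TopologicalSpace G] [IsTopologicalGroup G]
    (U : Subgroup G) (hU : IsOpen (U : Set G)) (S : Set G) (h : ∀ g ∈ S, ∀ u ∈ U, g * u ∈ S) :
    IsOpen S := by
  rw [isOpen_iff_mem_nhds]
  intro g hg
  have h1 : IsOpen ((fun x => g⁻¹ * x) ⁻¹' (U : Set G)) := hU.preimage (continuous_const_mul g⁻¹)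
  refine Filter.mem_of_superset (h1.mem_nhds (by simp)) fun y hy => ?_
  have := h g hg _ hy
  simpa using this

private theorem U9_isClosed {G : Type*} [Group G] [TopologicalSpace G] [IsTopologicalGroup G]
    (U : Subgroup G) (hU : IsOpen (U : Set G)) (S : Set G) (h : ∀ g ∈ S, ∀ u ∈ U, g * u ∈ S) :
    IsClosed S := by
  rw [← isOpen_compl_iff]
  refine U9_isOpen U hU _ fun g hg u hu hgu => hg ?_
  have := h _ hgu _ (U.inv_mem hu)
  simpa using this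

private theorem U9_inertia_closed (B : Ideal (integralClosure ℤ Om)) :
    IsClosed (B.inertia GQ : Set GQ) := by
  have h1 : (B.inertia GQ : Set GQ) = ⋂ x : integralClosure ℤ Om, {σ : GQ | σ • x - x ∈ B} := by
    ext σ
    rw [Set.mem_iInter]
    exact Iff.rfl
  rw [h1]
  refine isClosed_iInter fun x => ?_
  refine U9_isClosed _ (stabilizer_isOpen_of_isIntegral (x : Om) :
    IsOpen (MulAction.stabilizer GQ (x : Om) : Set GQ)) _ fun g hg u hu => ?_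
  have h2 : u • x = x := by
    apply Subtype.ext
    rw [integralClosure.coe_smul]
    exact hu
  change (g * u) • x - x ∈ B
  rw [mul_smul, h2]
  exact hg

/-- an element which lies in `PQ p ⊔ V` for all open `V` lies in `PQ p` -/
private theorem U9_mem_PQ {p : ℕ} (g : GQ)
    (h : ∀ V : Subgroup GQ, IsOpen (V : Set GQ) → g ∈ PQ p ⊔ V) : g ∈ PQ p := by
  rw [PQ, IntermediateField.mem_fixingSubgroup_iff]
  intro x hx
  have hV : IsOpen (MulAction.stabilizer GQ x : Set GQ) := stabilizer_isOpen_of_isIntegral x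
  have h1 := h _ hV
  have h2 : PQ p ⊔ MulAction.stabilizer GQ x ≤ MulAction.stabilizer GQ x := by
    refine sup_le ?_ le_rfl
    intro t ht
    rw [MulAction.mem_stabilizer_iff]
    exact (IntermediateField.mem_fixingSubgroup_iff _ _).1 ht x hx
  exact h2 h1

private theorem U9_lift (p : ℕ) (A : Subgroup GQ) (σ t : GQ) (htA : t ∈ A)
    (hσ : ∀ V : Subgroup GQ, IsOpen (V : Set GQ) → ∀ a ∈ A, ∃ i : ℕ, σ ^ i * a ∈ PQ p ⊔ V) :
    ∃ ρ ∈ closure (Set.range fun n : ℕ => σ ^ n), ρ * t ∈ PQ p := by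
  let ι := {V : Subgroup GQ // IsOpen (V : Set GQ)}
  let C : ι → Set GQ := fun V =>
    closure (Set.range fun n : ℕ => σ ^ n) ∩ {ρ | ρ * t ∈ PQ p ⊔ V.1}
  have hC : ∀ V, IsClosed (C V) := by
    intro V
    refine isClosed_closure.inter ?_
    have h1 : IsOpen ((PQ p ⊔ V.1 : Subgroup GQ) : Set GQ) := Subgroup.isOpen_mono le_sup_right V.2
    exact (Subgroup.isClosed_of_isOpen _ h1).preimage (continuous_mul_const t)
  have hne : ∀ V, (C V).Nonempty := by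
    intro V
    obtain ⟨i, hi⟩ := hσ V.1 V.2 t htA
    exact ⟨σ ^ i, subset_closure ⟨i, rfl⟩, hi⟩
  have hdir : Directed (fun a b : Set GQ => b ⊆ a) C := by
    intro V W
    refine ⟨⟨V.1 ⊓ W.1, V.2.inter W.2⟩, ?_, ?_⟩
    · rintro ρ ⟨h1, h2⟩
      exact ⟨h1, (sup_le_sup_left inf_le_left _ : PQ p ⊔ (V.1 ⊓ W.1) ≤ PQ p ⊔ V.1) h2⟩
    · rintro ρ ⟨h1, h2⟩
      exact ⟨h1, (sup_le_sup_left inf_le_right _ : PQ p ⊔ (V.1 ⊓ W.1) ≤ PQ p ⊔ W.1) h2⟩
  have hcomp : CompactSpace GQ := inferInstance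
  have : Nonempty ι := ⟨⟨⊤, isOpen_univ⟩⟩
  obtain ⟨ρ, hρ⟩ := IsCompact.nonempty_iInter_of_directed_nonempty_isCompact_isClosed C hdir hne
    (fun V => (hC V).isCompact) hC
  rw [Set.mem_iInter] at hρ
  refine ⟨ρ, (hρ ⟨⊤, isOpen_univ⟩).1, U9_mem_PQ _ fun V hV => ?_⟩
  exact (hρ ⟨V, hV⟩).2

private theorem U9_pow {p : ℕ} {A : Subgroup GQ} {θ : GQ → ZMod p} (h1 : HomOn A θ) {σ : GQ}
    (hσA : σ ∈ A) (hσ0 : θ σ = 0) : ∀ n : ℕ, θ (σ ^ n) = 0 := by
  intro n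
  induction n with
  | zero =>
    have h2 := h1 1 A.one_mem 1 A.one_mem
    rw [mul_one] at h2
    rw [pow_zero]
    exact left_eq_add.1 h2
  | succ n ih =>
    rw [pow_succ, h1 _ (A.pow_mem hσA n) _ hσA, ih, hσ0, add_zero]

/-! ### U9: inertia at `p` -/

theorem vanish_p {p : ℕ} (hp : p.Prime) (A : Subgroup GQ) (hPA : PQ p ≤ A)
    (hA : IsOpen (A : Set GQ)) (B : Ideal ZO) (hB : B.IsMaximal) (hpB : (p : ZO) ∈ B) (σ : GQ)
    (hσB : σ ∈ B.inertia GQ) (hσA : σ ∈ A)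
    (hσ : ∀ V : Subgroup GQ, IsOpen (V : Set GQ) → ∀ a ∈ A, ∃ i : ℕ, σ ^ i * a ∈ PQ p ⊔ V)
    (θ : GQ → ZMod p) (h1 : HomOn A θ) (h2 : LCOn A θ) (hσ0 : θ σ = 0)
    (h0 : ∀ t ∈ B.inertia GQ, t ∈ PQ p → θ t = 0) :
    ∀ t ∈ B.inertia GQ, t ∈ A → θ t = 0 := by
  intro t htB htA
  obtain ⟨ρ, hρ, hρt⟩ := U9_lift p A σ t htA hσ
  have hρB : ρ ∈ B.inertia GQ := by
    have h3 : closure (Set.range fun n : ℕ => σ ^ n) ⊆ (B.inertia GQ : Set GQ) :=
      closure_minimal (by rintro _ ⟨n, rfl⟩; exact (B.inertia GQ).pow_mem hσB n)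
        (U9_inertia_closed B)
    exact h3 hρ
  have hρA : ρ ∈ A := by
    have h3 : closure (Set.range fun n : ℕ => σ ^ n) ⊆ (A : Set GQ) :=
      closure_minimal (by rintro _ ⟨n, rfl⟩; exact A.pow_mem hσA n)
        (Subgroup.isClosed_of_isOpen A hA)
    exact h3 hρ
  have hρ0 : θ ρ = 0 := by
    obtain ⟨U, hU, hUθ⟩ := h2
    have h4 : IsOpen ((fun x => ρ⁻¹ * x) ⁻¹' (U : Set GQ)) := hU.preimage (continuous_const_mul ρ⁻¹)
    obtain ⟨x, hx1, n, hx2⟩ := mem_closure_iff.1 hρ _ h4 (by simp)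
    have hx3 : θ x = 0 := by
      rw [← hx2]
      exact U9_pow h1 hσA hσ0 n
    have hxA : x ∈ A := by
      rw [← hx2]
      exact A.pow_mem hσA n
    have h5 := hUθ ρ hρA (ρ⁻¹ * x) hx1 (A.mul_mem (A.inv_mem hρA) hxA)
    rw [mul_inv_cancel_left] at h5
    rw [← h5, hx3]
  have h6 : θ (ρ * t) = 0 := h0 _ ((B.inertia GQ).mul_mem hρB htB) hρt
  rw [h1 ρ hρA t htA, hρ0, zero_add] at h6
  exact h6

end OzakiFree
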