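import Pool.Agent.Lib.MP_6e8030_nt.U1
import Pool.Agent.Lib.MP_6e8030_nt.U2a
import Pool.Agent.Lib.MP_6e8030_nt.U2b
import Pool.Agent.Lib.MP_6e8030_nt.U3
import Pool.Agent.Lib.MP_6e8030_nt.U4
import Pool.Agent.Lib.MP_6e8030_nt.U5
import Pool.Agent.Lib.MP_6e8030_nt.U6a
import Pool.Agent.Lib.MP_6e8030_nt.U6b
import Pool.Agent.Lib.MP_6e8030_nt.U7a
import Pool.Agent.Lib.MP_6e8030_nt.U7b
import Pool.Agent.Lib.MP_6e8030_nt.U7c
import Pool.Agent.Lib.MP_6e8030_nt.U8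
import Pool.Agent.Lib.MP_6e8030_nt.U9
import Pool.Agent.Lib.MP_6e8030_nt.U10
import Pool.Agent.Lib.MP_6e8030_nt.U11
import Pool.Agent.Lib.MP_6e8030_nt.U12
import Pool.Agent.Lib.MP_6e8030_nt.U13
import Pool.Agent.Lib.MP_6e8030_nt.U14
import Pool.Agent.Lib.MP_6e8030_nt.U15
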