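import Pool.Agent.Lib.MP_6e8030_nt.EDefs

open IntermediateField
open scoped ComplexConjugate

noncomputable section

namespace OzakiFree

/-- The prime ideals `q` of `F` of degree one (`Nq` is a prime number) which are ramified in `k`
and for which `s` restricts to a Frobenius element on `N`: there is a maximal ideal `B` of the
ring of all algebraic integers above `q` with `s z ≡ z ^ Nq mod B` for all integers `z` of `N`. -/
def FrobRam (F N k : IntermediateField ℚ Om) (s : GQ) : Set (Ideal (ZF F)) :=
  {q | q.IsMaximal ∧ (Nat.card (ZF F ⧸ q)).Prime ∧ RamIn F k q ∧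
    ∃ B : Ideal ZBar, B.IsMaximal ∧ (∀ z : ZF F, z ∈ q ↔ ∃ b ∈ B, b.val = z.val) ∧
      ∀ z : ZF N, ∃ b ∈ B, b.val = s z.val - z.val ^ Nat.card (ZF F ⧸ q)}

end OzakiFree
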