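import Pool.Agent.Lib.MP_6e8030_nt.EBase
import Pool.Agent.Lib.MP_6e8030_nt.UDefs

open IntermediateField
open scoped ComplexConjugate

noncomputable section

namespace OzakiFree

/-- the action of `τ` on the integers of a stable field `M` -/
def actZ (M : IntermediateField ℚ Om) (τ : GQ) (h : ∀ x ∈ M, τ x ∈ M) : ZF M →+* ZF M where
  toFun z := ⟨(⟨τ z.val, h _ (ZF_val_mem z)⟩ : FL M), by
    have h1 : IsIntegral ℤ (τ z.val) := map_isIntegral_int (τ : Om →+* Om) (ZF_val_isIntegral z)
    refine (isIntegral_algHom_iff (FLhom M).toIntAlgHom (FLhom M).injective).1 ?_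
    exact h1⟩
  map_one' := ZF_val_inj _ _ (map_one τ)
  map_mul' := fun _ _ => ZF_val_inj _ _ (map_mul τ _ _)
  map_zero' := ZF_val_inj _ _ (map_zero τ)
  map_add' := fun _ _ => ZF_val_inj _ _ (map_add τ _ _)

@[simp] theorem actZ_val (M : IntermediateField ℚ Om) (τ : GQ) (h : ∀ x ∈ M, τ x ∈ M) (z : ZF M) :
    (actZ M τ h z).val = τ z.val := rfl

/-- the unit group of the ring of integers of `M`, written additively -/
abbrev UA (M : IntermediateField ℚ Om) : Type := Additive (ZF M)ˣ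

/-- the action of `τ` on the units of `M` -/
def actU (M : IntermediateField ℚ Om) (τ : GQ) (h : ∀ x ∈ M, τ x ∈ M) :
    AddMonoid.End (UA M) :=
  MonoidHom.toAdditive (Units.map (actZ M τ h : ZF M →* ZF M))

/-- `M/D` is cyclic of degree `p` and `D ≤ M` -/
structure CycDM (p : ℕ) (D M : IntermediateField ℚ Om) : Prop where
  le : D ≤ M
  deg : relfinrank D M = p
  stable : ∀ t ∈ D.fixingSubgroup, ∀ x ∈ M, t x ∈ M

/-- `M` is totally real -/
def TotReal (M : IntermediateField ℚ Om) : Prop :=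
  ∀ (φ : Om →+* ℂ) (c : GQ), (∀ x, φ (c x) = conj (φ x)) → c ∈ M.fixingSubgroup

/-- `M/D` is unramified outside the prime below `B₀` -/
def OneRam (D M : IntermediateField ℚ Om) (B₀ : Ideal ZO) : Prop :=
  ∀ B : Ideal ZO, B.IsMaximal → ∀ t ∈ B.inertia GQ, t ∈ D.fixingSubgroup →
    t ∉ M.fixingSubgroup → B.comap (iota D) = B₀.comap (iota D)

end OzakiFree
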