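import Pool.Agent.Lib.MP_6e8030_nt.UMain1

open IntermediateField
open scoped ComplexConjugate

noncomputable section

namespace OzakiFree

variable {p : ℕ} {ζ : Om} {F E : IntermediateField ℚ Om}

/-- **the product character** -/
theorem stepB' [FiniteDimensional ℚ F] [FiniteDimensional ℚ E] (hp : p.Prime)
    (hζ : IsPrimitiveRoot ζ p) (hFE : F ≤ E) (hμ : ∀ x : Om, x ^ p = 1 → x ∈ E)
    (χ₀ : GQ → ZMod p) (hχhom : HomOn F.fixingSubgroup χ₀) (hχlc : LCOn F.fixingSubgroup χ₀)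
    (a : ZF E) (ha : a ≠ 0) (y₀ : Om) (h0 : y₀ ^ p = a.val)
    (hχa : ∀ t ∈ E.fixingSubgroup, chi (p := p) ζ y₀ t = χ₀ t)
    (K : IntermediateField ℚ Om)
    (hK : ∀ σ, σ ∈ K.fixingSubgroup ↔ σ ∈ MF p F ∧ χ₀ σ = 0) (hfree : FreeGal p K)
    (B₁ B₂ B₃ : Ideal ZO) (hB₁ : B₁.IsMaximal)
    (hv₁ : ¬ p ∣ multiplicity (B₁.comap (iota E)) (Ideal.span {a}))
    (hv₂ : ¬ p ∣ multiplicity (B₂.comap (iota E)) (Ideal.span {a}))
    (hv₃ : ¬ p ∣ multiplicity (B₃.comap (iota E)) (Ideal.span {a}))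
    (n₁₂ : B₁.comap (iota F) ≠ B₂.comap (iota F))
    (n₁₃ : B₁.comap (iota F) ≠ B₃.comap (iota F))
    (n₂₃ : B₂.comap (iota F) ≠ B₃.comap (iota F))
    {l : ℕ} (hl : l.Prime) (hlp : l ≠ p) (hgood : Good E l) (hlB₁ : (l : ZO) ∈ B₁)
    (hcard : Nat.card (ZF E ⧸ B₁.comap (iota E)) = l)
    (z : Om) (hz : z ^ p = (l : Om)) (b₁ b₂ : ZF E)
    (P₁ : PairElt (FL E) p (B₁.comap (iota E)) (B₂.comap (iota E)) b₁)
    (P₂ : PairElt (FL E) p (B₁.comap (iota E)) (B₃.comap (iota E)) b₂) :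
    ∃ (ψ : GQ → ZMod p) (c : ZMod p), c ≠ 0 ∧ HomOn (MF p F) ψ ∧ LCOn (MF p F) ψ ∧
      (∀ B : Ideal ZO, B.IsMaximal → ∀ t ∈ B.inertia GQ, ∀ h ∈ MF p F,
        Lies E h B (B₁.comap (iota E)) → ψ t = c * chi (p := p) ζ z (h⁻¹ * t * h)) ∧
      (∀ B : Ideal ZO, B.IsMaximal → ∀ t ∈ B.inertia GQ, t ∈ MF p F →
        (∀ h ∈ MF p F, ¬ Lies E h B (B₁.comap (iota E))) → ψ t = 0) ∧
      (∀ (φ : Om →+* ℂ) (c : GQ), (∀ x, φ (c x) = conj (φ x)) → c ∈ MF p F → ψ c = 0) := by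
  have hFp : Fact p.Prime := ⟨hp⟩
  have hz' : IsRt p z (l : ℤ) := ⟨by rw [hz]; simp, by exact_mod_cast hl.ne_zero⟩
  have hEF : E.fixingSubgroup ≤ F.fixingSubgroup := IntermediateField.fixingSubgroup_antitone hFE
  obtain ⟨hb₁, d₁, e₁, f₁, g₁⟩ := P₁
  obtain ⟨hb₂, d₂, e₂, f₂, g₂⟩ := P₂
  obtain ⟨χ₁, A1, A2, A3, A4, A5, A6, A7, A8⟩ := stepA' hp hζ hFE hμ χ₀ hχhom a ha y₀ h0 hχa K hK
    B₁ B₂ hB₁ hv₁ hv₂ n₁₂ hl hlp hgood hlB₁ hcard z hz b₁ hb₁ d₁ e₁ f₁ g₁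
  obtain ⟨χ₂, C1, C2, C3, C4, C5, C6, C7, -⟩ := stepA' hp hζ hFE hμ χ₀ hχhom a ha y₀ h0 hχa K hK
    B₁ B₃ hB₁ hv₁ hv₃ n₁₃ hl hlp hgood hlB₁ hcard z hz b₂ hb₂ d₂ e₂ f₂ g₂
  have hhom : HomOn (MF p F) χ₀ := fun g hg h hh => hχhom g hg.2 h hh.2
  have hlc : LCOn (MF p F) χ₀ := by
    obtain ⟨U, hU, hU'⟩ := hχlc
    exact ⟨U, hU, fun g hg u hu huM => hU' g hg.2 u hu huM.2⟩
  -- an element of inertia above `q₁`
  have hpB₁ : (p : ZO) ∉ B₁ := not_mem_of_prime hl hp hlp B₁ hB₁ hlB₁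
  obtain ⟨t₁, ht₁, hmove⟩ := inertia_moves hp hl hlp z hz B₁ hB₁ hlB₁
  have ht₁E : t₁ ∈ E.fixingSubgroup := good_fix hgood B₁ hB₁ hlB₁ t₁ ht₁
  have ht₁M : t₁ ∈ MF p F := ⟨inertia_mem_PQ hp B₁ hB₁ hpB₁ t₁ ht₁, hEF ht₁E⟩
  have hlam : ((multiplicity (B₁.comap (iota E)) (Ideal.span {a}) : ℕ) : ZMod p) ≠ 0 := by
    rwa [Ne, ZMod.natCast_eq_zero_iff]
  have hχ₁ : chi (p := p) ζ z t₁ ≠ 0 := fun h => hmove ((chi_eq_zero_iff hp hζ hz' t₁).1 h)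
  have hc₁ : χ₀ t₁ ≠ 0 := by
    rw [← hχa t₁ ht₁E, val_good (F := E) hp hζ B₁ hB₁ hpB₁ hl hgood hlB₁ z hz t₁ ht₁ ht₁E a y₀ ha h0]
    exact mul_ne_zero hlam hχ₁
  -- lemma A
  have hinR : ∀ B : Ideal ZO, B.IsMaximal → ∀ t ∈ B.inertia GQ, t ∈ MF p F → χ₀ t = 0 →
      t ∈ RL p K := fun B hB t ht htM h => inertia_mem_RL p K B hB t ht ((hK t).2 ⟨htM, h⟩)
  have hinRp : ∀ B : Ideal ZO, B.IsMaximal → ∀ t ∈ B.inertia GQ, t ∈ MF p F → t ^ p ∈ RL p K := by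
    intro B hB t ht htM
    refine hinR B hB _ ((B.inertia GQ).pow_mem ht p) ((MF p F).pow_mem htM p) ?_
    rw [EM_pow hhom t htM]; simp
  set m := ((χ₀ t₁)⁻¹).val with hm
  have ht01 : χ₀ (t₁ ^ m) = 1 := by
    rw [EM_pow hhom t₁ ht₁M, hm, ZMod.natCast_val, ZMod.cast_id', id, inv_mul_cancel₀ hc₁]
  have hconj : ∀ g ∈ MF p F, ∀ σ ∈ K.fixingSubgroup, g⁻¹ * σ * g ∈ K.fixingSubgroup := by
    intro g hg σ hσ
    rw [hK] at hσ ⊢
    refine ⟨(MF p F).mul_mem ((MF p F).mul_mem ((MF p F).inv_mem hg) hσ.1) hg, ?_⟩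
    rw [EM_conj hhom g σ hg hσ.1, hσ.2]
  obtain ⟨L1, L2⟩ := lifts_of_free (p := p) K hfree
  obtain ⟨ψ, ψ1, ψ2, ψ3, ψ4⟩ := lemmaA (MF p F) K.fixingSubgroup (RL p K) χ₀ χ₁ χ₂ hhom A1 C1 hlc
    A2 C2 hK (RL_le p K) (by
      intro g hg r hr
      refine RL_conj p _ g (stable_of_conj _ g (hconj g hg)) (stable_of_conj _ g⁻¹ ?_) r hr
      intro σ hσ
      exact hconj g⁻¹ ((MF p F).inv_mem hg) σ hσ) A3 C3 L1 L2 (t₁ ^ m) ((MF p F).pow_mem ht₁M m)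
    ht01 (hinRp B₁ hB₁ _ ((B₁.inertia GQ).pow_mem ht₁ m) ((MF p F).pow_mem ht₁M m))
  have hform : ∀ B : Ideal ZO, B.IsMaximal → ∀ t ∈ B.inertia GQ, t ∈ MF p F →
      (χ₀ t = 0 → ψ t = 0) ∧ χ₀ t * ψ t = χ₁ t * χ₂ t := by
    intro B hB t ht htM
    by_cases hc : χ₀ t = 0
    · have htR := hinR B hB t ht htM hc
      refine ⟨fun _ => ψ3 t htR, ?_⟩
      rw [ψ3 t htR, A3 t htR]; ring
    · exact ⟨fun h => absurd h hc, ψ4 t htM hc (hinRp B hB t ht htM)⟩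
  refine ⟨ψ, 1 / ((multiplicity (B₁.comap (iota E)) (Ideal.span {a}) : ℕ) : ZMod p),
    div_ne_zero one_ne_zero hlam, ψ1, ψ2, ?_, ?_, ?_⟩
  · intro B hB t ht h hh hlies
    have hlB : (l : ZO) ∈ B := by
      have h1 : (l : ZF E) ∈ B₁.comap (iota E) := by
        rw [mem_comap_iff, map_natCast]; exact hlB₁
      obtain ⟨x, hx, hx'⟩ := (hlies _).1 h1
      rw [ZF_natCast_val, map_natCast] at hx'
      have : x = (l : ZO) := Subtype.ext hx'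
      rw [← this]; exact hx
    have hpB := not_mem_of_prime hl hp hlp B hB hlB
    have htE : t ∈ E.fixingSubgroup := good_fix hgood B hB hlB t ht
    have htM : t ∈ MF p F := ⟨inertia_mem_PQ hp B hB hpB t ht, hEF htE⟩
    obtain ⟨k1, k2⟩ := hform B hB t ht htM
    obtain ⟨B', hB', hmem, hin, hinP⟩ := conj_inertia_MF hp B hB t ht htM.1 h 1
    rw [pow_one] at hin hinP
    have hlB' : (l : ZO) ∈ B' := (mem_natCast_conj h B B' hmem l).2 hlB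
    have hpB' := not_mem_of_prime hl hp hlp B' hB' hlB'
    have huE : h⁻¹ * t * h ∈ E.fixingSubgroup := good_fix hgood B' hB' hlB' _ hin
    have w0 := val_good (F := E) hp hζ B' hB' hpB' hl hgood hlB' z hz _ hin huE a y₀ ha h0
    rw [(lies_iff h B B' hmem _).2 hlies, hχa _ huE, EM_conj hhom h t hh htM] at w0
    rw [A7 B hB t ht h hh hlies, C7 B hB t ht h hh hlies] at k2
    by_cases hχ : chi (p := p) ζ z (h⁻¹ * t * h) = 0
    · rw [hχ, mul_zero]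
      exact k1 (by rw [w0, hχ, mul_zero])
    · rw [w0] at k2
      rw [div_mul_eq_mul_div, one_mul, eq_div_iff hlam]
      have : (chi (p := p) ζ z (h⁻¹ * t * h)) *
          (ψ t * ((multiplicity (B₁.comap (iota E)) (Ideal.span {a}) : ℕ) : ZMod p)) =
          (chi (p := p) ζ z (h⁻¹ * t * h)) * chi (p := p) ζ z (h⁻¹ * t * h) := by
        rw [← k2]; ring
      exact mul_left_cancel₀ hχ this
  · intro B hB t ht htM hno
    obtain ⟨k1, k2⟩ := hform B hB t ht htM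
    have hprod : χ₁ t * χ₂ t = 0 := by
      by_cases hpB : (p : ZO) ∈ B
      · rw [A4 B hB t ht htM hpB, zero_mul]
      · by_cases c1 : B.comap (iota F) = B₁.comap (iota F)
        · rw [A6 B hB t ht htM hpB c1 hno, zero_mul]
        · by_cases c2 : B.comap (iota F) = B₂.comap (iota F)
          · rw [C5 B hB t ht htM hpB c1 (fun h => n₂₃ (c2.symm.trans h)), mul_zero]
          · rw [A5 B hB t ht htM hpB c1 c2, zero_mul]
    rw [hprod] at k2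
    rcases mul_eq_zero.1 k2 with h | h
    · exact k1 h
    · exact h
  · intro φ s hs hsM
    by_cases hc0 : χ₀ s = 0
    · exact ψ3 s (conj_mem_RL p _ φ s hs ((hK s).2 ⟨hsM, hc0⟩))
    · by_cases h2 : p = 2
      · subst h2
        have k3 := ψ4 s hsM hc0 (by rw [conj_sq φ s hs]; exact (RL 2 K).one_mem)
        rw [A8 φ s hs hsM, zero_mul] at k3
        exact (mul_eq_zero.1 k3).resolve_left hc0
      · exfalso
        have h3 : s * s = 1 := by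
          have := conj_sq φ s hs
          rwa [pow_two] at this
        have h4 := hhom s hsM s hsM
        rw [h3, EM_one hhom] at h4
        have h5 : (2 : ZMod p) * χ₀ s = 0 := by rw [two_mul]; exact h4.symm
        rcases mul_eq_zero.1 h5 with h | h
        · have h6 : ((2 : ℕ) : ZMod p) = 0 := by exact_mod_cast h
          rw [ZMod.natCast_eq_zero_iff] at h6
          exact h2 ((Nat.prime_dvd_prime_iff_eq hp Nat.prime_two).1 h6)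
        · exact hc0 h

end OzakiFree
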