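import Pool.Agent.Lib.MP_6e8030_nt.UMain2

open IntermediateField
open scoped ComplexConjugate

noncomputable section

namespace OzakiFree

variable {p : ℕ} {ζ : Om} {F E : IntermediateField ℚ Om}

/-- `Lies` forces `l ∈ B` -/
theorem lies_natCast {l : ℕ} {B₁ : Ideal ZO} (hlB₁ : (l : ZO) ∈ B₁) (B : Ideal ZO) (h : GQ)
    (hlies : Lies E h B (B₁.comap (iota E))) : (l : ZO) ∈ B := by
  have h1 : (l : ZF E) ∈ B₁.comap (iota E) := by
    rw [mem_comap_iff, map_natCast]; exact hlB₁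
  obtain ⟨x, hx, hx'⟩ := (hlies _).1 h1
  rw [ZF_natCast_val, map_natCast] at hx'
  have : x = (l : ZO) := Subtype.ext hx'
  rw [← this]; exact hx

theorem lies_mul {Q : Ideal (ZF E)} (B B' : Ideal ZO) (s h g : GQ)
    (hmem : ∀ x : ZO, x ∈ B' ↔ s • x ∈ B)
    (hx : ∀ x ∈ E, s (h x) = g x) : Lies E h B' Q ↔ Lies E g B Q := by
  have e : ∀ w : ZF E, (∃ b ∈ B', (b : Om) = h w.val) ↔ ∃ b ∈ B, (b : Om) = g w.val := by
    intro w
    constructor
    · rintro ⟨b, hb, hb'⟩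
      refine ⟨s • b, (hmem b).1 hb, ?_⟩
      show s (b : Om) = g w.val
      rw [hb', hx _ (ZF_val_mem w)]
    · rintro ⟨b, hb, hb'⟩
      refine ⟨s⁻¹ • b, (hmem _).2 (by rw [smul_inv_smul]; exact hb), ?_⟩
      show s⁻¹ (b : Om) = h w.val
      rw [hb', ← hx _ (ZF_val_mem w), inv_apply_self']
  constructor
  · intro hl' w; rw [← e w]; exact hl' w
  · intro hl' w; rw [e w]; exact hl' w

/-- conjugates of inertia elements above `l` -/
theorem conj_good (hp : p.Prime) {l : ℕ} (hl : l.Prime) (hlp : l ≠ p) (hgood : Good E l)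
    (B : Ideal ZO) (hB : B.IsMaximal) (hlB : (l : ZO) ∈ B) (t : GQ) (ht : t ∈ B.inertia GQ)
    (g : GQ) :
    ∃ B' : Ideal ZO, B'.IsMaximal ∧ (∀ x : ZO, x ∈ B' ↔ g • x ∈ B) ∧
      g⁻¹ * t * g ∈ B'.inertia GQ ∧ g⁻¹ * t * g ∈ E.fixingSubgroup ∧ (p : ZO) ∉ B' ∧
      (l : ZO) ∈ B' ∧ g⁻¹ * t * g ∈ PQ p := by
  have hpB := not_mem_of_prime hl hp hlp B hB hlB
  have htP := inertia_mem_PQ hp B hB hpB t ht
  obtain ⟨B', hB', hmem, hin, hinP⟩ := conj_inertia_MF hp B hB t ht htP g 1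
  rw [pow_one] at hin hinP
  have hlB' : (l : ZO) ∈ B' := (mem_natCast_conj g B B' hmem l).2 hlB
  exact ⟨B', hB', hmem, hin, good_fix hgood B' hB' hlB' _ hin,
    not_mem_of_prime hl hp hlp B' hB' hlB', hlB', hinP⟩

/-- **transfer to `Gal(Om/ℚ_∞)`** -/
theorem stepT [FiniteDimensional ℚ F] [FiniteDimensional ℚ E] (hp : p.Prime)
    (hFE : F ≤ E) (B₁ : Ideal ZO) (hB₁ : B₁.IsMaximal)
    {l : ℕ} (hl : l.Prime) (hlp : l ≠ p) (hgood : Good E l) (hlB₁ : (l : ZO) ∈ B₁)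
    (hcard : Nat.card (ZF E ⧸ B₁.comap (iota E)) = l)
    (κ : GQ → ZMod p) (ψ : GQ → ZMod p)
    (ψ1 : HomOn (MF p F) ψ) (ψ2 : LCOn (MF p F) ψ)
    (hA : ∀ B : Ideal ZO, B.IsMaximal → ∀ t ∈ B.inertia GQ, ∀ h ∈ MF p F,
        Lies E h B (B₁.comap (iota E)) → ψ t = κ (h⁻¹ * t * h))
    (hB : ∀ B : Ideal ZO, B.IsMaximal → ∀ t ∈ B.inertia GQ, t ∈ MF p F →
        (∀ h ∈ MF p F, ¬ Lies E h B (B₁.comap (iota E))) → ψ t = 0)
    (hR : ∀ (φ : Om →+* ℂ) (c : GQ), (∀ x, φ (c x) = conj (φ x)) → c ∈ MF p F → ψ c = 0) :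
    ∃ θ : GQ → ZMod p, HomOn (PQ p) θ ∧ LCOn (PQ p) θ ∧
      (∀ B : Ideal ZO, B.IsMaximal → ∀ t ∈ B.inertia GQ, ∀ g ∈ PQ p,
        Lies E g B (B₁.comap (iota E)) → θ t = κ (g⁻¹ * t * g)) ∧
      (∀ B : Ideal ZO, B.IsMaximal → ∀ t ∈ B.inertia GQ, t ∈ PQ p →
        (∀ g ∈ PQ p, ¬ Lies E g B (B₁.comap (iota E))) → θ t = 0) ∧
      (∀ (φ : Om →+* ℂ) (c : GQ), (∀ x, φ (c x) = conj (φ x)) → c ∈ PQ p → θ c = 0) := by
  set Q₁ := B₁.comap (iota E) with hQ₁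
  have hQmax : Q₁.IsMaximal := comap_max E B₁ hB₁
  have hEF : E.fixingSubgroup ≤ F.fixingSubgroup := IntermediateField.fixingSubgroup_antitone hFE
  have hGopen : IsOpen (F.fixingSubgroup : Set GQ) := IntermediateField.fixingSubgroup_isOpen F
  have hGfin : F.fixingSubgroup.FiniteIndex := by
    have hq : Finite (GQ ⧸ F.fixingSubgroup) := Subgroup.quotient_finite_of_isOpen _ hGopen
    exact Subgroup.finiteIndex_of_finite_quotient
  obtain ⟨T, θ, hT, hTu, θ1, θ2, θ3, θ4⟩ := transfer_sub (PQ p) F.fixingSubgroup hGopen hGfin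
    ψ ψ1 ψ2
  refine ⟨θ, θ1, θ2, ?_, ?_, ?_⟩
  · intro B hBm t ht g hg hlies
    have hlB : (l : ZO) ∈ B := lies_natCast hlB₁ B g hlies
    have hpB := not_mem_of_prime hl hp hlp B hBm hlB
    have htP := inertia_mem_PQ hp B hBm hpB t ht
    have hconj := conj_good hp hl hlp hgood B hBm hlB t ht
    rw [θ4 t htP (fun g _ => by
      obtain ⟨-, -, -, -, h, -⟩ := hconj g
      exact hEF h)]
    obtain ⟨s₀, ⟨hs₀T, hs₀G⟩, hs₀u⟩ := hTu g hg
    have hs₀P : s₀ ∈ PQ p := hT s₀ hs₀T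
    have hhM : s₀⁻¹ * g ∈ MF p F := ⟨(PQ p).mul_mem ((PQ p).inv_mem hs₀P) hg, hs₀G⟩
    rw [Finset.sum_eq_single s₀]
    · obtain ⟨B', hB', hmem, hin, hinE, hpB', hlB', hinP⟩ := hconj s₀
      have hl' : Lies E (s₀⁻¹ * g) B' Q₁ := (lies_mul B B' s₀ (s₀⁻¹ * g) g hmem
        (fun x _ => by rw [AlgEquiv.mul_apply, apply_inv_self])).2 hlies
      rw [hA B' hB' _ hin _ hhM hl']
      congr 1
      group
    · intro s hs hsne
      obtain ⟨B', hB', hmem, hin, hinE, hpB', hlB', hinP⟩ := hconj s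
      refine hB B' hB' _ hin ⟨hinP, hEF hinE⟩ fun h' hh' hl' => hsne ?_
      have hl2 : Lies E (s * h') B Q₁ := (lies_mul B B' s h' (s * h') hmem
        (fun x _ => (AlgEquiv.mul_apply s h' x).symm)).1 hl'
      have h1 := embedding_unique E hl hgood _ hQmax hcard B hBm hlB (s * h') g hl2 hlies
      refine hs₀u s ⟨hs, ?_⟩
      have he : (s * h')⁻¹ * g ∈ E.fixingSubgroup := by
        rw [IntermediateField.mem_fixingSubgroup_iff]
        intro x hx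
        rw [AlgEquiv.mul_apply, ← h1 x hx, inv_apply_self']
      have e2 : s⁻¹ * g = h' * ((s * h')⁻¹ * g) := by group
      rw [e2]
      exact F.fixingSubgroup.mul_mem hh'.2 (hEF he)
    · intro h; exact absurd hs₀T h
  · intro B hBm t ht htP hno
    refine θ3 t htP fun g hg n _ hgG => ?_
    obtain ⟨B', hB', hmem, hin, hinP⟩ := conj_inertia_MF hp B hBm t ht htP g n
    refine hB B' hB' _ hin ⟨hinP, hgG⟩ fun h hh hl' => ?_
    exact hno (g * h) ((PQ p).mul_mem hg hh.1) ((lies_mul B B' g h (g * h) hmem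
      (fun x _ => (AlgEquiv.mul_apply g h x).symm)).1 hl')
  · intro φ c hc hcP
    refine θ3 c hcP fun g hg n _ hgG => ?_
    rcases Nat.even_or_odd' n with ⟨k, hk | hk⟩
    · have : c ^ n = 1 := by rw [hk, pow_mul, conj_sq φ c hc, one_pow]
      rw [this, mul_one, inv_mul_cancel]
      exact EM_one ψ1
    · have : c ^ n = c := by
        rw [hk, pow_add, pow_mul, conj_sq φ c hc, one_pow, one_mul, pow_one]
      rw [this] at hgG ⊢
      refine hR (φ.comp (g : Om →+* Om)) _ ?_ ⟨PQ_conj' hp g c hcP, hgG⟩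
      intro x
      show φ (g ((g⁻¹ * c * g) x)) = conj (φ (g x))
      rw [AlgEquiv.mul_apply, AlgEquiv.mul_apply, apply_inv_self, hc]

end OzakiFree
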