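import Pool.Agent.Lib.MP_6e8030_nt.UMain3
import Pool.Agent.Lib.MP_6e8030_nt.UAll
import Pool.Agent.Lib.MP_6e8030_nt.EMain4

open IntermediateField
open scoped ComplexConjugate

noncomputable section

namespace OzakiFree

variable {p : ℕ} {ζ : Om} {F E : IntermediateField ℚ Om}

/-! ### maximal ideals above the same prime number -/

theorem bot_int (z : ZF ⊥) : ∃ n : ℤ, z.val = (n : Om) := by
  have h1 : z.val ∈ (⊥ : IntermediateField ℚ Om) := ZF_val_mem z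
  rw [IntermediateField.mem_bot] at h1
  obtain ⟨r, hr⟩ := h1
  have h2 : IsIntegral ℤ z.val := ZF_val_isIntegral z
  rw [← hr] at h2
  have h3 : IsIntegral ℤ r := by
    refine (isIntegral_algHom_iff (algebraMap ℚ Om).toIntAlgHom (algebraMap ℚ Om).injective).1 ?_
    exact h2
  obtain ⟨n, hn⟩ := IsIntegrallyClosed.isIntegral_iff.1 h3
  refine ⟨n, ?_⟩
  rw [← hr, ← hn]
  simp

theorem comap_bot (hp : p.Prime) (B B' : Ideal ZO) (hB : B.IsMaximal) (hB' : B'.IsMaximal)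
    (hpB : (p : ZO) ∈ B) (hpB' : (p : ZO) ∈ B') :
    B.comap (iota ⊥) = B'.comap (iota ⊥) := by
  have key : ∀ B : Ideal ZO, B.IsMaximal → (p : ZO) ∈ B → ∀ a : ℤ, (a : ZO) ∈ B ↔ (p : ℤ) ∣ a := by
    intro B hB hpB
    obtain ⟨r, hr, hrB, hr'⟩ := exists_prime_mem B hB
    have e1 : (r : ℤ) ∣ (p : ℤ) := (hr' _).1 (by simpa using hpB)
    have e2 : r = p := (Nat.prime_dvd_prime_iff_eq hr hp).1 (by exact_mod_cast e1)
    rw [← e2]
    exact hr'
  ext z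
  obtain ⟨n, hn⟩ := bot_int z
  have h1 : iota ⊥ z = (n : ZO) := Subtype.ext (by rw [iota_coe, hn]; simp)
  rw [mem_comap_iff, mem_comap_iff, h1, key B hB hpB, key B' hB' hpB']

theorem exists_conj_p (hp : p.Prime) (B B' : Ideal ZO) (hB : B.IsMaximal) (hB' : B'.IsMaximal)
    (hpB : (p : ZO) ∈ B) (hpB' : (p : ZO) ∈ B') : ∃ g : GQ, ∀ x : ZO, x ∈ B' ↔ g • x ∈ B := by
  obtain ⟨g, -, hg⟩ := trans_F ⊥ B B' hB hB' (comap_bot hp B B' hB hB' hpB hpB')
  exact ⟨g, hg⟩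

/-! ### invariance -/

theorem inv_E [FiniteDimensional ℚ E] (hp : p.Prime) (hζ : IsPrimitiveRoot ζ p)
    (hζE : ζ ∈ E) (B₁ : Ideal ZO)
    {l : ℕ} (hl : l.Prime) (hlp : l ≠ p) (hgood : Good E l) (hlB₁ : (l : ZO) ∈ B₁)
    (z : Om) (hz : z ^ p = (l : Om)) (θ : GQ → ZMod p) (c : ZMod p)
    (θ1 : HomOn (PQ p) θ) (θ2 : LCOn (PQ p) θ)
    (T1 : ∀ B : Ideal ZO, B.IsMaximal → ∀ t ∈ B.inertia GQ, ∀ g ∈ PQ p,
        Lies E g B (B₁.comap (iota E)) → θ t = c * chi (p := p) ζ z (g⁻¹ * t * g))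
    (T2 : ∀ B : Ideal ZO, B.IsMaximal → ∀ t ∈ B.inertia GQ, t ∈ PQ p →
        (∀ g ∈ PQ p, ¬ Lies E g B (B₁.comap (iota E))) → θ t = 0)
    (e : GQ) (he : e ∈ E.fixingSubgroup) : ∀ t ∈ PQ p, θ (e * t * e⁻¹) = θ t := by
  have hz' : IsRt p z (l : ℤ) := ⟨by rw [hz]; simp, by exact_mod_cast hl.ne_zero⟩
  have hPc : ∀ t ∈ PQ p, e * t * e⁻¹ ∈ PQ p := fun t ht => PQ_conj hp e t ht
  have hzero : ∀ t ∈ PQ p, θ (e * t * e⁻¹) - θ t = 0 := by
    refine no_unram_all hp (fun t => θ (e * t * e⁻¹) - θ t) ?_ ?_ ?_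
    · intro g hg h hh
      show θ (e * (g * h) * e⁻¹) - θ (g * h) = _
      have e1 : e * (g * h) * e⁻¹ = (e * g * e⁻¹) * (e * h * e⁻¹) := by group
      rw [e1, θ1 _ (hPc g hg) _ (hPc h hh), θ1 g hg h hh]
      ring
    · obtain ⟨U, hU, hU'⟩ := θ2
      obtain ⟨V, hV, hV'⟩ := LC_conj (P := PQ p) ⟨U, hU, hU'⟩ e hPc
      refine ⟨U ⊓ V, hU.inter hV, fun g hg u hu huP => ?_⟩
      show θ (e * (g * u) * e⁻¹) - θ (g * u) = θ (e * g * e⁻¹) - θ g
      rw [hU' g hg u hu.1 huP]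
      have := hV' g hg u hu.2 huP
      exact congrArg (fun x => x - θ g) this
    · intro B hB t ht htP
      show θ (e * t * e⁻¹) - θ t = 0
      obtain ⟨B', hB', hmem, hin, hinP⟩ := conj_inertia_MF hp B hB t ht htP e⁻¹ 1
      rw [pow_one, inv_inv] at hin hinP
      by_cases hex : ∃ g ∈ PQ p, Lies E g B (B₁.comap (iota E))
      · obtain ⟨g, hg, hlies⟩ := hex
        have hg' : e * g * e⁻¹ ∈ PQ p := PQ_conj hp e g hg
        have hlies' : Lies E (e * g * e⁻¹) B' (B₁.comap (iota E)) := by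
          refine (lies_mul B B' e⁻¹ (e * g * e⁻¹) g hmem fun x hx => ?_).2 hlies
          have h1 : e⁻¹ x = x := fix_F (E.fixingSubgroup.inv_mem he) x hx
          rw [AlgEquiv.mul_apply, AlgEquiv.mul_apply, inv_apply_self', h1]
        have hlB : (l : ZO) ∈ B := lies_natCast hlB₁ B g hlies
        obtain ⟨-, -, -, -, huE, -⟩ := conj_good hp hl hlp hgood B hB hlB t ht g
        rw [T1 B' hB' _ hin _ hg' hlies', T1 B hB t ht g hg hlies]
        have e2 : (e * g * e⁻¹)⁻¹ * (e * t * e⁻¹) * (e * g * e⁻¹) =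
            (e⁻¹)⁻¹ * (g⁻¹ * t * g) * e⁻¹ := by group
        rw [e2, EM_conj (P := E.fixingSubgroup)
          (chi_homOn hp hζ hz' E.fixingSubgroup (fun σ hσ => fix_F hσ ζ hζE)) e⁻¹ _
          (E.fixingSubgroup.inv_mem he) huE, sub_self]
      · push Not at hex
        have hex' : ∀ g ∈ PQ p, ¬ Lies E g B' (B₁.comap (iota E)) := by
          intro g' hg' hl'
          refine hex (e⁻¹ * g' * e) (PQ_conj' hp e g' hg') ?_
          refine (lies_mul B B' e⁻¹ g' (e⁻¹ * g' * e) hmem fun x hx => ?_).1 hl'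
          rw [AlgEquiv.mul_apply, AlgEquiv.mul_apply, fix_F he x hx]
        rw [T2 B' hB' _ hin hinP hex', T2 B hB t ht htP hex, sub_self]
  intro t ht
  exact sub_eq_zero.1 (hzero t ht)

/-- the conjugation invariance under `Gal(Om / E ∩ ℚ_∞)` -/
theorem inv_A [FiniteDimensional ℚ E] (hp : p.Prime) (θ : GQ → ZMod p)
    (θ1 : HomOn (PQ p) θ)
    (hE : ∀ e ∈ E.fixingSubgroup, ∀ t ∈ PQ p, θ (e * t * e⁻¹) = θ t) :
    ∀ a ∈ (E ⊓ cycZp p ⊥).fixingSubgroup, ∀ t ∈ PQ p, θ (a * t * a⁻¹) = θ t := by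
  rw [fixing_inf hp E]
  let S : Subgroup GQ :=
    { carrier := {a | ∀ t ∈ PQ p, θ (a * t * a⁻¹) = θ t}
      one_mem' := fun t _ => by rw [inv_one, mul_one, one_mul]
      mul_mem' := fun {a b} ha hb t ht => by
        have e1 : a * b * t * (a * b)⁻¹ = a * (b * t * b⁻¹) * a⁻¹ := by group
        rw [e1, ha _ (PQ_conj hp b t ht), hb t ht]
      inv_mem' := fun {a} ha t ht => by
        have h1 := ha _ (PQ_conj hp a⁻¹ t ht)
        have e1 : a * (a⁻¹ * t * a⁻¹⁻¹) * a⁻¹ = t := by group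
        rw [e1] at h1
        exact h1.symm }
  have h1 : PQ p ⊔ E.fixingSubgroup ≤ S := by
    refine sup_le (fun a ha t ht => ?_) (fun e he => hE e he)
    have := EM_conj θ1 a⁻¹ t ((PQ p).inv_mem ha) ht
    rwa [inv_inv] at this
  exact fun a ha => h1 ha

/-- the least positive power of `σ` in a subgroup of finite index -/
theorem exists_least {Γ : Type*} [Group Γ] (A : Subgroup Γ) (hA : A.index ≠ 0) (σ : Γ) :
    ∃ m : ℕ, 0 < m ∧ σ ^ m ∈ A ∧ ∀ i : ℕ, σ ^ i ∈ A → m ∣ i := by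
  classical
  have hex : ∃ n : ℕ, 0 < n ∧ σ ^ n ∈ A := by
    obtain ⟨n, h1, -, h3⟩ := Subgroup.exists_pow_mem_of_index_ne_zero hA σ
    exact ⟨n, h1, h3⟩
  refine ⟨Nat.find hex, (Nat.find_spec hex).1, (Nat.find_spec hex).2, fun i hi => ?_⟩
  set m := Nat.find hex with hm
  have hm0 := (Nat.find_spec hex).1
  rw [Nat.dvd_iff_mod_eq_zero]
  by_contra hne
  have hlt : i % m < m := Nat.mod_lt _ hm0
  refine Nat.find_min hex hlt ⟨Nat.pos_of_ne_zero hne, ?_⟩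
  have h1 : σ ^ i = (σ ^ m) ^ (i / m) * σ ^ (i % m) := by
    rw [← pow_mul, ← pow_add, Nat.div_add_mod]
  have h2 : σ ^ (i % m) = ((σ ^ m) ^ (i / m))⁻¹ * σ ^ i := by
    rw [h1, inv_mul_cancel_left]
  rw [h2]
  exact A.mul_mem (A.inv_mem (A.pow_mem (Nat.find_spec hex).2 _)) hi

end OzakiFree
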