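import Pool.Agent.Lib.MP_6e8030_nt.UMain4

open IntermediateField
open scoped ComplexConjugate

noncomputable section

namespace OzakiFree

variable {p : ℕ} {ζ : Om} {F E : IntermediateField ℚ Om}

theorem isOpen_normal (V : Subgroup GQ) (hV : IsOpen (V : Set GQ)) :
    ∃ W : Subgroup GQ, IsOpen (W : Set GQ) ∧ W ≤ V ∧ W.Normal ∧ W.FiniteIndex := by
  obtain ⟨W, hW⟩ := ProfiniteGrp.exist_openNormalSubgroup_sub_open_nhds_of_one hV V.one_mem
  have hWo : IsOpen (W.toSubgroup : Set GQ) := W.toOpenSubgroup.isOpen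
  refine ⟨W.toSubgroup, hWo, hW, W.isNormal', ?_⟩
  have hq : Finite (GQ ⧸ W.toSubgroup) := Subgroup.quotient_finite_of_isOpen _ hWo
  exact Subgroup.finiteIndex_of_finite_quotient

theorem conj_mem_PQ (hp : p.Prime) (φ : Om →+* ℂ) (c : GQ) (hc : ∀ x, φ (c x) = conj (φ x)) :
    c ∈ PQ p :=
  (mem_PQ_iff hp c).2 ⟨2, two_pos, fun ξ _ => by rw [conj_sq φ c hc]; rfl⟩

/-- elements of inertia are congruent to the identity, also for products of powers -/
theorem inertia_prod (B : Ideal ZO) (t : GQ) (ht : t ∈ B.inertia GQ) (x : ZO) (n : ℕ) :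
    (∏ i ∈ Finset.range n, (t ^ i) • x) - x ^ n ∈ B := by
  induction n with
  | zero => simp
  | succ n ih =>
    rw [Finset.prod_range_succ, pow_succ]
    have h1 : (t ^ n) • x - x ∈ B := (B.inertia GQ).pow_mem ht n x
    have e : (∏ i ∈ Finset.range n, (t ^ i) • x) * (t ^ n) • x - x ^ n * x =
        ((∏ i ∈ Finset.range n, (t ^ i) • x) - x ^ n) * (t ^ n) • x +
          x ^ n * ((t ^ n) • x - x) := by ring
    rw [e]
    exact B.add_mem (B.mul_mem_right _ ih) (B.mul_mem_left _ h1)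

theorem coe_prod_smul (t : GQ) (x : ZO) (n : ℕ) :
    ((∏ i ∈ Finset.range n, (t ^ i) • x : ZO) : Om) = ∏ i ∈ Finset.range n, (t ^ i) (x : Om) := by
  induction n with
  | zero => simp
  | succ n ih =>
    rw [Finset.prod_range_succ, Finset.prod_range_succ, ← ih]
    rfl

/-- **the final contradiction** -/
theorem stepD [FiniteDimensional ℚ E] (hp : p.Prime) (hζ : IsPrimitiveRoot ζ p)
    (hμ : ∀ x : Om, x ^ p = 1 → x ∈ E) (B₁ : Ideal ZO) (hB₁ : B₁.IsMaximal)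
    {l : ℕ} (hl : l.Prime) (hlp : l ≠ p) (hgood : Good E l) (hlB₁ : (l : ZO) ∈ B₁)
    (hcard : Nat.card (ZF E ⧸ B₁.comap (iota E)) = l)
    (z : Om) (hz : z ^ p = (l : Om)) (θ : GQ → ZMod p) (c : ZMod p) (hc : c ≠ 0)
    (θ1 : HomOn (PQ p) θ) (θ2 : LCOn (PQ p) θ)
    (T1 : ∀ B : Ideal ZO, B.IsMaximal → ∀ t ∈ B.inertia GQ, ∀ g ∈ PQ p,
        Lies E g B (B₁.comap (iota E)) → θ t = c * chi (p := p) ζ z (g⁻¹ * t * g))
    (T2 : ∀ B : Ideal ZO, B.IsMaximal → ∀ t ∈ B.inertia GQ, t ∈ PQ p →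
        (∀ g ∈ PQ p, ¬ Lies E g B (B₁.comap (iota E))) → θ t = 0)
    (T3 : ∀ (φ : Om →+* ℂ) (c : GQ), (∀ x, φ (c x) = conj (φ x)) → c ∈ PQ p → θ c = 0)
    (D₀ : IntermediateField ℚ Om) (hD₀E : D₀ ≤ E) (hD₀ : D₀ ≤ cycZp p ⊥) (u : (ZF D₀)ˣ)
    (hu : iota D₀ (u : ZF D₀) ^ ((l - 1) / p) - 1 ∉ B₁) : False := by
  have hFp : Fact p.Prime := ⟨hp⟩
  have hz' : IsRt p z (l : ℤ) := ⟨by rw [hz]; simp, by exact_mod_cast hl.ne_zero⟩
  have hζE : ζ ∈ E := hμ ζ hζ.pow_eq_one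
  have hpB₁ : (p : ZO) ∉ B₁ := not_mem_of_prime hl hp hlp B₁ hB₁ hlB₁
  set D : IntermediateField ℚ Om := E ⊓ cycZp p ⊥ with hD
  have hDE : D ≤ E := inf_le_left
  have hDc : D ≤ cycZp p ⊥ := inf_le_right
  have hDfin : FiniteDimensional ℚ D := by
    let f : D →ₗ[ℚ] E := (IntermediateField.inclusion hDE).toLinearMap
    exact FiniteDimensional.of_injective f (IntermediateField.inclusion_injective hDE)
  have hPQA : PQ p ≤ D.fixingSubgroup := IntermediateField.fixingSubgroup_antitone hDc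
  have hEA : E.fixingSubgroup ≤ D.fixingSubgroup := IntermediateField.fixingSubgroup_antitone hDE
  have hAopen : IsOpen (D.fixingSubgroup : Set GQ) := IntermediateField.fixingSubgroup_isOpen D
  have hAfin : D.fixingSubgroup.FiniteIndex := by
    have hq : Finite (GQ ⧸ D.fixingSubgroup) := Subgroup.quotient_finite_of_isOpen _ hAopen
    exact Subgroup.finiteIndex_of_finite_quotient
  have hinv := inv_A (E := E) hp θ θ1 (fun e he => inv_E hp hζ hζE B₁ hl hlp hgood hlB₁ z hz θ c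
    θ1 θ2 T1 T2 e he)
  -- the generator `σ`
  obtain ⟨Bp, σ₀, hBp, hpBp, hσI, hσG⟩ := exists_sigma hp
  have hlBp : (l : ZO) ∉ Bp := not_mem_of_prime hp hl (Ne.symm hlp) Bp hBp hpBp
  obtain ⟨m, hm0, hmA, hmdvd⟩ := exists_least D.fixingSubgroup hAfin.index_ne_zero σ₀
  have hσ : ∀ V : Subgroup GQ, IsOpen (V : Set GQ) → ∀ a ∈ D.fixingSubgroup,
      ∃ i : ℕ, (σ₀ ^ m) ^ i * a ∈ PQ p ⊔ V := by
    intro V hV a ha
    obtain ⟨i, hi⟩ := hσG (V ⊓ D.fixingSubgroup) (hV.inter hAopen) a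
    have h1 : PQ p ⊔ V ⊓ D.fixingSubgroup ≤ D.fixingSubgroup := sup_le hPQA inf_le_right
    have h2 : σ₀ ^ i ∈ D.fixingSubgroup := by
      have := D.fixingSubgroup.mul_mem (h1 hi) (D.fixingSubgroup.inv_mem ha)
      rwa [mul_inv_cancel_right] at this
    obtain ⟨j, rfl⟩ := hmdvd i h2
    refine ⟨j, ?_⟩
    rw [← pow_mul]
    exact (sup_le_sup_left inf_le_left _ : PQ p ⊔ V ⊓ D.fixingSubgroup ≤ PQ p ⊔ V) hi
  have hPn : (PQ p).Normal := ⟨fun t ht g => PQ_conj hp g t ht⟩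
  obtain ⟨θ', E1, E2, E3, E4⟩ := extend_char hp (PQ p) D.fixingSubgroup hPn hPQA hAopen
    (PQ_comm hp) (σ₀ ^ m) hmA hσ (fun U hU hPU _ => exists_lambda hp U hU hPU) isOpen_normal
    θ θ1 θ2 hinv
  have hvp : ∀ t ∈ Bp.inertia GQ, t ∈ D.fixingSubgroup → θ' t = 0 := by
    refine vanish_p hp D.fixingSubgroup hPQA hAopen Bp hBp hpBp (σ₀ ^ m)
      ((Bp.inertia GQ).pow_mem hσI m) hmA hσ θ' E1 E2 E4 ?_
    intro t ht htP
    rw [E3 t htP]
    exact T2 Bp hBp t ht htP fun g _ hl' => hlBp (lies_natCast hlB₁ Bp g hl')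
  -- an inertia element above `l`
  obtain ⟨t₁, ht₁, hmove⟩ := inertia_moves hp hl hlp z hz B₁ hB₁ hlB₁
  have ht₁P : t₁ ∈ PQ p := inertia_mem_PQ hp B₁ hB₁ hpB₁ t₁ ht₁
  have hθt₁ : θ' t₁ ≠ 0 := by
    rw [E3 t₁ ht₁P, T1 B₁ hB₁ t₁ ht₁ 1 (PQ p).one_mem
      ((lies_iff 1 B₁ B₁ (fun x => by rw [one_smul]) _).1 rfl), inv_one, one_mul, mul_one]
    exact mul_ne_zero hc fun h => hmove ((chi_eq_zero_iff hp hζ hz' t₁).1 h)
  obtain ⟨M, hMfin, hDM, hMfix⟩ := field_of_char hp D θ' E1 E2 ⟨t₁, hPQA ht₁P, hθt₁⟩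
  have ht₁M : t₁ ∉ M.fixingSubgroup := fun h => hθt₁ ((hMfix t₁).1 h).2
  have hMreal : TotReal M := by
    intro φ s hs
    have hsP := conj_mem_PQ hp φ s hs
    exact (hMfix s).2 ⟨hPQA hsP, by rw [E3 s hsP]; exact T3 φ s hs hsP⟩
  have hram : OneRam D M B₁ := by
    intro B hB t ht htA htM
    have hθt : θ' t ≠ 0 := fun h => htM ((hMfix t).2 ⟨htA, h⟩)
    by_cases hpB : (p : ZO) ∈ B
    · exfalso
      apply hθt
      obtain ⟨g, hg⟩ := exists_conj_p hp B Bp hB hBp hpB hpBp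
      obtain ⟨i, hi⟩ := hσG D.fixingSubgroup hAopen g⁻¹
      have h1 : σ₀ ^ i * g⁻¹ ∈ D.fixingSubgroup := (sup_le hPQA le_rfl :
        PQ p ⊔ D.fixingSubgroup ≤ D.fixingSubgroup) hi
      have h2 : g⁻¹ * t * g ∈ Bp.inertia GQ := by
        rw [AddSubgroup.mem_inertia]
        intro x
        have h3 : (g⁻¹ * t * g) • x - x ∈ Bp := by
          rw [hg, smul_sub, ← mul_smul]
          have e1 : g * (g⁻¹ * t * g) = t * g := by group
          rw [e1, mul_smul]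
          exact ht (g • x)
        exact h3
      have h4 : σ₀ ^ i * (g⁻¹ * t * g) * (σ₀ ^ i)⁻¹ ∈ Bp.inertia GQ :=
        (Bp.inertia GQ).mul_mem ((Bp.inertia GQ).mul_mem ((Bp.inertia GQ).pow_mem hσI i) h2)
          ((Bp.inertia GQ).inv_mem ((Bp.inertia GQ).pow_mem hσI i))
      have e2 : σ₀ ^ i * (g⁻¹ * t * g) * (σ₀ ^ i)⁻¹ =
          ((σ₀ ^ i * g⁻¹)⁻¹)⁻¹ * t * (σ₀ ^ i * g⁻¹)⁻¹ := by group
      rw [e2] at h4
      have h5 := hvp _ h4 (D.fixingSubgroup.mul_mem (D.fixingSubgroup.mul_mem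
        (D.fixingSubgroup.inv_mem (D.fixingSubgroup.inv_mem h1)) htA)
        (D.fixingSubgroup.inv_mem h1))
      rwa [EM_conj E1 _ t (D.fixingSubgroup.inv_mem h1) htA] at h5
    · have htP := inertia_mem_PQ hp B hB hpB t ht
      rw [E3 t htP] at hθt
      have hex : ∃ g ∈ PQ p, Lies E g B (B₁.comap (iota E)) := by
        by_contra hcon
        push Not at hcon
        exact hθt (T2 B hB t ht htP hcon)
      obtain ⟨g, hg, hlies⟩ := hex
      ext w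
      obtain ⟨w', hw'⟩ := exists_lift_ZF hDE w
      have hgw : g w'.val = w'.val := by
        rw [hw']
        exact fix_F (hPQA hg) _ (ZF_val_mem w)
      have e1 : iota D w = iota E w' := Subtype.ext hw'.symm
      rw [mem_comap_iff, mem_comap_iff, e1]
      have e2 : iota E w' ∈ B₁ ↔ ∃ b ∈ B, (b : Om) = g w'.val := hlies w'
      rw [e2, hgw]
      constructor
      · intro h; exact ⟨_, h, rfl⟩
      · rintro ⟨b, hb, hb'⟩
        have : iota E w' = b := Subtype.ext hb'.symm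
        rw [this]; exact hb
  have hcl := class_layer hp D hDc
  -- the unit in `D`
  have hD₀D : D₀ ≤ D := le_inf hD₀E hD₀
  obtain ⟨w, hw⟩ := exists_lift_ZF hD₀D (u : ZF D₀)
  obtain ⟨w', hw'⟩ := exists_lift_ZF hD₀D ((u⁻¹ : (ZF D₀)ˣ) : ZF D₀)
  have hmul : ∀ (K : IntermediateField ℚ Om) (x x' : ZF K), (x * x').val = x.val * x'.val :=
    fun _ _ _ => rfl
  have hww' : w * w' = 1 := by
    apply ZF_val_inj
    rw [hmul, hw, hw', ← hmul, Units.mul_inv]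
    rfl
  let u' : (ZF D)ˣ := ⟨w, w', hww', by rw [mul_comm]; exact hww'⟩
  obtain ⟨hnorm, -⟩ := unit_norm hp D M hDM hMreal hcl B₁ hB₁ hram t₁ (hPQA ht₁P) ht₁M
  obtain ⟨ε, hε⟩ := hnorm u'
  set X : ZO := iota M (ε : ZF M) with hX
  have hUX : iota D₀ (u : ZF D₀) - X ^ p ∈ B₁ := by
    have h1 := inertia_prod B₁ t₁ ht₁ X p
    have h2 : (∏ i ∈ Finset.range p, (t₁ ^ i) • X) = iota D₀ (u : ZF D₀) := by
      apply Subtype.ext
      have h3 : ((iota D₀ (u : ZF D₀) : ZO) : Om) = w.val := by rw [iota_coe, hw]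
      rw [coe_prod_smul, h3, hX, iota_coe]
      exact hε.symm
    rwa [h2] at h1
  -- `X ^ l ≡ X`
  obtain ⟨-, hpowE⟩ := pow_of_card E hl B₁ hB₁ hcard
  have hpowD : ∀ y : ZF D, iota D y - iota D y ^ l ∈ B₁ := by
    intro y
    obtain ⟨y', hy'⟩ := exists_lift_ZF hDE y
    have e1 : iota D y = iota E y' := Subtype.ext hy'.symm
    rw [e1]
    exact hpowE y'
  have hcardD := card_of_pow D hl B₁ hB₁ hlB₁ hpowD
  obtain ⟨g, hgA, hgB⟩ := exists_frob D hl (B₁.comap (iota D)) (comap_max D B₁ hB₁) hcardD B₁ hB₁ rfl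
  have hXl : X - X ^ l ∈ B₁ := by
    set j := (θ' g / θ' t₁).val with hj
    have hθj : θ' (t₁ ^ j) = θ' g := by
      rw [EM_pow E1 t₁ (hPQA ht₁P) j, hj, ZMod.natCast_val, ZMod.cast_id', id,
        div_mul_cancel₀ _ hθt₁]
    have h1 : (t₁ ^ j)⁻¹ * g ∈ M.fixingSubgroup := by
      have htj : t₁ ^ j ∈ D.fixingSubgroup := D.fixingSubgroup.pow_mem (hPQA ht₁P) j
      refine (hMfix _).2 ⟨D.fixingSubgroup.mul_mem (D.fixingSubgroup.inv_mem htj) hgA, ?_⟩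
      rw [E1 _ (D.fixingSubgroup.inv_mem htj) _ hgA, EM_inv E1 _ htj, hθj]
      ring
    have h2 : g • X = (t₁ ^ j) • X := by
      apply Subtype.ext
      show g (X : Om) = (t₁ ^ j) (X : Om)
      have h3 := fix_F h1 (ε : ZF M).val (ZF_val_mem _)
      rw [AlgEquiv.mul_apply] at h3
      have h4 := congrArg (t₁ ^ j) h3
      rwa [apply_inv_self] at h4
    have h3 := hgB X
    rw [h2] at h3
    have h4 : (t₁ ^ j) • X - X ∈ B₁ := (B₁.inertia GQ).pow_mem ht₁ j X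
    have e : X - X ^ l = ((t₁ ^ j) • X - X ^ l) - ((t₁ ^ j) • X - X) := by ring
    rw [e]
    exact B₁.sub_mem h3 h4
  have hXunit : X ∉ B₁ := by
    intro h
    have h1 : X * iota M ((ε⁻¹ : (ZF M)ˣ) : ZF M) = 1 := by
      rw [hX, ← map_mul, Units.mul_inv, map_one]
    apply hB₁.ne_top
    rw [Ideal.eq_top_iff_one, ← h1]
    exact B₁.mul_mem_right _ h
  have hX1 : X ^ (l - 1) - 1 ∈ B₁ := by
    have e : X - X ^ l = -(X * (X ^ (l - 1) - 1)) := by
      have : X ^ l = X * X ^ (l - 1) := by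
        rw [← pow_succ', Nat.sub_add_cancel hl.one_le]
      rw [this]; ring
    rw [e, B₁.neg_mem_iff] at hXl
    exact (hB₁.isPrime.mem_or_mem hXl).resolve_left hXunit
  -- `p ∣ l - 1`
  have hdvd : p ∣ l - 1 := by
    have hζint : IsIntegral ℤ ζ := hζ.isIntegral hp.pos
    have : ∃ y : ZF E, y.val = ζ := by
      let x : FL E := ⟨ζ, hζE⟩
      have hint : IsIntegral ℤ x := by
        refine (isIntegral_algHom_iff (FLhom E).toIntAlgHom (FLhom E).injective).1 ?_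
        exact hζint
      exact ⟨⟨x, hint⟩, rfl⟩
    obtain ⟨y, hy⟩ := this
    have hYp : (iota E y) ^ p = 1 := Subtype.ext (by
      push_cast
      rw [iota_coe, hy, hζ.pow_eq_one])
    have h2 := E5_two hp.pos B₁ hpB₁ (iota E y) (iota E y ^ l) hYp
      (by rw [← pow_mul, mul_comm, pow_mul, hYp, one_pow]) (hpowE y)
    have h3 : ζ ^ l = ζ := by
      have h4 := congrArg (Subtype.val : ZO → Om) h2
      have h5 : ((iota E y ^ l : ZO) : Om) = ζ ^ l := by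
        push_cast
        rw [iota_coe, hy]
      rw [h5] at h4
      rw [← h4]
      show (iota E y : Om) = ζ
      rw [iota_coe, hy]
    have h6 : ζ ^ (l - 1) = 1 := by
      have h7 : ζ ^ (l - 1) * ζ = ζ := by
        rw [← pow_succ, Nat.sub_add_cancel hl.one_le, h3]
      have hζ0 : ζ ≠ 0 := hζ.ne_zero hp.ne_zero
      exact mul_right_cancel₀ hζ0 (by rw [h7, one_mul])
    exact hζ.dvd_of_pow_eq_one _ h6
  -- conclusion
  obtain ⟨k, hk⟩ := hdvd
  apply hu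
  have hkdiv : (l - 1) / p = k := by rw [hk, Nat.mul_div_cancel_left _ hp.pos]
  rw [hkdiv]
  have h1 : iota D₀ (u : ZF D₀) ^ k - (X ^ p) ^ k ∈ B₁ := by
    obtain ⟨c, hc⟩ := sub_dvd_pow_sub_pow (iota D₀ (u : ZF D₀)) (X ^ p) k
    rw [hc]
    exact B₁.mul_mem_right _ hUX
  rw [← pow_mul, ← hk] at h1
  have e : iota D₀ (u : ZF D₀) ^ k - 1 =
      (iota D₀ (u : ZF D₀) ^ k - X ^ (l - 1)) + (X ^ (l - 1) - 1) := by ring
  rw [e]
  exact B₁.add_mem h1 hX1

end OzakiFree
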