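import Pool.Agent.Lib.MP_6e8030_nt.UMain5
import Pool.Agent.Lib.MP_6e8030_nt.EMain5

open IntermediateField
open scoped ComplexConjugate

noncomputable section

namespace OzakiFree

variable {p : ℕ} {ζ : Om} {F E : IntermediateField ℚ Om}

theorem exists_ZF_of_integral (E : IntermediateField ℚ Om) (y : Om) (hyE : y ∈ E)
    (hint : IsIntegral ℤ y) : ∃ w : ZF E, w.val = y := by
  let x : FL E := ⟨y, hyE⟩
  have hx : IsIntegral ℤ x := by
    refine (isIntegral_algHom_iff (FLhom E).toIntAlgHom (FLhom E).injective).1 ?_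
    exact hint
  exact ⟨⟨x, hx⟩, rfl⟩

theorem dvd_of_pow (hp : p.Prime) (hζ : IsPrimitiveRoot ζ p) (hζE : ζ ∈ E) (B : Ideal ZO)
    (hpB : (p : ZO) ∉ B) {l : ℕ} (hl : l.Prime)
    (hpowE : ∀ z : ZF E, iota E z - iota E z ^ l ∈ B) : p ∣ l - 1 := by
  obtain ⟨y, hy⟩ := exists_ZF_of_integral E ζ hζE (hζ.isIntegral hp.pos)
  have hYp : (iota E y) ^ p = 1 := Subtype.ext (by
    push_cast
    rw [iota_coe, hy, hζ.pow_eq_one])
  have h2 := E5_two hp.pos B hpB (iota E y) (iota E y ^ l) hYp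
    (by rw [← pow_mul, mul_comm, pow_mul, hYp, one_pow]) (hpowE y)
  have h3 : ζ ^ l = ζ := by
    have h4 := congrArg (Subtype.val : ZO → Om) h2
    have h5 : ((iota E y ^ l : ZO) : Om) = ζ ^ l := by
      push_cast
      rw [iota_coe, hy]
    rw [h5] at h4
    rw [← h4]
    show (iota E y : Om) = ζ
    rw [iota_coe, hy]
  have h6 : ζ ^ (l - 1) = 1 := by
    have h7 : ζ ^ (l - 1) * ζ = ζ := by
      rw [← pow_succ, Nat.sub_add_cancel hl.one_le, h3]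
    have hζ0 : ζ ≠ 0 := hζ.ne_zero hp.ne_zero
    exact mul_right_cancel₀ hζ0 (by rw [h7, one_mul])
  exact hζ.dvd_of_pow_eq_one _ h6

/-- the unit is not a `p`-th power modulo `B` if the Frobenius moves its `p`-th root -/
theorem unit_not_pow (hp : p.Prime) {D₀ N : IntermediateField ℚ Om}
    (u : (ZF D₀)ˣ) (y : Om) (hy : y ^ p = (u : ZF D₀).val) (hyN : y ∈ N) (s : GQ)
    (hsu : s (u : ZF D₀).val = (u : ZF D₀).val) (hsy : s y ≠ y) (B : Ideal ZO)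
    (hpB : (p : ZO) ∉ B) {l : ℕ} (hl : l.Prime) (hdvd : p ∣ l - 1)
    (hfrob : ∀ z : ZF N, s • iota N z - iota N z ^ l ∈ B) :
    iota D₀ (u : ZF D₀) ^ ((l - 1) / p) - 1 ∉ B := by
  intro hcon
  have huint : IsIntegral ℤ (u : ZF D₀).val := ZF_val_isIntegral _
  have hyint : IsIntegral ℤ y := by
    apply IsIntegral.of_pow hp.pos
    rw [hy]; exact huint
  obtain ⟨w, hw⟩ := exists_ZF_of_integral N y hyN hyint
  set Y : ZO := iota N w with hY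
  have hYc : (Y : Om) = y := by rw [hY, iota_coe, hw]
  have hYp : Y ^ p = iota D₀ (u : ZF D₀) := Subtype.ext (by
    push_cast
    rw [hYc, hy, iota_coe])
  -- `Y` is a unit
  have hUU : iota D₀ (u : ZF D₀) * iota D₀ ((u⁻¹ : (ZF D₀)ˣ) : ZF D₀) = 1 := by
    rw [← map_mul, Units.mul_inv, map_one]
  have hYinv : Y * (Y ^ (p - 1) * iota D₀ ((u⁻¹ : (ZF D₀)ˣ) : ZF D₀)) = 1 := by
    rw [← mul_assoc, ← pow_succ', Nat.sub_add_cancel hp.one_le, hYp, hUU]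
  set Y' : ZO := Y ^ (p - 1) * iota D₀ ((u⁻¹ : (ZF D₀)ˣ) : ZF D₀) with hY'
  -- `W = s Y / Y`
  set W : ZO := (s • Y) * Y' with hW
  have hsYp : (s • Y) ^ p = Y ^ p := by
    rw [hYp]
    apply Subtype.ext
    push_cast
    show (s (Y : Om)) ^ p = _
    rw [hYc, ← map_pow, hy, hsu, iota_coe]
  have hWp : W ^ p = 1 := by
    rw [hW, mul_pow, hsYp, ← mul_pow, hYinv, one_pow]
  have hWY : W * Y = s • Y := by
    rw [hW, mul_assoc, mul_comm Y' Y, hYinv, mul_one]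
  have hW1 : W - 1 ∈ B := by
    have h1 := hfrob w
    rw [← hY, ← hWY] at h1
    have h2 : Y ^ l = Y ^ (l - 1) * Y := by rw [← pow_succ, Nat.sub_add_cancel hl.one_le]
    obtain ⟨k, hk⟩ := hdvd
    have hkdiv : (l - 1) / p = k := by rw [hk, Nat.mul_div_cancel_left _ hp.pos]
    have h3 : Y ^ (l - 1) - 1 ∈ B := by
      rw [hk, pow_mul, hYp, ← hkdiv]
      exact hcon
    have h4 : (W - 1) * Y ∈ B := by
      have e : (W - 1) * Y = (W * Y - Y ^ l) + (Y ^ (l - 1) - 1) * Y := by rw [h2]; ring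
      rw [e]
      exact B.add_mem h1 (B.mul_mem_right _ h3)
    have h5 : (W - 1) * Y * Y' ∈ B := B.mul_mem_right _ h4
    rwa [mul_assoc, hYinv, mul_one] at h5
  have hWone : W = 1 := E5_two hp.pos B hpB W 1 hWp (one_pow _) hW1
  apply hsy
  rw [hWone, one_mul] at hWY
  have h1 := congrArg (Subtype.val : ZO → Om) hWY
  have h2 : s (Y : Om) = (Y : Om) := h1.symm
  rwa [hYc] at h2

/-- **the main theorem: all primes, all number fields** -/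
theorem mainU {p : ℕ} (hp : p.Prime) (F : IntermediateField ℚ Om) [FiniteDimensional ℚ F] :
    ∃ (N : IntermediateField ℚ Om) (s : GQ) (C : ℕ), FiniteDimensional ℚ N ∧ F ≤ N ∧
      (∀ t, Fixes t F → ∀ x ∈ N, t x ∈ N) ∧ Fixes s F ∧ (∀ ζ : Om, ζ ^ p = 1 → s ζ = ζ) ∧
      ∀ k : IntermediateField ℚ Om, CyclicExt p F k →
        (C : ℕ∞) < (FrobRam F N k s).encard → ¬ FreeGal p (cycZp p k) := by
  obtain ⟨D₀, hD₀fin, u, hD₀c, hu⟩ := exists_unit hp F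
  set E : IntermediateField ℚ Om := F ⊔ D₀ ⊔ adjoin ℚ {x : Om | x ^ p = 1} with hE
  have hμfin : FiniteDimensional ℚ (adjoin ℚ {x : Om | x ^ p = 1}) := by
    have h1 : ({x : Om | x ^ p = 1} : Set Om).Finite := E10_mu_finite hp.pos
    have := h1.to_subtype
    exact IntermediateField.finiteDimensional_adjoin fun x _ =>
      (Algebra.IsAlgebraic.isAlgebraic x).isIntegral
  have hEfin : FiniteDimensional ℚ E := by
    rw [hE]; infer_instance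
  have hFE : F ≤ E := le_sup_left.trans le_sup_left
  have hDE : D₀ ≤ E := le_sup_right.trans le_sup_left
  have hμ : ∀ x : Om, x ^ p = 1 → x ∈ E := fun x hx =>
    (le_sup_right : _ ≤ E) (subset_adjoin ℚ _ hx)
  have hEF : E.fixingSubgroup ≤ F.fixingSubgroup :=
    IntermediateField.fixingSubgroup_antitone hFE
  obtain ⟨y, hy⟩ := IsAlgClosed.exists_pow_nat_eq (u : ZF D₀).val hp.pos
  have hyE : y ∉ E := hu y hy
  obtain ⟨N, hNfin, hEN, hyN, hNst⟩ := exists_N E y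
  have hs : ∃ s ∈ E.fixingSubgroup, s y ≠ y := by
    by_contra hcon
    push Not at hcon
    apply hyE
    rw [← InfiniteGalois.fixedField_fixingSubgroup E]
    rintro ⟨σ, hσ⟩
    exact hcon σ hσ
  obtain ⟨s, hsE, hsy⟩ := hs
  obtain ⟨Dg, hD0, hD⟩ := exists_good E
  obtain ⟨C₁, hC₁⟩ := pigeon (FL E) p hp
  have hDp0 : Dg * p ≠ 0 := mul_ne_zero hD0 hp.ne_zero
  have hfin := finite_above F (Dg * p) hDp0
  refine ⟨N, s, C₁ + {q : Ideal (ZF F) | q.IsMaximal ∧ ((Dg * p : ℕ) : ZF F) ∈ q}.ncard, hNfin,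
    hFE.trans hEN, fun t _ => hNst t, (N11_fix F s).1 (hEF hsE),
    fun ξ hξ => fix_F hsE ξ (hμ ξ hξ), fun k hk hlt hfree => ?_⟩
  set Bad := {q : Ideal (ZF F) | q.IsMaximal ∧ ((Dg * p : ℕ) : ZF F) ∈ q} with hBad
  have hS : (C₁ : ℕ∞) < (FrobRam F N k s \ Bad).encard := by
    by_contra hcon
    rw [not_lt] at hcon
    have h1 : (FrobRam F N k s).encard ≤ (FrobRam F N k s \ Bad).encard + Bad.encard := by
      refine le_trans (Set.encard_le_encard (t := (FrobRam F N k s \ Bad) ∪ Bad) ?_)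
        (Set.encard_union_le _ _)
      intro q hq
      by_cases h : q ∈ Bad
      · exact Or.inr h
      · exact Or.inl ⟨hq, h⟩
    have h2 : Bad.encard = (Bad.ncard : ℕ∞) := (hfin.cast_ncard_eq).symm
    have h3 : (FrobRam F N k s).encard ≤ (C₁ : ℕ∞) + (Bad.ncard : ℕ∞) := by
      rw [← h2]
      exact le_trans h1 (add_le_add_left hcon _)
    have h4 : ((C₁ + Bad.ncard : ℕ) : ℕ∞) = (C₁ : ℕ∞) + (Bad.ncard : ℕ∞) := by push_cast; rfl
    rw [h4] at hlt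
    exact absurd (lt_of_lt_of_le hlt h3) (lt_irrefl _)
  -- the chosen maximal ideals
  have hchoice : ∀ q : Ideal (ZF F), q ∈ FrobRam F N k s \ Bad → ∃ B : Ideal ZO, B.IsMaximal ∧
      B.comap (iota F) = q ∧ ∀ z : ZF N, s • iota N z - iota N z ^ Nat.card (ZF F ⧸ q) ∈ B := by
    rintro q ⟨⟨-, -, -, B₀, hB₀, hmem, hfr⟩, -⟩
    let B' : Ideal ZO := B₀
    have hB' : B'.IsMaximal := hB₀
    have hmem' : ∀ z : ZF F, z ∈ q ↔ ∃ b ∈ B', (b : Om) = z.val := hmem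
    have hfr' : ∀ z : ZF N, ∃ b ∈ B', (b : Om) = s z.val - z.val ^ Nat.card (ZF F ⧸ q) := hfr
    refine ⟨B', hB', ?_, fun z => ?_⟩
    · ext z
      rw [hmem' z, mem_comap_iff]
      constructor
      · intro h; exact ⟨_, h, rfl⟩
      · rintro ⟨b, hb, hb'⟩
        have : iota F z = b := Subtype.ext hb'.symm
        rw [this]; exact hb
    · obtain ⟨b, hb, hb'⟩ := hfr' z
      have : s • iota N z - iota N z ^ Nat.card (ZF F ⧸ q) = b := by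
        apply Subtype.ext
        push_cast
        exact hb'.symm
      rw [this]; exact hb
  choose! B hBm hBq hBf using hchoice
  have hqmax : ∀ q ∈ FrobRam F N k s \ Bad, q.IsMaximal := fun q hq => hq.1.1
  have hqpr : ∀ q ∈ FrobRam F N k s \ Bad, (Nat.card (ZF F ⧸ q)).Prime := fun q hq => hq.1.2.1
  have hinj : Set.InjOn (fun q => (B q).comap (iota E)) (FrobRam F N k s \ Bad) := by
    intro q hq q' hq' h
    have h1 := comap_lower hFE _ _ h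
    rwa [hBq q hq, hBq q' hq'] at h1
  have hlB : ∀ q ∈ FrobRam F N k s \ Bad, ((Nat.card (ZF F ⧸ q) : ℕ) : ZO) ∈ B q := by
    intro q hq
    have h1 : ((Nat.card (ZF F ⧸ q) : ℕ) : ZF F) ∈ (B q).comap (iota F) := by
      rw [hBq q hq]; exact card_mem q rfl
    rwa [mem_comap_iff, map_natCast] at h1
  have hndvd : ∀ q ∈ FrobRam F N k s \ Bad, ¬ Nat.card (ZF F ⧸ q) ∣ Dg * p := by
    rintro q hq ⟨j, hj⟩
    apply hq.2
    refine ⟨hq.1.1, ?_⟩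
    rw [hj, Nat.cast_mul]
    exact q.mul_mem_right _ (card_mem q rfl)
  have hlp : ∀ q ∈ FrobRam F N k s \ Bad, Nat.card (ZF F ⧸ q) ≠ p := by
    intro q hq h
    exact hndvd q hq (by rw [h]; exact Dvd.intro_left _ rfl)
  have hgood : ∀ q ∈ FrobRam F N k s \ Bad, Good E (Nat.card (ZF F ⧸ q)) := by
    intro q hq
    exact hD _ (hqpr q hq) fun h => hndvd q hq (h.mul_right p)
  have hpB : ∀ q ∈ FrobRam F N k s \ Bad, (p : ZO) ∉ B q := fun q hq =>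
    not_mem_of_prime (hqpr q hq) hp (hlp q hq) (B q) (hBm q hq) (hlB q hq)
  have hpowE : ∀ q ∈ FrobRam F N k s \ Bad, ∀ w : ZF E,
      iota E w - iota E w ^ Nat.card (ZF F ⧸ q) ∈ B q := by
    intro q hq w
    obtain ⟨w', hw'⟩ := exists_lift_ZF hEN w
    have h1 := hBf q hq w'
    have e1 : iota N w' = iota E w := Subtype.ext hw'
    have e2 : s • iota E w = iota E w := Subtype.ext (fix_F hsE _ (ZF_val_mem w))
    rwa [e1, e2] at h1
  have hcardE : ∀ q ∈ FrobRam F N k s \ Bad,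
      Nat.card (ZF E ⧸ (B q).comap (iota E)) = Nat.card (ZF F ⧸ q) := fun q hq =>
    card_of_pow E (hqpr q hq) (B q) (hBm q hq) (hlB q hq) (hpowE q hq)
  have hS' : (C₁ : ℕ∞) < ((fun q => (B q).comap (iota E)) '' (FrobRam F N k s \ Bad)).encard := by
    rw [hinj.encard_image]; exact hS
  obtain ⟨Q₁, ⟨q₁, hq₁, rfl⟩, Q₂, ⟨q₂, hq₂, rfl⟩, Q₃, ⟨q₃, hq₃, rfl⟩, n₁₂, n₁₃, n₂₃, b₁, b₂, P₁,
    P₂⟩ := hC₁ ((fun q => (B q).comap (iota E)) '' (FrobRam F N k s \ Bad)) hS' (by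
      rintro _ ⟨q, hq, rfl⟩
      refine ⟨comap_max _ (B q) (hBm q hq), fun h => hpB q hq ?_⟩
      have h2 : (p : ZF E) ∈ (B q).comap (iota E) := h
      rwa [mem_comap_iff, map_natCast] at h2)
  obtain ⟨ζ, hζ⟩ := exists_prim p hp.pos
  have hζE := hμ ζ hζ.pow_eq_one
  have hk' := hk
  obtain ⟨χ₀, hχhom, hχlc, hχk⟩ := exists_chi0 hp F k hk
  obtain ⟨a, y₀, ha, h0, hyt⟩ := kummer_gen hp hζ E hζE χ₀
    (fun g hg h hh => hχhom g (hEF hg) h (hEF hh)) (by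
      obtain ⟨U, hU, hU'⟩ := hχlc
      exact ⟨U, hU, fun g hg u hu huE => hU' g (hEF hg) u hu (hEF huE)⟩)
  have hχa : ∀ t ∈ E.fixingSubgroup, chi (p := p) ζ y₀ t = χ₀ t := by
    intro t ht
    rw [chiF_unique hp hζ (rt_ne_zero hp h0 (val_ne_zero ha)) t _ (hyt t ht)]
    have : NeZero p := ⟨hp.ne_zero⟩
    simp
  have hK : ∀ σ, σ ∈ (cycZp p k).fixingSubgroup ↔ σ ∈ MF p F ∧ χ₀ σ = 0 := by
    intro σ
    rw [mem_cycZp_PQ hp k σ, hχk]
    constructor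
    · rintro ⟨h1, h2, h3⟩; exact ⟨⟨h1, h2⟩, h3⟩
    · rintro ⟨⟨h1, h2⟩, h3⟩; exact ⟨h1, h2, h3⟩
  have hv : ∀ q ∈ FrobRam F N k s \ Bad,
      ¬ p ∣ multiplicity ((B q).comap (iota E)) (Ideal.span {a}) := by
    intro q hq
    refine ram_val hp hζ k χ₀ hχhom hχk a ha y₀ h0 hχa (B q) (hBm q hq) (hpB q hq)
      (hlB q hq) (hgood q hq) ?_
    rw [hBq q hq]
    exact hq.1.2.2.1
  obtain ⟨z, hz⟩ := IsAlgClosed.exists_pow_nat_eq ((Nat.card (ZF F ⧸ q₁) : ℕ) : Om) hp.pos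
  have hne : ∀ q ∈ FrobRam F N k s \ Bad, ∀ q' ∈ FrobRam F N k s \ Bad,
      (B q).comap (iota E) ≠ (B q').comap (iota E) →
      (B q).comap (iota F) ≠ (B q').comap (iota F) := by
    intro q hq q' hq' h h'
    rw [hBq q hq, hBq q' hq'] at h'
    exact h (by rw [h'])
  obtain ⟨ψ, c, hc, ψ1, ψ2, hA, hB, hR⟩ := stepB' hp hζ hFE hμ χ₀ hχhom hχlc a ha y₀ h0 hχa
    (cycZp p k) hK hfree (B q₁) (B q₂) (B q₃) (hBm q₁ hq₁) (hv q₁ hq₁) (hv q₂ hq₂) (hv q₃ hq₃)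
    (hne q₁ hq₁ q₂ hq₂ n₁₂) (hne q₁ hq₁ q₃ hq₃ n₁₃) (hne q₂ hq₂ q₃ hq₃ n₂₃) (hqpr q₁ hq₁)
    (hlp q₁ hq₁) (hgood q₁ hq₁) (hlB q₁ hq₁) (hcardE q₁ hq₁) z hz b₁ b₂ P₁ P₂
  obtain ⟨θ, θ1, θ2, T1, T2, T3⟩ := stepT hp hFE (B q₁) (hBm q₁ hq₁) (hqpr q₁ hq₁)
    (hlp q₁ hq₁) (hgood q₁ hq₁) (hlB q₁ hq₁) (hcardE q₁ hq₁) (fun x => c * chi (p := p) ζ z x)
    ψ ψ1 ψ2 hA hB hR
  have hdvd := dvd_of_pow hp hζ hζE (B q₁) (hpB q₁ hq₁) (hqpr q₁ hq₁) (hpowE q₁ hq₁)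
  exact stepD hp hζ hμ (B q₁) (hBm q₁ hq₁) (hqpr q₁ hq₁) (hlp q₁ hq₁) (hgood q₁ hq₁)
    (hlB q₁ hq₁) (hcardE q₁ hq₁) z hz θ c hc θ1 θ2 T1 T2 T3 D₀ hDE hD₀c u
    (unit_not_pow hp u y hy hyN s (fix_F hsE _ (hDE (ZF_val_mem _))) hsy (B q₁)
      (hpB q₁ hq₁) (hqpr q₁ hq₁) hdvd (hBf q₁ hq₁))

end OzakiFree
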