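import Pool.Agent.Lib.MP_6e8030_nt.GH

open IntermediateField
open scoped ComplexConjugate

noncomputable section

namespace OzakiFree

/-! ### V1: values of the transfer (pure group theory) -/

private theorem V1_memG {Γ : Type*} [Group Γ] (G : Subgroup Γ) (s : Γ ⧸ G → Γ)
    (hs : ∀ x, (s x : Γ ⧸ G) = x) (t : Γ) (x y : Γ ⧸ G) (hxy : t • x = y) :
    (s y)⁻¹ * t * s x ∈ G := by
  have h3 : ((s y : Γ) : Γ ⧸ G) = ((t * s x : Γ) : Γ ⧸ G) := by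
    have h4 : ((t * s x : Γ) : Γ ⧸ G) = t • ((s x : Γ) : Γ ⧸ G) := rfl
    rw [h4, hs, hs, hxy]
  have h5 := QuotientGroup.eq.1 h3
  rwa [mul_assoc]

/-- additivity of the transfer sum -/
private theorem V1_add {Γ : Type*} [Group Γ] {p : ℕ} (G : Subgroup Γ) [Fintype (Γ ⧸ G)]
    (s : Γ ⧸ G → Γ) (hs : ∀ x, (s x : Γ ⧸ G) = x) (ψ : Γ → ZMod p) (h1 : HomOn G ψ) (t t' : Γ) :
    ∑ x : Γ ⧸ G, ψ ((s ((t * t') • x))⁻¹ * (t * t') * s x) =
      ∑ x : Γ ⧸ G, ψ ((s (t • x))⁻¹ * t * s x) + ∑ x : Γ ⧸ G, ψ ((s (t' • x))⁻¹ * t' * s x) := by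
  have h3 : ∀ x, ψ ((s ((t * t') • x))⁻¹ * (t * t') * s x) =
      ψ ((s (t • (t' • x)))⁻¹ * t * s (t' • x)) + ψ ((s (t' • x))⁻¹ * t' * s x) := by
    intro x
    rw [← h1 _ (V1_memG G s hs t (t' • x) _ rfl) _ (V1_memG G s hs t' x _ rfl), mul_smul]
    congr 1
    group
  have h4 : ∑ x : Γ ⧸ G, ψ ((s (t • (t' • x)))⁻¹ * t * s (t' • x)) =
      ∑ x : Γ ⧸ G, ψ ((s (t • x))⁻¹ * t * s x) :=
    Equiv.sum_comp (MulAction.toPerm (β := Γ ⧸ G) t')
      (fun y => ψ ((s (t • y))⁻¹ * t * s y))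
  rw [← h4, ← Finset.sum_add_distrib]
  exact Finset.sum_congr rfl fun x _ => h3 x

/-- vanishing of the transfer sum -/
private theorem V1_zero {Γ : Type*} [Group Γ] {p : ℕ} (G : Subgroup Γ) [Fintype (Γ ⧸ G)]
    (s : Γ ⧸ G → Γ) (hs : ∀ x, (s x : Γ ⧸ G) = x) (ψ : Γ → ZMod p) (h1 : HomOn G ψ) (t : Γ)
    (hv : ∀ (g : Γ) (n : ℕ), 0 < n → g⁻¹ * t ^ n * g ∈ G → ψ (g⁻¹ * t ^ n * g) = 0) :
    ∑ x : Γ ⧸ G, ψ ((s (t • x))⁻¹ * t * s x) = 0 := by
  classical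
  have hmemG := V1_memG G s hs
  let r : Γ ⧸ G → Γ ⧸ G := fun x =>
    Quotient.out (Quotient.mk (MulAction.orbitRel (Subgroup.zpowers t) (Γ ⧸ G)) x)
  have hr : ∀ x, ∃ i : ℤ, (t ^ i) • r x = x := by
    intro x
    have h := Quotient.exact
      (Quotient.out_eq (Quotient.mk (MulAction.orbitRel (Subgroup.zpowers t) (Γ ⧸ G)) x))
    have h2 : r x ∈ MulAction.orbit (Subgroup.zpowers t) x := MulAction.orbitRel_apply.1 h
    obtain ⟨⟨g, hg⟩, hgx⟩ := h2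
    obtain ⟨i, rfl⟩ := Subgroup.mem_zpowers_iff.1 hg
    refine ⟨-i, ?_⟩
    have h3 : (t ^ i) • x = r x := hgx
    rw [← h3, zpow_neg, inv_smul_smul]
  have hrr : ∀ x, r (t • x) = r x := by
    intro x
    have h3 : Quotient.mk (MulAction.orbitRel (Subgroup.zpowers t) (Γ ⧸ G)) (t • x) =
        Quotient.mk (MulAction.orbitRel (Subgroup.zpowers t) (Γ ⧸ G)) x :=
      Quotient.sound (MulAction.orbitRel_apply.2 ⟨⟨t, Subgroup.mem_zpowers t⟩, rfl⟩)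
    show Quotient.out _ = Quotient.out _
    rw [h3]
  choose i hi using hr
  have hin : ∀ x, (s x)⁻¹ * t ^ (i x) * s (r x) ∈ G := fun x => hmemG _ _ _ (hi x)
  have hz : ∀ (m : ℤ) (y : Γ ⧸ G), (t ^ m) • y = y → ψ ((s y)⁻¹ * t ^ m * s y) = 0 := by
    intro m y hm
    rcases lt_trichotomy m 0 with h0 | h0 | h0
    · obtain ⟨n, rfl⟩ : ∃ n : ℕ, m = -(n : ℤ) := ⟨m.natAbs, by omega⟩
      have hn : 0 < n := by omega
      have h3 : (s y)⁻¹ * t ^ (-(n : ℤ)) * s y = ((s y)⁻¹ * t ^ n * s y)⁻¹ := by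
        rw [zpow_neg, zpow_natCast]
        group
      have h4 : (s y)⁻¹ * t ^ (-(n : ℤ)) * s y ∈ G := hmemG _ _ _ hm
      have h5 : (s y)⁻¹ * t ^ n * s y ∈ G := by
        rw [h3] at h4
        exact (Subgroup.inv_mem_iff G).1 h4
      rw [h3, GH_inv h1 h5, hv _ _ hn h5, neg_zero]
    · subst h0
      rw [zpow_zero, mul_one, inv_mul_cancel]
      exact GH_one h1
    · obtain ⟨n, rfl⟩ : ∃ n : ℕ, m = (n : ℤ) := ⟨m.natAbs, by omega⟩
      have hn : 0 < n := by omega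
      have h4 : (s y)⁻¹ * t ^ (n : ℤ) * s y ∈ G := hmemG _ _ _ hm
      rw [zpow_natCast] at h4 ⊢
      exact hv _ _ hn h4
  let b : Γ ⧸ G → ZMod p := fun x => ψ ((s x)⁻¹ * t ^ (i x) * s (r x))
  have hb : ∀ x, ψ ((s (t • x))⁻¹ * t * s x) = b (t • x) - b x := by
    intro x
    have h3 : (t ^ (i (t • x) - i x - 1)) • r x = r x := by
      have h4 := hi (t • x)
      rw [hrr] at h4
      have h5 : (t ^ (i (t • x) - i x - 1)) • r x =
          (t ^ (i x))⁻¹ • (t⁻¹ • ((t ^ (i (t • x))) • r x)) := by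
        rw [← mul_smul, ← mul_smul]
        congr 1
        group
      rw [h5, h4, inv_smul_smul, inv_smul_eq_iff]
      exact (hi x).symm
    have h6 : (s (r x))⁻¹ * t ^ (i (t • x) - i x - 1) * s (r x) ∈ G := hmemG _ _ _ h3
    have h7 : (s (t • x))⁻¹ * t ^ (i (t • x)) * s (r (t • x)) =
        ((s (t • x))⁻¹ * t * s x) * (((s x)⁻¹ * t ^ (i x) * s (r x)) *
          ((s (r x))⁻¹ * t ^ (i (t • x) - i x - 1) * s (r x))) := by
      rw [hrr]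
      have h8 : t ^ (i (t • x)) = t * (t ^ (i x) * t ^ (i (t • x) - i x - 1)) := by
        rw [← zpow_add, ← zpow_one_add]
        congr 1
        ring
      rw [h8]
      group
    show _ = ψ ((s (t • x))⁻¹ * t ^ (i (t • x)) * s (r (t • x))) - _
    rw [h7, h1 _ (hmemG t x _ rfl) _ (G.mul_mem (hin x) h6), h1 _ (hin x) _ h6, hz _ _ h3]
    show _ = _ + (b x + 0) - b x
    ring
  have h9 : ∑ x : Γ ⧸ G, b (t • x) = ∑ x : Γ ⧸ G, b x :=
    Equiv.sum_comp (MulAction.toPerm (β := Γ ⧸ G) t) (fun y => b y)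
  calc ∑ x : Γ ⧸ G, ψ ((s (t • x))⁻¹ * t * s x)
      = ∑ x : Γ ⧸ G, (b (t • x) - b x) := Finset.sum_congr rfl fun x _ => hb x
    _ = 0 := by rw [Finset.sum_sub_distrib, h9, sub_self]

/-- the transfer sum of a homomorphism of the whole group -/
private theorem V1_hom {Γ : Type*} [Group Γ] {p : ℕ} (G : Subgroup Γ) [Fintype (Γ ⧸ G)]
    (s : Γ ⧸ G → Γ) (χ : Γ → ZMod p) (h1 : HomOn (⊤ : Subgroup Γ) χ) (t : Γ) :
    ∑ x : Γ ⧸ G, χ ((s (t • x))⁻¹ * t * s x) = (Nat.card (Γ ⧸ G) : ZMod p) * χ t := by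
  have h2 : ∀ x, χ ((s (t • x))⁻¹ * t * s x) = χ t + (χ (s x) - χ (s (t • x))) := by
    intro x
    rw [h1 _ trivial _ trivial, h1 _ trivial _ trivial, GH_inv h1 trivial]
    ring
  rw [Finset.sum_congr rfl fun x _ => h2 x, Finset.sum_add_distrib, Finset.sum_sub_distrib]
  have h9 : ∑ x : Γ ⧸ G, χ (s (t • x)) = ∑ x : Γ ⧸ G, χ (s x) :=
    Equiv.sum_comp (MulAction.toPerm (β := Γ ⧸ G) t) (fun y => χ (s y))
  rw [h9, sub_self, add_zero, Finset.sum_const, nsmul_eq_mul, Finset.card_univ,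
    Nat.card_eq_fintype_card]

theorem transfer_val {Γ : Type*} [Group Γ] [TopologicalSpace Γ] [IsTopologicalGroup Γ] {p : ℕ}
    (M G : Subgroup Γ) (hG : IsOpen (G : Set Γ)) (hfin : G.FiniteIndex)
    (ψ : Γ → ZMod p) (h1 : HomOn (M ⊓ G) ψ) (h2 : LCOn (M ⊓ G) ψ) :
    ∃ θ : Γ → ZMod p, HomOn M θ ∧ LCOn M θ ∧
      ∀ t ∈ M, ∀ χ : Γ → ZMod p, HomOn M χ →
        (∀ g ∈ M, ∀ n : ℕ, g⁻¹ * t ^ n * g ∈ G → ψ (g⁻¹ * t ^ n * g) = χ (g⁻¹ * t ^ n * g)) →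
        θ t = ((M ⊓ G).relIndex M : ZMod p) * χ t := by
  classical
  let G' : Subgroup M := G.subgroupOf M
  have hfin' : G'.FiniteIndex := inferInstance
  have : Finite (M ⧸ G') := inferInstance
  have : Fintype (M ⧸ G') := Fintype.ofFinite _
  let ψ' : M → ZMod p := fun g => ψ g
  have h1' : HomOn G' ψ' := fun g hg h hh => h1 g ⟨g.2, hg⟩ h ⟨h.2, hh⟩
  let s : M ⧸ G' → M := fun x => Quotient.out x
  have hs : ∀ x, (s x : M ⧸ G') = x := fun x => QuotientGroup.out_eq' x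
  let θ' : M → ZMod p := fun t => ∑ x : M ⧸ G', ψ' ((s (t • x))⁻¹ * t * s x)
  let θ : Γ → ZMod p := fun g => if h : g ∈ M then θ' ⟨g, h⟩ else 0
  have hθ : ∀ g (h : g ∈ M), θ g = θ' ⟨g, h⟩ := fun g h => dif_pos h
  have hom : HomOn M θ := by
    intro g hg h hh
    rw [hθ _ (M.mul_mem hg hh), hθ g hg, hθ h hh]
    exact V1_add G' s hs ψ' h1' ⟨g, hg⟩ ⟨h, hh⟩
  refine ⟨θ, hom, ?_, ?_⟩
  · obtain ⟨U0, hU0, hU⟩ := h2
    refine ⟨⨅ x : M ⧸ G', (U0 ⊓ G).comap (MulAut.conj ((s x : M) : Γ)⁻¹).toMonoidHom, ?_, ?_⟩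
    · rw [Subgroup.coe_iInf]
      refine isOpen_iInter_of_finite fun x => ?_
      have h3 : ((((U0 ⊓ G).comap (MulAut.conj ((s x : M) : Γ)⁻¹).toMonoidHom : Subgroup Γ)) : Set Γ) =
          (fun g => ((s x : M) : Γ)⁻¹ * g * (s x : M)) ⁻¹' ((U0 : Set Γ) ∩ (G : Set Γ)) := by
        ext g
        simp
      rw [h3]
      exact (hU0.inter hG).preimage (by fun_prop)
    · intro g hg u hu huM
      have hu' : ∀ x, ((s x : M) : Γ)⁻¹ * u * (s x : M) ∈ U0 ∧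
          ((s x : M) : Γ)⁻¹ * u * (s x : M) ∈ G := by
        intro x
        have h3 := (Subgroup.mem_iInf.1 hu) x
        simpa [MulAut.conj_apply] using h3
      have hfix : ∀ x : M ⧸ G', (⟨u, huM⟩ : M) • x = x := by
        intro x
        have h3 : ((s x : M) : M ⧸ G') = (((⟨u, huM⟩ : M) * s x : M) : M ⧸ G') := by
          rw [QuotientGroup.eq, ← mul_assoc]
          exact (hu' x).2
        have h4 : (((⟨u, huM⟩ : M) * s x : M) : M ⧸ G') = (⟨u, huM⟩ : M) • ((s x : M) : M ⧸ G') :=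
          rfl
        rw [h4, hs] at h3
        exact h3.symm
      have h8 : θ u = 0 := by
        rw [hθ u huM]
        refine Finset.sum_eq_zero fun x _ => ?_
        rw [hfix x]
        have h9 := hU 1 (Subgroup.one_mem _) _ (hu' x).1
          ⟨M.mul_mem (M.mul_mem (M.inv_mem (s x).2) huM) (s x).2, (hu' x).2⟩
        rw [one_mul] at h9
        show ψ (((s x : M) : Γ)⁻¹ * u * (s x : M)) = 0
        rw [h9]
        exact GH_one h1
      rw [hom g hg u huM, h8, add_zero]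
  · intro t ht χ hχ hv
    let χ' : M → ZMod p := fun g => χ g
    have hχ' : HomOn (⊤ : Subgroup M) χ' := fun g _ h _ => hχ g g.2 h h.2
    have e1 : ∑ x : M ⧸ G', (fun g => ψ' g - χ' g)
        ((s ((⟨t, ht⟩ : M) • x))⁻¹ * (⟨t, ht⟩ : M) * s x) = 0 := by
      apply V1_zero G' s hs (fun g => ψ' g - χ' g)
      · intro g hg h hh
        show ψ' (g * h) - χ' (g * h) = (ψ' g - χ' g) + (ψ' h - χ' h)
        rw [h1' g hg h hh, hχ' g trivial h trivial]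
        ring
      · intro g n _ hgn
        have h5 := hv g g.2 n hgn
        show ψ _ - χ _ = 0
        rw [sub_eq_zero]
        exact h5
    have e2 := V1_hom G' s χ' hχ' ⟨t, ht⟩
    have e3 : ∑ x : M ⧸ G', ((fun g => ψ' g - χ' g)
        ((s ((⟨t, ht⟩ : M) • x))⁻¹ * (⟨t, ht⟩ : M) * s x)) = θ' ⟨t, ht⟩ -
        ∑ x : M ⧸ G', χ' ((s ((⟨t, ht⟩ : M) • x))⁻¹ * (⟨t, ht⟩ : M) * s x) := by
      rw [← Finset.sum_sub_distrib]
    rw [e3, e2, sub_eq_zero] at e1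
    rw [hθ t ht, e1, Subgroup.inf_relIndex_left]
    rfl

end OzakiFree
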