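import Pool.Agent.Lib.MP_6e8030_nt.E10
import Pool.Agent.Lib.MP_6e8030_nt.EMain

open IntermediateField
open scoped ComplexConjugate

noncomputable section

namespace OzakiFree

/-! ### V2: the index -/

private theorem V2_relIndex {Γ : Type*} [Group Γ] (P H G : Subgroup Γ) (hP : P.Normal)
    (hHG : H ≤ G) : H.relIndex (P ⊓ G) = H.relIndex ((P ⊔ H) ⊓ G) := by
  have hle : P ⊓ G ≤ (P ⊔ H) ⊓ G := inf_le_inf_right G le_sup_left
  rw [Subgroup.relIndex, Subgroup.relIndex, Subgroup.index, Subgroup.index]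
  let f : (↥(P ⊓ G)) ⧸ (H.subgroupOf (P ⊓ G)) →
      (↥((P ⊔ H) ⊓ G)) ⧸ (H.subgroupOf ((P ⊔ H) ⊓ G)) :=
    Quotient.map' (fun x => (⟨x.1, hle x.2⟩ : ↥((P ⊔ H) ⊓ G))) (by
      intro a b hab
      rw [QuotientGroup.leftRel_apply] at hab ⊢
      exact hab)
  refine Nat.card_congr (Equiv.ofBijective f ⟨?_, ?_⟩)
  · intro a b hab
    induction a using QuotientGroup.induction_on with
    | H a =>
      induction b using QuotientGroup.induction_on with
      | H b =>
        have h1 := QuotientGroup.eq.1 hab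
        exact QuotientGroup.eq.2 h1
  · intro y
    induction y using QuotientGroup.induction_on with
    | H y =>
      obtain ⟨y, hy⟩ := y
      have h1 : y ∈ ((P ⊔ H : Subgroup Γ) : Set Γ) := hy.1
      rw [Subgroup.normal_mul] at h1
      obtain ⟨q, hq, h, hh, hqh⟩ := h1
      have hqG : q ∈ G := by
        have h2 : q = y * h⁻¹ := by rw [← hqh]; group
        rw [h2]
        exact G.mul_mem hy.2 (G.inv_mem (hHG hh))
      refine ⟨((⟨q, hq, hqG⟩ : ↥(P ⊓ G)) : (↥(P ⊓ G)) ⧸ (H.subgroupOf (P ⊓ G))), ?_⟩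
      refine QuotientGroup.eq.2 ?_
      show q⁻¹ * y ∈ H
      rw [← hqh]
      simpa using hh

theorem index_MF {p : ℕ} (hp : p.Prime) (F k₁ : IntermediateField ℚ Om) [FiniteDimensional ℚ F]
    [FiniteDimensional ℚ k₁] (hF : F ≤ k₁) (hdeg : ¬ p ∣ relfinrank F k₁) :
    ¬ p ∣ (MF p F ⊓ k₁.fixingSubgroup).relIndex (MF p F) := by
  intro hdvd
  apply hdeg
  have hle : k₁.fixingSubgroup ≤ F.fixingSubgroup := IntermediateField.fixingSubgroup_antitone hF
  rw [Subgroup.inf_relIndex_left] at hdvd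
  have h1 : k₁.fixingSubgroup.relIndex (MF p F) =
      k₁.fixingSubgroup.relIndex ((PQ p ⊔ k₁.fixingSubgroup) ⊓ F.fixingSubgroup) :=
    V2_relIndex (PQ p) k₁.fixingSubgroup F.fixingSubgroup (E10_PQ_normal hp) hle
  have h2 := Subgroup.relIndex_mul_relIndex k₁.fixingSubgroup
    ((PQ p ⊔ k₁.fixingSubgroup) ⊓ F.fixingSubgroup) F.fixingSubgroup
    (le_inf le_sup_right hle) inf_le_right
  have h3 := Subgroup.relIndex_mul_index hle
  rw [← IntermediateField.finrank_eq_fixingSubgroup_index,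
    ← IntermediateField.finrank_eq_fixingSubgroup_index] at h3
  have h4 := relfinrank_mul_relfinrank (bot_le : (⊥ : IntermediateField ℚ Om) ≤ F) hF
  rw [relfinrank_bot_left, relfinrank_bot_left] at h4
  have hpos : 0 < Module.finrank ℚ F := Module.finrank_pos
  have h5 : k₁.fixingSubgroup.relIndex F.fixingSubgroup = relfinrank F k₁ := by
    apply Nat.eq_of_mul_eq_mul_left hpos
    rw [h4, ← h3, mul_comm]
  rw [← h5, ← h2, ← h1]
  exact dvd_mul_of_dvd_left hdvd _

theorem finite_of_deg {p : ℕ} (F k₁ : IntermediateField ℚ Om) [FiniteDimensional ℚ F]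
    (hF : F ≤ k₁) (hdeg : ¬ p ∣ relfinrank F k₁) : FiniteDimensional ℚ k₁ := by
  have h1 := relfinrank_mul_relfinrank (bot_le : (⊥ : IntermediateField ℚ Om) ≤ F) hF
  rw [relfinrank_bot_left, relfinrank_bot_left] at h1
  apply Module.finite_of_finrank_pos
  rw [← h1]
  refine Nat.mul_pos Module.finrank_pos (Nat.pos_of_ne_zero ?_)
  intro h0
  exact hdeg (h0 ▸ dvd_zero p)

end OzakiFree
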