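import Pool.Agent.Lib.MP_6e8030_nt.EDefs

open IntermediateField
open scoped ComplexConjugate

noncomputable section

namespace OzakiFree

/-- `p` divides the ramification index in `k` of every prime ideal `Q` of `k` above `q`: the
exponent of `Q` in the ideal generated by `q` is divisible by `p`. -/
def RamDiv (p : ℕ) (F k : IntermediateField ℚ Om) (q : Ideal (ZF F)) : Prop :=
  ∀ Q : Ideal (ZF k), Q.IsMaximal → (∀ z ∈ q, ∀ w : ZF k, w.val = z.val → w ∈ Q) →
    p ∣ multiplicity Q (Ideal.span {w : ZF k | ∃ z ∈ q, w.val = z.val})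

/-- The prime ideals `q` of `F` of degree one (`Nq` is a prime number) for which `p` divides the
ramification indices of all the primes of `k` above `q` and for which `s` restricts to a Frobenius
element on `N`: there is a maximal ideal `B` of the ring of all algebraic integers above `q` with
`s z ≡ z ^ Nq mod B` for all integers `z` of `N`. -/
def FrobDiv (p : ℕ) (F N k : IntermediateField ℚ Om) (s : GQ) : Set (Ideal (ZF F)) :=
  {q | q.IsMaximal ∧ (Nat.card (ZF F ⧸ q)).Prime ∧ RamDiv p F k q ∧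
    ∃ B : Ideal ZBar, B.IsMaximal ∧ (∀ z : ZF F, z ∈ q ↔ ∃ b ∈ B, b.val = z.val) ∧
      ∀ z : ZF N, ∃ b ∈ B, b.val = s z.val - z.val ^ Nat.card (ZF F ⧸ q)}

/-- The prime ideals `q` of `F` of degree one (`l = Nq` is a prime number) such that
`l ≡ 1 mod p ^ 2`, `p` is not a `p`-th power modulo `l` and `p` divides the ramification indices of
all the primes of `k` above `q`. -/
def CycDiv (p : ℕ) (F k : IntermediateField ℚ Om) : Set (Ideal (ZF F)) :=
  {q | q.IsMaximal ∧ (Nat.card (ZF F ⧸ q)).Prime ∧ Nat.card (ZF F ⧸ q) ≡ 1 [MOD p ^ 2] ∧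
    (∀ x : ℕ, ¬ x ^ p ≡ p [MOD Nat.card (ZF F ⧸ q)]) ∧ RamDiv p F k q}

/-- The prime ideals `q` of `F` of degree one (`l = Nq` is a prime number) such that `l ≠ p`,
`l ≢ 1 mod p ^ 2` and `p` divides the ramification indices of all the primes of `k` above `q`. -/
def KumDiv (p : ℕ) (F k : IntermediateField ℚ Om) : Set (Ideal (ZF F)) :=
  {q | q.IsMaximal ∧ (Nat.card (ZF F ⧸ q)).Prime ∧ Nat.card (ZF F ⧸ q) ≠ p ∧
    ¬ Nat.card (ZF F ⧸ q) ≡ 1 [MOD p ^ 2] ∧ RamDiv p F k q}

/-- `p` divides the ramification indices of all the primes of `k` above the prime number `l`. -/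
def RamDivZ (p : ℕ) (k : IntermediateField ℚ Om) (l : ℕ) : Prop :=
  ∀ Q : Ideal (ZF k), Q.IsMaximal → (l : ZF k) ∈ Q → p ∣ multiplicity Q (Ideal.span {(l : ZF k)})

end OzakiFree
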