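import Pool.Agent.Lib.MP_6e8030_nt.UMain5
import Pool.Agent.Lib.MP_6e8030_nt.VDefs

open IntermediateField
open scoped ComplexConjugate

noncomputable section

namespace OzakiFree

private instance V3_ded (F : IntermediateField ℚ Om) [FiniteDimensional ℚ F] :
    IsDedekindDomain (ZF F) :=
  inferInstanceAs (IsDedekindDomain (NumberField.RingOfIntegers (FL F)))

/-! ### V3: inertia groups and roots of `l` -/

theorem ram_root {p : ℕ} (hp : p.Prime) (F k : IntermediateField ℚ Om) [FiniteDimensional ℚ F]
    [FiniteDimensional ℚ k] (hFk : F ≤ k) {l : ℕ} (hl : l.Prime) (hlp : l ≠ p) (hgood : Good F l)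
    (B : Ideal ZO) (hB : B.IsMaximal) (hlB : (l : ZO) ∈ B)
    (hram : RamDiv p F k (B.comap (iota F))) (t : GQ) (ht : t ∈ B.inertia GQ)
    (htk : t ∈ k.fixingSubgroup) (z : Om) (hz : z ^ p = (l : Om)) : t z = z := by
  obtain ⟨ζ, hζ⟩ := exists_prim p hp.pos
  have hcop : IsCoprime (l : ℤ) (p : ℤ) :=
    Nat.isCoprime_iff_coprime.mpr ((Nat.coprime_primes hl hp).mpr hlp)
  have hpB : (p : ZO) ∉ B := by
    intro h
    obtain ⟨a, b, hab⟩ := hcop
    apply hB.ne_top
    rw [Ideal.eq_top_iff_one]
    have h1 : (1 : ZO) = (a : ZO) * (l : ZO) + (b : ZO) * (p : ZO) := by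
      have := congrArg (Int.cast : ℤ → ZO) hab
      push_cast at this
      exact this.symm
    rw [h1]
    exact B.add_mem (B.mul_mem_left _ hlB) (B.mul_mem_left _ h)
  have hval : ((l : ZF k)).val = (l : Om) := ZF_natCast_val k l
  have hl0 : (l : ZF k) ≠ 0 := by
    intro h
    have h1 : ((l : ZF k)).val = (0 : ZF k).val := by rw [h]
    rw [hval] at h1
    have h2 : (0 : ZF k).val = 0 := rfl
    rw [h2] at h1
    exact hl.ne_zero (by exact_mod_cast h1)
  have hq : (B.comap (iota F)).IsMaximal := comap_max (F := F) B hB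
  have hQ : (B.comap (iota k)).IsMaximal := comap_max (F := k) B hB
  have hQp : (B.comap (iota k)).IsPrime := hQ.isPrime
  have hqp : (B.comap (iota F)).IsPrime := hq.isPrime
  have hlq : (l : ZF F) ∈ B.comap (iota F) := by rw [mem_comap_iff, map_natCast]; exact hlB
  have hmem : ∀ (x : ZF F) (w : ZF k), w.val = x.val →
      (x ∈ B.comap (iota F) ↔ w ∈ B.comap (iota k)) := by
    intro x w hw
    rw [mem_comap_iff, mem_comap_iff]
    have : iota F x = iota k w := Subtype.ext hw.symm
    rw [this]
  have hI := hram (B.comap (iota k)) hQ (fun x hx w hw => (hmem x w hw).1 hx)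
  have hval' : ((l : ZF F)).val = (l : Om) := ZF_natCast_val F l
  have key : multiplicity (B.comap (iota k))
      (Ideal.span {w : ZF k | ∃ z ∈ B.comap (iota F), w.val = z.val}) =
      multiplicity (B.comap (iota k)) (Ideal.span {(l : ZF k)}) := by
    refine multiplicity_eq_of_emultiplicity_eq (emultiplicity_eq_emultiplicity_iff.2 fun n => ?_)
    rw [Ideal.dvd_iff_le, Ideal.dvd_iff_le]
    constructor
    · intro h
      refine le_trans ?_ h
      rw [Ideal.span_singleton_le_iff_mem]
      exact Ideal.subset_span ⟨(l : ZF F), hlq, by rw [hval, hval']⟩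
    · intro h
      rw [Ideal.span_singleton_le_iff_mem] at h
      rw [Ideal.span_le]
      rintro w ⟨x, hx, hwx⟩
      by_cases hx0 : x = 0
      · have : w = 0 := by
          apply ZF_val_inj
          rw [hwx, hx0]
          rfl
        rw [this]
        exact Submodule.zero_mem _
      obtain ⟨r, w₀, hr, hw₀, hrw⟩ := good_unram F hl hgood (B.comap (iota F)) hq hlq x hx0
      obtain ⟨m, hm⟩ : ∃ m, multiplicity (B.comap (iota F)) (Ideal.span {x}) = m + 1 := by
        refine Nat.exists_eq_succ_of_ne_zero fun h0 => ?_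
        rw [h0, pow_zero, one_mul] at hrw
        exact hw₀ (hrw ▸ Ideal.mul_mem_left _ r hx)
      rw [hm] at hrw
      obtain ⟨r', hr'⟩ := exists_lift_ZF hFk r
      obtain ⟨w', hw'⟩ := exists_lift_ZF hFk w₀
      have h1 : r' * w = (l : ZF k) * ((l : ZF k) ^ m * w') := by
        apply ZF_val_inj
        have e1 := congrArg (fun y : ZF F => iota F y) hrw
        have e2 : iota k (r' * w) = iota F (r * x) := by
          rw [map_mul, map_mul]
          have a1 : iota k r' = iota F r := Subtype.ext hr'
          have a2 : iota k w = iota F x := Subtype.ext hwx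
          rw [a1, a2]
        have e3 : iota k ((l : ZF k) * ((l : ZF k) ^ m * w')) = iota F ((l : ZF F) ^ (m + 1) * w₀) := by
          rw [map_mul, map_mul, map_mul, map_pow, map_pow, map_natCast, map_natCast]
          have a1 : iota k w' = iota F w₀ := Subtype.ext hw'
          rw [a1, pow_succ]
          ring
        have e4 : iota k (r' * w) = iota k ((l : ZF k) * ((l : ZF k) ^ m * w')) := by
          rw [e2, e3]
          exact e1
        exact congrArg (Subtype.val : ZO → Om) e4
      have h2 : r' * w ∈ (B.comap (iota k)) ^ n := by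
        rw [h1]
        exact Ideal.mul_mem_right _ _ h
      rcases Ideal.IsPrime.mul_mem_pow (B.comap (iota k)) h2 with h3 | h3
      · exact absurd ((hmem r r' hr').2 h3) hr
      · exact h3
  rw [key] at hI
  have hchi := chi_zero_of_dvd hp hζ B hB hpB t ht htk (l : ZF k) hl0 z (by rw [hz, hval]) hI
  exact (chiF_zero_iff hp hζ hz (by exact_mod_cast hl.ne_zero) t (map_natCast t l)).1 hchi

end OzakiFree
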