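import Pool.Agent.Lib.MP_6e8030_nt.VMain1
import Pool.Agent.Lib.MP_6e8030_nt.VAll

open IntermediateField
open scoped ComplexConjugate

noncomputable section

namespace OzakiFree

variable {p : ℕ} {ζ : Om} {F E : IntermediateField ℚ Om}

/-- the iterated product character `χ₁ (χ₂ / χ₀) ^ j` -/
theorem lemmaA_iter {Γ : Type*} [Group Γ] [TopologicalSpace Γ] [IsTopologicalGroup Γ] {p : ℕ}
    [Fact p.Prime] (P H R : Subgroup Γ) (χ₀ χ₁ χ₂ : Γ → ZMod p)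
    (h₀ : HomOn P χ₀) (h₁ : HomOn P χ₁) (h₂ : HomOn P χ₂)
    (l₀ : LCOn P χ₀) (l₁ : LCOn P χ₁) (l₂ : LCOn P χ₂)
    (hH : ∀ g, g ∈ H ↔ g ∈ P ∧ χ₀ g = 0)
    (hRH : R ≤ H) (hRn : ∀ g ∈ P, ∀ r ∈ R, g * r * g⁻¹ ∈ R)
    (r₁ : ∀ r ∈ R, χ₁ r = 0) (r₂ : ∀ r ∈ R, χ₂ r = 0)
    (lift1 : Lift1 p H R) (lift2 : Lift2 p H R)
    (t₀ : Γ) (ht₀ : t₀ ∈ P) (ht₀1 : χ₀ t₀ = 1) (ht₀p : t₀ ^ p ∈ R) (j : ℕ) :
    ∃ ψ : Γ → ZMod p, HomOn P ψ ∧ LCOn P ψ ∧ (∀ r ∈ R, ψ r = 0) ∧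
      ∀ t ∈ P, χ₀ t ≠ 0 → t ^ p ∈ R → χ₀ t ^ j * ψ t = χ₁ t * χ₂ t ^ j := by
  induction j with
  | zero => exact ⟨χ₁, h₁, l₁, r₁, fun t _ _ _ => by rw [pow_zero, pow_zero, one_mul, mul_one]⟩
  | succ j ih =>
    obtain ⟨ψ, ψ1, ψ2, ψ3, ψ4⟩ := ih
    obtain ⟨ψ', a1, a2, a3, a4⟩ := lemmaA P H R χ₀ ψ χ₂ h₀ ψ1 h₂ l₀ ψ2 l₂ hH hRH hRn ψ3 r₂ lift1
      lift2 t₀ ht₀ ht₀1 ht₀p
    refine ⟨ψ', a1, a2, a3, fun t ht h0 htp => ?_⟩
    rw [pow_succ, mul_assoc, a4 t ht h0 htp, ← mul_assoc, ψ4 t ht h0 htp, pow_succ, mul_assoc]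

/-- **the product character, transferred to `F`** -/
theorem stepB2 [FiniteDimensional ℚ F] [FiniteDimensional ℚ E] (hp : p.Prime)
    (hζ : IsPrimitiveRoot ζ p) (hFE : F ≤ E) (hμ : ∀ x : Om, x ^ p = 1 → x ∈ E)
    (k₁ : IntermediateField ℚ Om) [FiniteDimensional ℚ k₁] (hFk : F ≤ k₁)
    (hidx : ¬ p ∣ (MF p F ⊓ k₁.fixingSubgroup).relIndex (MF p F))
    (χ₀ : GQ → ZMod p) (hχhom : HomOn k₁.fixingSubgroup χ₀) (hχlc : LCOn k₁.fixingSubgroup χ₀)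
    (K : IntermediateField ℚ Om)
    (hK : ∀ σ, σ ∈ K.fixingSubgroup ↔ σ ∈ MF p k₁ ∧ χ₀ σ = 0) (hfree : FreeGal p K)
    (B₁ B₂ B₃ : Ideal ZO) (hB₁ : B₁.IsMaximal)
    (n₁₂ : B₁.comap (iota F) ≠ B₂.comap (iota F))
    (n₁₃ : B₁.comap (iota F) ≠ B₃.comap (iota F))
    (n₂₃ : B₂.comap (iota F) ≠ B₃.comap (iota F))
    {l : ℕ} (hl : l.Prime) (hlp : l ≠ p) (hgood : Good E l) (hlB₁ : (l : ZO) ∈ B₁)
    (hram₁ : ∀ B : Ideal ZO, B.IsMaximal → B.comap (iota F) = B₁.comap (iota F) →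
      ∀ t ∈ B.inertia GQ, t ∈ K.fixingSubgroup → ∀ z : Om, z ^ p = (l : Om) → t z = z)
    {l₂ : ℕ} (hl₂ : l₂.Prime) (hgood₂ : Good E l₂) (hlB₂ : (l₂ : ZO) ∈ B₂)
    (hram₂ : ∀ B : Ideal ZO, B.IsMaximal → B.comap (iota F) = B₂.comap (iota F) →
      ∀ t ∈ B.inertia GQ, t ∈ K.fixingSubgroup → ∀ z : Om, z ^ p = (l₂ : Om) → t z = z)
    {l₃ : ℕ} (hl₃ : l₃.Prime) (hgood₃ : Good E l₃) (hlB₃ : (l₃ : ZO) ∈ B₃)
    (hram₃ : ∀ B : Ideal ZO, B.IsMaximal → B.comap (iota F) = B₃.comap (iota F) →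
      ∀ t ∈ B.inertia GQ, t ∈ K.fixingSubgroup → ∀ z : Om, z ^ p = (l₃ : Om) → t z = z)
    (hcard : Nat.card (ZF E ⧸ B₁.comap (iota E)) = l)
    (z : Om) (hz : z ^ p = (l : Om)) (b₁ b₂ : ZF E)
    (P₁ : PairElt (FL E) p (B₁.comap (iota E)) (B₂.comap (iota E)) b₁)
    (P₂ : PairElt (FL E) p (B₁.comap (iota E)) (B₃.comap (iota E)) b₂) :
    ∃ (ψ : GQ → ZMod p) (c : ZMod p), c ≠ 0 ∧ HomOn (MF p F) ψ ∧ LCOn (MF p F) ψ ∧
      (∀ B : Ideal ZO, B.IsMaximal → ∀ t ∈ B.inertia GQ, ∀ h ∈ MF p F,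
        Lies E h B (B₁.comap (iota E)) → ψ t = c * chi (p := p) ζ z (h⁻¹ * t * h)) ∧
      (∀ B : Ideal ZO, B.IsMaximal → ∀ t ∈ B.inertia GQ, t ∈ MF p F →
        (∀ h ∈ MF p F, ¬ Lies E h B (B₁.comap (iota E))) → ψ t = 0) ∧
      (∀ (φ : Om →+* ℂ) (c : GQ), (∀ x, φ (c x) = conj (φ x)) → c ∈ MF p F → ψ c = 0) := by
  have hFp : Fact p.Prime := ⟨hp⟩
  have hz' : IsRt p z (l : ℤ) := ⟨by rw [hz]; simp, by exact_mod_cast hl.ne_zero⟩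
  have hEF : E.fixingSubgroup ≤ F.fixingSubgroup := IntermediateField.fixingSubgroup_antitone hFE
  have hkF : k₁.fixingSubgroup ≤ F.fixingSubgroup := IntermediateField.fixingSubgroup_antitone hFk
  have hM₁M : MF p k₁ ≤ MF p F := fun g hg => ⟨hg.1, hkF hg.2⟩
  have hKM₁ : K.fixingSubgroup ≤ MF p k₁ := fun σ hσ => ((hK σ).1 hσ).1
  have hKM : K.fixingSubgroup ≤ MF p F := hKM₁.trans hM₁M
  have hGopen : IsOpen (k₁.fixingSubgroup : Set GQ) := IntermediateField.fixingSubgroup_isOpen k₁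
  have hGfin : k₁.fixingSubgroup.FiniteIndex := by
    have hq : Finite (GQ ⧸ k₁.fixingSubgroup) := Subgroup.quotient_finite_of_isOpen _ hGopen
    exact Subgroup.finiteIndex_of_finite_quotient
  have hMG : MF p F ⊓ k₁.fixingSubgroup ≤ MF p k₁ := fun g hg => ⟨hg.1.1, hg.2⟩
  obtain ⟨hb₁, d₁, e₁, f₁, g₁⟩ := P₁
  obtain ⟨hb₂, d₂, e₂, f₂, g₂⟩ := P₂
  obtain ⟨χ₁, A1, A2, A3, A4, A5, A6, A7, A8⟩ := stepA2 hp hζ hFE hμ K hKM
    B₁ B₂ hB₁ n₁₂ hl hlp hgood hlB₁ hram₁ hl₂ hgood₂ hlB₂ hram₂ hcard z hz b₁ hb₁ d₁ e₁ f₁ g₁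
  obtain ⟨χ₂, C1, C2, C3, C4, C5, C6, C7, -⟩ := stepA2 hp hζ hFE hμ K hKM
    B₁ B₃ hB₁ n₁₃ hl hlp hgood hlB₁ hram₁ hl₃ hgood₃ hlB₃ hram₃ hcard z hz b₂ hb₂ d₂ e₂ f₂ g₂
  have hhom : HomOn (MF p k₁) χ₀ := fun g hg h hh => hχhom g hg.2 h hh.2
  have hlc : LCOn (MF p k₁) χ₀ := by
    obtain ⟨U, hU, hU'⟩ := hχlc
    exact ⟨U, hU, fun g hg u hu huM => hU' g hg.2 u hu huM.2⟩
  have resH : ∀ {χ : GQ → ZMod p}, HomOn (MF p F) χ → HomOn (MF p k₁) χ := fun h g hg k hk =>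
    h g (hM₁M hg) k (hM₁M hk)
  have resL : ∀ {χ : GQ → ZMod p}, LCOn (MF p F) χ → LCOn (MF p k₁) χ := by
    rintro χ ⟨U, hU, hU'⟩
    exact ⟨U, hU, fun g hg u hu huM => hU' g (hM₁M hg) u hu (hM₁M huM)⟩
  have hinR : ∀ B : Ideal ZO, B.IsMaximal → ∀ t ∈ B.inertia GQ, t ∈ MF p k₁ → χ₀ t = 0 →
      t ∈ RL p K := fun B hB t ht htM h => inertia_mem_RL p K B hB t ht ((hK t).2 ⟨htM, h⟩)
  have hinRp : ∀ B : Ideal ZO, B.IsMaximal → ∀ t ∈ B.inertia GQ, t ∈ MF p k₁ →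
      t ^ p ∈ RL p K := by
    intro B hB t ht htM
    refine hinR B hB _ ((B.inertia GQ).pow_mem ht p) ((MF p k₁).pow_mem htM p) ?_
    rw [EM_pow hhom t htM]; simp
  have hlift : ∀ B : Ideal ZO, B.IsMaximal → ∀ t ∈ B.inertia GQ, ∀ h,
      Lies E h B (B₁.comap (iota E)) → (l : ZO) ∈ B := by
    intro B hB t ht h hlies
    have h1 : (l : ZF E) ∈ B₁.comap (iota E) := by
      rw [mem_comap_iff, map_natCast]; exact hlB₁
    obtain ⟨x, hx, hx'⟩ := (hlies _).1 h1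
    rw [ZF_natCast_val, map_natCast] at hx'
    have : x = (l : ZO) := Subtype.ext hx'
    rw [← this]; exact hx
  -- an element of inertia above `q₁`
  have hpB₁ : (p : ZO) ∉ B₁ := not_mem_of_prime hl hp hlp B₁ hB₁ hlB₁
  obtain ⟨t₁, ht₁, hmove⟩ := inertia_moves hp hl hlp z hz B₁ hB₁ hlB₁
  have ht₁E : t₁ ∈ E.fixingSubgroup := good_fix hgood B₁ hB₁ hlB₁ t₁ ht₁
  have ht₁M : t₁ ∈ MF p F := ⟨inertia_mem_PQ hp B₁ hB₁ hpB₁ t₁ ht₁, hEF ht₁E⟩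
  have hχ₁ : chi (p := p) ζ z t₁ ≠ 0 := fun h => hmove ((chi_eq_zero_iff hp hζ hz' t₁).1 h)
  have hval₁ : χ₁ t₁ ≠ 0 := by
    rw [A7 B₁ hB₁ t₁ ht₁ 1 (one_mem _)
      ((lies_iff 1 B₁ B₁ (fun x => by rw [one_smul]) _).1 rfl), inv_one, one_mul, mul_one]
    exact hχ₁
  have hidx0 : (((MF p F ⊓ k₁.fixingSubgroup).relIndex (MF p F) : ℕ) : ZMod p) ≠ 0 := by
    rwa [Ne, ZMod.natCast_eq_zero_iff]
  obtain ⟨Bu, u, hBu, hu, huM, hu0⟩ : ∃ (B : Ideal ZO) (t : GQ), B.IsMaximal ∧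
      t ∈ B.inertia GQ ∧ t ∈ MF p k₁ ∧ χ₀ t ≠ 0 := by
    by_contra hcon
    push Not at hcon
    obtain ⟨θ, -, -, hθ⟩ := transfer_val (MF p F) k₁.fixingSubgroup hGopen hGfin χ₁
      (fun g hg h hh => A1 g hg.1 h hh.1) (by
        obtain ⟨U, hU, hU'⟩ := A2
        exact ⟨U, hU, fun g hg u hu huP => hU' g hg.1 u hu huP.1⟩)
    have h1 := hθ t₁ ht₁M χ₁ A1 (fun _ _ _ _ => rfl)
    have h2 := hθ t₁ ht₁M (fun _ => 0) (fun _ _ _ _ => (add_zero 0).symm) (by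
      intro g hg n hgG
      obtain ⟨B', hB', hmem, hin, hinP⟩ := conj_inertia_MF hp B₁ hB₁ t₁ ht₁ ht₁M.1 g n
      exact A3 _ (hinR B' hB' _ hin ⟨hinP, hgG⟩ (hcon B' _ hB' hin ⟨hinP, hgG⟩)))
    rw [h1, mul_zero] at h2
    exact (mul_ne_zero hidx0 hval₁) h2
  set m := ((χ₀ u)⁻¹).val with hm
  have ht01 : χ₀ (u ^ m) = 1 := by
    rw [EM_pow hhom u huM, hm, ZMod.natCast_val, ZMod.cast_id', id, inv_mul_cancel₀ hu0]
  have hconj : ∀ g ∈ MF p k₁, ∀ σ ∈ K.fixingSubgroup, g⁻¹ * σ * g ∈ K.fixingSubgroup := by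
    intro g hg σ hσ
    rw [hK] at hσ ⊢
    refine ⟨(MF p k₁).mul_mem ((MF p k₁).mul_mem ((MF p k₁).inv_mem hg) hσ.1) hg, ?_⟩
    rw [EM_conj hhom g σ hg hσ.1, hσ.2]
  obtain ⟨L1, L2⟩ := lifts_of_free (p := p) K hfree
  obtain ⟨ψ, ψ1, ψ2, ψ3, ψ4⟩ := lemmaA_iter (MF p k₁) K.fixingSubgroup (RL p K) χ₀ χ₁ χ₂ hhom
    (resH A1) (resH C1) hlc (resL A2) (resL C2) hK (RL_le p K) (by
      intro g hg r hr
      refine RL_conj p _ g (stable_of_conj _ g (hconj g hg)) (stable_of_conj _ g⁻¹ ?_) r hr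
      intro σ hσ
      exact hconj g⁻¹ ((MF p k₁).inv_mem hg) σ hσ) A3 C3 L1 L2 (u ^ m) ((MF p k₁).pow_mem huM m)
    ht01 (hinRp Bu hBu _ ((Bu.inertia GQ).pow_mem hu m) ((MF p k₁).pow_mem huM m)) (p - 1)
  have hform : ∀ B : Ideal ZO, B.IsMaximal → ∀ t ∈ B.inertia GQ, t ∈ MF p k₁ →
      ψ t = χ₁ t * χ₂ t ^ (p - 1) := by
    intro B hB t ht htM
    by_cases hc : χ₀ t = 0
    · have htR := hinR B hB t ht htM hc
      rw [ψ3 t htR, A3 t htR, zero_mul]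
    · have h1 := ψ4 t htM hc (hinRp B hB t ht htM)
      rwa [ZMod.pow_card_sub_one_eq_one hc, one_mul] at h1
  have hp1 : p - 1 ≠ 0 := Nat.sub_ne_zero_of_lt hp.one_lt
  have hψconj : ∀ (φ : Om →+* ℂ) (s : GQ), (∀ x, φ (s x) = conj (φ x)) → s ∈ MF p k₁ →
      ψ s = 0 := by
    intro φ s hs hsM
    by_cases hc0 : χ₀ s = 0
    · exact ψ3 s (conj_mem_RL p _ φ s hs ((hK s).2 ⟨hsM, hc0⟩))
    · by_cases h2 : p = 2
      · subst h2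
        have k3 := ψ4 s hsM hc0 (by rw [conj_sq φ s hs]; exact (RL 2 K).one_mem)
        rw [A8 φ s hs (hM₁M hsM), zero_mul] at k3
        exact (mul_eq_zero.1 k3).resolve_left (pow_ne_zero _ hc0)
      · exfalso
        have h3 : s * s = 1 := by
          have := conj_sq φ s hs
          rwa [pow_two] at this
        have h4 := hhom s hsM s hsM
        rw [h3, EM_one hhom] at h4
        have h5 : (2 : ZMod p) * χ₀ s = 0 := by rw [two_mul]; exact h4.symm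
        rcases mul_eq_zero.1 h5 with h | h
        · have h6 : ((2 : ℕ) : ZMod p) = 0 := by exact_mod_cast h
          rw [ZMod.natCast_eq_zero_iff] at h6
          exact h2 ((Nat.prime_dvd_prime_iff_eq hp Nat.prime_two).1 h6)
        · exact hc0 h
  -- the transfer
  obtain ⟨θ, θ1, θ2, hθ⟩ := transfer_val (MF p F) k₁.fixingSubgroup hGopen hGfin ψ
    (fun g hg h hh => ψ1 g (hMG hg) h (hMG hh)) (by
      obtain ⟨U, hU, hU'⟩ := ψ2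
      exact ⟨U, hU, fun g hg u hu huP => hU' g (hMG hg) u hu (hMG huP)⟩)
  have hθ0 : ∀ t ∈ MF p F, (∀ g ∈ MF p F, ∀ n : ℕ, g⁻¹ * t ^ n * g ∈ k₁.fixingSubgroup →
      ψ (g⁻¹ * t ^ n * g) = 0) → θ t = 0 := by
    intro t ht h
    rw [hθ t ht (fun _ => 0) (fun _ _ _ _ => (add_zero 0).symm) h, mul_zero]
  refine ⟨θ, (((MF p F ⊓ k₁.fixingSubgroup).relIndex (MF p F) : ℕ) : ZMod p), hidx0, θ1, θ2,
    ?_, ?_, ?_⟩
  · intro B hB t ht h hh hlies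
    have hlB := hlift B hB t ht h hlies
    have hpB := not_mem_of_prime hl hp hlp B hB hlB
    have htE : t ∈ E.fixingSubgroup := good_fix hgood B hB hlB t ht
    have htM : t ∈ MF p F := ⟨inertia_mem_PQ hp B hB hpB t ht, hEF htE⟩
    rw [hθ t htM χ₁ A1 ?_, A7 B hB t ht h hh hlies]
    intro g hg n hgG
    obtain ⟨B', hB', hmem, hin, hinP⟩ := conj_inertia_MF hp B hB t ht htM.1 g n
    obtain ⟨B'', hB'', hmem'', -⟩ := conj_inertia' B hB h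
    have hl' : Lies E (g⁻¹ * h) B' (B₁.comap (iota E)) := by
      refine (lies_iff (g⁻¹ * h) B' B'' (fun x => ?_) _).1 ((lies_iff h B B'' hmem'' _).2 hlies)
      rw [hmem'', hmem, ← mul_smul, mul_inv_cancel_left]
    have hgh : g⁻¹ * h ∈ MF p F := (MF p F).mul_mem ((MF p F).inv_mem hg) hh
    rw [hform B' hB' _ hin ⟨hinP, hgG⟩, A7 B' hB' _ hin _ hgh hl', C7 B' hB' _ hin _ hgh hl']
    by_cases hχ : chi (p := p) ζ z ((g⁻¹ * h)⁻¹ * (g⁻¹ * t ^ n * g) * (g⁻¹ * h)) = 0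
    · rw [hχ, zero_mul]
    · rw [ZMod.pow_card_sub_one_eq_one hχ, mul_one]
  · intro B hB t ht htM hno
    refine hθ0 t htM fun g hg n hgG => ?_
    obtain ⟨B', hB', hmem, hin, hinP⟩ := conj_inertia_MF hp B hB t ht htM.1 g n
    have huM : g⁻¹ * t ^ n * g ∈ MF p F := ⟨hinP, hkF hgG⟩
    rw [hform B' hB' _ hin ⟨hinP, hgG⟩]
    by_cases hpB : (p : ZO) ∈ B'
    · rw [A4 B' hB' _ hin huM hpB, zero_mul]
    · by_cases c1 : B'.comap (iota F) = B₁.comap (iota F)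
      · rw [A6 B' hB' _ hin huM hpB c1 ?_, zero_mul]
        intro h hh hl'
        obtain ⟨B'', hB'', hmem'', -⟩ := conj_inertia' B' hB' h
        refine hno (g * h) ((MF p F).mul_mem hg hh) ?_
        refine (lies_iff (g * h) B B'' (fun x => ?_) _).1 ((lies_iff h B' B'' hmem'' _).2 hl')
        rw [hmem'', hmem, ← mul_smul]
      · by_cases c2 : B'.comap (iota F) = B₂.comap (iota F)
        · rw [C5 B' hB' _ hin huM hpB c1 (fun h => n₂₃ (c2.symm.trans h)), zero_pow hp1, mul_zero]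
        · rw [A5 B' hB' _ hin huM hpB c1 c2, zero_mul]
  · intro φ s hs hsM
    refine hθ0 s hsM fun g hg n hgG => ?_
    rcases Nat.even_or_odd' n with ⟨k, hk | hk⟩
    · have : s ^ n = 1 := by rw [hk, pow_mul, conj_sq φ s hs, one_pow]
      rw [this, mul_one, inv_mul_cancel, EM_one ψ1]
    · have : s ^ n = s := by
        rw [hk, pow_add, pow_mul, conj_sq φ s hs, one_pow, one_mul, pow_one]
      rw [this] at hgG ⊢
      refine hψconj (φ.comp (g : Om →+* Om)) _ ?_ ⟨PQ_conj' hp g _ hsM.1, hgG⟩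
      intro x
      show φ (g ((g⁻¹ * s * g) x)) = conj (φ (g x))
      rw [AlgEquiv.mul_apply, AlgEquiv.mul_apply, apply_inv_self, hs]

end OzakiFree
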