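import Pool.Agent.Lib.MP_6e8030_nt.VMain2
import Pool.Agent.Lib.MP_6e8030_nt.UMain6

open IntermediateField
open scoped ComplexConjugate

noncomputable section

namespace OzakiFree

variable {p : ℕ} {ζ : Om} {F E : IntermediateField ℚ Om}

/-- **the main theorem: all primes, all number fields, extensions `k/k₁` of degree `p`** -/
theorem mainV {p : ℕ} (hp : p.Prime) (F : IntermediateField ℚ Om) [FiniteDimensional ℚ F] :
    ∃ (N : IntermediateField ℚ Om) (s : GQ) (C : ℕ), FiniteDimensional ℚ N ∧ F ≤ N ∧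
      (∀ t, Fixes t F → ∀ x ∈ N, t x ∈ N) ∧ Fixes s F ∧ (∀ ζ : Om, ζ ^ p = 1 → s ζ = ζ) ∧
      ∀ k₁ k : IntermediateField ℚ Om, F ≤ k₁ → ¬ p ∣ relfinrank F k₁ → CyclicExt p k₁ k →
        (C : ℕ∞) < (FrobDiv p F N k s).encard → ¬ FreeGal p (cycZp p k) := by
  obtain ⟨D₀, hD₀fin, u, hD₀c, hu⟩ := exists_unit hp F
  set E : IntermediateField ℚ Om := F ⊔ D₀ ⊔ adjoin ℚ {x : Om | x ^ p = 1} with hE
  have hμfin : FiniteDimensional ℚ (adjoin ℚ {x : Om | x ^ p = 1}) := by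
    have h1 : ({x : Om | x ^ p = 1} : Set Om).Finite := E10_mu_finite hp.pos
    have := h1.to_subtype
    exact IntermediateField.finiteDimensional_adjoin fun x _ =>
      (Algebra.IsAlgebraic.isAlgebraic x).isIntegral
  have hEfin : FiniteDimensional ℚ E := by
    rw [hE]; infer_instance
  have hFE : F ≤ E := le_sup_left.trans le_sup_left
  have hDE : D₀ ≤ E := le_sup_right.trans le_sup_left
  have hμ : ∀ x : Om, x ^ p = 1 → x ∈ E := fun x hx =>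
    (le_sup_right : _ ≤ E) (subset_adjoin ℚ _ hx)
  have hEF : E.fixingSubgroup ≤ F.fixingSubgroup :=
    IntermediateField.fixingSubgroup_antitone hFE
  obtain ⟨y, hy⟩ := IsAlgClosed.exists_pow_nat_eq (u : ZF D₀).val hp.pos
  have hyE : y ∉ E := hu y hy
  obtain ⟨N, hNfin, hEN, hyN, hNst⟩ := exists_N E y
  have hs : ∃ s ∈ E.fixingSubgroup, s y ≠ y := by
    by_contra hcon
    push Not at hcon
    apply hyE
    rw [← InfiniteGalois.fixedField_fixingSubgroup E]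
    rintro ⟨σ, hσ⟩
    exact hcon σ hσ
  obtain ⟨s, hsE, hsy⟩ := hs
  obtain ⟨DE, hDE0, hDEg⟩ := exists_good E
  obtain ⟨DF, hDF0, hDFg⟩ := exists_good F
  set Dg := DE * DF with hDg
  have hD0 : Dg ≠ 0 := mul_ne_zero hDE0 hDF0
  obtain ⟨C₁, hC₁⟩ := pigeon (FL E) p hp
  have hDp0 : Dg * p ≠ 0 := mul_ne_zero hD0 hp.ne_zero
  have hfin := finite_above F (Dg * p) hDp0
  refine ⟨N, s, C₁ + {q : Ideal (ZF F) | q.IsMaximal ∧ ((Dg * p : ℕ) : ZF F) ∈ q}.ncard, hNfin,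
    hFE.trans hEN, fun t _ => hNst t, (N11_fix F s).1 (hEF hsE),
    fun ξ hξ => fix_F hsE ξ (hμ ξ hξ), fun k₁ k hFk₁ hdeg hk hlt hfree => ?_⟩
  have hk₁fin : FiniteDimensional ℚ k₁ := finite_of_deg F k₁ hFk₁ hdeg
  have hkfin : FiniteDimensional ℚ k := finite_of_deg (p := p + 1) k₁ k hk.1 (by
    rw [hk.2.1]
    exact fun h => absurd (Nat.le_of_dvd hp.pos h) (by omega))
  have hFk : F ≤ k := hFk₁.trans hk.1
  set Bad := {q : Ideal (ZF F) | q.IsMaximal ∧ ((Dg * p : ℕ) : ZF F) ∈ q} with hBad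
  have hS : (C₁ : ℕ∞) < (FrobDiv p F N k s \ Bad).encard := by
    by_contra hcon
    rw [not_lt] at hcon
    have h1 : (FrobDiv p F N k s).encard ≤ (FrobDiv p F N k s \ Bad).encard + Bad.encard := by
      refine le_trans (Set.encard_le_encard (t := (FrobDiv p F N k s \ Bad) ∪ Bad) ?_)
        (Set.encard_union_le _ _)
      intro q hq
      by_cases h : q ∈ Bad
      · exact Or.inr h
      · exact Or.inl ⟨hq, h⟩
    have h2 : Bad.encard = (Bad.ncard : ℕ∞) := (hfin.cast_ncard_eq).symm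
    have h3 : (FrobDiv p F N k s).encard ≤ (C₁ : ℕ∞) + (Bad.ncard : ℕ∞) := by
      rw [← h2]
      exact le_trans h1 (add_le_add_left hcon _)
    have h4 : ((C₁ + Bad.ncard : ℕ) : ℕ∞) = (C₁ : ℕ∞) + (Bad.ncard : ℕ∞) := by push_cast; rfl
    rw [h4] at hlt
    exact absurd (lt_of_lt_of_le hlt h3) (lt_irrefl _)
  -- the chosen maximal ideals
  have hchoice : ∀ q : Ideal (ZF F), q ∈ FrobDiv p F N k s \ Bad → ∃ B : Ideal ZO, B.IsMaximal ∧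
      B.comap (iota F) = q ∧ ∀ z : ZF N, s • iota N z - iota N z ^ Nat.card (ZF F ⧸ q) ∈ B := by
    rintro q ⟨⟨-, -, -, B₀, hB₀, hmem, hfr⟩, -⟩
    let B' : Ideal ZO := B₀
    have hB' : B'.IsMaximal := hB₀
    have hmem' : ∀ z : ZF F, z ∈ q ↔ ∃ b ∈ B', (b : Om) = z.val := hmem
    have hfr' : ∀ z : ZF N, ∃ b ∈ B', (b : Om) = s z.val - z.val ^ Nat.card (ZF F ⧸ q) := hfr
    refine ⟨B', hB', ?_, fun z => ?_⟩
    · ext z
      rw [hmem' z, mem_comap_iff]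
      constructor
      · intro h; exact ⟨_, h, rfl⟩
      · rintro ⟨b, hb, hb'⟩
        have : iota F z = b := Subtype.ext hb'.symm
        rw [this]; exact hb
    · obtain ⟨b, hb, hb'⟩ := hfr' z
      have : s • iota N z - iota N z ^ Nat.card (ZF F ⧸ q) = b := by
        apply Subtype.ext
        push_cast
        exact hb'.symm
      rw [this]; exact hb
  choose! B hBm hBq hBf using hchoice
  have hqmax : ∀ q ∈ FrobDiv p F N k s \ Bad, q.IsMaximal := fun q hq => hq.1.1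
  have hqpr : ∀ q ∈ FrobDiv p F N k s \ Bad, (Nat.card (ZF F ⧸ q)).Prime := fun q hq => hq.1.2.1
  have hinj : Set.InjOn (fun q => (B q).comap (iota E)) (FrobDiv p F N k s \ Bad) := by
    intro q hq q' hq' h
    have h1 := comap_lower hFE _ _ h
    rwa [hBq q hq, hBq q' hq'] at h1
  have hlB : ∀ q ∈ FrobDiv p F N k s \ Bad, ((Nat.card (ZF F ⧸ q) : ℕ) : ZO) ∈ B q := by
    intro q hq
    have h1 : ((Nat.card (ZF F ⧸ q) : ℕ) : ZF F) ∈ (B q).comap (iota F) := by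
      rw [hBq q hq]; exact card_mem q rfl
    rwa [mem_comap_iff, map_natCast] at h1
  have hndvd : ∀ q ∈ FrobDiv p F N k s \ Bad, ¬ Nat.card (ZF F ⧸ q) ∣ Dg * p := by
    rintro q hq ⟨j, hj⟩
    apply hq.2
    refine ⟨hq.1.1, ?_⟩
    rw [hj, Nat.cast_mul]
    exact q.mul_mem_right _ (card_mem q rfl)
  have hlp : ∀ q ∈ FrobDiv p F N k s \ Bad, Nat.card (ZF F ⧸ q) ≠ p := by
    intro q hq h
    exact hndvd q hq (by rw [h]; exact Dvd.intro_left _ rfl)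
  have hgood : ∀ q ∈ FrobDiv p F N k s \ Bad, Good E (Nat.card (ZF F ⧸ q)) := by
    intro q hq
    exact hDEg _ (hqpr q hq) fun h => hndvd q hq ((h.mul_right DF).mul_right p)
  have hgoodF : ∀ q ∈ FrobDiv p F N k s \ Bad, Good F (Nat.card (ZF F ⧸ q)) := by
    intro q hq
    exact hDFg _ (hqpr q hq) fun h => hndvd q hq ((h.mul_left DE).mul_right p)
  have hpB : ∀ q ∈ FrobDiv p F N k s \ Bad, (p : ZO) ∉ B q := fun q hq =>
    not_mem_of_prime (hqpr q hq) hp (hlp q hq) (B q) (hBm q hq) (hlB q hq)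
  have hpowE : ∀ q ∈ FrobDiv p F N k s \ Bad, ∀ w : ZF E,
      iota E w - iota E w ^ Nat.card (ZF F ⧸ q) ∈ B q := by
    intro q hq w
    obtain ⟨w', hw'⟩ := exists_lift_ZF hEN w
    have h1 := hBf q hq w'
    have e1 : iota N w' = iota E w := Subtype.ext hw'
    have e2 : s • iota E w = iota E w := Subtype.ext (fix_F hsE _ (ZF_val_mem w))
    rwa [e1, e2] at h1
  have hcardE : ∀ q ∈ FrobDiv p F N k s \ Bad,
      Nat.card (ZF E ⧸ (B q).comap (iota E)) = Nat.card (ZF F ⧸ q) := fun q hq =>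
    card_of_pow E (hqpr q hq) (B q) (hBm q hq) (hlB q hq) (hpowE q hq)
  have hS' : (C₁ : ℕ∞) < ((fun q => (B q).comap (iota E)) '' (FrobDiv p F N k s \ Bad)).encard := by
    rw [hinj.encard_image]; exact hS
  obtain ⟨Q₁, ⟨q₁, hq₁, rfl⟩, Q₂, ⟨q₂, hq₂, rfl⟩, Q₃, ⟨q₃, hq₃, rfl⟩, n₁₂, n₁₃, n₂₃, b₁, b₂, P₁,
    P₂⟩ := hC₁ ((fun q => (B q).comap (iota E)) '' (FrobDiv p F N k s \ Bad)) hS' (by
      rintro _ ⟨q, hq, rfl⟩
      refine ⟨comap_max _ (B q) (hBm q hq), fun h => hpB q hq ?_⟩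
      have h2 : (p : ZF E) ∈ (B q).comap (iota E) := h
      rwa [mem_comap_iff, map_natCast] at h2)
  obtain ⟨ζ, hζ⟩ := exists_prim p hp.pos
  have hζE := hμ ζ hζ.pow_eq_one
  obtain ⟨χ₀, hχhom, hχlc, hχk⟩ := exists_chi0 hp k₁ k hk
  have hK : ∀ σ, σ ∈ (cycZp p k).fixingSubgroup ↔ σ ∈ MF p k₁ ∧ χ₀ σ = 0 := by
    intro σ
    rw [mem_cycZp_PQ hp k σ, hχk]
    constructor
    · rintro ⟨h1, h2, h3⟩; exact ⟨⟨h1, h2⟩, h3⟩
    · rintro ⟨⟨h1, h2⟩, h3⟩; exact ⟨h1, h2, h3⟩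
  have hram : ∀ q ∈ FrobDiv p F N k s \ Bad, ∀ B' : Ideal ZO, B'.IsMaximal →
      B'.comap (iota F) = (B q).comap (iota F) → ∀ t ∈ B'.inertia GQ,
      t ∈ (cycZp p k).fixingSubgroup → ∀ z : Om, z ^ p = ((Nat.card (ZF F ⧸ q) : ℕ) : Om) →
      t z = z := by
    intro q hq B' hB' hc t ht htK z hz
    rw [hBq q hq] at hc
    have hlB' : ((Nat.card (ZF F ⧸ q) : ℕ) : ZO) ∈ B' := by
      have h1 : ((Nat.card (ZF F ⧸ q) : ℕ) : ZF F) ∈ B'.comap (iota F) := by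
        rw [hc]; exact card_mem q rfl
      rwa [mem_comap_iff, map_natCast] at h1
    refine ram_root hp F k hFk (hqpr q hq) (hlp q hq) (hgoodF q hq) B' hB' hlB' ?_ t ht
      ((mem_cycZp_PQ hp k t).1 htK).2 z hz
    rw [hc]
    exact hq.1.2.2.1
  obtain ⟨z, hz⟩ := IsAlgClosed.exists_pow_nat_eq ((Nat.card (ZF F ⧸ q₁) : ℕ) : Om) hp.pos
  have hne : ∀ q ∈ FrobDiv p F N k s \ Bad, ∀ q' ∈ FrobDiv p F N k s \ Bad,
      (B q).comap (iota E) ≠ (B q').comap (iota E) →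
      (B q).comap (iota F) ≠ (B q').comap (iota F) := by
    intro q hq q' hq' h h'
    rw [hBq q hq, hBq q' hq'] at h'
    exact h (by rw [h'])
  obtain ⟨ψ, c, hc, ψ1, ψ2, hA, hB, hR⟩ := stepB2 hp hζ hFE hμ k₁ hFk₁
    (index_MF hp F k₁ hFk₁ hdeg) χ₀ hχhom hχlc (cycZp p k) hK hfree (B q₁) (B q₂) (B q₃)
    (hBm q₁ hq₁)
    (hne q₁ hq₁ q₂ hq₂ n₁₂) (hne q₁ hq₁ q₃ hq₃ n₁₃) (hne q₂ hq₂ q₃ hq₃ n₂₃) (hqpr q₁ hq₁)
    (hlp q₁ hq₁) (hgood q₁ hq₁) (hlB q₁ hq₁) (hram q₁ hq₁) (hqpr q₂ hq₂) (hgood q₂ hq₂)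
    (hlB q₂ hq₂) (hram q₂ hq₂) (hqpr q₃ hq₃) (hgood q₃ hq₃) (hlB q₃ hq₃) (hram q₃ hq₃)
    (hcardE q₁ hq₁) z hz b₁ b₂ P₁ P₂
  obtain ⟨θ, θ1, θ2, T1, T2, T3⟩ := stepT hp hFE (B q₁) (hBm q₁ hq₁) (hqpr q₁ hq₁)
    (hlp q₁ hq₁) (hgood q₁ hq₁) (hlB q₁ hq₁) (hcardE q₁ hq₁) (fun x => c * chi (p := p) ζ z x)
    ψ ψ1 ψ2 hA hB hR
  have hdvd := dvd_of_pow hp hζ hζE (B q₁) (hpB q₁ hq₁) (hqpr q₁ hq₁) (hpowE q₁ hq₁)
  exact stepD hp hζ hμ (B q₁) (hBm q₁ hq₁) (hqpr q₁ hq₁) (hlp q₁ hq₁) (hgood q₁ hq₁)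
    (hlB q₁ hq₁) (hcardE q₁ hq₁) z hz θ c hc θ1 θ2 T1 T2 T3 D₀ hDE hD₀c u
    (unit_not_pow hp u y hy hyN s (fix_F hsE _ (hDE (ZF_val_mem _))) hsy (B q₁)
      (hpB q₁ hq₁) (hqpr q₁ hq₁) hdvd (hBf q₁ hq₁))

end OzakiFree
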