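import Pool.Agent.Lib.MP_6e8030_nt.VMain2
import Pool.Agent.Lib.MP_6e8030_nt.EMain5

open IntermediateField
open scoped ComplexConjugate

noncomputable section

namespace OzakiFree

variable {p : ℕ} {ζ : Om} {F E : IntermediateField ℚ Om}

/-- **explicit primes, `p` odd, extensions `k/k₁` of degree `p`** -/
theorem mainE2 {p : ℕ} (hp : p.Prime) (hp2 : p ≠ 2) (F : IntermediateField ℚ Om)
    [FiniteDimensional ℚ F] :
    ∃ C : ℕ, ∀ k₁ k : IntermediateField ℚ Om, F ≤ k₁ → ¬ p ∣ relfinrank F k₁ →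
      CyclicExt p k₁ k → (C : ℕ∞) < (CycDiv p F k).encard → ¬ FreeGal p (cycZp p k) := by
  have hfinE : FiniteDimensional ℚ (EF p F) := EF_finite hp F
  have hFE : F ≤ EF p F := le_sup_left
  have hμ2 : ∀ x : Om, x ^ (p ^ 2) = 1 → x ∈ EF p F := fun x hx =>
    (le_sup_right : _ ≤ EF p F) (subset_adjoin ℚ _ hx)
  have hμ : ∀ x : Om, x ^ p = 1 → x ∈ EF p F := fun x hx => hμ2 x (by
    rw [pow_two, pow_mul, hx, one_pow])
  have hEF : (EF p F).fixingSubgroup ≤ F.fixingSubgroup :=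
    IntermediateField.fixingSubgroup_antitone hFE
  obtain ⟨DE, hDE0, hDE⟩ := exists_good (EF p F)
  obtain ⟨DF, hDF0, hDF⟩ := exists_good F
  set D := DE * DF with hDdef
  have hD0 : D ≠ 0 := mul_ne_zero hDE0 hDF0
  obtain ⟨C₁, hC₁⟩ := pigeon (FL (EF p F)) p hp
  have hfin := finite_above F D hD0
  refine ⟨C₁ + {q : Ideal (ZF F) | q.IsMaximal ∧ (D : ZF F) ∈ q}.ncard,
    fun k₁ k hFk₁ hdeg hk hlt hfree => ?_⟩
  have hk₁fin : FiniteDimensional ℚ k₁ := finite_of_deg F k₁ hFk₁ hdeg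
  have hkfin : FiniteDimensional ℚ k := finite_of_deg (p := p + 1) k₁ k hk.1 (by
    rw [hk.2.1]
    exact fun h => absurd (Nat.le_of_dvd hp.pos h) (by omega))
  have hFk : F ≤ k := hFk₁.trans hk.1
  set Bad := {q : Ideal (ZF F) | q.IsMaximal ∧ (D : ZF F) ∈ q} with hBad
  have hS : (C₁ : ℕ∞) < (CycDiv p F k \ Bad).encard := by
    by_contra hcon
    rw [not_lt] at hcon
    have h1 : (CycDiv p F k).encard ≤ (CycDiv p F k \ Bad).encard + Bad.encard := by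
      refine le_trans (Set.encard_le_encard (t := (CycDiv p F k \ Bad) ∪ Bad) ?_)
        (Set.encard_union_le _ _)
      intro q hq
      by_cases h : q ∈ Bad
      · exact Or.inr h
      · exact Or.inl ⟨hq, h⟩
    have h2 : Bad.encard = (Bad.ncard : ℕ∞) := (hfin.cast_ncard_eq).symm
    have h3 : (CycDiv p F k).encard ≤ (C₁ : ℕ∞) + (Bad.ncard : ℕ∞) := by
      rw [← h2]
      exact le_trans h1 (add_le_add_left hcon _)
    have h4 : ((C₁ + Bad.ncard : ℕ) : ℕ∞) = (C₁ : ℕ∞) + (Bad.ncard : ℕ∞) := by push_cast; rfl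
    rw [h4] at hlt
    exact absurd (lt_of_lt_of_le hlt h3) (lt_irrefl _)
  choose! B hBm hBq using fun (q : Ideal (ZF F)) (hq : q.IsMaximal) => exists_over F q hq
  have hinj : Set.InjOn (fun q => (B q).comap (iota (EF p F))) (CycDiv p F k \ Bad) := by
    intro q hq q' hq' h
    have h1 := comap_lower hFE _ _ h
    rwa [hBq q hq.1.1, hBq q' hq'.1.1] at h1
  have hlB : ∀ q, q.IsMaximal → ((Nat.card (ZF F ⧸ q) : ℕ) : ZO) ∈ B q := by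
    intro q hq
    have h1 : ((Nat.card (ZF F ⧸ q) : ℕ) : ZF F) ∈ (B q).comap (iota F) := by
      rw [hBq q hq]; exact card_mem q rfl
    rwa [mem_comap_iff, map_natCast] at h1
  have hpB : ∀ q ∈ CycDiv p F k, (p : ZO) ∉ B q := by
    intro q hq
    exact not_mem_of_prime hq.2.1 hp (ne_p_of_mod hp hq.2.2.1) (B q) (hBm q hq.1) (hlB q hq.1)
  have hndvd : ∀ q ∈ CycDiv p F k \ Bad, ¬ Nat.card (ZF F ⧸ q) ∣ D := by
    rintro q ⟨hq, hbad⟩ hdvd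
    refine hbad ⟨hq.1, ?_⟩
    obtain ⟨k, hk⟩ := hdvd
    rw [hk, Nat.cast_mul]
    exact q.mul_mem_right _ (card_mem q rfl)
  have hgood : ∀ q ∈ CycDiv p F k \ Bad, Good (EF p F) (Nat.card (ZF F ⧸ q)) := fun q hq =>
    hDE _ hq.1.2.1 fun h => hndvd q hq (h.mul_right DF)
  have hgoodF : ∀ q ∈ CycDiv p F k \ Bad, Good F (Nat.card (ZF F ⧸ q)) := fun q hq =>
    hDF _ hq.1.2.1 fun h => hndvd q hq (h.mul_left DE)
  have hS' : (C₁ : ℕ∞) < ((fun q => (B q).comap (iota (EF p F))) '' (CycDiv p F k \ Bad)).encard := by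
    rw [hinj.encard_image]; exact hS
  obtain ⟨Q₁, ⟨q₁, hq₁, rfl⟩, Q₂, ⟨q₂, hq₂, rfl⟩, Q₃, ⟨q₃, hq₃, rfl⟩, n₁₂, n₁₃, n₂₃, b₁, b₂, P₁,
    P₂⟩ := hC₁ ((fun q => (B q).comap (iota (EF p F))) '' (CycDiv p F k \ Bad)) hS' (by
      rintro _ ⟨q, hq, rfl⟩
      refine ⟨comap_max _ (B q) (hBm q hq.1.1), fun h => hpB q hq.1 ?_⟩
      have h2 : (p : ZF (EF p F)) ∈ (B q).comap (iota (EF p F)) := h
      rwa [mem_comap_iff, map_natCast] at h2)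
  obtain ⟨ζ, hζ⟩ := exists_prim p hp.pos
  have hζE := hμ ζ hζ.pow_eq_one
  obtain ⟨χ₀, hχhom, hχlc, hχk⟩ := exists_chi0 hp k₁ k hk
  have hK : ∀ σ, σ ∈ (cycZp p k).fixingSubgroup ↔ σ ∈ MF p k₁ ∧ χ₀ σ = 0 := by
    intro σ
    rw [mem_cycZp_PQ hp k σ, hχk]
    constructor
    · rintro ⟨h1, h2, h3⟩; exact ⟨⟨h1, h2⟩, h3⟩
    · rintro ⟨⟨h1, h2⟩, h3⟩; exact ⟨h1, h2, h3⟩
  have hram : ∀ q ∈ CycDiv p F k \ Bad, ∀ B' : Ideal ZO, B'.IsMaximal →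
      B'.comap (iota F) = (B q).comap (iota F) → ∀ t ∈ B'.inertia GQ,
      t ∈ (cycZp p k).fixingSubgroup → ∀ z : Om, z ^ p = ((Nat.card (ZF F ⧸ q) : ℕ) : Om) →
      t z = z := by
    intro q hq B' hB' hc t ht htK z hz
    rw [hBq q hq.1.1] at hc
    have hlB' : ((Nat.card (ZF F ⧸ q) : ℕ) : ZO) ∈ B' := by
      have h1 : ((Nat.card (ZF F ⧸ q) : ℕ) : ZF F) ∈ B'.comap (iota F) := by
        rw [hc]; exact card_mem q rfl
      rwa [mem_comap_iff, map_natCast] at h1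
    refine ram_root hp F k hFk hq.1.2.1 (ne_p_of_mod hp hq.1.2.2.1) (hgoodF q hq) B' hB' hlB' ?_ t
      ht ((mem_cycZp_PQ hp k t).1 htK).2 z hz
    rw [hc]
    exact hq.1.2.2.2.2
  obtain ⟨m₁, hl, hmod, hpow, -⟩ := hq₁.1
  have hlp := ne_p_of_mod hp hmod
  have hcard := degree_one_EF hp F hl hmod q₁ m₁ rfl (B q₁) (hBm q₁ m₁) (hBq q₁ m₁)
  obtain ⟨z, hz⟩ := IsAlgClosed.exists_pow_nat_eq ((Nat.card (ZF F ⧸ q₁) : ℕ) : Om) hp.pos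
  have hne : ∀ q ∈ CycDiv p F k \ Bad, ∀ q' ∈ CycDiv p F k \ Bad,
      (B q).comap (iota (EF p F)) ≠ (B q').comap (iota (EF p F)) →
      (B q).comap (iota F) ≠ (B q').comap (iota F) := by
    intro q hq q' hq' h h'
    rw [hBq q hq.1.1, hBq q' hq'.1.1] at h'
    exact h (by rw [h'])
  obtain ⟨ψ, c, hc, ψ1, ψ2, hA, hB, -⟩ := stepB2 hp hζ hFE hμ k₁ hFk₁
    (index_MF hp F k₁ hFk₁ hdeg) χ₀ hχhom hχlc (cycZp p k) hK hfree (B q₁) (B q₂) (B q₃)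
    (hBm q₁ m₁)
    (hne q₁ hq₁ q₂ hq₂ n₁₂) (hne q₁ hq₁ q₃ hq₃ n₁₃) (hne q₂ hq₂ q₃ hq₃ n₂₃) hl hlp
    (hgood q₁ hq₁) (hlB q₁ m₁) (hram q₁ hq₁) hq₂.1.2.1 (hgood q₂ hq₂) (hlB q₂ hq₂.1.1)
    (hram q₂ hq₂) hq₃.1.2.1 (hgood q₃ hq₃) (hlB q₃ hq₃.1.1) (hram q₃ hq₃) hcard z hz b₁ b₂ P₁ P₂
  exact stepC hp hp2 hζ (B q₁) (hBm q₁ m₁) hl hlp hmod hpow (hgood q₁ hq₁) (hlB q₁ m₁) hcard z hz
    ψ c hc ψ1 ψ2 hA hB

end OzakiFree
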