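import Pool.Agent.Lib.MP_6e8030_nt.VMain2
import Pool.Agent.Lib.MP_6e8030_nt.GMain2

open IntermediateField
open scoped ComplexConjugate

noncomputable section

namespace OzakiFree

variable {p : ℕ} {ζ : Om} {F E : IntermediateField ℚ Om}

theorem PF_eq_MF (hp : p.Prime) (hμ : ∀ x : Om, x ^ p = 1 → x ∈ F) (σ : GQ) :
    σ ∈ PF p F ↔ σ ∈ MF p F := by
  have h1 := mem_cycZp hp F hμ σ
  have h2 := mem_cycZp_PQ hp F σ
  constructor
  · rintro ⟨a, b⟩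
    exact h2.1 (h1.2 ⟨a, b⟩)
  · rintro ⟨a, b⟩
    exact h1.1 (h2.2 ⟨a, b⟩)

/-- the final contradiction over a field containing `μ_p` -/
theorem keyEnd [FiniteDimensional ℚ F] (hp : p.Prime) (hζ : IsPrimitiveRoot ζ p)
    (hμ : ∀ x : Om, x ^ p = 1 → x ∈ F) (q₁ : Ideal (ZF F)) (m₁ : q₁.IsMaximal)
    {l : ℕ} (hl : l.Prime) (hlp : l ≠ p)
    (hcard : Nat.card (ZF F ⧸ q₁) = l) (hmod : ¬ l ≡ 1 [MOD p ^ 2]) (hgood : Good F l)
    (z : Om) (hz : z ^ p = (l : Om)) (c : ZMod p) (hc : c ≠ 0) (ψ : GQ → ZMod p)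
    (hψ1 : HomOn (PF p F) ψ) (hψ2 : LCOn (PF p F) ψ)
    (hA : ∀ B : Ideal ZO, B.IsMaximal → B.comap (iota F) = q₁ → ∀ t ∈ B.inertia GQ,
      t ∈ PF p F → ψ t = c * chi (p := p) ζ z t)
    (hB0 : ∀ B : Ideal ZO, B.IsMaximal → B.comap (iota F) ≠ q₁ →
      ∀ t ∈ B.inertia GQ, t ∈ PF p F → ψ t = 0)
    (hD : p = 2 → ∀ (φ : Om →+* ℂ) (s : GQ), (∀ x, φ (s x) = conj (φ x)) →
      s ∈ F.fixingSubgroup → ψ s = 0) : False := by
  have hFp : Fact p.Prime := ⟨hp⟩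
  have hz' : IsRt p z (l : ℤ) := ⟨by rw [hz]; simp, by exact_mod_cast hl.ne_zero⟩
  have hlq : (l : ZF F) ∈ q₁ := card_mem q₁ hcard
  have hpq : (p : ZF F) ∉ q₁ := not_both_mem q₁ m₁ hl hp hlp hlq
  have hBl : ∀ B : Ideal ZO, B.comap (iota F) = q₁ → (l : ZO) ∈ B := by
    intro B hB
    have : (l : ZF F) ∈ B.comap (iota F) := by rw [hB]; exact hlq
    rw [mem_comap_iff, map_natCast] at this
    exact this
  have hBz : ∀ B : Ideal ZO, B.IsMaximal → (p : ZO) ∉ B → B.comap (iota F) ≠ q₁ →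
      ∀ t ∈ B.inertia GQ, t ∈ PF p F → ψ t = 0 := fun B hB _ h t ht htP => hB0 B hB h t ht htP
  have hC : ∀ B : Ideal ZO, B.IsMaximal → (p : ZO) ∈ B → ∀ t ∈ B.inertia GQ,
      t ∈ PF p F → ψ t = 0 := by
    intro B hB hpB t ht htP
    refine hB0 B hB (fun h => hpq ?_) t ht htP
    rw [← h, mem_comap_iff, map_natCast]
    exact hpB
  have hψone : ψ 1 = 0 := EM_one hψ1
  -- transfer
  have hGopen : IsOpen (F.fixingSubgroup : Set GQ) := IntermediateField.fixingSubgroup_isOpen F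
  have hGfin : F.fixingSubgroup.FiniteIndex := by
    have hq : Finite (GQ ⧸ F.fixingSubgroup) := Subgroup.quotient_finite_of_isOpen _ hGopen
    exact Subgroup.finiteIndex_of_finite_quotient
  have hζP : ∀ h ∈ PP p, h ζ = ζ := fun h hh => PP_fix_root h hh ζ hζ.pow_eq_one
  obtain ⟨s, θ, hs, θ1, θ2, θ3, θ4⟩ := exists_transfer (PP p) F.fixingSubgroup PP_normal hGopen
    hGfin (cyc p ζ) (fun h hh g => cyc_mul hp hζ h (hζP h hh) g) ψ hψ1 hψ2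
  have hint : ∀ (B : Ideal ZO), B.IsMaximal → ∀ t ∈ B.inertia GQ, t ∈ PP p → ∀ (g : GQ) (n : ℕ),
      ∃ B' : Ideal ZO, B'.IsMaximal ∧ (∀ x : ZO, x ∈ B' ↔ g • x ∈ B) ∧
        g⁻¹ * t ^ n * g ∈ B'.inertia GQ ∧ g⁻¹ * t ^ n * g ∈ PP p := by
    intro B hB t ht htP g n
    obtain ⟨B', hB', hmem, hin⟩ := conj_inertia' B hB g
    refine ⟨B', hB', hmem, hin _ ((B.inertia GQ).pow_mem ht n), ?_⟩
    have := PP_normal.conj_mem _ ((PP p).pow_mem htP n) g⁻¹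
    rwa [inv_inv] at this
  -- vanishing away from `l`
  have hvan : ∀ B : Ideal ZO, B.IsMaximal → (l : ZO) ∉ B → ∀ t ∈ B.inertia GQ, t ∈ PP p →
      θ t = 0 := by
    intro B hB hlB t ht htP
    refine θ3 t htP fun g n _ hgG => ?_
    obtain ⟨B', hB', hmem, hin, hinP⟩ := hint B hB t ht htP g n
    have hlB' : (l : ZO) ∉ B' := by rw [hmem, smul_natCast']; exact hlB
    by_cases hpB' : (p : ZO) ∈ B'
    · exact hC B' hB' hpB' _ hin ⟨hinP, hgG⟩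
    · exact hBz B' hB' hpB' (fun h => hlB' (hBl B' h)) _ hin ⟨hinP, hgG⟩
  have hpl : ∀ B : Ideal ZO, B.IsMaximal → (p : ZO) ∈ B → (l : ZO) ∉ B := fun B hB h =>
    not_mem_of_prime hp hl (Ne.symm hlp) B hB h
  -- at `l`
  have hatl : ∀ B : Ideal ZO, B.IsMaximal → (l : ZO) ∈ B → ∀ t ∈ B.inertia GQ,
      θ t = c * chi (p := p) ζ z t := by
    intro B hB hlB t ht
    have hpB := not_mem_of_prime hl hp hlp B hB hlB
    have htP := inertia_mem_PP hp B hB hpB t ht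
    have hconj : ∀ g : GQ, ∃ B' : Ideal ZO, B'.IsMaximal ∧ (∀ x : ZO, x ∈ B' ↔ g • x ∈ B) ∧
        g⁻¹ * t * g ∈ B'.inertia GQ ∧ g⁻¹ * t * g ∈ PF p F := by
      intro g
      obtain ⟨B', hB', hmem, hin, hinP⟩ := hint B hB t ht htP g 1
      rw [pow_one] at hin hinP
      have hlB' : (l : ZO) ∈ B' := by rw [hmem, smul_natCast']; exact hlB
      exact ⟨B', hB', hmem, hin, hinP, good_fix hgood B' hB' hlB' _ hin⟩
    rw [θ4 t htP (fun g => by obtain ⟨-, -, -, -, h⟩ := hconj g; exact h.2)]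
    have hiff : ∀ (g : GQ) (B' : Ideal ZO), (∀ x : ZO, x ∈ B' ↔ g • x ∈ B) →
        (B'.comap (iota F) = q₁ ↔ ∀ w : ZF F, w ∈ q₁ ↔ ∃ b ∈ B, (b : Om) = g w.val) := by
      intro g B' hmem
      have e : ∀ w : ZF F, w ∈ B'.comap (iota F) ↔ ∃ b ∈ B, (b : Om) = g w.val := by
        intro w
        rw [mem_comap_iff, hmem]
        constructor
        · intro h; exact ⟨_, h, rfl⟩
        · rintro ⟨b, hb, hb'⟩
          have : b = g • (iota F w) := Subtype.ext hb'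
          rw [← this]; exact hb
      constructor
      · intro h w; rw [← e w, h]
      · intro h
        ext w
        rw [e w, h w]
    have hterm : ∀ g : GQ, (∀ w : ZF F, w ∈ q₁ ↔ ∃ b ∈ B, (b : Om) = g w.val) →
        cyc p ζ g * ψ (g⁻¹ * t * g) = c * chi (p := p) ζ z t := by
      intro g hg
      obtain ⟨B', hB'm, hmem, hin, hinP⟩ := hconj g
      rw [hA B' hB'm ((hiff g B' hmem).2 hg) _ hin hinP]
      obtain ⟨n, hn1, hn2⟩ := cyc_spec hp hζ g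
      have h3 := chi_conj hp hζ hz' g (g⁻¹ * t * g) (hζP _ hinP.1) n hn1
      have h4 : g * (g⁻¹ * t * g) * g⁻¹ = t := by group
      rw [h4] at h3
      rw [h3, hn2]; ring
    have hterm0 : ∀ g : GQ, ¬ (∀ w : ZF F, w ∈ q₁ ↔ ∃ b ∈ B, (b : Om) = g w.val) →
        cyc p ζ g * ψ (g⁻¹ * t * g) = 0 := by
      intro g hg
      obtain ⟨B', hB'm, hmem, hin, hinP⟩ := hconj g
      have hpB' : (p : ZO) ∉ B' := by rw [hmem, smul_natCast']; exact hpB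
      rw [hBz B' hB'm hpB' (fun h => hg ((hiff g B' hmem).1 h)) _ hin hinP, mul_zero]
    obtain ⟨g₀, hg₀⟩ := exists_embedding F hl q₁ m₁ hlq B hB hlB
    have hagree : ∀ (g g' : GQ), (∀ x ∈ F, g x = g' x) →
        (∀ w : ZF F, w ∈ q₁ ↔ ∃ b ∈ B, (b : Om) = g w.val) →
        (∀ w : ZF F, w ∈ q₁ ↔ ∃ b ∈ B, (b : Om) = g' w.val) := by
      intro g g' h hg w
      rw [hg w, h _ (ZF_val_mem w)]
    have hs₀ : ∀ x ∈ F, g₀ x = s (g₀ : GQ ⧸ F.fixingSubgroup) x := by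
      intro x hx
      have h1 : ((s (g₀ : GQ ⧸ F.fixingSubgroup) : GQ) : GQ ⧸ F.fixingSubgroup) = g₀ := hs _
      rw [QuotientGroup.eq] at h1
      have h2 := fix_F h1 x hx
      rw [AlgEquiv.mul_apply] at h2
      have h3 := congrArg (s (g₀ : GQ ⧸ F.fixingSubgroup)) h2
      rwa [apply_inv_self] at h3
    rw [finsum_eq_single _ (g₀ : GQ ⧸ F.fixingSubgroup)]
    · exact hterm _ (hagree g₀ _ hs₀ hg₀)
    · intro x hx
      apply hterm0
      intro h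
      apply hx
      have h1 := embedding_unique F hl hgood q₁ m₁ hcard B hB hlB _ g₀ h hg₀
      rw [← hs x, QuotientGroup.eq, IntermediateField.mem_fixingSubgroup_iff]
      intro y hy
      rw [AlgEquiv.mul_apply, ← h1 y hy, inv_apply_self']
  -- the assembled properties
  have T3 : ∀ B : Ideal (integralClosure ℤ Om), B.IsMaximal →
      (p : integralClosure ℤ Om) ∉ B → ∀ t ∈ B.inertia GQ, θ t = c * chi (p := p) ζ z t := by
    intro B hB hpB t ht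
    by_cases hlB : (l : ZO) ∈ B
    · exact hatl B hB hlB t ht
    · rw [hvan B hB hlB t ht (inertia_mem_PP hp B hB hpB t ht)]
      have : t z = z := inertia_fix_kummer hp B hB hpB t ht z (l : ℤ) hz'.1 (by
        simpa using hlB)
      rw [(chi_eq_zero_iff hp hζ hz' t).2 this, mul_zero]
  have T4 : ∀ B : Ideal (integralClosure ℤ Om), B.IsMaximal →
      (p : integralClosure ℤ Om) ∈ B → ∀ t ∈ B.inertia GQ, t ∈ PP p → θ t = 0 := by
    intro B hB hpB t ht htP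
    exact hvan B hB (hpl B hB hpB) t ht htP
  have hw := w_of_ram hp hζ hμ q₁ m₁ hl hlp hcard hmod
  by_cases hp2 : p = 2
  · subst hp2
    have hζ1 : ζ = -1 := by
      have h1 : ζ * ζ = 1 := by rw [← pow_two]; exact hζ.pow_eq_one
      rcases mul_self_eq_one_iff.mp h1 with h | h
      · exfalso
        rw [h] at hζ
        exact absurd (hζ.unique IsPrimitiveRoot.one) (by norm_num)
      · exact h
    subst hζ1
    refine no_psi_two hl ?_ hz' hc θ1 θ2 T3 T4 ?_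
    · have h2 : l % 2 = 1 := (hl.eq_two_or_odd).resolve_left hlp
      have h4 : l % 4 = 1 ∨ l % 4 = 3 := by omega
      rcases h4 with h4 | h4
      · exact absurd h4 hmod
      · exact h4
    · intro φ s' hs'
      refine θ3 s' (conj_mem_PP2 φ s' hs') fun g n _ hgG => ?_
      rcases Nat.even_or_odd' n with ⟨k, hk | hk⟩
      · have : s' ^ n = 1 := by rw [hk, pow_mul, conj_sq φ s' hs', one_pow]
        rw [this, mul_one, inv_mul_cancel]
        exact hψone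
      · have : s' ^ n = s' := by rw [hk, pow_add, pow_mul, conj_sq φ s' hs', one_pow, one_mul, pow_one]
        rw [this] at hgG ⊢
        refine hD rfl (φ.comp (g : Om →+* Om)) _ ?_ hgG
        intro x
        show φ (g ((g⁻¹ * s' * g) x)) = conj (φ (g x))
        rw [AlgEquiv.mul_apply, AlgEquiv.mul_apply, apply_inv_self, hs']
  · exact no_psi_odd hp hp2 hζ hl hlp hw hz' hc θ1 θ2 T3 T4

/-- **explicit primes, `μ_p ⊂ F`, extensions `k/k₁` of degree `p`** -/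
theorem mainF2 {p : ℕ} (hp : p.Prime) (F : IntermediateField ℚ Om) [FiniteDimensional ℚ F]
    (hμ : ∀ x : Om, x ^ p = 1 → x ∈ F) :
    ∃ C : ℕ, ∀ k₁ k : IntermediateField ℚ Om, F ≤ k₁ → ¬ p ∣ relfinrank F k₁ →
      CyclicExt p k₁ k → (C : ℕ∞) < (KumDiv p F k).encard → ¬ FreeGal p (cycZp p k) := by
  obtain ⟨D, hD0, hD⟩ := exists_good F
  obtain ⟨C₁, hC₁⟩ := pigeon (FL F) p hp
  have hfin := finite_above F D hD0
  refine ⟨C₁ + {q : Ideal (ZF F) | q.IsMaximal ∧ (D : ZF F) ∈ q}.ncard,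
    fun k₁ k hFk₁ hdeg hk hlt hfree => ?_⟩
  have hk₁fin : FiniteDimensional ℚ k₁ := finite_of_deg F k₁ hFk₁ hdeg
  have hkfin : FiniteDimensional ℚ k := finite_of_deg (p := p + 1) k₁ k hk.1 (by
    rw [hk.2.1]
    exact fun h => absurd (Nat.le_of_dvd hp.pos h) (by omega))
  have hFk : F ≤ k := hFk₁.trans hk.1
  set Bad := {q : Ideal (ZF F) | q.IsMaximal ∧ (D : ZF F) ∈ q} with hBad
  have hS : (C₁ : ℕ∞) < (KumDiv p F k \ Bad).encard := by
    by_contra hcon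
    rw [not_lt] at hcon
    have h1 : (KumDiv p F k).encard ≤ (KumDiv p F k \ Bad).encard + Bad.encard := by
      refine le_trans (Set.encard_le_encard (t := (KumDiv p F k \ Bad) ∪ Bad) ?_)
        (Set.encard_union_le _ _)
      intro q hq
      by_cases h : q ∈ Bad
      · exact Or.inr h
      · exact Or.inl ⟨hq, h⟩
    have h2 : Bad.encard = (Bad.ncard : ℕ∞) := (hfin.cast_ncard_eq).symm
    have h3 : (KumDiv p F k).encard ≤ (C₁ : ℕ∞) + (Bad.ncard : ℕ∞) := by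
      rw [← h2]
      exact le_trans h1 (add_le_add_left hcon _)
    have h4 : ((C₁ + Bad.ncard : ℕ) : ℕ∞) = (C₁ : ℕ∞) + (Bad.ncard : ℕ∞) := by push_cast; rfl
    rw [h4] at hlt
    exact absurd (lt_of_lt_of_le hlt h3) (lt_irrefl _)
  choose! B hBm hBq using fun (q : Ideal (ZF F)) (hq : q.IsMaximal) => exists_over F q hq
  have hlB : ∀ q, q.IsMaximal → ((Nat.card (ZF F ⧸ q) : ℕ) : ZO) ∈ B q := by
    intro q hq
    have h1 : ((Nat.card (ZF F ⧸ q) : ℕ) : ZF F) ∈ (B q).comap (iota F) := by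
      rw [hBq q hq]; exact card_mem q rfl
    rwa [mem_comap_iff, map_natCast] at h1
  have hgood : ∀ q ∈ KumDiv p F k \ Bad, Good F (Nat.card (ZF F ⧸ q)) := by
    rintro q ⟨hq, hbad⟩
    refine hD _ hq.2.1 fun hdvd => hbad ⟨hq.1, ?_⟩
    obtain ⟨k', hk'⟩ := hdvd
    rw [hk', Nat.cast_mul]
    exact q.mul_mem_right _ (card_mem q rfl)
  obtain ⟨q₁, hq₁, q₂, hq₂, q₃, hq₃, n₁₂, n₁₃, n₂₃, b₁, b₂, P₁, P₂⟩ :=
    hC₁ (KumDiv p F k \ Bad) hS (fun q hq => ⟨hq.1.1, not_both_mem q hq.1.1 hq.1.2.1 hp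
      hq.1.2.2.1 (card_mem q rfl)⟩)
  obtain ⟨ζ, hζ⟩ := exists_prim p hp.pos
  obtain ⟨χ₀, hχhom, hχlc, hχk⟩ := exists_chi0 hp k₁ k hk
  have hK : ∀ σ, σ ∈ (cycZp p k).fixingSubgroup ↔ σ ∈ MF p k₁ ∧ χ₀ σ = 0 := by
    intro σ
    rw [mem_cycZp_PQ hp k σ, hχk]
    constructor
    · rintro ⟨h1, h2, h3⟩; exact ⟨⟨h1, h2⟩, h3⟩
    · rintro ⟨⟨h1, h2⟩, h3⟩; exact ⟨h1, h2, h3⟩
  have hram : ∀ q ∈ KumDiv p F k \ Bad, ∀ B' : Ideal ZO, B'.IsMaximal →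
      B'.comap (iota F) = (B q).comap (iota F) → ∀ t ∈ B'.inertia GQ,
      t ∈ (cycZp p k).fixingSubgroup → ∀ z : Om, z ^ p = ((Nat.card (ZF F ⧸ q) : ℕ) : Om) →
      t z = z := by
    intro q hq B' hB' hc t ht htK z hz
    rw [hBq q hq.1.1] at hc
    have hlB' : ((Nat.card (ZF F ⧸ q) : ℕ) : ZO) ∈ B' := by
      have h1 : ((Nat.card (ZF F ⧸ q) : ℕ) : ZF F) ∈ B'.comap (iota F) := by
        rw [hc]; exact card_mem q rfl
      rwa [mem_comap_iff, map_natCast] at h1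
    refine ram_root hp F k hFk hq.1.2.1 hq.1.2.2.1 (hgood q hq) B' hB' hlB' ?_ t
      ht ((mem_cycZp_PQ hp k t).1 htK).2 z hz
    rw [hc]
    exact hq.1.2.2.2.2
  obtain ⟨z, hz⟩ := IsAlgClosed.exists_pow_nat_eq ((Nat.card (ZF F ⧸ q₁) : ℕ) : Om) hp.pos
  have hne : ∀ q ∈ KumDiv p F k \ Bad, ∀ q' ∈ KumDiv p F k \ Bad, q ≠ q' →
      (B q).comap (iota F) ≠ (B q').comap (iota F) := by
    intro q hq q' hq' h h'
    rw [hBq q hq.1.1, hBq q' hq'.1.1] at h'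
    exact h h'
  have e₁ := hBq q₁ hq₁.1.1
  have e₂ := hBq q₂ hq₂.1.1
  have e₃ := hBq q₃ hq₃.1.1
  have P₁' : ∀ x y : Ideal (ZF F), x = q₁ → y = q₂ → PairElt (FL F) p x y b₁ := by
    intro x y hx hy
    subst hx; subst hy; exact P₁
  have P₂' : ∀ x y : Ideal (ZF F), x = q₁ → y = q₃ → PairElt (FL F) p x y b₂ := by
    intro x y hx hy
    subst hx; subst hy; exact P₂
  obtain ⟨ψ, c, hc, ψ1, ψ2, hA, hB, hR⟩ := stepB2 hp hζ le_rfl hμ k₁ hFk₁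
    (index_MF hp F k₁ hFk₁ hdeg) χ₀ hχhom hχlc (cycZp p k) hK hfree (B q₁) (B q₂) (B q₃)
    (hBm q₁ hq₁.1.1)
    (hne q₁ hq₁ q₂ hq₂ n₁₂) (hne q₁ hq₁ q₃ hq₃ n₁₃) (hne q₂ hq₂ q₃ hq₃ n₂₃) hq₁.1.2.1
    hq₁.1.2.2.1
    (hgood q₁ hq₁) (hlB q₁ hq₁.1.1) (hram q₁ hq₁) hq₂.1.2.1 (hgood q₂ hq₂) (hlB q₂ hq₂.1.1)
    (hram q₂ hq₂) hq₃.1.2.1 (hgood q₃ hq₃) (hlB q₃ hq₃.1.1) (hram q₃ hq₃) (by rw [e₁]) z hz b₁ b₂
    (P₁' _ _ e₁ e₂) (P₂' _ _ e₁ e₃)
  refine keyEnd hp hζ hμ q₁ hq₁.1.1 hq₁.1.2.1 hq₁.1.2.2.1 rfl hq₁.1.2.2.2.1 (hgood q₁ hq₁) z hz c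
    hc ψ (fun g hg h hh => ψ1 g ((PF_eq_MF hp hμ g).1 hg) h ((PF_eq_MF hp hμ h).1 hh)) ?_ ?_ ?_ ?_
  · obtain ⟨U, hU, hU'⟩ := ψ2
    exact ⟨U, hU, fun g hg u hu huP => hU' g ((PF_eq_MF hp hμ g).1 hg) u hu
      ((PF_eq_MF hp hμ u).1 huP)⟩
  · intro B' hB' hc' t ht htP
    have h1 : Lies F 1 B' ((B q₁).comap (iota F)) :=
      (lies_iff 1 B' B' (fun x => by rw [one_smul]) _).1 (by rw [hc', e₁])
    have h2 := hA B' hB' t ht 1 (one_mem _) h1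
    rwa [inv_one, one_mul, mul_one] at h2
  · intro B' hB' hc' t ht htP
    refine hB B' hB' t ht ((PF_eq_MF hp hμ t).1 htP) fun h hh hl' => hc' ?_
    have h1 := lies_congr h 1 (fun x hx => fix_F hh.2 x hx) B' _ hl'
    rw [(lies_iff 1 B' B' (fun x => by rw [one_smul]) _).2 h1, e₁]
  · intro h2 φ s hs hsF
    subst h2
    exact hR φ s hs ((PF_eq_MF hp hμ s).1 ⟨conj_mem_PP2 φ s hs, hsF⟩)

end OzakiFree
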