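import Pool.Agent.Lib.MP_6e8030_nt.VMain5
import Pool.Agent.Lib.MP_6e8030_nt.Final3

open IntermediateField
open scoped ComplexConjugate

noncomputable section

namespace OzakiFree

variable {p : ℕ} {ζ : Om}

/-- the field `ℚ(μ_p)` -/
abbrev Qmu (p : ℕ) : IntermediateField ℚ Om := adjoin ℚ {x : Om | x ^ p = 1}

theorem Qmu_finite (hp : p.Prime) : FiniteDimensional ℚ (Qmu p) := by
  have h1 : ({x : Om | x ^ p = 1} : Set Om).Finite := E10_mu_finite hp.pos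
  have := h1.to_subtype
  exact IntermediateField.finiteDimensional_adjoin fun x _ =>
    (Algebra.IsAlgebraic.isAlgebraic x).isIntegral

theorem MF_Qmu (hp : p.Prime) (σ : GQ) : σ ∈ MF p (Qmu p) ↔ σ ∈ PP p := by
  rw [← PF_eq_MF hp (F := Qmu p) (fun x hx => subset_adjoin ℚ _ hx)]
  constructor
  · exact fun h => h.1
  · intro h
    refine ⟨h, (mem_fix_adjoin _ _).2 ?_⟩
    intro x hx
    exact PP_fix_root σ h x hx

theorem conj_inertia_PP (hp : p.Prime) (B : Ideal ZO) (hB : B.IsMaximal) (t : GQ)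
    (ht : t ∈ B.inertia GQ) (htP : t ∈ PP p) (g : GQ) (n : ℕ) :
    ∃ B' : Ideal ZO, B'.IsMaximal ∧ (∀ x : ZO, x ∈ B' ↔ g • x ∈ B) ∧
      g⁻¹ * t ^ n * g ∈ B'.inertia GQ ∧ g⁻¹ * t ^ n * g ∈ PP p := by
  obtain ⟨B', hB', hmem, hin⟩ := conj_inertia' B hB g
  refine ⟨B', hB', hmem, hin _ ((B.inertia GQ).pow_mem ht n), ?_⟩
  have := PP_normal.conj_mem _ ((PP p).pow_mem htP n) g⁻¹
  rwa [inv_inv] at this

theorem root_of_RamDivZ (hp : p.Prime) (hζ : IsPrimitiveRoot ζ p) (k : IntermediateField ℚ Om)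
    [FiniteDimensional ℚ k] {l : ℕ} (hl : l.Prime) (hlp : l ≠ p) (hram : RamDivZ p k l)
    (B : Ideal ZO) (hB : B.IsMaximal) (hlB : (l : ZO) ∈ B) (t : GQ) (ht : t ∈ B.inertia GQ)
    (htk : t ∈ k.fixingSubgroup) {z : Om} (hz : IsRt p z (l : ℤ)) :
    chi (p := p) ζ z t = 0 := by
  refine chi_zero_of_dvd hp hζ B hB (not_mem_of_prime hl hp hlp B hB hlB) t ht htk (l : ZF k)
    (natCast_ne_zero k hl.ne_zero) z (by rw [hz.1, ZF_natCast_val]; simp) ?_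
  exact hram _ (comap_max k B hB) (by rw [mem_comap_iff, map_natCast]; exact hlB)

/-- **three primes, extensions `k/k₁` of degree `p`** -/
theorem three_psi2 (hp : p.Prime) (hζ : IsPrimitiveRoot ζ p)
    (k₁ k : IntermediateField ℚ Om) [FiniteDimensional ℚ k₁] [FiniteDimensional ℚ k]
    (hμ : ∀ x : Om, x ^ p = 1 → x ∈ k₁)
    (hidx : ¬ p ∣ (PP p ⊓ k₁.fixingSubgroup).relIndex (PP p)) (hk : CyclicExt p k₁ k)
    {l₁ l₂ l₃ : ℕ} (P₁ : l₁.Prime) (P₂ : l₂.Prime) (P₃ : l₃.Prime)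
    (n₁ : l₁ ≠ p) (n₂ : l₂ ≠ p) (n₃ : l₃ ≠ p) (n₁₂ : l₁ ≠ l₂) (n₁₃ : l₁ ≠ l₃) (n₂₃ : l₂ ≠ l₃)
    (v₁ : RamDivZ p k l₁) (v₂ : RamDivZ p k l₂) (v₃ : RamDivZ p k l₃)
    (w₁ : ¬ (l₁ : ℤ) ^ (p - 1) ≡ 1 [ZMOD (p ^ 2 : ℕ)])
    (w₂ : ¬ (l₂ : ℤ) ^ (p - 1) ≡ 1 [ZMOD (p ^ 2 : ℕ)])
    (w₃ : ¬ (l₃ : ℤ) ^ (p - 1) ≡ 1 [ZMOD (p ^ 2 : ℕ)])
    (hfree : FreeGal p (cycZp p k)) :
    ∃ (z : Om) (c : ZMod p) (ψ : GQ → ZMod p), IsRt p z (l₁ : ℤ) ∧ c ≠ 0 ∧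
      HomOn (PP p) ψ ∧ LCOn (PP p) ψ ∧
      (∀ B : Ideal (integralClosure ℤ Om), B.IsMaximal → (p : integralClosure ℤ Om) ∉ B →
        ∀ t ∈ B.inertia GQ, ψ t = c * chi (p := p) ζ z t) ∧
      (∀ B : Ideal (integralClosure ℤ Om), B.IsMaximal → (p : integralClosure ℤ Om) ∈ B →
        ∀ t ∈ B.inertia GQ, t ∈ PP p → ψ t = 0) ∧
      (p = 2 → ∀ (φ : Om →+* ℂ) (c : GQ), (∀ x, φ (c x) = conj (φ x)) → ψ c = 0) := by
  have hFp : Fact p.Prime := ⟨hp⟩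
  set K : IntermediateField ℚ Om := cycZp p k with hKdef
  have hμk : ∀ x : Om, x ^ p = 1 → x ∈ k := fun x hx => hk.1 (hμ x hx)
  have hKP : ∀ σ, σ ∈ K.fixingSubgroup ↔ σ ∈ PP p ∧ σ ∈ k.fixingSubgroup :=
    mem_cycZp hp k hμk
  have hζP : ∀ σ ∈ PP p, σ ζ = ζ := fun σ hσ => PP_fix_root σ hσ ζ hζ.pow_eq_one
  obtain ⟨χ₀, hχhom, hχlc, hχk⟩ := exists_chi0 hp k₁ k hk
  set M₁ : Subgroup GQ := PP p ⊓ k₁.fixingSubgroup with hM₁
  have hK : ∀ σ, σ ∈ K.fixingSubgroup ↔ σ ∈ M₁ ∧ χ₀ σ = 0 := by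
    intro σ
    rw [hKP, hχk]
    constructor
    · rintro ⟨h1, h2, h3⟩; exact ⟨⟨h1, h2⟩, h3⟩
    · rintro ⟨⟨h1, h2⟩, h3⟩; exact ⟨h1, h2, h3⟩
  have hGopen : IsOpen (k₁.fixingSubgroup : Set GQ) := IntermediateField.fixingSubgroup_isOpen k₁
  have hGfin : k₁.fixingSubgroup.FiniteIndex := by
    have hq : Finite (GQ ⧸ k₁.fixingSubgroup) := Subgroup.quotient_finite_of_isOpen _ hGopen
    exact Subgroup.finiteIndex_of_finite_quotient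
  obtain ⟨x₁, x₂, hx₁, hx₂, hx⟩ := exps hp P₁ P₂ n₁ n₂ w₁ w₂
  obtain ⟨u₁, u₃, hu₁, hu₃, hu⟩ := exps hp P₁ P₃ n₁ n₃ w₁ w₃
  have a₁pos : 0 < ((l₁ : ℤ) ^ x₁ * (l₂ : ℤ) ^ x₂) := by
    have := P₁.pos; have := P₂.pos; positivity
  have a₂pos : 0 < ((l₁ : ℤ) ^ u₁ * (l₃ : ℤ) ^ u₃) := by
    have := P₁.pos; have := P₃.pos; positivity
  obtain ⟨y₁, h1⟩ := exists_rt hp _ a₁pos.ne'
  obtain ⟨y₂, h2⟩ := exists_rt hp _ a₂pos.ne'
  obtain ⟨z, hz⟩ := exists_rt hp (l₁ : ℤ) (by exact_mod_cast P₁.ne_zero)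
  have hreal : ∀ {y : Om} {a : ℤ}, IsRt p y a → 0 < a → ∀ (φ : Om →+* ℂ) (c : GQ),
      (∀ y, φ (c y) = conj (φ y)) → c ∈ PP p → c y = y := by
    intro y a hy ha φ c hc hcP
    by_cases h : p = 2
    · subst h
      exact conj_sqrt_pos φ c hc y a hy.1 ha
    · exact absurd hcP (conj_not_mem_PP hp h φ c hc hζ)
  -- vanishing on `RL`
  have hRL : ∀ {q₁ q₂ : ℕ}, q₁.Prime → q₂.Prime → q₁ ≠ p → q₂ ≠ p → RamDivZ p k q₁ →
      RamDivZ p k q₂ → ∀ (x₁ x₂ : ℕ) (y : Om), IsRt p y ((q₁ : ℤ) ^ x₁ * (q₂ : ℤ) ^ x₂) →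
      (((q₁ : ℤ) ^ x₁ * (q₂ : ℤ) ^ x₂) ^ (p - 1) ≡ 1 [ZMOD (p ^ 2 : ℕ)]) →
      ∀ r ∈ RL p K, chi (p := p) ζ y r = 0 := by
    intro q₁ q₂ Q₁ Q₂ m₁ m₂ r₁ r₂ x₁ x₂ y hy hmod r hr
    have hapos : 0 < ((q₁ : ℤ) ^ x₁ * (q₂ : ℤ) ^ x₂) := by
      have := Q₁.pos; have := Q₂.pos; positivity
    rw [chi_eq_zero_iff hp hζ hy]
    refine fix_of_mem_RL hp K (fun ξ hξ => ?_) y ?_ ?_ (fun φ c hc hcK =>
      hreal hy hapos φ c hc ((hKP c).1 hcK).1) r hr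
    · rw [← InfiniteGalois.fixedField_fixingSubgroup K]
      rintro ⟨σ, hσ⟩
      exact PP_fix_root σ ((hKP σ).1 hσ).1 ξ hξ
    · rw [hy.1]; exact intCast_mem _ _
    · intro B hB t ht htK
      rw [hKP] at htK
      by_cases hpB : (p : integralClosure ℤ Om) ∈ B
      · exact inertia_fix_kummer_p hp B hB hpB t ht (fun ξ hξ => PP_fix_root t htK.1 ξ hξ) y _
          hy.1 hmod
      · obtain ⟨l, hl, hlB, hlB'⟩ := exists_prime_mem B hB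
        obtain ⟨z', hz'⟩ := exists_rt hp (l : ℤ) (by exact_mod_cast hl.ne_zero)
        rw [← chi_eq_zero_iff hp hζ hy, chi_val hp hζ B hB hpB t ht hl hlB' hy hz',
          padicValInt_two hl Q₁ Q₂]
        by_cases e1 : l = q₁
        · rw [root_of_RamDivZ hp hζ k hl (by rw [e1]; exact m₁) (by rw [e1]; exact r₁) B hB
            (by simpa using hlB) t ht htK.2 hz', mul_zero]
        · by_cases e2 : l = q₂
          · rw [root_of_RamDivZ hp hζ k hl (by rw [e2]; exact m₂) (by rw [e2]; exact r₂) B hB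
              (by simpa using hlB) t ht htK.2 hz', mul_zero]
          · simp [e1, e2]
  have A1 := chi_homOn hp hζ h1 (PP p) hζP
  have C1 := chi_homOn hp hζ h2 (PP p) hζP
  have A2 := chi_lcOn (p := p) (ζ := ζ) h1 (PP p)
  have C2 := chi_lcOn (p := p) (ζ := ζ) h2 (PP p)
  have A3 := hRL P₁ P₂ n₁ n₂ v₁ v₂ x₁ x₂ y₁ h1 hx
  have C3 := hRL P₁ P₃ n₁ n₃ v₁ v₃ u₁ u₃ y₂ h2 hu
  have hx₁' : ((x₁ : ℕ) : ZMod p) ≠ 0 := by rwa [Ne, ZMod.natCast_eq_zero_iff]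
  have hu₁' : ((u₁ : ℕ) : ZMod p) ≠ 0 := by rwa [Ne, ZMod.natCast_eq_zero_iff]
  -- values on inertia groups
  have hvals : ∀ B : Ideal ZO, B.IsMaximal → ∀ t ∈ B.inertia GQ, t ∈ PP p →
      ((l₁ : ZO) ∈ B → chi (p := p) ζ y₁ t = x₁ * chi (p := p) ζ z t ∧
        chi (p := p) ζ y₂ t = u₁ * chi (p := p) ζ z t) ∧
      ((l₁ : ZO) ∉ B → chi (p := p) ζ y₁ t * chi (p := p) ζ y₂ t = 0) := by
    intro B hB t ht htP
    by_cases hpB : (p : integralClosure ℤ Om) ∈ B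
    · have hl₁B : (l₁ : ZO) ∉ B := not_mem_of_prime hp P₁ (Ne.symm n₁) B hB hpB
      refine ⟨fun h => absurd h hl₁B, fun _ => ?_⟩
      have := inertia_fix_kummer_p hp B hB hpB t ht (fun ξ hξ => PP_fix_root t htP ξ hξ) y₁ _
        h1.1 hx
      rw [(chi_eq_zero_iff hp hζ h1 t).2 this, zero_mul]
    · obtain ⟨l, hl, hlB, hlB'⟩ := exists_prime_mem B hB
      obtain ⟨z', hz'⟩ := exists_rt hp (l : ℤ) (by exact_mod_cast hl.ne_zero)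
      have k1 := chi_val hp hζ B hB hpB t ht hl hlB' h1 hz'
      have k2 := chi_val hp hζ B hB hpB t ht hl hlB' h2 hz'
      have k3 := chi_val hp hζ B hB hpB t ht hl hlB' hz hz'
      rw [padicValInt_two hl P₁ P₂] at k1
      rw [padicValInt_two hl P₁ P₃] at k2
      rw [padicValInt_prime hl P₁] at k3
      constructor
      · intro hl₁B
        have e1 : l = l₁ := by
          by_contra hne
          exact not_mem_of_prime P₁ hl (Ne.symm hne) B hB hl₁B (by simpa using hlB)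
        subst e1
        simp only [n₁₂, n₁₃, if_true, if_false, mul_one, mul_zero, add_zero, Nat.cast_one,
          one_mul] at k1 k2 k3
        rw [k1, k2, k3]
        exact ⟨rfl, rfl⟩
      · intro hl₁B
        have e1 : l ≠ l₁ := by
          rintro rfl
          exact hl₁B (by simpa using hlB)
        by_cases e2 : l = l₂
        · have e3 : l ≠ l₃ := fun e => n₂₃ (e2.symm.trans e)
          rw [k2]; simp [e1, e3]
        · rw [k1]; simp [e1, e2]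
  have hhom : HomOn M₁ χ₀ := fun g hg h hh => hχhom g hg.2 h hh.2
  have hlc : LCOn M₁ χ₀ := by
    obtain ⟨U, hU, hU'⟩ := hχlc
    exact ⟨U, hU, fun g hg u hu huM => hU' g hg.2 u hu huM.2⟩
  have resH : ∀ {χ : GQ → ZMod p}, HomOn (PP p) χ → HomOn M₁ χ := fun h g hg k hk =>
    h g hg.1 k hk.1
  have resL : ∀ {χ : GQ → ZMod p}, LCOn (PP p) χ → LCOn M₁ χ := by
    rintro χ ⟨U, hU, hU'⟩
    exact ⟨U, hU, fun g hg u hu huM => hU' g hg.1 u hu huM.1⟩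
  have hinR : ∀ B : Ideal ZO, B.IsMaximal → ∀ t ∈ B.inertia GQ, t ∈ M₁ → χ₀ t = 0 →
      t ∈ RL p K := fun B hB t ht htM h => inertia_mem_RL p K B hB t ht ((hK t).2 ⟨htM, h⟩)
  have hinRp : ∀ B : Ideal ZO, B.IsMaximal → ∀ t ∈ B.inertia GQ, t ∈ M₁ →
      t ^ p ∈ RL p K := by
    intro B hB t ht htM
    refine hinR B hB _ ((B.inertia GQ).pow_mem ht p) (M₁.pow_mem htM p) ?_
    rw [EM_pow hhom t htM]; simp
  have hidx0 : ((M₁.relIndex (PP p) : ℕ) : ZMod p) ≠ 0 := by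
    rwa [Ne, ZMod.natCast_eq_zero_iff]
  -- an element of inertia above `l₁`
  obtain ⟨B₁, hB₁, hlB₁, t₁, ht₁, hmove⟩ := exists_inertia_moves hp P₁ n₁ (l₁ : ℤ)
    (by rw [padicValInt_prime P₁ P₁, if_pos rfl]; exact hp.not_dvd_one) z hz.1
  have hpB₁ := not_mem_of_prime P₁ hp n₁ B₁ hB₁ hlB₁
  have ht₁P : t₁ ∈ PP p := inertia_mem_PP hp B₁ hB₁ hpB₁ t₁ ht₁
  have hχ₁ : chi (p := p) ζ z t₁ ≠ 0 := fun h => hmove ((chi_eq_zero_iff hp hζ hz t₁).1 h)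
  have hval₁ : chi (p := p) ζ y₁ t₁ ≠ 0 := by
    rw [((hvals B₁ hB₁ t₁ ht₁ ht₁P).1 hlB₁).1]
    exact mul_ne_zero hx₁' hχ₁
  obtain ⟨Bu, u, hBu, hu', huM, hu0⟩ : ∃ (B : Ideal ZO) (t : GQ), B.IsMaximal ∧
      t ∈ B.inertia GQ ∧ t ∈ M₁ ∧ χ₀ t ≠ 0 := by
    by_contra hcon
    push Not at hcon
    obtain ⟨θ, -, -, hθ⟩ := transfer_val (PP p) k₁.fixingSubgroup hGopen hGfin
      (chi (p := p) ζ y₁) (resH A1) (resL A2)
    have e1 := hθ t₁ ht₁P (chi (p := p) ζ y₁) A1 (fun _ _ _ _ => rfl)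
    have e2 := hθ t₁ ht₁P (fun _ => 0) (fun _ _ _ _ => (add_zero 0).symm) (by
      intro g hg n hgG
      obtain ⟨B', hB', hmem, hin, hinP⟩ := conj_inertia_PP hp B₁ hB₁ t₁ ht₁ ht₁P g n
      exact A3 _ (hinR B' hB' _ hin ⟨hinP, hgG⟩ (hcon B' _ hB' hin ⟨hinP, hgG⟩)))
    rw [e1, mul_zero] at e2
    exact (mul_ne_zero hidx0 hval₁) e2
  set m := ((χ₀ u)⁻¹).val with hm
  have ht01 : χ₀ (u ^ m) = 1 := by
    rw [EM_pow hhom u huM, hm, ZMod.natCast_val, ZMod.cast_id', id, inv_mul_cancel₀ hu0]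
  have hconj : ∀ g ∈ M₁, ∀ σ ∈ K.fixingSubgroup, g⁻¹ * σ * g ∈ K.fixingSubgroup := by
    intro g hg σ hσ
    rw [hK] at hσ ⊢
    refine ⟨M₁.mul_mem (M₁.mul_mem (M₁.inv_mem hg) hσ.1) hg, ?_⟩
    rw [EM_conj hhom g σ hg hσ.1, hσ.2]
  obtain ⟨L1, L2⟩ := lifts_of_free (p := p) K hfree
  obtain ⟨ψ, ψ1, ψ2, ψ3, ψ4⟩ := lemmaA_iter M₁ K.fixingSubgroup (RL p K) χ₀
    (chi (p := p) ζ y₁) (chi (p := p) ζ y₂) hhom
    (resH A1) (resH C1) hlc (resL A2) (resL C2) hK (RL_le p K) (by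
      intro g hg r hr
      refine RL_conj p _ g (stable_of_conj _ g (hconj g hg)) (stable_of_conj _ g⁻¹ ?_) r hr
      intro σ hσ
      exact hconj g⁻¹ (M₁.inv_mem hg) σ hσ) A3 C3 L1 L2 (u ^ m) (M₁.pow_mem huM m)
    ht01 (hinRp Bu hBu _ ((Bu.inertia GQ).pow_mem hu' m) (M₁.pow_mem huM m)) (p - 1)
  have hform : ∀ B : Ideal ZO, B.IsMaximal → ∀ t ∈ B.inertia GQ, t ∈ M₁ →
      ψ t = chi (p := p) ζ y₁ t * chi (p := p) ζ y₂ t ^ (p - 1) := by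
    intro B hB t ht htM
    by_cases hc : χ₀ t = 0
    · have htR := hinR B hB t ht htM hc
      rw [ψ3 t htR, A3 t htR, zero_mul]
    · have h1 := ψ4 t htM hc (hinRp B hB t ht htM)
      rwa [ZMod.pow_card_sub_one_eq_one hc, one_mul] at h1
  have hp1 : p - 1 ≠ 0 := Nat.sub_ne_zero_of_lt hp.one_lt
  obtain ⟨θ, θ1, θ2, hθ⟩ := transfer_val (PP p) k₁.fixingSubgroup hGopen hGfin ψ ψ1 ψ2
  have hθ0 : ∀ t ∈ PP p, (∀ g ∈ PP p, ∀ n : ℕ, g⁻¹ * t ^ n * g ∈ k₁.fixingSubgroup →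
      ψ (g⁻¹ * t ^ n * g) = 0) → θ t = 0 := by
    intro t ht h
    rw [hθ t ht (fun _ => 0) (fun _ _ _ _ => (add_zero 0).symm) h, mul_zero]
  -- away from `l₁`
  have haway : ∀ B : Ideal ZO, B.IsMaximal → (l₁ : ZO) ∉ B → ∀ t ∈ B.inertia GQ, t ∈ PP p →
      θ t = 0 := by
    intro B hB hlB t ht htP
    refine hθ0 t htP fun g hg n hgG => ?_
    obtain ⟨B', hB', hmem, hin, hinP⟩ := conj_inertia_PP hp B hB t ht htP g n
    have hlB' : (l₁ : ZO) ∉ B' := fun h => hlB ((mem_natCast_conj g B B' hmem l₁).1 h)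
    rw [hform B' hB' _ hin ⟨hinP, hgG⟩]
    rcases mul_eq_zero.1 ((hvals B' hB' _ hin hinP).2 hlB') with h | h
    · rw [h, zero_mul]
    · rw [h, zero_pow hp1, mul_zero]
  refine ⟨z, ((M₁.relIndex (PP p) : ℕ) : ZMod p) * x₁, θ, hz, mul_ne_zero hidx0 hx₁', θ1, θ2,
    ?_, ?_, ?_⟩
  · intro B hB hpB t ht
    have htP := inertia_mem_PP hp B hB hpB t ht
    by_cases hlB : (l₁ : ZO) ∈ B
    · rw [hθ t htP (chi (p := p) ζ y₁) A1 ?_, ((hvals B hB t ht htP).1 hlB).1]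
      · ring
      intro g hg n hgG
      obtain ⟨B', hB', hmem, hin, hinP⟩ := conj_inertia_PP hp B hB t ht htP g n
      have hlB' : (l₁ : ZO) ∈ B' := (mem_natCast_conj g B B' hmem l₁).2 hlB
      obtain ⟨e1, e2⟩ := (hvals B' hB' _ hin hinP).1 hlB'
      rw [hform B' hB' _ hin ⟨hinP, hgG⟩, e1, e2]
      by_cases hχ : chi (p := p) ζ z (g⁻¹ * t ^ n * g) = 0
      · rw [hχ]; ring
      · rw [ZMod.pow_card_sub_one_eq_one (mul_ne_zero hu₁' hχ), mul_one]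
    · rw [haway B hB hlB t ht htP]
      obtain ⟨l, hl, hlB1, hlB'⟩ := exists_prime_mem B hB
      obtain ⟨z', hz'⟩ := exists_rt hp (l : ℤ) (by exact_mod_cast hl.ne_zero)
      have e1 : l ≠ l₁ := by
        rintro rfl
        exact hlB (by simpa using hlB1)
      rw [chi_val hp hζ B hB hpB t ht hl hlB' hz hz', padicValInt_prime hl P₁, if_neg e1]
      simp
  · intro B hB hpB t ht htP
    exact haway B hB (not_mem_of_prime hp P₁ (Ne.symm n₁) B hB hpB) t ht htP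
  · intro h2 φ s hs
    subst h2
    have hsP := conj_mem_PP2 φ s hs
    have hψconj : ∀ (φ : Om →+* ℂ) (s : GQ), (∀ x, φ (s x) = conj (φ x)) → s ∈ M₁ →
        ψ s = 0 := by
      intro φ s hs hsM
      by_cases hc0 : χ₀ s = 0
      · exact ψ3 s (conj_mem_RL 2 _ φ s hs ((hK s).2 ⟨hsM, hc0⟩))
      · have k3 := ψ4 s hsM hc0 (by rw [conj_sq φ s hs]; exact (RL 2 K).one_mem)
        have h4 := conj_sqrt_pos φ s hs y₁ _ h1.1 a₁pos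
        rw [(chi_eq_zero_iff hp hζ h1 s).2 h4, zero_mul] at k3
        exact (mul_eq_zero.1 k3).resolve_left (pow_ne_zero _ hc0)
    refine hθ0 s hsP fun g hg n hgG => ?_
    rcases Nat.even_or_odd' n with ⟨j, hj | hj⟩
    · have : s ^ n = 1 := by rw [hj, pow_mul, conj_sq φ s hs, one_pow]
      rw [this, mul_one, inv_mul_cancel, EM_one ψ1]
    · have : s ^ n = s := by
        rw [hj, pow_add, pow_mul, conj_sq φ s hs, one_pow, one_mul, pow_one]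
      rw [this] at hgG ⊢
      have hc' : ∀ x, (φ.comp (g : Om →+* Om)) ((g⁻¹ * s * g) x) =
          conj ((φ.comp (g : Om →+* Om)) x) := by
        intro x
        show φ (g ((g⁻¹ * s * g) x)) = conj (φ (g x))
        rw [AlgEquiv.mul_apply, AlgEquiv.mul_apply, apply_inv_self, hs]
      exact hψconj _ _ hc' ⟨conj_mem_PP2 _ _ hc', hgG⟩

theorem main_three (hp : p.Prime) (k₁ k : IntermediateField ℚ Om)
    (hμ : ∀ x : Om, x ^ p = 1 → x ∈ k₁) (hdeg : ¬ p ∣ Module.finrank ℚ k₁)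
    (hk : CyclicExt p k₁ k)
    {l₁ l₂ l₃ : ℕ} (P₁ : l₁.Prime) (P₂ : l₂.Prime) (P₃ : l₃.Prime)
    (n₁ : l₁ ≠ p) (n₂ : l₂ ≠ p) (n₃ : l₃ ≠ p) (n₁₂ : l₁ ≠ l₂) (n₁₃ : l₁ ≠ l₃) (n₂₃ : l₂ ≠ l₃)
    (v₁ : RamDivZ p k l₁) (v₂ : RamDivZ p k l₂) (v₃ : RamDivZ p k l₃)
    (w₁ : ¬ (l₁ : ℤ) ^ (p - 1) ≡ 1 [ZMOD (p ^ 2 : ℕ)])
    (w₂ : ¬ (l₂ : ℤ) ^ (p - 1) ≡ 1 [ZMOD (p ^ 2 : ℕ)])
    (w₃ : ¬ (l₃ : ℤ) ^ (p - 1) ≡ 1 [ZMOD (p ^ 2 : ℕ)]) :
    ¬ FreeGal p (cycZp p k) := by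
  intro hfree
  have hQk : Qmu p ≤ k₁ := adjoin_le_iff.2 fun x hx => hμ x hx
  have hQfin := Qmu_finite hp
  have hdeg' : ¬ p ∣ relfinrank (Qmu p) k₁ := by
    intro h
    apply hdeg
    have h1 := relfinrank_mul_relfinrank (bot_le : (⊥ : IntermediateField ℚ Om) ≤ Qmu p) hQk
    rw [relfinrank_bot_left k₁] at h1
    rw [← h1]
    exact h.mul_left _
  have hk₁fin : FiniteDimensional ℚ k₁ := finite_of_deg (Qmu p) k₁ hQk hdeg'
  have hkfin : FiniteDimensional ℚ k := finite_of_deg (p := p + 1) k₁ k hk.1 (by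
    rw [hk.2.1]
    exact fun h => absurd (Nat.le_of_dvd hp.pos h) (by omega))
  have hidx : ¬ p ∣ (PP p ⊓ k₁.fixingSubgroup).relIndex (PP p) := by
    have h1 := index_MF hp (Qmu p) k₁ hQk hdeg'
    have h2 : MF p (Qmu p) = PP p := Subgroup.ext (MF_Qmu hp)
    rwa [h2] at h1
  obtain ⟨ζ, hζ⟩ := exists_prim p hp.pos
  obtain ⟨z, c, ψ, hz, hc, hψ1, hψ2, hψ3, hψ4, hψ5⟩ := three_psi2 hp hζ k₁ k hμ hidx hk P₁ P₂ P₃
    n₁ n₂ n₃ n₁₂ n₁₃ n₂₃ v₁ v₂ v₃ w₁ w₂ w₃ hfree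
  by_cases hp2 : p = 2
  · subst hp2
    have hζ1 : ζ = -1 := by
      have h1 : ζ * ζ = 1 := by rw [← pow_two]; exact hζ.pow_eq_one
      rcases mul_self_eq_one_iff.mp h1 with h | h
      · exfalso
        rw [h] at hζ
        exact absurd (hζ.unique IsPrimitiveRoot.one) (by norm_num)
      · exact h
    subst hζ1
    refine no_psi_two P₁ ?_ hz hc hψ1 hψ2 hψ3 hψ4 (hψ5 rfl)
    have h2 : l₁ % 2 = 1 := (P₁.eq_two_or_odd).resolve_left n₁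
    have h4 : l₁ % 4 = 1 ∨ l₁ % 4 = 3 := by omega
    rcases h4 with h4 | h4
    · exfalso
      apply w₁
      rw [show (2 - 1 : ℕ) = 1 from rfl, pow_one]
      show (l₁ : ℤ) % _ = 1 % _
      norm_num
      omega
    · exact h4
  · exact no_psi_odd hp hp2 hζ P₁ n₁ w₁ hz hc hψ1 hψ2 hψ3 hψ4

end OzakiFree
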